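import Mathlib
import Pool.Agent.N792.RStm

/-!
Statements (as propositions), uniform in the linear coefficient `b`, `b² ≤ Λ x` (helper791, after helper792):
for every statement `X a b` of helper792 (`b` is fixed, and `x0` depends on it) the statement `XU a Λ` with one `x0`
for all `b` with `b² ≤ Λ x`.
-/

set_option autoImplicit false

namespace Pool.Agent.N791.U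

open Finset Filter Topology Pool.Agent.N792
open ArithmeticFunction (moebius vonMangoldt)

/-- uniform version of `R1` -/
def R1U (a : ℤ) (Λ : ℝ) : Prop := ∀ (η ε : ℝ) (B : ℕ), 0 < η → 0 < ε → ∃ x0 : ℕ, ∀ x : ℕ, x0 ≤ x →
    ∀ b : ℤ, (b : ℝ) ^ 2 ≤ Λ * x →
    ∀ (C z U y : ℕ) (h : ℕ → ℝ), (x : ℝ) ^ (1 / 2 + ε) ≤ C → C ≤ x → (x : ℝ) ^ η ≤ z → y ≤ x →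
    (∀ m ∈ Ioc U y, |h m| ≤ rg z m * (x * Real.log x ^ B / m)) →
    (∀ m ∈ Ioc U y, h m ≠ 0 → Squarefree m) →
    ∑ c ∈ Icc 1 C, |∑ m ∈ Ioc U y, h m * ((rho a b (c : ℕ) m : ℝ) - 1)| ≤ C * x / Real.log x ^ B

/-- uniform version of `R2` -/
def R2U (a : ℤ) : Prop := ∀ (η ε : ℝ), 0 < η → 0 < ε → ∃ x0 : ℕ, ∀ x : ℕ, x0 ≤ x → ∀ b : ℤ, ∀ C z m : ℕ,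
    (x : ℝ) ^ (1 / 2 + ε) ≤ C → C ≤ x → (x : ℝ) ^ η ≤ z → m ≤ x → Rough z m → Squarefree m →
    ∑ c ∈ Icc 1 C, (rho a b (c : ℕ) m : ℝ) ≤ 2 * C

/-- uniform version of `S2` -/
def S2U (a : ℤ) (Λ : ℝ) : Prop := ∀ R A : ℕ, ∃ x0 : ℕ, ∀ x : ℕ, x0 ≤ x → ∀ b : ℤ, (b : ℝ) ^ 2 ≤ Λ * x →
    ∀ x1 c y1 y2 : ℕ, x1 < x → x ≤ R * x1 →
    c ≤ x → (x : ℝ) ^ (1 / 2 : ℝ) ≤ y1 → y1 ≤ y2 → y2 ≤ x →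
    |Ls a b x1 x (fun N => ∑ j ∈ N.divisors.filter (fun j => y1 < j ∧ j ≤ y2), pi0 j * pi0 (N / j)) -
      ∑ m ∈ Ioc x1 x, ∑ p ∈ (Ioc y1 y2).filter Nat.Prime,
        1 / ((p : ℝ) * Real.log (((a : ℝ) * m ^ 2 + b * m + c) / p))| ≤ x / Real.log x ^ A

/-- uniform version of `X2` -/
def X2U (a : ℤ) (Λ : ℝ) : Prop := ∀ R : ℕ, ∀ K1 : ℝ, 1 ≤ K1 → ∃ C4 η0 : ℝ, 0 < C4 ∧ 0 < η0 ∧ ∀ η : ℝ, 0 < η → η ≤ η0 → ∀ E : ℕ,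
    ∃ x0 : ℕ, ∀ x : ℕ, x0 ≤ x → ∀ b : ℤ, (b : ℝ) ^ 2 ≤ Λ * x →
    ∀ x1 C J Jw U : ℕ, x1 < x → x ≤ R * x1 → (x : ℝ) ^ (3 / 5 : ℝ) ≤ C → C ≤ x →
    (x : ℝ) ^ (η / 2) ≤ ((2 ^ 2 ^ J : ℕ) : ℝ) → ((2 ^ 2 ^ J : ℕ) : ℝ) ≤ (x : ℝ) ^ η →
    ((2 ^ 2 ^ Jw : ℕ) : ℝ) ≤ Real.log x ^ E → (U : ℝ) ≤ (x : ℝ) ^ (9 / 10 : ℝ) →
    ∀ Gd ⊆ Icc 1 C, (∀ c ∈ Gd, |Vc a b c (2 ^ 2 ^ J) * V1 (2 ^ 2 ^ Jw) - Vc a b c (2 ^ 2 ^ Jw) * V1 (2 ^ 2 ^ J)| ≤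
      Vc a b c (2 ^ 2 ^ Jw) * V1 (2 ^ 2 ^ J) / Real.log x ^ 3) → (∀ c ∈ Gd, Vc a b c (2 ^ 2 ^ Jw) / V1 (2 ^ 2 ^ Jw) ≤ K1) →
    ∀ g : ℕ → ℝ, (∀ j ≤ U, |g j| ≤ 4 * Real.log x) → (∀ j ≤ U, g j ≠ 0 → Squarefree j) →
    ∑ c ∈ Gd, |Lc a b x1 x c (T1 (2 ^ 2 ^ J) U g) - Vc a b c (2 ^ 2 ^ Jw) / V1 (2 ^ 2 ^ Jw) * Ls a b x1 x (T1 (2 ^ 2 ^ J) U g)| ≤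
      C4 * ((2 : ℝ) ^ (-(1 / (C4 * η))) / η ^ 2) * (C * x)

/-- uniform version of `X3` -/
def X3U (a : ℤ) (Λ : ℝ) (R : ℕ) : Prop := ∃ C3 : ℝ, 0 < C3 ∧ ∀ η ε : ℝ, 0 < η → η ≤ 1 / 10 → 0 < ε → ε ≤ 1 / 100 →
    ∃ x0 : ℕ, ∀ x : ℕ, x0 ≤ x → ∀ b : ℤ, (b : ℝ) ^ 2 ≤ Λ * x →
    ∀ x1 C z y : ℕ, x1 < x → x ≤ R * x1 → (x : ℝ) ^ (7 / 10 : ℝ) ≤ C → C ≤ x →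
    (x : ℝ) ^ η ≤ z → (x : ℝ) ^ (1 - ε) ≤ y →
    ∑ c ∈ Icc 1 C, Lc a b x1 x c (gp z y) ≤ C3 * (ε / η ^ 2) * (C * x / Real.log x) ∧
    Ls a b x1 x (gp z y) ≤ C3 * (ε / η ^ 2) * (x / Real.log x)

/-- uniform version of `X4` -/
def X4U (a : ℤ) (Λ : ℝ) (R : ℕ) : Prop := ∀ η : ℝ, 0 < η → ∃ δ : ℝ, 0 < δ ∧ ∃ x0 : ℕ, ∀ x : ℕ, x0 ≤ x →
    ∀ b : ℤ, (b : ℝ) ^ 2 ≤ Λ * x → ∀ x1 x2 Q V : ℕ,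
    x1 < x2 → x2 ≤ x → x ≤ R * x1 → (x : ℝ) ^ (2 / 5 : ℝ) ≤ Q → (V : ℝ) ≤ (x : ℝ) ^ (4 / 5 + δ) →
    Ls a b x1 x2 (pi3 Q V) ≤ 1 / 16 * (((x2 : ℝ) - x1) / Real.log x) + η * (x / Real.log x)

/-- uniform version of `X6` -/
def X6U (a : ℤ) (Λ : ℝ) : Prop := ∀ R : ℕ, ∀ K1 : ℝ, 1 ≤ K1 → ∃ C2 η0 : ℝ, 0 < C2 ∧ 0 < η0 ∧ ∀ η κ : ℝ, 0 < η → η ≤ η0 → 0 < κ → κ ≤ 1 →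
    ∀ E : ℕ, ∃ x0 : ℕ, ∀ x : ℕ, x0 ≤ x → ∀ b : ℤ, (b : ℝ) ^ 2 ≤ Λ * x →
    ∀ x1 C J Jw K Q U : ℕ, ∀ zs : ℕ → ℕ, x1 < x → x ≤ R * x1 →
    (x : ℝ) ^ (3 / 5 : ℝ) ≤ C → C ≤ x →
    (x : ℝ) ^ (η / 2) ≤ ((2 ^ 2 ^ J : ℕ) : ℝ) → ((2 ^ 2 ^ J : ℕ) : ℝ) ≤ (x : ℝ) ^ η →
    ((2 ^ 2 ^ Jw : ℕ) : ℝ) ≤ Real.log x ^ E → (Q : ℝ) ≤ (x : ℝ) ^ (9 / 20 : ℝ) → (U : ℝ) ≤ (x : ℝ) ^ (9 / 10 : ℝ) →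
    zs 0 = 2 ^ 2 ^ J → zs K = Q → (∀ i < K, zs i ≤ zs (i + 1)) →
    (∀ i < K, Real.log (zs (i + 1)) ≤ (1 + κ) * Real.log (zs i)) →
    Ls a b x1 x (T1 (2 ^ 2 ^ J) U (same K zs)) ≤ C2 * (κ / η ^ 2) * (x / Real.log x) ∧
    ∀ Gd ⊆ Icc 1 C, (∀ c ∈ Gd, |Vc a b c (2 ^ 2 ^ J) * V1 (2 ^ 2 ^ Jw) - Vc a b c (2 ^ 2 ^ Jw) * V1 (2 ^ 2 ^ J)| ≤
      Vc a b c (2 ^ 2 ^ Jw) * V1 (2 ^ 2 ^ J) / Real.log x ^ 3) → (∀ c ∈ Gd, Vc a b c (2 ^ 2 ^ Jw) / V1 (2 ^ 2 ^ Jw) ≤ K1) →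
      ∑ c ∈ Gd, Lc a b x1 x c (T1 (2 ^ 2 ^ J) U (same K zs)) ≤ C2 * (κ / η ^ 2) * (C * x / Real.log x)

/-- uniform version of `X7` -/
def X7U (a : ℤ) (Λ : ℝ) : Prop := ∀ R : ℕ, ∀ η : ℝ, 0 < η → ∃ x0 : ℕ, ∀ x : ℕ, x0 ≤ x → ∀ b : ℤ, (b : ℝ) ^ 2 ≤ Λ * x →
    ∀ x1 C z : ℕ, x1 < x → x ≤ R * x1 →
    (x : ℝ) ^ (3 / 5 : ℝ) ≤ C → C ≤ x → (x : ℝ) ^ η ≤ z →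
    ∑ c ∈ Icc 1 C, Lc a b x1 x c (sqd z) ≤ C * x / Real.log x ^ 2 ∧ Ls a b x1 x (sqd z) ≤ x / Real.log x ^ 2

/-- uniform version of `X8` -/
def X8U (a : ℤ) (Λ : ℝ) : Prop := ∀ U E : ℕ, ∃ x0 : ℕ, ∀ x : ℕ, x0 ≤ x → ∀ b : ℤ, (b : ℝ) ^ 2 ≤ Λ * x → ∀ C : ℕ,
    (x : ℝ) ^ (1 / 2 : ℝ) ≤ C → C ≤ x → ∀ w z : ℕ, Real.log x ^ (3 * U + 9) ≤ w → (w : ℝ) ≤ Real.log x ^ E →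
    w ≤ z → (z : ℝ) ≤ (x : ℝ) ^ (1 / 5 : ℝ) →
    ∃ Ex ⊆ Icc 1 C, (#Ex : ℝ) ≤ C / Real.log x ^ U ∧ ∀ c ∈ Icc 1 C, c ∉ Ex →
      |Vc a b c z * V1 w - Vc a b c w * V1 z| ≤ Vc a b c w * V1 z / Real.log x ^ U ∧
      (Admissible a b c → ∃ S : ℝ, 0 < S ∧ Tendsto (fun y => partialC a b c y) atTop (𝓝 S) ∧
        |eps a b * S * gcdProd a b - Vc a b c w / V1 w| ≤ Vc a b c w / V1 w / Real.log x ^ U)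

/-- uniform version of `X9` -/
def X9U (a : ℤ) (Λ : ℝ) : Prop := ∀ (η : ℝ), 0 < η → ∀ E : ℕ, ∃ θ : ℝ, 0 < θ ∧ ∃ x0 : ℕ, ∀ x : ℕ, x0 ≤ x →
    ∀ b : ℤ, (b : ℝ) ^ 2 ≤ Λ * x →
    ∀ C : ℕ, (x : ℝ) ^ (1 / 2 : ℝ) ≤ C → C ≤ x → ∀ Jw : ℕ, ((2 ^ 2 ^ Jw : ℕ) : ℝ) ≤ Real.log x ^ E →
    ∃ Ex ⊆ Icc 1 C, (#Ex : ℝ) ≤ η * C ∧ ∀ c ∈ Icc 1 C, c ∉ Ex →
      Vc a b c (2 ^ 2 ^ Jw) / V1 (2 ^ 2 ^ Jw) ≤ 1 / θ ∧ (Admissible a b c → θ ≤ Vc a b c (2 ^ 2 ^ Jw) / V1 (2 ^ 2 ^ Jw))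

/-- uniform version of `X10` -/
def X10U (a : ℤ) (Λ : ℝ) : Prop := ∀ (R : ℕ) (η : ℝ), 0 < η → ∃ x0 : ℕ, ∀ x : ℕ, x0 ≤ x → ∀ b : ℤ, (b : ℝ) ^ 2 ≤ Λ * x →
    ∀ x1 x2 : ℕ, x1 < x2 → x2 ≤ x → x ≤ R * x1 →
    |Ls a b x1 x2 pi0 - ((x2 : ℝ) - x1) / (2 * Real.log x)| ≤ η * (x / Real.log x)

/-- uniform version of `main_term` (Mtm.lean) -/
def MTU (a : ℤ) (Λ : ℝ) : Prop := ∀ (ε : ℝ), 0 < ε → ∀ (R A A0 E : ℕ), ∃ x0 : ℕ, ∀ x : ℕ, x0 ≤ x →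
    ∀ b : ℤ, (b : ℝ) ^ 2 ≤ Λ * x →
    ∀ x1 c m Jw t : ℕ, x1 < x → x ≤ R * x1 → 1 ≤ c → c ≤ x → 1 ≤ m → (m : ℝ) ≤ (x : ℝ) ^ (1 - ε) →
    Rough (2 ^ 2 ^ Jw) m → ((2 ^ 2 ^ Jw : ℕ) : ℝ) ≤ Real.log x ^ E →
    Real.log x ^ (A + A0 + 5) ≤ (2 : ℝ) ^ t → (2 : ℝ) ^ t ≤ Real.log x ^ E →
    ∀ β : ℕ → ℝ, (∀ k, |β k| ≤ Real.log x ^ A0) →
    |∑ n ∈ (Ioc x1 x).filter (fun n : ℕ => (m : ℤ) ∣ fv a b c n), sharp t (2 ^ 2 ^ Jw) β ((fv a b c n).toNat / m) -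
      Vc a b c (2 ^ 2 ^ Jw) / V1 (2 ^ 2 ^ Jw) * rho a b c m *
        ∑ k ∈ (Icc 1 (Fn a b x)).filter (fun k => Fn a b x1 < m * k ∧ m * k ≤ Fn a b x), β k * hw a (m * k)| ≤
      rho a b c m * (x / (m * Real.log x ^ A))

/-- uniform version of `ls_lam` (LsLam.lean) -/
def LSLU (a : ℤ) (Λ : ℝ) : Prop := ∀ (R : ℕ) (θ : ℝ), 0 < θ → ∃ x0 : ℕ, ∀ x : ℕ, x0 ≤ x →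
    ∀ b : ℤ, (b : ℝ) ^ 2 ≤ Λ * x →
    ∀ x1 z : ℕ, x1 < x → x ≤ R * x1 → z ≤ x → 1 ≤ z →
    |Ls a b x1 x (fun N => rg z N * vonMangoldt N) - ((x : ℝ) - x1)| ≤ θ * x

/-- uniform version of `pow_avg` (Pow.lean) -/
def PAU (a : ℤ) (Λ : ℝ) : Prop := ∀ R : ℕ, ∃ x0 : ℕ, ∀ x : ℕ, x0 ≤ x → ∀ b : ℤ, (b : ℝ) ^ 2 ≤ Λ * x →
    ∀ x1 C : ℕ, x1 < x → x ≤ R * x1 → C ≤ x →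
    ∑ c ∈ Icc 1 C, Lc a b x1 x c (fun N => if N.Prime then 0 else vonMangoldt N) ≤ x * Real.log x ^ 3

/-- uniform version of `li_asym` (Lia.lean) -/
def LIU (a : ℤ) (Λ : ℝ) : Prop := ∀ θ : ℝ, 0 < θ → ∃ x0 : ℕ, ∀ x : ℕ, x0 ≤ x → ∀ b : ℤ, (b : ℝ) ^ 2 ≤ Λ * x →
    ∀ c ∈ Icc 1 x, ∀ u v : ℕ, u ≤ v → v ≤ x →
    |∑ m ∈ Ioc u v, 1 / Real.log ((a : ℝ) * m ^ 2 + b * m + c) - ((v : ℝ) - u) / (2 * Real.log x)| ≤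
      θ * (x / Real.log x)

/-- uniform version of `ls_rg` (LamB.lean) -/
def LSRU (a : ℤ) (Λ : ℝ) (R : ℕ) : Prop := ∃ K : ℝ, 0 < K ∧ ∀ η : ℝ, 0 < η → η ≤ 1 / 10 →
    ∃ x0 : ℕ, ∀ x : ℕ, x0 ≤ x → ∀ b : ℤ, (b : ℝ) ^ 2 ≤ Λ * x → ∀ x1 z : ℕ, x1 < x → x ≤ R * x1 → (x : ℝ) ^ η ≤ z →
    Ls a b x1 x (rg z) ≤ K * x / (η * Real.log x)

/-- uniform version of `RX.ls_gen` (RX2a.lean) -/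
def LSGU (a : ℤ) (Λ : ℝ) (R : ℕ) : Prop := ∃ C2 η0 : ℝ, 1 ≤ C2 ∧ 0 < η0 ∧ η0 ≤ 1 / 40 ∧ ∀ η : ℝ, 0 < η → η ≤ η0 →
    ∃ x0 : ℕ, ∀ x : ℕ, x0 ≤ x → ∀ b : ℤ, (b : ℝ) ^ 2 ≤ Λ * x → ∀ x1 J U : ℕ, x1 < x → x ≤ R * x1 →
    (x : ℝ) ^ (η / 2) ≤ ((2 ^ 2 ^ J : ℕ) : ℝ) → ((2 ^ 2 ^ J : ℕ) : ℝ) ≤ (x : ℝ) ^ η → (U : ℝ) ≤ (x : ℝ) ^ (9 / 10 : ℝ) →
    ∀ g : ℕ → ℝ,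
    |Ls a b x1 x (T1 (2 ^ 2 ^ J) U g) -
      ((x : ℝ) - x1) * V1 (2 ^ 2 ^ J) * ∑ j ∈ Icc 1 U, rg (2 ^ 2 ^ J) j * g j / j| ≤
      C2 * (2 : ℝ) ^ (-(1 / (C2 * η))) / (η * Real.log x) * x * (∑ j ∈ Icc 1 U, rg (2 ^ 2 ^ J) j * |g j| / j) +
        C2 * ∑ j ∈ Icc 1 U, |g j|

/-- uniform version of `RX.lc_gen` (RX2a.lean) -/
def LCGU (a : ℤ) (Λ : ℝ) (R : ℕ) : Prop := ∃ C3 η0 : ℝ, 1 ≤ C3 ∧ 0 < η0 ∧ η0 ≤ 1 / 40 ∧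
    ∀ η : ℝ, 0 < η → η ≤ η0 → ∃ x0 : ℕ, ∀ x : ℕ, x0 ≤ x → ∀ b : ℤ, (b : ℝ) ^ 2 ≤ Λ * x →
    ∀ x1 C J U : ℕ, x1 < x → x ≤ R * x1 → (x : ℝ) ^ (3 / 5 : ℝ) ≤ C → C ≤ x →
    (x : ℝ) ^ (η / 2) ≤ ((2 ^ 2 ^ J : ℕ) : ℝ) → ((2 ^ 2 ^ J : ℕ) : ℝ) ≤ (x : ℝ) ^ η → (U : ℝ) ≤ (x : ℝ) ^ (9 / 10 : ℝ) →
    ∀ Gd ⊆ Icc 1 C, ∀ M : ℝ, 0 ≤ M → (∀ c ∈ Gd, Vc a b c (2 ^ 2 ^ J) ≤ M) →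
    ∀ g : ℕ → ℝ, (∀ j ≤ U, g j ≠ 0 → Squarefree j) →
    (∑ c ∈ Gd, |Lc a b x1 x c (T1 (2 ^ 2 ^ J) U g) -
      ((x : ℝ) - x1) * Vc a b (c : ℕ) (2 ^ 2 ^ J) *
        ∑ j ∈ Icc 1 U, rg (2 ^ 2 ^ J) j * g j * (rho a b (c : ℕ) j : ℝ) / j| ≤
      C3 * (2 : ℝ) ^ (-(1 / (C3 * η))) * M * (C * x) * (∑ j ∈ Icc 1 U, rg (2 ^ 2 ^ J) j * |g j| / j) +
        C3 * (x : ℝ) ^ (1 / 20 : ℝ) * C * ∑ j ∈ Icc 1 U, |g j|) ∧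
    (∑ c ∈ Gd, |((x : ℝ) - x1) * Vc a b (c : ℕ) (2 ^ 2 ^ J) *
        ∑ j ∈ Icc 1 U, rg (2 ^ 2 ^ J) j * g j * (rho a b (c : ℕ) j : ℝ) / j| ≤
      2 * M * (C * x) * (∑ j ∈ Icc 1 U, rg (2 ^ 2 ^ J) j * |g j| / j))

/-! ### the statements to be proved -/

def S_LSGU : Prop := ∀ a : ℤ, 0 < a → ∀ Λ : ℝ, 1 ≤ Λ → ∀ R, LSGU a Λ R
def S_LCGU : Prop := ∀ a : ℤ, 0 < a → ∀ Λ : ℝ, 1 ≤ Λ → R2U a → ∀ R, LCGU a Λ R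

def S_R1U : Prop := ∀ a : ℤ, 0 < a → ∀ Λ : ℝ, 1 ≤ Λ → R1U a Λ
def S_S2U : Prop := ∀ a : ℤ, 0 < a → ∀ Λ : ℝ, 1 ≤ Λ → S2U a Λ
def S_X2U : Prop := ∀ a : ℤ, 0 < a → ∀ Λ : ℝ, 1 ≤ Λ → R1U a Λ → R2U a → (∀ R, LSGU a Λ R) → (∀ R, LCGU a Λ R) → X2U a Λ
def S_X3U : Prop := ∀ a : ℤ, 0 < a → ∀ Λ : ℝ, 1 ≤ Λ → ∀ R, X3U a Λ R
def S_X4U : Prop := ∀ a : ℤ, 0 < a → ∀ Λ : ℝ, 1 ≤ Λ → ∀ R, X4U a Λ R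
def S_X6U : Prop := ∀ a : ℤ, 0 < a → ∀ Λ : ℝ, 1 ≤ Λ → (∀ R, LSGU a Λ R) → (∀ R, LCGU a Λ R) → X6U a Λ
def S_X7U : Prop := ∀ a : ℤ, 0 < a → ∀ Λ : ℝ, 1 ≤ Λ → X7U a Λ
def S_X8U : Prop := ∀ a : ℤ, 0 < a → ∀ Λ : ℝ, 1 ≤ Λ → X8U a Λ
def S_X9U : Prop := ∀ a : ℤ, 0 < a → ∀ Λ : ℝ, 1 ≤ Λ → X9U a Λ
def S_X10U : Prop := ∀ a : ℤ, 0 < a → ∀ Λ : ℝ, 1 ≤ Λ → X10U a Λ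
def S_MTU : Prop := ∀ a : ℤ, 0 < a → ∀ Λ : ℝ, 1 ≤ Λ → MTU a Λ
def S_LSLU : Prop := ∀ a : ℤ, 0 < a → ∀ Λ : ℝ, 1 ≤ Λ → LSLU a Λ
def S_PAU : Prop := ∀ a : ℤ, 0 < a → ∀ Λ : ℝ, 1 ≤ Λ → PAU a Λ
def S_LIU : Prop := ∀ a : ℤ, 0 < a → ∀ Λ : ℝ, 1 ≤ Λ → LIU a Λ
def S_LSRU : Prop := ∀ a : ℤ, 0 < a → ∀ Λ : ℝ, 1 ≤ Λ → ∀ R, LSRU a Λ R

end Pool.Agent.N791.U
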