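import Mathlib
import Pool.Agent.N792.UA
import Pool.Agent.N792.FlP
import Pool.Agent.N792.FinA
import Pool.Agent.N792.LamB
import Pool.Agent.N792.LsLam
import Pool.Agent.N792.QR2
import Pool.Agent.N791.U.Stm

/-!
Basic facts, uniformly in the linear coefficient `b`, `b² ≤ Λ x` (helper791, after helper792, helper124, helper879).
-/

set_option autoImplicit false

namespace Pool.Agent.N791.U

open Finset Filter Topology Pool.Agent.N792
open ArithmeticFunction (moebius vonMangoldt)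

/-- `|b|` is small compared with `x` -/
lemma ev_b (Λ : ℝ) (hΛ : 1 ≤ Λ) (K : ℝ) : ∀ᶠ x : ℕ in atTop, ∀ b : ℤ, (b : ℝ) ^ 2 ≤ Λ * x → K * (|(b : ℝ)| + 1) ≤ x := by
  filter_upwards [eventually_ge_atTop (⌈2 * K ^ 2 * (Λ + 1)⌉₊ + 1)] with x hx b hb
  have hx1 : 2 * K ^ 2 * (Λ + 1) ≤ x := by
    have h1 := Nat.le_ceil (2 * K ^ 2 * (Λ + 1))
    have h2 : ((⌈2 * K ^ 2 * (Λ + 1)⌉₊ : ℕ) : ℝ) ≤ x := by
      have : ⌈2 * K ^ 2 * (Λ + 1)⌉₊ ≤ x := by omega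
      exact_mod_cast this
    linarith
  have hx0 : (1 : ℝ) ≤ x := by
    have : 1 ≤ x := by omega
    exact_mod_cast this
  apply abs_le_of_sq_le_sq' _ (by linarith) |>.2
  have h4 : (|(b : ℝ)| + 1) ^ 2 ≤ 2 * ((b : ℝ) ^ 2 + 1) := by
    rw [← sq_abs (b : ℝ)]
    nlinarith [sq_nonneg (|(b : ℝ)| - 1)]
  calc (K * (|(b : ℝ)| + 1)) ^ 2 = K ^ 2 * (|(b : ℝ)| + 1) ^ 2 := by ring
    _ ≤ K ^ 2 * (2 * ((b : ℝ) ^ 2 + 1)) := mul_le_mul_of_nonneg_left h4 (by positivity)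
    _ ≤ K ^ 2 * (2 * (Λ * x + x)) := by gcongr
    _ = (2 * K ^ 2 * (Λ + 1)) * x := by ring
    _ ≤ x * x := mul_le_mul_of_nonneg_right hx1 (by linarith)
    _ = (x : ℝ) ^ 2 := by ring

lemma natAbs_real (b : ℤ) : ((b.natAbs : ℕ) : ℝ) = |(b : ℝ)| := by
  rw [Nat.cast_natAbs]; push_cast; rfl

/-- `|b|` is small compared with `x`, natural numbers -/
lemma ev_bn (Λ : ℝ) (hΛ : 1 ≤ Λ) (K : ℕ) : ∀ᶠ x : ℕ in atTop, ∀ b : ℤ, (b : ℝ) ^ 2 ≤ Λ * x → K * (b.natAbs + 1) ≤ x := by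
  filter_upwards [ev_b Λ hΛ K] with x hx b hb
  have h := hx b hb
  rw [← natAbs_real] at h
  exact_mod_cast h

/-- the square roots of the values, second order -/
lemma sqrt_two {a : ℤ} (ha : 0 < a) (b : ℤ) {n : ℕ} (hn : 2 * |b| ≤ n) (hn1 : 1 ≤ n) :
    |√(((Fn a b n : ℕ) : ℝ) / a) - (n + (b : ℝ) / (2 * a))| ≤ (b : ℝ) ^ 2 / n := by
  have ha' : (1 : ℝ) ≤ a := by exact_mod_cast ha
  have hn0 : (0 : ℝ) < n := by exact_mod_cast hn1
  have hb : 2 * |(b : ℝ)| ≤ n := by exact_mod_cast hn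
  have hbn : |b| ≤ (n : ℤ) := by
    have := abs_nonneg b
    omega
  rw [lsl_Fn_cast ha b hbn]
  have e1 : ((a : ℝ) * (n : ℝ) ^ 2 + b * n) / a = (n : ℝ) ^ 2 + b / a * n := by field_simp
  rw [e1]
  obtain ⟨y, hy⟩ : ∃ y : ℝ, y = (n : ℝ) ^ 2 + b / a * n := ⟨_, rfl⟩
  rw [← hy]
  have hba : |(b : ℝ) / (2 * a)| ≤ |(b : ℝ)| / 2 := by
    rw [abs_div, abs_of_pos (by linarith : (0 : ℝ) < 2 * a)]
    apply div_le_div_of_nonneg_left (abs_nonneg _) (by norm_num)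
    linarith
  have hb2 := neg_abs_le ((b : ℝ) / (2 * a))
  obtain ⟨w, hw⟩ : ∃ w : ℝ, w = (n : ℝ) + (b : ℝ) / (2 * a) := ⟨_, rfl⟩
  rw [← hw]
  have hwn : (n : ℝ) / 2 ≤ w := by
    rw [hw]
    have := abs_nonneg (b : ℝ)
    linarith
  have hyw : y = w ^ 2 - (b : ℝ) ^ 2 / (4 * (a : ℝ) ^ 2) := by
    rw [hy, hw]
    field_simp
    ring
  have hbb : (b : ℝ) ^ 2 / (4 * (a : ℝ) ^ 2) ≤ (b : ℝ) ^ 2 / 4 := by
    apply div_le_div_of_nonneg_left (sq_nonneg _) (by norm_num)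
    nlinarith
  have hb4 : (b : ℝ) ^ 2 / 4 ≤ (n : ℝ) ^ 2 / 16 := by
    have : (2 * |(b : ℝ)|) ^ 2 ≤ (n : ℝ) ^ 2 := pow_le_pow_left₀ (by positivity) hb 2
    rw [mul_pow, sq_abs] at this
    linarith
  have hy0 : 0 ≤ y := by
    rw [hyw]
    have : ((n : ℝ) / 2) ^ 2 ≤ w ^ 2 := pow_le_pow_left₀ (by positivity) hwn 2
    nlinarith
  have hs := Real.sq_sqrt hy0
  have hs0 := Real.sqrt_nonneg y
  have h1 : (w - √y) * (w + √y) = (b : ℝ) ^ 2 / (4 * (a : ℝ) ^ 2) := by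
    have : (w - √y) * (w + √y) = w ^ 2 - √y ^ 2 := by ring
    rw [this, hs, hyw]; ring
  have h2 : 0 ≤ w - √y := by
    by_contra hcon
    push Not at hcon
    have : (w - √y) * (w + √y) < 0 := mul_neg_of_neg_of_pos hcon (by linarith)
    have : 0 ≤ (b : ℝ) ^ 2 / (4 * (a : ℝ) ^ 2) := by positivity
    linarith
  rw [abs_sub_comm, abs_of_nonneg h2, le_div_iff₀ hn0]
  have h3 : (w - √y) * (n / 2) ≤ (w - √y) * (w + √y) := mul_le_mul_of_nonneg_left (by linarith) h2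
  have h4 : 0 ≤ (b : ℝ) ^ 2 := sq_nonneg _
  linarith

/-- the difference of the square roots of two values -/
lemma sqrt_diff {a : ℤ} (ha : 0 < a) (b : ℤ) {Λ : ℝ} (hΛ : 1 ≤ Λ) {R x1 x : ℕ} (hb : (b : ℝ) ^ 2 ≤ Λ * x)
    (h1 : x1 < x) (hR : x ≤ R * x1) (hx1 : 2 * |b| ≤ x1) :
    |√(((Fn a b x : ℕ) : ℝ) / a) - √(((Fn a b x1 : ℕ) : ℝ) / a) - ((x : ℝ) - x1)| ≤ (R + 1) * Λ := by
  have hx11 : 1 ≤ x1 := by
    rcases Nat.eq_zero_or_pos x1 with h | h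
    · rw [h] at hR; omega
    · exact h
  have hx0 : (0 : ℝ) < x := by exact_mod_cast (by omega : 0 < x)
  have hx10 : (0 : ℝ) < x1 := by exact_mod_cast hx11
  have hxx : 2 * |b| ≤ (x : ℤ) := hx1.trans (by exact_mod_cast h1.le)
  have e1 := sqrt_two ha b hx1 hx11
  have e2 := sqrt_two ha b hxx (by omega)
  have hRr : (x : ℝ) ≤ R * x1 := by exact_mod_cast hR
  have e3 : (b : ℝ) ^ 2 / x ≤ Λ := by rw [div_le_iff₀ hx0]; exact hb
  have e4 : (b : ℝ) ^ 2 / x1 ≤ R * Λ := by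
    rw [div_le_iff₀ hx10]
    calc (b : ℝ) ^ 2 ≤ Λ * x := hb
      _ ≤ Λ * (R * x1) := mul_le_mul_of_nonneg_left hRr (by linarith)
      _ = _ := by ring
  have a1 := abs_le.1 (e1.trans e4)
  have a2 := abs_le.1 (e2.trans e3)
  rw [abs_le]
  constructor <;> linarith [a1.1, a1.2, a2.1, a2.2]

/-- the range of the values -/
lemma range_bdU (a : ℤ) (ha : 0 < a) (Λ : ℝ) (hΛ : 1 ≤ Λ) (R : ℕ) : ∃ c0 A : ℝ, 0 < c0 ∧ 1 ≤ A ∧ ∃ X0 : ℕ, ∀ x : ℕ, X0 ≤ x →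
    ∀ b : ℤ, (b : ℝ) ^ 2 ≤ Λ * x →
    ∀ x1 : ℕ, x1 < x → x ≤ R * x1 → 2 * b.natAbs ≤ x1 ∧ c0 * (x : ℝ) ^ 2 ≤ Fn a b x1 ∧
      ((Fn a b x : ℕ) : ℝ) + x ≤ A * (x : ℝ) ^ 2 := by
  have har : (1 : ℝ) ≤ a := by exact_mod_cast ha
  obtain ⟨X0, hX0⟩ := eventually_atTop.1 (ev_bn Λ hΛ (4 * (R + 1)))
  refine ⟨1 / (2 * (R + 1) ^ 2), a + 2, by positivity, by linarith, X0 + 1, ?_⟩
  intro x hx b hb x1 hx1 hxR
  have hbx := hX0 x (by omega) b hb
  have hb1 : 2 * b.natAbs ≤ x1 := by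
    by_contra hcon
    have h1 : x1 + 1 ≤ 2 * b.natAbs := by omega
    have h2 : R * x1 ≤ R * (2 * b.natAbs) := Nat.mul_le_mul_left _ (by omega)
    nlinarith
  have hb2 : b.natAbs ≤ x1 := by omega
  have e1 : ((Fn a b x1 : ℕ) : ℝ) = a * x1 ^ 2 + b * x1 := by exact_mod_cast Mtm.Fn_cast (b := b) ha hb2
  have e2 : ((Fn a b x : ℕ) : ℝ) = a * x ^ 2 + b * x := by exact_mod_cast Mtm.Fn_cast (b := b) ha (by omega)
  have hb3 : 2 * |(b : ℝ)| ≤ x1 := by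
    have : ((2 * b.natAbs : ℕ) : ℝ) ≤ x1 := by exact_mod_cast hb1
    push_cast at this
    rwa [Nat.cast_natAbs, Int.cast_abs] at this
  refine ⟨hb1, ?_, ?_⟩
  · rw [e1]
    have h1 : (x : ℝ) ≤ (R + 1) * x1 := by
      have : (x : ℝ) ≤ R * x1 := by exact_mod_cast hxR
      have h0 : (0 : ℝ) ≤ x1 := Nat.cast_nonneg _
      linarith
    have h2 : (x : ℝ) ^ 2 ≤ ((R + 1) * x1) ^ 2 := by
      apply pow_le_pow_left₀ (Nat.cast_nonneg _) h1
    have h3 : 1 / (2 * ((R : ℝ) + 1) ^ 2) * (x : ℝ) ^ 2 ≤ (x1 : ℝ) ^ 2 / 2 := by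
      rw [div_mul_eq_mul_div, div_le_div_iff₀ (by positivity) (by norm_num)]
      nlinarith
    have h4 : -(|(b : ℝ)| * x1) ≤ b * x1 := by
      have := neg_abs_le (b : ℝ)
      have h0 : (0 : ℝ) ≤ x1 := Nat.cast_nonneg _
      nlinarith
    have h5 : |(b : ℝ)| * x1 ≤ x1 ^ 2 / 2 := by
      have h0 : (0 : ℝ) ≤ x1 := Nat.cast_nonneg _
      nlinarith
    have h6 : (x1 : ℝ) ^ 2 ≤ a * x1 ^ 2 := by
      have h0 : (0 : ℝ) ≤ (x1 : ℝ) ^ 2 := by positivity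
      nlinarith
    linarith
  · rw [e2]
    have hx1' : (1 : ℝ) ≤ x := by exact_mod_cast (by omega : 1 ≤ x)
    have h1 : (x : ℝ) ≤ (x : ℝ) ^ 2 := by nlinarith
    have hxx1 : (x1 : ℝ) ≤ x := by exact_mod_cast hx1.le
    have h2 : (b : ℝ) * x ≤ x * x := by
      apply mul_le_mul_of_nonneg_right _ (by linarith)
      have := le_abs_self (b : ℝ)
      have := abs_nonneg (b : ℝ)
      linarith
    nlinarith

open Classical in
theorem fl_polyU (a : ℤ) (ha : 0 < a) : ∃ C1 : ℕ, 1 ≤ C1 ∧ ∀ b : ℤ, ∀ b0 : ℕ, C1 ≤ b0 → ∀ (J m n1 n2 : ℕ) (c : ℤ),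
    1 ≤ m → Rough (2 ^ 2 ^ J) m → n1 ≤ n2 →
    |(#((Ioc n1 n2).filter (fun n : ℕ => (m : ℤ) ∣ fv a b c n ∧ Rough (2 ^ 2 ^ J) (fv a b c n).natAbs)) : ℝ) -
      rho a b c m / m * ((n2 : ℝ) - n1) * Vc a b c (2 ^ 2 ^ J)| ≤
      (1 / 2) ^ b0 * (rho a b c m / m * ((n2 : ℝ) - n1) * Vc a b c (2 ^ 2 ^ J)) +
        rho a b c m * (C1 * (J + 2) * (2 ^ 2 ^ J) ^ (C1 * b0)) := by
  obtain ⟨C, hC, H⟩ := fl_gen'
  obtain ⟨z0, hz0⟩ : ∃ z0 : ℕ, z0 = 3 * C + a.natAbs := ⟨_, rfl⟩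
  refine ⟨z0 ^ z0 + 3 * C, by omega, ?_⟩
  intro b b0 hb0 J m n1 n2 c hm hmr hn
  obtain ⟨P', hP'⟩ : ∃ P' : Finset ℕ, ∀ p, p ∈ P' ↔ (1 ≤ p ∧ p ≤ 2 ^ 2 ^ J) ∧ p.Prime :=
    ⟨(Icc 1 (2 ^ 2 ^ J)).filter (fun p => p.Prime), fun p => by rw [mem_filter, mem_Icc]⟩
  have h2J : 2 ≤ 2 ^ 2 ^ J := by
    calc 2 = 2 ^ 1 := by norm_num
      _ ≤ 2 ^ 2 ^ J := Nat.pow_le_pow_right (by norm_num) (Nat.one_le_two_pow)
  have h := H 2 b0 J z0 m n1 n2 P' (fun p => (range p).filter (fun r : ℕ => (p : ℤ) ∣ fv a b c r))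
    ((range m).filter (fun r : ℕ => (m : ℤ) ∣ fv a b c r))
    ((Ioc n1 n2).filter (fun n : ℕ => (m : ℤ) ∣ fv a b c n ∧ Rough (2 ^ 2 ^ J) (fv a b c n).natAbs))
    le_rfl (by omega) (by omega) hm hn (Finset.filter_subset _ _)
    (by
      intro p hp
      rw [hP'] at hp
      refine ⟨hp.2, hp.1.2, fun hd => ?_⟩
      have := hmr.2 p hp.2 hd
      omega)
    (fun p _ => Finset.filter_subset _ _)
    (by
      intro p hp hpz
      rw [hP'] at hp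
      have h1 := rho_le_two a b c p hp.2 (by
        intro hd
        have := Int.le_of_dvd ha hd
        omega)
      exact h1)
    (by
      intro n
      rw [mem_filter, mem_Ioc]
      constructor
      · rintro ⟨h0, h1, h2, h3⟩
        refine ⟨h0, ?_, ?_⟩
        · rw [mem_filter, mem_range]
          exact ⟨Nat.mod_lt _ (by omega), (fv_mod a b c m n).1 h1⟩
        · intro p hp hpm
          rw [hP'] at hp
          rw [mem_filter, mem_range] at hpm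
          have h4 := (fv_mod a b c p n).2 hpm.2
          have h5 : p ∣ (fv a b c n).natAbs := Int.natCast_dvd.1 h4
          have := h3 p hp.2 h5
          omega
      · rintro ⟨h0, h1, h2⟩
        rw [mem_filter, mem_range] at h1
        refine ⟨h0, (fv_mod a b c m n).2 h1.2, ?_, ?_⟩
        · intro h3
          rw [Int.natAbs_eq_zero] at h3
          have h4 : (2 : ℕ) ∈ P' := by
            rw [hP']; exact ⟨⟨by norm_num, h2J⟩, Nat.prime_two⟩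
          apply h2 2 h4
          rw [mem_filter, mem_range]
          refine ⟨Nat.mod_lt _ (by norm_num), (fv_mod a b c 2 n).1 ?_⟩
          rw [h3]; exact dvd_zero _
        · intro p hp hpd
          by_contra hlt
          have hpP : p ∈ P' := by rw [hP']; exact ⟨⟨hp.one_le, by omega⟩, hp⟩
          apply h2 p hpP
          rw [mem_filter, mem_range]
          exact ⟨Nat.mod_lt _ hp.pos, (fv_mod a b c p n).1 (Int.natCast_dvd.2 hpd)⟩)
  have hV : (rho a b c m : ℝ) / m * ((n2 : ℝ) - n1) * Vc a b c (2 ^ 2 ^ J) =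
      ((n2 : ℝ) - n1) * ((#((range m).filter (fun r : ℕ => (m : ℤ) ∣ fv a b c r)) : ℝ) / m) *
        ∏ p ∈ P', (1 - (#((range p).filter (fun r : ℕ => (p : ℤ) ∣ fv a b c r)) : ℝ) / p) := by
    have e1 : Vc a b c (2 ^ 2 ^ J) = ∏ p ∈ P', (1 - (#((range p).filter (fun r : ℕ => (p : ℤ) ∣ fv a b c r)) : ℝ) / p) := by
      unfold Vc rho
      apply Finset.prod_congr _ (fun _ _ => rfl)
      ext p
      rw [mem_filter, mem_Icc, hP']
    rw [e1]
    unfold rho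
    ring
  rw [hV]
  refine h.trans ?_
  have hlast : (#((range m).filter (fun r : ℕ => (m : ℤ) ∣ fv a b c r)) : ℝ) * (z0 : ℝ) ^ z0 * ((J : ℝ) + 2) *
      ((2 ^ 2 ^ J) ^ (C * b0)) ^ 2 ≤
      (rho a b c m : ℝ) * (((z0 ^ z0 + 3 * C : ℕ) : ℝ) * ((J : ℝ) + 2) * (2 ^ 2 ^ J) ^ ((z0 ^ z0 + 3 * C) * b0)) := by
    have h0 : (#((range m).filter (fun r : ℕ => (m : ℤ) ∣ fv a b c r)) : ℝ) = (rho a b c m : ℝ) := rfl
    rw [h0, ← pow_mul]
    have h1 : (1 : ℝ) ≤ 2 ^ 2 ^ J := one_le_pow₀ (by norm_num)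
    have h2 : ((2 : ℝ) ^ 2 ^ J) ^ (C * b0 * 2) ≤ ((2 : ℝ) ^ 2 ^ J) ^ ((z0 ^ z0 + 3 * C) * b0) := by
      apply pow_le_pow_right₀ h1
      nlinarith [Nat.zero_le (z0 ^ z0 * b0), Nat.zero_le (C * b0)]
    have h3 : (z0 : ℝ) ^ z0 ≤ ((z0 ^ z0 + 3 * C : ℕ) : ℝ) := by
      push_cast
      have : (0 : ℝ) ≤ 3 * C := by positivity
      linarith
    rw [mul_assoc, mul_assoc, ]
    apply mul_le_mul_of_nonneg_left _ (Nat.cast_nonneg _)
    rw [← mul_assoc]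
    apply mul_le_mul _ h2 (by positivity) (by positivity)
    exact mul_le_mul_of_nonneg_right h3 (by positivity)
  linarith


theorem rough_avg5U (a : ℤ) : ∃ C5 : ℝ, 0 < C5 ∧ ∀ η : ℝ, 0 < η → η ≤ 1 / 10 →
    ∃ x0 : ℕ, ∀ x : ℕ, x0 ≤ x → ∀ b : ℤ, ∀ x1 x2 C z j : ℕ, x1 ≤ x2 → x2 ≤ x → (x : ℝ) ^ (1 / 2 : ℝ) ≤ C → C ≤ x →
    (x : ℝ) ^ η ≤ z → 1 ≤ j → (j : ℝ) ≤ (x : ℝ) ^ (2 / 5 : ℝ) →
    ∑ c ∈ Icc 1 C, Lc a b x1 x2 c (fun N => if j ∣ N then rg z (N / j) else 0) ≤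
      C5 * (C * ((x2 : ℝ) - x1 + x / Real.log x ^ 2) / (j * (η * Real.log x))) := by
  classical
  obtain ⟨C0, hC0, H⟩ := rough_count
  refine ⟨3 * C0, by positivity, fun η hη hη1 => ?_⟩
  obtain ⟨x0, hx0⟩ := H η hη hη1
  refine ⟨max x0 3, fun x hx b x1 x2 C z j hx12 hx2 hxC hCx hz hj hjx => ?_⟩
  have hH := hx0 x ((le_max_left _ _).trans hx) z hz
  have hx3 : (3 : ℝ) ≤ x := by exact_mod_cast (le_max_right _ _).trans hx
  have hxpos : (0 : ℝ) < x := by linarith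
  have hx1 : (1 : ℝ) ≤ x := by linarith
  have hlog : 1 ≤ Real.log x := by
    rw [Real.le_log_iff_exp_le hxpos]
    have := Real.exp_one_lt_d9
    linarith
  have hj0 : (0 : ℝ) < j := by exact_mod_cast hj
  -- C / j >= x ^ (1/10)
  have hCj : (x : ℝ) ^ (1 / 10 : ℝ) ≤ C / j := by
    rw [le_div_iff₀ hj0]
    calc (x : ℝ) ^ (1 / 10 : ℝ) * j ≤ (x : ℝ) ^ (1 / 10 : ℝ) * (x : ℝ) ^ (2 / 5 : ℝ) := by gcongr
      _ = (x : ℝ) ^ (1 / 2 : ℝ) := by rw [← Real.rpow_add hxpos]; norm_num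
      _ ≤ C := hxC
  have h15 : (x : ℝ) ^ (1 / 15 : ℝ) ≤ C / j :=
    (Real.rpow_le_rpow_of_exponent_le hx1 (by norm_num)).trans hCj
  have h1Cj : 1 ≤ (C : ℝ) / j := (Real.one_le_rpow hx1 (by norm_num)).trans hCj
  -- swap the sums
  unfold Lc
  rw [sum_comm]
  have hn : ∀ n ∈ Ioc x1 x2, ∑ c ∈ Icc 1 C, (if j ∣ (fv a b (c : ℕ) n).toNat then
      rg z ((fv a b (c : ℕ) n).toNat / j) else 0) ≤ 3 * C0 * (C / j) / (η * Real.log x) := by
    intro n _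
    set F : ℤ := fv a b 0 n with hF
    have hfv : ∀ c : ℕ, fv a b c n = F + c := by
      intro c
      rw [hF]
      unfold fv
      ring
    set k1 : ℕ := F.toNat / j with hk1
    set k2 : ℕ := (F + C).toNat / j with hk2
    have hk12 : k1 ≤ k2 := Nat.div_le_div_right (Int.toNat_le_toNat (by omega))
    have hk21 : (k2 : ℝ) - k1 ≤ C / j + 1 := by
      have h1 : (k2 : ℝ) ≤ ((F + C).toNat : ℝ) / j := Nat.cast_div_le
      have h2 : ((F.toNat : ℕ) : ℝ) / j < k1 + 1 := by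
        rw [div_lt_iff₀ hj0]
        have := Nat.lt_mul_div_succ F.toNat (show 0 < j by omega)
        have h3 : (F.toNat : ℝ) < j * ((F.toNat / j : ℕ) + 1) := by exact_mod_cast this
        rw [← hk1] at h3
        linarith
      have h3 : ((F + C).toNat : ℝ) ≤ F.toNat + C := by
        have : (F + C).toNat ≤ F.toNat + C := by omega
        exact_mod_cast this
      have h4 : ((F + C).toNat : ℝ) / j ≤ (F.toNat : ℝ) / j + C / j := by
        rw [← add_div]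
        gcongr
      linarith
    have hcount : ∑ c ∈ Icc 1 C, (if j ∣ (fv a b (c : ℕ) n).toNat then
        rg z ((fv a b (c : ℕ) n).toNat / j) else 0) ≤
        (#((Ioc k1 k2).filter (fun k => Rough z k)) : ℝ) := by
      have h1 : ∑ c ∈ Icc 1 C, (if j ∣ (fv a b (c : ℕ) n).toNat then
          rg z ((fv a b (c : ℕ) n).toNat / j) else 0) =
          (#((Icc 1 C).filter (fun c : ℕ => j ∣ (fv a b (c : ℕ) n).toNat ∧
            Rough z ((fv a b (c : ℕ) n).toNat / j))) : ℝ) := by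
        rw [card_filter]
        push_cast
        refine sum_congr rfl fun c _ => ?_
        unfold rg
        by_cases h1 : j ∣ (fv a b (c : ℕ) n).toNat
        · by_cases h2 : Rough z ((fv a b (c : ℕ) n).toNat / j)
          · simp [h1, h2]
          · simp [h1, h2]
        · simp [h1]
      rw [h1]
      norm_cast
      apply card_le_card_of_injOn (fun c : ℕ => (fv a b (c : ℕ) n).toNat / j)
      · intro c hc
        simp only [coe_filter, Set.mem_ofPred_eq, mem_Icc, mem_Ioc] at hc ⊢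
        obtain ⟨⟨hc1, hc2⟩, hc3, hc4⟩ := hc
        rw [hfv] at hc3 hc4 ⊢
        have hne : (F + c).toNat / j ≠ 0 := hc4.1
        have hne2 : (F + c).toNat ≠ 0 := by
          intro h
          rw [h, Nat.zero_div] at hne
          exact hne rfl
        refine ⟨⟨?_, ?_⟩, hc4⟩
        · rw [hk1]
          apply Nat.lt_of_mul_lt_mul_left (a := j)
          rw [Nat.mul_div_cancel' hc3]
          have h5 : j * (F.toNat / j) ≤ F.toNat := Nat.mul_div_le _ _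
          omega
        · rw [hk2]
          exact Nat.div_le_div_right (Int.toNat_le_toNat (by omega))
      · intro c hc c' hc' hcc'
        simp only [coe_filter, Set.mem_ofPred_eq, mem_Icc] at hc hc'
        obtain ⟨⟨hc1, hc2⟩, hc3, hc4⟩ := hc
        obtain ⟨⟨hc1', hc2'⟩, hc3', hc4'⟩ := hc'
        rw [hfv] at hc3 hc4 hc3' hc4'
        simp only [hfv] at hcc'
        have hne : (F + c).toNat ≠ 0 := by
          intro h
          have := hc4.1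
          rw [h, Nat.zero_div] at this
          exact this rfl
        have hne' : (F + c').toNat ≠ 0 := by
          intro h
          have := hc4'.1
          rw [h, Nat.zero_div] at this
          exact this rfl
        have h5 : (F + c).toNat = (F + c').toNat := by
          rw [← Nat.mul_div_cancel' hc3, ← Nat.mul_div_cancel' hc3', hcc']
        omega
    refine hcount.trans ((hH k1 k2 hk12).trans ?_)
    apply div_le_div_of_nonneg_right _ (by positivity)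
    have : ((k2 : ℝ) - k1) + (x : ℝ) ^ (1 / 15 : ℝ) ≤ 3 * (C / j) := by linarith
    nlinarith
  refine (sum_le_sum hn).trans ?_
  rw [sum_const, Nat.card_Ioc, nsmul_eq_mul, Nat.cast_sub hx12]
  have h1 : 0 ≤ (x : ℝ) / Real.log x ^ 2 := by positivity
  have h2 : 3 * C0 * (C * ((x2 : ℝ) - x1 + x / Real.log x ^ 2) / (j * (η * Real.log x))) =
      ((x2 : ℝ) - x1 + x / Real.log x ^ 2) * (3 * C0 * (C / j) / (η * Real.log x)) := by
    field_simp
  rw [h2]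
  apply mul_le_mul_of_nonneg_right _ (by positivity)
  linarith


theorem small_avg5U (a : ℤ) : ∃ C6 : ℝ, 0 < C6 ∧ ∃ x0 : ℕ, ∀ x : ℕ, x0 ≤ x → ∀ b : ℤ, ∀ x1 C : ℕ, x1 ≤ x →
    (x : ℝ) ^ (1 / 2 : ℝ) ≤ C → C ≤ x →
    ∑ c ∈ Icc 1 C, (#((Icc 1 x1).filter (fun m : ℕ => (fv a b c m).toNat.Prime)) : ℝ) ≤
      C6 * (C * ((x1 : ℝ) + x / Real.log x ^ 2) / Real.log x) := by
  obtain ⟨C5, hC5, H⟩ := rough_avg5U a
  obtain ⟨x0, hx0⟩ := H (1 / 10) (by norm_num) le_rfl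
  -- the elementary inequality
  have hlo : ∀ᶠ x : ℕ in atTop, 2 * Real.log x ^ 3 ≤ (x : ℝ) ^ (2 / 5 : ℝ) := by
    have h := (isLittleO_log_rpow_rpow_atTop (s := 2 / 5) 3 (by norm_num)).bound
      (show (0 : ℝ) < 1 / 2 by norm_num)
    have h' := tendsto_natCast_atTop_atTop.eventually (h.and (eventually_ge_atTop (1 : ℝ)))
    filter_upwards [h'] with x hx
    obtain ⟨hx, hx1⟩ := hx
    have hl : 0 ≤ Real.log x := Real.log_nonneg hx1
    rw [Real.norm_of_nonneg (by positivity), Real.norm_of_nonneg (by positivity)] at hx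
    have : Real.log (x : ℝ) ^ (3 : ℝ) = Real.log x ^ 3 := by
      rw [show (3 : ℝ) = ((3 : ℕ) : ℝ) by norm_num, Real.rpow_natCast]
    rw [this] at hx
    linarith
  obtain ⟨x2, hx2⟩ := eventually_atTop.1 hlo
  refine ⟨10 * C5 + 1, by positivity, max x0 (max x2 3), fun x hx b x1 C hx1 hxC hCx => ?_⟩
  have hxx0 : x0 ≤ x := (le_max_left _ _).trans hx
  have hxx2 : x2 ≤ x := ((le_max_left _ _).trans (le_max_right _ _)).trans hx
  have hx3 : (3 : ℝ) ≤ x := by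
    exact_mod_cast ((le_max_right _ _).trans (le_max_right _ _)).trans hx
  have hxpos : (0 : ℝ) < x := by linarith
  have hlog : 1 ≤ Real.log x := by
    rw [Real.le_log_iff_exp_le hxpos]
    have := Real.exp_one_lt_d9
    linarith
  set z : ℕ := ⌈(x : ℝ) ^ (1 / 10 : ℝ)⌉₊ with hz
  have hz1 : (x : ℝ) ^ (1 / 10 : ℝ) ≤ z := Nat.le_ceil _
  have hX1 : 1 ≤ (x : ℝ) ^ (1 / 10 : ℝ) := Real.one_le_rpow (by linarith) (by norm_num)
  have hz2 : (z : ℝ) ≤ 2 * (x : ℝ) ^ (1 / 10 : ℝ) := by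
    have := Nat.ceil_lt_add_one (a := (x : ℝ) ^ (1 / 10 : ℝ)) (by positivity)
    linarith
  have h1 := hx0 x hxx0 b 0 x1 C z 1 (Nat.zero_le _) hx1 hxC hCx hz1 le_rfl
    (by simpa using Real.one_le_rpow (show (1 : ℝ) ≤ x by linarith) (show (0 : ℝ) ≤ 2 / 5 by norm_num))
  -- pointwise comparison
  have h2 : ∀ c ∈ Icc 1 C, (#((Icc 1 x1).filter (fun m : ℕ => (fv a b (c : ℕ) m).toNat.Prime)) : ℝ) ≤
      Lc a b 0 x1 c (fun N => if 1 ∣ N then rg z (N / 1) else 0) +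
        ∑ m ∈ Icc 1 x1, if ((fv a b (c : ℕ) m).toNat.Prime ∧ (fv a b (c : ℕ) m).toNat ≤ z) then (1 : ℝ) else 0 := by
    intro c _
    rw [card_filter]
    push_cast
    have h3 : Lc a b 0 x1 c (fun N => if 1 ∣ N then rg z (N / 1) else 0) =
        ∑ m ∈ Icc 1 x1, rg z (fv a b (c : ℕ) m).toNat := by
      unfold Lc
      simp only [one_dvd, if_true, Nat.div_one]
      rfl
    rw [h3, ← sum_add_distrib]
    apply sum_le_sum
    intro m _
    have h4 := rg_nonneg' z (fv a b (c : ℕ) m).toNat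
    by_cases hp : (fv a b (c : ℕ) m).toNat.Prime
    · by_cases hle : (fv a b (c : ℕ) m).toNat ≤ z
      · rw [if_pos hp, if_pos ⟨hp, hle⟩]
        linarith
      · rw [if_pos hp, if_neg (fun h => hle h.2), rg_prime hp (not_le.1 hle), add_zero]
    · rw [if_neg hp, if_neg (fun h => hp h.1)]
      linarith
  have h5 : ∑ c ∈ Icc 1 C, ∑ m ∈ Icc 1 x1, (if ((fv a b (c : ℕ) m).toNat.Prime ∧
      (fv a b (c : ℕ) m).toNat ≤ z) then (1 : ℝ) else 0) ≤ x1 * z := by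
    rw [sum_comm]
    calc _ ≤ ∑ m ∈ Icc 1 x1, (z : ℝ) := by
          apply sum_le_sum
          intro m _
          have h6 := small_count a b m z C
          rw [card_filter] at h6
          exact_mod_cast h6
      _ = x1 * z := by simp
  have h7 : ∑ c ∈ Icc 1 C, (#((Icc 1 x1).filter (fun m : ℕ => (fv a b (c : ℕ) m).toNat.Prime)) : ℝ) ≤
      C5 * (C * ((x1 : ℝ) - (0 : ℕ) + x / Real.log x ^ 2) / ((1 : ℕ) * ((1 / 10) * Real.log x))) + x1 * z := by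
    refine (sum_le_sum h2).trans ?_
    rw [sum_add_distrib]
    exact add_le_add h1 h5
  have hx1x : (x1 : ℝ) ≤ x := by exact_mod_cast hx1
  have h8 : (x1 : ℝ) * z ≤ C * ((x1 : ℝ) + x / Real.log x ^ 2) / Real.log x := by
    have h9 := hx2 x hxx2
    have e1 : (x : ℝ) ^ (1 / 2 : ℝ) = (x : ℝ) ^ (1 / 10 : ℝ) * (x : ℝ) ^ (2 / 5 : ℝ) := by
      rw [← Real.rpow_add hxpos]; norm_num
    have h10 : 2 * (x : ℝ) ^ (1 / 10 : ℝ) * Real.log x ^ 3 ≤ C := by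
      calc 2 * (x : ℝ) ^ (1 / 10 : ℝ) * Real.log x ^ 3 = (x : ℝ) ^ (1 / 10 : ℝ) * (2 * Real.log x ^ 3) := by ring
        _ ≤ (x : ℝ) ^ (1 / 10 : ℝ) * (x : ℝ) ^ (2 / 5 : ℝ) := by gcongr
        _ ≤ C := by rw [← e1]; exact hxC
    have hl0 : 0 < Real.log x := by linarith
    rw [le_div_iff₀ hl0]
    have h11 : (x1 : ℝ) * z * Real.log x ≤ x * (2 * (x : ℝ) ^ (1 / 10 : ℝ)) * Real.log x := by
      gcongr
    have h12 : (C : ℝ) * (x / Real.log x ^ 2) ≥ x * (2 * (x : ℝ) ^ (1 / 10 : ℝ)) * Real.log x := by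
      rw [ge_iff_le, ← mul_div_assoc, le_div_iff₀ (by positivity)]
      have h14 : (x : ℝ) * (2 * (x : ℝ) ^ (1 / 10 : ℝ)) * Real.log x * Real.log x ^ 2 =
            (2 * (x : ℝ) ^ (1 / 10 : ℝ) * Real.log x ^ 3) * x := by ring
      rw [h14]
      gcongr
    have h13 : 0 ≤ (C : ℝ) * x1 := by positivity
    nlinarith
  refine h7.trans ?_
  have e2 : C5 * (C * ((x1 : ℝ) - (0 : ℕ) + x / Real.log x ^ 2) / ((1 : ℕ) * ((1 / 10) * Real.log x))) =
      10 * C5 * (C * ((x1 : ℝ) + x / Real.log x ^ 2) / Real.log x) := by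
    have hl0 : Real.log x ≠ 0 := by linarith
    push_cast
    field_simp
    ring
  rw [e2]
  linarith


/-- **R2** -/
theorem r2U (a : ℤ) (ha : 0 < a) : R2U a := by
  intro η ε hη hε
  have e1 := RhB.card_div_le η hη
  have e2 := ev_log_pow (2 * a + 1) 0 hη
  have e3 := ev_log_pow ((2 : ℝ) ^ (2 / η) * 16) 1 hε
  have e4 : ∀ᶠ x : ℕ in atTop, (1 : ℝ) ≤ Real.log x := Shp.log_ge 1
  obtain ⟨x0, hx0⟩ := eventually_atTop.1 (((e1.and e2).and e3).and e4)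
  refine ⟨max x0 3, fun x hx b C z m hC1 hC2 hz hm hr hsq => ?_⟩
  obtain ⟨⟨⟨f1, f2⟩, f3⟩, f4⟩ := hx0 x ((le_max_left _ _).trans hx)
  have hx3 : 3 ≤ x := (le_max_right _ _).trans hx
  rw [pow_zero, mul_one] at f2
  rw [pow_one] at f3
  have hxpos : (0 : ℝ) < x := by
    have : 0 < x := by omega
    exact_mod_cast this
  have hx1' : (1 : ℝ) ≤ x := by
    have : 1 ≤ x := by omega
    exact_mod_cast this
  have hza : 2 * a < z := by
    have h1 : (2 * (a : ℝ)) < z := by linarith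
    exact_mod_cast h1
  have hm0 : m ≠ 0 := hr.1
  have hcard : (#m.divisors : ℝ) ≤ (2 : ℝ) ^ (2 / η) := f1 z m hz (by nlinarith) hr
  have h1 : ∀ c ∈ Icc 1 C, (rho a b (c : ℕ) m : ℝ) =
      ∑ d ∈ m.divisors, ((jacobiSym (b ^ 2 - 4 * a * (c : ℕ)) d : ℤ) : ℝ) := by
    intro c _
    have h2 := RhA.rho_sum a b c m hsq (fun p hp hpm => RhA.rough_cop ha hza hr p hp hpm)
    exact_mod_cast h2
  rw [sum_congr rfl h1, sum_comm]
  have h2 : ∀ d ∈ m.divisors, ∑ c ∈ Icc 1 C, ((jacobiSym (b ^ 2 - 4 * a * (c : ℕ)) d : ℤ) : ℝ) ≤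
      (if d = 1 then (C : ℝ) else 0) + 8 * √(x : ℝ) * (1 + Real.log x) := by
    intro d hd
    rw [Nat.mem_divisors] at hd
    have hd0 : 0 < d := Nat.pos_of_dvd_of_pos hd.1 (Nat.pos_of_ne_zero hm0)
    have hdx : d ≤ x := (Nat.le_of_dvd (Nat.pos_of_ne_zero hm0) hd.1).trans hm
    have hnn : 0 ≤ 8 * √(x : ℝ) * (1 + Real.log x) := by positivity
    by_cases hd1 : d = 1
    · subst hd1
      simp only [jacobiSym.one_right, Int.cast_one, sum_const, Nat.card_Icc, Nat.add_sub_cancel, nsmul_eq_mul,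
        mul_one, if_true]
      linarith
    · rw [if_neg hd1, zero_add]
      have hsd : Squarefree d := hsq.squarefree_of_dvd hd.1
      have hrd : Rough z d := RhA.rough_of_dvd hr hd.1
      have hpr : ∀ p : ℕ, p.Prime → p ∣ d → p ≠ 2 ∧ ¬ (p : ℤ) ∣ a := fun p hp hpd =>
        RhA.rough_cop ha hza hrd p hp hpd
      have hodd : Odd d := by
        rw [← Nat.not_even_iff_odd]
        intro he
        exact (hpr 2 Nat.prime_two he.two_dvd).1 rfl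
      obtain ⟨t, ht⟩ := Pool.Agent.H379R2.W.exists_neg_one hsd squarefree_one hodd odd_one hd1
      have ht' : jacobiSym (t : ℤ) d = -1 := by
        rw [mul_one] at ht
        exact ht
      refine (le_abs_self _).trans ((RhB.lin_sum a b C d (by omega) ⟨t, ht'⟩ hpr).trans ?_)
      have hdR : (d : ℝ) ≤ x := by exact_mod_cast hdx
      have hdR0 : (0 : ℝ) < d := by exact_mod_cast hd0
      have h3 : √(d : ℝ) ≤ √(x : ℝ) := Real.sqrt_le_sqrt hdR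
      have h4 : Real.log d ≤ Real.log x := Real.log_le_log hdR0 hdR
      have h5 : 0 ≤ Real.log (d : ℝ) := Real.log_nonneg (by exact_mod_cast hd0)
      gcongr
  refine (sum_le_sum h2).trans ?_
  rw [sum_add_distrib, sum_ite_eq', if_pos (Nat.one_mem_divisors.2 hm0), sum_const, nsmul_eq_mul]
  have h3 : (#m.divisors : ℝ) * (8 * √(x : ℝ) * (1 + Real.log x)) ≤ C := by
    calc (#m.divisors : ℝ) * (8 * √(x : ℝ) * (1 + Real.log x)) ≤
        (2 : ℝ) ^ (2 / η) * (8 * √(x : ℝ) * (2 * Real.log x)) := by gcongr; linarith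
      _ = ((2 : ℝ) ^ (2 / η) * 16 * Real.log x) * √(x : ℝ) := by ring
      _ ≤ (x : ℝ) ^ ε * √(x : ℝ) := by gcongr
      _ = (x : ℝ) ^ (1 / 2 + ε) := by
          rw [Real.sqrt_eq_rpow, ← Real.rpow_add hxpos, add_comm]
      _ ≤ C := hC1
  linarith


/-- the size of the values of the polynomial -/
lemma fv_sizeU (a : ℤ) (ha : 0 < a) (Λ : ℝ) (hΛ : 1 ≤ Λ) (R : ℕ) (hR : 1 ≤ R) : ∃ K : ℝ, 0 ≤ K ∧ ∃ x0 : ℕ, ∀ x : ℕ, x0 ≤ x →
    ∀ b : ℤ, (b : ℝ) ^ 2 ≤ Λ * x →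
    ∀ c n : ℕ, c ≤ x → n ≤ x → x ≤ R * n →
    |Real.log (fv a b c n).toNat - 2 * Real.log x| ≤ K ∧ x < (fv a b c n).toNat := by
  obtain ⟨A, hA⟩ : ∃ A : ℕ, (A : ℤ) = a + 1 + 1 := ⟨(a + 1 + 1).toNat, by
    rw [Int.toNat_of_nonneg]; positivity⟩
  have hA1 : 1 ≤ A := by
    have : (1 : ℤ) ≤ A := by rw [hA]; linarith
    exact_mod_cast this
  obtain ⟨X0, hX0⟩ := eventually_atTop.1 (ev_bn Λ hΛ (2 * R + 1))
  have hAr : (1 : ℝ) ≤ A := by exact_mod_cast hA1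
  have hRr : (1 : ℝ) ≤ R := by exact_mod_cast hR
  refine ⟨Real.log (2 * (R : ℝ) ^ 2) + Real.log A, ?_, X0 + 2 * R ^ 2 + 2, ?_⟩
  · apply add_nonneg (Real.log_nonneg _) (Real.log_nonneg hAr)
    nlinarith
  intro x hx b hb c n hcx hnx hxn
  have hbX := hX0 x (by omega) b hb
  obtain ⟨B, hB⟩ : ∃ B : ℕ, (B : ℤ) = |b| := ⟨|b|.toNat, Int.toNat_of_nonneg (abs_nonneg b)⟩
  have hBn : B = b.natAbs := by
    have h00 := Int.natCast_natAbs b
    omega
  rw [← hBn] at hbX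
  have hx2 : 2 ≤ x := by omega
  have hxr : (0 : ℝ) < x := by exact_mod_cast (by omega : 0 < x)
  -- lower bound
  have hnB : 2 * B ≤ n := by
    have h1 : R * (2 * B) ≤ R * n := by
      calc R * (2 * B) = 2 * R * B := by ring
        _ ≤ x := by nlinarith
        _ ≤ R * n := hxn
    exact Nat.le_of_mul_le_mul_left h1 hR
  have hnBz : 2 * |b| ≤ (n : ℤ) := by rw [← hB]; exact_mod_cast hnB
  have hn0 : (0 : ℤ) ≤ n := Int.natCast_nonneg n
  have hc0 : (0 : ℤ) ≤ c := Int.natCast_nonneg c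
  have hlow : (n : ℤ) ^ 2 ≤ 2 * fv a b c n := by
    unfold fv
    have h1 : -|b| ≤ b := neg_abs_le b
    have h2 : -|b| * n ≤ b * n := mul_le_mul_of_nonneg_right h1 hn0
    have h3 : (n : ℤ) ^ 2 ≤ a * (n : ℤ) ^ 2 := by
      have : 1 ≤ a := ha
      nlinarith [sq_nonneg (n : ℤ)]
    nlinarith
  have hup : fv a b c n ≤ A * (x : ℤ) ^ 2 := by
    unfold fv
    have hnx' : (n : ℤ) ≤ x := by exact_mod_cast hnx
    have hcx' : (c : ℤ) ≤ x := by exact_mod_cast hcx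
    have hx1' : (1 : ℤ) ≤ x := by exact_mod_cast (by omega : 1 ≤ x)
    have h1 : b * n ≤ |b| * x := by
      calc b * n ≤ |b| * n := mul_le_mul_of_nonneg_right (le_abs_self b) hn0
        _ ≤ |b| * x := mul_le_mul_of_nonneg_left hnx' (abs_nonneg b)
    have h2 : |b| * x ≤ 1 * (x : ℤ) ^ 2 := by
      have h21 : |b| ≤ (x : ℤ) := by
        rw [← hB]
        have : B ≤ x := by nlinarith
        exact_mod_cast this
      nlinarith
    have h3 : (c : ℤ) ≤ (x : ℤ) ^ 2 := by nlinarith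
    have h4 : a * (n : ℤ) ^ 2 ≤ a * (x : ℤ) ^ 2 := by
      apply mul_le_mul_of_nonneg_left _ ha.le
      exact pow_le_pow_left₀ hn0 hnx' 2
    rw [hA]
    nlinarith
  have hpos : 0 ≤ fv a b c n := by nlinarith [sq_nonneg (n : ℤ)]
  obtain ⟨N, hN⟩ : ∃ N : ℕ, N = (fv a b c n).toNat := ⟨_, rfl⟩
  have hNz : (N : ℤ) = fv a b c n := by rw [hN]; exact Int.toNat_of_nonneg hpos
  rw [← hN]
  rw [← hNz] at hlow hup
  have hlow' : n ^ 2 ≤ 2 * N := by exact_mod_cast hlow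
  have hup' : N ≤ A * x ^ 2 := by exact_mod_cast hup
  have hx2n : x ^ 2 ≤ 2 * R ^ 2 * N := by
    calc x ^ 2 ≤ (R * n) ^ 2 := Nat.pow_le_pow_left hxn 2
      _ = R ^ 2 * n ^ 2 := by ring
      _ ≤ R ^ 2 * (2 * N) := Nat.mul_le_mul_left _ hlow'
      _ = _ := by ring
  have hR2 : 2 * R ^ 2 < x := by omega
  have hNx : x < N := by
    by_contra hcon
    push Not at hcon
    have h1 : x ^ 2 ≤ 2 * R ^ 2 * x := hx2n.trans (Nat.mul_le_mul_left _ hcon)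
    have h2 : x * x ≤ 2 * R ^ 2 * x := by rw [← sq]; exact h1
    have h3 := Nat.le_of_mul_le_mul_right h2 (by omega)
    omega
  refine ⟨?_, hNx⟩
  have hNr : (0 : ℝ) < N := by exact_mod_cast (by omega : 0 < N)
  have u1 : Real.log N ≤ Real.log A + 2 * Real.log x := by
    have h1 : (N : ℝ) ≤ A * (x : ℝ) ^ 2 := by exact_mod_cast hup'
    calc Real.log N ≤ Real.log (A * (x : ℝ) ^ 2) := Real.log_le_log hNr h1
      _ = Real.log A + 2 * Real.log x := by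
        rw [Real.log_mul (by positivity) (by positivity), Real.log_pow]
        norm_num
  have u2 : 2 * Real.log x ≤ Real.log (2 * (R : ℝ) ^ 2) + Real.log N := by
    have h1 : (x : ℝ) ^ 2 ≤ 2 * (R : ℝ) ^ 2 * N := by exact_mod_cast hx2n
    calc 2 * Real.log x = Real.log ((x : ℝ) ^ 2) := by rw [Real.log_pow]; norm_num
      _ ≤ Real.log (2 * (R : ℝ) ^ 2 * N) := Real.log_le_log (by positivity) h1
      _ = _ := by rw [Real.log_mul (by positivity) (by positivity)]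
  have u3 : 0 ≤ Real.log (2 * (R : ℝ) ^ 2) := Real.log_nonneg (by nlinarith)
  have u4 : 0 ≤ Real.log (A : ℝ) := Real.log_nonneg hAr
  rw [abs_le]
  constructor <;> linarith


end Pool.Agent.N791.U
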