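import Mathlib
import Pool.Agent.N792.TF

/-!
The weights of the off-diagonal terms of helper792, uniformly in the linear coefficient `b`,
`b² ≤ 4 a (ρ - 2) C` (helper791, after helper792).
-/

set_option autoImplicit false

namespace Pool.Agent.N791.U

open Finset Pool.Agent.N792

/-- the shift of the point `t` -/
noncomputable def sf (a b : ℤ) (K : ℕ) : ℝ := (b : ℝ) ^ 2 / (4 * a) / K

/-- the data of an admissible quadruple -/
lemma quad_boundU {a b : ℤ} {C K n0 : ℕ} {m e k k' n : ℕ} {ρ : ℝ} (hρ : 2 ≤ ρ) (ha : 0 < a) (he : 1 ≤ e) (hm : 1 ≤ m)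
    (hn0 : |b| ≤ n0) (hn : n0 ≤ n) (hK1 : 1 ≤ K) (hC : 1 ≤ C) (hb : (b : ℝ) ^ 2 / (4 * a) ≤ (ρ - 2) * C)
    (hk : K ≤ k) (h : (k' : ℤ) - k = 2 * e * (2 * a * (n + m * e) + b))
    (hP : Ph ((cv a b m k n : ℝ) / C) ≠ 0) :
    k < k' ∧ |(m : ℝ) - tt a e k k'| ≤ ρ * C / K := by
  have haR : (1 : ℝ) ≤ a := by exact_mod_cast ha
  have heR : (1 : ℝ) ≤ e := by exact_mod_cast he
  have hmR : (1 : ℝ) ≤ m := by exact_mod_cast hm
  have hKR : (1 : ℝ) ≤ K := by exact_mod_cast hK1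
  have hCR : (1 : ℝ) ≤ C := by exact_mod_cast hC
  have hkR : (K : ℝ) ≤ k := by exact_mod_cast hk
  have hN := N_nonneg ha hn0 hn
  have h1 : ((k' : ℝ) - k) = 2 * e * (2 * a * (n + m * e) + b) := by exact_mod_cast h
  have hkk : (k : ℝ) < k' := by
    have h2 : 0 < 2 * (a : ℝ) * (n + m * e) + b := by
      have h3 : 2 * (a : ℝ) * (n + m * e) + b = 2 * a * ((n : ℝ) + (b : ℝ) / (2 * a)) + 2 * a * (m * e) := by
        field_simp
        ring
      rw [h3]
      have h4 : 0 < 2 * (a : ℝ) * (m * e) := by positivity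
      have h5 : 0 ≤ 2 * (a : ℝ) * ((n : ℝ) + (b : ℝ) / (2 * a)) := by positivity
      linarith
    have h3 : 0 < 2 * (e : ℝ) * (2 * a * (n + m * e) + b) := by positivity
    linarith
  have hkk' : k < k' := by exact_mod_cast hkk
  refine ⟨hkk', ?_⟩
  have hu : 0 ≤ √(k : ℝ) := Real.sqrt_nonneg _
  have huu : √(k : ℝ) ≤ √(k' : ℝ) := Real.sqrt_le_sqrt hkk.le
  have h4 := cv_real ha he h
  have h5 := cv_N ha he h
  have h6 := key_pos (a := (a : ℝ)) (e := (e : ℝ)) (m := (m : ℝ)) (by linarith) (by linarith) hu huu (by rw [h5]; exact hN)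
  rw [Real.sq_sqrt (Nat.cast_nonneg _)] at h6
  obtain ⟨h7, h8⟩ := Ph_ne hP
  rw [lt_div_iff₀ (by linarith)] at h7
  rw [div_lt_iff₀ (by linarith)] at h8
  have hρC : 2 * (C : ℝ) ≤ ρ * C := mul_le_mul_of_nonneg_right hρ (by linarith)
  have hb0 : 0 ≤ (b : ℝ) ^ 2 / (4 * a) := by positivity
  change ((k : ℕ) : ℝ) ≤ √(k : ℝ) * √(k' : ℝ) - a * (e : ℝ) ^ 2 * (m - tt a e k k') at h6
  set τ := (m : ℝ) - tt a e k k' with hτ
  set R := √(k : ℝ) * √(k' : ℝ) - a * (e : ℝ) ^ 2 * τ with hR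
  have hRK : (K : ℝ) ≤ R := hkR.trans h6
  have h9 : |τ * R| ≤ ρ * C := by
    rw [abs_le]
    constructor <;> nlinarith
  rw [abs_mul, abs_of_pos (by linarith : 0 < R)] at h9
  rw [le_div_iff₀ (by linarith)]
  calc |τ| * K ≤ |τ| * R := mul_le_mul_of_nonneg_left hRK (abs_nonneg _)
    _ ≤ ρ * C := h9

/-- comparison of `c / C` with `τ K / C` -/
lemma quad_approxU {a b : ℤ} {C K : ℕ} {m e k k' n : ℕ} {κ ρ : ℝ} (hρ : 2 ≤ ρ) (ha : 0 < a) (he : 1 ≤ e)
    (hK1 : 1 ≤ K) (hC : 1 ≤ C) (hκ : 0 ≤ κ)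
    (hk : K ≤ k) (hk2 : (k : ℝ) ≤ (1 + κ) * K) (hkk' : K ≤ k') (hk2' : (k' : ℝ) ≤ (1 + κ) * K)
    (h : (k' : ℤ) - k = 2 * e * (2 * a * (n + m * e) + b)) (hτ : |(m : ℝ) - tt a e k k'| ≤ ρ * C / K) :
    |(cv a b m k n : ℝ) / C - (m - (tt a e k k' - sf a b K)) / ((C : ℝ) / K)| ≤
      ρ * κ + ρ ^ 2 * a * (e : ℝ) ^ 2 * C / (K : ℝ) ^ 2 := by
  have haR : (1 : ℝ) ≤ a := by exact_mod_cast ha
  have heR : (1 : ℝ) ≤ e := by exact_mod_cast he
  have hKR : (1 : ℝ) ≤ K := by exact_mod_cast hK1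
  have hCR : (1 : ℝ) ≤ C := by exact_mod_cast hC
  have hρ0 : 0 < ρ := by linarith
  have hkR : (K : ℝ) ≤ k := by exact_mod_cast hk
  have hkR' : (K : ℝ) ≤ k' := by exact_mod_cast hkk'
  have h4 := cv_real ha he h
  set τ := (m : ℝ) - tt a e k k' with hτd
  have h5 : (cv a b m k n : ℝ) / C - (m - (tt a e k k' - sf a b K)) / ((C : ℝ) / K) =
      τ * (√(k : ℝ) * √(k' : ℝ) - K) / C - a * (e : ℝ) ^ 2 * τ ^ 2 / C := by
    rw [h4]
    unfold sf
    have hτ2 : (m : ℝ) - (tt a e k k' - (b : ℝ) ^ 2 / (4 * a) / K) = τ + (b : ℝ) ^ 2 / (4 * a) / K := by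
      rw [hτd]; ring
    rw [hτ2]
    field_simp
    ring
  rw [h5]
  have h6 : (K : ℝ) ≤ √(k : ℝ) * √(k' : ℝ) := by
    rw [← Real.sqrt_mul (Nat.cast_nonneg _)]
    apply Real.le_sqrt_of_sq_le
    nlinarith
  have h7 : √(k : ℝ) * √(k' : ℝ) ≤ (1 + κ) * K := by
    rw [← Real.sqrt_mul (Nat.cast_nonneg _)]
    apply Real.sqrt_le_iff.2
    refine ⟨by positivity, ?_⟩
    rw [sq]
    exact mul_le_mul hk2 hk2' (by linarith) (by positivity)
  have h8 : |τ * (√(k : ℝ) * √(k' : ℝ) - K) / C| ≤ ρ * κ := by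
    rw [abs_div, abs_mul, abs_of_nonneg (by linarith : 0 ≤ √(k : ℝ) * √(k' : ℝ) - K),
      abs_of_pos (by linarith : (0 : ℝ) < C), div_le_iff₀ (by linarith)]
    calc |τ| * (√(k : ℝ) * √(k' : ℝ) - K) ≤ (ρ * C / K) * (κ * K) := by
          apply mul_le_mul hτ (by linarith) (by linarith) (by positivity)
      _ = ρ * κ * C := by field_simp
  have h9 : |a * (e : ℝ) ^ 2 * τ ^ 2 / C| ≤ ρ ^ 2 * a * (e : ℝ) ^ 2 * C / (K : ℝ) ^ 2 := by
    have h10 : τ ^ 2 ≤ (ρ * C / K) ^ 2 := by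
      rw [← sq_abs]
      exact pow_le_pow_left₀ (abs_nonneg _) hτ 2
    rw [abs_of_nonneg (by positivity), div_le_iff₀ (by linarith)]
    calc a * (e : ℝ) ^ 2 * τ ^ 2 ≤ a * (e : ℝ) ^ 2 * (ρ * C / K) ^ 2 := by gcongr
      _ = ρ ^ 2 * a * (e : ℝ) ^ 2 * C / (K : ℝ) ^ 2 * C := by field_simp
  calc _ ≤ |τ * (√(k : ℝ) * √(k' : ℝ) - K) / C| + |a * (e : ℝ) ^ 2 * τ ^ 2 / C| := abs_sub _ _
    _ ≤ _ := by linarith

/-- the error of the approximation -/
noncomputable def ErU (a : ℤ) (ρ L κ : ℝ) (C K M e : ℕ) : ℝ :=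
  L / M + 2 * (ρ * κ + ρ ^ 2 * a * (e : ℝ) ^ 2 * C / (K : ℝ) ^ 2)

lemma ErU_nonneg {a : ℤ} {ρ L κ : ℝ} {C K M e : ℕ} (hρ : 2 ≤ ρ) (ha : 0 < a) (hL : 0 ≤ L) (hκ : 0 ≤ κ) :
    0 ≤ ErU a ρ L κ C K M e := by
  unfold ErU
  have : (0 : ℝ) < a := by exact_mod_cast ha
  have : (0 : ℝ) < ρ := by linarith
  positivity

lemma ErU_mono {a : ℤ} {ρ L κ : ℝ} {C K M e E : ℕ} (hρ : 2 ≤ ρ) (ha : 0 < a) (h : e ≤ E) :
    ErU a ρ L κ C K M e ≤ ErU a ρ L κ C K M E := by
  unfold ErU
  have haR : (0 : ℝ) < a := by exact_mod_cast ha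
  have hρ0 : (0 : ℝ) < ρ := by linarith
  have : (e : ℝ) ≤ E := by exact_mod_cast h
  gcongr

open Classical in
/-- **the approximation of the weights** -/
theorem W_approxU {a b : ℤ} {ρ L κ : ℝ} (hρ : 2 ≤ ρ) {C K M m1 m2 n0 N1 e k k' : ℕ} (ha : 0 < a) (he : 1 ≤ e) (hm1 : 1 ≤ m1)
    (hC : 1 ≤ C) (hCK : 8 * C ≤ K) (hρK : 8 * ρ * (C : ℝ) ≤ K) (hb : (b : ℝ) ^ 2 / (4 * a) ≤ (ρ - 2) * C) (hn0 : |b| ≤ n0) (hL : 0 ≤ L) (hκ : 0 ≤ κ)
    (hκ1 : κ ≤ 1) (hrr : ρ * κ + ρ ^ 2 * a * (e : ℝ) ^ 2 * C / (K : ℝ) ^ 2 ≤ 1 / 2) (hM : 1 ≤ M) (hmM : (M : ℝ) ≤ 4 * m1) (hmM1 : (m1 : ℝ) + 2 ≤ 9 / 16 * M) (hmM2 : 25 / 16 * M ≤ (m2 : ℝ) - 2)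
    (h5 : (a : ℝ) * ((n0 : ℝ) + |(b : ℝ)| + e) ^ 2 ≤ (m1 : ℝ) * K)
    (h6 : (2 * m2 * K : ℝ) + e + |(b : ℝ)| + 1 ≤ N1)
    (hk : K ≤ k) (hk2 : (k : ℝ) ≤ (1 + κ) * K) (hkk' : K ≤ k') (hk2' : (k' : ℝ) ≤ (1 + κ) * K) :
    |W a b L C M m1 m2 n0 N1 e k k' -
      if cls a b e k k' then gs L a M e k k' * (2 * tri ((C : ℝ) / K) (tt a e k k' - sf a b K + (C : ℝ) / K / 2)) else 0| ≤
      if cls a b e k k' then ErU a ρ L κ C K M e * (2 * tri (4 * ((C : ℝ) / K)) (tt a e k k' - sf a b K)) +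
        4 * Real.exp (-(L ^ 2 / 16)) else 0 := by
  have haR : (1 : ℝ) ≤ a := by exact_mod_cast ha
  have hCR : (1 : ℝ) ≤ C := by exact_mod_cast hC
  have hK1 : 1 ≤ K := by omega
  have hKR : (1 : ℝ) ≤ K := by exact_mod_cast hK1
  have hMR : (1 : ℝ) ≤ M := by exact_mod_cast hM
  have hCKR : 8 * (C : ℝ) ≤ K := by exact_mod_cast hCK
  have hm1R : (1 : ℝ) ≤ m1 := by exact_mod_cast hm1
  set δ := (C : ℝ) / K with hδd
  have hδ0 : 0 < δ := by positivity
  have hδ8 : δ ≤ 1 / 8 := by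
    rw [hδd, div_le_iff₀ (by linarith)]
    linarith
  by_cases hcl : cls a b e k k'
  swap
  · rw [if_neg hcl, if_neg hcl, sub_zero]
    have : W a b L C M m1 m2 n0 N1 e k k' = 0 := by
      rw [W_eq]
      apply sum_eq_zero
      intro m hm
      rw [mem_Icc] at hm
      by_cases h0 : inn a b C n0 N1 m e k k' = 0
      · rw [h0, mul_zero]
      · obtain ⟨n, _, _, h, _, _⟩ := inn_data ha he (hm1.trans hm.1) h0
        exact absurd (cls_of h) hcl
    rw [this, abs_zero]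
  rw [if_pos hcl, if_pos hcl]
  have hsf0 : 0 ≤ sf a b K := by unfold sf; positivity
  have hsf : sf a b K ≤ (ρ - 2) * δ := by
    unfold sf
    rw [hδd, ← mul_div_assoc]
    exact div_le_div_of_nonneg_right hb (by linarith)
  have hρδ : ρ * δ ≤ 1 / 8 := by
    rw [hδd, ← mul_div_assoc, div_le_iff₀ (by linarith)]
    linarith
  have hEr := ErU_nonneg (C := C) (K := K) (M := M) (e := e) hρ ha hL hκ
  have htr0 := tri_nonneg (4 * δ) (tt a e k k' - sf a b K)
  have hex := Real.exp_pos (-(L ^ 2 / 16))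
  have htr1 := tri_nonneg δ (tt a e k k' - sf a b K + δ / 2)
  have htr2 := tri_le_one hδ0 (tt a e k k' - sf a b K + δ / 2)
  by_cases hkk : k < k'
  swap
  · have hW : W a b L C M m1 m2 n0 N1 e k k' = 0 := by
      rw [W_eq]
      apply sum_eq_zero
      intro m hm
      rw [mem_Icc] at hm
      by_cases h0 : inn a b C n0 N1 m e k k' = 0
      · rw [h0, mul_zero]
      · obtain ⟨n, h1, _, h, h3, _⟩ := inn_data ha he (hm1.trans hm.1) h0
        exact absurd (quad_boundU hρ ha he (hm1.trans hm.1) hn0 h1 hK1 hC hb hk h h3).1 hkk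
    rw [hW, zero_sub, abs_neg, abs_of_nonneg (mul_nonneg (gs_nonneg _ _ _ _ _ _) (by linarith))]
    have h1 := gs_small (a := a) (L := L) (M := M) (e := e) (not_lt.1 hkk)
    have h2 := gs_nonneg a L M e k k'
    have h3 : gs L a M e k k' * (2 * tri δ (tt a e k k' - sf a b K + δ / 2)) ≤ Real.exp (-(L ^ 2 / 16)) * 2 :=
      mul_le_mul h1 (by linarith) (by linarith) hex.le
    have h4 : 0 ≤ ErU a ρ L κ C K M e * (2 * tri (4 * δ) (tt a e k k' - sf a b K)) := mul_nonneg hEr (by linarith)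
    linarith
  · set t := tt a e k k' with ht
    set w := t - sf a b K with hw
    have hgs : gs L a M e k k' = gw L M t := gs_eq ha he hkk.le
    rw [hgs]
    -- if the inner sum at `m` does not vanish then `m = round t`
    have hround : ∀ m ∈ Icc m1 m2, inn a b C n0 N1 m e k k' ≠ 0 → |(m : ℝ) - w| ≤ 2 * δ ∧ round w = (m : ℤ) := by
      intro m hm h0
      rw [mem_Icc] at hm
      obtain ⟨n, h1, _, h, h3, _⟩ := inn_data ha he (hm1.trans hm.1) h0
      have h7 := (quad_boundU hρ ha he (hm1.trans hm.1) hn0 h1 hK1 hC hb hk h h3).2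
      have h71 := quad_approxU (n := n) (m := m) hρ ha he hK1 hC hκ hk hk2 hkk' hk2' h h7
      rw [← ht, ← hδd, ← hw] at h71
      obtain ⟨h72, h73⟩ := Ph_ne h3
      have h74 := abs_le.1 (h71.trans hrr)
      have h8 : |(m : ℝ) - w| ≤ 2 * δ := by
        have h75 : |((m : ℝ) - w) / δ| ≤ 2 := by
          rw [abs_le]
          constructor <;> linarith [h74.1, h74.2]
        rw [abs_div, abs_of_pos hδ0, div_le_iff₀ hδ0] at h75
        exact h75
      refine ⟨h8, round_eq_of ?_⟩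
      push_cast
      exact lt_of_le_of_lt h8 (by linarith)
    by_cases hfar : 2 * δ < |(round w : ℝ) - w|
    · have hW : W a b L C M m1 m2 n0 N1 e k k' = 0 := by
        rw [W_eq]
        apply sum_eq_zero
        intro m hm
        by_cases h0 : inn a b C n0 N1 m e k k' = 0
        · rw [h0, mul_zero]
        · obtain ⟨h7, h8⟩ := hround m hm h0
          rw [h8] at hfar
          push_cast at hfar
          linarith
      rw [hW, tri_far hδ0 hδ8 hfar, mul_zero, mul_zero, sub_zero, abs_zero]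
      have h4 : 0 ≤ ErU a ρ L κ C K M e * (2 * tri (4 * δ) w) := mul_nonneg hEr (by linarith)
      linarith
    · rw [not_lt] at hfar
      have hhalf := tri_ge_half hδ0 hfar
      have hWle : ∀ m0 : ℕ, round w = (m0 : ℤ) → W a b L C M m1 m2 n0 N1 e k k' =
          if m0 ∈ Icc m1 m2 then gw L M m0 * inn a b C n0 N1 m0 e k k' else 0 := by
        intro m0 hm0
        rw [W_eq]
        by_cases hin : m0 ∈ Icc m1 m2
        · rw [if_pos hin]
          apply sum_eq_single_of_mem m0 hin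
          intro m hm hne
          by_cases h0 : inn a b C n0 N1 m e k k' = 0
          · rw [h0, mul_zero]
          · obtain ⟨_, h8⟩ := hround m hm h0
            rw [hm0] at h8
            exact absurd (by exact_mod_cast h8.symm) hne
        · rw [if_neg hin]
          apply sum_eq_zero
          intro m hm
          by_cases h0 : inn a b C n0 N1 m e k k' = 0
          · rw [h0, mul_zero]
          · obtain ⟨_, h8⟩ := hround m hm h0
            rw [hm0] at h8
            have h9 : m0 = m := by exact_mod_cast h8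
            exact absurd (h9 ▸ hm) hin
      have hsf8 : sf a b K ≤ 1 / 8 := by linarith
      have hround0 : 0 ≤ round w := by
        have h9 : 0 ≤ t := by rw [ht]; unfold tt; positivity
        rw [round_eq]
        apply Int.floor_nonneg.2
        linarith
      obtain ⟨m0, hm0⟩ := Int.eq_ofNat_of_zero_le hround0
      have hfar' : |(m0 : ℝ) - w| ≤ 2 * δ := by
        rw [hm0] at hfar
        exact_mod_cast hfar
      have hm0t := abs_le.1 hfar'
      rw [hWle m0 hm0]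
      by_cases hrange : (m1 : ℝ) + 1 ≤ t ∧ t ≤ (m2 : ℝ) - 1
      · -- the main range
        have hin : m0 ∈ Icc m1 m2 := by
          rw [mem_Icc]
          constructor
          · have : (m1 : ℝ) ≤ m0 := by linarith
            exact_mod_cast this
          · have : (m0 : ℝ) ≤ m2 := by linarith
            exact_mod_cast this
        rw [if_pos hin]
        have hk'2K : k' ≤ 2 * K := by
          have : (k' : ℝ) ≤ 2 * K := by nlinarith
          exact_mod_cast this
        obtain ⟨n, hn1, hn2, hn3⟩ := exists_n (m := m0) (m1 := m1) (m2 := m2) ha he hm1 hkk hk hk'2K hcl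
          (by rw [← ht]; linarith [hrange.1]) (by rw [← ht]; linarith [hrange.2])
          (by rw [← ht, abs_le]; constructor <;> linarith) h5 h6
        have hm01 : 1 ≤ m0 := hm1.trans (mem_Icc.1 hin).1
        rw [inn_of ha he hm01 hn1 hn2 hn3]
        have hnear : 2 * tri δ (w + δ / 2) = Ph (((m0 : ℝ) - w) / δ) := by
          have := tri_near (t := w) (m := (m0 : ℤ)) hδ0 hδ8 (by push_cast; linarith)
          push_cast at this
          exact this
        rw [hnear]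
        have hap := quad_approxU (n := n) (m := m0) hρ ha he hK1 hC hκ hk hk2 hkk' hk2' hn3
          (by
            rw [← ht, mul_div_assoc, ← hδd, abs_le]
            constructor <;> linarith)
        rw [← ht, ← hδd, ← hw] at hap
        have hlip := Ph_lip ((cv a b m0 k n : ℝ) / C) (((m0 : ℝ) - w) / δ)
        have hglip := gw_lip (L := L) (M := (M : ℝ)) (m1 := (m1 : ℝ)) (s := (m0 : ℝ)) (t := t) hL (by linarith) (by linarith) hmM
          (by exact_mod_cast (mem_Icc.1 hin).1) (by linarith [hrange.1])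
        have h20 : gw L M m0 * Ph ((cv a b m0 k n : ℝ) / C) - gw L M t * Ph (((m0 : ℝ) - w) / δ) =
            (gw L M m0 - gw L M t) * Ph ((cv a b m0 k n : ℝ) / C) +
            gw L M t * (Ph ((cv a b m0 k n : ℝ) / C) - Ph (((m0 : ℝ) - w) / δ)) := by ring
        rw [h20]
        have h21 : |(gw L M m0 - gw L M t) * Ph ((cv a b m0 k n : ℝ) / C)| ≤ L / M := by
          rw [abs_mul, abs_of_nonneg (Ph_nonneg _)]
          calc _ ≤ (2 * L * |(m0 : ℝ) - t| / M) * 2 := by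
                apply mul_le_mul hglip (Ph_le _) (Ph_nonneg _) (by positivity)
            _ ≤ (2 * L * (1 / 4) / M) * 2 := by
                gcongr
                rw [abs_le]
                constructor <;> linarith
            _ = L / M := by ring
        have h22 : |gw L M t * (Ph ((cv a b m0 k n : ℝ) / C) - Ph (((m0 : ℝ) - w) / δ))| ≤
            2 * (ρ * κ + ρ ^ 2 * a * (e : ℝ) ^ 2 * C / (K : ℝ) ^ 2) := by
          rw [abs_mul, abs_of_nonneg (gw_pos _ _ _).le]
          calc _ ≤ 1 * (2 * (ρ * κ + ρ ^ 2 * a * (e : ℝ) ^ 2 * C / (K : ℝ) ^ 2)) := by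
                apply mul_le_mul (gw_le_one _ _ _) (hlip.trans (by linarith)) (abs_nonneg _) zero_le_one
            _ = _ := by ring
        have h23 : |(gw L M m0 - gw L M t) * Ph ((cv a b m0 k n : ℝ) / C) +
            gw L M t * (Ph ((cv a b m0 k n : ℝ) / C) - Ph (((m0 : ℝ) - w) / δ))| ≤ ErU a ρ L κ C K M e := by
          refine (abs_add_le _ _).trans ?_
          unfold ErU
          linarith
        have h24 : ErU a ρ L κ C K M e ≤ ErU a ρ L κ C K M e * (2 * tri (4 * δ) w) := by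
          nlinarith
        linarith
      · -- near the ends
        have h30 : t ≤ 9 / 16 * (M : ℝ) - 1 ∨ 25 / 16 * (M : ℝ) + 1 ≤ t := by
          rw [not_and_or, not_le, not_le] at hrange
          rcases hrange with h | h
          · left; linarith
          · right; linarith
        have h31 : gw L M t ≤ Real.exp (-(L ^ 2 / 16)) := gw_small (by linarith) (by
          rcases h30 with h | h
          · left; linarith
          · right; linarith)
        have h32 : gw L M m0 ≤ Real.exp (-(L ^ 2 / 16)) := gw_small (by linarith) (by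
          rcases h30 with h | h
          · left; linarith
          · right; linarith)
        have h33 : |(if m0 ∈ Icc m1 m2 then gw L M m0 * inn a b C n0 N1 m0 e k k' else 0)| ≤
            2 * Real.exp (-(L ^ 2 / 16)) := by
          split_ifs with hin
          · have hm01 : 1 ≤ m0 := hm1.trans (mem_Icc.1 hin).1
            rw [abs_of_nonneg (mul_nonneg (gw_pos _ _ _).le (inn_nonneg _ _ _ _ _ _ _ _ _)), mul_comm 2]
            exact mul_le_mul h32 (inn_le ha he hm01) (inn_nonneg _ _ _ _ _ _ _ _ _) hex.le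
          · rw [abs_zero]; positivity
        have h34 : |gw L M t * (2 * tri δ (w + δ / 2))| ≤ 2 * Real.exp (-(L ^ 2 / 16)) := by
          rw [abs_of_nonneg (mul_nonneg (gw_pos _ _ _).le (by linarith)), mul_comm 2 (Real.exp _)]
          exact mul_le_mul h31 (by linarith) (by linarith) hex.le
        have h35 : 0 ≤ ErU a ρ L κ C K M e * (2 * tri (4 * δ) w) := mul_nonneg hEr (by linarith)
        have h36 := abs_sub (if m0 ∈ Icc m1 m2 then gw L M m0 * inn a b C n0 N1 m0 e k k' else 0)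
          (gw L M t * (2 * tri δ (w + δ / 2)))
        linarith

end Pool.Agent.N791.U
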