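import Mathlib
import Pool.Agent.N792.QE
import Pool.Agent.N792.QF
import Pool.Agent.N791.U.W

/-!
The sums over the shifted triangle functions (helper791, after helper792).
-/

set_option autoImplicit false

namespace Pool.Agent.N791.U

open Finset Pool.Agent.N792
open Pool.Agent.H469R2.NK (e norm_e e_add conj_e e_zero)

open Classical in
/-- the sum with the Gaussian weight -/
theorem tri_gs3U {C0 σ : ℝ} (hC0 : 0 < C0) (hbs : BSP C0) (hQ1 : Q1) (hQ4 : Q4) {a b : ℤ} {K K2 M n : ℕ} {L δ B0 : ℝ}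
    (ha : 0 < a) (hn : 1 ≤ n) (hq : md a n ≤ K) (hKK2 : K ≤ K2) (hK2 : K2 ≤ 2 * K) (hδ : 0 < δ) (hδ2 : δ ≤ 1 / 2)
    (hB0 : 0 ≤ B0) (β : ℕ → ℝ) (hβ : ∀ k ∈ Ioc K K2, |β k| ≤ B0) :
    |∑ k ∈ Ioc K K2, ∑ k' ∈ Ioc K K2, (if cls a b n k k' then
        β k * β k' * (gs L a M n k k' * (2 * tri δ (tt a n k k' - σ + δ / 2))) else 0) -
      2 * δ * ∑ k ∈ Ioc K K2, ∑ k' ∈ Ioc K K2, (if cls a b n k k' then β k * β k' * gs L a M n k k' else 0)| ≤
      17000 * B0 ^ 2 * Bd3 C0 δ K n := by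
  have hnR : (1 : ℝ) ≤ n := by exact_mod_cast hn
  have haR : (1 : ℝ) ≤ a := by exact_mod_cast ha
  have hqR : 4 * (a : ℝ) * n ≤ K := by
    rw [← md_real ha]
    exact_mod_cast hq
  have hnKR : (n : ℝ) ≤ K := by nlinarith
  have hnK : n ≤ K := by exact_mod_cast hnKR
  have hK1 : 1 ≤ K := hn.trans hnK
  set X := √C0 * (B0 * B0) * (K * √(K : ℝ)) with hX
  have hX0 : 0 ≤ X := by positivity
  have hsh : ∀ (h : ℕ) (i : ℕ × ℕ), e (h * (tt a n i.1 i.2 - σ + δ / 2)) = e (h * (tt a n i.1 i.2 + (δ - 2 * σ) / 2)) := by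
    intro h i
    congr 1
    ring
  have h1 := hQ4 (Ioc K K2 ×ˢ Ioc K K2)
    (fun i => if cls a b n i.1 i.2 then β i.1 * β i.2 * gs L a M n i.1 i.2 else 0)
    (fun i => tt a n i.1 i.2 - σ + δ / 2) δ (3 * X) (400 * (B0 * B0) * (K * √(K : ℝ)) / √(n : ℝ)) (400 * (B0 * B0) * K)
    ((B0 * B0) * (2 * (K : ℝ) ^ 2 / n)) n K hδ hδ2 hn hnK (by positivity) (by positivity) (by positivity) (by positivity)
    (by
      intro h hh hh2
      have hhR : (1 : ℝ) ≤ h := by exact_mod_cast hh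
      have hh2R : (h : ℝ) ≤ 2 * n := by exact_mod_cast hh2
      simp only [hsh]
      refine (gs_h hC0 hbs ha hn hq hK2 hB0 β hβ h hh).trans ?_
      have hs : √(h : ℝ) * √(h : ℝ) = h := Real.mul_self_sqrt (by linarith)
      have hs0 : 0 < √(h : ℝ) := Real.sqrt_pos.2 (by linarith)
      have h2 : √(h : ℝ) / n ≤ 2 / √(h : ℝ) := by
        rw [div_le_div_iff₀ (by linarith) hs0, hs]
        linarith
      calc X * (√(h : ℝ) / n + 1 / √(h : ℝ)) ≤ X * (2 / √(h : ℝ) + 1 / √(h : ℝ)) := by gcongr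
        _ = 3 * X / √(h : ℝ) := by ring)
    (by
      intro H ω hnH hHK hω
      simp only [hsh]
      refine (gs_block hQ1 ha hn hq hK2 hB0 β hβ H ω hnH hHK hω).trans (le_of_eq ?_)
      ring)
    (by
      intro h
      refine (norm_sum_le _ _).trans ?_
      have h2 : ∀ i ∈ Ioc K K2 ×ˢ Ioc K K2, ‖(((if cls a b n i.1 i.2 then β i.1 * β i.2 * gs L a M n i.1 i.2 else 0 : ℝ)) : ℂ) *
          e (h * (tt a n i.1 i.2 - σ + δ / 2))‖ ≤ (B0 * B0) * (if cls a b n i.1 i.2 then 1 else 0) := by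
        intro i hi
        rw [mem_product] at hi
        rw [norm_mul, norm_e, mul_one, Complex.norm_real]
        split_ifs
        · rw [norm_mul, norm_mul, mul_one]
          have g1 := gs_nonneg a L M n i.1 i.2
          have g2 := gs_le_one a L M n i.1 i.2
          calc ‖β i.1‖ * ‖β i.2‖ * ‖gs L a M n i.1 i.2‖ ≤ B0 * B0 * 1 := by
                gcongr
                · exact hβ _ hi.1
                · exact hβ _ hi.2
                · rw [Real.norm_of_nonneg g1]; exact g2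
            _ = _ := mul_one _
        · simp
      refine (sum_le_sum h2).trans ?_
      rw [← mul_sum, sum_product]
      exact mul_le_mul_of_nonneg_left (card_cls_le' ha hn hq hKK2 hK2) (by positivity))
  have h5 : ∑ i ∈ Ioc K K2 ×ˢ Ioc K K2, (if cls a b n i.1 i.2 then β i.1 * β i.2 * gs L a M n i.1 i.2 else 0) *
      tri δ (tt a n i.1 i.2 - σ + δ / 2) = (∑ k ∈ Ioc K K2, ∑ k' ∈ Ioc K K2, (if cls a b n k k' then
        β k * β k' * (gs L a M n k k' * (2 * tri δ (tt a n k k' - σ + δ / 2))) else 0)) / 2 := by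
    rw [sum_product, sum_div]
    apply sum_congr rfl
    intro k _
    rw [sum_div]
    apply sum_congr rfl
    intro k' _
    split_ifs
    · ring
    · simp
  rw [h5, sum_product] at h1
  have h6 : (∑ k ∈ Ioc K K2, ∑ k' ∈ Ioc K K2, (if cls a b n k k' then
        β k * β k' * (gs L a M n k k' * (2 * tri δ (tt a n k k' - σ + δ / 2))) else 0) -
      2 * δ * ∑ k ∈ Ioc K K2, ∑ k' ∈ Ioc K K2, (if cls a b n k k' then β k * β k' * gs L a M n k k' else 0)) =
      2 * ((∑ k ∈ Ioc K K2, ∑ k' ∈ Ioc K K2, (if cls a b n k k' then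
        β k * β k' * (gs L a M n k k' * (2 * tri δ (tt a n k k' - σ + δ / 2))) else 0)) / 2 -
      δ * ∑ k ∈ Ioc K K2, ∑ k' ∈ Ioc K K2, (if cls a b n k k' then β k * β k' * gs L a M n k k' else 0)) := by ring
  rw [h6, abs_mul, abs_of_pos (by norm_num : (0 : ℝ) < 2)]
  have h7 := Bd3_aux (C0 := C0) (B2 := B0 * B0) hδ hn hK1 (by positivity)
  calc _ ≤ 2 * (8500 * (B0 * B0) * Bd3 C0 δ K n) := by
        apply mul_le_mul_of_nonneg_left (h1.trans h7) (by norm_num)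
    _ = _ := by ring

open Classical in
/-- the number of pairs with `t` near an integer -/
theorem tri_count3U {C0 σ : ℝ} (hC0 : 0 < C0) (hbs : BSP C0) (hQ1 : Q1) (hQ4 : Q4) {a b : ℤ} {K K2 n : ℕ} {δ : ℝ}
    (ha : 0 < a) (hn : 1 ≤ n) (hq : md a n ≤ K) (hKK2 : K ≤ K2) (hK2 : K2 ≤ 2 * K) (hδ : 0 < δ) (hδ2 : δ ≤ 1 / 2) :
    ∑ k ∈ Ioc K K2, ∑ k' ∈ Ioc K K2, (if cls a b n k k' then tri δ (tt a n k k' - σ) else 0) ≤
      δ * ∑ k ∈ Ioc K K2, ∑ k' ∈ Ioc K K2, (if cls a b n k k' then 1 else 0) + 8500 * Bd3 C0 δ K n := by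
  have hnR : (1 : ℝ) ≤ n := by exact_mod_cast hn
  have haR : (1 : ℝ) ≤ a := by exact_mod_cast ha
  have hqR : 4 * (a : ℝ) * n ≤ K := by
    rw [← md_real ha]
    exact_mod_cast hq
  have hnKR : (n : ℝ) ≤ K := by nlinarith
  have hnK : n ≤ K := by exact_mod_cast hnKR
  have hK1 : 1 ≤ K := hn.trans hnK
  set X := √C0 * (1 * 1) * (K * √(K : ℝ)) with hX
  have hX0 : 0 ≤ X := by positivity
  have e0 : ∀ h : ℕ, ∑ i ∈ Ioc K K2 ×ˢ Ioc K K2, (((if cls a b n i.1 i.2 then 1 else 0 : ℝ)) : ℂ) *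
      e (h * (tt a n i.1 i.2 - σ)) = e (-(h * σ)) * ∑ k ∈ Ioc K K2, ∑ k' ∈ Ioc K K2,
      (if cls a b n k k' then 1 * 1 * e (h * tt a n k k') else 0) := by
    intro h
    rw [sum_product, mul_sum]
    apply sum_congr rfl
    intro k _
    rw [mul_sum]
    apply sum_congr rfl
    intro k' _
    have h0 : (h : ℝ) * (tt a n k k' - σ) = -(h * σ) + h * tt a n k k' := by ring
    split_ifs
    · simp only [h0, e_add]
      simp
    · simp
  have h1 := hQ4 (Ioc K K2 ×ˢ Ioc K K2)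
    (fun i => if cls a b n i.1 i.2 then 1 else 0)
    (fun i => tt a n i.1 i.2 - σ) δ (3 * X) (400 * (1 * 1) * (K * √(K : ℝ)) / √(n : ℝ)) (400 * (1 * 1) * K)
    ((1 * 1) * (2 * (K : ℝ) ^ 2 / n)) n K hδ hδ2 hn hnK (by positivity) (by positivity) (by positivity) (by positivity)
    (by
      intro h hh hh2
      have hhR : (1 : ℝ) ≤ h := by exact_mod_cast hh
      have hh2R : (h : ℝ) ≤ 2 * n := by exact_mod_cast hh2
      have h3 := hb hC0 hbs (b := b) ha hn hh hq hK2 1 1 zero_le_one zero_le_one (fun _ => 1) (fun _ => 1)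
            (fun k hk => by simp) (fun k hk => by simp)
      rw [e0, norm_mul, norm_e, one_mul]
      refine h3.trans ?_
      have hs : √(h : ℝ) * √(h : ℝ) = h := Real.mul_self_sqrt (by linarith)
      have hs0 : 0 < √(h : ℝ) := Real.sqrt_pos.2 (by linarith)
      have h2 : √(h : ℝ) / n ≤ 2 / √(h : ℝ) := by
        rw [div_le_div_iff₀ (by linarith) hs0, hs]
        linarith
      calc X * (√(h : ℝ) / n + 1 / √(h : ℝ)) ≤ X * (2 / √(h : ℝ) + 1 / √(h : ℝ)) := by gcongr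
        _ = 3 * X / √(h : ℝ) := by ring)
    (by
      intro H ω hnH hHK hω
      have h3 := hbj hQ1 (b := b) ha hn hnH hHK hq hK2 1 1 zero_le_one zero_le_one (fun _ => 1) (fun _ => 1)
        (fun k hk => by simp) (fun k hk => by simp) (fun h => ω h * e (-(h * σ)))
        (fun h => by rw [norm_mul, norm_e, mul_one]; exact hω h)
      simp only [e0, ← mul_assoc]
      refine h3.trans (le_of_eq ?_)
      ring)
    (by
      intro h
      refine (norm_sum_le _ _).trans ?_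
      have h2 : ∀ i ∈ Ioc K K2 ×ˢ Ioc K K2, ‖(((if cls a b n i.1 i.2 then 1 else 0 : ℝ)) : ℂ) *
          e (h * (tt a n i.1 i.2 - σ))‖ ≤ (if cls a b n i.1 i.2 then 1 else 0) := by
        intro i _
        rw [norm_mul, norm_e, mul_one]
        split_ifs <;> simp
      refine (sum_le_sum h2).trans ?_
      rw [sum_product, one_mul, one_mul]
      exact card_cls_le' ha hn hq hKK2 hK2)
  have h5 : ∑ i ∈ Ioc K K2 ×ˢ Ioc K K2, (if cls a b n i.1 i.2 then (1 : ℝ) else 0) * tri δ (tt a n i.1 i.2 - σ) =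
      ∑ k ∈ Ioc K K2, ∑ k' ∈ Ioc K K2, (if cls a b n k k' then tri δ (tt a n k k' - σ) else 0) := by
    rw [sum_product]
    apply sum_congr rfl
    intro k _
    apply sum_congr rfl
    intro k' _
    split_ifs <;> simp
  rw [h5, sum_product] at h1
  have h7 := Bd3_aux (C0 := C0) (B2 := 1 * 1) hδ hn hK1 (by positivity)
  have h8 := (abs_le.1 (h1.trans h7)).2
  linarith


/-- **the explicit bound for the quadratic form** -/
theorem TT_bound3U {C0 ρ : ℝ} (hρ : 2 ≤ ρ) (hC0 : 0 < C0) (hbs : BSP C0) (hQ1 : Q1) (hQ4 : Q4) (hls : LSCP) {a b : ℤ} {β : ℕ → ℝ} {L κ B0 Δ : ℝ}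
    {C M m1 m2 n0 N1 E K K2 Q0 l I : ℕ} (ha : 0 < a) (hm1 : 1 ≤ m1)
    (hC : 1 ≤ C) (hCK : 8 * C ≤ K) (hρK : 8 * ρ * (C : ℝ) ≤ K) (hb : (b : ℝ) ^ 2 / (4 * a) ≤ (ρ - 2) * C) (hn0 : |b| ≤ n0) (hL : 0 ≤ L) (hκ : 0 ≤ κ)
    (hκ1 : κ ≤ 1) (hrr : ρ * κ + ρ ^ 2 * a * (E : ℝ) ^ 2 * C / (K : ℝ) ^ 2 ≤ 1 / 2) (hM : 1 ≤ M) (hmM : (M : ℝ) ≤ 4 * m1) (hmM1 : (m1 : ℝ) + 2 ≤ 9 / 16 * M) (hmM2 : 25 / 16 * M ≤ (m2 : ℝ) - 2)
    (hE1 : 1 ≤ E) (hEN : E ≤ N1) (hE : K < m1 * (E + 1) ^ 2) (hEK : md a E ≤ K)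
    (h5 : (a : ℝ) * ((n0 : ℝ) + |(b : ℝ)| + E) ^ 2 ≤ (m1 : ℝ) * K)
    (h6 : (2 * m2 * K : ℝ) + E + |(b : ℝ)| + 1 ≤ N1)
    (hKK2 : K ≤ K2) (hK2 : K2 ≤ 2 * K) (hκK : (K2 : ℝ) ≤ (1 + κ) * K) (hQ0 : 1 ≤ Q0) (hQ0E : Q0 ≤ md a E)
    (hB0 : 0 ≤ B0) (hI : K ≤ I * l) (hl : 1 ≤ l) (hβ : ∀ k, |β k| ≤ B0)
    (hΔ : ∀ u, K ≤ u → u ≤ K2 → ∀ q ∈ Icc 1 Q0, ∀ r : ℕ, |∑ k ∈ (Ioc K u).filter (fun k => k ≡ r [MOD q]), β k| ≤ Δ) :
    TT a b β L C M m1 m2 n0 N1 K K2 ≤ 2 * B0 ^ 2 * Dg a b C m1 m2 n0 N1 K K2 +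
      2 * (2 * ((C : ℝ) / K) * (8 * B0 * K * ((I + 1) * (√(1 + Real.log E) * √(100 * (1 + Real.log (md a E)) * ((Q0 : ℝ) ^ 2 * Δ ^ 2 +
        B0 ^ 2 * (2 * K : ℕ) * (((2 * K : ℕ) : ℝ) / Q0 + md a E)))) + B0 * (l * (1 + Real.log E) + E))) +
        17000 * B0 ^ 2 * SB3 C0 ((C : ℝ) / K) K E +
        B0 ^ 2 * (2 * ErU a ρ L κ C K M E * (4 * ((C : ℝ) / K) * (((K2 : ℝ) - K) * (((K2 : ℝ) - K) * (1 + Real.log E) + E)) +
          8500 * SB3 C0 (4 * ((C : ℝ) / K)) K E) +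
          4 * Real.exp (-(L ^ 2 / 16)) * (E * (K : ℝ) ^ 2))) := by
  classical
  have hCR : (1 : ℝ) ≤ C := by exact_mod_cast hC
  have hK1 : 1 ≤ K := by omega
  have hKR : (1 : ℝ) ≤ K := by exact_mod_cast hK1
  have hCKR : 8 * (C : ℝ) ≤ K := by exact_mod_cast hCK
  set δ := (C : ℝ) / K with hδd
  have hδ0 : 0 < δ := by positivity
  have hδ8 : δ ≤ 1 / 8 := by
    rw [hδd, div_le_iff₀ (by linarith)]
    linarith
  have hE1R : (1 : ℝ) ≤ E := by exact_mod_cast hE1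
  have hlogE : 0 ≤ Real.log E := Real.log_nonneg hE1R
  have hsum1 := sum_inv_le E
  refine (TT_le hm1 hC hB0 hβ).trans ?_
  apply add_le_add le_rfl
  apply mul_le_mul_of_nonneg_left _ (by norm_num)
  -- restrict to `e ≤ E`
  have hrestr : ∑ e ∈ Icc 1 N1, ∑ k ∈ Ioc K K2, ∑ k' ∈ Ioc K K2, β k * β k' * W a b L C M m1 m2 n0 N1 e k k' =
      ∑ e ∈ Icc 1 E, ∑ k ∈ Ioc K K2, ∑ k' ∈ Ioc K K2, β k * β k' * W a b L C M m1 m2 n0 N1 e k k' := by
    symm
    apply sum_subset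
    · intro e he
      rw [mem_Icc] at he ⊢
      omega
    · intro e he he2
      rw [mem_Icc] at he he2
      apply sum_eq_zero
      intro k hk
      apply sum_eq_zero
      intro k' hk'
      rw [W_zero ha he.1 hm1 hn0 hE hK2 (by omega) hk hk', mul_zero]
  rw [hrestr]
  have hErE := ErU_nonneg (C := C) (K := K) (M := M) (e := E) hρ ha hL hκ
  have hone : ∀ e ∈ Icc 1 E, ∑ k ∈ Ioc K K2, ∑ k' ∈ Ioc K K2, β k * β k' * W a b L C M m1 m2 n0 N1 e k k' ≤
      2 * δ * |∑ k ∈ Ioc K K2, ∑ k' ∈ Ioc K K2, (if cls a b e k k' then β k * β k' * gs L a M e k k' else 0)| +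
      17000 * B0 ^ 2 * Bd3 C0 δ K e +
      B0 ^ 2 * (2 * ErU a ρ L κ C K M E * (4 * δ * (((K2 : ℝ) - K) * (((K2 : ℝ) - K) * (1 / e) + 1)) +
        8500 * Bd3 C0 (4 * δ) K e) + 4 * Real.exp (-(L ^ 2 / 16)) * (K : ℝ) ^ 2) := by
    intro e he
    rw [mem_Icc] at he
    have heR : (1 : ℝ) ≤ e := by exact_mod_cast he.1
    have heER : (e : ℝ) ≤ E := by exact_mod_cast he.2
    have hq : md a e ≤ K := by
      refine le_trans ?_ hEK
      unfold md
      exact Nat.mul_le_mul_left _ he.2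
    have h5e : (a : ℝ) * ((n0 : ℝ) + |(b : ℝ)| + e) ^ 2 ≤ (m1 : ℝ) * K := by
      refine le_trans ?_ h5
      have haR : (0 : ℝ) < a := by exact_mod_cast ha
      gcongr
    have h6e : (2 * m2 * K : ℝ) + e + |(b : ℝ)| + 1 ≤ N1 := by linarith
    have hrre : ρ * κ + ρ ^ 2 * a * (e : ℝ) ^ 2 * C / (K : ℝ) ^ 2 ≤ 1 / 2 := by
      refine le_trans ?_ hrr
      have haR : (0 : ℝ) < a := by exact_mod_cast ha
      have hρ0 : 0 < ρ := by linarith
      gcongr
    have hW : ∀ k ∈ Ioc K K2, ∀ k' ∈ Ioc K K2, β k * β k' * W a b L C M m1 m2 n0 N1 e k k' ≤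
        (if cls a b e k k' then β k * β k' * (gs L a M e k k' * (2 * tri δ (tt a e k k' - sf a b K + δ / 2))) else 0) +
        B0 ^ 2 * (2 * ErU a ρ L κ C K M E * (if cls a b e k k' then tri (4 * δ) (tt a e k k' - sf a b K) else 0) +
          4 * Real.exp (-(L ^ 2 / 16))) := by
      intro k hk k' hk'
      rw [mem_Ioc] at hk hk'
      have hkR : (k : ℝ) ≤ (1 + κ) * K := le_trans (by exact_mod_cast hk.2) hκK
      have hkR' : (k' : ℝ) ≤ (1 + κ) * K := le_trans (by exact_mod_cast hk'.2) hκK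
      have h1 := W_approxU (L := L) (κ := κ) (C := C) (M := M) (m2 := m2) (N1 := N1) hρ ha he.1 hm1 hC hCK hρK hb hn0 hL hκ hκ1 hrre hM hmM hmM1 hmM2
        h5e h6e hk.1.le hkR hk'.1.le hkR'
      rw [← hδd] at h1
      have h2 : |β k * β k'| ≤ B0 ^ 2 := by
        rw [abs_mul, sq]
        exact mul_le_mul (hβ k) (hβ k') (abs_nonneg _) hB0
      have hex := (Real.exp_pos (-(L ^ 2 / 16))).le
      by_cases hc : cls a b e k k'
      · simp only [if_pos hc] at h1 ⊢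
        set V := gs L a M e k k' * (2 * tri δ (tt a e k k' - sf a b K + δ / 2)) with hV
        have h3 : β k * β k' * W a b L C M m1 m2 n0 N1 e k k' =
            β k * β k' * V + β k * β k' * (W a b L C M m1 m2 n0 N1 e k k' - V) := by ring
        rw [h3]
        apply add_le_add le_rfl
        refine (le_abs_self _).trans ?_
        rw [abs_mul]
        apply mul_le_mul h2 _ (abs_nonneg _) (by positivity)
        refine h1.trans ?_
        have h4 : ErU a ρ L κ C K M e * (2 * tri (4 * δ) (tt a e k k' - sf a b K)) ≤ ErU a ρ L κ C K M E * (2 * tri (4 * δ) (tt a e k k' - sf a b K)) :=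
          mul_le_mul_of_nonneg_right (ErU_mono hρ ha he.2) (by have := tri_nonneg (4 * δ) (tt a e k k' - sf a b K); linarith)
        linarith
      · simp only [if_neg hc] at h1 ⊢
        have h3 : W a b L C M m1 m2 n0 N1 e k k' = 0 := by
          have := abs_nonpos_iff.1 h1
          linarith
        rw [h3, mul_zero]
        positivity
    refine (sum_le_sum fun k hk => sum_le_sum fun k' hk' => hW k hk k' hk').trans ?_
    have hgs := tri_gs3U (σ := sf a b K) (b := b) (M := M) (L := L) hC0 hbs hQ1 hQ4 ha he.1 hq hKK2 hK2 hδ0 (by linarith) hB0 β (fun k _ => hβ k)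
    have hcount := tri_count3U (σ := sf a b K) (b := b) hC0 hbs hQ1 hQ4 ha he.1 hq hKK2 hK2 (δ := 4 * δ) (by linarith) (by linarith)
    have hcard := card_cls_le (b := b) ha he.1 hKK2
    have hsplit : ∑ k ∈ Ioc K K2, ∑ k' ∈ Ioc K K2,
        ((if cls a b e k k' then β k * β k' * (gs L a M e k k' * (2 * tri δ (tt a e k k' - sf a b K + δ / 2))) else 0) +
        B0 ^ 2 * (2 * ErU a ρ L κ C K M E * (if cls a b e k k' then tri (4 * δ) (tt a e k k' - sf a b K) else 0) +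
          4 * Real.exp (-(L ^ 2 / 16)))) =
        ∑ k ∈ Ioc K K2, ∑ k' ∈ Ioc K K2,
        (if cls a b e k k' then β k * β k' * (gs L a M e k k' * (2 * tri δ (tt a e k k' - sf a b K + δ / 2))) else 0) +
        B0 ^ 2 * (2 * ErU a ρ L κ C K M E * (∑ k ∈ Ioc K K2, ∑ k' ∈ Ioc K K2, (if cls a b e k k' then tri (4 * δ) (tt a e k k' - sf a b K) else 0)) +
          4 * Real.exp (-(L ^ 2 / 16)) * (((K2 - K : ℕ) : ℝ) * ((K2 - K : ℕ) : ℝ))) := by
      simp only [sum_add_distrib, ← mul_sum, sum_const, Nat.card_Ioc, nsmul_eq_mul]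
      ring
    rw [hsplit]
    have h7 : ∑ k ∈ Ioc K K2, ∑ k' ∈ Ioc K K2,
        (if cls a b e k k' then β k * β k' * (gs L a M e k k' * (2 * tri δ (tt a e k k' - sf a b K + δ / 2))) else 0) ≤
        2 * δ * |∑ k ∈ Ioc K K2, ∑ k' ∈ Ioc K K2, (if cls a b e k k' then β k * β k' * gs L a M e k k' else 0)| +
        17000 * B0 ^ 2 * Bd3 C0 δ K e := by
      have h8 := (abs_le.1 hgs).2
      have h9 : 2 * δ * ∑ k ∈ Ioc K K2, ∑ k' ∈ Ioc K K2, (if cls a b e k k' then β k * β k' * gs L a M e k k' else 0) ≤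
          2 * δ * |∑ k ∈ Ioc K K2, ∑ k' ∈ Ioc K K2, (if cls a b e k k' then β k * β k' * gs L a M e k k' else 0)| :=
        mul_le_mul_of_nonneg_left (le_abs_self _) (by linarith)
      linarith
    apply add_le_add h7
    apply mul_le_mul_of_nonneg_left _ (by positivity)
    apply add_le_add
    · apply mul_le_mul_of_nonneg_left _ (by linarith)
      refine hcount.trans ?_
      apply add_le_add_left
      apply mul_le_mul_of_nonneg_left hcard (by linarith)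
    · apply mul_le_mul_of_nonneg_left _ (by positivity)
      have h10 : ((K2 - K : ℕ) : ℝ) ≤ K := by
        have : K2 - K ≤ K := by omega
        exact_mod_cast this
      rw [sq]
      exact mul_le_mul h10 h10 (Nat.cast_nonneg _) (by linarith)
  refine (sum_le_sum hone).trans ?_
  simp only [sum_add_distrib, ← mul_sum, sum_const, Nat.card_Icc, nsmul_eq_mul, Nat.add_sub_cancel]
  have hh0 := h0_bound (b := b) (M := M) (L := L) hls ha hKK2 hK2 hE1 hEK hQ0 hQ0E hL hB0 hI hl β hβ hΔ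
  have hK2K : 0 ≤ (K2 : ℝ) - K := by
    have : (K : ℝ) ≤ K2 := by exact_mod_cast hKK2
    linarith
  have hE0 : (0 : ℝ) ≤ E := by linarith
  have hsb1 := sum_Bd3 (C0 := C0) (K := K) (E := E) hδ0 hK1
  have hsb2 := sum_Bd3 (C0 := C0) (K := K) (E := E) (δ := 4 * δ) (by linarith) hK1
  apply add_le_add
  · apply add_le_add
    · exact mul_le_mul_of_nonneg_left hh0 (by linarith)
    · exact mul_le_mul_of_nonneg_left hsb1 (by positivity)
  · apply mul_le_mul_of_nonneg_left _ (by positivity)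
    apply add_le_add
    · apply mul_le_mul_of_nonneg_left _ (by linarith)
      apply add_le_add
      · apply mul_le_mul_of_nonneg_left _ (by linarith)
        apply mul_le_mul_of_nonneg_left _ hK2K
        apply add_le_add (mul_le_mul_of_nonneg_left hsum1 hK2K)
        rw [mul_one]
      · exact mul_le_mul_of_nonneg_left hsb2 (by norm_num)
    · apply le_of_eq
      ring

end Pool.Agent.N791.U
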