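import Mathlib
import Pool.Agent.N792.QG6
import Pool.Agent.N791.U.T

/-!
The type II estimate for one cell, uniformly in the linear coefficient (helper791, after helper792).
-/

set_option autoImplicit false

namespace Pool.Agent.N791.U

open Finset Filter Topology Pool.Agent.N792

/-- the conditions; `b² ≤ 4 a (ρ - 2) C` -/
structure Qu (a b : ℤ) (ρ c0 s y L g C K M E : ℝ) : Prop extends Qy a 0 c0 s y L g C K M E where
  hρ : 2 ≤ ρ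
  hρg : 8 * ρ ≤ g
  hρL : 100 * ρ ≤ L
  hbC : (b : ℝ) ^ 2 / (4 * a) ≤ (ρ - 2) * C

namespace Qu

variable {a b : ℤ} {ρ c0 s y L g C K M E : ℝ}

lemma gy' (h : Qu a b ρ c0 s y L g C K M E) : g ≤ y := by
  have := h.toQy.gy
  have := h.g0
  linarith

lemma ρy (h : Qu a b ρ c0 s y L g C K M E) : 8 * ρ ≤ y := h.hρg.trans h.gy'

lemma ρK (h : Qu a b ρ c0 s y L g C K M E) : 8 * ρ * C ≤ K := by
  have h1 := h.hC2
  have h2 := h.hK
  have hρ0 : 0 ≤ ρ := by linarith [h.hρ]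
  have h3 : 8 * ρ ≤ y ^ 24 := h.ρy.trans (le_self_pow₀ h.y1 (by norm_num))
  calc 8 * ρ * C ≤ 8 * ρ * s ^ 2 := mul_le_mul_of_nonneg_left h1 (by positivity)
    _ ≤ y ^ 24 * s ^ 2 := mul_le_mul_of_nonneg_right h3 (sq_nonneg _)
    _ = s ^ 2 * y ^ 24 := by ring
    _ ≤ K := h2

lemma bsq (h : Qu a b ρ c0 s y L g C K M E) : (b : ℝ) ^ 2 ≤ 4 * a * ρ * s ^ 2 := by
  have h1 := h.hbC
  have ha := h.a1
  have hC := h.C0
  have h2 := h.hC2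
  have hρ := h.hρ
  rw [div_le_iff₀ (by linarith)] at h1
  have h3 : (ρ - 2) * C ≤ ρ * s ^ 2 := by
    calc (ρ - 2) * C ≤ ρ * C := mul_le_mul_of_nonneg_right (by linarith) hC.le
      _ ≤ ρ * s ^ 2 := mul_le_mul_of_nonneg_left h2 (by linarith)
  calc (b : ℝ) ^ 2 ≤ (ρ - 2) * C * (4 * a) := h1
    _ ≤ (ρ * s ^ 2) * (4 * a) := mul_le_mul_of_nonneg_right h3 (by linarith)
    _ = _ := by ring

lemma aρ (h : Qu a b ρ c0 s y L g C K M E) : 4 * a * ρ * 100 * a ≤ s := by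
  have h1 := h.toQy.a4
  have h2 := h.ρy
  have h3 := h.toQy.ys
  have hy := h.y1
  have ha := h.a1
  have hρ := h.hρ
  have h4 : y ^ 3 ≤ y ^ 36 := pow_le_pow_right₀ hy (by norm_num)
  have e1 : 4 * (a : ℝ) * ρ * 100 * a ≤ y * y * y := by
    have e2 : 100 * (a : ℝ) * a ≤ y * y := by
      have : (a : ℝ) ≤ y := by linarith
      nlinarith
    have e3 : 4 * ρ ≤ y := by linarith
    calc 4 * (a : ℝ) * ρ * 100 * a = (4 * ρ) * (100 * (a : ℝ) * a) := by ring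
      _ ≤ y * (y * y) := mul_le_mul e3 e2 (by positivity) (by linarith)
      _ = _ := by ring
  calc 4 * (a : ℝ) * ρ * 100 * a ≤ y * y * y := e1
    _ = y ^ 3 := by ring
    _ ≤ s := h4.trans h3

lemma bs (h : Qu a b ρ c0 s y L g C K M E) : |(b : ℝ)| ≤ s ^ 3 := by
  have h3 : |(b : ℝ)| ≤ (b : ℝ) ^ 2 := by
    rcases eq_or_ne b 0 with hb0 | hb0
    · rw [hb0]; simp
    · have h4 : 1 ≤ |b| := Int.one_le_abs hb0
      have h5 : (1 : ℝ) ≤ |(b : ℝ)| := by exact_mod_cast h4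
      rw [← sq_abs]
      nlinarith
  have h1 := h.bsq
  have h2 := h.aρ
  have ha := h.a1
  have hρ := h.hρ
  have hs := h.s0
  have h4 : 4 * (a : ℝ) * ρ ≤ s := by
    refine le_trans ?_ h2
    have : 0 ≤ 4 * (a : ℝ) * ρ := by positivity
    nlinarith
  calc |(b : ℝ)| ≤ 4 * a * ρ * s ^ 2 := h3.trans h1
    _ ≤ s * s ^ 2 := mul_le_mul_of_nonneg_right h4 (by positivity)
    _ = s ^ 3 := by ring

lemma h5 (h : Qu a b ρ c0 s y L g C K M E) {m1 : ℝ} (hm1 : M / 3 ≤ m1) :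
    (a : ℝ) * (2 * |(b : ℝ)| + |(b : ℝ)| + E) ^ 2 ≤ m1 * K := by
  have hE := h.toQy.Es
  have hK := h.K0
  have hs := h.s0
  have ha := h.a1
  have hE1 := h.E1
  have hρ := h.hρ
  have hb := h.bsq
  have haρ := h.aρ
  have hb0 : 0 ≤ |(b : ℝ)| := abs_nonneg _
  have e0 : E ^ 2 ≤ s ^ 2 := pow_le_pow_left₀ (by linarith) hE 2
  have e1 : (2 * |(b : ℝ)| + |(b : ℝ)| + E) ^ 2 ≤ 18 * (b : ℝ) ^ 2 + 2 * E ^ 2 := by
    rw [← sq_abs (b : ℝ)]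
    nlinarith [sq_nonneg (3 * |(b : ℝ)| - E)]
  have e2 : 18 * (b : ℝ) ^ 2 + 2 * E ^ 2 ≤ 80 * a * ρ * s ^ 2 := by
    have f1 : (2 : ℝ) * s ^ 2 ≤ 2 * (a * ρ * s ^ 2) := by
      have : 1 ≤ (a : ℝ) * ρ := by nlinarith
      have f2 : 1 * s ^ 2 ≤ (a * ρ) * s ^ 2 := mul_le_mul_of_nonneg_right this (by positivity)
      linarith
    have f3 : 0 ≤ (a : ℝ) * ρ * s ^ 2 := by positivity
    linarith
  calc (a : ℝ) * (2 * |(b : ℝ)| + |(b : ℝ)| + E) ^ 2 ≤ a * (80 * a * ρ * s ^ 2) :=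
        mul_le_mul_of_nonneg_left (e1.trans e2) (by linarith)
    _ = (4 * a * ρ * 100 * a) * s ^ 2 / 5 := by ring
    _ ≤ s * s ^ 2 / 5 := by gcongr
    _ = s ^ 3 / 5 := by ring
    _ ≤ s ^ 3 / 3 := by
        have : 0 < s ^ 3 := by positivity
        linarith
    _ ≤ (M * K) / 3 := by linarith [h.toQy.MKbig]
    _ = (M / 3) * K := by ring
    _ ≤ m1 * K := mul_le_mul_of_nonneg_right hm1 hK.le

lemma h6 (h : Qu a b ρ c0 s y L g C K M E) : 4 * (M * K) + E + |(b : ℝ)| + 1 ≤ 8 * (M * K) := by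
  have h1 := h.toQy.MKbig
  have hb := h.bs
  have hE := h.toQy.Es
  have hs := h.toQy.s10
  have hyl := h.toQy.yl
  have h2 : s ≤ s ^ 3 := le_self_pow₀ h.s1 (by norm_num)
  have h3 : (1 : ℝ) ≤ s ^ 3 := one_le_pow₀ h.s1
  linarith

lemma rterm (h : Qu a b ρ c0 s y L g C K M E) : ρ ^ 2 * a * E ^ 2 * C / K ^ 2 ≤ 1 / (4 * g) := by
  have hg := h.g0
  have hK := h.K0
  have hC := h.C0
  have ha := h.a1
  have hy := h.y0
  have hs := h.s0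
  have hρ := h.hρ
  have hE : 0 ≤ E := by linarith [h.E1]
  rw [div_le_div_iff₀ (by positivity) (by positivity)]
  have e1 : E ^ 2 ≤ s ^ 2 := pow_le_pow_left₀ hE h.toQy.Es 2
  have e2 : (s ^ 2 * y ^ 24) ^ 2 ≤ K ^ 2 := pow_le_pow_left₀ (by positivity) h.hK 2
  have e3 : 4 * ρ ^ 2 * (a : ℝ) * g ≤ y ^ 48 := by
    have f1 := h.ρy
    have f2 := h.toQy.a4
    have f3 := h.gy'
    have f4 : y ^ 4 ≤ y ^ 48 := pow_le_pow_right₀ h.y1 (by norm_num)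
    have f5 : ρ ≤ y := by linarith
    have f6 : 4 * (a : ℝ) ≤ y := by linarith
    have f7 : (4 * (a : ℝ)) * g ≤ y * y := mul_le_mul f6 f3 hg.le hy.le
    have f8 : ρ ^ 2 ≤ y ^ 2 := pow_le_pow_left₀ (by linarith) f5 2
    calc 4 * ρ ^ 2 * (a : ℝ) * g = ρ ^ 2 * ((4 * a) * g) := by ring
      _ ≤ y ^ 2 * (y * y) := mul_le_mul f8 f7 (by positivity) (by positivity)
      _ = y ^ 4 := by ring
      _ ≤ _ := f4
  calc ρ ^ 2 * a * E ^ 2 * C * (4 * g) ≤ ρ ^ 2 * a * s ^ 2 * s ^ 2 * (4 * g) := by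
        gcongr
        exact h.hC2
    _ = s ^ 4 * (4 * ρ ^ 2 * (a : ℝ) * g) := by ring
    _ ≤ s ^ 4 * y ^ 48 := mul_le_mul_of_nonneg_left e3 (by positivity)
    _ = (s ^ 2 * y ^ 24) ^ 2 := by ring
    _ ≤ 1 * K ^ 2 := by rw [one_mul]; exact e2

lemma rr (h : Qu a b ρ c0 s y L g C K M E) : ρ * (1 / g) + ρ ^ 2 * a * E ^ 2 * C / K ^ 2 ≤ 1 / 2 := by
  have h1 := h.rterm
  have h2 := h.hρg
  have hg := h.g0
  have hρ := h.hρ
  have h3 : ρ * (1 / g) ≤ 1 / 8 := by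
    rw [mul_one_div, div_le_iff₀ hg]
    linarith
  have h4 : 1 / (4 * g) ≤ 1 / 8 := by
    apply one_div_le_one_div_of_le (by norm_num)
    linarith
  linarith

lemma Er_le (h : Qu a b ρ c0 s y L g C K M E) :
    L / M + 2 * (ρ * (1 / g) + ρ ^ 2 * a * E ^ 2 * C / K ^ 2) ≤ (ρ / 2) * (6 / g) := by
  have hg := h.g0
  have hM : 0 < M := by linarith [h.M1]
  have hL := h.L0
  have hρ := h.hρ
  have h0 := h.rterm
  have h1 : L / M ≤ 1 / (2 * g) := by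
    rw [div_le_div_iff₀ hM (by positivity)]
    have := h.toQy.Mbig
    nlinarith
  have h4 : (ρ / 2) * (6 / g) = 2 * (ρ * (1 / g)) + ρ * (1 / g) := by ring
  have h5 : 1 / (2 * g) + 2 * (1 / (4 * g)) = 1 * (1 / g) := by
    field_simp
    norm_num
  have h6 : 1 * (1 / g) ≤ ρ * (1 / g) := mul_le_mul_of_nonneg_right (by linarith) (by positivity)
  linarith

/-- the error of the weights -/
lemma err_part (h : Qu a b ρ c0 s y L g C K M E) {B0 lE ω Er : ℝ} (hlE : lE ≤ 2 * L) (hlE0 : 0 ≤ lE) (hω0 : 0 ≤ ω)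
    (hω : ω ≤ K / g) (hEr : Er ≤ (ρ / 2) * (6 / g)) :
    2 * (B0 ^ 2 * (2 * Er * (4 * (C / K) * (ω * (ω * lE + E)) +
          8500 * ((c0 + 1) * (K * √K) * ((4 * (C / K)) * (E * √E) + 2 * √E + E * (1 + Real.log K) / ((4 * (C / K)) * √K)))))) ≤
      (B0 ^ 2 * C * K / g ^ 3) * (156 * ρ * L) := by
  have hg := h.g0
  have hρ := h.hρ
  have hC := h.C0
  have hK := h.K0
  have hE1 := h.E1
  have hc0 := h.c1
  have hl0 := h.toQy.lK0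
  have h1 := h.toQy.err_part (B0 := B0) (Er := 6 / g) hlE hlE0 hω0 hω le_rfl (by positivity)
  have hX : 0 ≤ 4 * (C / K) * (ω * (ω * lE + E)) +
          8500 * ((c0 + 1) * (K * √K) * ((4 * (C / K)) * (E * √E) + 2 * √E + E * (1 + Real.log K) / ((4 * (C / K)) * √K))) := by
    have hE0 : 0 < E := by linarith
    positivity
  calc _ ≤ 2 * (B0 ^ 2 * (2 * ((ρ / 2) * (6 / g)) * (4 * (C / K) * (ω * (ω * lE + E)) +
          8500 * ((c0 + 1) * (K * √K) * ((4 * (C / K)) * (E * √E) + 2 * √E + E * (1 + Real.log K) / ((4 * (C / K)) * √K)))))) := by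
        gcongr
    _ = (ρ / 2) * (2 * (B0 ^ 2 * (2 * (6 / g) * (4 * (C / K) * (ω * (ω * lE + E)) +
          8500 * ((c0 + 1) * (K * √K) * ((4 * (C / K)) * (E * √E) + 2 * √E + E * (1 + Real.log K) / ((4 * (C / K)) * √K))))))) := by
        ring
    _ ≤ (ρ / 2) * ((B0 ^ 2 * C * K / g ^ 3) * (312 * L)) := mul_le_mul_of_nonneg_left h1 (by linarith)
    _ = _ := by ring

end Qu

/-- **the quadratic form of one cell** -/
theorem TT_cell3U {C0 ρ : ℝ} (hC0 : 0 < C0) (hbs : BSP C0) (hq1 : Q1) (hq4 : Q4) (hls : LSCP) {a b : ℤ} {β : ℕ → ℝ} {s y L B0 Δ D : ℝ}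
    {C M K K2 E t : ℕ} (ha : 0 < a) (h : Qu a b ρ (√C0) s y L ((2 : ℝ) ^ t) C K M E)
    (hEd : E = Nat.sqrt (K / (M / 2))) (hB0 : 1 ≤ B0) (hβ : ∀ k, |β k| ≤ B0)
    (hKK2 : K ≤ K2) (hκK : (K2 : ℝ) ≤ (1 + 1 / (2 : ℝ) ^ t) * K)
    (hΔ0 : 0 ≤ Δ) (hΔ2 : Δ * (10 ^ 12 * (2 : ℝ) ^ (18 * t)) ≤ K)
    (hΔ : ∀ u, K ≤ u → u ≤ K2 → ∀ q ∈ Icc 1 (6 * 10 ^ 7 * 2 ^ (12 * t)), ∀ r : ℕ,
      |∑ k ∈ (Ioc K u).filter (fun k => k ≡ r [MOD q]), β k| ≤ Δ)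
    (hD : ∀ N : ℕ, 1 ≤ N → N ≤ 4 * M * K → (#N.divisors : ℝ) ≤ D) (hD0 : 0 ≤ D) (hDy : D ≤ y) :
    TT a b β L C M (M / 2) (2 * M) (2 * b.natAbs) (8 * M * K) K K2 ≤
      5 * (B0 ^ 2 * C * K * L ^ 2 / ((2 : ℝ) ^ t) ^ 3) := by
  have hg1 := h.g1
  have hg0 := h.g0
  have hL0 := h.L0
  have hK0 := h.K0
  have hC1 : 1 ≤ C := by exact_mod_cast h.C1
  have hEn1 : 1 ≤ E := by exact_mod_cast h.E1
  have hMn : 100 ≤ M := by
    have h1 := h.toQy.Mbig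
    have h2 := h.L1
    have h3 : (1 : ℝ) ≤ 2 ^ t * L := by nlinarith only [hg1, h2]
    have : (100 : ℝ) ≤ M := by linarith
    exact_mod_cast this
  have hM100 : (100 : ℝ) ≤ M := by exact_mod_cast hMn
  have hm1 : 1 ≤ M / 2 := by omega
  have hm1c : (M : ℝ) ≤ 2 * ((M / 2 : ℕ) : ℝ) + 1 := by
    have : M ≤ 2 * (M / 2) + 1 := by omega
    exact_mod_cast this
  have hm1d : 2 * ((M / 2 : ℕ) : ℝ) ≤ M := by
    have : 2 * (M / 2) ≤ M := by omega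
    exact_mod_cast this
  have hCKn : 8 * C ≤ K := by exact_mod_cast h.toQy.C8
  have hκ1 : 1 / (2 : ℝ) ^ t ≤ 1 := by rw [div_le_one hg0]; exact hg1
  have hK2 : K2 ≤ 2 * K := by
    have h1 : (K2 : ℝ) ≤ 2 * K := by
      refine hκK.trans ?_
      have : (1 + 1 / (2 : ℝ) ^ t) * K ≤ 2 * K := mul_le_mul_of_nonneg_right (by linarith) hK0.le
      exact this
    exact_mod_cast h1
  have hn0R : ((2 * b.natAbs : ℕ) : ℝ) = 2 * |(b : ℝ)| := by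
    push_cast
    rw [Nat.cast_natAbs]
    push_cast
    rfl
  have hn0 : 2 * |b| ≤ ((2 * b.natAbs : ℕ) : ℤ) := by
    push_cast
    exact le_rfl
  have hn0' : |b| ≤ ((2 * b.natAbs : ℕ) : ℤ) := by
    have := abs_nonneg b
    linarith
  have hEm2 : K < (M / 2) * (E + 1) ^ 2 := by
    have h1 : K / (M / 2) < (E + 1) ^ 2 := by rw [hEd, sq]; exact Nat.lt_succ_sqrt _
    rw [mul_comm]
    exact (Nat.div_lt_iff_lt_mul (by omega)).1 h1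
  have hEm2R : (K : ℝ) ≤ M / 2 * ((E : ℝ) + 1) ^ 2 := by
    have e1 : (K : ℝ) < ((M / 2 : ℕ) : ℝ) * ((E : ℝ) + 1) ^ 2 := by exact_mod_cast hEm2
    have e2 : ((M / 2 : ℕ) : ℝ) * ((E : ℝ) + 1) ^ 2 ≤ M / 2 * (E + 1) ^ 2 := by
      apply mul_le_mul_of_nonneg_right _ (by positivity)
      linarith
    linarith
  have hmd : ((md a E : ℕ) : ℝ) = 4 * a * E := md_real ha
  have hEK : md a E ≤ K := by
    have : ((md a E : ℕ) : ℝ) ≤ K := by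
      rw [hmd]
      exact h.toQy.aE.trans h.toQy.s2K
    exact_mod_cast this
  have h12 : ((6 * 10 ^ 7 * 2 ^ (12 * t) : ℕ) : ℝ) = 6 * 10 ^ 7 * ((2 : ℝ) ^ t) ^ 12 := by
    push_cast
    rw [← pow_mul, mul_comm t 12]
    try norm_num
  have hQ0E : 6 * 10 ^ 7 * 2 ^ (12 * t) ≤ md a E := by
    have h1 : ((6 * 10 ^ 7 * 2 ^ (12 * t) : ℕ) : ℝ) ≤ ((md a E : ℕ) : ℝ) := by
      rw [hmd, h12]
      exact h.toQy.Qlow hEm2R
    exact_mod_cast h1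
  have hI : K ≤ 2 ^ (3 * t) * (K / 2 ^ (3 * t) + 1) := by
    have := Nat.lt_mul_div_succ K (show 0 < 2 ^ (3 * t) by positivity)
    exact this.le
  have hEN : E ≤ 8 * M * K := by
    have e1 : (E : ℝ) ≤ ((8 * M * K : ℕ) : ℝ) := by
      push_cast
      have := h.h6
      have e2 : 0 ≤ |(b : ℝ)| := abs_nonneg _
      have e3 : 0 ≤ (M : ℝ) * K := by positivity
      linarith
    exact_mod_cast e1
  have hcond5 : (a : ℝ) * (((2 * b.natAbs : ℕ) : ℝ) + |(b : ℝ)| + E) ^ 2 ≤ ((M / 2 : ℕ) : ℝ) * K := by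
    rw [hn0R]
    exact h.h5 (by linarith)
  have hcond6 : (2 * ((2 * M : ℕ) : ℝ) * K : ℝ) + E + |(b : ℝ)| + 1 ≤ ((8 * M * K : ℕ) : ℝ) := by
    push_cast
    have := h.h6
    linarith
  have hl1 : 1 ≤ K / 2 ^ (3 * t) + 1 := Nat.le_add_left _ _
  have hQ1 : 1 ≤ 6 * 10 ^ 7 * 2 ^ (12 * t) := by
    have : 1 ≤ 2 ^ (12 * t) := Nat.one_le_two_pow
    omega
  have key := TT_bound3U (Δ := Δ) (κ := 1 / (2 : ℝ) ^ t) (m2 := 2 * M) (n0 := 2 * b.natAbs) (N1 := 8 * M * K) (E := E)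
    (Q0 := 6 * 10 ^ 7 * 2 ^ (12 * t)) (l := K / 2 ^ (3 * t) + 1) (I := 2 ^ (3 * t)) (K2 := K2) (C := C) (M := M) (L := L)
    h.hρ hC0 hbs hq1 hq4 hls ha hm1 hC1 hCKn h.ρK h.hbC hn0' hL0.le (by positivity) hκ1 h.rr (by omega)
    (by linarith) (by linarith) (by push_cast; linarith) hEn1 hEN hEm2 hEK hcond5 hcond6 hKK2 hK2 hκK hQ1 hQ0E
    (by linarith) hI hl1 hβ hΔ
  refine key.trans ?_
  have hD1 := Dg_le (K2 := K2) (N1 := 8 * M * K) (C := C) ha hK2 hCKn (by omega : 2 ≤ M) hn0 hD hD0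
  have hN2 : ((Nat.sqrt (16 * M * K) : ℕ) : ℝ) ^ 2 ≤ 16 * (M * K) := by
    have f1 : ((Nat.sqrt (16 * M * K)) ^ 2 : ℕ) ≤ 16 * M * K := by rw [sq]; exact Nat.sqrt_le _
    have f2 : ((Nat.sqrt (16 * M * K) : ℕ) : ℝ) ^ 2 ≤ 16 * M * K := by exact_mod_cast f1
    linarith
  have p1 := h.toQy.diag (B0 := B0) hN2 (Nat.cast_nonneg _) hD0 hDy hD1
  have hlogE0 : 0 ≤ Real.log E := Real.log_nonneg h.E1
  have hlE := h.toQy.lE
  have hlq := h.toQy.lq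
  have hlq0 : 0 ≤ Real.log (4 * (a : ℝ) * E) := by
    apply Real.log_nonneg
    have := h.a1
    have := h.E1
    nlinarith only [h.a1, h.E1]
  have p2 := part_ls3 (a := a) (Δ := Δ) (lE := 1 + Real.log E) (lq := 1 + Real.log (4 * (a : ℝ) * E)) h.toQy.toQz hB0 rfl hΔ0 hΔ2 hlE (by linarith)
    hlq (by linarith)
  have hlR : ((K / 2 ^ (3 * t) + 1 : ℕ) : ℝ) ≤ K / ((2 : ℝ) ^ t) ^ 3 + 1 := by
    have e1 : ((K / 2 ^ (3 * t) : ℕ) : ℝ) ≤ K / ((2 : ℝ) ^ t) ^ 3 := by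
      have := Nat.cast_div_le (α := ℝ) (m := K) (n := 2 ^ (3 * t))
      have e2 : ((2 ^ (3 * t) : ℕ) : ℝ) = ((2 : ℝ) ^ t) ^ 3 := by push_cast; rw [← pow_mul, mul_comm t 3]
      rw [e2] at this
      exact this
    push_cast
    linarith
  have p3 := h.toQy.grid (B0 := B0) hlR hlE (by linarith)
  have p4 := h.toQy.dls_part (B0 := B0)
  have hω : (K2 : ℝ) - K ≤ K / (2 : ℝ) ^ t := by
    have : (1 + 1 / (2 : ℝ) ^ t) * K = K + K / 2 ^ t := by ring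
    linarith
  have hω0 : 0 ≤ (K2 : ℝ) - K := by
    have : (K : ℝ) ≤ K2 := by exact_mod_cast hKK2
    linarith
  have p5 := h.err_part (B0 := B0) (ω := (K2 : ℝ) - K) (Er := ErU a ρ L (1 / (2 : ℝ) ^ t) C K M E) hlE (by linarith) hω0 hω
    h.Er_le
  have p6 := h.toQy.exp_part (B0 := B0)
  have hP0 : 0 ≤ B0 ^ 2 * C * K / ((2 : ℝ) ^ t) ^ 3 := by positivity
  have hPL : (B0 ^ 2 * C * K / ((2 : ℝ) ^ t) ^ 3) * (156 * ρ * L) + 2 * (B0 ^ 2 * C * K / ((2 : ℝ) ^ t) ^ 3) ≤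
      2 * ((B0 ^ 2 * C * K / ((2 : ℝ) ^ t) ^ 3) * L ^ 2) := by
    have e0 := h.L1
    have e00 := h.hρL
    have e1 : 156 * ρ * L + 2 ≤ 2 * L ^ 2 := by
      have e2 : 156 * ρ * L ≤ 1.56 * L * L := mul_le_mul_of_nonneg_right (by linarith) (by linarith)
      nlinarith only [e0, e2]
    calc (B0 ^ 2 * C * K / ((2 : ℝ) ^ t) ^ 3) * (156 * ρ * L) + 2 * (B0 ^ 2 * C * K / ((2 : ℝ) ^ t) ^ 3) =
        (B0 ^ 2 * C * K / ((2 : ℝ) ^ t) ^ 3) * (156 * ρ * L + 2) := by ring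
      _ ≤ (B0 ^ 2 * C * K / ((2 : ℝ) ^ t) ^ 3) * (2 * L ^ 2) := mul_le_mul_of_nonneg_left e1 hP0
      _ = _ := by ring
  have hPP : B0 ^ 2 * C * K * L ^ 2 / ((2 : ℝ) ^ t) ^ 3 = (B0 ^ 2 * C * K / ((2 : ℝ) ^ t) ^ 3) * L ^ 2 := by ring
  rw [hPP] at p2 ⊢
  have hKne : (K : ℝ) ≠ 0 := hK0.ne'
  have hexpand : ∀ X1 X2 X3 X4 X5 : ℝ, 2 * (2 * ((C : ℝ) / K) * (8 * B0 * K * ((((2 ^ (3 * t) : ℕ) : ℝ) + 1) * X1 + B0 * X2)) +
      X3 + B0 ^ 2 * (X4 + X5)) = 32 * C * B0 * (((2 ^ (3 * t) : ℕ) : ℝ) + 1) * X1 + 32 * C * B0 * (B0 * X2) + 2 * X3 +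
      2 * (B0 ^ 2 * X4) + 2 * (B0 ^ 2 * X5) := by
    intro X1 X2 X3 X4 X5
    field_simp
    ring
  rw [hexpand, hmd]
  unfold SB3
  linarith


/-- **the type II estimate for one cell** -/
theorem cell_bound3U (hq1 : Q1) (hq4 : Q4) (a : ℤ) (ha : 0 < a) (ρ : ℝ) (hρ2 : 2 ≤ ρ) (ε : ℝ) (hε : 0 < ε) (hε1 : ε ≤ 1 / 10) (B1 : ℕ) :
    ∃ x0 : ℕ, ∀ x : ℕ, x0 ≤ x → ∀ (b : ℤ) (C M M2 K K2 u : ℕ) (S : Finset ℕ) (β : ℕ → ℝ) (B0 : ℝ),
    (b : ℝ) ^ 2 / (4 * a) ≤ (ρ - 2) * C → 8 * ρ ≤ (2 : ℝ) ^ (2 * u) →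
    (K : ℝ) * (x : ℝ) ^ ε ≤ C * √(x : ℝ) → C ≤ x → (x : ℝ) ^ (1 + ε) ≤ K →
    (x : ℝ) ^ 2 ≤ M * K * Real.log x → (M : ℝ) * K ≤ (x : ℝ) ^ 2 * Real.log x → M ≤ M2 → M ≤ x →
    S ⊆ Ioc M M2 → (∀ m ∈ S, ∑ c ∈ Icc 1 C, (rho a b (c : ℕ) m : ℝ) ≤ 2 * C) →
    (M2 : ℝ) ≤ M * (1 + 1 / Real.log x) → (2 : ℝ) ^ (2 * u) ≤ Real.log x ^ B1 → K ≤ K2 →
    (K2 : ℝ) ≤ (1 + 1 / (2 : ℝ) ^ (2 * u)) * K → 1 ≤ B0 → (∀ k, |β k| ≤ B0) →
    (∀ v, K ≤ v → v ≤ K2 → ∀ q ∈ Icc 1 (6 * 10 ^ 7 * 2 ^ (12 * (2 * u))), ∀ r : ℕ,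
      |∑ k ∈ (Ioc K v).filter (fun k => k ≡ r [MOD q]), β k| * (10 ^ 12 * (2 : ℝ) ^ (18 * (2 * u))) ≤ K) →
    ∑ c ∈ Icc 1 C, ∑ m ∈ S, |Sg a b β (2 * b.natAbs) (8 * M * K) K K2 (c : ℕ) m| ≤
      B0 * (C * x) * Real.log x ^ 2 / (2 : ℝ) ^ (3 * u) := by
  obtain ⟨C0, hC0, hbs0⟩ := bs
  have hbs : BSP C0 := hbs0
  have hls : LSCP := fun N Q Q0 β Δ B0 h1 h2 h3 h4 h5 => ls_classes N Q Q0 β Δ B0 h1 h2 h3 h4 h5
  obtain ⟨Cd, hCd0, hCd⟩ := Pool.Agent.Helper112.divisor_bound (ε / 100) (by positivity)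
  have e1 : ∀ᶠ x : ℕ in atTop, (200 : ℝ) ≤ Real.log x :=
    (Real.tendsto_log_atTop.comp tendsto_natCast_atTop_atTop).eventually_ge_atTop 200
  have e2 := ev_log_pow (10 ^ 10 * ((a : ℝ) + 1) * (√C0 + 1)) (12 * B1 + 2) (δ := ε / 24) (by positivity)
  have e3 : ∀ᶠ x : ℕ in atTop, 100 * ρ ≤ Real.log x :=
    (Real.tendsto_log_atTop.comp tendsto_natCast_atTop_atTop).eventually_ge_atTop _
  have e4 := ev_log_pow Cd 0 (δ := ε / 100) (by positivity)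
  have e5 := ev_log_pow 4 1 (δ := 1) (by positivity)
  have e6 := ev_log_pow 100 1 (δ := 1 / 2) (by positivity)
  obtain ⟨x0, hx0⟩ := eventually_atTop.1 (((((e1.and e2).and e3).and e4).and e5).and e6)
  refine ⟨x0, fun x hx b C M M2 K K2 u S β B0 hbC hρg hC1 hC2 hK1 hMK2 hMK hMM2 hMx hS hρ hM2 hg hKK2 hκ hB0 hβ hH => ?_⟩
  obtain ⟨⟨⟨⟨⟨f1, f2⟩, f3⟩, f4⟩, f5⟩, f6⟩ := hx0 x hx
  rw [pow_zero, mul_one] at f4
  rw [pow_one, Real.rpow_one] at f5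
  rw [pow_one] at f6
  have hxpos : (0 : ℝ) < x := by
    by_contra hcon
    have : (x : ℝ) = 0 := le_antisymm (not_lt.1 hcon) (Nat.cast_nonneg _)
    rw [this, Real.log_zero] at f1
    linarith
  have hx1 : (1 : ℝ) ≤ x := by
    have : 0 < x := by exact_mod_cast hxpos
    exact_mod_cast this
  set L := Real.log x with hL
  have hL0 : 0 < L := by linarith
  set s := √(x : ℝ) with hs
  have hs2 : s ^ 2 = x := Real.sq_sqrt hxpos.le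
  have hs1 : 1 ≤ s := by rw [hs, ← Real.sqrt_one]; exact Real.sqrt_le_sqrt hx1
  have hspow : ∀ r : ℝ, (x : ℝ) ^ r = s ^ (2 * r) := by
    intro r
    rw [← hs2, ← Real.rpow_natCast, ← Real.rpow_mul (by linarith)]
    norm_num
  set y := (x : ℝ) ^ (ε / 24) with hy
  have hy1 : 1 ≤ y := Real.one_le_rpow hx1 (by positivity)
  have hypow : ∀ n : ℕ, y ^ n = (x : ℝ) ^ (ε / 24 * n) := by
    intro n
    rw [hy, ← Real.rpow_natCast, ← Real.rpow_mul hxpos.le]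
  have hx2 : s ^ 4 = (x : ℝ) ^ 2 := by rw [← hs2]; ring
  have hL2 : L = 2 * Real.log s := by
    rw [hL, ← hs2, Real.log_pow]
    push_cast
    ring
  have hs3 : s ^ 3 = (x : ℝ) ^ (3 / 2 : ℝ) := by
    rw [hspow, ← Real.rpow_natCast]
    norm_num
  -- sizes of `M`, `K`
  have hK0 : (0 : ℝ) < K := lt_of_lt_of_le (Real.rpow_pos_of_pos hxpos _) hK1
  have hKx : (x : ℝ) ≤ K := by
    refine le_trans ?_ hK1
    nth_rw 1 [← Real.rpow_one (x : ℝ)]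
    exact Real.rpow_le_rpow_of_exponent_le hx1 (by linarith)
  have hKx32 : (K : ℝ) ≤ (x : ℝ) ^ (3 / 2 : ℝ) := by
    rw [← hs3]
    have h3 : (C : ℝ) ≤ s ^ 2 := by rw [hs2]; exact_mod_cast hC2
    have h4 : (K : ℝ) * 1 ≤ (K : ℝ) * (x : ℝ) ^ ε :=
      mul_le_mul_of_nonneg_left (Real.one_le_rpow hx1 hε.le) (by positivity)
    calc (K : ℝ) ≤ (K : ℝ) * (x : ℝ) ^ ε := by linarith
      _ ≤ C * s := hC1
      _ ≤ s ^ 2 * s := mul_le_mul_of_nonneg_right h3 (by linarith)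
      _ = _ := by ring
  have hM100 : (100 : ℝ) ≤ M := by
    have h1 : (K : ℝ) ≤ (x : ℝ) ^ (3 / 2 : ℝ) := hKx32
    have h2 : (x : ℝ) ^ (3 / 2 : ℝ) * (x : ℝ) ^ (1 / 2 : ℝ) = (x : ℝ) ^ 2 := by
      rw [← Real.rpow_add hxpos]
      norm_num
    have hM0 : (0 : ℝ) ≤ M := Nat.cast_nonneg _
    have h3 : (x : ℝ) ^ (3 / 2 : ℝ) * (x : ℝ) ^ (1 / 2 : ℝ) ≤ (x : ℝ) ^ (3 / 2 : ℝ) * (M * L) := by
      calc (x : ℝ) ^ (3 / 2 : ℝ) * (x : ℝ) ^ (1 / 2 : ℝ) = (x : ℝ) ^ 2 := h2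
        _ ≤ M * K * L := hMK2
        _ ≤ M * (x : ℝ) ^ (3 / 2 : ℝ) * L := by gcongr
        _ = _ := by ring
    have h4 : (x : ℝ) ^ (1 / 2 : ℝ) ≤ M * L := le_of_mul_le_mul_left h3 (Real.rpow_pos_of_pos hxpos _)
    have h5 : 100 * L ≤ M * L := f6.trans h4
    exact le_of_mul_le_mul_right h5 hL0
  have hMn : 100 ≤ M := by exact_mod_cast hM100
  have hM0 : (0 : ℝ) < M := by linarith
  have hCn : 1 ≤ C := by
    rcases Nat.eq_zero_or_pos C with h | h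
    · exfalso
      rw [h] at hC1
      have : (0 : ℝ) < (K : ℝ) * (x : ℝ) ^ ε := by positivity
      norm_num at hC1
      linarith
    · exact h
  have hC0' : (1 : ℝ) ≤ C := by exact_mod_cast hCn
  have hMC : M ≤ K := by
    have h1 : (M : ℝ) ≤ K := by
      have h2 : (M : ℝ) ≤ x := by exact_mod_cast hMx
      linarith
    exact_mod_cast h1
  have hE1 : 1 ≤ Nat.sqrt (K / (M / 2)) := by
    rw [Nat.le_sqrt, mul_one]
    rw [Nat.le_div_iff_mul_le (by omega)]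
    omega
  have hE2 : ((Nat.sqrt (K / (M / 2)) : ℕ) : ℝ) ^ 2 * M ≤ 3 * K := by
    have h1 : Nat.sqrt (K / (M / 2)) ^ 2 * (M / 2) ≤ K := by
      calc Nat.sqrt (K / (M / 2)) ^ 2 * (M / 2) ≤ K / (M / 2) * (M / 2) := by
            apply Nat.mul_le_mul_right
            rw [sq]
            exact Nat.sqrt_le _
        _ ≤ K := Nat.div_mul_le_self _ _
    have h2 : M ≤ 3 * (M / 2) := by omega
    have h3 : Nat.sqrt (K / (M / 2)) ^ 2 * M ≤ 3 * K := by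
      calc Nat.sqrt (K / (M / 2)) ^ 2 * M ≤ Nat.sqrt (K / (M / 2)) ^ 2 * (3 * (M / 2)) := Nat.mul_le_mul_left _ h2
        _ = 3 * (Nat.sqrt (K / (M / 2)) ^ 2 * (M / 2)) := by ring
        _ ≤ 3 * K := Nat.mul_le_mul_left _ h1
    exact_mod_cast h3
  have hg1 : (1 : ℝ) ≤ 2 ^ (2 * u) := one_le_pow₀ (by norm_num)
  have hSy : Qu a b ρ (√C0) s y L ((2 : ℝ) ^ (2 * u)) C K M ((Nat.sqrt (K / (M / 2)) : ℕ) : ℝ) := by
    refine ⟨⟨⟨hs1, hy1, f1, hg1, by exact_mod_cast ha, Real.sqrt_nonneg _, hC0', by linarith, by linarith, by exact_mod_cast hE1,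
      ?_, ?_, ?_, ?_, ?_, hE2, ?_⟩, by push_cast; rw [zero_pow (by norm_num)]; linarith, ?_, hL2⟩, hρ2, hρg, f3, hbC⟩
    · -- hC
      rw [hypow]
      refine le_trans (le_of_eq ?_) hC1
      congr 2
      push_cast
      ring
    · rw [hs2]; exact_mod_cast hC2
    · -- hK
      rw [hs2, hypow]
      refine le_trans (le_of_eq ?_) hK1
      nth_rw 1 [← Real.rpow_one (x : ℝ)]
      rw [← Real.rpow_add hxpos]
      congr 1
      push_cast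
      ring
    · rw [hx2]; exact hMK
    · rw [hx2]; exact hMK2
    · -- hy
      refine le_trans ?_ f2
      have h1 : ((2 : ℝ) ^ (2 * u)) ^ 12 ≤ L ^ (12 * B1) := by
        calc ((2 : ℝ) ^ (2 * u)) ^ 12 ≤ (L ^ B1) ^ 12 := pow_le_pow_left₀ (by positivity) hg 12
          _ = L ^ (12 * B1) := by rw [← pow_mul, mul_comm B1 12]
      have ha1 : (0 : ℝ) < a := by exact_mod_cast ha
      calc 10 ^ 10 * ((a : ℝ) + 1) * (√C0 + 1) * ((2 : ℝ) ^ (2 * u)) ^ 12 * L ^ 2 ≤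
          10 ^ 10 * ((a : ℝ) + 1) * (√C0 + 1) * L ^ (12 * B1) * L ^ 2 := by
            apply mul_le_mul_of_nonneg_right _ (by positivity)
            apply mul_le_mul_of_nonneg_left h1 (by positivity)
        _ = _ := by rw [pow_add]; ring
    · -- hex
      have h1 : s ^ 20 = Real.exp (10 * L) := by
        rw [hL2, ← Real.exp_log (show 0 < s by linarith), ← Real.exp_nat_mul, Real.log_exp]
        congr 1
        push_cast
        ring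
      rw [h1, ← Real.exp_add, Real.exp_le_one_iff]
      nlinarith only [f1]
  have hD : ∀ N : ℕ, 1 ≤ N → N ≤ 4 * M * K → (#N.divisors : ℝ) ≤ y := by
    intro N hN1 hN2
    refine (hCd N hN1).trans ?_
    have h1 : (N : ℝ) ≤ (x : ℝ) ^ (3 : ℝ) := by
      have h2 : (N : ℝ) ≤ 4 * (M * K) := by
        have : (N : ℝ) ≤ ((4 * M * K : ℕ) : ℝ) := by exact_mod_cast hN2
        push_cast at this
        linarith
      have h3 : (x : ℝ) ^ (3 : ℝ) = (x : ℝ) ^ 3 := by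
        rw [← Real.rpow_natCast]
        norm_num
      rw [h3]
      calc (N : ℝ) ≤ 4 * (M * K) := h2
        _ ≤ 4 * ((x : ℝ) ^ 2 * L) := by linarith
        _ = (4 * L) * (x : ℝ) ^ 2 := by ring
        _ ≤ x * (x : ℝ) ^ 2 := mul_le_mul_of_nonneg_right f5 (by positivity)
        _ = _ := by ring
    calc Cd * (N : ℝ) ^ (ε / 100) ≤ (x : ℝ) ^ (ε / 100) * ((x : ℝ) ^ (3 : ℝ)) ^ (ε / 100) := by
          apply mul_le_mul f4 (Real.rpow_le_rpow (Nat.cast_nonneg _) h1 (by positivity)) (by positivity) (by positivity)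
      _ = (x : ℝ) ^ (ε / 100 + 3 * (ε / 100)) := by
          rw [← Real.rpow_mul hxpos.le, ← Real.rpow_add hxpos]
      _ ≤ y := Real.rpow_le_rpow_of_exponent_le hx1 (by linarith)
  have hP : (0 : ℝ) < 10 ^ 12 * (2 : ℝ) ^ (18 * (2 * u)) := by positivity
  have hT := TT_cell3U (Δ := K / (10 ^ 12 * (2 : ℝ) ^ (18 * (2 * u)))) (D := y) hC0 hbs hq1 hq4 hls ha hSy rfl hB0 hβ hKK2 hκ
    (by positivity) (by rw [div_mul_cancel₀ _ hP.ne']) (fun v hv1 hv2 q hq r => by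
      rw [le_div_iff₀ hP]
      exact hH v hv1 hv2 q hq r) hD (by linarith) le_rfl
  have hM2M : M2 ≤ 2 * M := by
    have h1 : (M2 : ℝ) ≤ 2 * M := by
      refine hM2.trans ?_
      have h2 : 1 / L ≤ 1 := by rw [div_le_one hL0]; linarith
      nlinarith
    exact_mod_cast h1
  have hc := cauchy_step2 (a := a) (b := b) (β := β) (L := L) (C := C) (M := M) (M2 := M2) (m1 := M / 2) (m2 := 2 * M)
    (n0 := 2 * b.natAbs) (N1 := 8 * M * K) (K := K) (K2 := K2) hS hρ (by omega) hCn (by omega) hM2M (by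
      intro m hm
      rw [mem_Ioc] at hm
      refine gw_half (by linarith) hM0 (by exact_mod_cast hm.1.le) (le_trans ?_ hM2)
      exact_mod_cast hm.2)
  have hdiff : ((M2 - M : ℕ) : ℝ) ≤ M := by
    have : M2 - M ≤ M := by omega
    exact_mod_cast this
  have hTT0 : 0 ≤ TT a b β L C M (M / 2) (2 * M) (2 * b.natAbs) (8 * M * K) K K2 := by
    unfold TT
    refine sum_nonneg fun m _ => mul_nonneg (gw_pos _ _ _).le (sum_nonneg fun c _ => sum_nonneg fun v _ => mul_nonneg ?_ (sq_nonneg _))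
    exact Ph_nonneg _
  have hS0 : 0 ≤ B0 * (C * x) * L ^ 2 / (2 : ℝ) ^ (3 * u) := by positivity
  refine abs_le_of_sq_le_sq' ?_ hS0 |>.2
  refine hc.trans ?_
  have hL1 : (200 : ℝ) ≤ L := f1
  calc 8 * (C : ℝ) * (M2 - M : ℕ) * TT a b β L C M (M / 2) (2 * M) (2 * b.natAbs) (8 * M * K) K K2 ≤
      8 * C * M * (5 * (B0 ^ 2 * C * K * L ^ 2 / ((2 : ℝ) ^ (2 * u)) ^ 3)) := by
        apply mul_le_mul _ hT hTT0 (by positivity)
        apply mul_le_mul_of_nonneg_left hdiff (by positivity)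
    _ = 40 * B0 ^ 2 * C ^ 2 * L ^ 2 * (M * K) / ((2 : ℝ) ^ (2 * u)) ^ 3 := by ring
    _ ≤ 40 * B0 ^ 2 * C ^ 2 * L ^ 2 * ((x : ℝ) ^ 2 * L) / ((2 : ℝ) ^ (2 * u)) ^ 3 := by
        apply div_le_div_of_nonneg_right _ (by positivity)
        apply mul_le_mul_of_nonneg_left hMK (by positivity)
    _ = (40 * L ^ 3) * (B0 ^ 2 * C ^ 2 * (x : ℝ) ^ 2) / ((2 : ℝ) ^ (2 * u)) ^ 3 := by ring
    _ ≤ L ^ 4 * (B0 ^ 2 * C ^ 2 * (x : ℝ) ^ 2) / ((2 : ℝ) ^ (2 * u)) ^ 3 := by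
        apply div_le_div_of_nonneg_right _ (by positivity)
        apply mul_le_mul_of_nonneg_right _ (by positivity)
        calc 40 * L ^ 3 ≤ L * L ^ 3 := mul_le_mul_of_nonneg_right (by linarith) (by positivity)
          _ = L ^ 4 := by ring
    _ = (B0 * (C * x) * L ^ 2 / (2 : ℝ) ^ (3 * u)) ^ 2 := by
        rw [div_pow]
        congr 1
        · ring
        · rw [← pow_mul, ← pow_mul]
          congr 1
          ring

end Pool.Agent.N791.U
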