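import Mathlib
import Pool.Agent.N792.RX3
import Pool.Agent.N791.U.Base

/-!
X3 uniformly in `b`, `b² ≤ Λ C` (helper791, after helper138 and helper221).
-/

set_option autoImplicit false
set_option maxHeartbeats 4000000

namespace Pool.Agent.N791.U

open Finset Filter Topology Pool.Agent.N792
open Gap

/-- uniform version of `X3`, `b² ≤ Λ C` -/
def X3V (a : ℤ) (Λ : ℝ) (R : ℕ) : Prop := ∃ C3 : ℝ, 0 < C3 ∧ ∀ η ε : ℝ, 0 < η → η ≤ 1 / 10 → 0 < ε → ε ≤ 1 / 100 →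
    ∃ x0 : ℕ, ∀ x : ℕ, x0 ≤ x → ∀ b : ℤ,
    ∀ x1 C z y : ℕ, (b : ℝ) ^ 2 ≤ Λ * C → x1 < x → x ≤ R * x1 → (x : ℝ) ^ (7 / 10 : ℝ) ≤ C → C ≤ x →
    (x : ℝ) ^ η ≤ z → (x : ℝ) ^ (1 - ε) ≤ y →
    ∑ c ∈ Icc 1 C, Lc a b x1 x c (gp z y) ≤ C3 * (ε / η ^ 2) * (C * x / Real.log x) ∧
    Ls a b x1 x (gp z y) ≤ C3 * (ε / η ^ 2) * (x / Real.log x)

lemma near_intU (a b : ℤ) (ha : 0 < a) (R x1 x C N n : ℕ) (Λ : ℝ) (hΛ : 0 ≤ Λ) (hbC : (b : ℝ) ^ 2 ≤ Λ * C) (hx1 : x ≤ R * x1) (hbx : R * b.natAbs ≤ x) (hC : 1 ≤ C)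
    (hx : 1 ≤ x) (hn : x1 < n) (h0 : 0 < (N : ℤ) - fv a b 0 n) (h1 : (N : ℤ) - fv a b 0 n ≤ C) :
    |(n : ℝ) - (√((N : ℝ) / a) - b / (2 * a))| ≤ 2 * R * (1 + Λ) * (C / x) := by
  have har : (1 : ℝ) ≤ a := by exact_mod_cast ha
  have hxr : (1 : ℝ) ≤ x := by exact_mod_cast hx
  have hCr : (1 : ℝ) ≤ C := by exact_mod_cast hC
  have hx1r : (x : ℝ) ≤ R * x1 := by exact_mod_cast hx1
  have hnr : (x1 : ℝ) ≤ n := by exact_mod_cast hn.le
  have hR0 : (0 : ℝ) ≤ R := Nat.cast_nonneg _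
  have hRn : (x : ℝ) ≤ R * n := hx1r.trans (mul_le_mul_of_nonneg_left hnr hR0)
  have hbr : (R : ℝ) * |(b : ℝ)| ≤ x := by
    have : ((R * b.natAbs : ℕ) : ℝ) ≤ x := by exact_mod_cast hbx
    rw [Nat.cast_mul, Nat.cast_natAbs, Int.cast_abs] at this
    exact this
  have hRpos : (0 : ℝ) < R := by
    rcases hR0.lt_or_eq with h | h
    · exact h
    · rw [← h] at hRn; linarith
  have hbn : |(b : ℝ)| ≤ n := by
    have := hbr.trans hRn
    exact le_of_mul_le_mul_left this hRpos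
  obtain ⟨v, hv⟩ : ∃ v : ℝ, v = n + b / (2 * a) := ⟨_, rfl⟩
  have hv1 : (n : ℝ) / 2 ≤ v := by
    have : |(b : ℝ) / (2 * a)| ≤ n / 2 := by
      rw [abs_div, abs_of_pos (by linarith : (0 : ℝ) < 2 * a), div_le_div_iff₀ (by linarith) (by norm_num)]
      nlinarith [abs_nonneg (b : ℝ)]
    have := (abs_le.1 this).1
    rw [hv]; linarith
  have hnpos : (0 : ℝ) < n := by
    have : 0 < n := by omega
    exact_mod_cast this
  have h0r : (0 : ℝ) < (N : ℝ) - (a * n ^ 2 + b * n) := by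
    have : ((0 : ℤ) : ℝ) < (((N : ℤ) - fv a b 0 n : ℤ) : ℝ) := by exact_mod_cast h0
    unfold fv at this
    push_cast at this
    linarith
  have h1r : (N : ℝ) - (a * n ^ 2 + b * n) ≤ C := by
    have : (((N : ℤ) - fv a b 0 n : ℤ) : ℝ) ≤ ((C : ℤ) : ℝ) := by exact_mod_cast h1
    unfold fv at this
    push_cast at this
    linarith
  obtain ⟨w, hw⟩ : ∃ w : ℝ, w = √((N : ℝ) / a) := ⟨_, rfl⟩
  have hw0 : 0 ≤ w := by rw [hw]; exact Real.sqrt_nonneg _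
  have hw2 : w ^ 2 = N / a := by rw [hw, Real.sq_sqrt (by positivity)]
  have e1 : (w - v) * (w + v) = ((N : ℝ) - (a * n ^ 2 + b * n)) / a - b ^ 2 / (4 * a ^ 2) := by
    have : (w - v) * (w + v) = w ^ 2 - v ^ 2 := by ring
    rw [this, hw2, hv]
    field_simp
    ring
  have e2 : |(w - v) * (w + v)| ≤ (1 + Λ) * C := by
    rw [e1]
    have q1 : 0 ≤ ((N : ℝ) - (a * n ^ 2 + b * n)) / a := by positivity
    have q2 : ((N : ℝ) - (a * n ^ 2 + b * n)) / a ≤ C := by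
      rw [div_le_iff₀ (by linarith)]
      nlinarith
    have q3 : 0 ≤ (b : ℝ) ^ 2 / (4 * a ^ 2) := by positivity
    have q4 : (b : ℝ) ^ 2 / (4 * a ^ 2) ≤ Λ * C := by
      refine (div_le_self (sq_nonneg _) ?_).trans hbC
      nlinarith
    rw [abs_le]
    constructor <;> nlinarith
  rw [abs_mul] at e2
  have e3 : (n : ℝ) / 2 ≤ |w + v| := by
    rw [abs_of_nonneg (by linarith)]; linarith
  have e4 : |w - v| * (n / 2) ≤ (1 + Λ) * C :=
    (mul_le_mul_of_nonneg_left e3 (abs_nonneg _)).trans e2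
  have e5 : (n : ℝ) - (√((N : ℝ) / a) - b / (2 * a)) = -(w - v) := by rw [hv, ← hw]; ring
  rw [e5, abs_neg]
  have e6 : 2 * R * (1 + Λ) * (C / x) = 2 * R * ((1 + Λ) * C) / x := by ring
  rw [e6, le_div_iff₀ (by linarith)]
  calc |w - v| * x ≤ |w - v| * (R * n) := mul_le_mul_of_nonneg_left hRn (abs_nonneg _)
    _ = 2 * R * (|w - v| * (n / 2)) := by ring
    _ ≤ 2 * R * ((1 + Λ) * C) := mul_le_mul_of_nonneg_left e4 (by positivity)

lemma nu_leU (a b : ℤ) (ha : 0 < a) (R x1 x C N : ℕ) (Λ : ℝ) (hΛ : 0 ≤ Λ) (hbC : (b : ℝ) ^ 2 ≤ Λ * C) (hx1 : x ≤ R * x1) (hbx : R * b.natAbs ≤ x) (hC : 1 ≤ C)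
    (hx : 1 ≤ x) (δ : ℝ) (hδ : δ = 2 * R * (1 + Λ) * (C / x)) (hδ1 : δ ≤ 1 / 4) (hδ0 : 0 < δ) :
    (nu a b x1 x C N : ℝ) ≤ 2 * tri (2 * δ) (√((N : ℝ) / a) - b / (2 * a)) := by
  obtain ⟨u, hu⟩ : ∃ u : ℝ, u = √((N : ℝ) / a) - b / (2 * a) := ⟨_, rfl⟩
  rw [← hu]
  have hnear : ∀ n ∈ (Ioc x1 x).filter (fun n : ℕ => 0 < (N : ℤ) - fv a b 0 n ∧ (N : ℤ) - fv a b 0 n ≤ C),
      |(n : ℝ) - u| ≤ δ := by
    intro n hn
    rw [mem_filter, mem_Ioc] at hn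
    have := near_intU a b ha R x1 x C N n Λ hΛ hbC hx1 hbx hC hx hn.1.1 hn.2.1 hn.2.2
    rw [hu, hδ]
    exact this
  have hround : ∀ n : ℕ, |(n : ℝ) - u| ≤ δ → round u = (n : ℤ) := by
    intro n hn
    rw [round_eq]
    have h := abs_le.1 hn
    rw [Int.floor_eq_iff]
    push_cast
    constructor <;> linarith
  unfold nu
  rcases Finset.eq_empty_or_nonempty ((Ioc x1 x).filter
    (fun n : ℕ => 0 < (N : ℤ) - fv a b 0 n ∧ (N : ℤ) - fv a b 0 n ≤ C)) with he | ⟨n, hn⟩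
  · rw [he]
    have : 0 ≤ tri (2 * δ) u := le_max_left _ _
    simp only [Finset.card_empty, Nat.cast_zero]
    linarith
  · have h1 : #((Ioc x1 x).filter (fun n : ℕ => 0 < (N : ℤ) - fv a b 0 n ∧ (N : ℤ) - fv a b 0 n ≤ C)) ≤ 1 := by
      rw [Finset.card_le_one]
      intro i hi j hj
      have a1 := hround i (hnear i hi)
      have a2 := hround j (hnear j hj)
      rw [a1] at a2
      exact_mod_cast a2
    have h2 : (1 : ℝ) / 2 ≤ tri (2 * δ) u := by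
      unfold tri
      refine le_trans ?_ (le_max_right _ _)
      rw [hround n (hnear n hn)]
      have h3 := hnear n hn
      rw [abs_sub_comm] at h3
      push_cast
      have h4 : |u - n| / (2 * δ) ≤ 1 / 2 := by
        rw [div_le_iff₀ (by linarith)]
        linarith
      linarith
    have h3 : (#((Ioc x1 x).filter (fun n : ℕ => 0 < (N : ℤ) - fv a b 0 n ∧ (N : ℤ) - fv a b 0 n ≤ C)) : ℝ) ≤ 1 := by
      exact_mod_cast h1
    linarith

lemma nu_leU' (a b : ℤ) (ha : 0 < a) (R x1 x C N : ℕ) (Λ : ℝ) (hΛ : 0 ≤ Λ) (hbC : (b : ℝ) ^ 2 ≤ Λ * C) (hx1 : x ≤ R * x1) (hbx : R * b.natAbs ≤ x) (hC : 1 ≤ C)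
    (hx : 1 ≤ x) (δ : ℝ) (hδ : δ = 2 * R * (1 + Λ) * (C / x)) (hδ1 : 1 / 4 ≤ δ) :
    (nu a b x1 x C N : ℝ) ≤ 6 * δ := by
  obtain ⟨u, hu⟩ : ∃ u : ℝ, u = √((N : ℝ) / a) - b / (2 * a) := ⟨_, rfl⟩
  have hnear : ∀ n ∈ (Ioc x1 x).filter (fun n : ℕ => 0 < (N : ℤ) - fv a b 0 n ∧ (N : ℤ) - fv a b 0 n ≤ C),
      |(n : ℝ) - u| ≤ δ := by
    intro n hn
    rw [mem_filter, mem_Ioc] at hn
    have := near_intU a b ha R x1 x C N n Λ hΛ hbC hx1 hbx hC hx hn.1.1 hn.2.1 hn.2.2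
    rw [hu, hδ]
    exact this
  unfold nu
  have h1 : #((Ioc x1 x).filter (fun n : ℕ => 0 < (N : ℤ) - fv a b 0 n ∧ (N : ℤ) - fv a b 0 n ≤ C)) ≤
      #(Icc ⌈u - δ⌉ ⌊u + δ⌋) := by
    apply Finset.card_le_card_of_injOn (fun n : ℕ => (n : ℤ))
    · intro n hn
      have h := abs_le.1 (hnear n hn)
      simp only [Finset.coe_Icc, Set.mem_Icc]
      rw [Int.ceil_le, Int.le_floor]
      push_cast
      constructor <;> linarith
    · intro i _ j _ hij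
      simpa using hij
  have h2 : (#(Icc ⌈u - δ⌉ ⌊u + δ⌋) : ℝ) ≤ 2 * δ + 1 := by
    rw [Int.card_Icc]
    have h3 : (⌊u + δ⌋ : ℝ) ≤ u + δ := Int.floor_le _
    have h4 : u - δ ≤ (⌈u - δ⌉ : ℝ) := Int.le_ceil _
    rcases le_or_gt 0 (⌊u + δ⌋ + 1 - ⌈u - δ⌉) with h | h
    · have h5 : (((⌊u + δ⌋ + 1 - ⌈u - δ⌉).toNat : ℤ) : ℝ) = ((⌊u + δ⌋ + 1 - ⌈u - δ⌉ : ℤ) : ℝ) := by
        rw [Int.toNat_of_nonneg h]
      have h6 : (((⌊u + δ⌋ + 1 - ⌈u - δ⌉).toNat : ℕ) : ℝ) = (⌊u + δ⌋ : ℝ) + 1 - ⌈u - δ⌉ := by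
        rw [← Int.cast_natCast, h5]; push_cast; ring
      rw [h6]; linarith
    · rw [Int.toNat_of_nonpos h.le]
      simp only [Nat.cast_zero]
      linarith
  have h3 : (#((Ioc x1 x).filter (fun n : ℕ => 0 < (N : ℤ) - fv a b 0 n ∧ (N : ℤ) - fv a b 0 n ≤ C)) : ℝ) ≤
      (#(Icc ⌈u - δ⌉ ⌊u + δ⌋) : ℝ) := by exact_mod_cast h1
  linarith

theorem x3V (a : ℤ) (ha : 0 < a) (Λ : ℝ) (hΛ : 1 ≤ Λ) (R : ℕ) : X3V a Λ R := by
  unfold X3V
  obtain ⟨c1, hc1, HT⟩ := T_card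
  have har : (1 : ℝ) ≤ a := by exact_mod_cast ha
  obtain ⟨m, hm⟩ : ∃ m : ℕ, m = a.toNat + 1 := ⟨_, rfl⟩
  have hm1 : 1 ≤ m := by omega
  have hmr : (1 : ℝ) ≤ m := by exact_mod_cast hm1
  have hmz : (m : ℤ) = a + 1 := by
    rw [hm]; push_cast; rw [Int.toNat_of_nonneg ha.le]
  obtain ⟨C2, hC2, Htri⟩ := tri_block (a : ℝ) (m : ℝ) har hmr
  obtain ⟨c0, hc0⟩ : ∃ c0 : ℝ, c0 = 2 * R * (1 + Λ) := ⟨_, rfl⟩
  have hc00 : 0 ≤ c0 := by rw [hc0]; positivity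
  refine ⟨48 * c0 * c1 ^ 2 * m + 8 * R * c1 ^ 2 * m + 1, by positivity, ?_⟩
  intro η ε hη hη1 hε hε2
  have hε1 : ε ≤ 1 / 20 := by linarith
  have hev := (HT η ε hη hη1 hε hε1 m hm1).and ((Ix_card m hm1 ε hε hε1).and ((ev_pow (83 / 50) (17 / 10) (32 * C2) 3
    (by norm_num)).and ((ev_log 1).and ((ev_bn Λ hΛ 2).and
    ((ev_bn Λ hΛ (2 * R)).and (ev_pow 0 (19 / 20) 4 0 (by norm_num)))))))
  obtain ⟨x0, hx0⟩ := eventually_atTop.1 hev
  refine ⟨x0, ?_⟩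
  intro x hx b x1 C z y hbC hx1 hxR hC hCx hz hy
  have hbX : (b : ℝ) ^ 2 ≤ Λ * x := hbC.trans (mul_le_mul_of_nonneg_left (by exact_mod_cast hCx) (by linarith))
  obtain ⟨hT, hI, herr, hL1, hxb, hxRb, hx4⟩ := hx0 x hx
  have hxb := hxb b hbX
  have hxRb := hxRb b hbX
  have hxb : b.natAbs + 2 ≤ x := by omega
  have hxRb : 2 * R * b.natAbs ≤ x := by
    have : 2 * R * (b.natAbs + 1) = 2 * R * b.natAbs + 2 * R := by ring
    omega
  have hT := hT z y hz hy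
  have hI := hI y hy
  have hxr : (1 : ℝ) ≤ x := by exact_mod_cast (show 1 ≤ x by omega)
  have hxp : (0 : ℝ) < x := by linarith
  have hRx : (x : ℝ) ≤ R * x1 := by exact_mod_cast hxR
  have hR1 : 1 ≤ R := by
    by_contra h
    have : R = 0 := by omega
    rw [this, zero_mul] at hxR
    omega
  have hRr : (1 : ℝ) ≤ R := by exact_mod_cast hR1
  have hc01 : 1 ≤ c0 := by
    rw [hc0]
    exact aux1 _ _ hRr (by linarith)
  obtain ⟨L, hL⟩ : ∃ L : ℝ, L = Real.log x := ⟨_, rfl⟩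
  rw [← hL] at hT hI herr hL1 ⊢
  have hy2 : 2 ≤ y := by
    have h1 : (x : ℝ) ^ (19 / 20 : ℝ) ≤ (x : ℝ) ^ (1 - ε) := Real.rpow_le_rpow_of_exponent_le hxr (by linarith)
    have h2 : (4 : ℝ) ≤ y := by
      simp at hx4
      linarith
    have : 4 ≤ y := by exact_mod_cast h2
    omega
  have hC1 : 1 ≤ C := by
    have : (1 : ℝ) ≤ C := (Real.one_le_rpow hxr (by norm_num)).trans hC
    exact_mod_cast this
  have hCr : (1 : ℝ) ≤ C := by exact_mod_cast hC1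
  obtain ⟨M, hM⟩ : ∃ M : ℕ, M = m * x ^ 2 := ⟨_, rfl⟩
  rw [← hM] at hT hI
  have hM1 : 1 ≤ M := by
    rw [hM]
    exact Nat.mul_pos hm1 (pow_pos (by omega) 2)
  have hMr : (M : ℝ) = m * (x : ℝ) ^ 2 := by rw [hM]; push_cast; ring
  -- the values
  have hval : ∀ c : ℕ, c ≤ C → ∀ n : ℕ, n ≤ x → (fv a b c n).toNat ≤ M := by
    intro c hc n hn
    rw [Int.toNat_le, hM]
    unfold fv
    push_cast
    rw [hmz]
    have h1 : (n : ℤ) ≤ x := by exact_mod_cast hn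
    have h2 : (c : ℤ) ≤ x := by exact_mod_cast hc.trans hCx
    have h3 : (0 : ℤ) ≤ n := by positivity
    have h5 : |b| + 1 ≤ (x : ℤ) := by
      have : (b.natAbs : ℤ) + 2 ≤ x := by exact_mod_cast hxb
      rw [Int.natCast_natAbs] at this
      linarith
    exact aux2 a b n c x ha h1 h2 h3 h5
  -- the main sum
  have hmain : ∑ q ∈ Px y M, ((#(T z q.1) : ℝ) * #(T z q.2)) ≤ 8 * c1 ^ 2 * m * (ε / η ^ 2) * (x ^ 2 / L) := by
    have h1 : ∑ q ∈ Px y M, ((#(T z q.1) : ℝ) * #(T z q.2)) ≤ ∑ q ∈ Px y M, (c1 / (η * L)) ^ 2 * (2 : ℝ) ^ (q.1 + q.2) := by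
      refine Finset.sum_le_sum fun q hq => ?_
      unfold Px at hq
      rw [mem_filter, mem_product] at hq
      calc (#(T z q.1) : ℝ) * #(T z q.2) ≤ c1 * (2 ^ q.1 / (η * L)) * (c1 * (2 ^ q.2 / (η * L))) :=
            mul_le_mul (hT _ hq.1.1) (hT _ hq.1.2) (Nat.cast_nonneg _) (by positivity)
        _ = _ := by rw [pow_add]; ring
    refine h1.trans ?_
    rw [← Finset.mul_sum]
    have h2 := sum_pow_le y M hM1
    calc (c1 / (η * L)) ^ 2 * ∑ q ∈ Px y M, (2 : ℝ) ^ (q.1 + q.2) ≤ (c1 / (η * L)) ^ 2 * (4 * ε * L * (2 * M)) := by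
          apply mul_le_mul_of_nonneg_left _ (by positivity)
          exact h2.trans (mul_le_mul_of_nonneg_right hI (by positivity))
      _ = _ := by rw [hMr]; field_simp; ring
  have hEta : (1 : ℝ) ≤ 1 / η ^ 2 := aux3 η hη hη1
  constructor
  · refine (sum_le a b z y M x1 x C hy2 (fun c hc n hn => hval c (mem_Icc.1 hc).2 n (mem_Ioc.1 hn).2)).trans ?_
    obtain ⟨δ, hδ⟩ : ∃ δ : ℝ, δ = c0 * (C / x) := ⟨_, rfl⟩
    have hδ' : δ = 2 * R * (1 + Λ) * (C / x) := by rw [hδ, hc0]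
    have hδ0 : 0 < δ := by rw [hδ]; positivity
    have hbx : R * b.natAbs ≤ x := by
      have : 2 * R * b.natAbs = 2 * (R * b.natAbs) := by ring
      omega
    have hδx : (x : ℝ) ^ (-(3 / 10) : ℝ) ≤ 2 * δ := by
      have h1 : (x : ℝ) ^ (-(3 / 10) : ℝ) = (x : ℝ) ^ (7 / 10 : ℝ) / x := by
        rw [eq_div_iff (by linarith), ← Real.rpow_add_one hxp.ne']
        norm_num
      rw [h1, hδ]
      have h2 : (x : ℝ) ^ (7 / 10 : ℝ) / x ≤ C / x := by gcongr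
      have h3 : 0 ≤ (C : ℝ) / x := by positivity
      exact aux4 _ _ _ h3 h2 hc01
    have hsq : (x : ℝ) ^ (-(3 / 20) : ℝ) ≤ √(2 * δ) := by
      apply Real.le_sqrt_of_sq_le
      rw [← Real.rpow_natCast, ← Real.rpow_mul hxp.le]
      norm_num
      norm_num at hδx
      exact hδx
    have hE : C2 * (x : ℝ) ^ (3 / 2 + ε) / √(2 * δ) ≤ C2 * (x : ℝ) ^ (83 / 50 : ℝ) := by
      have h1 : (0 : ℝ) < (x : ℝ) ^ (-(3 / 20) : ℝ) := Real.rpow_pos_of_pos hxp _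
      rw [div_le_iff₀ (h1.trans_le hsq)]
      have h2 : (x : ℝ) ^ (3 / 2 + ε) ≤ (x : ℝ) ^ (83 / 50 : ℝ) * (x : ℝ) ^ (-(3 / 20) : ℝ) := by
        rw [← Real.rpow_add hxp]
        exact Real.rpow_le_rpow_of_exponent_le hxr (by norm_num; linarith)
      calc C2 * (x : ℝ) ^ (3 / 2 + ε) ≤ C2 * ((x : ℝ) ^ (83 / 50 : ℝ) * (x : ℝ) ^ (-(3 / 20) : ℝ)) :=
            mul_le_mul_of_nonneg_left h2 hC2.le
        _ ≤ C2 * ((x : ℝ) ^ (83 / 50 : ℝ) * √(2 * δ)) :=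
            mul_le_mul_of_nonneg_left (mul_le_mul_of_nonneg_left hsq (by positivity)) hC2.le
        _ = _ := by ring
    have hblock : ∀ q ∈ Px y M, ∑ r ∈ T z q.1, ∑ s ∈ T z q.2, (nu a b x1 x C (r * s) : ℝ) ≤
        6 * δ * ((#(T z q.1) : ℝ) * #(T z q.2)) + 2 * (C2 * (x : ℝ) ^ (83 / 50 : ℝ)) := by
      intro q hq
      have hTT : 0 ≤ (#(T z q.1) : ℝ) * #(T z q.2) := by positivity
      rcases le_or_gt δ (1 / 4) with hd | hd
      · have h1 : ∑ r ∈ T z q.1, ∑ s ∈ T z q.2, (nu a b x1 x C (r * s) : ℝ) ≤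
            2 * ∑ r ∈ T z q.1, ∑ s ∈ T z q.2, tri (2 * δ) (√(((r * s : ℕ) : ℝ) / a) - b / (2 * a)) := by
          rw [Finset.mul_sum]
          refine Finset.sum_le_sum fun r _ => ?_
          rw [Finset.mul_sum]
          exact Finset.sum_le_sum fun s _ => nu_leU a b ha R x1 x C (r * s) Λ (by linarith) hbC hxR hbx hC1 (by omega) δ hδ' hd hδ0
        unfold Px at hq
        rw [mem_filter, mem_product] at hq
        rw [hM] at hq
        have b1 := Ix_bd m x y q.1 ε hm1 (by omega) hε.le hy hq.1.1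
        have b2 := Ix_bd m x y q.2 ε hm1 (by omega) hε.le hy hq.1.2
        have b3 : ((2 ^ (q.1 + q.2) : ℕ) : ℝ) ≤ ((m * x ^ 2 : ℕ) : ℝ) := by exact_mod_cast hq.2
        rw [pow_add] at b3
        push_cast at b3
        have h2 := Htri ε hε.le x (2 ^ q.1) (2 ^ q.2) (by omega) Nat.one_le_two_pow Nat.one_le_two_pow
          (by push_cast; exact b3) (by push_cast; exact b1.1) (by push_cast; exact b2.1) (by push_cast; exact b2.2)
          (T z q.1) (T_sub z q.1) (T z q.2) (T_sub z q.2)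
          (b / (2 * a)) (2 * δ) (by linarith) (by linarith)
        exact aux6 _ _ _ _ _ _ _ _ h1 h2 hE (mul_nonneg hδ0.le hTT) rfl
      · have h1 : ∑ r ∈ T z q.1, ∑ s ∈ T z q.2, (nu a b x1 x C (r * s) : ℝ) ≤
            ∑ r ∈ T z q.1, ∑ s ∈ T z q.2, 6 * δ :=
          Finset.sum_le_sum fun r _ => Finset.sum_le_sum fun s _ =>
            nu_leU' a b ha R x1 x C (r * s) Λ (by linarith) hbC hxR hbx hC1 (by omega) δ hδ' hd.le
        simp only [Finset.sum_const, nsmul_eq_mul] at h1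
        have h2 : 0 ≤ 2 * (C2 * (x : ℝ) ^ (83 / 50 : ℝ)) := by positivity
        linarith
    refine (Finset.sum_le_sum hblock).trans ?_
    rw [Finset.sum_add_distrib, ← Finset.mul_sum, Finset.sum_const, nsmul_eq_mul]
    have hP : (#(Px y M) : ℝ) ≤ (4 * ε * L) ^ 2 := by
      have h1 : #(Px y M) ≤ #(Ix y M) * #(Ix y M) := by
        unfold Px
        exact (Finset.card_filter_le _ _).trans (by rw [Finset.card_product])
      have h2 : (#(Px y M) : ℝ) ≤ #(Ix y M) * #(Ix y M) := by exact_mod_cast h1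
      have h3 : (0 : ℝ) ≤ #(Ix y M) := Nat.cast_nonneg _
      rw [pow_two]
      exact h2.trans (mul_le_mul hI hI h3 (h3.trans hI))
    have hsec : (#(Px y M) : ℝ) * (2 * (C2 * (x : ℝ) ^ (83 / 50 : ℝ))) ≤ (ε / η ^ 2) * (C * x / L) := by
      calc (#(Px y M) : ℝ) * (2 * (C2 * (x : ℝ) ^ (83 / 50 : ℝ))) ≤ (4 * ε * L) ^ 2 * (2 * (C2 * (x : ℝ) ^ (83 / 50 : ℝ))) :=
            mul_le_mul_of_nonneg_right hP (by positivity)
        _ = ε ^ 2 * (32 * C2 * (x : ℝ) ^ (83 / 50 : ℝ) * L ^ 3) / L := by field_simp; ring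
        _ ≤ ε ^ 2 * (x : ℝ) ^ (17 / 10 : ℝ) / L := by
            apply div_le_div_of_nonneg_right _ (by linarith)
            exact mul_le_mul_of_nonneg_left herr (by positivity)
        _ ≤ ε ^ 2 * (C * x) / L := by
            apply div_le_div_of_nonneg_right _ (by linarith)
            apply mul_le_mul_of_nonneg_left _ (by positivity)
            have : (x : ℝ) ^ (17 / 10 : ℝ) = (x : ℝ) ^ (7 / 10 : ℝ) * x := by
              rw [← Real.rpow_add_one hxp.ne']; norm_num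
            rw [this]
            exact mul_le_mul_of_nonneg_right hC hxp.le
        _ = ε ^ 2 * (C * x / L) := by ring
        _ ≤ (ε / η ^ 2) * (C * x / L) := by
            apply mul_le_mul_of_nonneg_right _ (by positivity)
            rw [div_eq_mul_one_div ε]
            exact aux5 _ _ hε hε1 hEta
    have hfst : 6 * δ * ∑ q ∈ Px y M, ((#(T z q.1) : ℝ) * #(T z q.2)) ≤
        48 * c0 * c1 ^ 2 * m * (ε / η ^ 2) * (C * x / L) := by
      calc 6 * δ * ∑ q ∈ Px y M, ((#(T z q.1) : ℝ) * #(T z q.2)) ≤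
            6 * δ * (8 * c1 ^ 2 * m * (ε / η ^ 2) * (x ^ 2 / L)) := mul_le_mul_of_nonneg_left hmain (by positivity)
        _ = _ := by rw [hδ]; field_simp; ring
    have hpos : 0 ≤ 8 * R * c1 ^ 2 * m * (ε / η ^ 2) * (C * x / L) := by positivity
    calc _ ≤ 48 * c0 * c1 ^ 2 * m * (ε / η ^ 2) * (C * x / L) + (ε / η ^ 2) * (C * x / L) := add_le_add hfst hsec
      _ ≤ _ := by linarith
  · -- the second part
    have hx1r : (0 : ℝ) < x1 := by
      rcases Nat.eq_zero_or_pos x1 with h | h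
      · rw [h] at hxR; omega
      · exact_mod_cast h
    have hw : ∀ N ∈ Ioc (Fn a b x1) (Fn a b x), hw a N ≤ R / x := by
      intro N hN
      rw [mem_Ioc] at hN
      have h1 : (fv a b 0 x1 : ℤ) ≤ N := by
        have := Int.self_le_toNat (fv a b 0 x1)
        have h2 : ((fv a b 0 x1).toNat : ℤ) < N := by
          have := hN.1
          unfold Fn at this
          exact_mod_cast this
        linarith
      have h2 : (a : ℝ) * x1 ^ 2 + b * x1 ≤ N := by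
        have : ((fv a b 0 x1 : ℤ) : ℝ) ≤ ((N : ℤ) : ℝ) := by exact_mod_cast h1
        unfold fv at this
        push_cast at this
        linarith
      have h3 : 2 * |(b : ℝ)| ≤ x1 := by
        have : ((2 * R * b.natAbs : ℕ) : ℝ) ≤ x := by exact_mod_cast hxRb
        push_cast at this
        rw [Nat.cast_natAbs, Int.cast_abs] at this
        have h4 : (R : ℝ) * (2 * |(b : ℝ)|) ≤ R * x1 := by linarith
        exact le_of_mul_le_mul_left h4 (by linarith)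
      have h4 : (x1 : ℝ) ^ 2 / 2 ≤ N := aux7 _ _ _ _ hx1r har h2 h3
      have h5 : (x1 : ℝ) / 2 ≤ √((a : ℝ) * N) := Real.le_sqrt_of_sq_le (aux8 _ _ _ har h4)
      have h6 : (R : ℝ) * x1 ≤ R * (2 * √((a : ℝ) * N)) := mul_le_mul_of_nonneg_left (by linarith) (by linarith)
      unfold Pool.Agent.N792.hw
      rw [div_le_div_iff₀ (by linarith) hxp]
      linarith
    have hLs : Ls a b x1 x (gp z y) ≤ (R / x) * ∑ N ∈ Ioc (Fn a b x1) (Fn a b x), gp z y N := by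
      unfold Ls
      rw [Finset.mul_sum]
      refine Finset.sum_le_sum fun N hN => ?_
      rw [mul_comm]
      apply mul_le_mul_of_nonneg_right (hw N hN)
      unfold gp rg
      split_ifs <;> simp
    have hsum := sum_le' z y M (Fn a b x1) (Fn a b x) hy2 (by
      have := hval 0 (by omega) x le_rfl
      unfold Fn
      simpa using this)
    calc Ls a b x1 x (gp z y) ≤ (R / x) * ∑ N ∈ Ioc (Fn a b x1) (Fn a b x), gp z y N := hLs
      _ ≤ (R / x) * (8 * c1 ^ 2 * m * (ε / η ^ 2) * (x ^ 2 / L)) :=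
          mul_le_mul_of_nonneg_left (hsum.trans hmain) (by positivity)
      _ = 8 * R * c1 ^ 2 * m * (ε / η ^ 2) * (x / L) := by field_simp
      _ ≤ _ := by
          have h1 : 0 ≤ 48 * c0 * c1 ^ 2 * m * (ε / η ^ 2) * (x / L) := by positivity
          have h2 : 0 ≤ (ε / η ^ 2) * (x / L) := by positivity
          linarith

end Pool.Agent.N791.U
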