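import Mathlib
import Pool.Agent.N792.RLm2
import Pool.Agent.N791.U.T23
import Pool.Agent.N791.U.X3V

/-!
The primes minus twice the products of three primes, on average over `c`, uniformly in `b` (helper791, after helper792).
-/

set_option autoImplicit false

namespace Pool.Agent.N791.U

open Finset Filter Topology Pool.Agent.N792
open ArithmeticFunction (moebius)

/-- the formula for the primes minus twice the products of three primes, uniformly in `b` -/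
def L9SU (a : ℤ) (Λ : ℝ) : Prop := ∃ As : ℕ, ∀ E R : ℕ, ∀ ε κ K1 δ : ℝ, 0 < ε → 0 < κ → 1 ≤ K1 → 0 < δ →
    ∃ η1 : ℝ, 0 < η1 ∧ η1 ≤ 1 / 20 ∧ ∃ x0 : ℕ, ∀ x : ℕ, x0 ≤ x → ∃ Q V : ℕ, (x : ℝ) ^ (2 / 5 : ℝ) ≤ Q ∧
    (V : ℝ) ≤ (x : ℝ) ^ (4 / 5 + δ) ∧
    ∀ b : ℤ, ∀ x1 C J Jw : ℕ, (b : ℝ) ^ 2 ≤ Λ * C → x1 < x → x ≤ R * x1 → (x : ℝ) ^ (7 / 10 + ε) ≤ C → C ≤ x →
    (x : ℝ) ^ (η1 / 2) ≤ ((2 ^ 2 ^ J : ℕ) : ℝ) → ((2 ^ 2 ^ J : ℕ) : ℝ) ≤ (x : ℝ) ^ η1 →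
    Real.log x ^ As ≤ ((2 ^ 2 ^ Jw : ℕ) : ℝ) → ((2 ^ 2 ^ Jw : ℕ) : ℝ) ≤ Real.log x ^ E →
    ∀ Gd ⊆ Icc 1 C, (∀ c ∈ Gd, |Vc a b c (2 ^ 2 ^ J) * V1 (2 ^ 2 ^ Jw) - Vc a b c (2 ^ 2 ^ Jw) * V1 (2 ^ 2 ^ J)| ≤
      Vc a b c (2 ^ 2 ^ Jw) * V1 (2 ^ 2 ^ J) / Real.log x ^ 3) → (∀ c ∈ Gd, Vc a b c (2 ^ 2 ^ Jw) / V1 (2 ^ 2 ^ Jw) ≤ K1) →
    ∑ c ∈ Gd, |Phi a b x1 x c (2 ^ 2 ^ Jw) (G9 Q V)| ≤ κ * (C * x / Real.log x)

/-- **the formula for the primes minus twice the products of three primes** -/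
theorem lam9U (hq1 : Q1) (hq4 : Q4) (a : ℤ) (ha : 0 < a) (Λ : ℝ) (hΛ : 1 ≤ Λ) (hR1 : R1U a Λ) (hR2 : R2U a)
    (hMT : MTU a Λ) (hX1 : X1) (hX2 : X2U a Λ)
    (hX3 : ∀ R, X3V a Λ R) (hX5 : X5) (hX6 : X6U a Λ) (hX7 : X7U a Λ) : L9SU a Λ := by
  classical
  obtain ⟨As, h2⟩ := type_two3U hq1 hq4 a ha Λ hΛ hR1 hR2 hMT 2
  refine ⟨As, fun E R ε κ K1 δ hε hκ hK1 hδ => ?_⟩
  obtain ⟨C4, η0, hC4, hη0, hTI⟩ := hX2 R K1 hK1
  obtain ⟨C3, hC3, hgap⟩ := hX3 R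
  obtain ⟨C2, η2, hC2, hη2, hsame⟩ := hX6 R K1 hK1
  obtain ⟨c0, A, hc0, hA, X0, hX0⟩ := range_bdU a ha Λ hΛ R
  obtain ⟨η1, hη1, hη10, hη120, hη1C⟩ := Lam.choose_eta C4 (min η0 η2) κ hC4 (lt_min hη0 hη2) hκ
  obtain ⟨D, hD⟩ : ∃ D : ℝ, D = (2 : ℝ) ^ (3 / (η1 / 2)) := ⟨_, rfl⟩
  have hDpos : 0 < D := by rw [hD]; positivity
  obtain ⟨M0, hM0⟩ : ∃ M0 : ℝ, M0 = 12 * D ^ 2 := ⟨_, rfl⟩
  have hM0p : 0 < M0 := by rw [hM0]; positivity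
  have hK1p : 0 < 1 + K1 := by linarith
  obtain ⟨ε2, hε2, hε21, hε22⟩ : ∃ ε2 : ℝ, 0 < ε2 ∧ ε2 ≤ 1 / 200 ∧
      M0 * (1 + K1) * (C3 * (2 * ε2 / (η1 / 2) ^ 2)) ≤ κ / 8 := by
    refine ⟨min (1 / 200) (κ * (η1 / 2) ^ 2 / (16 * M0 * (1 + K1) * C3)), by positivity, min_le_left _ _, ?_⟩
    have h3 : min (1 / 200) (κ * (η1 / 2) ^ 2 / (16 * M0 * (1 + K1) * C3)) ≤
      κ * (η1 / 2) ^ 2 / (16 * M0 * (1 + K1) * C3) := min_le_right _ _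
    calc M0 * (1 + K1) * (C3 * (2 * min (1 / 200) (κ * (η1 / 2) ^ 2 / (16 * M0 * (1 + K1) * C3)) / (η1 / 2) ^ 2))
        ≤ M0 * (1 + K1) * (C3 * (2 * (κ * (η1 / 2) ^ 2 / (16 * M0 * (1 + K1) * C3)) / (η1 / 2) ^ 2)) := by gcongr
      _ = κ / 8 := by field_simp; norm_num
  obtain ⟨κ0, hκ0, hκ01, hκ02⟩ : ∃ κ0 : ℝ, 0 < κ0 ∧ κ0 ≤ 1 ∧ M0 * (1 + K1) * (C2 * (κ0 / η1 ^ 2)) ≤ κ / 8 := by
    refine ⟨min 1 (κ * η1 ^ 2 / (8 * M0 * (1 + K1) * C2)), by positivity, min_le_left _ _, ?_⟩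
    have h3 : min 1 (κ * η1 ^ 2 / (8 * M0 * (1 + K1) * C2)) ≤ κ * η1 ^ 2 / (8 * M0 * (1 + K1) * C2) := min_le_right _ _
    calc M0 * (1 + K1) * (C2 * (min 1 (κ * η1 ^ 2 / (8 * M0 * (1 + K1) * C2)) / η1 ^ 2))
        ≤ M0 * (1 + K1) * (C2 * ((κ * η1 ^ 2 / (8 * M0 * (1 + K1) * C2)) / η1 ^ 2)) := by gcongr
      _ = κ / 8 := by field_simp
  obtain ⟨e, he, he1, he2, he3⟩ : ∃ e : ℝ, 0 < e ∧ e ≤ 1 / 100 ∧ e ≤ ε / 2 ∧ 2 * e ≤ δ :=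
    ⟨min (1 / 100) (min (ε / 2) (δ / 2)), by positivity, min_le_left _ _, (min_le_right _ _).trans (min_le_left _ _), by
      have : min (1 / 100 : ℝ) (min (ε / 2) (δ / 2)) ≤ δ / 2 := (min_le_right _ _).trans (min_le_right _ _)
      linarith⟩
  obtain ⟨ε', hε', hε'1, hε'2⟩ : ∃ ε' : ℝ, 0 < ε' ∧ ε' ≤ ε2 ∧ ε' ≤ ε / 2 :=
    ⟨min ε2 (ε / 2), by positivity, min_le_left _ _, min_le_right _ _⟩
  obtain ⟨E', hE'⟩ : ∃ E' : ℕ, E' = max E (As + 6) := ⟨_, rfl⟩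
  obtain ⟨K, hzs⟩ := Par.exists_zs (η1 / 2) κ0 (by positivity) hκ0 hκ01
  obtain ⟨xTI, hTI⟩ := hTI η1 hη1 (hη10.trans (min_le_left _ _)) E'
  obtain ⟨xTII, hTII⟩ := h2 E' R (η1 / 2) ε' (by positivity) hε' (by linarith)
  obtain ⟨xg, hgap⟩ := hgap (η1 / 2) (2 * ε2) (by positivity) (by linarith) (by positivity) (by linarith)
  obtain ⟨xs, hsame⟩ := hsame η1 κ0 hη1 (hη10.trans (min_le_right _ _)) hκ0 hκ01 E'
  obtain ⟨xq, hsqd⟩ := hX7 R (η1 / 2) (by positivity)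
  obtain ⟨xh, hEq⟩ := hX1 (η1 / 2) (by positivity) As E'
  have hev := (Par.params9 e ε2 c0 A he he1 hε2 (by linarith) hc0 hA).and (hzs.and
    ((Shp.log_ge (4 * (2 * K + 6 + M0 * (1 + K1)) / κ)).and ((Shp.log_ge 2).and (eventually_ge_atTop ⌈A⌉₊))))
  obtain ⟨xe, hxe⟩ := eventually_atTop.1 hev
  refine ⟨η1, hη1, hη120, max (max (max xTI xTII) (max xg xs)) (max (max xq xh) (max (max xe X0) 2)), ?_⟩
  intro x hx
  obtain ⟨⟨U, y, Q, V, hU1, hQU, hUV, hVy, hyhi, hylo, hUlo, hUhi, hQlo, hQhi, hVhi, hQQ, hyy, hQ5, hUQQ, hUQ3, hUUQ,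
    hVVQ⟩, hzs, hLa, hLb, hAx⟩ := hxe x (by omega)
  have hx2 : 2 ≤ x := by omega
  have hxr : (1 : ℝ) ≤ x := by exact_mod_cast (by omega : 1 ≤ x)
  have hxp : (0 : ℝ) < x := by linarith
  refine ⟨Q, V, hQlo, hVhi.trans (Real.rpow_le_rpow_of_exponent_le hxr (by linarith)), ?_⟩
  intro b x1 C J Jw hbC hx1 hxR hC hCx hz1 hz2 hw1 hw2 Gd hGd hGd2 hGd3
  have hbX : (b : ℝ) ^ 2 ≤ Λ * x := hbC.trans (mul_le_mul_of_nonneg_left (by exact_mod_cast hCx) (by linarith))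
  obtain ⟨hbx2, hr1, hr2⟩ := hX0 x (by omega) b hbX x1 hx1 hxR
  have hbx : b.natAbs ≤ x1 := by omega
  have hAx' : A ≤ x := (Nat.le_ceil A).trans (by exact_mod_cast hAx)
  have hC7 : (x : ℝ) ^ (7 / 10 : ℝ) ≤ C := (Real.rpow_le_rpow_of_exponent_le hxr (by linarith)).trans hC
  have hC6 : (x : ℝ) ^ (3 / 5 : ℝ) ≤ C := (Real.rpow_le_rpow_of_exponent_le hxr (by norm_num)).trans hC7
  obtain ⟨L, hL⟩ : ∃ L : ℝ, L = Real.log x := ⟨_, rfl⟩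
  rw [← hL] at hLa hLb
  have hLp : 0 < L := by linarith
  have hL1 : 1 ≤ L := by linarith
  obtain ⟨z, hzdef⟩ : ∃ z : ℕ, z = 2 ^ 2 ^ J := ⟨_, rfl⟩
  obtain ⟨w, hwdef⟩ : ∃ w : ℕ, w = 2 ^ 2 ^ Jw := ⟨_, rfl⟩
  have hzx : z ≤ x := by
    have : (z : ℝ) ≤ (x : ℝ) ^ (1 : ℝ) := by
      rw [hzdef]
      exact hz2.trans (Real.rpow_le_rpow_of_exponent_le hxr (by linarith))
    rw [Real.rpow_one] at this
    exact_mod_cast this
  have hzQ : z ≤ Q := by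
    have : (z : ℝ) ≤ Q := by
      rw [hzdef]
      exact (hz2.trans (Real.rpow_le_rpow_of_exponent_le hxr (by linarith))).trans hQlo
    exact_mod_cast this
  have hQx : Q ≤ x := by
    have : (Q : ℝ) ≤ (x : ℝ) ^ (1 : ℝ) := hQhi.trans (Real.rpow_le_rpow_of_exponent_le hxr (by norm_num))
    rw [Real.rpow_one] at this
    exact_mod_cast this
  have hyx : y ≤ x := by
    have : (y : ℝ) ≤ (x : ℝ) ^ (1 : ℝ) := hyhi.trans (Real.rpow_le_rpow_of_exponent_le hxr (by linarith))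
    rw [Real.rpow_one] at this
    exact_mod_cast this
  have hz1' : 1 ≤ z := by rw [hzdef]; exact Nat.one_le_two_pow
  obtain ⟨zs, hzs0, hzsK, hzsm, hzsl⟩ := hzs z Q (by rw [hzdef]; exact hz1) hzQ hQx
  obtain ⟨ts, hts1, hts2⟩ := exists_pow_two (Y := L ^ (As + 5)) (one_le_pow₀ hL1)
  have hwE : ((2 ^ 2 ^ Jw : ℕ) : ℝ) ≤ Real.log x ^ E' := by
    refine hw2.trans ?_
    rw [← hL]
    exact pow_le_pow_right₀ hL1 (by omega)
  have htsE : (2 : ℝ) ^ ts ≤ L ^ E' := by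
    calc (2 : ℝ) ^ ts ≤ 2 * L ^ (As + 5) := hts2
      _ ≤ L * L ^ (As + 5) := mul_le_mul_of_nonneg_right hLb (by positivity)
      _ = L ^ (As + 6) := by ring
      _ ≤ L ^ E' := pow_le_pow_right₀ hL1 (by omega)
  have hCU : (x : ℝ) ^ (3 / 2 + ε') ≤ C * U := by
    calc (x : ℝ) ^ (3 / 2 + ε') ≤ (x : ℝ) ^ ((7 / 10 + ε) + (4 / 5 - e)) :=
          Real.rpow_le_rpow_of_exponent_le hxr (by linarith)
      _ = (x : ℝ) ^ (7 / 10 + ε) * (x : ℝ) ^ (4 / 5 - e) := Real.rpow_add hxp _ _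
      _ ≤ C * U := mul_le_mul hC hUlo (by positivity) (Nat.cast_nonneg _)
  have hyhi' : (y : ℝ) ≤ (x : ℝ) ^ (1 - ε') := hyhi.trans (Real.rpow_le_rpow_of_exponent_le hxr (by linarith))
  -- the equidistribution
  have hEq : ∀ z1 z2 : ℕ, EqD x z ts w As pi0 ∧ EqD x z ts w As (pi2 Q) ∧ EqD x z ts w As (rg z2) ∧
      EqD x z ts w As (alf z1 z2 U) := by
    intro z1 z2
    rw [hwdef]
    exact hEq x (by omega) z z1 z2 Q U Jw ts (by rw [hzdef]; exact hz1) hzx hw1 hwE (by rw [← hL]; exact hts1)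
      (by rw [← hL]; exact htsE)
  -- type II
  have hT2 : ∀ (W : ℕ) (f g : ℕ → ℝ), U ≤ W → W ≤ y → EqD x z ts w As f → EqD x z ts w As g →
      ∑ c ∈ Gd, |Phi a b x1 x c w (T2 z W y f g)| ≤ C * x / L ^ 2 := by
    intro W f g hUW hWy hf hg
    have hCW : (x : ℝ) ^ (3 / 2 + ε') ≤ C * W := by
      refine hCU.trans (mul_le_mul_of_nonneg_left ?_ (Nat.cast_nonneg _))
      exact_mod_cast hUW
    have := hTII x (by omega) b x1 C z W y Jw ts hbC hx1 hxR hCW hCx (by rw [hzdef]; exact hz1) hzx hWy hyhi' hwE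
      (by rw [← hL]; exact hts1) (by rw [← hL]; exact htsE) f g (by
        intro m hm hrm
        rw [mem_Ioc] at hm
        apply hf.1 m _ hrm
        calc m ≤ x := by omega
          _ ≤ x ^ 3 := Nat.le_self_pow (by norm_num) x) (by rw [← hwdef]; exact hg)
    rw [← hwdef, ← hL] at this
    refine le_trans ?_ this
    apply sum_le_sum_of_subset_of_nonneg hGd
    intro c _ _
    exact abs_nonneg _
  -- type I
  have hT1 : 4 * L * ∑ c ∈ Gd, |Phi a b x1 x c w (T1 z U (fun d => (moebius d : ℝ)))| ≤ κ * (C * x) := by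
    have hg4 : ∀ j : ℕ, |(4 * L) * (moebius j : ℝ)| ≤ 4 * Real.log x := by
      intro j
      rw [abs_mul, abs_of_nonneg (by linarith : 0 ≤ 4 * L), hL]
      have : |(moebius j : ℝ)| ≤ 1 := by
        have := ArithmeticFunction.abs_moebius_le_one (n := j)
        exact_mod_cast this
      have h0 : 0 ≤ 4 * Real.log x := by rw [← hL]; linarith
      calc 4 * Real.log x * |(moebius j : ℝ)| ≤ 4 * Real.log x * 1 := mul_le_mul_of_nonneg_left this h0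
        _ = 4 * Real.log x := mul_one _
    have := hTI x (by omega) b hbX x1 C J Jw U hx1 hxR hC6 hCx hz1 hz2 hwE hUhi Gd hGd hGd2 hGd3
      (fun d => (4 * L) * (moebius d : ℝ)) (fun j _ => hg4 j) (by
        intro j _ hj
        by_contra hns
        apply hj
        rw [ArithmeticFunction.moebius_eq_zero_of_not_squarefree hns]
        simp)
    rw [← hzdef, ← hwdef] at this
    have e1 : ∀ c ∈ Gd, |Lc a b x1 x c (T1 z U (fun d => (4 * L) * (moebius d : ℝ))) -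
        Vc a b c w / V1 w * Ls a b x1 x (T1 z U (fun d => (4 * L) * (moebius d : ℝ)))| =
        4 * L * |Phi a b x1 x c w (T1 z U (fun d => (moebius d : ℝ)))| := by
      intro c _
      rw [L9.T1_smul]
      have := L9.Phi_smul a b x1 x c w (4 * L) (T1 z U (fun d => (moebius d : ℝ)))
      unfold Phi at this ⊢
      rw [this, abs_mul, abs_of_nonneg (by linarith : 0 ≤ 4 * L)]
    rw [sum_congr rfl e1, ← mul_sum] at this
    refine this.trans ?_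
    exact mul_le_mul_of_nonneg_right hη1C (by positivity)
  -- the pointwise bound
  have hpt : ∀ N : ℕ, Fn a b x1 < N → N ≤ Fn a b x + x → |HL9 z U y Q V K zs N - G9 Q V N| ≤ M0 * Bad z y Q K zs N := by
    intro N hN1 hN2
    have b1' : c0 * (x : ℝ) ^ 2 < N := lt_of_le_of_lt hr1 (by exact_mod_cast hN1)
    have b2 : (N : ℝ) ≤ A * (x : ℝ) ^ 2 := by
      have : (N : ℝ) ≤ ((Fn a b x : ℕ) : ℝ) + x := by exact_mod_cast hN2
      linarith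
    obtain ⟨l1, l2, l3⟩ := Lam.log_bd hc0 hA (by omega) b1'.le b2 hAx'
    rw [hM0]
    refine Pt.pt hX5 z U y Q V K N zs D hz1' hU1 hQU hUV hVy hzs0 hzsK hzsm ?_ ?_ hUQQ ?_ ?_ ?_ ?_
    · have : ((y * y : ℕ) : ℝ) < N := lt_of_le_of_lt hyy b1'
      exact_mod_cast this
    · have : (N : ℝ) < ((Q ^ 5 : ℕ) : ℝ) := lt_of_le_of_lt b2 hQ5
      exact_mod_cast this
    · have : (N : ℝ) ≤ ((U * Q ^ 3 : ℕ) : ℝ) := b2.trans hUQ3
      exact_mod_cast this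
    · have : ((U * U * Q : ℕ) : ℝ) < N := lt_of_le_of_lt hUUQ b1'
      exact_mod_cast this
    · have : (N : ℝ) ≤ ((V * V * Q : ℕ) : ℝ) := b2.trans hVVQ
      exact_mod_cast this
    · intro hr
      rw [hD]
      exact Lam.div_bound (by positivity) hx2 (by rw [hzdef]; exact hz1) l3 hr
  have hfv : ∀ c ∈ Icc 1 C, ∀ n ∈ Ioc x1 x, Fn a b x1 < (fv a b (c : ℕ) n).toNat ∧
      (fv a b (c : ℕ) n).toNat ≤ Fn a b x + x := by
    intro c hc n hn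
    rw [mem_Icc] at hc
    rw [mem_Ioc] at hn
    rw [Mtm.fv_eq ha (by omega), Int.toNat_natCast]
    have f1 : Fn a b x1 ≤ Fn a b n := Mtm.Fn_mono ha hbx hn.1.le
    have f2 : Fn a b n ≤ Fn a b x := Mtm.Fn_mono ha (by omega) hn.2
    omega
  -- the bad numbers
  obtain ⟨g1, g2⟩ := hgap x (by omega) b x1 C z y hbC hx1 hxR hC7 hCx (by rw [hzdef]; exact hz1) hylo
  obtain ⟨q1, q2⟩ := hsqd x (by omega) b hbX x1 C z hx1 hxR hC6 hCx (by rw [hzdef]; exact hz1)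
  obtain ⟨s1, s2⟩ := hsame x (by omega) b hbX x1 C J Jw K Q (Q * Q) zs hx1 hxR hC6 hCx hz1 hz2 hwE hQhi hQQ
    (by rw [hzs0, hzdef]) hzsK hzsm hzsl
  have s2 := s2 Gd hGd hGd2 hGd3
  rw [← hzdef] at s1 s2
  rw [← hL] at g1 g2 q1 q2 s1 s2
  have hgpn : ∀ c, 0 ≤ Lc a b x1 x c (gp z y) := fun c => L9.Lc_nonneg _ _ _ _ _ _ (Lam.gp_nonneg z y)
  have hsqn : ∀ c, 0 ≤ Lc a b x1 x c (sqd z) := fun c => L9.Lc_nonneg _ _ _ _ _ _ (Pt.sqd_nonneg z)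
  have hbc : ∑ c ∈ Gd, Lc a b x1 x c (Bad z y Q K zs) ≤ C3 * (2 * ε2 / (η1 / 2) ^ 2) * ((C * x) / L) + (C * x) / L ^ 2 +
      C2 * (κ0 / η1 ^ 2) * ((C * x) / L) := by
    simp only [L9.Lc_Bad, sum_add_distrib]
    have i1 : ∑ c ∈ Gd, Lc a b x1 x c (gp z y) ≤ ∑ c ∈ Icc 1 C, Lc a b x1 x c (gp z y) :=
      sum_le_sum_of_subset_of_nonneg hGd fun c _ _ => hgpn c
    have i2 : ∑ c ∈ Gd, Lc a b x1 x c (sqd z) ≤ ∑ c ∈ Icc 1 C, Lc a b x1 x c (sqd z) :=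
      sum_le_sum_of_subset_of_nonneg hGd fun c _ _ => hsqn c
    linarith
  have hLsB0 : 0 ≤ Ls a b x1 x (Bad z y Q K zs) := L9.Ls_nonneg _ _ _ _ _ (Pt.Bad_nonneg z y Q K zs)
  have hGdc : (#Gd : ℝ) ≤ C := by
    have := card_le_card hGd
    rw [Nat.card_Icc] at this
    exact_mod_cast (by omega : #Gd ≤ C)
  have hbs : (C : ℝ) * Ls a b x1 x (Bad z y Q K zs) ≤ C3 * (2 * ε2 / (η1 / 2) ^ 2) * ((C * x) / L) + (C * x) / L ^ 2 +
      C2 * (κ0 / η1 ^ 2) * ((C * x) / L) := by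
    rw [L9.Ls_Bad]
    have : Ls a b x1 x (gp z y) + Ls a b x1 x (sqd z) + Ls a b x1 x (T1 z (Q * Q) (same K zs)) ≤
      C3 * (2 * ε2 / (η1 / 2) ^ 2) * (x / L) + x / L ^ 2 + C2 * (κ0 / η1 ^ 2) * (x / L) := by linarith
    calc (C : ℝ) * (Ls a b x1 x (gp z y) + Ls a b x1 x (sqd z) + Ls a b x1 x (T1 z (Q * Q) (same K zs)))
        ≤ C * (C3 * (2 * ε2 / (η1 / 2) ^ 2) * (x / L) + x / L ^ 2 + C2 * (κ0 / η1 ^ 2) * (x / L)) :=
          mul_le_mul_of_nonneg_left this (Nat.cast_nonneg _)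
      _ = _ := by ring
  -- the sum
  have hcmp : ∀ c ∈ Gd, |Phi a b x1 x c w (G9 Q V)| ≤ |Phi a b x1 x c w (HL9 z U y Q V K zs)| +
      M0 * Lc a b x1 x c (Bad z y Q K zs) + K1 * (M0 * Ls a b x1 x (Bad z y Q K zs)) := by
    intro c hc
    have hcI := hGd hc
    have h := L9.Phi_compare a b x1 x c w (HL9 z U y Q V K zs) (G9 Q V) (Bad z y Q K zs) M0 hM0p.le
      (Pt.Bad_nonneg z y Q K zs) (fun n hn => hpt _ (hfv c hcI n hn).1 (hfv c hcI n hn).2) (fun N hN => by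
        rw [mem_Ioc] at hN
        exact hpt N hN.1 (by omega))
    have h3 := hGd3 c hc
    rw [← hwdef] at h3
    have h4 : Vc a b c w / V1 w * (M0 * Ls a b x1 x (Bad z y Q K zs)) ≤ K1 * (M0 * Ls a b x1 x (Bad z y Q K zs)) :=
      mul_le_mul_of_nonneg_right h3 (by positivity)
    linarith
  have hsum : ∑ c ∈ Gd, |Phi a b x1 x c w (G9 Q V)| ≤
      ∑ c ∈ Gd, |Phi a b x1 x c w (T1 z U (fun d => (moebius d : ℝ)))| +
      ∑ i ∈ range K, (∑ c ∈ Gd, |Phi a b x1 x c w (T2 z U y (alf (zs i) (zs (i + 1)) U) (rg (zs (i + 1))))| +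
        ∑ c ∈ Gd, |Phi a b x1 x c w (T2 z U y (rg (zs (i + 1))) (alf (zs i) (zs (i + 1)) U))|) +
      ∑ c ∈ Gd, |Phi a b x1 x c w (T2 z U y pi0 pi0)| + ∑ c ∈ Gd, |Phi a b x1 x c w (T2 z U y pi0 (pi2 Q))| +
      2 * ∑ c ∈ Gd, |Phi a b x1 x c w (T2 z V y pi0 (pi2 Q))| + ∑ c ∈ Gd, |Phi a b x1 x c w (T2 z U y (pi2 Q) pi0)| +
      ∑ c ∈ Gd, |Phi a b x1 x c w (T2 z U y (pi2 Q) (pi2 Q))| + M0 * ∑ c ∈ Gd, Lc a b x1 x c (Bad z y Q K zs) +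
      K1 * (M0 * (C * Ls a b x1 x (Bad z y Q K zs))) := by
    have e1 : ∑ i ∈ range K, (∑ c ∈ Gd, |Phi a b x1 x c w (T2 z U y (alf (zs i) (zs (i + 1)) U) (rg (zs (i + 1))))| +
        ∑ c ∈ Gd, |Phi a b x1 x c w (T2 z U y (rg (zs (i + 1))) (alf (zs i) (zs (i + 1)) U))|) =
        ∑ c ∈ Gd, ∑ i ∈ range K, (|Phi a b x1 x c w (T2 z U y (alf (zs i) (zs (i + 1)) U) (rg (zs (i + 1))))| +
          |Phi a b x1 x c w (T2 z U y (rg (zs (i + 1))) (alf (zs i) (zs (i + 1)) U))|) := by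
      rw [sum_comm]
      apply sum_congr rfl
      intro i _
      rw [sum_add_distrib]
    have e2 : ∑ c ∈ Gd, K1 * (M0 * Ls a b x1 x (Bad z y Q K zs)) ≤ K1 * (M0 * (C * Ls a b x1 x (Bad z y Q K zs))) := by
      rw [sum_const, nsmul_eq_mul]
      calc (#Gd : ℝ) * (K1 * (M0 * Ls a b x1 x (Bad z y Q K zs)))
          ≤ C * (K1 * (M0 * Ls a b x1 x (Bad z y Q K zs))) := by
            apply mul_le_mul_of_nonneg_right hGdc
            have : 0 ≤ K1 := by linarith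
            positivity
        _ = _ := by ring
    rw [e1]
    refine le_trans ?_ (add_le_add_right e2 _)
    rw [mul_sum, mul_sum, ← sum_add_distrib, ← sum_add_distrib, ← sum_add_distrib, ← sum_add_distrib, ← sum_add_distrib,
      ← sum_add_distrib, ← sum_add_distrib, ← sum_add_distrib]
    apply sum_le_sum
    intro c hc
    have h1 := hcmp c hc
    have h2 := L9.Phi_HL9_abs a b x1 x c w z U y Q V K zs
    linarith
  rw [← hwdef, ← hL]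
  refine hsum.trans ?_
  obtain ⟨eq0, eq2, _, _⟩ := hEq 0 0
  refine L9.fin_ineq κ L (C * x) M0 K1 (C3 * (2 * ε2 / (η1 / 2) ^ 2)) (C2 * (κ0 / η1 ^ 2)) K _ _ _ _ _ _ _ _ _ hκ.le hLp
    (by positivity) hM0p.le hK1 hε22 hκ02 hT1 ?_ (hT2 U pi0 pi0 le_rfl (by omega) eq0 eq0)
    (hT2 U pi0 (pi2 Q) le_rfl (by omega) eq0 eq2) (hT2 V pi0 (pi2 Q) hUV hVy eq0 eq2)
    (hT2 U (pi2 Q) pi0 le_rfl (by omega) eq2 eq0) (hT2 U (pi2 Q) (pi2 Q) le_rfl (by omega) eq2 eq2) hbc hbs ?_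
  · calc ∑ i ∈ range K, (∑ c ∈ Gd, |Phi a b x1 x c w (T2 z U y (alf (zs i) (zs (i + 1)) U) (rg (zs (i + 1))))| +
        ∑ c ∈ Gd, |Phi a b x1 x c w (T2 z U y (rg (zs (i + 1))) (alf (zs i) (zs (i + 1)) U))|)
        ≤ ∑ i ∈ range K, (2 * ((C : ℝ) * x / L ^ 2)) := by
          apply sum_le_sum
          intro i _
          obtain ⟨_, _, k1, k2⟩ := hEq (zs i) (zs (i + 1))
          have := hT2 U _ _ le_rfl (by omega) k2 k1
          have := hT2 U _ _ le_rfl (by omega) k1 k2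
          linarith
      _ = (K : ℝ) * (2 * ((C : ℝ) * x / L ^ 2)) := by rw [sum_const, card_range, nsmul_eq_mul]
  · rw [div_le_iff₀ hκ] at hLa
    linarith

end Pool.Agent.N791.U
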