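import Mathlib
import Pool.Agent.N792.T9
import Pool.Agent.N791.U.Lam9U

/-!
The lower bound for the primes, for almost all `c ≤ C`, `C ≥ x^(7/10+ε)`, uniformly in `b` (helper791, after helper792).
-/

set_option autoImplicit false

namespace Pool.Agent.N791.U

open Finset Filter Topology Pool.Agent.N792 Pool.Agent.N792.Fn124 Pool.Agent.N792.F9

/-- the lower bound for one `η` -/
def Concl9U (a : ℤ) (Λ ε η : ℝ) : Prop :=
    ∃ θ : ℝ, 0 < θ ∧ ∃ x0 : ℕ, ∀ x : ℕ, x0 ≤ x → ∀ b : ℤ, ∀ C : ℕ, (b : ℝ) ^ 2 ≤ Λ * C →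
    (x : ℝ) ^ (7 / 10 + ε) ≤ C → C ≤ x →
    ∃ Ex ⊆ Icc 1 C, (#Ex : ℝ) ≤ η * C ∧ ∀ c ∈ Icc 1 C, c ∉ Ex → Admissible a b c →
      ∃ S : ℝ, 0 < S ∧ Tendsto (fun z => partialC a b c z) atTop (𝓝 S) ∧ θ ≤ eps a b * S * gcdProd a b ∧
        ∀ u v : ℕ, u ≤ v → v ≤ x →
        3 / 4 * (eps a b * S * gcdProd a b * ∑ m ∈ Ioc u v, 1 / Real.log ((a : ℝ) * m ^ 2 + b * m + c)) -
          η * (eps a b * S * gcdProd a b * x / Real.log x) ≤
        (#((Ioc u v).filter (fun m : ℕ => (fv a b c m).toNat.Prime)) : ℝ)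

theorem concl9U_small (a : ℤ) (ha : 0 < a) (Λ : ℝ) (hΛ : 1 ≤ Λ) (hlam : L9SU a Λ) (hX4 : ∀ R, X4U a Λ R) (hX8 : X8U a Λ)
    (hX9 : X9U a Λ) (hLI : LIU a Λ)
    (hX10 : X10U a Λ) (ε η : ℝ) (hε : 0 < ε) (hη : 0 < η) (hη1 : η ≤ 1 / 10) : Concl9U a Λ ε η := by
  classical
  obtain ⟨As, hlam⟩ := hlam
  obtain ⟨E, hE⟩ : ∃ E : ℕ, E = 2 * max As 18 := ⟨_, rfl⟩
  obtain ⟨θ, hθ, xSP, hSP⟩ := hX9 (η / 8) (by positivity) E
  obtain ⟨β, hβ⟩ : ∃ β : ℝ, β = η / 20 := ⟨_, rfl⟩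
  have hβ0 : 0 < β := by rw [hβ]; positivity
  have hβ1 : β ≤ 1 / 2 := by rw [hβ]; linarith
  have hβη : 20 * β ≤ η := by rw [hβ]; linarith
  obtain ⟨lam, hl⟩ : ∃ lam : ℝ, lam = β * θ := ⟨_, rfl⟩
  have hl0 : 0 < lam := by rw [hl]; positivity
  obtain ⟨R, hR⟩ := exists_nat_gt (max 2 (1 / β))
  have hR2 : (2 : ℝ) < R := (le_max_left _ _).trans_lt hR
  have hR4 : 1 / β < R := (le_max_right _ _).trans_lt hR
  have hRn : 2 < R := by exact_mod_cast hR2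
  have hR0 : (0 : ℝ) < R := by linarith
  obtain ⟨κ, hκ⟩ : ∃ κ : ℝ, κ = η * lam / (8 * R) := ⟨_, rfl⟩
  have hκ0 : 0 < κ := by rw [hκ]; positivity
  obtain ⟨K1, hK1⟩ : ∃ K1 : ℝ, K1 = max 1 (1 / θ) := ⟨_, rfl⟩
  have hK11 : 1 ≤ K1 := by rw [hK1]; exact le_max_left _ _
  have hK12 : 1 / θ ≤ K1 := by rw [hK1]; exact le_max_right _ _
  obtain ⟨δ4, hδ4, xX4, hX4⟩ := hX4 R β hβ0
  obtain ⟨η1, hη10, hη11, xLam, hlam⟩ := hlam E R ε κ K1 δ4 hε hκ0 hK11 hδ4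
  obtain ⟨xST, hST⟩ := hX8 3 E
  obtain ⟨xLI, hLI⟩ := hLI β hβ0
  obtain ⟨xX, hX10⟩ := hX10 R β hβ0
  obtain ⟨c0, A, _, _, X0, hX0⟩ := range_bdU a ha Λ hΛ R
  obtain ⟨y1, hy1⟩ := evN' _ (Real.tendsto_log_atTop.eventually_ge_atTop (2 + 1 / β + 8 / η))
  obtain ⟨y2, hy2⟩ := evN' _ (ev_pow' E 1 (η1 / 2) (by positivity))
  obtain ⟨y3, hy3⟩ := evN' _ ((tendsto_rpow_atTop hη10).eventually_ge_atTop 2)
  obtain ⟨y5, hy5⟩ := evN' _ (eventually_ge_atTop (1 / β))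
  refine ⟨θ / 2, by positivity, xSP + xX4 + xLam + xST + xLI + xX + X0 + y1 + y2 + y3 + y5 + R + 10, ?_⟩
  intro x hx b C hbC hC1 hC2
  have hbX : (b : ℝ) ^ 2 ≤ Λ * x := hbC.trans (mul_le_mul_of_nonneg_left (by exact_mod_cast hC2) (by linarith))
  have g1 := hy1 x (by omega)
  have g2 := hy2 x (by omega)
  have g3 := hy3 x (by omega)
  have g5 := hy5 x (by omega)
  clear hy1 hy2 hy3 hy5
  obtain ⟨L, hL⟩ : ∃ L : ℝ, L = Real.log x := ⟨_, rfl⟩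
  rw [← hL] at g1 g2
  have hxr : (1 : ℝ) ≤ x := by exact_mod_cast (by omega : 1 ≤ x)
  have hx0 : (0 : ℝ) < x := lt_of_lt_of_le one_pos hxr
  have hβi : 0 < 1 / β := by positivity
  have hηi : 0 < 8 / η := by positivity
  have hL2 : 2 ≤ L := by linarith
  have hL0 : 0 < L := lt_of_lt_of_le two_pos hL2
  have hLL : L ≤ L ^ 3 := le_self_pow₀ (by linarith) (by norm_num)
  have hL3 : 1 / L ^ 3 ≤ β := by
    rw [div_le_iff₀ (by positivity)]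
    have : 1 / β ≤ L ^ 3 := by linarith
    rw [div_le_iff₀ hβ0] at this
    linarith
  have hL3η : 1 / L ^ 3 ≤ η / 8 := by
    rw [div_le_iff₀ (by positivity)]
    have : 8 / η ≤ L ^ 3 := by linarith
    rw [div_le_iff₀ hη] at this
    linarith
  -- the size of C
  have hC5 : (x : ℝ) ^ (1 / 2 : ℝ) ≤ C :=
    (Real.rpow_le_rpow_of_exponent_le hxr (by linarith)).trans hC1
  have hC0 : (0 : ℝ) < C := lt_of_lt_of_le (Real.rpow_pos_of_pos hx0 _) hC5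
  -- the levels
  obtain ⟨J, Jw, hzlow, hJ1, hwAs, hw1, hw18, hwz, hz5, hzx⟩ :=
    levels (x := x) (As := As) (E := E) (by omega) hL2 hη11 g3 g2 hE
  obtain ⟨Q, V, hQ, hV, hlam⟩ := hlam x (by omega)
  rw [hL] at hw1 hw18 hwAs
  obtain ⟨E1, hE1s, hE1c, hE1⟩ := hST x (by omega) b hbX C hC5 hC2 (2 ^ 2 ^ Jw) (2 ^ 2 ^ J) hw18 hw1 hwz hz5
  obtain ⟨E2, hE2s, hE2c, hE2⟩ := hSP x (by omega) b hbX C hC5 hC2 Jw hw1
  obtain ⟨Gd, hGd⟩ : ∃ Gd : Finset ℕ, Gd = Icc 1 C \ (E1 ∪ E2) := ⟨_, rfl⟩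
  have hGds : Gd ⊆ Icc 1 C := by rw [hGd]; exact sdiff_subset
  have hGd1 : ∀ c ∈ Gd, c ∈ Icc 1 C ∧ c ∉ E1 ∧ c ∉ E2 := by
    intro c hc
    rw [hGd, Finset.mem_sdiff, mem_union, not_or] at hc
    exact ⟨hc.1, hc.2.1, hc.2.2⟩
  have hgrid : ∀ i : ℕ, 1 ≤ i → i < R → xg x R i < x ∧ x ≤ R * xg x R i := by
    intro i hi1 hi2
    refine ⟨xg_lt x R i (by omega) (by omega) hi2, ?_⟩
    refine le_trans ?_ (le_xg x R i (by omega))
    calc x = 1 * x := (one_mul x).symm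
      _ ≤ i * x := Nat.mul_le_mul_right _ hi1
  have hsum : ∀ i : ℕ, 1 ≤ i → i < R →
      ∑ c ∈ Gd, |Phi a b (xg x R i) x c (2 ^ 2 ^ Jw) (G9 Q V)| ≤ κ * (C * x / L) := by
    intro i hi1 hi2
    obtain ⟨k1, k2⟩ := hgrid i hi1 hi2
    rw [hL]
    refine hlam b (xg x R i) C J Jw hbC k1 k2 hC1 hC2 hzlow hJ1 hwAs hw1 Gd hGds ?_ ?_
    · intro c hc
      obtain ⟨m1, m2, m3⟩ := hGd1 c hc
      exact (hE1 c m1 m2).1
    · intro c hc
      obtain ⟨m1, m2, m3⟩ := hGd1 c hc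
      exact ((hE2 c m1 m3).1).trans hK12
  have hlx : 0 < lam * (x / L) := by positivity
  have hE3c := card_bad R (by omega) Gd (fun i c => |Phi a b (xg x R i) x c (2 ^ 2 ^ Jw) (G9 Q V)|) (lam * (x / L))
    (κ * (C * x / L)) η C hlx hη hC0 (fun i _ _ c _ => abs_nonneg _) hsum (by
      rw [hκ]
      apply le_of_eq
      ring)
  obtain ⟨E3, hE3⟩ : ∃ E3 : Finset ℕ, E3 = (Ico 1 R).biUnion (fun i => Gd.filter (fun c =>
    lam * (x / L) < |Phi a b (xg x R i) x c (2 ^ 2 ^ Jw) (G9 Q V)|)) := ⟨_, rfl⟩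
  rw [← hE3] at hE3c
  have hE1c' : (#E1 : ℝ) ≤ η / 8 * C := by
    refine hE1c.trans ?_
    rw [← hL]
    calc (C : ℝ) / L ^ 3 = 1 / L ^ 3 * C := by ring
      _ ≤ η / 8 * C := mul_le_mul_of_nonneg_right hL3η hC0.le
  refine ⟨E1 ∪ E2 ∪ E3, ?_, ?_, ?_⟩
  · refine union_subset (union_subset hE1s hE2s) ?_
    rw [hE3]
    exact biUnion_subset.2 fun i _ => (filter_subset _ _).trans hGds
  · clear * - hE1c' hE2c hE3c hη hC0
    have k3 := card_union_le (E1 ∪ E2) E3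
    have k4 := card_union_le E1 E2
    have k5 : (#(E1 ∪ E2 ∪ E3) : ℝ) ≤ #E1 + #E2 + #E3 := by
      exact_mod_cast (by omega)
    have k6 : 0 < η / 8 * C := by positivity
    linarith
  intro c hc hcE hadm
  simp only [mem_union, not_or] at hcE
  obtain ⟨⟨c1, c2⟩, c3⟩ := hcE
  obtain ⟨-, hsing⟩ := hE1 c hc c1
  obtain ⟨S, hS0, hSt, hSS⟩ := hsing hadm
  have hSc := (hE2 c hc c2).2 hadm
  have hθM : θ / 2 ≤ eps a b * S * gcdProd a b := by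
    rw [← hL] at hSS
    have k1 := (abs_le.1 hSS).1
    have k2 : Vc a b c (2 ^ 2 ^ Jw) / V1 (2 ^ 2 ^ Jw) / L ^ 3 ≤ Vc a b c (2 ^ 2 ^ Jw) / V1 (2 ^ 2 ^ Jw) * (1 / 2) := by
      rw [div_eq_mul_one_div (Vc a b c (2 ^ 2 ^ Jw) / V1 (2 ^ 2 ^ Jw)) (L ^ 3)]
      exact mul_le_mul_of_nonneg_left (hL3η.trans (by linarith)) (hθ.le.trans hSc)
    linarith
  refine ⟨S, hS0, hSt, hθM, ?_⟩
  have hcG : c ∈ Gd := by rw [hGd, Finset.mem_sdiff, mem_union, not_or]; exact ⟨hc, c1, c2⟩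
  have hcC := mem_Icc.1 hc
  rw [← hL] at hSS ⊢
  intro u v huv hvx
  refine one_c9 ha (w := 2 ^ 2 ^ Jw) (Q := Q) (V := V) hRn (by omega) hL0 hθ hβ0 hβ1 hl rfl hSc
    (grid_num hx0 hR0 hβ0 hR4 g5) hβη ?_ ?_ ?_ hSS hL3 ?_ u v huv hvx
  · have := (hX0 x (by omega) b hbX (xg x R 1) (hgrid 1 le_rfl (by omega)).1 (hgrid 1 le_rfl (by omega)).2).1
    omega
  · intro i hi1 hi2
    by_contra hcon
    push Not at hcon
    apply c3
    rw [hE3, mem_biUnion]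
    exact ⟨i, mem_Ico.2 ⟨hi1, hi2⟩, mem_filter.2 ⟨hcG, hcon⟩⟩
  · intro i j hi1 hij hjR hlt
    have hjx : xg x R j ≤ x := by
      have := monotone_nat_of_le_succ (xg_mono x R · (by omega)) hjR
      rwa [xg_top x R (by omega)] at this
    have hiR : i < R := by
      by_contra hcon
      have : i = R := by omega
      rw [this, xg_top x R (by omega)] at hlt
      omega
    have k2 := (hgrid i hi1 hiR).2
    have m1 := hX4 x (by omega) b hbX (xg x R i) (xg x R j) Q V hlt hjx k2 hQ hV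
    have m2 := (abs_le.1 (hX10 x (by omega) b hbX (xg x R i) (xg x R j) hlt hjx k2)).1
    rw [← hL] at m1 m2
    rw [Ls_G9]
    have e1 : ((xg x R j : ℝ) - xg x R i) / (2 * L) = (((xg x R j : ℝ) - xg x R i) / L) / 2 := by field_simp
    rw [e1] at m2
    linarith
  · intro u v huv hvx
    have hli := hLI x (by omega) b hbX c (mem_Icc.2 ⟨hcC.1, hcC.2.trans hC2⟩) u v huv hvx
    rw [← hL] at hli
    exact hli

/-- **the lower bound for almost all `c`** -/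
theorem concl9U (a : ℤ) (ha : 0 < a) (Λ : ℝ) (hΛ : 1 ≤ Λ) (hlam : L9SU a Λ) (hX4 : ∀ R, X4U a Λ R) (hX8 : X8U a Λ)
    (hX9 : X9U a Λ) (hLI : LIU a Λ)
    (hX10 : X10U a Λ) (ε η : ℝ) (hε : 0 < ε) (hη : 0 < η) : Concl9U a Λ ε η := by
  have h0 : 0 < min η (1 / 10) := lt_min hη (by norm_num)
  obtain ⟨θ, hθ, x0, h⟩ := concl9U_small a ha Λ hΛ hlam hX4 hX8 hX9 hLI hX10 ε (min η (1 / 10)) hε h0 (min_le_right _ _)
  obtain ⟨x1, hx1⟩ := eventually_atTop.1 (Shp.log_ge 1)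
  refine ⟨θ, hθ, max x0 x1, fun x hx b C hbC hC1 hC2 => ?_⟩
  obtain ⟨Ex, h1, h2, h3⟩ := h x (by omega) b C hbC hC1 hC2
  refine ⟨Ex, h1, h2.trans (mul_le_mul_of_nonneg_right (min_le_left _ _) (Nat.cast_nonneg _)), ?_⟩
  intro c hc hcE hadm
  obtain ⟨S, hS, hSt, hθM, hb⟩ := h3 c hc hcE hadm
  refine ⟨S, hS, hSt, hθM, fun u v huv hvx => ?_⟩
  have h4 := hb u v huv hvx
  have hL1 : 1 ≤ Real.log x := hx1 x (by omega)
  have h5 : 0 ≤ eps a b * S * gcdProd a b * x / Real.log x := by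
    have g1 : 0 ≤ eps a b := by unfold eps; split_ifs <;> norm_num
    have g2 : 0 ≤ gcdProd a b := by
      unfold gcdProd
      apply prod_nonneg
      intro p hp
      have hp' : p.Prime := by
        simp only [mem_filter, Nat.mem_primeFactors] at hp
        tauto
      have : (2 : ℝ) ≤ p := by exact_mod_cast hp'.two_le
      apply div_nonneg <;> linarith
    have : 0 < Real.log x := by linarith
    positivity
  have h6 : min η (1 / 10) * (eps a b * S * gcdProd a b * x / Real.log x) ≤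
      η * (eps a b * S * gcdProd a b * x / Real.log x) := mul_le_mul_of_nonneg_right (min_le_left _ _) h5
  linarith

end Pool.Agent.N791.U
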