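import Mathlib
import Pool.Agent.N792.Defs

/-!
Transfers from the polynomials `a x² + b x + c`, `1 ≤ c ≤ C`, `b² ≤ Λ C`, to negative constant terms and to pairs `(b, c)`
(helper791).
-/

set_option autoImplicit false

namespace Pool.Agent.N791.U

open Finset Filter Topology Pool.Agent.N792

/-- a statement about `x`, `b`, `c` holds for all but `η C` of the `c ≤ C`, for all `b² ≤ Λ C`, `x^γ ≤ C ≤ x` -/
def Unif (Λ γ η : ℝ) (Q : ℕ → ℤ → ℤ → Prop) : Prop :=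
  ∃ x0 : ℕ, ∀ x : ℕ, x0 ≤ x → ∀ b : ℤ, ∀ C : ℕ, (b : ℝ) ^ 2 ≤ Λ * C → (x : ℝ) ^ γ ≤ C → C ≤ x →
    ∃ Ex ⊆ Icc 1 C, (#Ex : ℝ) ≤ η * C ∧ ∀ c ∈ Icc 1 C, c ∉ Ex → Q x b c

/-- the shift for negative constant terms -/
lemma sqrt_facts {K : ℕ} (hK : 100 ≤ K) : ∃ k : ℕ, 2 * K < k ^ 2 ∧ 10 * k ^ 2 ≤ 24 * K ∧ k ≤ K := by
  obtain ⟨r, hr⟩ : ∃ r : ℕ, r = Nat.sqrt (2 * K) := ⟨_, rfl⟩
  have h1 : r ^ 2 ≤ 2 * K := by rw [hr, sq]; exact Nat.sqrt_le _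
  have h2 : 2 * K < (r + 1) ^ 2 := by rw [hr, sq]; exact Nat.lt_succ_sqrt _
  have h3 : 10 * (2 * r + 1) ≤ 4 * K := by
    by_contra hcon
    push Not at hcon
    nlinarith
  refine ⟨r + 1, h2, ?_, ?_⟩
  · nlinarith
  · omega

/-- **Negative constant terms.** -/
theorem neg_transfer (a : ℤ) (ha : 0 < a) (b : ℤ) (γ η : ℝ) (hγ0 : 1 / 2 ≤ γ) (hγ1 : γ ≤ 1) (Q : ℕ → ℤ → ℤ → Prop)
    (hQ : Unif (5 * a) γ (η / (3 * a)) Q) :
    ∃ x0 : ℕ, ∀ x : ℕ, x0 ≤ x → ∀ K : ℕ, (x : ℝ) ^ γ ≤ K → K ≤ x →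
    ∃ Ex ⊆ Icc 1 K, (#Ex : ℝ) ≤ η * K ∧ ∀ c ∈ Icc 1 K, c ∉ Ex → ∃ k : ℕ, k ^ 2 ≤ 3 * K ∧ k ≤ K ∧
      Q (3 * a.toNat * x) (b + 2 * a * k) (-(c : ℤ) + b * k + a * k ^ 2) := by
  classical
  obtain ⟨x0, hQ⟩ := hQ
  obtain ⟨A, hA⟩ : ∃ A : ℕ, (A : ℤ) = a := ⟨a.toNat, by omega⟩
  have hAt : a.toNat = A := by omega
  have hA1 : 1 ≤ A := by omega
  obtain ⟨B, hB⟩ : ∃ B : ℕ, B = b.natAbs := ⟨_, rfl⟩
  have hbB : |b| ≤ B := by rw [hB]; simp
  refine ⟨x0 + (100 + 16 * B ^ 2) ^ 2, ?_⟩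
  intro x hx K hK1 hK2
  have hx1 : 1 ≤ x := by
    have h0 : 0 < (100 + 16 * B ^ 2) ^ 2 := by positivity
    omega
  have hx1' : (1 : ℝ) ≤ x := by exact_mod_cast hx1
  -- K is large
  have hKb : 100 + 16 * B ^ 2 ≤ K := by
    have h1 : (((100 + 16 * B ^ 2 : ℕ) : ℝ)) ≤ (x : ℝ) ^ (1 / 2 : ℝ) := by
      rw [← Real.sqrt_eq_rpow]
      apply Real.le_sqrt_of_sq_le
      exact_mod_cast (by omega : (100 + 16 * B ^ 2) ^ 2 ≤ x)
    have h2 : (x : ℝ) ^ (1 / 2 : ℝ) ≤ (x : ℝ) ^ γ := Real.rpow_le_rpow_of_exponent_le hx1' hγ0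
    exact_mod_cast (h1.trans h2).trans hK1
  obtain ⟨k, hk1, hk2, hk3⟩ := sqrt_facts (K := K) (by omega)
  have hkB : 4 * B ≤ k := by
    by_contra hcon
    push Not at hcon
    have : k ^ 2 ≤ (4 * B) ^ 2 := Nat.pow_le_pow_left hcon.le 2
    nlinarith
  obtain ⟨C, hC⟩ : ∃ C : ℕ, C = 3 * A * K := ⟨_, rfl⟩
  have hAr : (A : ℝ) = a := by exact_mod_cast hA
  have hA1r : (1 : ℝ) ≤ A := by exact_mod_cast hA1
  -- real bounds
  have hkr1 : (2 : ℝ) * K < k ^ 2 := by exact_mod_cast hk1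
  have hkr2 : (10 : ℝ) * k ^ 2 ≤ 24 * K := by exact_mod_cast hk2
  have hbr : |(b : ℝ)| ≤ k / 4 := by
    have h1 : |(b : ℝ)| ≤ B := by exact_mod_cast hbB
    have h2 : (4 : ℝ) * B ≤ k := by exact_mod_cast hkB
    linarith
  have hk0 : (0 : ℝ) ≤ k := Nat.cast_nonneg _
  have hb' : ((b + 2 * a * k : ℤ) : ℝ) ^ 2 ≤ 5 * a * C := by
    push_cast
    rw [hC, ← hAr]
    push_cast
    have h1 : |(b : ℝ) + 2 * A * k| ≤ 9 / 4 * (A * k) := by
      refine (abs_add_le _ _).trans ?_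
      rw [abs_of_nonneg (by positivity : (0 : ℝ) ≤ 2 * A * k)]
      nlinarith
    have h2 := sq_le_sq' (by linarith [neg_abs_le ((b : ℝ) + 2 * A * k)]) ((le_abs_self _).trans h1)
    nlinarith [mul_nonneg (sq_nonneg (A : ℝ)) (sub_nonneg.2 hkr2)]
  have hxC : (((3 * A * x : ℕ) : ℝ)) ^ γ ≤ C := by
    rw [hC]
    push_cast
    rw [Real.mul_rpow (by positivity) (by positivity)]
    have h1 : (3 * (A : ℝ)) ^ γ ≤ 3 * A := by
      have := Real.rpow_le_rpow_of_exponent_le (x := 3 * (A : ℝ)) (by linarith) hγ1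
      rwa [Real.rpow_one] at this
    exact mul_le_mul h1 hK1 (by positivity) (by positivity)
  obtain ⟨E, hE1, hE2, hE3⟩ := hQ (3 * A * x) (by nlinarith [Nat.zero_le ((100 + 16 * B ^ 2) ^ 2)]) (b + 2 * a * k) C hb' hxC
    (by rw [hC]; exact Nat.mul_le_mul_left _ hK2)
  refine ⟨(Icc 1 K).filter (fun c : ℕ => (-(c : ℤ) + b * k + a * k ^ 2).toNat ∈ E), filter_subset _ _, ?_, ?_⟩
  · have hpos : ∀ c ∈ Icc 1 K, 0 < -(c : ℤ) + b * k + a * k ^ 2 := by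
      intro c hc
      have hcK := (mem_Icc.1 hc).2
      have h1 : (c : ℝ) ≤ K := by exact_mod_cast hcK
      have h3 : (0 : ℝ) < -(c : ℝ) + b * k + a * k ^ 2 := by
        rw [← hAr]
        have h4 : -(k / 4 * k) ≤ (b : ℝ) * k := by
          have := mul_le_mul_of_nonneg_right (neg_abs_le (b : ℝ)) hk0
          nlinarith
        nlinarith
      exact_mod_cast h3
    have hcard : #((Icc 1 K).filter (fun c : ℕ => (-(c : ℤ) + b * k + a * k ^ 2).toNat ∈ E)) ≤ #E := by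
      refine card_le_card_of_injOn (fun c : ℕ => (-(c : ℤ) + b * k + a * k ^ 2).toNat) ?_ ?_
      · intro c hc
        exact (mem_filter.1 hc).2
      · intro c hc c' hc' h
        have h1 := hpos c (mem_filter.1 hc).1
        have h2 := hpos c' (mem_filter.1 hc').1
        simp only at h
        omega
    have h1 : (#((Icc 1 K).filter (fun c : ℕ => (-(c : ℤ) + b * k + a * k ^ 2).toNat ∈ E)) : ℝ) ≤ #E := by exact_mod_cast hcard
    refine h1.trans (hE2.trans (le_of_eq ?_))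
    rw [hC, ← hAr]
    push_cast
    field_simp
  · intro c hc hcE
    have hcK := mem_Icc.1 hc
    refine ⟨k, by omega, hk3, ?_⟩
    have h1 : (c : ℝ) ≤ K := by exact_mod_cast hcK.2
    have h0 : (1 : ℝ) ≤ c := by exact_mod_cast hcK.1
    have h4 : -(k / 4 * k) ≤ (b : ℝ) * k := by
      have := mul_le_mul_of_nonneg_right (neg_abs_le (b : ℝ)) hk0
      nlinarith
    have h4' : (b : ℝ) * k ≤ k / 4 * k := by
      have := mul_le_mul_of_nonneg_right (le_abs_self (b : ℝ)) hk0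
      nlinarith
    have h3 : 0 < -(c : ℤ) + b * k + a * k ^ 2 := by
      have h3 : (0 : ℝ) < -(c : ℝ) + b * k + a * k ^ 2 := by
        rw [← hAr]
        nlinarith
      exact_mod_cast h3
    have h5 : -(c : ℤ) + b * k + a * k ^ 2 ≤ C := by
      have h3 : -(c : ℝ) + b * k + a * k ^ 2 ≤ C := by
        rw [hC, ← hAr]
        push_cast
        nlinarith [mul_nonneg (sub_nonneg.2 hA1r) (sq_nonneg (k : ℝ)), mul_nonneg (Nat.cast_nonneg (α := ℝ) A) (sub_nonneg.2 hkr2)]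
      exact_mod_cast h3
    obtain ⟨n, hn⟩ := Int.eq_ofNat_of_zero_le h3.le
    rw [hAt, hn]
    apply hE3 n
    · rw [mem_Icc]
      constructor <;> omega
    · intro hcon
      apply hcE
      rw [mem_filter]
      refine ⟨hc, ?_⟩
      rw [hn]
      simpa using hcon

end Pool.Agent.N791.U
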