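import Mathlib
import Pool.Agent.N791.U.Tr

/-!
Transfer to pairs `(b, c)` (helper791).
-/

set_option autoImplicit false

namespace Pool.Agent.N791.U

open Finset Filter Topology Pool.Agent.N792

/-- a finite set of integers with small diameter is small -/
lemma card_diam (S : Finset ℤ) (D : ℕ) (h : ∀ x ∈ S, ∀ y ∈ S, x - y ≤ D) : #S ≤ D + 1 := by
  rcases S.eq_empty_or_nonempty with h0 | h0
  · rw [h0]; simp
  · obtain ⟨m, hm, hmin⟩ := S.exists_min_image id h0
    have h1 : S ⊆ Icc m (m + D) := by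
      intro x hx
      rw [mem_Icc]
      have := h x hx m hm
      have h2 := hmin x hx
      simp only [id] at h2
      omega
    calc #S ≤ #(Icc m (m + D)) := card_le_card h1
      _ = D + 1 := by rw [Int.card_Icc]; omega

/-- the constant term after the shift by `s = H - j`, `b = b0 + 2 a j` -/
def sh (a : ℤ) (H : ℕ) (b : ℤ) : ℤ := H - b / (2 * a)

/-- the shifted constant term -/
def cc (a : ℤ) (H : ℕ) (b c : ℤ) : ℤ := c + b * sh a H b + a * sh a H b ^ 2

lemma sh_b (a : ℤ) (H : ℕ) (b : ℤ) : b + 2 * a * sh a H b = b % (2 * a) + 2 * a * H := by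
  have := Int.emod_add_mul_ediv b (2 * a)
  unfold sh
  linear_combination (-1 : ℤ) * this

lemma sh_disc (a : ℤ) (H : ℕ) (b c : ℤ) : 4 * a * cc a H b c = 4 * a * c + (b % (2 * a) + 2 * a * H) ^ 2 - b ^ 2 := by
  rw [← sh_b]
  unfold cc
  ring

lemma sh_bd {a : ℤ} (ha : 0 < a) {H : ℕ} (hH : 2 ≤ H) {b : ℤ} (hb : |b| ≤ H) : |sh a H b| ≤ 2 * H := by
  unfold sh
  have h2a : 0 < 2 * a := by omega
  have h1 := Int.emod_add_mul_ediv b (2 * a)
  have h2 := Int.emod_nonneg b h2a.ne'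
  have h3 := Int.emod_lt_of_pos b h2a
  rw [abs_le] at hb ⊢
  constructor
  · have : b / (2 * a) ≤ H := by
      apply Int.ediv_le_of_le_mul h2a
      nlinarith
    omega
  · have : -(H : ℤ) ≤ b / (2 * a) := by
      rw [Int.le_ediv_iff_mul_le h2a]
      nlinarith
    omega

lemma cc_bd {a : ℤ} (ha : 0 < a) {H : ℕ} (hH : 4 ≤ H) {b c : ℤ} (hb : |b| ≤ H) (hc : |c| ≤ H) :
    1 ≤ cc a H b c ∧ cc a H b c ≤ 2 * a * H ^ 2 := by
  have h := sh_disc a H b c
  have h2a : 0 < 2 * a := by omega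
  have h2 := Int.emod_nonneg b h2a.ne'
  have h3 := Int.emod_lt_of_pos b h2a
  obtain ⟨r, hr⟩ : ∃ r : ℤ, r = b % (2 * a) := ⟨_, rfl⟩
  rw [← hr] at h h2 h3
  have hb2 : b ^ 2 ≤ (H : ℤ) ^ 2 := sq_le_sq' (by linarith [neg_abs_le b]) ((le_abs_self b).trans hb)
  have hb0 := sq_nonneg b
  have hc1 := (neg_abs_le c)
  have hc2 := le_abs_self c
  have hH' : (4 : ℤ) ≤ H := by exact_mod_cast hH
  have ha1 : 1 ≤ a := ha
  constructor
  · by_contra hcon
    push Not at hcon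
    have h5 : 4 * a * cc a H b c ≤ 0 := by nlinarith
    have h6 : 4 * a * c ≥ -(4 * a * H) := by nlinarith
    have h7 : (2 * a * (H : ℤ)) ^ 2 ≤ (r + 2 * a * H) ^ 2 := by nlinarith [mul_nonneg h2 (by positivity : (0 : ℤ) ≤ a * H)]
    have h8 : 4 * a * (H : ℤ) + H ^ 2 < (2 * a * (H : ℤ)) ^ 2 := by
      have e1 : (H : ℤ) ^ 2 ≤ a ^ 2 * H ^ 2 := by
        have e0 : 1 ≤ a ^ 2 := by nlinarith
        exact le_mul_of_one_le_left (sq_nonneg _) e0
      have e2 : 4 * a * (H : ℤ) ≤ a ^ 2 * H ^ 2 := by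
        have : a * (H : ℤ) * 4 ≤ a * (H : ℤ) * (a * H) := by
          apply mul_le_mul_of_nonneg_left _ (by positivity)
          nlinarith
        nlinarith
      have e3 : 0 < a ^ 2 * (H : ℤ) ^ 2 := by positivity
      nlinarith
    linarith
  · by_contra hcon
    push Not at hcon
    have h5 : 4 * a * (2 * a * (H : ℤ) ^ 2 + 1) ≤ 4 * a * cc a H b c := by
      apply mul_le_mul_of_nonneg_left _ (by positivity)
      omega
    have h6 : 4 * a * c ≤ 4 * a * H := by nlinarith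
    have h7 : (r + 2 * a * (H : ℤ)) ^ 2 ≤ (2 * a * (H + 1)) ^ 2 := by
      apply sq_le_sq' <;> nlinarith
    have e2 : 4 * a * (H : ℤ) ≤ a ^ 2 * H ^ 2 := by
        have : a * (H : ℤ) * 4 ≤ a * (H : ℤ) * (a * H) := by
          apply mul_le_mul_of_nonneg_left _ (by positivity)
          nlinarith
        nlinarith
    have e4 : (2 * a * ((H : ℤ) + 1)) ^ 2 ≤ 4 * a ^ 2 * H ^ 2 + 3 * a ^ 2 * H ^ 2 := by
      have : 4 * (2 * (H : ℤ) + 1) ≤ 3 * H ^ 2 := by nlinarith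
      nlinarith [mul_le_mul_of_nonneg_left this (sq_nonneg a)]
    nlinarith

/-- the pairs for which the shifted constant term is exceptional -/
lemma card_exc {a : ℤ} (ha : 0 < a) {H : ℕ} (hH : 4 ≤ H) (E : ℤ → Finset ℕ) {δ N : ℝ} (hδ : 0 < δ)
    (hE : ∀ r, (#(E r) : ℝ) ≤ N) (hδH : 1 ≤ δ * H) (hδ1 : δ ≤ 1) :
    (#((Icc (-(H : ℤ)) H ×ˢ Icc (-(H : ℤ)) H).filter
      (fun q : ℤ × ℤ => (cc a H q.1 q.2).toNat ∈ E (q.1 % (2 * a)))) : ℝ) ≤
      9 * δ * H ^ 2 + 4 * a * (5 * a / δ) * N := by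
  classical
  obtain ⟨P, hP⟩ : ∃ P : Finset (ℤ × ℤ), P = (Icc (-(H : ℤ)) H ×ˢ Icc (-(H : ℤ)) H).filter
      (fun q : ℤ × ℤ => (cc a H q.1 q.2).toNat ∈ E (q.1 % (2 * a))) := ⟨_, rfl⟩
  rw [← hP]
  have hH0 : (4 : ℝ) ≤ H := by exact_mod_cast hH
  have haR : (1 : ℝ) ≤ a := by exact_mod_cast ha
  have hmem : ∀ q ∈ P, |q.1| ≤ H ∧ |q.2| ≤ H ∧ (cc a H q.1 q.2).toNat ∈ E (q.1 % (2 * a)) := by
    intro q hq
    rw [hP, mem_filter, mem_product, mem_Icc, mem_Icc] at hq
    exact ⟨abs_le.2 hq.1.1, abs_le.2 hq.1.2, hq.2⟩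
  -- small b
  obtain ⟨Ps, hPs⟩ : ∃ Ps : Finset (ℤ × ℤ), Ps = P.filter (fun q => |(q.1 : ℝ)| < δ * H) := ⟨_, rfl⟩
  obtain ⟨Pl, hPl⟩ : ∃ Pl : Finset (ℤ × ℤ), Pl = P.filter (fun q => ¬ |(q.1 : ℝ)| < δ * H) := ⟨_, rfl⟩
  have hsum : #P = #Ps + #Pl := by rw [hPs, hPl]; exact (card_filter_add_card_filter_not _).symm
  have hs : (#Ps : ℝ) ≤ 9 * δ * H ^ 2 := by
    obtain ⟨D, hD⟩ : ∃ D : ℕ, D = ⌊δ * (H : ℝ)⌋₊ := ⟨_, rfl⟩
    have hDr : (D : ℝ) ≤ δ * H := by rw [hD]; exact Nat.floor_le (by positivity)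
    have h1 : Ps ⊆ Icc (-(D : ℤ)) D ×ˢ Icc (-(H : ℤ)) H := by
      intro q hq
      rw [hPs, mem_filter] at hq
      have h2 := hmem q hq.1
      rw [mem_product, mem_Icc, mem_Icc]
      have h3 : |q.1| ≤ (D : ℤ) := by
        have h4 : q.1.natAbs ≤ D := by
          rw [hD]
          apply Nat.le_floor
          have : ((q.1.natAbs : ℕ) : ℝ) = |(q.1 : ℝ)| := by
            rw [Nat.cast_natAbs]; push_cast; rfl
          rw [this]
          exact hq.2.le
        rw [Int.abs_eq_natAbs]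
        exact_mod_cast h4
      exact ⟨abs_le.1 h3, abs_le.1 h2.2.1⟩
    have h2 := card_le_card h1
    rw [card_product, Int.card_Icc, Int.card_Icc] at h2
    have h3 : ((D : ℤ) + 1 - -(D : ℤ)).toNat = 2 * D + 1 := by omega
    have h4 : ((H : ℤ) + 1 - -(H : ℤ)).toNat = 2 * H + 1 := by omega
    rw [h3, h4] at h2
    have h5 : (#Ps : ℝ) ≤ (2 * D + 1) * (2 * H + 1) := by exact_mod_cast h2
    refine h5.trans ?_
    have h6 : (2 * (D : ℝ) + 1) ≤ 3 * (δ * H) := by linarith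
    have h7 : (2 * (H : ℝ) + 1) ≤ 3 * H := by linarith
    calc (2 * (D : ℝ) + 1) * (2 * H + 1) ≤ (3 * (δ * H)) * (3 * H) := mul_le_mul h6 h7 (by positivity) (by positivity)
      _ = _ := by ring
  -- large b
  obtain ⟨D, hD⟩ : ∃ D : ℕ, D = ⌊4 * (a : ℝ) / δ⌋₊ := ⟨_, rfl⟩
  have hl : #Pl ≤ (D + 1) * #(Pl.image (fun q : ℤ × ℤ => (q.1 % (2 * a), decide (0 < q.1), (cc a H q.1 q.2).toNat))) := by
    apply card_le_mul_card_image
    rintro ⟨r, sg, n⟩ hy
    have hcd : #(Pl.filter (fun q : ℤ × ℤ => (q.1 % (2 * a), decide (0 < q.1), (cc a H q.1 q.2).toNat) = (r, sg, n))) ≤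
        #((Pl.filter (fun q : ℤ × ℤ => (q.1 % (2 * a), decide (0 < q.1), (cc a H q.1 q.2).toNat) = (r, sg, n))).image Prod.fst) := by
      rw [card_image_of_injOn]
      rintro ⟨b1, c1⟩ hq1 ⟨b2, c2⟩ hq2 h12
      rw [mem_coe, mem_filter, Prod.mk.injEq, Prod.mk.injEq] at hq1 hq2
      simp only at h12 hq1 hq2
      subst h12
      have m1 := hmem (b1, c1) (by rw [hPl, mem_filter] at hq1; exact hq1.1.1)
      have m2 := hmem (b1, c2) (by rw [hPl, mem_filter] at hq2; exact hq2.1.1)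
      have k1 := (cc_bd ha hH m1.1 m1.2.1).1
      have k2 := (cc_bd ha hH m2.1 m2.2.1).1
      simp only at k1 k2
      have k3 : cc a H b1 c1 = cc a H b1 c2 := by omega
      unfold cc at k3
      have : c1 = c2 := by linarith
      rw [this]
    refine hcd.trans (card_diam _ D ?_)
    intro y1 hy1 y2 hy2
    rw [mem_image] at hy1 hy2
    obtain ⟨⟨b1, c1⟩, hq1, rfl⟩ := hy1
    obtain ⟨⟨b2, c2⟩, hq2, rfl⟩ := hy2
    rw [mem_filter, Prod.mk.injEq, Prod.mk.injEq] at hq1 hq2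
    simp only at hq1 hq2 ⊢
    have p1 := hq1.1
    have p2 := hq2.1
    rw [hPl, mem_filter] at p1 p2
    have m1 := hmem (b1, c1) p1.1
    have m2 := hmem (b2, c2) p2.1
    have k1 := (cc_bd ha hH m1.1 m1.2.1).1
    have k2 := (cc_bd ha hH m2.1 m2.2.1).1
    simp only at m1 m2 k1 k2 p1 p2
    have k3 : cc a H b1 c1 = cc a H b2 c2 := by omega
    have k4 := sh_disc a H b1 c1
    have k5 := sh_disc a H b2 c2
    have k6 : (b1 % (2 * a)) = (b2 % (2 * a)) := by rw [hq1.2.1, hq2.2.1]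
    rw [k3, k6] at k4
    have k7 : (b1 - b2) * (b1 + b2) = 4 * a * (c1 - c2) := by linear_combination k4 - k5
    have k8 : decide (0 < b1) = decide (0 < b2) := by rw [hq1.2.2.1, hq2.2.2.1]
    have k9 : (0 < b1) ↔ (0 < b2) := by simpa using k8
    -- real numbers
    push Not at p1 p2
    by_contra hcon
    push Not at hcon
    have hreal : 4 * (a : ℝ) / δ < (b1 : ℝ) - b2 := by
      have h1 := Nat.lt_floor_add_one (4 * (a : ℝ) / δ)
      rw [← hD] at h1
      have h2 : ((D : ℝ)) + 1 ≤ (b1 : ℝ) - b2 := by exact_mod_cast hcon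
      linarith
    rw [div_lt_iff₀ hδ] at hreal
    have hR : ((b1 : ℝ) - b2) * (b1 + b2) = 4 * a * (c1 - c2) := by exact_mod_cast k7
    have hc1 : |(c1 : ℝ)| ≤ H := by exact_mod_cast m1.2.1
    have hc2 : |(c2 : ℝ)| ≤ H := by exact_mod_cast m2.2.1
    have hcc : |(c1 : ℝ) - c2| ≤ 2 * H := by
      calc |(c1 : ℝ) - c2| ≤ |(c1 : ℝ)| + |(c2 : ℝ)| := abs_sub _ _
        _ ≤ 2 * H := by linarith
    have hbb : 2 * (δ * H) ≤ |(b1 : ℝ) + b2| := by
      by_cases hb : 0 < b1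
      · have hb2 := k9.1 hb
        have e1 : (0 : ℝ) < b1 := by exact_mod_cast hb
        have e2 : (0 : ℝ) < b2 := by exact_mod_cast hb2
        rw [abs_of_pos (add_pos e1 e2)]
        have q1 := p1.2
        have q2 := p2.2
        rw [abs_of_pos e1] at q1
        rw [abs_of_pos e2] at q2
        linarith
      · have hb2 : ¬ 0 < b2 := fun h => hb (k9.2 h)
        push Not at hb hb2
        have e1 : (b1 : ℝ) ≤ 0 := by exact_mod_cast hb
        have e2 : (b2 : ℝ) ≤ 0 := by exact_mod_cast hb2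
        rw [abs_of_nonpos (add_nonpos e1 e2)]
        have q1 := p1.2
        have q2 := p2.2
        rw [abs_of_nonpos e1] at q1
        rw [abs_of_nonpos e2] at q2
        linarith
    have hprod : ((b1 : ℝ) - b2) * |(b1 : ℝ) + b2| = 4 * a * |(c1 : ℝ) - c2| := by
      have e0 : (0 : ℝ) ≤ (b1 : ℝ) - b2 := by
        have : (0 : ℝ) ≤ (D : ℝ) := Nat.cast_nonneg _
        have h2 : ((D : ℝ)) + 1 ≤ (b1 : ℝ) - b2 := by exact_mod_cast hcon
        linarith
      have e1 : |((b1 : ℝ) - b2) * (b1 + b2)| = |4 * (a : ℝ) * (c1 - c2)| := by rw [hR]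
      rw [abs_mul, abs_mul, abs_of_nonneg e0, abs_of_nonneg (by linarith : (0 : ℝ) ≤ 4 * a)] at e1
      exact e1
    have hlt : 4 * (a : ℝ) * (2 * H) < ((b1 : ℝ) - b2) * |(b1 : ℝ) + b2| := by
      have e0 : 0 < (b1 : ℝ) - b2 := by
        by_contra hc
        push Not at hc
        have : ((b1 : ℝ) - b2) * δ ≤ 0 := mul_nonpos_of_nonpos_of_nonneg hc hδ.le
        linarith
      calc 4 * (a : ℝ) * (2 * H) < (((b1 : ℝ) - b2) * δ) * (2 * H) := mul_lt_mul_of_pos_right hreal (by linarith)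
        _ = ((b1 : ℝ) - b2) * (2 * (δ * H)) := by ring
        _ ≤ _ := mul_le_mul_of_nonneg_left hbb e0.le
    rw [hprod] at hlt
    have := mul_le_mul_of_nonneg_left hcc (by linarith : (0 : ℝ) ≤ 4 * a)
    linarith
  -- the image
  have himg : (#(Pl.image (fun q : ℤ × ℤ => (q.1 % (2 * a), decide (0 < q.1), (cc a H q.1 q.2).toNat))) : ℝ) ≤
      4 * a * N := by
    have h1 : Pl.image (fun q : ℤ × ℤ => (q.1 % (2 * a), decide (0 < q.1), (cc a H q.1 q.2).toNat)) ⊆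
        (Ico 0 (2 * a)).biUnion (fun r => ({true, false} : Finset Bool).biUnion (fun sg => (E r).image (fun n => (r, sg, n)))) := by
      intro y hy
      rw [mem_image] at hy
      obtain ⟨q, hq, rfl⟩ := hy
      have hqP : q ∈ P := by rw [hPl, mem_filter] at hq; exact hq.1
      have m := hmem q hqP
      rw [mem_biUnion]
      refine ⟨q.1 % (2 * a), mem_Ico.2 ⟨Int.emod_nonneg _ (by omega), Int.emod_lt_of_pos _ (by omega)⟩, ?_⟩
      rw [mem_biUnion]
      refine ⟨decide (0 < q.1), by cases decide (0 < q.1) <;> simp, ?_⟩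
      rw [mem_image]
      exact ⟨_, m.2.2, rfl⟩
    have h2 := card_le_card h1
    have h3 : (#((Ico 0 (2 * a)).biUnion (fun r => ({true, false} : Finset Bool).biUnion
        (fun sg => (E r).image (fun n => (r, sg, n))))) : ℝ) ≤ ∑ r ∈ Ico 0 (2 * a), 2 * N := by
      have h4 : (#((Ico 0 (2 * a)).biUnion (fun r => ({true, false} : Finset Bool).biUnion
        (fun sg => (E r).image (fun n => (r, sg, n))))) : ℝ) ≤ ∑ r ∈ Ico 0 (2 * a),
          (#(({true, false} : Finset Bool).biUnion (fun sg => (E r).image (fun n => (r, sg, n)))) : ℝ) := by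
        exact_mod_cast card_biUnion_le
      refine h4.trans (sum_le_sum fun r _ => ?_)
      have h5 : (#(({true, false} : Finset Bool).biUnion (fun sg => (E r).image (fun n => (r, sg, n)))) : ℝ) ≤
          ∑ sg ∈ ({true, false} : Finset Bool), (#((E r).image (fun n => (r, sg, n))) : ℝ) := by
        exact_mod_cast card_biUnion_le
      refine h5.trans ?_
      have h6 : ∀ sg : Bool, (#((E r).image (fun n => (r, sg, n))) : ℝ) ≤ N := by
        intro sg
        have : #((E r).image (fun n => (r, sg, n))) ≤ #(E r) := card_image_le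
        exact (by exact_mod_cast this : (#((E r).image (fun n => (r, sg, n))) : ℝ) ≤ #(E r)).trans (hE r)
      calc ∑ sg ∈ ({true, false} : Finset Bool), (#((E r).image (fun n => (r, sg, n))) : ℝ) ≤
          ∑ sg ∈ ({true, false} : Finset Bool), N := sum_le_sum fun sg _ => h6 sg
        _ = 2 * N := by simp
    rw [sum_const, Int.card_Ico, nsmul_eq_mul] at h3
    have h7 : (((2 * a - 0).toNat : ℕ) : ℝ) = 2 * a := by
      have : (((2 * a - 0).toNat : ℕ) : ℤ) = 2 * a := by omega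
      exact_mod_cast this
    rw [h7] at h3
    calc _ ≤ _ := (by exact_mod_cast h2 : (#(Pl.image (fun q : ℤ × ℤ => (q.1 % (2 * a), decide (0 < q.1), (cc a H q.1 q.2).toNat))) : ℝ) ≤ _)
      _ ≤ _ := h3
      _ = _ := by ring
  have hl' : (#Pl : ℝ) ≤ (5 * a / δ) * (4 * a * N) := by
    have h1 : (#Pl : ℝ) ≤ (D + 1) * #(Pl.image (fun q : ℤ × ℤ => (q.1 % (2 * a), decide (0 < q.1), (cc a H q.1 q.2).toNat))) := by
      exact_mod_cast hl
    refine h1.trans (mul_le_mul ?_ himg (Nat.cast_nonneg _) (by positivity))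
    have h2 : (D : ℝ) ≤ 4 * a / δ := by rw [hD]; exact Nat.floor_le (by positivity)
    have h3 : (1 : ℝ) ≤ a / δ := by rw [le_div_iff₀ hδ]; linarith
    calc (D : ℝ) + 1 ≤ 4 * a / δ + a / δ := add_le_add h2 h3
      _ = _ := by ring
  have : (#P : ℝ) = #Ps + #Pl := by exact_mod_cast hsum
  rw [this]
  calc (#Ps : ℝ) + #Pl ≤ 9 * δ * H ^ 2 + (5 * a / δ) * (4 * a * N) := add_le_add hs hl'
    _ = _ := by ring

end Pool.Agent.N791.U
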