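import Mathlib
import Pool.Agent.N791.U.Tr2
import Pool.Agent.N791.U.Concl

/-!
Transfer to pairs `(b, c)`; the shift of the windows (helper791).
-/

set_option autoImplicit false

namespace Pool.Agent.N791.U

open Finset Filter Topology Pool.Agent.N792

/-- **Transfer to pairs.** -/
theorem pair_transfer (a : ℤ) (ha : 0 < a) (γ η δ : ℝ) (hγ1 : γ ≤ 1) (hη : 0 < η) (hδ : 0 < δ) (hδ1 : δ ≤ 1)
    (hδη : 18 * δ ≤ η) (Q : ℕ → ℤ → ℤ → Prop) (hQ : Unif (3 * a) γ (δ * η / (80 * a ^ 3)) Q) :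
    ∃ H0 : ℕ, ∀ H : ℕ, H0 ≤ H → ∀ N : ℕ, H ^ 2 ≤ N → (N : ℝ) ^ γ ≤ (H : ℝ) ^ 2 →
    ∃ Ex ⊆ Icc (-(H : ℤ)) H ×ˢ Icc (-(H : ℤ)) H, (#Ex : ℝ) ≤ η * H ^ 2 ∧
      ∀ q ∈ Icc (-(H : ℤ)) H ×ˢ Icc (-(H : ℤ)) H, q ∉ Ex → |sh a H q.1| ≤ 2 * H ∧
        Q (2 * a.toNat * N) (q.1 + 2 * a * sh a H q.1) (q.2 + q.1 * sh a H q.1 + a * sh a H q.1 ^ 2) := by
  classical
  obtain ⟨x0, hQ⟩ := hQ
  obtain ⟨A, hA⟩ : ∃ A : ℕ, (A : ℤ) = a := ⟨a.toNat, by omega⟩
  have hAt : a.toNat = A := by omega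
  have hA1 : 1 ≤ A := by omega
  have hAr : (A : ℝ) = a := by exact_mod_cast hA
  have hA1r : (1 : ℝ) ≤ A := by exact_mod_cast hA1
  have haR : (1 : ℝ) ≤ a := by rw [← hAr]; exact hA1r
  refine ⟨x0 + 10 + ⌈1 / δ⌉₊, ?_⟩
  intro H hH N hHN hN
  have hHδ : 1 ≤ δ * H := by
    have h1 : 1 / δ ≤ H := (Nat.le_ceil _).trans (by exact_mod_cast (by omega : ⌈1 / δ⌉₊ ≤ H))
    rw [div_le_iff₀ hδ] at h1
    linarith
  have hH10 : (10 : ℝ) ≤ H := by exact_mod_cast (by omega : 10 ≤ H)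
  have hNx : x0 ≤ N := by nlinarith
  obtain ⟨C, hC⟩ : ∃ C : ℕ, C = 2 * A * H ^ 2 := ⟨_, rfl⟩
  have hCr : (C : ℝ) = 2 * a * H ^ 2 := by rw [hC, ← hAr]; push_cast; ring
  have key : ∀ r : ℤ, 0 ≤ r → r < 2 * a → ∃ Ex ⊆ Icc 1 C, (#Ex : ℝ) ≤ δ * η / (80 * a ^ 3) * C ∧
      ∀ c ∈ Icc 1 C, c ∉ Ex → Q (2 * A * N) (r + 2 * a * H) c := by
    intro r hr0 hr1
    apply hQ (2 * A * N) (by nlinarith)
    · push_cast
      rw [hCr]
      have h1 : (0 : ℝ) ≤ r := by exact_mod_cast hr0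
      have h2 : (r : ℝ) ≤ 2 * a := by exact_mod_cast hr1.le
      have h3 : (r : ℝ) + 2 * a * H ≤ 2 * a * (H + 1) := by linarith
      have h4 : ((r : ℝ) + 2 * a * H) ^ 2 ≤ (2 * a * (H + 1)) ^ 2 :=
        pow_le_pow_left₀ (by positivity) h3 2
      have h5 : 2 * ((H : ℝ) + 1) ^ 2 ≤ 3 * H ^ 2 := by nlinarith
      calc ((r : ℝ) + 2 * a * H) ^ 2 ≤ (2 * a * (H + 1)) ^ 2 := h4
        _ = 2 * a ^ 2 * (2 * ((H : ℝ) + 1) ^ 2) := by ring
        _ ≤ 2 * a ^ 2 * (3 * H ^ 2) := mul_le_mul_of_nonneg_left h5 (by positivity)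
        _ = _ := by ring
    · rw [hCr]
      push_cast
      rw [hAr, Real.mul_rpow (by positivity) (by positivity)]
      have h1 : (2 * (a : ℝ)) ^ γ ≤ 2 * a := by
        have := Real.rpow_le_rpow_of_exponent_le (x := 2 * (a : ℝ)) (by linarith) hγ1
        rwa [Real.rpow_one] at this
      exact mul_le_mul h1 hN (by positivity) (by positivity)
    · rw [hC]
      exact Nat.mul_le_mul_left _ hHN
  have key2 : ∀ r : ℤ, ∃ Ex : Finset ℕ, (#Ex : ℝ) ≤ δ * η / (80 * a ^ 3) * C ∧ (0 ≤ r → r < 2 * a →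
      ∀ c ∈ Icc 1 C, c ∉ Ex → Q (2 * A * N) (r + 2 * a * H) c) := by
    intro r
    by_cases hr : 0 ≤ r ∧ r < 2 * a
    · obtain ⟨E, -, h1, h2⟩ := key r hr.1 hr.2
      exact ⟨E, h1, fun _ _ => h2⟩
    · refine ⟨∅, by simp; positivity, fun h1 h2 => absurd ⟨h1, h2⟩ hr⟩
  choose E hE1 hE2 using key2
  refine ⟨(Icc (-(H : ℤ)) H ×ˢ Icc (-(H : ℤ)) H).filter
      (fun q : ℤ × ℤ => (cc a H q.1 q.2).toNat ∈ E (q.1 % (2 * a))), filter_subset _ _, ?_, ?_⟩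
  · refine (card_exc ha (by omega) E hδ hE1 hHδ hδ1).trans ?_
    rw [hCr]
    have h1 : 4 * (a : ℝ) * (5 * a / δ) * (δ * η / (80 * a ^ 3) * (2 * a * H ^ 2)) = η / 2 * H ^ 2 := by
      field_simp
      ring
    rw [h1]
    have h2 : 9 * δ * (H : ℝ) ^ 2 ≤ η / 2 * H ^ 2 := mul_le_mul_of_nonneg_right (by linarith) (by positivity)
    linarith
  · intro q hq hqE
    have hq' := hq
    rw [mem_product, mem_Icc, mem_Icc] at hq'
    have hb : |q.1| ≤ (H : ℤ) := abs_le.2 hq'.1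
    have hc : |q.2| ≤ (H : ℤ) := abs_le.2 hq'.2
    refine ⟨sh_bd ha (by omega) hb, ?_⟩
    obtain ⟨k1, k2⟩ := cc_bd ha (by omega : 4 ≤ H) hb hc
    have h2a : 0 < 2 * a := by omega
    have h := hE2 (q.1 % (2 * a)) (Int.emod_nonneg _ h2a.ne') (Int.emod_lt_of_pos _ h2a) (cc a H q.1 q.2).toNat ?_ ?_
    · rw [← sh_b a H q.1] at h
      have h3 : (((cc a H q.1 q.2).toNat : ℕ) : ℤ) = q.2 + q.1 * sh a H q.1 + a * sh a H q.1 ^ 2 := by
        have : (((cc a H q.1 q.2).toNat : ℕ) : ℤ) = cc a H q.1 q.2 := by omega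
        rw [this]
        rfl
      rw [h3] at h
      rw [hAt]
      exact h
    · rw [mem_Icc]
      refine ⟨by omega, ?_⟩
      have h4 : (((cc a H q.1 q.2).toNat : ℕ) : ℤ) ≤ (C : ℤ) := by
        have : (((cc a H q.1 q.2).toNat : ℕ) : ℤ) = cc a H q.1 q.2 := by omega
        rw [this, hC]
        push_cast
        rw [hA]
        exact k2
      exact_mod_cast h4
    · intro hcon
      exact hqE (mem_filter.2 ⟨hq, hcon⟩)

/-! ### invariance under the shift -/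

lemma fv_shift (a b c s : ℤ) (m n : ℕ) (h : (m : ℤ) = n + s) :
    fv a b c m = fv a (b + 2 * a * s) (c + b * s + a * s ^ 2) n := by
  unfold fv; rw [h]; ring

lemma disc_shift (a b c s : ℤ) : (b + 2 * a * s) ^ 2 - 4 * a * (c + b * s + a * s ^ 2) = b ^ 2 - 4 * a * c := by ring

lemma adm_shift {a b c : ℤ} (s : ℤ) (h : Admissible a b c) : Admissible a (b + 2 * a * s) (c + b * s + a * s ^ 2) := by
  obtain ⟨h1, h2, h3, h4⟩ := h
  refine ⟨h1, ?_, ?_, ?_⟩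
  · intro d hda hdb hdc
    have e1 : d ∣ b := by
      have : b = (b + 2 * a * s) - a * (2 * s) := by ring
      rw [this]
      exact dvd_sub hdb (dvd_mul_of_dvd_left hda _)
    have e2 : d ∣ c := by
      have : c = (c + b * s + a * s ^ 2) - (b * s + a * s ^ 2) := by ring
      rw [this]
      exact dvd_sub hdc (dvd_add (dvd_mul_of_dvd_left e1 _) (dvd_mul_of_dvd_left hda _))
    exact h2 d hda e1 e2
  · rintro ⟨e1, e2⟩
    apply h3
    have e3 : (2 : ℤ) ∣ a + b := by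
      have : a + b = (a + (b + 2 * a * s)) - 2 * (a * s) := by ring
      rw [this]
      exact dvd_sub e1 (dvd_mul_right _ _)
    refine ⟨e3, ?_⟩
    have : c = (c + b * s + a * s ^ 2) - ((a + b) * s + a * (s * (s - 1))) := by ring
    rw [this]
    refine dvd_sub e2 (dvd_add (dvd_mul_of_dvd_left e3 _) (dvd_mul_of_dvd_right ?_ _))
    have := Int.even_mul_pred_self s
    exact this.two_dvd
  · rw [disc_shift]
    exact h4

lemma eps_shift (a b s : ℤ) : eps a (b + 2 * a * s) = eps a b := by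
  unfold eps
  have : (2 : ℤ) ∣ a + (b + 2 * a * s) ↔ (2 : ℤ) ∣ a + b := by
    have e : a + (b + 2 * a * s) = (a + b) + 2 * (a * s) := by ring
    rw [e]
    exact dvd_add_left (dvd_mul_right _ _)
  simp only [this]

lemma gcd_shift (a b s : ℤ) : gcdProd a (b + 2 * a * s) = gcdProd a b := by
  unfold gcdProd
  have : Int.gcd a (b + 2 * a * s) = Int.gcd a b := by
    have e : b + 2 * a * s = b + a * (2 * s) := by ring
    rw [e, Int.gcd_add_mul_left_right]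
  rw [this]

lemma partialC_shift (a b c s : ℤ) (z : ℕ) :
    partialC a (b + 2 * a * s) (c + b * s + a * s ^ 2) z = partialC a b c z := by
  unfold partialC
  rw [disc_shift]

/-- the shift of a sum over a window -/
lemma win_shift (g : ℤ → ℝ) {B : ℝ} (hB : ∀ n, |g n| ≤ B) (s : ℤ) {u v : ℕ} (huv : u ≤ v) :
    |∑ m ∈ Ioc u v, g m - ∑ n ∈ Ioc ((u : ℤ) - s).toNat ((v : ℤ) - s).toNat, g (n + s)| ≤ s.natAbs * B := by
  classical
  have hB0 : 0 ≤ B := (abs_nonneg _).trans (hB 0)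
  have h1 : ∑ n ∈ Ioc ((u : ℤ) - s).toNat ((v : ℤ) - s).toNat, g (n + s) =
      ∑ m ∈ (Ioc u v).filter (fun m : ℕ => s < m), g m := by
    refine sum_nbij' (fun n : ℕ => ((n : ℤ) + s).toNat) (fun m : ℕ => ((m : ℤ) - s).toNat) ?_ ?_ ?_ ?_ ?_
    · intro n hn
      rw [mem_Ioc] at hn
      rw [mem_filter, mem_Ioc]
      omega
    · intro m hm
      rw [mem_filter, mem_Ioc] at hm
      rw [mem_Ioc]
      omega
    · intro n hn
      rw [mem_Ioc] at hn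
      omega
    · intro m hm
      rw [mem_filter, mem_Ioc] at hm
      omega
    · intro n hn
      rw [mem_Ioc] at hn
      congr 1
      omega
  rw [h1]
  have h2 : ∑ m ∈ Ioc u v, g m = ∑ m ∈ (Ioc u v).filter (fun m : ℕ => s < m), g m +
      ∑ m ∈ (Ioc u v).filter (fun m : ℕ => ¬ s < m), g m := (sum_filter_add_sum_filter_not _ _ _).symm
  rw [h2, add_sub_cancel_left]
  refine (abs_sum_le_sum_abs _ _).trans ((sum_le_card_nsmul _ (fun m : ℕ => |g m|) B fun m _ => hB _).trans ?_)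
  rw [nsmul_eq_mul]
  refine mul_le_mul_of_nonneg_right ?_ hB0
  have h3 : (Ioc u v).filter (fun m : ℕ => ¬ s < m) ⊆ Icc 1 s.natAbs := by
    intro m hm
    rw [mem_filter, mem_Ioc] at hm
    rw [mem_Icc]
    omega
  have h4 := card_le_card h3
  rw [Nat.card_Icc] at h4
  exact_mod_cast (by omega : #((Ioc u v).filter (fun m : ℕ => ¬ s < m)) ≤ s.natAbs)

lemma inv_log_int (n : ℤ) : |1 / Real.log (n : ℝ)| ≤ 2 := by
  by_cases h : 2 ≤ |n|
  · rw [abs_div, abs_one]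
    have h2 : (2 : ℝ) ≤ |(n : ℝ)| := by exact_mod_cast h
    have h3 : Real.log 2 ≤ Real.log |(n : ℝ)| := Real.log_le_log (by norm_num) h2
    rw [Real.log_abs] at h3
    have h4 : (1 : ℝ) / 2 ≤ Real.log 2 := by have := Real.log_two_gt_d9; linarith
    have h5 : (1 : ℝ) / 2 ≤ |Real.log (n : ℝ)| := (h4.trans h3).trans (le_abs_self _)
    rw [div_le_iff₀ (by linarith)]
    linarith
  · have h' : n = 0 ∨ n = 1 ∨ n = -1 := by
      rw [not_le] at h
      have := abs_lt.1 h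
      omega
    rcases h' with h | h | h <;> rw [h] <;> simp

/-- **the Hardy-Littlewood formula after a shift** -/
theorem count_shift {a b c s : ℤ} {S E : ℝ} {x u v : ℕ} (huv : u ≤ v) (hv : v + s.natAbs ≤ x)
    (hM : 0 ≤ eps a b * S * gcdProd a b)
    (h : ∀ u v : ℕ, u ≤ v → v ≤ x →
      |(#((Ioc u v).filter (fun m : ℕ => (fv a (b + 2 * a * s) (c + b * s + a * s ^ 2) m).toNat.Prime)) : ℝ) -
        eps a (b + 2 * a * s) * S * gcdProd a (b + 2 * a * s) *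
          ∑ m ∈ Ioc u v, 1 / Real.log ((a : ℝ) * m ^ 2 + (b + 2 * a * s : ℤ) * m + (c + b * s + a * s ^ 2 : ℤ))| ≤ E) :
    |(#((Ioc u v).filter (fun m : ℕ => (fv a b c m).toNat.Prime)) : ℝ) -
      eps a b * S * gcdProd a b * ∑ m ∈ Ioc u v, 1 / Real.log ((a : ℝ) * m ^ 2 + b * m + c)| ≤
      E + s.natAbs * (1 + 2 * (eps a b * S * gcdProd a b)) := by
  classical
  have h0 := h ((u : ℤ) - s).toNat ((v : ℤ) - s).toNat (by omega) (by omega)
  rw [eps_shift, gcd_shift] at h0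
  obtain ⟨M, hMe⟩ : ∃ M : ℝ, M = eps a b * S * gcdProd a b := ⟨_, rfl⟩
  rw [← hMe] at hM h0 ⊢
  obtain ⟨g1, hg1⟩ : ∃ g1 : ℤ → ℝ, g1 = fun n : ℤ => if (a * n ^ 2 + b * n + c).toNat.Prime then (1 : ℝ) else 0 := ⟨_, rfl⟩
  obtain ⟨g2, hg2⟩ : ∃ g2 : ℤ → ℝ, g2 = fun n : ℤ => 1 / Real.log ((a * n ^ 2 + b * n + c : ℤ) : ℝ) := ⟨_, rfl⟩
  have w1 := win_shift g1 (B := 1) (fun n => by rw [hg1]; simp only; split_ifs <;> simp) s huv
  have w2 := win_shift g2 (B := 2) (fun n => by rw [hg2]; exact inv_log_int _) s huv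
  have e1 : (#((Ioc u v).filter (fun m : ℕ => (fv a b c m).toNat.Prime)) : ℝ) = ∑ m ∈ Ioc u v, g1 m := by
    rw [hg1]
    simp only [fv]
    rw [sum_boole]
    all_goals congr!
  have e2 : ∑ m ∈ Ioc u v, 1 / Real.log ((a : ℝ) * m ^ 2 + b * m + c) = ∑ m ∈ Ioc u v, g2 m := by
    rw [hg2]
    refine sum_congr rfl fun m _ => ?_
    simp only
    push_cast
    rfl
  have e3 : (#((Ioc ((u : ℤ) - s).toNat ((v : ℤ) - s).toNat).filter
      (fun m : ℕ => (fv a (b + 2 * a * s) (c + b * s + a * s ^ 2) m).toNat.Prime)) : ℝ) =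
      ∑ n ∈ Ioc ((u : ℤ) - s).toNat ((v : ℤ) - s).toNat, g1 (n + s) := by
    rw [hg1, card_filter]
    push_cast
    refine sum_congr rfl fun n _ => ?_
    rw [fv]
    have : a * (n : ℤ) ^ 2 + (b + 2 * a * s) * n + (c + b * s + a * s ^ 2) = a * ((n : ℤ) + s) ^ 2 + b * (n + s) + c := by ring
    rw [this]
  have e4 : ∑ m ∈ Ioc ((u : ℤ) - s).toNat ((v : ℤ) - s).toNat,
      1 / Real.log ((a : ℝ) * m ^ 2 + (b + 2 * a * s : ℤ) * m + (c + b * s + a * s ^ 2 : ℤ)) =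
      ∑ n ∈ Ioc ((u : ℤ) - s).toNat ((v : ℤ) - s).toNat, g2 (n + s) := by
    rw [hg2]
    refine sum_congr rfl fun n _ => ?_
    simp only
    push_cast
    congr 2
    ring
  rw [e3, e4] at h0
  rw [e1, e2]
  have t1 := abs_le.1 h0
  have t2 := abs_le.1 w1
  have t3 := abs_le.1 w2
  have t4 : |M * (∑ m ∈ Ioc u v, g2 m - ∑ n ∈ Ioc ((u : ℤ) - s).toNat ((v : ℤ) - s).toNat, g2 (n + s))| ≤
      M * (s.natAbs * 2) := by
    rw [abs_mul, abs_of_nonneg hM]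
    exact mul_le_mul_of_nonneg_left w2 hM
  have t5 := abs_le.1 t4
  rw [abs_le]
  constructor <;> linarith [t1.1, t1.2, t2.1, t2.2, t5.1, t5.2]

end Pool.Agent.N791.U
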