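import Mathlib
import Pool.Agent.N792.RXE
import Pool.Agent.N791.U.T23

/-!
Products of two primes, uniformly in `b` (helper791, after helper136 and helper792).
-/

set_option autoImplicit false

namespace Pool.Agent.N791.U

open Finset Filter Topology Pool.Agent.N792

open XEa XEb in
theorem xe_smallU (a : ℤ) (ha : 0 < a) (Λ : ℝ) (hΛ : 1 ≤ Λ) (hq1 : Q1) (hq4 : Q4) (hR1 : R1U a Λ) (hR2 : R2U a)
    (hMT : MTU a Λ) (hX1 : X1) (hS2 : S2U a Λ) (hX8 : X8U a Λ) (ε : ℝ) (R A : ℕ) (hε : 0 < ε) (hε1 : ε ≤ 1 / 100)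
    (hR : 1 ≤ R) : ∃ x0 : ℕ, ∀ x : ℕ, x0 ≤ x → ∀ b : ℤ, ∀ C : ℕ, (b : ℝ) ^ 2 ≤ Λ * C →
    (x : ℝ) ^ (1 / 2 + ε) ≤ C → C ≤ x →
    ∃ Ex ⊆ Icc 1 C, (#Ex : ℝ) ≤ C / Real.log x ^ A ∧ ∀ c ∈ Icc 1 C, c ∉ Ex → Admissible a b c →
      ∃ S : ℝ, 0 < S ∧ Tendsto (fun y => partialC a b c y) atTop (𝓝 S) ∧
        ∀ u v y1 y2 : ℕ, x ≤ R * u → u ≤ v → v ≤ x → (x : ℝ) ^ (3 / 2 + ε) ≤ C * y1 → y1 ≤ y2 →
          (y2 : ℝ) ≤ (x : ℝ) ^ (1 - ε) →
          |(cnt2 a b c u v y1 y2 : ℝ) - eps a b * S * gcdProd a b * ∑ m ∈ Ioc u v, ∑ p ∈ (Ioc y1 y2).filter Nat.Prime,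
            1 / ((p : ℝ) * Real.log (((a : ℝ) * m ^ 2 + b * m + c) / p))| ≤ x / Real.log x ^ A := by
  classical
  -- parameters
  obtain ⟨B, hB⟩ : ∃ B : ℕ, B = A + 6 := ⟨_, rfl⟩
  obtain ⟨D, hD⟩ : ∃ D : ℕ, D = A + 4 := ⟨_, rfl⟩
  obtain ⟨U, hU⟩ : ∃ U : ℕ, U = A + 6 := ⟨_, rfl⟩
  obtain ⟨A', hA'⟩ : ∃ A' : ℕ, A' = (2 * B + 2) + D + A + 1 := ⟨_, rfl⟩
  obtain ⟨As, hII⟩ := type_two3U hq1 hq4 a ha Λ hΛ hR1 hR2 hMT A'
  obtain ⟨W, hW⟩ : ∃ W : ℕ, W = max As (3 * U + 9) := ⟨_, rfl⟩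
  obtain ⟨E, hE⟩ : ∃ E : ℕ, E = max (2 * W) (As + 6) := ⟨_, rfl⟩
  obtain ⟨xII, hII⟩ := hII E (2 * R) (1 / 8) (ε / 2) (by norm_num) (by positivity) (by linarith)
  obtain ⟨xX1, hX1⟩ := hX1 (1 / 8) (by norm_num) As E
  obtain ⟨xS2, hS2⟩ := hS2 (2 * R) (A + 6)
  obtain ⟨xX8, hX8⟩ := hX8 U E
  have ev1 : ∀ᶠ x : ℕ in atTop, (4 * (R : ℝ) + 200) ≤ Real.log x := Shp.log_ge _
  have ev2 := Shp.inv_V1_le E
  have ev3 := Shp.log_pow_le E 1 (1 / 5) (by norm_num)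
  have ev4 := Shp.log_pow_le 0 2 (ε / 2) (by positivity)
  have ev5 := Shp.log_pow_le 0 (16 * (R : ℝ) ^ 2 + 1) (7 / 8) (by norm_num)
  have ev6 := Shp.log_pow_le 0 2 (3 / 8) (by norm_num)
  have ev7 := Shp.log_pow_le 0 a (1 / 2) (by norm_num)
  have ev8 := Shp.log_pow_le B 2 (1 / 2) (by norm_num)
  have ev9 : ∀ᶠ x : ℕ in atTop, 24 * R ^ 2 + 10 ≤ x := eventually_ge_atTop _
  have evb := ev_bn Λ hΛ (4 * R)
  have ev10 := Shp.log_pow_le B 1 1 (by norm_num)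
  have ev11 := Shp.log_pow_le 0 12 (1 / 2) (by norm_num)
  obtain ⟨xe, hxe⟩ := eventually_atTop.1 (((((((((((ev1.and ev2).and ev3).and ev4).and ev5).and ev6).and ev7).and
    ev8).and ev9).and ev10).and ev11).and evb)
  refine ⟨max (max xII xX1) (max (max xS2 xX8) xe), fun x hx b C hbC hC1 hC2 => ?_⟩
  have hbX : (b : ℝ) ^ 2 ≤ Λ * x := hbC.trans (mul_le_mul_of_nonneg_left (by exact_mod_cast hC2) (by linarith))
  simp only [max_le_iff] at hx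
  obtain ⟨⟨hxII, hxX1⟩, ⟨hxS2, hxX8⟩, hxe'⟩ := hx
  obtain ⟨⟨⟨⟨⟨⟨⟨⟨⟨⟨⟨g1, g2⟩, g3⟩, g4⟩, g5⟩, g6⟩, g7⟩, g8⟩, g9⟩, g10⟩, g11⟩, gb⟩ := hxe x hxe'
  have gb := gb b hbX
  clear hxe evb ev1 ev2 ev3 ev4 ev5 ev6 ev7 ev8 ev9 ev10 ev11
  simp only [pow_zero, mul_one, one_mul, Real.rpow_one] at g3 g4 g5 g6 g7 g8 g10 g11
  obtain ⟨L, hL⟩ : ∃ L : ℝ, Real.log x = L := ⟨_, rfl⟩
  have hR' : (1 : ℝ) ≤ R := by exact_mod_cast hR
  have hx0 : 0 < x := by omega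
  have hx0' : (0 : ℝ) < x := by exact_mod_cast hx0
  have hx1' : (1 : ℝ) ≤ x := by exact_mod_cast hx0
  have hL200 : 200 ≤ L := by rw [← hL]; linarith
  have h24 : 24 * (R : ℝ) ^ 2 ≤ x := by
    have : 24 * R ^ 2 ≤ x := by omega
    exact_mod_cast this
  have hL1 : 1 ≤ L := by linarith
  have hLpos : 0 < L := by linarith
  rw [hL] at g1 g3 g8 g10
  -- the levels
  obtain ⟨Jw, hJ1, hJ2⟩ := exists_Jw (Y := L ^ W) (by
    have : L ^ 1 ≤ L ^ W := pow_le_pow_right₀ hL1 (by omega)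
    rw [pow_one] at this; linarith)
  obtain ⟨w, hw⟩ : ∃ w : ℕ, w = 2 ^ 2 ^ Jw := ⟨_, rfl⟩
  rw [← hw] at hJ1 hJ2
  obtain ⟨ts, ht1, ht2⟩ := exists_pow_two (Y := L ^ (As + 5)) (one_le_pow₀ hL1)
  have hwE : (w : ℝ) ≤ L ^ E := by
    refine hJ2.trans ?_
    rw [← pow_mul]
    exact pow_le_pow_right₀ hL1 (by omega)
  have hwAs : L ^ As ≤ (w : ℝ) := (pow_le_pow_right₀ hL1 (by omega)).trans hJ1
  have hwU : L ^ (3 * U + 9) ≤ (w : ℝ) := (pow_le_pow_right₀ hL1 (by omega)).trans hJ1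
  have htE : (2 : ℝ) ^ ts ≤ L ^ E := by
    refine ht2.trans ?_
    calc 2 * L ^ (As + 5) ≤ L * L ^ (As + 5) := by gcongr; linarith
      _ = L ^ (As + 6) := by ring
      _ ≤ L ^ E := pow_le_pow_right₀ hL1 (by omega)
  -- z
  obtain ⟨z, hz⟩ : ∃ z : ℕ, z = ⌈(x : ℝ) ^ (1 / 8 : ℝ)⌉₊ := ⟨_, rfl⟩
  have hz1 : (x : ℝ) ^ (1 / 8 : ℝ) ≤ z := by rw [hz]; exact Nat.le_ceil _
  have hz2 : (z : ℝ) ≤ 2 * (x : ℝ) ^ (1 / 8 : ℝ) := by
    have h1 : (z : ℝ) < (x : ℝ) ^ (1 / 8 : ℝ) + 1 := by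
      rw [hz]; exact Nat.ceil_lt_add_one (by positivity)
    have h2 : (1 : ℝ) ≤ (x : ℝ) ^ (1 / 8 : ℝ) := Real.one_le_rpow hx1' (by norm_num)
    linarith
  have hz3 : (z : ℝ) ≤ (x : ℝ) ^ (1 / 2 : ℝ) := by
    refine hz2.trans ?_
    calc 2 * (x : ℝ) ^ (1 / 8 : ℝ) ≤ (x : ℝ) ^ (3 / 8 : ℝ) * (x : ℝ) ^ (1 / 8 : ℝ) := by gcongr
      _ = (x : ℝ) ^ (1 / 2 : ℝ) := by rw [← Real.rpow_add hx0']; norm_num
  have hz4 : z ≤ x := by
    have h1 : (x : ℝ) ^ (1 / 2 : ℝ) ≤ (x : ℝ) ^ (1 : ℝ) :=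
      Real.rpow_le_rpow_of_exponent_le hx1' (by norm_num)
    rw [Real.rpow_one] at h1
    exact_mod_cast hz3.trans h1
  -- Y
  obtain ⟨Y, hY⟩ : ∃ Y : ℕ, Y = ⌊(x : ℝ) ^ (1 - ε)⌋₊ := ⟨_, rfl⟩
  have hY1 : (Y : ℝ) ≤ (x : ℝ) ^ (1 - ε) := by rw [hY]; exact Nat.floor_le (by positivity)
  have hY2 : (Y : ℝ) ≤ (x : ℝ) ^ (1 - ε / 2) :=
    hY1.trans (Real.rpow_le_rpow_of_exponent_le hx1' (by linarith))
  have hY3 : Y ≤ x := by
    have h1 : (x : ℝ) ^ (1 - ε) ≤ (x : ℝ) ^ (1 : ℝ) :=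
      Real.rpow_le_rpow_of_exponent_le hx1' (by linarith)
    rw [Real.rpow_one] at h1
    exact_mod_cast hY1.trans h1
  have hzY : (z : ℝ) * Y < (x : ℝ) ^ 2 / (8 * (R : ℝ) ^ 2) := by
    rw [lt_div_iff₀ (by positivity)]
    have h1 : (z : ℝ) * Y ≤ 2 * (x : ℝ) ^ (1 / 8 : ℝ) * x := by
      have : (Y : ℝ) ≤ x := by exact_mod_cast hY3
      exact mul_le_mul hz2 this (Nat.cast_nonneg _) (by positivity)
    have h2 : (x : ℝ) ^ (7 / 8 : ℝ) * (x : ℝ) ^ (1 / 8 : ℝ) = x := by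
      rw [← Real.rpow_add hx0']; norm_num
    have h3 : 0 < (x : ℝ) ^ (1 / 8 : ℝ) := by positivity
    calc (z : ℝ) * Y * (8 * (R : ℝ) ^ 2) ≤ 2 * (x : ℝ) ^ (1 / 8 : ℝ) * x * (8 * (R : ℝ) ^ 2) := by
          gcongr
      _ = (16 * (R : ℝ) ^ 2) * ((x : ℝ) ^ (1 / 8 : ℝ) * x) := by ring
      _ < (x : ℝ) ^ (7 / 8 : ℝ) * ((x : ℝ) ^ (1 / 8 : ℝ) * x) := by
          apply mul_lt_mul_of_pos_right _ (by positivity)
          linarith
      _ = ((x : ℝ) ^ (7 / 8 : ℝ) * (x : ℝ) ^ (1 / 8 : ℝ)) * x := by ring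
      _ = (x : ℝ) ^ 2 := by rw [h2]; ring
  -- the grid
  obtain ⟨n, hn⟩ : ∃ n : ℕ, n = ⌈L ^ B⌉₊ := ⟨_, rfl⟩
  have hLB1 : 1 ≤ L ^ B := one_le_pow₀ hL1
  have hLB0 : 0 < L ^ B := by positivity
  have hn1 : L ^ B ≤ n := by rw [hn]; exact Nat.le_ceil _
  have hn2 : (n : ℝ) ≤ 2 * L ^ B := by
    have : (n : ℝ) < L ^ B + 1 := by rw [hn]; exact Nat.ceil_lt_add_one (by positivity)
    linarith
  have hLn : L ≤ n := by
    calc L = L ^ 1 := (pow_one L).symm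
      _ ≤ L ^ B := pow_le_pow_right₀ hL1 (by omega)
      _ ≤ n := hn1
  have hn200 : (200 : ℝ) ≤ n := hL200.trans hLn
  have hn4 : 4 ≤ n := by
    have : (4 : ℝ) ≤ n := by linarith
    exact_mod_cast this
  have hn0 : (0 : ℝ) < n := by linarith
  obtain ⟨gx, hgx⟩ : ∃ gx : ℕ → ℕ, gx = fun k => k * x / n := ⟨_, rfl⟩
  obtain ⟨gy, hgy⟩ : ∃ gy : ℕ → ℕ, gy = fun j : ℕ => ⌊Real.exp ((j : ℝ) / n)⌋₊ := ⟨_, rfl⟩
  obtain ⟨P, hP⟩ : ∃ P : Finset (ℕ × ℕ), P = (range (n + 1) ×ˢ range (⌊n * L⌋₊ + 1)).filter (fun t =>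
      gx t.1 < x ∧ x ≤ 2 * R * gx t.1 ∧ (x : ℝ) ^ (3 / 2 + ε / 2) ≤ C * gy t.2 ∧ gy t.2 ≤ Y) := ⟨_, rfl⟩
  have hPc : (#P : ℝ) ≤ L ^ (2 * B + 2) := by
    refine le_trans ?_ (grid_card (by linarith : (16 : ℝ) ≤ L) B n hn2 (by omega))
    rw [hP]
    exact_mod_cast card_filter_le _ _
  obtain ⟨Err, hErr⟩ : ∃ Err : ℕ × ℕ → ℕ → ℝ, Err = fun t c =>
      |Lc a b (gx t.1) x c (FF z (gy t.2) Y) - Vc a b c w / V1 w * Ls a b (gx t.1) x (FF z (gy t.2) Y)| := ⟨_, rfl⟩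
  have hErr0 : ∀ t c, 0 ≤ Err t c := fun t c => by rw [hErr]; exact abs_nonneg _
  have hXX := (hX1 x hxX1 z 0 0 0 0 Jw ts hz1 hz4 (by rw [hL, ← hw]; exact hwAs)
    (by rw [hL, ← hw]; exact hwE) (by rw [hL]; exact ht1) (by rw [hL]; exact htE)).1
  have hII' : ∀ t ∈ P, ∑ c ∈ Icc 1 C, Err t c ≤ C * x / L ^ A' := by
    intro t ht
    rw [hP, mem_filter] at ht
    obtain ⟨-, t1, t2, t3, t4⟩ := ht
    have h := hII x hxII b (gx t.1) C z (gy t.2) Y Jw ts hbC t1 t2 t3 hC2 hz1 hz4 t4 hY2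
      (by rw [hL, ← hw]; exact hwE) (by rw [hL]; exact ht1) (by rw [hL]; exact htE) pi0 pi0
      (fun m _ _ => by
        rw [pi0_eq, hL]
        have : (1 : ℝ) ≤ L ^ 2 := one_le_pow₀ hL1
        split_ifs
        · rw [abs_one]; exact this
        · rw [abs_zero]; positivity) hXX
    rw [hL, ← hw] at h
    rw [hErr]
    exact h
  have hsum : ∑ c ∈ Icc 1 C, ∑ t ∈ P, Err t c ≤ L ^ (2 * B + 2) * (C * x / L ^ A') := by
    rw [sum_comm]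
    calc ∑ t ∈ P, ∑ c ∈ Icc 1 C, Err t c ≤ ∑ t ∈ P, (C * x / L ^ A' : ℝ) := sum_le_sum hII'
      _ = #P * (C * x / L ^ A') := by rw [sum_const, nsmul_eq_mul]
      _ ≤ L ^ (2 * B + 2) * (C * x / L ^ A') := by
          apply mul_le_mul_of_nonneg_right hPc (by positivity)
  have hsum2 : L ^ (2 * B + 2) * (C * x / L ^ A') / (x / L ^ D) = C / L ^ (A + 1) := by
    have e : L ^ A' = L ^ (2 * B + 2) * L ^ D * L ^ (A + 1) := by
      rw [hA', ← pow_add, ← pow_add]; congr 1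
    rw [e]
    have h1 : L ^ (2 * B + 2) ≠ 0 := by positivity
    have h2 : L ^ D ≠ 0 := by positivity
    have h3 : L ^ (A + 1) ≠ 0 := by positivity
    field_simp
  obtain ⟨E1, hE1⟩ : ∃ E1 : Finset ℕ, E1 = (Icc 1 C).filter (fun c => x / L ^ D < ∑ t ∈ P, Err t c) := ⟨_, rfl⟩
  have hE1c : (#E1 : ℝ) ≤ C / L ^ (A + 1) := by
    rw [← hsum2, hE1]
    exact card_markov (fun c => sum_nonneg fun t _ => hErr0 t c) (by positivity) hsum
  have hC3 : (x : ℝ) ^ (1 / 2 : ℝ) ≤ C :=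
    (Real.rpow_le_rpow_of_exponent_le hx1' (by linarith)).trans hC1
  have hC0 : (0 : ℝ) < C := lt_of_lt_of_le (by positivity) hC3
  obtain ⟨E2, hE2s, hE2c, hE2⟩ := hX8 x hxX8 b hbX C hC3 hC2 w w (by rw [hL]; exact hwU) (by rw [hL]; exact hwE)
    le_rfl (hwE.trans g3)
  rw [hL] at hE2c
  refine ⟨E1 ∪ E2, ?_, ?_, ?_⟩
  · refine union_subset ?_ hE2s
    rw [hE1]; exact filter_subset _ _
  · rw [hL]
    have h1 : (#(E1 ∪ E2) : ℝ) ≤ #E1 + #E2 := by exact_mod_cast card_union_le _ _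
    have h2 : (C : ℝ) / L ^ U ≤ C / L ^ (A + 1) :=
      div_le_div_of_nonneg_left hC0.le (by positivity) (pow_le_pow_right₀ hL1 (by omega))
    have h3 : 2 * ((C : ℝ) / L ^ (A + 1)) ≤ C / L ^ A := by
      rw [pow_succ, ← div_div, mul_div_assoc', div_le_iff₀ hLpos]
      have : 0 ≤ (C : ℝ) / L ^ A := by positivity
      exact aux1 this (by linarith)
    linarith
  intro c hc hcE hadm
  rw [mem_union, not_or] at hcE
  obtain ⟨c1, c2⟩ := hcE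
  obtain ⟨-, hsing⟩ := hE2 c hc c2
  obtain ⟨S0, hS0, hSt, hSS⟩ := hsing hadm
  refine ⟨S0, hS0, hSt, ?_⟩
  rw [mem_Icc] at hc
  rw [hL] at hSS ⊢
  obtain ⟨κ, hκ⟩ : ∃ κ : ℝ, κ = eps a b * S0 * gcdProd a b := ⟨_, rfl⟩
  obtain ⟨Sc, hSc⟩ : ∃ Sc : ℝ, Sc = Vc a b c w / V1 w := ⟨_, rfl⟩
  rw [← hκ, ← hSc] at hSS
  have hV := Vc_bounds a b c w
  have hV1 : 0 < V1 w := Shp.V1_pos w
  have hSc0 : 0 ≤ Sc := by rw [hSc]; exact div_nonneg hV.1 hV1.le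
  have hScL : Sc ≤ L := by
    have h1 := g2 w (by rw [hL]; exact hwE)
    rw [hL] at h1
    refine le_trans ?_ h1
    rw [hSc]
    exact div_le_div_of_nonneg_right hV.2 hV1.le
  have hLU : 1 ≤ L ^ U := one_le_pow₀ hL1
  have hScU : Sc / L ^ U ≤ Sc := div_le_self hSc0 hLU
  have hκ0 : 0 ≤ κ := by
    have := (abs_le.1 hSS).1
    linarith
  have hκ2 : κ ≤ 2 * L := by
    have := (abs_le.1 hSS).2
    linarith
  -- the corners
  have hcorner : ∀ u y : ℕ, x ≤ R * u → u ≤ x → (x : ℝ) ^ (3 / 2 + ε) ≤ C * y → y ≤ Y →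
      |S (pc a b c) u x y Y - κ * S (pm a b c) u x y Y| ≤ 46 * (x / L ^ (A + 4)) := by
    intro u y hRu hux hCy hyY
    rcases hux.eq_or_lt with hux' | hux'
    · subst hux'
      have e : ∀ Φ : ℕ → ℕ → ℝ, S Φ u u y Y = 0 := fun Φ => by unfold S; simp
      rw [e, e, mul_zero, sub_zero, abs_zero]
      positivity
    -- the size of y
    have hCx : (C : ℝ) ≤ x := by exact_mod_cast hC2
    have hy1 : 2 * (x : ℝ) ^ (1 / 2 : ℝ) ≤ y := by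
      have h1 : (x : ℝ) ^ (3 / 2 + ε) ≤ x * y := hCy.trans
        (mul_le_mul_of_nonneg_right hCx (Nat.cast_nonneg _))
      have h2 : (x : ℝ) ^ (3 / 2 + ε) = x * ((x : ℝ) ^ (1 / 2 : ℝ) * (x : ℝ) ^ ε) := by
        rw [← Real.rpow_add hx0', mul_comm, ← Real.rpow_add_one hx0'.ne']
        congr 1; ring
      rw [h2] at h1
      have h3 := le_of_mul_le_mul_left h1 hx0'
      have h4 : (2 : ℝ) ≤ (x : ℝ) ^ ε := g4.trans
        (Real.rpow_le_rpow_of_exponent_le hx1' (by linarith))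
      have h5 : 0 ≤ (x : ℝ) ^ (1 / 2 : ℝ) := by positivity
      have h6 := mul_le_mul_of_nonneg_left h4 h5
      linarith
    have hy12 : (12 : ℝ) ≤ y := by
      have : (12 : ℝ) ≤ (x : ℝ) ^ (1 / 2 : ℝ) := g11
      linarith
    have hy0 : 1 ≤ y := by
      have : (1 : ℝ) ≤ y := by linarith
      exact_mod_cast this
    obtain ⟨k, hk, hk1, hk2⟩ := grid_x hx0 (by omega : 0 < n) hux
    obtain ⟨j, hj1, hj2, hj3⟩ := grid_y hn4 hy0
    have hgk : gx k = k * x / n := by rw [hgx]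
    have hgj : gy j = ⌊Real.exp ((j : ℝ) / n)⌋₊ := by rw [hgy]
    rw [← hgk] at hk1 hk2
    rw [← hgj] at hj2 hj3
    obtain ⟨X, hX⟩ : ∃ X : ℕ, X = gx k := ⟨_, rfl⟩
    obtain ⟨Yj, hYj⟩ : ∃ Yj : ℕ, Yj = gy j := ⟨_, rfl⟩
    rw [← hX] at hk1 hk2
    rw [← hYj] at hj2 hj3
    have hYj2 : (y : ℝ) ≤ 2 * Yj := by
      have h1 : 1 + 2 / (n : ℝ) ≤ 101 / 100 := by
        have : 2 / (n : ℝ) ≤ 1 / 100 := by
          rw [div_le_div_iff₀ hn0 (by norm_num)]; linarith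
        linarith
      have h2 : (0 : ℝ) ≤ (Yj : ℝ) + 1 := by positivity
      have h3 := mul_le_mul_of_nonneg_left h1 h2
      linarith
    have hYjx : (x : ℝ) ^ (1 / 2 : ℝ) ≤ Yj := by linarith
    have hYjn : (n : ℝ) ≤ Yj := by linarith
    have hYj0 : (0 : ℝ) < Yj := by linarith
    have hux2 : (u : ℝ) - X ≤ 2 * x * (1 / L ^ B) := by
      have h1 : (x : ℝ) / n ≤ x * (1 / L ^ B) := by
        rw [div_eq_mul_one_div]
        exact mul_le_mul_of_nonneg_left (one_div_le_one_div_of_le hLB0 hn1) hx0'.le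
      have h2 : 1 ≤ (x : ℝ) * (1 / L ^ B) := by
        rw [mul_one_div, le_div_iff₀ hLB0, one_mul]; exact g10
      linarith
    have hRX : x ≤ 2 * R * X := by
      have h1 : (x : ℝ) ≤ R * u := by exact_mod_cast hRu
      have h2 : (R : ℝ) * (x / n) ≤ x / 4 := by
        rw [mul_div_assoc', div_le_iff₀ hn0]
        have : 4 * (R : ℝ) ≤ n := by linarith
        have h2' := mul_le_mul_of_nonneg_left this (by positivity : (0 : ℝ) ≤ x / 4)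
        linarith
      have h3 : 4 * (R : ℝ) ≤ x := by
        have : (R : ℝ) ≤ R ^ 2 := le_self_pow₀ hR' (by norm_num)
        linarith
      have h4 : (x : ℝ) ≤ 2 * R * X := by
        have h5 : (R : ℝ) * (u - X) ≤ R * (x / n + 1) := mul_le_mul_of_nonneg_left hk2 (by positivity)
        linarith
      exact_mod_cast h4
    have hval : ∀ m : ℕ, X ≤ m → ∀ c' : ℕ, (x : ℝ) ^ 2 / (8 * (R : ℝ) ^ 2) ≤ (a : ℝ) * m ^ 2 + b * m + ((c' : ℤ) : ℝ) ∧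
        0 ≤ fv a b c' m := by
      intro m hm c'
      refine fv_large ha (by omega) (hRX.trans (Nat.mul_le_mul_left _ hm)) gb
    have hbig : Real.exp 1 * x ≤ (x : ℝ) ^ 2 / (8 * (R : ℝ) ^ 2) := by
      rw [le_div_iff₀ (by positivity)]
      have h1 := Real.exp_one_lt_d9
      have h3 : Real.exp 1 * (8 * (R : ℝ) ^ 2) ≤ x := by
        have : Real.exp 1 * (8 * (R : ℝ) ^ 2) ≤ 3 * (8 * (R : ℝ) ^ 2) :=
          mul_le_mul_of_nonneg_right (by linarith) (by positivity)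
        linarith
      calc Real.exp 1 * x * (8 * (R : ℝ) ^ 2) = (Real.exp 1 * (8 * (R : ℝ) ^ 2)) * x := by ring
        _ ≤ (x : ℝ) * x := mul_le_mul_of_nonneg_right h3 hx0'.le
        _ = (x : ℝ) ^ 2 := by ring
    have hzYf : ∀ m : ℕ, X ≤ m → ∀ c' : ℕ, z * Y < (fv a b c' m).toNat := by
      intro m hm c'
      obtain ⟨v1, v2⟩ := hval m hm c'
      have h1 : ((z * Y : ℕ) : ℝ) < ((fv a b c' m : ℤ) : ℝ) := by
        push_cast
        refine hzY.trans_le (v1.trans (le_of_eq ?_))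
        unfold fv; push_cast; ring
      have h2 : ((z * Y : ℕ) : ℤ) < fv a b c' m := by exact_mod_cast h1
      omega
    have hzYj : z ≤ Yj := by exact_mod_cast hz3.trans hYjx
    have hYjY : Yj ≤ Y := hj2.trans hyY
    have haYj : a ≤ Yj := by
      have : (a : ℝ) ≤ Yj := g7.trans hYjx
      exact_mod_cast this
    -- the grid point
    have htP : (k, j) ∈ P := by
      rw [hP, mem_filter, mem_product]
      refine ⟨⟨hk, ?_⟩, ?_, ?_, ?_, ?_⟩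
      · rw [mem_range]
        have h1 : (j : ℝ) ≤ n * L := by
          refine hj1.trans (mul_le_mul_of_nonneg_left ?_ hn0.le)
          rw [← hL]
          apply Real.log_le_log (by exact_mod_cast hy0)
          exact_mod_cast hyY.trans hY3
        have := Nat.le_floor h1
        simp only
        omega
      · simp only; rw [← hX]; omega
      · simp only; rw [← hX]; exact hRX
      · simp only
        rw [← hYj]
        have h1 : (x : ℝ) ^ (3 / 2 + ε) = (x : ℝ) ^ (3 / 2 + ε / 2) * (x : ℝ) ^ (ε / 2) := by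
          rw [← Real.rpow_add hx0']; congr 1; ring
        rw [h1] at hCy
        have h2 : (C : ℝ) * y ≤ C * (2 * Yj) := mul_le_mul_of_nonneg_left hYj2 hC0.le
        have h3 : (x : ℝ) ^ (3 / 2 + ε / 2) * 2 ≤ (x : ℝ) ^ (3 / 2 + ε / 2) * (x : ℝ) ^ (ε / 2) :=
          mul_le_mul_of_nonneg_left g4 (by positivity)
        linarith
      · simp only; rw [← hYj]; exact hYjY
    have hEr : |Lc a b X x c (FF z Yj Y) - Sc * Ls a b X x (FF z Yj Y)| ≤ x / L ^ D := by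
      have h1 : ∑ t ∈ P, Err t c ≤ x / L ^ D := by
        by_contra hcon
        push Not at hcon
        exact c1 (by rw [hE1, mem_filter, mem_Icc]; exact ⟨hc, hcon⟩)
      have h2 : Err (k, j) c ≤ ∑ t ∈ P, Err t c :=
        single_le_sum (f := fun t => Err t c) (fun t _ => hErr0 t c) htP
      have h3 : Err (k, j) c = |Lc a b X x c (FF z Yj Y) - Sc * Ls a b X x (FF z Yj Y)| := by
        rw [hErr, hX, hYj, hSc]
      rw [← h3]
      exact h2.trans h1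
    have hXx : X < x := by omega
    have hLcE : Lc a b X x c (FF z Yj Y) = S (pc a b c) X x Yj Y :=
      Lc_FF hzYj (fun m hm => hzYf m (mem_Ioc.1 hm).1.le c)
    have hLsE : Ls a b X x (FF z Yj Y) =
        Ls a b X x (fun N => ∑ j ∈ N.divisors.filter (fun j => Yj < j ∧ j ≤ Y), pi0 j * pi0 (N / j)) := by
      refine Ls_FF hzYj ?_
      have := hzYf X le_rfl 0
      unfold Fn
      exact_mod_cast this.le
    have hS2' := hS2 x hxS2 b hbX X c Yj Y hXx hRX (hc.2.trans hC2) hYjx hYjY hY3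
    rw [main_eqN, ← hLsE, hL] at hS2'
    have hfe : ∀ m ∈ Ioc X x, Real.exp 1 * x ≤ (a : ℝ) * m ^ 2 + b * m + ((c : ℤ) : ℝ) := fun m hm =>
      hbig.trans (hval m (mem_Ioc.1 hm).1.le c).1
    have hfv0 : ∀ m ∈ Ioc X x, 0 ≤ fv a b c m := fun m hm => (hval m (mem_Ioc.1 hm).1.le c).2
    have hMb := S_pm_le (Y := Yj) (y := Y) (x := x) a b c hY3 hXx.le hfe
    have hM : S (pm a b c) X x Yj Y ≤ x * (2 * L) := by
      refine hMb.2.trans ?_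
      have h1 : ∑ n ∈ Ioc Yj Y, 1 / (n : ℝ) ≤ 2 * L := by
        have := XEa.harm_le (Y := Yj) (by omega : 1 ≤ x) hY3
        rw [hL] at this
        linarith
      have h2 : (x : ℝ) - X ≤ x := by
        have : (0 : ℝ) ≤ X := Nat.cast_nonneg _
        linarith
      exact mul_le_mul h2 h1 (sum_nonneg fun n _ => by positivity) hx0'.le
    rw [hLcE] at hEr
    have hSS' : |κ - Sc| ≤ Sc * (1 / L ^ U) := by rw [mul_one_div]; exact hSS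
    have hgp := grid_point (L := L) (x := x) hSc0 hScL hEr hS2' hSS' (by positivity) hMb.1 hM hLpos.le hx0'.le
      (by positivity)
    have hgp2 : |S (pc a b c) X x Yj Y - κ * S (pm a b c) X x Yj Y| ≤ 4 * (x / L ^ (A + 4)) := by
      refine hgp.trans ?_
      have e1 : L * (x / L ^ (A + 6)) = x / L ^ (A + 5) := by
        rw [show L ^ (A + 6) = L ^ (A + 5) * L by ring]; field_simp
      have e2 : L * (1 / L ^ U) * (x * (2 * L)) = 2 * (x / L ^ (A + 4)) := by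
        rw [hU, show L ^ (A + 6) = L ^ (A + 4) * (L * L) by ring]; field_simp
      have e3 : (x : ℝ) / L ^ (A + 5) ≤ x / L ^ (A + 4) :=
        div_le_div_of_nonneg_left hx0'.le (by positivity) (pow_le_pow_right₀ hL1 (by omega))
      rw [e1, e2, hD]
      linarith
    have hσ : ∑ n ∈ Ioc Yj y, 1 / (n : ℝ) ≤ 5 * (1 / L ^ B) := by
      refine (XEa.sum_inv_le (by exact_mod_cast hYj0) hj2).trans ?_
      have h1 : 5 * (1 / (n : ℝ)) ≤ 5 * (1 / L ^ B) :=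
        mul_le_mul_of_nonneg_left (one_div_le_one_div_of_le hLB0 hn1) (by norm_num)
      refine le_trans ?_ h1
      rw [div_le_iff₀ hYj0]
      have h2 : ((Yj : ℝ) + 1) * (1 + 2 / n) = Yj + 1 + 2 * Yj / n + 2 / n := by ring
      rw [h2] at hj3
      have h3 : 2 / (n : ℝ) ≤ 1 := by rw [div_le_one hn0]; linarith
      have h4 : (2 : ℝ) ≤ 3 * (Yj / n) := by
        have : (1 : ℝ) ≤ Yj / n := by rw [le_div_iff₀ hn0, one_mul]; exact hYjn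
        linarith
      have h5 : 5 * (1 / (n : ℝ)) * Yj = 5 * (Yj / n) := by ring
      have h6 : 2 * (Yj : ℝ) / n = 2 * (Yj / n) := by ring
      rw [h5]
      rw [h6] at hj3
      linarith
    have hro := round_all (δ := 1 / L ^ B) ha hk1 hux hj2 hyY hY3 (by omega) haYj hfe hfv0 (by positivity) hux2 hσ hκ0 hκ2
      hL1 hL
    have e4 : 42 * (x : ℝ) * L ^ 2 * (1 / L ^ B) = 42 * (x / L ^ (A + 4)) := by
      rw [hB, show L ^ (A + 6) = L ^ (A + 4) * L ^ 2 by ring]; field_simp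
    rw [e4] at hro
    refine (abs_le_of hgp2 hro).trans (le_of_eq ?_)
    ring
  intro u v y1 y2 hRu huv hvx hCy hy12 hy2
  have hy2Y : y2 ≤ Y := by rw [hY]; exact Nat.le_floor hy2
  rw [cnt2_eq, main_eqN, ← hκ, ← S_sub, S_rect _ huv hvx hy12 hy2Y]
  simp only [S_sub]
  have hRv : x ≤ R * v := hRu.trans (Nat.mul_le_mul_left _ huv)
  have hCy2 : (x : ℝ) ^ (3 / 2 + ε) ≤ C * y2 := by
    refine hCy.trans (mul_le_mul_of_nonneg_left ?_ hC0.le)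
    exact_mod_cast hy12
  have k1 := hcorner u y1 hRu (huv.trans hvx) hCy (hy12.trans hy2Y)
  have k2 := hcorner v y1 hRv hvx hCy (hy12.trans hy2Y)
  have k3 := hcorner u y2 hRu (huv.trans hvx) hCy2 hy2Y
  have k4 := hcorner v y2 hRv hvx hCy2 hy2Y
  have hfin : 184 * (x / L ^ (A + 4)) ≤ x / L ^ A := by
    rw [pow_add, ← div_div, mul_div_assoc', div_le_iff₀ (by positivity)]
    have h1 : (184 : ℝ) ≤ L ^ 4 := by
      calc (184 : ℝ) ≤ 200 ^ 1 := by norm_num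
        _ ≤ L ^ 1 := by rw [pow_one, pow_one]; exact hL200
        _ ≤ L ^ 4 := pow_le_pow_right₀ hL1 (by norm_num)
    have h2 : (0 : ℝ) ≤ x / L ^ A := by positivity
    have h3 := mul_le_mul_of_nonneg_left h1 h2
    linarith
  rw [abs_le] at k1 k2 k3 k4 ⊢
  constructor <;> linarith [k1.1, k1.2, k2.1, k2.2, k3.1, k3.2, k4.1, k4.2]

/-- products of two primes, uniformly in `b` -/
def XEU (a : ℤ) (Λ : ℝ) : Prop := ∀ (ε : ℝ) (R A : ℕ), 0 < ε → ∃ x0 : ℕ, ∀ x : ℕ, x0 ≤ x → ∀ b : ℤ, ∀ C : ℕ,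
    (b : ℝ) ^ 2 ≤ Λ * C → (x : ℝ) ^ (1 / 2 + ε) ≤ C → C ≤ x →
    ∃ Ex ⊆ Icc 1 C, (#Ex : ℝ) ≤ C / Real.log x ^ A ∧ ∀ c ∈ Icc 1 C, c ∉ Ex → Admissible a b c →
      ∃ S : ℝ, 0 < S ∧ Tendsto (fun y => partialC a b c y) atTop (𝓝 S) ∧
        ∀ u v y1 y2 : ℕ, x ≤ R * u → u ≤ v → v ≤ x → (x : ℝ) ^ (3 / 2 + ε) ≤ C * y1 → y1 ≤ y2 →
          (y2 : ℝ) ≤ (x : ℝ) ^ (1 - ε) →
          |(cnt2 a b c u v y1 y2 : ℝ) - eps a b * S * gcdProd a b * ∑ m ∈ Ioc u v, ∑ p ∈ (Ioc y1 y2).filter Nat.Prime,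
            1 / ((p : ℝ) * Real.log (((a : ℝ) * m ^ 2 + b * m + c) / p))| ≤ x / Real.log x ^ A

theorem xeU (a : ℤ) (ha : 0 < a) (Λ : ℝ) (hΛ : 1 ≤ Λ) (hq1 : Q1) (hq4 : Q4) (hR1 : R1U a Λ) (hR2 : R2U a)
    (hMT : MTU a Λ) (hX1 : X1) (hS2 : S2U a Λ) (hX8 : X8U a Λ) : XEU a Λ := by
  intro ε R A hε
  obtain ⟨x0, h⟩ := xe_smallU a ha Λ hΛ hq1 hq4 hR1 hR2 hMT hX1 hS2 hX8 (min ε (1 / 100)) (max R 1) A
    (lt_min hε (by norm_num)) (min_le_right _ _) (le_max_right _ _)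
  refine ⟨max x0 1, fun x hx b C hbC hC1 hC2 => ?_⟩
  have hx1 : (1 : ℝ) ≤ x := by
    have : 1 ≤ x := (le_max_right _ _).trans hx
    exact_mod_cast this
  have hm : min ε (1 / 100) ≤ ε := min_le_left _ _
  obtain ⟨Ex, h1, h2, h3⟩ := h x ((le_max_left _ _).trans hx) b C hbC
    ((Real.rpow_le_rpow_of_exponent_le hx1 (by linarith)).trans hC1) hC2
  refine ⟨Ex, h1, h2, fun c hc hcE hadm => ?_⟩
  obtain ⟨S0, hS0, hSt, hb⟩ := h3 c hc hcE hadm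
  refine ⟨S0, hS0, hSt, fun u v y1 y2 g1 g2 g3 g4 g5 g6 => ?_⟩
  exact hb u v y1 y2 (g1.trans (Nat.mul_le_mul_right _ (le_max_left _ _))) g2 g3
    ((Real.rpow_le_rpow_of_exponent_le hx1 (by linarith)).trans g4) g5
    (g6.trans (Real.rpow_le_rpow_of_exponent_le hx1 (by linarith)))

end Pool.Agent.N791.U
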