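import Mathlib
import Pool.Agent.N791.U.XEU
import Pool.Agent.N791.U.TrG
import Pool.Agent.N792.TE2P

/-!
Products of two primes for negative constant terms and for almost all pairs (helper791).
-/

set_option autoImplicit false

namespace Pool.Agent.N791.U

open Finset Filter Topology Pool.Agent.N792 Pool.Agent.N792.Fn124

/-- the statement for one polynomial -/
def QE2 (a : ℤ) (ε : ℝ) (R A : ℕ) (x C : ℕ) (b c : ℤ) : Prop :=
  Admissible a b c → ∃ S : ℝ, 0 < S ∧ Tendsto (fun y => partialC a b c y) atTop (𝓝 S) ∧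
    ∀ u v y1 y2 : ℕ, x ≤ R * u → u ≤ v → v ≤ x → (x : ℝ) ^ (3 / 2 + ε) ≤ C * y1 → y1 ≤ y2 →
      (y2 : ℝ) ≤ (x : ℝ) ^ (1 - ε) →
      |(twoC a b c u v y1 y2 : ℝ) - eps a b * S * gcdProd a b * ∑ m ∈ Ioc u v, ∑ p ∈ (Ioc y1 y2).filter Nat.Prime,
        1 / ((p : ℝ) * Real.log (((a : ℝ) * m ^ 2 + b * m + c) / p))| ≤ x / Real.log x ^ A

theorem unif_te2 (a : ℤ) (ha : 0 < a) (Λ : ℝ) (hΛ : 1 ≤ Λ) (h : XEU a Λ) (ε : ℝ) (hε : 0 < ε) (R A : ℕ) :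
    UnifG Λ (1 / 2 + ε) (fun x => 1 / Real.log x ^ A) (QE2 a ε R A) := by
  obtain ⟨x0, hx0⟩ := h ε R A hε
  obtain ⟨c0, B, hc0, hB, X0, hX0⟩ := range_bdU a ha Λ hΛ R
  obtain ⟨x1, hx1⟩ := eventually_atTop.1 (Lam.pow_ev (2 / c0) (2 - 2 * ε) 2 (by linarith))
  refine ⟨max (max x0 X0) (max x1 1), fun x hx b C hbC hC1 hC2 => ?_⟩
  have hbX : (b : ℝ) ^ 2 ≤ Λ * x := hbC.trans (mul_le_mul_of_nonneg_left (by exact_mod_cast hC2) (by linarith))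
  obtain ⟨Ex, hE1, hE2, hE3⟩ := hx0 x (by omega) b C hbC hC1 hC2
  refine ⟨Ex, hE1, hE2.trans (le_of_eq (by ring)), fun c hc hcE hadm => ?_⟩
  obtain ⟨S, hS0, hSt, hb⟩ := hE3 c hc hcE hadm
  refine ⟨S, hS0, hSt, fun u v y1 y2 hxu huv hvx hy1 hy12 hy2 => ?_⟩
  have hb' := hb u v y1 y2 hxu huv hvx hy1 hy12 hy2
  rw [cnt2_eq] at hb'
  · simpa only [Int.cast_natCast] using hb'
  · intro m hm
    rw [mem_Ioc] at hm
    obtain ⟨r1, r2, r3⟩ := hX0 x (by omega) b hbX u (by omega) hxu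
    have hxr : (1 : ℝ) ≤ x := by exact_mod_cast (by omega : 1 ≤ x)
    have hxp : (0 : ℝ) < x := by linarith
    have h1 := hx1 x (by omega)
    have x2 : (x : ℝ) ^ (2 : ℝ) = (x : ℝ) ^ 2 := by norm_cast
    rw [x2, div_mul_eq_mul_div, div_le_iff₀ hc0] at h1
    have h2 : ((y2 ^ 2 : ℕ) : ℝ) ≤ (x : ℝ) ^ (2 - 2 * ε) := by
      push_cast
      calc (y2 : ℝ) ^ 2 ≤ ((x : ℝ) ^ (1 - ε)) ^ 2 := pow_le_pow_left₀ (Nat.cast_nonneg _) hy2 2
        _ = (x : ℝ) ^ (2 - 2 * ε) := by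
          rw [← Real.rpow_natCast, ← Real.rpow_mul hxp.le]; congr 1; push_cast; ring
    have h3 : ((y2 ^ 2 : ℕ) : ℝ) < (Fn a b u : ℕ) := by
      have : 0 < (x : ℝ) ^ (2 - 2 * ε) := Real.rpow_pos_of_pos hxp _
      linarith
    have h4 : y2 ^ 2 < Fn a b u := by exact_mod_cast h3
    rw [Mtm.fv_eq ha (by omega)]
    have h5 := Mtm.Fn_mono ha (b := b) (by omega : b.natAbs ≤ u) hm.1.le
    exact_mod_cast (by omega : y2 ^ 2 < Fn a b m + c)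

/-- the shift of a sum over a window, exact form -/
lemma sum_shift (g : ℤ → ℝ) (s : ℤ) {u v : ℕ} (hs : s ≤ u) :
    ∑ m ∈ Ioc u v, g m = ∑ n ∈ Ioc ((u : ℤ) - s).toNat ((v : ℤ) - s).toNat, g (n + s) := by
  symm
  refine sum_nbij' (fun n : ℕ => ((n : ℤ) + s).toNat) (fun m : ℕ => ((m : ℤ) - s).toNat) ?_ ?_ ?_ ?_ ?_
  · intro n hn
    rw [mem_Ioc] at hn ⊢
    omega
  · intro m hm
    rw [mem_Ioc] at hm ⊢
    omega
  · intro n hn
    rw [mem_Ioc] at hn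
    omega
  · intro m hm
    rw [mem_Ioc] at hm
    omega
  · intro n hn
    rw [mem_Ioc] at hn
    congr 1
    omega

open Classical in
lemma twoC_shift (a b c s : ℤ) {u v : ℕ} (y1 y2 : ℕ) (hs : s ≤ u) :
    (twoC a b c u v y1 y2 : ℝ) =
      twoC a (b + 2 * a * s) (c + b * s + a * s ^ 2) ((u : ℤ) - s).toNat ((v : ℤ) - s).toNat y1 y2 := by
  obtain ⟨g, hg⟩ : ∃ g : ℤ → ℝ, g = fun n : ℤ => if (∃ p q : ℕ, p.Prime ∧ q.Prime ∧ y1 < p ∧ p ≤ y2 ∧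
    a * n ^ 2 + b * n + c = (p : ℤ) * q) then (1 : ℝ) else 0 := ⟨_, rfl⟩
  have e1 : (twoC a b c u v y1 y2 : ℝ) = ∑ m ∈ Ioc u v, g m := by
    unfold twoC
    rw [card_filter, hg]
    push_cast
    rfl
  have e2 : (twoC a (b + 2 * a * s) (c + b * s + a * s ^ 2) ((u : ℤ) - s).toNat ((v : ℤ) - s).toNat y1 y2 : ℝ) =
      ∑ n ∈ Ioc ((u : ℤ) - s).toNat ((v : ℤ) - s).toNat, g (n + s) := by
    unfold twoC
    rw [card_filter, hg]
    push_cast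
    refine sum_congr rfl fun n _ => ?_
    have e : ∀ n : ℤ, a * n ^ 2 + (b + 2 * a * s) * n + (c + b * s + a * s ^ 2) = a * (n + s) ^ 2 + b * (n + s) + c := by
      intro n; ring
    simp only [e]
  rw [e1, e2, sum_shift g s hs]

lemma QE2_shift {a b c s : ℤ} {x' C' x C R R' A A' : ℕ} {ε ε' : ℝ} (h1 : x + s.natAbs ≤ x')
    (h2 : ∀ u : ℕ, x ≤ R * u → s ≤ u ∧ x' ≤ R' * ((u : ℤ) - s).toNat)
    (h3 : ∀ y : ℕ, (x : ℝ) ^ (3 / 2 + ε) ≤ C * y → (x' : ℝ) ^ (3 / 2 + ε') ≤ C' * y)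
    (h4 : (x : ℝ) ^ (1 - ε) ≤ (x' : ℝ) ^ (1 - ε')) (h5 : (x' : ℝ) / Real.log x' ^ A' ≤ x / Real.log x ^ A)
    (h : QE2 a ε' R' A' x' C' (b + 2 * a * s) (c + b * s + a * s ^ 2)) : QE2 a ε R A x C b c := by
  intro hadm
  obtain ⟨S, m1, m2, m3⟩ := h (adm_shift s hadm)
  simp only [partialC_shift] at m2
  refine ⟨S, m1, m2, fun u v y1 y2 k1 k2 k3 k4 k5 k6 => ?_⟩
  obtain ⟨q1, q2⟩ := h2 u k1
  have m := m3 ((u : ℤ) - s).toNat ((v : ℤ) - s).toNat y1 y2 q2 (by omega) (by omega) (h3 y1 k4) k5 (k6.trans h4)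
  rw [eps_shift, gcd_shift, ← twoC_shift a b c s y1 y2 q1] at m
  have e : ∑ m ∈ Ioc ((u : ℤ) - s).toNat ((v : ℤ) - s).toNat, ∑ p ∈ (Ioc y1 y2).filter Nat.Prime,
      1 / ((p : ℝ) * Real.log (((a : ℝ) * m ^ 2 + (b + 2 * a * s : ℤ) * m + (c + b * s + a * s ^ 2 : ℤ)) / p)) =
      ∑ m ∈ Ioc u v, ∑ p ∈ (Ioc y1 y2).filter Nat.Prime,
        1 / ((p : ℝ) * Real.log (((a : ℝ) * m ^ 2 + b * m + c) / p)) := by
    obtain ⟨g, hg⟩ : ∃ g : ℤ → ℝ, g = fun n : ℤ => ∑ p ∈ (Ioc y1 y2).filter Nat.Prime,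
        1 / ((p : ℝ) * Real.log (((a : ℝ) * n ^ 2 + b * n + c) / p)) := ⟨_, rfl⟩
    have w := sum_shift g s (v := v) q1
    rw [hg] at w
    simp only at w
    have w1 : ∑ m ∈ Ioc u v, ∑ p ∈ (Ioc y1 y2).filter Nat.Prime,
        1 / ((p : ℝ) * Real.log (((a : ℝ) * ((m : ℕ) : ℤ) ^ 2 + b * ((m : ℕ) : ℤ) + c) / p)) =
        ∑ m ∈ Ioc u v, ∑ p ∈ (Ioc y1 y2).filter Nat.Prime,
        1 / ((p : ℝ) * Real.log (((a : ℝ) * m ^ 2 + b * m + c) / p)) := by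
      refine sum_congr rfl fun m _ => sum_congr rfl fun p _ => ?_
      push_cast
      rfl
    rw [← w1, w]
    refine sum_congr rfl fun n _ => sum_congr rfl fun p _ => ?_
    congr 4
    push_cast
    ring
  rw [e] at m
  exact m.trans h5

/-- **Products of two primes for almost all pairs.** -/
theorem pair_e2 (a : ℤ) (ha : 0 < a) (h : XEU a (3 * a)) (ε : ℝ) (hε : 0 < ε) (R A : ℕ) :
    ∃ H0 : ℕ, ∀ H : ℕ, H0 ≤ H → ∀ N : ℕ, H ^ 2 ≤ N → (N : ℝ) ≤ (H : ℝ) ^ (4 - ε) →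
    ∃ Ex ⊆ Icc (-(H : ℤ)) H ×ˢ Icc (-(H : ℤ)) H, (#Ex : ℝ) ≤ H ^ 2 / Real.log H ^ A ∧
      ∀ q ∈ Icc (-(H : ℤ)) H ×ˢ Icc (-(H : ℤ)) H, q ∉ Ex → QE2 a ε R A N (H ^ 2) q.1 q.2 := by
  have haR : (1 : ℝ) ≤ a := by exact_mod_cast ha
  obtain ⟨ε0, hε0⟩ : ∃ ε0 : ℝ, ε0 = min (ε / 8) (1 / 100) := ⟨_, rfl⟩
  have e1 : 0 < ε0 := by rw [hε0]; exact lt_min (by positivity) (by norm_num)
  have e2 : ε0 ≤ ε / 8 := by rw [hε0]; exact min_le_left _ _
  have e3 : ε0 ≤ 1 / 100 := by rw [hε0]; exact min_le_right _ _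
  obtain ⟨A', hA'⟩ : ∃ A' : ℕ, A' = 2 * A + 3 := ⟨_, rfl⟩
  obtain ⟨n, hn⟩ : ∃ n : ℕ, n = a.toNat := ⟨_, rfl⟩
  have hnr : (n : ℝ) = a := by
    have : ((a.toNat : ℕ) : ℤ) = a := by omega
    rw [hn]
    exact_mod_cast this
  have hn1 : 1 ≤ n := by omega
  obtain ⟨H0, hT⟩ := pair_transferG a ha (1 / 2 + ε0) (fun x => 1 / Real.log x ^ A')
    (fun x => div_nonneg zero_le_one (pow_nonneg (Real.log_natCast_nonneg x) _)) (by linarith)
    (QE2 a ε0 (4 * n * R) A') (unif_te2 a ha (3 * a) (by linarith) h ε0 e1 (4 * n * R) A')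
  obtain ⟨y1, hy1⟩ := evN' _ (Real.tendsto_log_atTop.eventually_ge_atTop (50 * a ^ 3 + 10))
  obtain ⟨y2, hy2⟩ := evN' _ (ev_pow' (A + 1) ((4 : ℝ) ^ (A + 1)) 1 (by norm_num))
  obtain ⟨y3, hy3⟩ := evN' _ ((tendsto_rpow_atTop (by linarith : 0 < ε / 2)).eventually_ge_atTop (2 * a))
  refine ⟨H0 + y1 + y2 + y3 + 4 * R + 4, fun H hH N hN1 hN2 => ?_⟩
  have hH4 : 4 ≤ H := by omega
  have hHr : (4 : ℝ) ≤ H := by exact_mod_cast hH4
  have hHN : H ≤ N := by nlinarith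
  have hNr : (4 : ℝ) ≤ N := by exact_mod_cast hH4.trans hHN
  have g1 := hy1 N (by omega)
  have g2 := hy2 H (by omega)
  have g3 := hy3 N (by omega)
  obtain ⟨L, hL⟩ : ∃ L : ℝ, L = Real.log N := ⟨_, rfl⟩
  rw [← hL] at g1
  have ha3 : (0 : ℝ) ≤ 50 * a ^ 3 := by positivity
  have hL10 : 10 ≤ L := by linarith
  have hL0 : 0 < L := by linarith
  -- log N ≤ 4 log H
  have hNH4 : (N : ℝ) ≤ (H : ℝ) ^ (4 : ℝ) :=
    hN2.trans (Real.rpow_le_rpow_of_exponent_le (by linarith) (by linarith))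
  have hLH : L ≤ 4 * Real.log H := by
    rw [hL, ← Real.log_rpow (by linarith)]
    exact Real.log_le_log (by linarith) hNH4
  have hHL : Real.log H ≤ L := by
    rw [hL]; exact Real.log_le_log (by linarith) (by exact_mod_cast hHN)
  have hlogH : 0 < Real.log H := Real.log_pos (by linarith)
  obtain ⟨δ, hδ⟩ : ∃ δ : ℝ, δ = 1 / L ^ (A + 1) := ⟨_, rfl⟩
  have d1 : 0 < δ := by rw [hδ]; positivity
  have d2 : δ ≤ 1 := by
    rw [hδ, div_le_one (by positivity)]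
    exact one_le_pow₀ (by linarith)
  have d3 : 1 ≤ δ * H := by
    rw [hδ, one_div, inv_mul_eq_div, le_div_iff₀ (by positivity), one_mul]
    rw [Real.rpow_one] at g2
    refine le_trans ?_ g2
    rw [← mul_pow]
    exact pow_le_pow_left₀ hL0.le hLH _
  have hNγ : (N : ℝ) ^ (1 / 2 + ε0) ≤ (H : ℝ) ^ 2 := by
    calc (N : ℝ) ^ (1 / 2 + ε0) ≤ ((H : ℝ) ^ (4 - ε)) ^ (1 / 2 + ε0) :=
          Real.rpow_le_rpow (Nat.cast_nonneg _) hN2 (by linarith)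
      _ = (H : ℝ) ^ ((4 - ε) * (1 / 2 + ε0)) := by rw [← Real.rpow_mul (by linarith)]
      _ ≤ (H : ℝ) ^ (2 : ℝ) := Real.rpow_le_rpow_of_exponent_le (by linarith) (by nlinarith)
      _ = _ := by rw [Real.rpow_two]
  obtain ⟨Ex, k1, k2, k3⟩ := hT H (by omega) N hN1 hNγ δ d1 d2 d3
  rw [← hn] at k2 k3
  have hx' : ((2 * n * N : ℕ) : ℝ) = 2 * a * N := by push_cast; rw [hnr]
  have hNx' : (N : ℝ) ≤ ((2 * n * N : ℕ) : ℝ) := by rw [hx']; nlinarith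
  have hlogx' : L ≤ Real.log ((2 * n * N : ℕ) : ℝ) := by
    rw [hL]; exact Real.log_le_log (by linarith) hNx'
  refine ⟨Ex, k1, ?_, ?_⟩
  · refine k2.trans ?_
    have f1 : 1 / Real.log ((2 * n * N : ℕ) : ℝ) ^ A' ≤ 1 / L ^ A' :=
      one_div_le_one_div_of_le (by positivity) (pow_le_pow_left₀ hL0.le hlogx' _)
    have f2 : 1 / Real.log ((2 * n * N : ℕ) : ℝ) ^ A' / δ ≤ 1 / L ^ (A + 2) := by
      rw [div_le_iff₀ d1, hδ, div_mul_div_comm, one_mul, ← pow_add]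
      have : A + 2 + (A + 1) = A' := by omega
      rw [this]
      exact f1
    have f3 : 9 * δ + 40 * (a : ℝ) ^ 3 * (1 / Real.log ((2 * n * N : ℕ) : ℝ) ^ A' / δ) ≤ 1 / L ^ A := by
      have f4 : 40 * (a : ℝ) ^ 3 * (1 / Real.log ((2 * n * N : ℕ) : ℝ) ^ A' / δ) ≤ 40 * (a : ℝ) ^ 3 * (1 / L ^ (A + 2)) :=
        mul_le_mul_of_nonneg_left f2 (by positivity)
      have f5 : 40 * (a : ℝ) ^ 3 * (1 / L ^ (A + 2)) ≤ 1 / L ^ (A + 1) := by
        have : 40 * (a : ℝ) ^ 3 * (1 / L ^ (A + 2)) = (40 * (a : ℝ) ^ 3 / L) * (1 / L ^ (A + 1)) := by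
          rw [show L ^ (A + 2) = L * L ^ (A + 1) by ring]
          field_simp
        rw [this]
        apply mul_le_of_le_one_left (by positivity)
        rw [div_le_one hL0]
        have : (0 : ℝ) ≤ a ^ 3 := by positivity
        linarith
      have f6 : 10 * (1 / L ^ (A + 1)) ≤ 1 / L ^ A := by
        have : 10 * (1 / L ^ (A + 1)) = (10 / L) * (1 / L ^ A) := by
          rw [pow_succ]; field_simp
        rw [this]
        apply mul_le_of_le_one_left (by positivity)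
        rw [div_le_one hL0]
        exact hL10
      rw [hδ] at f4 ⊢
      rw [hδ] at f2
      linarith
    have f7 : 1 / L ^ A ≤ 1 / Real.log H ^ A :=
      one_div_le_one_div_of_le (by positivity) (pow_le_pow_left₀ hlogH.le hHL _)
    calc (9 * δ + 40 * (a : ℝ) ^ 3 * (1 / Real.log ((2 * n * N : ℕ) : ℝ) ^ A' / δ)) * (H : ℝ) ^ 2
        ≤ (1 / Real.log H ^ A) * (H : ℝ) ^ 2 := mul_le_mul_of_nonneg_right (f3.trans f7) (by positivity)
      _ = _ := by ring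
  · intro q hq hqE
    obtain ⟨hs1, hQ⟩ := k3 q hq hqE
    rw [Int.abs_eq_natAbs] at hs1
    obtain ⟨s, hs⟩ : ∃ s : ℤ, s = sh a H q.1 := ⟨_, rfl⟩
    rw [← hs] at hs1 hQ
    have hs2 : s.natAbs ≤ 2 * H := by exact_mod_cast hs1
    have h2H : 2 * H ≤ N := by nlinarith
    have hnN : 2 * N ≤ 2 * n * N := by nlinarith
    refine QE2_shift (s := s) (x' := 2 * n * N) (C' := 2 * n * H ^ 2) (R' := 4 * n * R) (A' := A') (ε' := ε0) (by omega) ?_ ?_ ?_ ?_ hQ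
    · intro u hu
      have hu4 : 4 * H ≤ u := by
        by_contra hcon
        push Not at hcon
        have t1 : N < R * (4 * H) + 1 := by
          have : R * u ≤ R * (4 * H) := Nat.mul_le_mul_left _ hcon.le
          omega
        have t2 : 4 * R + 4 ≤ H := by omega
        have t3 : (4 * R + 4) * H ≤ H ^ 2 := by rw [sq]; exact Nat.mul_le_mul_right _ t2
        nlinarith
      have hsu : s ≤ u := by omega
      refine ⟨hsu, ?_⟩
      have hu2 : u ≤ 2 * ((u : ℤ) - s).toNat := by omega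
      calc 2 * n * N ≤ 2 * n * (R * u) := Nat.mul_le_mul_left _ hu
        _ ≤ 2 * n * (R * (2 * ((u : ℤ) - s).toNat)) := Nat.mul_le_mul_left _ (Nat.mul_le_mul_left _ hu2)
        _ = 4 * n * R * ((u : ℤ) - s).toNat := by ring
    · intro y hy
      rw [hx', Real.mul_rpow (by positivity) (by positivity)]
      push_cast at hy ⊢
      rw [hnr]
      have t1 : (2 * (a : ℝ)) ^ (3 / 2 + ε0) ≤ (2 * a) * (2 * a) := by
        calc (2 * (a : ℝ)) ^ (3 / 2 + ε0) ≤ (2 * (a : ℝ)) ^ (2 : ℝ) :=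
              Real.rpow_le_rpow_of_exponent_le (by linarith) (by linarith)
          _ = _ := by rw [Real.rpow_two]; ring
      have t2 : (2 * (a : ℝ)) * (N : ℝ) ^ (3 / 2 + ε0) ≤ (N : ℝ) ^ (3 / 2 + ε) := by
        calc (2 * (a : ℝ)) * (N : ℝ) ^ (3 / 2 + ε0) ≤ (N : ℝ) ^ (ε / 2) * (N : ℝ) ^ (3 / 2 + ε0) := by gcongr
          _ = (N : ℝ) ^ (ε / 2 + (3 / 2 + ε0)) := by rw [← Real.rpow_add (by linarith)]
          _ ≤ (N : ℝ) ^ (3 / 2 + ε) := Real.rpow_le_rpow_of_exponent_le (by linarith) (by linarith)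
      calc (2 * (a : ℝ)) ^ (3 / 2 + ε0) * (N : ℝ) ^ (3 / 2 + ε0) ≤ ((2 * a) * (2 * a)) * (N : ℝ) ^ (3 / 2 + ε0) := by gcongr
        _ = (2 * a) * ((2 * (a : ℝ)) * (N : ℝ) ^ (3 / 2 + ε0)) := by ring
        _ ≤ (2 * a) * ((H : ℝ) ^ 2 * y) := mul_le_mul_of_nonneg_left (t2.trans hy) (by positivity)
        _ = _ := by ring
    · calc (N : ℝ) ^ (1 - ε) ≤ (N : ℝ) ^ (1 - ε0) := Real.rpow_le_rpow_of_exponent_le (by linarith) (by linarith)
        _ ≤ _ := Real.rpow_le_rpow (Nat.cast_nonneg _) hNx' (by linarith)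
    · rw [← hL]
      calc ((2 * n * N : ℕ) : ℝ) / Real.log ((2 * n * N : ℕ) : ℝ) ^ A' ≤ ((2 * n * N : ℕ) : ℝ) / L ^ A' :=
            div_le_div_of_nonneg_left (Nat.cast_nonneg _) (by positivity) (pow_le_pow_left₀ hL0.le hlogx' _)
        _ = 2 * a * N / L ^ A' := by rw [hx']
        _ ≤ N / L ^ A := by
          rw [div_le_div_iff₀ (by positivity) (by positivity)]
          have t1 : (2 * (a : ℝ)) * L ^ A ≤ L ^ A' := by
            have : 2 * (a : ℝ) ≤ L ^ (A + 3) := by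
              calc 2 * (a : ℝ) ≤ L := by nlinarith [sq_nonneg ((a : ℝ) - 1), mul_nonneg (sq_nonneg (a : ℝ)) (by linarith : (0 : ℝ) ≤ a - 1)]
                _ = L ^ 1 := (pow_one L).symm
                _ ≤ L ^ (A + 3) := pow_le_pow_right₀ (by linarith) (by omega)
            calc (2 * (a : ℝ)) * L ^ A ≤ L ^ (A + 3) * L ^ A := by gcongr
              _ = L ^ A' := by rw [← pow_add]; congr 1; omega
          calc 2 * (a : ℝ) * N * L ^ A = N * (2 * a * L ^ A) := by ring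
            _ ≤ N * L ^ A' := mul_le_mul_of_nonneg_left t1 (by positivity)

end Pool.Agent.N791.U
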