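import Mathlib
import Pool.Agent.N791.U.Tr3

/-!
The Hardy-Littlewood formula for negative constant terms and for almost all pairs `(b, c)`, from the uniform version
(helper791).
-/

set_option autoImplicit false

namespace Pool.Agent.N791.U

open Finset Filter Topology Pool.Agent.N792 Pool.Agent.N792.Fn124

/-- the statement for one polynomial -/
def QHL (a : ℤ) (θ η : ℝ) (x : ℕ) (b c : ℤ) : Prop :=
  Admissible a b c → ∃ S : ℝ, 0 < S ∧ Tendsto (fun z => partialC a b c z) atTop (𝓝 S) ∧ θ ≤ eps a b * S * gcdProd a b ∧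
    ∀ u v : ℕ, u ≤ v → v ≤ x →
      |(#((Ioc u v).filter (fun m : ℕ => (fv a b c m).toNat.Prime)) : ℝ) -
        eps a b * S * gcdProd a b * ∑ m ∈ Ioc u v, 1 / Real.log ((a : ℝ) * m ^ 2 + b * m + c)| ≤
      η * (eps a b * S * gcdProd a b * x / Real.log x)

lemma unif_of {a : ℤ} {Λ γ η : ℝ} (h : ConclU a Λ γ η) : ∃ θ : ℝ, 0 < θ ∧ Unif Λ γ η (QHL a θ η) := by
  obtain ⟨θ, hθ, x0, h⟩ := h
  refine ⟨θ, hθ, x0, fun x hx b C h1 h2 h3 => ?_⟩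
  obtain ⟨Ex, k1, k2, k3⟩ := h x hx b C h1 h2 h3
  refine ⟨Ex, k1, k2, fun c hc hcE hadm => ?_⟩
  have hcast : (((c : ℕ) : ℤ) : ℝ) = (c : ℝ) := by push_cast; rfl
  obtain ⟨S, m1, m2, m3, m4⟩ := k3 c hc hcE hadm
  refine ⟨S, m1, m2, m3, fun u v huv hvx => ?_⟩
  rw [hcast]
  exact m4 u v huv hvx

/-- numerical part of the transfer -/
lemma shift_num {θ η η' M L L' x x' s T : ℝ} (hθ : 0 < θ) (hM : θ ≤ M) (hη' : 0 ≤ η') (hL : 0 < L) (hL' : L ≤ L')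
    (hT : η' * x' ≤ η / 2 * x) (hx' : 0 ≤ x') (hs0 : 0 ≤ s) (hs : s ≤ T) (hTx : T * (1 / θ + 2) * L ≤ η / 2 * x) :
    η' * (M * x' / L') + s * (1 + 2 * M) ≤ η * (M * x / L) := by
  have hM0 : 0 < M := hθ.trans_le hM
  have h1 : η' * (M * x' / L') ≤ η / 2 * (M * x / L) := by
    calc η' * (M * x' / L') ≤ η' * (M * x' / L) := by
          apply mul_le_mul_of_nonneg_left _ hη'
          exact div_le_div_of_nonneg_left (by positivity) hL hL'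
      _ = M / L * (η' * x') := by ring
      _ ≤ M / L * (η / 2 * x) := mul_le_mul_of_nonneg_left hT (by positivity)
      _ = _ := by ring
  have h2 : s * (1 + 2 * M) ≤ η / 2 * (M * x / L) := by
    have e1 : 1 + 2 * M ≤ (1 / θ + 2) * M := by
      have : 1 ≤ 1 / θ * M := by rw [one_div, inv_mul_eq_div, le_div_iff₀ hθ]; linarith
      linarith
    calc s * (1 + 2 * M) ≤ T * ((1 / θ + 2) * M) := mul_le_mul hs e1 (by positivity) (hs0.trans hs)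
      _ = (T * (1 / θ + 2) * L) * (M / L) := by field_simp
      _ ≤ (η / 2 * x) * (M / L) := mul_le_mul_of_nonneg_right hTx (by positivity)
      _ = _ := by ring
  linarith

/-- **Negative constant terms.** -/
theorem neg_hl (a : ℤ) (ha : 0 < a) (b : ℤ) (γ η : ℝ) (hγ0 : 1 / 2 ≤ γ) (hγ1 : γ ≤ 1) (hη : 0 < η)
    (h : ConclU a (5 * a) γ (η / 2 / (3 * a))) :
    ∃ θ : ℝ, 0 < θ ∧ ∃ x0 : ℕ, ∀ x : ℕ, x0 ≤ x → ∀ K : ℕ, (x : ℝ) ^ γ ≤ K → K ≤ x →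
    ∃ Ex ⊆ Icc 1 K, (#Ex : ℝ) ≤ η * K ∧ ∀ c ∈ Icc 1 K, c ∉ Ex → QHL a θ η x b (-(c : ℤ)) := by
  have haR : (1 : ℝ) ≤ a := by exact_mod_cast ha
  obtain ⟨θ, hθ, h⟩ := unif_of h
  obtain ⟨x0, h⟩ := neg_transfer a ha b γ (η / 2) hγ0 hγ1 _ h
  obtain ⟨x1, hx1⟩ := evN' _ (ev_pow' 1 (2 * (1 / θ + 2) * (2 / η)) (1 / 2) (by norm_num))
  refine ⟨θ, hθ, x0 + x1 + 3, fun x hx K hK1 hK2 => ?_⟩
  have g1 := hx1 x (by omega)
  rw [pow_one] at g1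
  obtain ⟨Ex, k1, k2, k3⟩ := h x (by omega) K hK1 hK2
  have hK0 : (0 : ℝ) ≤ K := Nat.cast_nonneg _
  refine ⟨Ex, k1, k2.trans (mul_le_mul_of_nonneg_right (by linarith) hK0), fun c hc hcE hadm => ?_⟩
  obtain ⟨k, hk1, hk2, hQ⟩ := k3 c hc hcE
  have hxr : (3 : ℝ) ≤ x := by exact_mod_cast (by omega : 3 ≤ x)
  have hQ' := hQ (adm_shift k hadm)
  obtain ⟨S, m1, m2, m3, m4⟩ := hQ'
  simp only [partialC_shift] at m2
  rw [eps_shift, gcd_shift] at m3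
  refine ⟨S, m1, m2, m3, fun u v huv hvx => ?_⟩
  have hM0 : 0 ≤ eps a b * S * gcdProd a b := hθ.le.trans m3
  have hA : ((3 * a.toNat * x : ℕ) : ℝ) = 3 * a * x := by
    have : ((a.toNat : ℕ) : ℝ) = a := by
      have : ((a.toNat : ℕ) : ℤ) = a := by omega
      exact_mod_cast this
    push_cast
    rw [this]
  have hat : 1 ≤ a.toNat := by omega
  have hx3 : 3 * x ≤ 3 * a.toNat * x := by nlinarith
  have h1 := count_shift (s := (k : ℤ)) huv (x := 3 * a.toNat * x) (by simp only [Int.natAbs_natCast]; omega) hM0 m4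
  rw [eps_shift, gcd_shift] at h1
  refine h1.trans ?_
  have hlogx : 0 < Real.log x := Real.log_pos (by linarith)
  have hle : (x : ℝ) ≤ ((3 * a.toNat * x : ℕ) : ℝ) := by rw [hA]; nlinarith
  have hs : (((k : ℤ).natAbs : ℕ) : ℝ) ≤ 2 * (x : ℝ) ^ (1 / 2 : ℝ) := by
    rw [Int.natAbs_natCast, ← Real.sqrt_eq_rpow]
    have e1 : (k : ℝ) ^ 2 ≤ 4 * x := by exact_mod_cast (by omega : k ^ 2 ≤ 4 * x)
    have e2 : (k : ℝ) ≤ √(4 * x) := Real.le_sqrt_of_sq_le e1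
    rw [Real.sqrt_mul (by norm_num), show (4 : ℝ) = 2 ^ 2 by norm_num, Real.sqrt_sq (by norm_num)] at e2
    exact e2
  refine shift_num hθ m3 (by positivity) hlogx (Real.log_le_log (by linarith) hle) ?_ (Nat.cast_nonneg _)
    (Nat.cast_nonneg _) hs ?_
  · rw [hA]
    apply le_of_eq
    field_simp
  · have e3 : (x : ℝ) ^ (1 / 2 : ℝ) * (x : ℝ) ^ (1 / 2 : ℝ) = x := by
      rw [← Real.rpow_add (by linarith)]; norm_num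
    have e4 : 0 ≤ (x : ℝ) ^ (1 / 2 : ℝ) := by positivity
    calc 2 * (x : ℝ) ^ (1 / 2 : ℝ) * (1 / θ + 2) * Real.log x =
        η / 2 * ((x : ℝ) ^ (1 / 2 : ℝ) * (2 * (1 / θ + 2) * (2 / η) * Real.log x)) := by field_simp
      _ ≤ η / 2 * ((x : ℝ) ^ (1 / 2 : ℝ) * (x : ℝ) ^ (1 / 2 : ℝ)) := by gcongr
      _ = _ := by rw [e3]

/-- **Almost all pairs.** -/
theorem pair_hl (a : ℤ) (ha : 0 < a) (γ η δ : ℝ) (hγ1 : γ ≤ 1) (hη : 0 < η) (hδ : 0 < δ) (hδ1 : δ ≤ 1)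
    (hδη : 18 * δ ≤ η) (h : ConclU a (3 * a) γ (δ * η / (80 * a ^ 3))) :
    ∃ θ : ℝ, 0 < θ ∧ ∃ H0 : ℕ, ∀ H : ℕ, H0 ≤ H → ∀ N : ℕ, H ^ 2 ≤ N → (N : ℝ) ^ γ ≤ (H : ℝ) ^ 2 →
    ∃ Ex ⊆ Icc (-(H : ℤ)) H ×ˢ Icc (-(H : ℤ)) H, (#Ex : ℝ) ≤ η * H ^ 2 ∧
      ∀ q ∈ Icc (-(H : ℤ)) H ×ˢ Icc (-(H : ℤ)) H, q ∉ Ex → QHL a θ η N q.1 q.2 := by
  have haR : (1 : ℝ) ≤ a := by exact_mod_cast ha
  obtain ⟨θ, hθ, h⟩ := unif_of h
  obtain ⟨H0, h⟩ := pair_transfer a ha γ η δ hγ1 hη hδ hδ1 hδη _ h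
  obtain ⟨x1, hx1⟩ := evN' _ (ev_pow' 1 (2 * (1 / θ + 2) * (2 / η)) (1 / 2) (by norm_num))
  refine ⟨θ, hθ, H0 + x1 + 3, fun H hH N hN1 hN2 => ?_⟩
  have hNH : H ≤ N := by nlinarith
  have g1 := hx1 N (by omega)
  rw [pow_one] at g1
  obtain ⟨Ex, k1, k2, k3⟩ := h H (by omega) N hN1 hN2
  refine ⟨Ex, k1, k2, fun q hq hqE hadm => ?_⟩
  obtain ⟨hs1, hQ⟩ := k3 q hq hqE
  obtain ⟨s, hs⟩ : ∃ s : ℤ, s = sh a H q.1 := ⟨_, rfl⟩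
  obtain ⟨b, hb⟩ : ∃ b : ℤ, b = q.1 := ⟨_, rfl⟩
  obtain ⟨c, hc⟩ : ∃ c : ℤ, c = q.2 := ⟨_, rfl⟩
  rw [← hs, ← hb, ← hc] at hQ
  rw [← hs] at hs1
  rw [← hb, ← hc] at hadm ⊢
  have hxr : (3 : ℝ) ≤ N := by exact_mod_cast (by omega : 3 ≤ N)
  have hQ' := hQ (adm_shift s hadm)
  obtain ⟨S, m1, m2, m3, m4⟩ := hQ'
  simp only [partialC_shift] at m2
  rw [eps_shift, gcd_shift] at m3
  refine ⟨S, m1, m2, m3, fun u v huv hvx => ?_⟩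
  have hM0 : 0 ≤ eps a b * S * gcdProd a b := hθ.le.trans m3
  have hA : ((2 * a.toNat * N : ℕ) : ℝ) = 2 * a * N := by
    have : ((a.toNat : ℕ) : ℝ) = a := by
      have : ((a.toNat : ℕ) : ℤ) = a := by omega
      exact_mod_cast this
    push_cast
    rw [this]
  have hat : 1 ≤ a.toNat := by omega
  have hx3 : 2 * N ≤ 2 * a.toNat * N := by nlinarith
  have hsN : s.natAbs ≤ 2 * H := by
    rw [Int.abs_eq_natAbs] at hs1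
    exact_mod_cast hs1
  have h2H : 2 * H ≤ N := by nlinarith
  have h1 := count_shift (s := s) huv (x := 2 * a.toNat * N) (by omega) hM0 m4
  rw [eps_shift, gcd_shift] at h1
  refine h1.trans ?_
  have hlogx : 0 < Real.log N := Real.log_pos (by linarith)
  have hle : (N : ℝ) ≤ ((2 * a.toNat * N : ℕ) : ℝ) := by rw [hA]; nlinarith
  have hsr : ((s.natAbs : ℕ) : ℝ) ≤ 2 * (N : ℝ) ^ (1 / 2 : ℝ) := by
    rw [← Real.sqrt_eq_rpow]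
    have e1 : (H : ℝ) ^ 2 ≤ N := by exact_mod_cast hN1
    have e2 : (H : ℝ) ≤ √N := Real.le_sqrt_of_sq_le e1
    have e3 : ((s.natAbs : ℕ) : ℝ) ≤ 2 * H := by exact_mod_cast hsN
    linarith
  refine shift_num hθ m3 (by positivity) hlogx (Real.log_le_log (by linarith) hle) ?_ (Nat.cast_nonneg _)
    (Nat.cast_nonneg _) hsr ?_
  · rw [hA]
    have e5 : δ * η / (80 * (a : ℝ) ^ 3) * (2 * a * N) = δ * η * N / (40 * a ^ 2) := by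
      field_simp
      ring
    rw [e5, div_le_iff₀ (by positivity)]
    have e6 : (1 : ℝ) ≤ a ^ 2 := by nlinarith
    have e7 : 0 ≤ η * N := by positivity
    nlinarith [mul_nonneg e7 (sub_nonneg.2 hδ1), mul_nonneg e7 (sub_nonneg.2 e6)]
  · have e3 : (N : ℝ) ^ (1 / 2 : ℝ) * (N : ℝ) ^ (1 / 2 : ℝ) = N := by
      rw [← Real.rpow_add (by linarith)]; norm_num
    have e4 : 0 ≤ (N : ℝ) ^ (1 / 2 : ℝ) := by positivity
    calc 2 * (N : ℝ) ^ (1 / 2 : ℝ) * (1 / θ + 2) * Real.log N =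
        η / 2 * ((N : ℝ) ^ (1 / 2 : ℝ) * (2 * (1 / θ + 2) * (2 / η) * Real.log N)) := by field_simp
      _ ≤ η / 2 * ((N : ℝ) ^ (1 / 2 : ℝ) * (N : ℝ) ^ (1 / 2 : ℝ)) := by gcongr
      _ = _ := by rw [e3]

/-- almost all pairs, up to `H^(12/5 - ε)` -/
theorem pair_hl_56 (a : ℤ) (ha : 0 < a) (h : ∀ ε0 : ℝ, 0 < ε0 → ∀ η : ℝ, 0 < η → ConclU a (3 * a) (5 / 6 + ε0) η)
    (ε η : ℝ) (hε : 0 < ε) (hη : 0 < η) :
    ∃ θ : ℝ, 0 < θ ∧ ∃ H0 : ℕ, ∀ H : ℕ, H0 ≤ H → ∀ N : ℕ, H ^ 2 ≤ N → (N : ℝ) ≤ (H : ℝ) ^ (12 / 5 - ε) →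
    ∃ Ex ⊆ Icc (-(H : ℤ)) H ×ˢ Icc (-(H : ℤ)) H, (#Ex : ℝ) ≤ η * H ^ 2 ∧
      ∀ q ∈ Icc (-(H : ℤ)) H ×ˢ Icc (-(H : ℤ)) H, q ∉ Ex → QHL a θ η N q.1 q.2 := by
  obtain ⟨ε0, hε0⟩ : ∃ ε0 : ℝ, ε0 = min (ε / 3) (1 / 6) := ⟨_, rfl⟩
  have h1 : 0 < ε0 := by rw [hε0]; exact lt_min (by positivity) (by norm_num)
  have h2 : ε0 ≤ ε / 3 := by rw [hε0]; exact min_le_left _ _
  have h3 : ε0 ≤ 1 / 6 := by rw [hε0]; exact min_le_right _ _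
  have haR : (1 : ℝ) ≤ a := by exact_mod_cast ha
  obtain ⟨δ, hδ⟩ : ∃ δ : ℝ, δ = min 1 (η / 18) := ⟨_, rfl⟩
  have d1 : 0 < δ := by rw [hδ]; exact lt_min (by norm_num) (by positivity)
  have d2 : δ ≤ 1 := by rw [hδ]; exact min_le_left _ _
  have d3 : δ ≤ η / 18 := by rw [hδ]; exact min_le_right _ _
  obtain ⟨θ, hθ, H0, h⟩ := pair_hl a ha (5 / 6 + ε0) η δ (by linarith) hη d1 d2 (by linarith)
    (h ε0 h1 _ (by positivity))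
  refine ⟨θ, hθ, H0 + 1, fun H hH N hN1 hN2 => h H (by omega) N hN1 ?_⟩
  have hH1 : (1 : ℝ) ≤ H := by exact_mod_cast (by omega : 1 ≤ H)
  calc (N : ℝ) ^ (5 / 6 + ε0) ≤ ((H : ℝ) ^ (12 / 5 - ε)) ^ (5 / 6 + ε0) :=
        Real.rpow_le_rpow (Nat.cast_nonneg _) hN2 (by linarith)
    _ = (H : ℝ) ^ ((12 / 5 - ε) * (5 / 6 + ε0)) := by rw [← Real.rpow_mul (by linarith)]
    _ ≤ (H : ℝ) ^ (2 : ℝ) := Real.rpow_le_rpow_of_exponent_le hH1 (by nlinarith)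
    _ = _ := by rw [Real.rpow_two]

end Pool.Agent.N791.U
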