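import Mathlib
import Pool.Agent.N792.RX2a
import Pool.Agent.N791.U.Base

/-!
Project U, part LCGU (helper401, after helper792): type I functions on average over `c`, uniformly in `b`.
-/

set_option autoImplicit false

namespace Pool.Agent.N791.U

open Finset Filter Topology Pool.Agent.N792

open Ty1C in
/-- the values of a type I function at the polynomial on average over `c`, general coefficients, uniformly in `b` -/
theorem t_LCGU : S_LCGU := by
  intro a ha Λ hΛ hR2 R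
  obtain ⟨C1, hC1, H⟩ := fl_polyU a ha
  obtain ⟨c0, A, hc0, hA, X0, HX0⟩ := range_bdU a ha Λ hΛ R
  have hC1r : (1 : ℝ) ≤ C1 := by exact_mod_cast hC1
  obtain ⟨C3, hC3⟩ : ∃ C3 : ℝ, C3 = 40 * C1 + 4 := ⟨_, rfl⟩
  have hC3a : 40 * (C1 : ℝ) ≤ C3 := by rw [hC3]; linarith
  have hC3b : (4 : ℝ) ≤ C3 := by rw [hC3]; linarith
  have hC3p : 0 < C3 := by linarith
  refine ⟨C3, 1 / (40 * C1 * (C1 + 1)), by linarith, by positivity, ?_, fun η hη hη1 => ?_⟩
  · apply one_div_le_one_div_of_le (by norm_num)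
    nlinarith
  have hη2 : η * (40 * C1 * (C1 + 1)) ≤ 1 := by
    rwa [le_div_iff₀ (by positivity)] at hη1
  have hη3 : η ≤ 1 / 40 := by
    have h1 : (40 : ℝ) ≤ 40 * C1 * (C1 + 1) := by nlinarith
    have h2 : η * 40 ≤ η * (40 * C1 * (C1 + 1)) := mul_le_mul_of_nonneg_left h1 hη.le
    linarith
  obtain ⟨b0, hb1, hb2, hb3⟩ := Ty1L.level hC1 hη hη1
  obtain ⟨t, ht⟩ : ∃ t : ℝ, t = (2 : ℝ) ^ (-(1 / (C3 * η))) := ⟨_, rfl⟩
  have ht0 : 0 < t := by rw [ht]; positivity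
  have hb4 : (1 / 2 : ℝ) ^ b0 ≤ 2 * t := by
    refine hb3.trans ?_
    rw [ht]
    apply mul_le_mul_of_nonneg_left _ (by norm_num)
    apply Real.rpow_le_rpow_of_exponent_le (by norm_num)
    apply neg_le_neg
    apply one_div_le_one_div_of_le (by positivity)
    exact mul_le_mul_of_nonneg_right hC3a hη.le
  obtain ⟨xa, hxa⟩ := hR2 (η / 2) (1 / 10) (by positivity) (by norm_num)
  refine ⟨max xa (max X0 3), fun x hx b hb x1 C J U hx1 hxR hxC hCx hz1 hz2 hU Gd hGd M hM0 hM g hg => ?_⟩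
  have hxa' := hxa x (le_trans (by simp) hx) b
  have hX0' := HX0 x (le_trans (by simp) hx) b hb x1 hx1 hxR
  have hx3 : (3 : ℝ) ≤ x := by exact_mod_cast (le_trans (by simp) hx : 3 ≤ x)
  have hxp : (0 : ℝ) < x := by linarith
  have hx1r : (1 : ℝ) ≤ x := by linarith
  have hbx : b.natAbs ≤ x1 := by
    have := hX0'.1
    omega
  obtain ⟨z, hz⟩ : ∃ z : ℕ, z = 2 ^ 2 ^ J := ⟨_, rfl⟩
  have hX0n : (0 : ℝ) ≤ (x : ℝ) - x1 := by
    have : (x1 : ℝ) ≤ x := by exact_mod_cast hx1.le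
    linarith
  have hXx : (x : ℝ) - x1 ≤ x := by
    have : (0 : ℝ) ≤ x1 := Nat.cast_nonneg _
    linarith
  have hC0 : (0 : ℝ) ≤ C := Nat.cast_nonneg _
  have hUx : U ≤ x := by
    have : (U : ℝ) ≤ x := hU.trans (by
      calc (x : ℝ) ^ (9 / 10 : ℝ) ≤ (x : ℝ) ^ (1 : ℝ) := Real.rpow_le_rpow_of_exponent_le hx1r (by norm_num)
        _ = x := Real.rpow_one _)
    exact_mod_cast this
  -- the error of the fundamental lemma
  obtain ⟨E0, hE0⟩ : ∃ E0 : ℝ, E0 = C1 * (J + 2) * (2 ^ 2 ^ J) ^ (C1 * b0) := ⟨_, rfl⟩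
  have hE0n : 0 ≤ E0 := by rw [hE0]; positivity
  have hE1 : E0 ≤ C1 * (x : ℝ) ^ (1 / 20 : ℝ) := by
    have h1 : ((J : ℝ) + 2) ≤ ((2 : ℝ) ^ 2 ^ J) := by
      have h2 : ((J + 2 : ℕ) : ℝ) ≤ ((2 ^ 2 ^ J : ℕ) : ℝ) := by exact_mod_cast Ty1L.J_le J
      push_cast at h2
      linarith
    have h3 : ((2 : ℝ) ^ 2 ^ J) ≤ (x : ℝ) ^ η := by push_cast at hz2; exact hz2
    calc E0 = C1 * ((J + 2) * (2 ^ 2 ^ J) ^ (C1 * b0)) := by rw [hE0]; ring
      _ ≤ C1 * ((2 ^ 2 ^ J) * (2 ^ 2 ^ J) ^ (C1 * b0)) := by gcongr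
      _ = C1 * (2 ^ 2 ^ J) ^ (C1 * b0 + 1) := by rw [pow_succ]; ring
      _ ≤ C1 * ((x : ℝ) ^ η) ^ (C1 * b0 + 1) := by gcongr
      _ = C1 * (x : ℝ) ^ (η * (C1 * b0 + 1)) := by
          rw [← Real.rpow_natCast, ← Real.rpow_mul hxp.le]
          push_cast
          rfl
      _ ≤ C1 * (x : ℝ) ^ (1 / 20 : ℝ) := by
          apply mul_le_mul_of_nonneg_left _ (by positivity)
          exact Real.rpow_le_rpow_of_exponent_le hx1r hb2
  -- the average of rho
  have hrho : ∀ j ∈ Icc 1 U, rg z j * |g j| * (∑ c ∈ Gd, (rho a b (c : ℕ) j : ℝ)) ≤ rg z j * |g j| * (2 * C) := by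
    intro j hj
    rw [mem_Icc] at hj
    by_cases hr : Rough z j
    · by_cases hgj : g j = 0
      · rw [hgj, abs_zero, mul_zero, zero_mul, zero_mul]
      · apply mul_le_mul_of_nonneg_left _ (mul_nonneg (rg_range z j).1 (abs_nonneg _))
        refine (sum_le_sum_of_subset_of_nonneg hGd fun c _ _ => Nat.cast_nonneg _).trans ?_
        exact hxa' C z j (by norm_num; exact hxC) hCx (by rw [hz]; exact hz1) (hj.2.trans hUx) hr (hg j hj.2 hgj)
    · have : rg z j = 0 := by unfold rg; rw [if_neg hr]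
      rw [this, zero_mul, zero_mul, zero_mul]
  rw [← hz] at hM ⊢
  rw [← ht]
  constructor
  · -- the sum over c
    have hc : ∀ c ∈ Gd, |Lc a b x1 x c (T1 z U g) -
        ((x : ℝ) - x1) * Vc a b (c : ℕ) z * ∑ j ∈ Icc 1 U, rg z j * g j * (rho a b (c : ℕ) j : ℝ) / j| ≤
        ∑ j ∈ Icc 1 U, (rg z j * |g j|) * (rho a b (c : ℕ) j : ℝ) * ((1 / 2) ^ b0 * (M * x / j) + E0) := by
      intro c hcG
      have hc1 := (mem_Icc.1 (hGd hcG)).1
      have h0 : Lc a b x1 x c (T1 z U g) = ∑ j ∈ Icc 1 U, rg z j * g j * T a b x1 x c z j :=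
        Lc_sum ha z U hbx hc1 g
      rw [h0, mul_sum, ← sum_sub_distrib]
      refine (abs_sum_le_sum_abs _ _).trans (sum_le_sum ?_)
      intro j hj
      rw [mem_Icc] at hj
      by_cases hr : Rough z j
      · have h1 := H b b0 hb1 J j x1 x (c : ℕ) hj.1 (hz ▸ hr) hx1.le
        rw [← hz, ← T_card ha hbx hc1 hr] at h1
        have hzr : ((2 : ℝ) ^ 2 ^ J) = (z : ℝ) := by rw [hz]; push_cast; rfl
        rw [← hE0] at h1
        have h2 : rg z j * g j * T a b x1 x c z j -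
            ((x : ℝ) - x1) * Vc a b (c : ℕ) z * (rg z j * g j * (rho a b (c : ℕ) j : ℝ) / j) =
            rg z j * g j * (T a b x1 x c z j - rho a b (c : ℕ) j / j * ((x : ℝ) - x1) * Vc a b (c : ℕ) z) := by
          ring
        rw [h2, abs_mul, abs_mul, abs_of_nonneg (rg_range z j).1, mul_assoc (rg z j * |g j|)]
        apply mul_le_mul_of_nonneg_left _ (mul_nonneg (rg_range z j).1 (abs_nonneg _))
        refine h1.trans ?_
        have hV := hM c hcG
        have hV0 := Lam.Vc_nonneg a b (c : ℕ) z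
        have h3 : (rho a b (c : ℕ) j : ℝ) / j * ((x : ℝ) - x1) * Vc a b (c : ℕ) z ≤ rho a b (c : ℕ) j / j * x * M := by
          gcongr
        calc (1 / 2 : ℝ) ^ b0 * (rho a b (c : ℕ) j / j * ((x : ℝ) - x1) * Vc a b (c : ℕ) z) + rho a b (c : ℕ) j * E0
            ≤ (1 / 2 : ℝ) ^ b0 * (rho a b (c : ℕ) j / j * x * M) + rho a b (c : ℕ) j * E0 := by gcongr
          _ = _ := by ring
      · have : rg z j = 0 := by unfold rg; rw [if_neg hr]
        rw [this]
        simp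
    refine (sum_le_sum hc).trans ?_
    rw [sum_comm]
    have hj : ∀ j ∈ Icc 1 U, ∑ c ∈ Gd, (rg z j * |g j|) * (rho a b (c : ℕ) j : ℝ) * ((1 / 2) ^ b0 * (M * x / j) + E0) ≤
        C3 * t * M * (C * x) * (rg z j * |g j| / j) + C3 * (x : ℝ) ^ (1 / 20 : ℝ) * C * |g j| := by
      intro j hj
      rw [← sum_mul, ← mul_sum]
      obtain ⟨r0, r1⟩ := rg_range z j
      have hj1 : (1 : ℝ) ≤ j := by exact_mod_cast (mem_Icc.1 hj).1
      calc rg z j * |g j| * (∑ c ∈ Gd, (rho a b (c : ℕ) j : ℝ)) * ((1 / 2) ^ b0 * (M * x / j) + E0)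
          ≤ rg z j * |g j| * (2 * C) * ((1 / 2) ^ b0 * (M * x / j) + E0) := by
            apply mul_le_mul_of_nonneg_right (hrho j hj) (by positivity)
        _ ≤ rg z j * |g j| * (2 * C) * ((2 * t) * (M * x / j) + C1 * (x : ℝ) ^ (1 / 20 : ℝ)) := by
            gcongr
        _ = 4 * t * M * (C * x) * (rg z j * |g j| / j) + (2 * C1) * (x : ℝ) ^ (1 / 20 : ℝ) * C * (rg z j * |g j|) := by
            ring
        _ ≤ C3 * t * M * (C * x) * (rg z j * |g j| / j) + C3 * (x : ℝ) ^ (1 / 20 : ℝ) * C * (1 * |g j|) := by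
            have : 2 * (C1 : ℝ) ≤ C3 := by linarith
            gcongr
        _ = _ := by rw [one_mul]
    refine (sum_le_sum hj).trans ?_
    rw [sum_add_distrib, ← mul_sum, ← mul_sum]
  · have hc : ∀ c ∈ Gd, |((x : ℝ) - x1) * Vc a b (c : ℕ) z *
        ∑ j ∈ Icc 1 U, rg z j * g j * (rho a b (c : ℕ) j : ℝ) / j| ≤
        ∑ j ∈ Icc 1 U, (rg z j * |g j|) * (rho a b (c : ℕ) j : ℝ) * (M * x / j) := by
      intro c hcG
      have hV := hM c hcG
      have hV0 := Lam.Vc_nonneg a b (c : ℕ) z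
      rw [mul_sum]
      refine (abs_sum_le_sum_abs _ _).trans (sum_le_sum ?_)
      intro j hj
      have hj1 : (1 : ℝ) ≤ j := by exact_mod_cast (mem_Icc.1 hj).1
      obtain ⟨r0, r1⟩ := rg_range z j
      rw [abs_mul, abs_mul, abs_div, abs_mul, abs_mul, abs_of_nonneg hX0n, abs_of_nonneg hV0, abs_of_nonneg r0,
        Nat.abs_cast, Nat.abs_cast]
      calc ((x : ℝ) - x1) * Vc a b (c : ℕ) z * (rg z j * |g j| * (rho a b (c : ℕ) j : ℝ) / j)
          ≤ x * M * (rg z j * |g j| * (rho a b (c : ℕ) j : ℝ) / j) := by gcongr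
        _ = _ := by ring
    refine (sum_le_sum hc).trans ?_
    rw [sum_comm, mul_sum]
    apply sum_le_sum
    intro j hj
    rw [← sum_mul, ← mul_sum]
    have hj1 : (1 : ℝ) ≤ j := by exact_mod_cast (mem_Icc.1 hj).1
    calc rg z j * |g j| * (∑ c ∈ Gd, (rho a b (c : ℕ) j : ℝ)) * (M * x / j)
        ≤ rg z j * |g j| * (2 * C) * (M * x / j) := by
          apply mul_le_mul_of_nonneg_right (hrho j hj) (by positivity)
      _ = 2 * M * (C * x) * (rg z j * |g j| / j) := by ring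

end Pool.Agent.N791.U
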