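import Mathlib
import Pool.Agent.N792.RX2a
import Pool.Agent.N791.U.Base

/-!
The weighted sum of a type I function, uniformly in the linear coefficient (helper265, after helper72, project U of helper791).
-/

set_option autoImplicit false

namespace Pool.Agent.N791.U
open Finset Filter Topology Pool.Agent.N792

lemma H_subU {a : ℤ} (ha : 0 < a) (b : ℤ) {Λ : ℝ} (hΛ : 1 ≤ Λ) {R x1 x j : ℕ} (hb : (b : ℝ) ^ 2 ≤ Λ * x)
    (hj : 1 ≤ j) (hjF : j ≤ Fn a b x1) (hF : Fn a b x1 ≤ Fn a b x) (hb2 : 2 * |b| ≤ (x1 : ℤ)) (hx : x1 < x)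
    (hxR : x ≤ R * x1) :
    |Ty1L.H a (Fn a b x1) (Fn a b x) j - ((x : ℝ) - x1) / j| ≤ ((R : ℝ) + 1) * Λ + 1 := by
  have hjR : (1 : ℝ) ≤ j := by exact_mod_cast hj
  have hj0 : 0 < j := by omega
  have ha' : (1 : ℝ) ≤ a := by exact_mod_cast ha
  have haj : 0 < a * (j : ℤ) := by positivity
  set F1 := Fn a b x1 with hF1
  set F2 := Fn a b x with hF2
  have e1 : Ty1L.H a F1 F2 j = ∑ k ∈ Ioc (F1 / j) (F2 / j), hw (a * j) k := by
    unfold Ty1L.H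
    apply sum_congr rfl
    intro k _
    unfold hw
    push_cast
    rw [mul_assoc]
  rw [e1]
  have hk1 : 1 ≤ F1 / j := (Nat.one_le_div_iff hj0).2 hjF
  obtain ⟨h1, h2⟩ := lsl_hw_sum haj (F1 / j) hk1 (F2 / j) (Nat.div_le_div_right hF)
  have h5 := lsl_sqrt_succ haj (F1 / j)
  have h3 := sqrt_diff ha b hΛ hb hx hxR hb2
  rw [← hF1, ← hF2] at h3
  -- comparison of the square roots
  have key : ∀ F : ℕ, √(((F / j : ℕ) : ℝ) / ((a * (j : ℤ) : ℤ) : ℝ)) ≤ √((F : ℝ) / a) / j ∧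
      √((F : ℝ) / a) / j ≤ √((((F / j : ℕ) : ℝ) + 1) / ((a * (j : ℤ) : ℤ) : ℝ)) := by
    intro F
    have e2 : √((F : ℝ) / j / ((a * (j : ℤ) : ℤ) : ℝ)) = √((F : ℝ) / a) / j := by
      rw [show (F : ℝ) / j / ((a * (j : ℤ) : ℤ) : ℝ) = (F : ℝ) / a / (j : ℝ) ^ 2 by push_cast; field_simp,
        Real.sqrt_div' _ (by positivity), Real.sqrt_sq (by linarith)]
    rw [← e2]
    have hajR : (0 : ℝ) < ((a * (j : ℤ) : ℤ) : ℝ) := by exact_mod_cast haj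
    constructor
    · apply Real.sqrt_le_sqrt
      apply div_le_div_of_nonneg_right _ hajR.le
      exact Nat.cast_div_le
    · apply Real.sqrt_le_sqrt
      apply div_le_div_of_nonneg_right _ hajR.le
      rw [div_le_iff₀ (by linarith)]
      have h6 : F < (F / j + 1) * j := by
        exact (Nat.div_lt_iff_lt_mul hj0).1 (Nat.lt_succ_self _)
      have h7 : (F : ℝ) < ((F / j : ℕ) + 1) * j := by exact_mod_cast h6
      exact h7.le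
  have k1 := key F1
  have k2 := key F2
  have h6 : |√((F2 : ℝ) / a) / j - √((F1 : ℝ) / a) / j - ((x : ℝ) - x1) / j| ≤ ((R : ℝ) + 1) * Λ := by
    have e3 : √((F2 : ℝ) / a) / j - √((F1 : ℝ) / a) / j - ((x : ℝ) - x1) / j =
        (√((F2 : ℝ) / a) - √((F1 : ℝ) / a) - ((x : ℝ) - x1)) / j := by ring
    rw [e3, abs_div, abs_of_pos (by linarith : (0 : ℝ) < j), div_le_iff₀ (by linarith)]
    have h7 : 0 ≤ ((R : ℝ) + 1) * Λ := by positivity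
    have h8 : ((R : ℝ) + 1) * Λ * 1 ≤ ((R : ℝ) + 1) * Λ * j := mul_le_mul_of_nonneg_left hjR h7
    linarith
  rw [abs_le] at h6 ⊢
  constructor <;> linarith [h6.1, h6.2, k1.1, k1.2, k2.1, k2.2]



/-- the weighted sum of a type I function, general coefficients -/
theorem ls_genU (a : ℤ) (ha : 0 < a) (Λ : ℝ) (hΛ : 1 ≤ Λ) (R : ℕ) : ∃ C2 η0 : ℝ, 1 ≤ C2 ∧ 0 < η0 ∧ η0 ≤ 1 / 40 ∧ ∀ η : ℝ, 0 < η → η ≤ η0 →
    ∃ x0 : ℕ, ∀ x : ℕ, x0 ≤ x → ∀ b : ℤ, (b : ℝ) ^ 2 ≤ Λ * x → ∀ x1 J U : ℕ, x1 < x → x ≤ R * x1 →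
    (x : ℝ) ^ (η / 2) ≤ ((2 ^ 2 ^ J : ℕ) : ℝ) → ((2 ^ 2 ^ J : ℕ) : ℝ) ≤ (x : ℝ) ^ η → (U : ℝ) ≤ (x : ℝ) ^ (9 / 10 : ℝ) →
    ∀ g : ℕ → ℝ,
    |Ls a b x1 x (T1 (2 ^ 2 ^ J) U g) -
      ((x : ℝ) - x1) * V1 (2 ^ 2 ^ J) * ∑ j ∈ Icc 1 U, rg (2 ^ 2 ^ J) j * g j / j| ≤
      C2 * (2 : ℝ) ^ (-(1 / (C2 * η))) / (η * Real.log x) * x * (∑ j ∈ Icc 1 U, rg (2 ^ 2 ^ J) j * |g j| / j) +
        C2 * ∑ j ∈ Icc 1 U, |g j| := by
  obtain ⟨C1, hC1, hfl⟩ := fl_lin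
  obtain ⟨c0, A, hc0, hA, X0, hX0⟩ := range_bdU a ha Λ hΛ R
  have hC1R : (1 : ℝ) ≤ C1 := by exact_mod_cast hC1
  have hsc : 0 < √c0 := Real.sqrt_pos.2 hc0
  obtain ⟨S, hS, hS0⟩ : ∃ S : ℝ, S = 1 / √c0 ∧ 0 < S := ⟨_, rfl, by positivity⟩
  obtain ⟨K3, hK3, hK30⟩ : ∃ K3 : ℝ, K3 = 2 * S * C1 + (((R : ℝ) + 1) * Λ + 1) ∧ 0 < K3 := ⟨_, rfl, by positivity⟩
  obtain ⟨C2, hC2⟩ : ∃ C2 : ℝ, C2 = 40 * C1 + 8 * A * S + K3 := ⟨_, rfl⟩
  have hAS : 0 < A * S := by positivity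
  have hC2a : 40 * (C1 : ℝ) ≤ C2 := by rw [hC2]; nlinarith
  have hC2b : 8 * A * S ≤ C2 := by rw [hC2]; nlinarith
  have hC2c : K3 ≤ C2 := by rw [hC2]; nlinarith
  have hC21 : 1 ≤ C2 := by linarith
  have hC20 : 0 < C2 := by linarith
  refine ⟨C2, 1 / (40 * C1 * (C1 + 1)), hC21, by positivity, ?_, fun η hη hη0 => ?_⟩
  · apply one_div_le_one_div_of_le (by norm_num)
    nlinarith
  obtain ⟨b0, hb1, hb2, hb3⟩ := Ty1L.level hC1 hη hη0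
  have hη1 : η ≤ 1 := by
    refine hη0.trans ?_
    rw [div_le_one (by positivity)]
    nlinarith
  have hev2 := Lam.pow_ev (1 / c0) (9 / 10) 2 (by norm_num)
  obtain ⟨x2, hx2⟩ := eventually_atTop.1 hev2
  refine ⟨max x2 (max X0 3), fun x hx b hb x1 J U hx1 hxR hz1 hz2 hU g => ?_⟩
  have hx3 : 3 ≤ x := by omega
  have hxR3 : (3 : ℝ) ≤ x := by exact_mod_cast hx3
  have hxp : (0 : ℝ) < x := by linarith
  have e2 := hx2 x (by omega)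
  obtain ⟨hbx2, hF1, hF2⟩ := hX0 x (by omega) b hb x1 hx1 hxR
  have hbx : b.natAbs ≤ x1 := by omega
  have hb2' : 2 * |b| ≤ (x1 : ℤ) := by
    rw [Int.abs_eq_natAbs]
    exact_mod_cast hbx2
  have hL : 0 < Real.log x := Real.log_pos (by linarith)
  have hFF : Fn a b x1 ≤ Fn a b x := Mtm.Fn_mono ha hbx hx1.le
  have hbx' : |b| ≤ (x1 : ℤ) := by
    rw [Int.abs_eq_natAbs]
    exact_mod_cast hbx
  have hx11 : 1 ≤ x1 := by
    rcases Nat.eq_zero_or_pos x1 with h | h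
    · rw [h, mul_zero] at hxR; omega
    · exact h
  have hx1R : (x1 : ℝ) < x := by exact_mod_cast hx1
  -- the numbers j are at most F1
  have hUF : (U : ℝ) ≤ (Fn a b x1 : ℕ) := by
    have x2' : (x : ℝ) ^ (2 : ℝ) = (x : ℝ) ^ 2 := by norm_cast
    rw [x2', div_mul_eq_mul_div, one_mul, div_le_iff₀ hc0] at e2
    linarith
  have hUF' : U ≤ Fn a b x1 := by exact_mod_cast hUF
  obtain ⟨z, hz⟩ : ∃ z : ℕ, z = 2 ^ 2 ^ J := ⟨_, rfl⟩
  have hzR : ((2 : ℝ) ^ 2 ^ J) = (z : ℝ) := by rw [hz]; push_cast; rfl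
  have hzJ : J + 2 ≤ z := hz ▸ Ty1L.J_le J
  have hzJR : (J : ℝ) + 2 ≤ z := by exact_mod_cast hzJ
  have hz2' : (2 : ℝ) ≤ z := by exact_mod_cast (by omega : 2 ≤ z)
  have hV0 : 0 < V1 z := V1_pos z
  have hlz : η / 2 * Real.log x ≤ Real.log z := by
    rw [← Real.log_rpow hxp, hz]
    exact Real.log_le_log (by positivity) hz1
  have hV1 : V1 z ≤ 2 / (η * Real.log x) := by
    refine (V1_le z (by omega)).trans ?_
    rw [div_le_div_iff₀ (by nlinarith) (by positivity)]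
    linarith
  have hVone : V1 z ≤ 1 := Shp.V1_le_one z
  -- the error term
  have hE : (C1 : ℝ) * (J + 2) * (2 ^ 2 ^ J) ^ (C1 * b0) ≤ C1 * x := by
    rw [mul_assoc]
    apply mul_le_mul_of_nonneg_left _ (by linarith)
    rw [hzR]
    calc ((J : ℝ) + 2) * (z : ℝ) ^ (C1 * b0) ≤ z * (z : ℝ) ^ (C1 * b0) :=
          mul_le_mul_of_nonneg_right hzJR (by positivity)
      _ = (z : ℝ) ^ (C1 * b0 + 1) := by rw [pow_succ]; ring
      _ ≤ ((x : ℝ) ^ η) ^ (C1 * b0 + 1) := by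
          apply pow_le_pow_left₀ (by linarith)
          rw [hz]
          exact hz2
      _ = (x : ℝ) ^ (η * (C1 * b0 + 1)) := by
          rw [← Real.rpow_natCast, ← Real.rpow_mul hxp.le]
          push_cast
          rfl
      _ ≤ (x : ℝ) ^ (1 : ℝ) := Real.rpow_le_rpow_of_exponent_le (by linarith) (by linarith)
      _ = x := Real.rpow_one _
  -- each j
  have hj : ∀ j ∈ Icc 1 U, |Ty1L.T a (Fn a b x1) (Fn a b x) z j - V1 z * (((x : ℝ) - x1) / j)| ≤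
      2 * (1 / 2) ^ b0 * (A * S * x) * V1 z * (1 / j) + K3 := by
    intro j hj
    rw [mem_Icc] at hj
    have hjR : (1 : ℝ) ≤ j := by exact_mod_cast hj.1
    have t1 := Ty1L.T_sub hfl ha hb1 J (Fn a b x1) (Fn a b x) j hj.1 hFF (1 / √c0 / x)
      (fun N hN => Ty1L.hw_le ha hc0 (by omega) (hF1.trans (by exact_mod_cast hN.le)))
    rw [← hz, ← hS] at t1
    have t2 := H_subU ha b hΛ hb hj.1 (hj.2.trans hUF') hFF hb2' hx1 hxR
    have t3 : |V1 z * Ty1L.H a (Fn a b x1) (Fn a b x) j - V1 z * (((x : ℝ) - x1) / j)| ≤ ((R : ℝ) + 1) * Λ + 1 := by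
      rw [← mul_sub, abs_mul, abs_of_pos hV0]
      calc V1 z * |Ty1L.H a (Fn a b x1) (Fn a b x) j - ((x : ℝ) - x1) / j| ≤ 1 * (((R : ℝ) + 1) * Λ + 1) :=
            mul_le_mul hVone t2 (abs_nonneg _) zero_le_one
        _ = ((R : ℝ) + 1) * Λ + 1 := one_mul _
    have u1 : ((Fn a b x : ℕ) : ℝ) ≤ A * (x : ℝ) ^ 2 := by linarith
    have t4 : 2 * ((1 / 2) ^ b0 * (((Fn a b x : ℕ) : ℝ) / j * V1 z) + C1 * (J + 2) * (2 ^ 2 ^ J) ^ (C1 * b0)) * (S / x) ≤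
        2 * (1 / 2) ^ b0 * (A * S * x) * V1 z * (1 / j) + 2 * S * C1 := by
      calc 2 * ((1 / 2) ^ b0 * (((Fn a b x : ℕ) : ℝ) / j * V1 z) + C1 * (J + 2) * (2 ^ 2 ^ J) ^ (C1 * b0)) * (S / x)
          ≤ 2 * ((1 / 2) ^ b0 * ((A * (x : ℝ) ^ 2) / j * V1 z) + C1 * x) * (S / x) := by gcongr
        _ = 2 * (1 / 2) ^ b0 * (A * S * x) * V1 z * (1 / j) + 2 * S * C1 := by field_simp
    have t5 : Ty1L.T a (Fn a b x1) (Fn a b x) z j - V1 z * (((x : ℝ) - x1) / j) =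
        (Ty1L.T a (Fn a b x1) (Fn a b x) z j - V1 z * Ty1L.H a (Fn a b x1) (Fn a b x) j) +
        (V1 z * Ty1L.H a (Fn a b x1) (Fn a b x) j - V1 z * (((x : ℝ) - x1) / j)) := by ring
    rw [t5]
    refine (abs_add_le _ _).trans ?_
    rw [hK3]
    linarith
  have hdec : Ls a b x1 x (T1 (2 ^ 2 ^ J) U g) =
      ∑ j ∈ Icc 1 U, rg z j * g j * Ty1L.T a (Fn a b x1) (Fn a b x) z j := by
    rw [hz]; exact Ty1L.ls_dec a b x1 x (2 ^ 2 ^ J) U g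
  rw [hdec, ← hz]
  have s1 : ∑ j ∈ Icc 1 U, rg z j * g j * Ty1L.T a (Fn a b x1) (Fn a b x) z j -
      ((x : ℝ) - x1) * V1 z * ∑ j ∈ Icc 1 U, rg z j * g j / j =
      ∑ j ∈ Icc 1 U, rg z j * g j * (Ty1L.T a (Fn a b x1) (Fn a b x) z j - V1 z * (((x : ℝ) - x1) / j)) := by
    rw [mul_sum, ← sum_sub_distrib]
    apply sum_congr rfl
    intro j _
    ring
  rw [s1]
  refine (abs_sum_le_sum_abs _ _).trans ?_
  have hcoef : 2 * (1 / 2) ^ b0 * (A * S * x) * V1 z ≤ C2 * (2 : ℝ) ^ (-(1 / (C2 * η))) / (η * Real.log x) * x := by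
    have hmon : (2 : ℝ) ^ (-(1 / (40 * C1 * η))) ≤ (2 : ℝ) ^ (-(1 / (C2 * η))) := by
      apply Real.rpow_le_rpow_of_exponent_le (by norm_num)
      apply neg_le_neg
      apply one_div_le_one_div_of_le (by positivity)
      exact mul_le_mul_of_nonneg_right hC2a hη.le
    have h1 : (1 / 2 : ℝ) ^ b0 ≤ 2 * (2 : ℝ) ^ (-(1 / (C2 * η))) := hb3.trans (by linarith)
    calc 2 * (1 / 2) ^ b0 * (A * S * x) * V1 z
        ≤ 2 * (2 * (2 : ℝ) ^ (-(1 / (C2 * η)))) * (A * S * x) * (2 / (η * Real.log x)) := by gcongr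
      _ = (8 * A * S) * (2 : ℝ) ^ (-(1 / (C2 * η))) / (η * Real.log x) * x := by field_simp; ring
      _ ≤ C2 * (2 : ℝ) ^ (-(1 / (C2 * η))) / (η * Real.log x) * x := by gcongr
  have s2 : ∀ j ∈ Icc 1 U, |rg z j * g j * (Ty1L.T a (Fn a b x1) (Fn a b x) z j - V1 z * (((x : ℝ) - x1) / j))| ≤
      (C2 * (2 : ℝ) ^ (-(1 / (C2 * η))) / (η * Real.log x) * x) * (rg z j * |g j| / j) + C2 * |g j| := by
    intro j hjm
    have h1 := hj j hjm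
    obtain ⟨r0, r1⟩ := rg_range z j
    rw [abs_mul, abs_mul, abs_of_nonneg r0]
    calc rg z j * |g j| * |Ty1L.T a (Fn a b x1) (Fn a b x) z j - V1 z * (((x : ℝ) - x1) / j)|
        ≤ rg z j * |g j| * (2 * (1 / 2) ^ b0 * (A * S * x) * V1 z * (1 / j) + K3) := by gcongr
      _ = (2 * (1 / 2) ^ b0 * (A * S * x) * V1 z) * (rg z j * |g j| / j) + K3 * (rg z j * |g j|) := by ring
      _ ≤ (C2 * (2 : ℝ) ^ (-(1 / (C2 * η))) / (η * Real.log x) * x) * (rg z j * |g j| / j) + C2 * (1 * |g j|) := by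
          gcongr
      _ = _ := by rw [one_mul]
  refine (sum_le_sum s2).trans ?_
  rw [sum_add_distrib, ← mul_sum, ← mul_sum]


theorem t_LSGU : Pool.Agent.N791.U.S_LSGU := fun a ha Λ hΛ R => ls_genU a ha Λ hΛ R

end Pool.Agent.N791.U
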