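import Pool.Agent.N792.LamB
import Pool.Agent.N791.U.Base

/-!
The weighted number of rough values, uniformly in the linear coefficient `b` (helper281, after
helper566's `ls_rg`; subtask LSRU of helper791).
-/

set_option autoImplicit false

namespace Pool.Agent.N791.U

open Finset Filter Topology Pool.Agent.N792

/-- the weighted number of rough values, uniformly in `b` -/
theorem ls_rgU (a : ℤ) (ha : 0 < a) (Λ : ℝ) (hΛ : 1 ≤ Λ) (R : ℕ) : LSRU a Λ R := by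
  classical
  unfold LSRU
  obtain ⟨C0, hC0, H⟩ := rough_count
  obtain ⟨c0, A, hc0, hA, X0, hX0⟩ := range_bdU a ha Λ hΛ R
  have har : (1 : ℝ) ≤ a := by exact_mod_cast ha
  have hAp : 0 < A := by linarith
  have hsc0 : 0 < √c0 := Real.sqrt_pos.2 hc0
  refine ⟨C0 * (A + 1) * (1 / √c0), mul_pos (mul_pos hC0 (by linarith)) (one_div_pos.2 hsc0), fun η hη hη1 => ?_⟩
  obtain ⟨x0, hx0⟩ := H η hη hη1
  refine ⟨max (max x0 X0) 3, fun x hx b hbx x1 z hx1 hxR hz => ?_⟩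
  obtain ⟨hb', h1, h2⟩ := hX0 x (by omega) b hbx x1 hx1 hxR
  have hb : b.natAbs ≤ x1 := by omega
  have hH := hx0 x (by omega) z hz (Fn a b x1) (Fn a b x) (Mtm.Fn_mono ha hb hx1.le)
  have hx3 : (3 : ℝ) ≤ x := by exact_mod_cast (by omega : 3 ≤ x)
  have hxp : (0 : ℝ) < x := by linarith
  have hL : 0 < Real.log x := Real.log_pos (by linarith)
  have hsc : 0 < √c0 := Real.sqrt_pos.2 hc0
  have hw1 : ∀ N ∈ Ioc (Fn a b x1) (Fn a b x), hw a N ≤ 1 / √c0 / x := by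
    intro N hN
    rw [mem_Ioc] at hN
    have h3 : c0 * (x : ℝ) ^ 2 ≤ N := h1.trans (by exact_mod_cast hN.1.le)
    have h4 : √c0 * x ≤ √((a : ℝ) * N) := by
      apply Real.le_sqrt_of_sq_le
      rw [mul_pow, Real.sq_sqrt hc0.le]
      have hN0 : (0 : ℝ) ≤ N := Nat.cast_nonneg _
      nlinarith
    unfold hw
    have h5 : 0 < √((a : ℝ) * N) := lt_of_lt_of_le (mul_pos hsc hxp) h4
    rw [div_div, div_le_div_iff₀ (by positivity) (by positivity)]
    linarith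
  have hs : Ls a b x1 x (rg z) ≤ (1 / √c0 / x) * (#((Ioc (Fn a b x1) (Fn a b x)).filter (fun k => Rough z k)) : ℝ) := by
    unfold Ls
    rw [card_filter]
    push_cast
    rw [mul_sum]
    apply sum_le_sum
    intro N hN
    unfold rg
    split_ifs
    · rw [one_mul, mul_one]
      exact hw1 N hN
    · simp
  refine hs.trans ?_
  have h6 : ((Fn a b x : ℕ) : ℝ) - (Fn a b x1 : ℕ) + (x : ℝ) ^ (1 / 15 : ℝ) ≤ (A + 1) * x ^ 2 := by
    have h7 : (x : ℝ) ^ (1 / 15 : ℝ) ≤ (x : ℝ) ^ 2 := by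
      have : (x : ℝ) ^ (1 / 15 : ℝ) ≤ (x : ℝ) ^ (2 : ℝ) :=
        Real.rpow_le_rpow_of_exponent_le (by linarith) (by norm_num)
      calc _ ≤ _ := this
        _ = (x : ℝ) ^ 2 := by norm_cast
    have h8 : (0 : ℝ) ≤ (Fn a b x1 : ℕ) := Nat.cast_nonneg _
    linarith
  calc (1 / √c0 / x) * (#((Ioc (Fn a b x1) (Fn a b x)).filter (fun k => Rough z k)) : ℝ)
      ≤ (1 / √c0 / x) * (C0 * ((((Fn a b x : ℕ) : ℝ) - (Fn a b x1 : ℕ)) + (x : ℝ) ^ (1 / 15 : ℝ)) / (η * Real.log x)) :=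
        mul_le_mul_of_nonneg_left hH (by positivity)
    _ ≤ (1 / √c0 / x) * (C0 * ((A + 1) * x ^ 2) / (η * Real.log x)) := by gcongr
    _ = C0 * (A + 1) * (1 / √c0) * x / (η * Real.log x) := by field_simp

theorem t_LSRU : Pool.Agent.N791.U.S_LSRU := by
  intro a ha Λ hΛ R
  exact ls_rgU a ha Λ hΛ R

end Pool.Agent.N791.U
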