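import Pool.Agent.N792.Mtm
import Pool.Agent.N791.U.Base

/-!
The main term of the type II sums, uniformly in the linear coefficient (helper128, for project U of helper791, after
helper96, helper792).
-/

set_option autoImplicit false

namespace Pool.Agent.N791.U

open Finset Filter Topology Pool.Agent.N792
open ArithmeticFunction (moebius vonMangoldt)

lemma mtu_ev (Λ : ℝ) (R P : ℕ) : ∀ᶠ x : ℕ in atTop, ∀ b : ℤ, (b : ℝ) ^ 2 ≤ Λ * x →
    (2 * (1 + (b.natAbs : ℝ) + R) + 6 * R) * Real.log x ^ P ≤ x := by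
  obtain ⟨K, hK⟩ : ∃ K : ℝ, K = 2 + 8 * R := ⟨_, rfl⟩
  have hK0 : 0 ≤ K := by rw [hK]; positivity
  filter_upwards [Mtm.ev_pow (P + P) (2 * K ^ 2 * (Λ + 1)) (s := 1) one_pos, eventually_ge_atTop 1] with x hx hx1 b hb
  rw [Real.rpow_one] at hx
  have hx0 : (1 : ℝ) ≤ x := by exact_mod_cast hx1
  obtain ⟨L, hL⟩ : ∃ L, L = Real.log (x : ℝ) := ⟨_, rfl⟩
  have hL0 : 0 ≤ L := by rw [hL]; exact Real.log_nonneg hx0
  rw [← hL] at hx ⊢
  rw [natAbs_real]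
  have h0 : 0 ≤ |(b : ℝ)| := abs_nonneg _
  have h1 : (2 * (1 + |(b : ℝ)| + R) + 6 * R) ≤ K * (|(b : ℝ)| + 1) := by
    rw [hK]
    have hR : (0 : ℝ) ≤ R * |(b : ℝ)| := by positivity
    nlinarith
  have h2 : (2 * (1 + |(b : ℝ)| + R) + 6 * R) * L ^ P ≤ K * (|(b : ℝ)| + 1) * L ^ P :=
    mul_le_mul_of_nonneg_right h1 (by positivity)
  refine h2.trans ?_
  apply abs_le_of_sq_le_sq' _ (by linarith) |>.2
  have h4 : (|(b : ℝ)| + 1) ^ 2 ≤ 2 * ((b : ℝ) ^ 2 + 1) := by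
    rw [← sq_abs (b : ℝ)]
    nlinarith [sq_nonneg (|(b : ℝ)| - 1)]
  calc (K * (|(b : ℝ)| + 1) * L ^ P) ^ 2 = K ^ 2 * (|(b : ℝ)| + 1) ^ 2 * L ^ (P + P) := by rw [pow_add]; ring
    _ ≤ K ^ 2 * (2 * ((b : ℝ) ^ 2 + 1)) * L ^ (P + P) := by gcongr
    _ ≤ K ^ 2 * (2 * (Λ * x + x)) * L ^ (P + P) := by gcongr
    _ = (2 * K ^ 2 * (Λ + 1) * L ^ (P + P)) * x := by ring
    _ ≤ x * x := mul_le_mul_of_nonneg_right hx (by linarith)
    _ = (x : ℝ) ^ 2 := by ring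

open Mtm in
theorem t_MTU : Pool.Agent.N791.U.S_MTU := by
  intro a ha Λ hΛ ε hε R A A0 E
  classical
  obtain ⟨C1, hC1, hfl⟩ := fl_polyU a ha
  obtain ⟨P, hP⟩ : ∃ P, P = A + A0 + E + 10 := ⟨_, rfl⟩
  obtain ⟨n1, hn1⟩ := err_small C1 E P hε
  obtain ⟨n2, hn2⟩ := V1_inv E
  have hlim : Filter.Tendsto (fun N : ℕ => Real.log (N : ℝ)) Filter.atTop Filter.atTop :=
    Real.tendsto_log_atTop.comp (tendsto_natCast_atTop_atTop (R := ℝ))
  obtain ⟨n3, hn3⟩ := eventually_atTop.1 ((ev_pow E (4 * (R : ℝ) ^ 2 + 4) (s := 1) one_pos).and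
    ((mtu_ev Λ R P).and ((hlim.eventually_ge_atTop 1000).and ((ev_bn Λ hΛ ((R + 1) * (4 * R + 4))).and
      (ev_bn Λ hΛ (a.natAbs + 1))))))
  refine ⟨n1 + n2 + n3 + 1,
    fun x hx b hbx x1 c m Jw t hx1 hxR hc1 hcx hm hmx hmr hwE ht1 ht2 β hβ => ?_⟩
  obtain ⟨B, hB⟩ : ∃ B : ℕ, B = b.natAbs := ⟨_, rfl⟩
  have hN1 := hn1 x (by omega)
  have hN2 := hn2 x (by omega)
  obtain ⟨c3, c4', c5, c6, c7⟩ := hn3 x (by omega)
  have c4 := c4' b hbx
  have c6 := c6 b hbx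
  have c7 := c7 b hbx
  rw [← hB] at c4 c6 c7
  have hxbig : (R + 1) * (4 * B + 4 * R + 4) ≤ x := by
    refine le_trans ?_ c6
    have e1 : (R + 1) * (4 * R + 4) * (B + 1) = (R + 1) * (4 * B + 4 * R + 4) + (R + 1) * (4 * (R * B)) := by ring
    rw [e1]
    exact Nat.le_add_right _ _
  have hxa : a.natAbs + B + 1 ≤ x := by
    refine le_trans ?_ c7
    have e1 : (a.natAbs + 1) * (B + 1) = a.natAbs + B + 1 + a.natAbs * B := by ring
    rw [e1]
    exact Nat.le_add_right _ _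
  rw [Real.rpow_one] at c3
  have hR1 : 1 ≤ R := by
    rcases Nat.eq_zero_or_pos R with h | h
    · rw [h] at hxR; omega
    · exact h
  have hx0 : (0 : ℝ) < x := by exact_mod_cast (by omega : 0 < x)
  have hx1r : (1 : ℝ) ≤ x := by exact_mod_cast (by omega : 1 ≤ x)
  obtain ⟨L, hL⟩ : ∃ L, L = Real.log (x : ℝ) := ⟨_, rfl⟩
  obtain ⟨b0, hb0⟩ : ∃ b0, b0 = C1 + Nat.clog 2 ⌈Real.log x ^ P⌉₊ := ⟨_, rfl⟩
  obtain ⟨herr, hth⟩ := hN1 Jw b0 hwE hb0
  have hVi := hN2 _ hwE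
  rw [← hL] at hwE ht1 ht2 hβ c3 c4 c5 herr hth hVi ⊢
  have hL0 : 0 < L := by linarith
  have hL1 : 1 ≤ L := by linarith
  -- sizes
  have hx1big : 4 * B + 4 * R + 4 ≤ x1 := by
    have h5 : (R + 1) * (4 * B + 4 * R + 4) ≤ R * x1 := hxbig.trans hxR
    have h6 : R * (4 * B + 4 * R + 4) ≤ R * x1 := le_trans (Nat.mul_le_mul_right _ (by omega)) h5
    exact Nat.le_of_mul_le_mul_left h6 hR1
  have hbx1 : b.natAbs ≤ x1 := by rw [← hB]; omega
  have hmxx : (m : ℝ) ≤ x := by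
    refine hmx.trans ?_
    calc (x : ℝ) ^ (1 - ε) ≤ (x : ℝ) ^ (1 : ℝ) := Real.rpow_le_rpow_of_exponent_le hx1r (by linarith)
      _ = x := Real.rpow_one _
  have hmxn : m ≤ x := by exact_mod_cast hmxx
  have hm0 : (0 : ℝ) < m := by exact_mod_cast hm
  have hF1z := Fn_cast ha hbx1
  have hF1 : x1 ^ 2 ≤ 2 * Fn a b x1 := by
    have h5 : (x1 : ℤ) ^ 2 ≤ 2 * (Fn a b x1 : ℤ) := by
      rw [hF1z]
      have h6 : -(B : ℤ) ≤ b := by omega
      have h7 : (4 * B : ℤ) ≤ x1 := by exact_mod_cast (by omega : 4 * B ≤ x1)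
      have h8 : (x1 : ℤ) ^ 2 * 1 ≤ x1 ^ 2 * a := mul_le_mul_of_nonneg_left (by omega) (by positivity)
      have h9 : -(B : ℤ) * x1 ≤ b * x1 := mul_le_mul_of_nonneg_right h6 (by positivity)
      have h10 : (4 * B : ℤ) * x1 ≤ x1 * x1 := mul_le_mul_of_nonneg_right h7 (by positivity)
      nlinarith
    exact_mod_cast h5
  -- the lower end of the range of `k`
  have hkA : 2 ^ t + 1 ≤ Fn a b x1 / m := by
    rw [Nat.le_div_iff_mul_le hm]
    have h5 : ((2 ^ t + 1 : ℕ) : ℝ) ≤ 2 * L ^ E := by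
      push_cast
      have : 1 ≤ L ^ E := one_le_pow₀ hL1
      linarith
    have h6 : (R : ℝ) ^ 2 * (4 * L ^ E) ≤ x := by
      have h7 : 0 ≤ L ^ E := by positivity
      calc (R : ℝ) ^ 2 * (4 * L ^ E) ≤ (4 * (R : ℝ) ^ 2 + 4) * L ^ E := by nlinarith
        _ ≤ (x : ℝ) := c3
    have h7 : (R : ℝ) ^ 2 * (2 * (((2 ^ t + 1 : ℕ) : ℝ) * m)) ≤ (R : ℝ) ^ 2 * x1 ^ 2 := by
      calc (R : ℝ) ^ 2 * (2 * (((2 ^ t + 1 : ℕ) : ℝ) * m)) ≤ (R : ℝ) ^ 2 * (2 * ((2 * L ^ E) * x)) := by gcongr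
        _ = ((R : ℝ) ^ 2 * (4 * L ^ E)) * x := by ring
        _ ≤ x * x := mul_le_mul_of_nonneg_right h6 hx0.le
        _ ≤ (R * x1) * (R * x1) := by
            have : (x : ℝ) ≤ R * x1 := by exact_mod_cast hxR
            gcongr
        _ = (R : ℝ) ^ 2 * x1 ^ 2 := by ring
    have hRp : (0 : ℝ) < (R : ℝ) ^ 2 := by
      have : (0 : ℝ) < R := by exact_mod_cast hR1
      positivity
    have h8 := le_of_mul_le_mul_left h7 hRp
    have h9 : 2 * ((2 ^ t + 1) * m) ≤ x1 ^ 2 := by exact_mod_cast h8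
    omega
  obtain ⟨kA, hA⟩ : ∃ kA, kA = Fn a b x1 / m := ⟨_, rfl⟩
  have hmkA : x1 ^ 2 ≤ 4 * (m * kA) := by
    have h5 : Fn a b x1 < m * (kA + 1) := by rw [hA]; exact Nat.lt_mul_div_succ _ hm
    have h6 : m * (kA + 1) = m * kA + m := by ring
    have h7 : 4 * m ≤ x1 ^ 2 := by
      calc 4 * m ≤ 4 * (R * x1) := by omega
        _ = (4 * R) * x1 := by ring
        _ ≤ x1 * x1 := Nat.mul_le_mul_right _ (by omega)
        _ = x1 ^ 2 := by ring
    omega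
  have hhw : (m : ℝ) * hw a (m * kA) ≤ R := by
    have hx10 : (0 : ℝ) < x1 := by exact_mod_cast (by omega : 0 < x1)
    have h5 : (x1 : ℝ) / 2 ≤ √((a : ℝ) * ((m * kA : ℕ) : ℝ)) := by
      apply Real.le_sqrt_of_sq_le
      have h6 : ((x1 : ℝ)) ^ 2 ≤ 4 * ((m * kA : ℕ) : ℝ) := by exact_mod_cast hmkA
      have h7 : (1 : ℝ) ≤ a := by exact_mod_cast ha
      have h8 : ((m * kA : ℕ) : ℝ) ≤ a * ((m * kA : ℕ) : ℝ) := le_mul_of_one_le_left (by positivity) h7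
      nlinarith
    have h6 : hw a (m * kA) ≤ 1 / x1 := by
      unfold hw
      apply one_div_le_one_div_of_le hx10
      linarith
    calc (m : ℝ) * hw a (m * kA) ≤ (R * x1) * (1 / x1) := by
          apply mul_le_mul _ h6 (hw_nonneg _ _) (by positivity)
          have : (x : ℝ) ≤ R * x1 := by exact_mod_cast hxR
          linarith
      _ = R := by field_simp
  -- the number of cells
  obtain ⟨X, hX⟩ : ∃ X, X = Fn a b x + c := ⟨_, rfl⟩
  have hXx : X ≤ x ^ 3 := by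
    have h5 : (X : ℤ) ≤ (x : ℤ) ^ 3 := by
      rw [hX]
      push_cast
      rw [Fn_cast ha (hbx1.trans hx1.le)]
      have h6 : b ≤ (B : ℤ) := by omega
      have h7 : (a : ℤ) + B + 1 ≤ x := by omega
      have h8 : (c : ℤ) ≤ x := by exact_mod_cast hcx
      have h9 : (1 : ℤ) ≤ x := by omega
      have h10 : b * (x : ℤ) ≤ B * x := mul_le_mul_of_nonneg_right h6 (by positivity)
      have h11 : (B : ℤ) * x ≤ B * x ^ 2 := by
        have : (x : ℤ) ≤ x ^ 2 := by nlinarith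
        exact mul_le_mul_of_nonneg_left this (by positivity)
      have h12 : (x : ℤ) ≤ x ^ 2 := by nlinarith
      have h13 : ((a : ℤ) + B + 1) * x ^ 2 ≤ x * x ^ 2 := mul_le_mul_of_nonneg_right h7 (by positivity)
      nlinarith
    exact_mod_cast h5
  obtain ⟨Q, hQ⟩ : ∃ Q : ℝ, Q = 2 ^ t := ⟨_, rfl⟩
  have hQ0 : 0 < Q := by rw [hQ]; positivity
  have hT : (#((Icc (2 ^ t + 1) X).image (cl t)) : ℝ) ≤ 10 * L * Q := by
    have h5 : ((#((Icc (2 ^ t + 1) X).image (cl t)) : ℕ) : ℝ) ≤ (((Nat.log 2 X + 1) * 2 ^ (t + 1) : ℕ) : ℝ) := by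
      exact_mod_cast card_cells t X
    refine h5.trans ?_
    push_cast
    have h6 : (Nat.log 2 X : ℝ) ≤ 4.5 * L := by
      rcases Nat.eq_zero_or_pos X with h0 | h0
      · rw [h0]
        simp
        linarith
      · have h7 : 2 ^ Nat.log 2 X ≤ x ^ 3 := (Nat.pow_log_le_self 2 h0.ne').trans hXx
        have h8 : (2 : ℝ) ^ Nat.log 2 X ≤ (x : ℝ) ^ 3 := by exact_mod_cast h7
        have h9 := Real.log_le_log (by positivity) h8
        rw [Real.log_pow, Real.log_pow, ← hL] at h9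
        have h10 := Real.log_two_gt_d9
        push_cast at h9
        have h11 : (0 : ℝ) ≤ Nat.log 2 X := by positivity
        nlinarith
    rw [pow_succ, hQ]
    have h7 : (Nat.log 2 X : ℝ) + 1 ≤ 5 * L := by linarith
    calc ((Nat.log 2 X : ℝ) + 1) * (2 ^ t * 2) ≤ 5 * L * (2 ^ t * 2) := by gcongr
      _ = _ := by ring
  -- the general inequality
  obtain ⟨Err, hErr⟩ : ∃ Err : ℝ, Err = C1 * (Jw + 2) * (2 ^ 2 ^ Jw) ^ (C1 * b0) := ⟨_, rfl⟩
  have hErr0 : 0 ≤ Err := by rw [hErr]; positivity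
  have hmain := struct ha hx1 hbx1 hxR hcx hm hmr hkA hX.ge (B0 := L ^ A0) (θ := (1 / 2) ^ b0) (Err := Err)
    (by positivity) hβ (by positivity) hErr0 (by
      intro n1 n2 h12 S hS
      have h5 := hfl b b0 (by omega) Jw m n1 n2 c hm hmr h12
      rw [← hErr] at h5
      have h6 : S = (Ioc n1 n2).filter (fun n : ℕ => (m : ℤ) ∣ fv a b c n ∧ Rough (2 ^ 2 ^ Jw) (fv a b c n).natAbs) := by
        ext n
        rw [hS, mem_filter]
      rw [h6]
      exact h5) hT (V1_pos' _) hVi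
  refine hmain.trans ?_
  apply mul_le_mul_of_nonneg_left _ (Nat.cast_nonneg _)
  rw [← hA, ← hB, ← hQ]
  rw [← hErr] at herr
  obtain ⟨θ, hθ⟩ : ∃ θ : ℝ, θ = (1 / 2) ^ b0 := ⟨_, rfl⟩
  rw [← hθ] at hth ⊢
  have hθ0 : 0 ≤ θ := by rw [hθ]; positivity
  rw [← hQ] at ht1 ht2
  -- the five terms
  obtain ⟨Y, hY⟩ : ∃ Y : ℝ, Y = x / (m * L ^ A) := ⟨_, rfl⟩
  have hY0 : 0 < Y := by rw [hY]; positivity
  have hxm : (x : ℝ) / m = Y * L ^ A := by rw [hY]; field_simp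
  have hP1 : L * L ^ A0 * (10 * L * Q) ≤ 10 * L ^ (2 + A0 + E) := by
    have e : L ^ (2 + A0 + E) = L * L ^ A0 * (L * L ^ E) := by ring
    rw [e]
    have : L * L ^ A0 * (10 * L * Q) = 10 * (L * L ^ A0 * (L * Q)) := by ring
    rw [this]
    gcongr
  have hLP : L ^ P = L ^ (2 + A0 + E) * (L ^ A * L ^ 8) := by
    rw [hP]
    ring
  have h8 : (1000 : ℝ) ≤ L ^ 8 := c5.trans (le_self_pow₀ hL1 (by norm_num))
  have hLA : 0 < L ^ A := by positivity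
  have hLE : 0 < L ^ (2 + A0 + E) := by positivity
  have hLPp : 0 < L ^ P := by positivity
  have hbnd : ∀ s : ℝ, 0 ≤ s → s * L ^ P ≤ x / m → L * L ^ A0 * (10 * L * Q) * s ≤ Y / 10 := by
    intro s hs h
    rw [hxm, hLP] at h
    have e1 : L ^ A * (L ^ (2 + A0 + E) * s * L ^ 8) ≤ L ^ A * Y := by
      calc L ^ A * (L ^ (2 + A0 + E) * s * L ^ 8) = s * (L ^ (2 + A0 + E) * (L ^ A * L ^ 8)) := by ring
        _ ≤ Y * L ^ A := h
        _ = L ^ A * Y := by ring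
    have e2 := le_of_mul_le_mul_left e1 hLA
    have e3 : L ^ (2 + A0 + E) * s * 1000 ≤ Y := le_trans (mul_le_mul_of_nonneg_left h8 (by positivity)) e2
    calc L * L ^ A0 * (10 * L * Q) * s ≤ 10 * L ^ (2 + A0 + E) * s := mul_le_mul_of_nonneg_right hP1 hs
      _ ≤ Y / 10 := by linarith
  have T1 : L * L ^ A0 * (10 * L * Q) * (θ * (x / m)) ≤ Y / 10 := by
    apply hbnd _ (by positivity)
    calc θ * (x / m) * L ^ P = (θ * L ^ P) * (x / m) := by ring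
      _ ≤ 1 * (x / m) := mul_le_mul_of_nonneg_right hth (by positivity)
      _ = x / m := one_mul _
  have T2 : L * L ^ A0 * (10 * L * Q) * Err ≤ Y / 10 := by
    apply hbnd _ hErr0
    refine herr.trans ?_
    rw [le_div_iff₀ hm0]
    calc (x : ℝ) ^ ε * m ≤ (x : ℝ) ^ ε * (x : ℝ) ^ (1 - ε) := by gcongr
      _ = x := by
          rw [← Real.rpow_add hx0]
          norm_num
  have T3 : L * L ^ A0 * (10 * L * Q) * ((2 * (1 + B + R) + 6 * (m * hw a (m * kA))) / m) ≤ Y / 10 := by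
    have g0 : 0 ≤ hw a (m * kA) := hw_nonneg _ _
    apply hbnd _ (by positivity)
    rw [div_mul_eq_mul_div]
    apply div_le_div_of_nonneg_right _ hm0.le
    refine le_trans ?_ c4
    apply mul_le_mul_of_nonneg_right _ hLPp.le
    linarith
  have hQA : L * L ^ A0 / Q * L ^ 4 * L ^ A ≤ 1 := by
    rw [div_mul_eq_mul_div, div_mul_eq_mul_div, div_le_one hQ0]
    refine le_trans (le_of_eq ?_) ht1
    ring
  have h3 : (1000 : ℝ) ≤ L ^ 3 := c5.trans (le_self_pow₀ hL1 (by norm_num))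
  have T4 : L * L ^ A0 * (10 * L * Q * (2 * (x / (m * Q)) / Q)) ≤ Y / 10 := by
    have e1 : L * L ^ A0 * (10 * L * Q * (2 * (x / (m * Q)) / Q)) = 20 * (L * L ^ A0 / Q * L * (x / m)) := by
      field_simp
      ring
    rw [e1, hxm]
    have e2 : (L * L ^ A0 / Q * L * (Y * L ^ A)) * L ^ 3 ≤ Y := by
      calc (L * L ^ A0 / Q * L * (Y * L ^ A)) * L ^ 3 = (L * L ^ A0 / Q * L ^ 4 * L ^ A) * Y := by ring
        _ ≤ 1 * Y := mul_le_mul_of_nonneg_right hQA hY0.le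
        _ = Y := one_mul _
    have e3 : 0 ≤ L * L ^ A0 / Q * L * (Y * L ^ A) := by positivity
    have e4 : (L * L ^ A0 / Q * L * (Y * L ^ A)) * 1000 ≤ Y := le_trans (mul_le_mul_of_nonneg_left h3 e3) e2
    linarith
  have T5 : L * L ^ A0 * (4 * (x / (m * Q))) ≤ Y / 10 := by
    have e1 : L * L ^ A0 * (4 * (x / (m * Q))) = 4 * (L * L ^ A0 / Q * (x / m)) := by
      field_simp
    rw [e1, hxm]
    have h4 : (1000 : ℝ) ≤ L ^ 4 := c5.trans (le_self_pow₀ hL1 (by norm_num))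
    have e2 : (L * L ^ A0 / Q * (Y * L ^ A)) * L ^ 4 ≤ Y := by
      calc (L * L ^ A0 / Q * (Y * L ^ A)) * L ^ 4 = (L * L ^ A0 / Q * L ^ 4 * L ^ A) * Y := by ring
        _ ≤ 1 * Y := mul_le_mul_of_nonneg_right hQA hY0.le
        _ = Y := one_mul _
    have e3 : 0 ≤ L * L ^ A0 / Q * (Y * L ^ A) := by positivity
    have e4 : (L * L ^ A0 / Q * (Y * L ^ A)) * 1000 ≤ Y := le_trans (mul_le_mul_of_nonneg_left h4 e3) e2
    linarith
  rw [← hY]
  have hexp : L * L ^ A0 * (10 * L * Q * (θ * (x / m) + Err) +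
      10 * L * Q * ((2 * (1 + B + R) + 6 * (m * hw a (m * kA))) / m) +
      (10 * L * Q * (2 * (x / (m * Q)) / Q) + 4 * (x / (m * Q)))) =
      L * L ^ A0 * (10 * L * Q) * (θ * (x / m)) + L * L ^ A0 * (10 * L * Q) * Err +
      L * L ^ A0 * (10 * L * Q) * ((2 * (1 + B + R) + 6 * (m * hw a (m * kA))) / m) +
      L * L ^ A0 * (10 * L * Q * (2 * (x / (m * Q)) / Q)) + L * L ^ A0 * (4 * (x / (m * Q))) := by ring
  rw [hexp]
  linarith

end Pool.Agent.N791.U
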