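import Mathlib
import Pool.Agent.N792.Pow
import Pool.Agent.N792.Lia
import Pool.Agent.N791.U.Base

/-!
Project U (helper791), parts PAU and LIU (helper891): `pow_avg` (helper713) and `li_asym` (helper225), uniformly in the
linear coefficient `b`, `b² ≤ Λ x`.
-/

set_option autoImplicit false

namespace Pool.Agent.N791.U

open Finset Filter Topology Pool.Agent.N792
open ArithmeticFunction (moebius vonMangoldt)

theorem t_PAU : S_PAU := by
  classical
  intro a ha Λ hΛ R
  obtain ⟨X0, hX0⟩ := eventually_atTop.1 (ev_bn Λ hΛ (R + 1))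
  set A : ℕ := a.natAbs + 2 with hA
  refine ⟨⌈Real.exp (18 * R * A)⌉₊ + A + X0 + 3, ?_⟩
  intro x hx b hbL x1 C hx1 hR hC
  have hbx := hX0 x (by omega) b hbL
  have hxA : A ≤ x := by omega
  have hx3 : 3 ≤ x := by omega
  have hxR : R * (b.natAbs + 1) ≤ x := by nlinarith
  have hbn : b.natAbs ≤ x := by nlinarith
  have hR0 : 0 < R := by
    rcases Nat.eq_zero_or_pos R with h | h
    · subst h; omega
    · exact h
  have hb1 : b.natAbs + 1 ≤ x1 := by
    have : R * (b.natAbs + 1) ≤ R * x1 := hxR.trans hR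
    exact Nat.le_of_mul_le_mul_left this hR0
  have hexp : Real.exp (18 * R * A) ≤ x := by
    refine (Nat.le_ceil _).trans ?_
    exact_mod_cast (by omega : ⌈Real.exp (18 * R * A)⌉₊ ≤ x)
  have hxpos : (0 : ℝ) < x := by exact_mod_cast (by omega : 0 < x)
  have hlog : 18 * (R : ℝ) * A ≤ Real.log x := by
    rw [Real.le_log_iff_exp_le hxpos]; exact hexp
  have hlog1 : 0 ≤ Real.log x := Real.log_nonneg (by exact_mod_cast (by omega : 1 ≤ x))
  -- the values
  set val : ℕ × ℕ → ℕ := fun q => (fv a b q.1 q.2).toNat with hval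
  set M : ℕ := A * x ^ 2 with hM
  have hpos : ∀ c n : ℕ, 1 ≤ c → x1 < n → (0 : ℤ) < fv a b c n := by
    intro c n hc hn
    unfold fv
    have h1 : -(x1 : ℤ) ≤ b := by omega
    have h2 : (x1 : ℤ) < n := by exact_mod_cast hn
    have h3 : (1 : ℤ) ≤ c := by exact_mod_cast hc
    nlinarith [mul_pos (by linarith : (0:ℤ) < n) (by linarith : (0 : ℤ) < n + b), mul_nonneg (by linarith : (0:ℤ) ≤ a - 1) (sq_nonneg (n : ℤ))]
  have hle : ∀ c n : ℕ, c ≤ C → x1 < n → n ≤ x → (fv a b c n) ≤ (M : ℤ) := by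
    intro c n hc hn hnx
    unfold fv
    have h1 : (n : ℤ) ≤ x := by exact_mod_cast hnx
    have h2 : (c : ℤ) ≤ x := by exact_mod_cast hc.trans hC
    have h3 : (0 : ℤ) ≤ n := by positivity
    have hx0 : (1 : ℤ) ≤ x := by exact_mod_cast (by omega : 1 ≤ x)
    have h4 : a * (n : ℤ) ^ 2 ≤ a * (x : ℤ) ^ 2 := by
      apply mul_le_mul_of_nonneg_left _ ha.le
      nlinarith
    have h5 : b * n ≤ (x : ℤ) ^ 2 := by
      have hbx' : b ≤ (x : ℤ) := by omega
      calc b * n ≤ (x : ℤ) * n := by nlinarith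
        _ ≤ (x : ℤ) * x := by nlinarith
        _ = (x : ℤ) ^ 2 := by ring
    have h6 : (c : ℤ) ≤ x ^ 2 := by nlinarith
    have h7 : ((A * x ^ 2 : ℕ) : ℤ) = (a.natAbs : ℤ) * x ^ 2 + x ^ 2 + x ^ 2 := by
      rw [hA]; push_cast; ring
    have h8 : (a.natAbs : ℤ) = a := by omega
    rw [hM, h7, h8]
    linarith
  set T : Finset (ℕ × ℕ) := (Icc 1 C ×ˢ Ioc x1 x).filter
    (fun q => ¬ (val q).Prime ∧ vonMangoldt (val q) ≠ 0) with hT
  set P : Finset ℕ := (Icc 1 M).filter (fun N => ¬ N.Prime ∧ vonMangoldt N ≠ 0) with hP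
  -- fibres
  have hfib : ∀ N ∈ P, #(T.filter (fun q => val q = N)) ≤ R := by
    intro N _
    rcases (T.filter (fun q => val q = N)).eq_empty_or_nonempty with h0 | h0
    · rw [h0]; simp
    have hinj : Set.InjOn Prod.snd (T.filter (fun q => val q = N) : Set (ℕ × ℕ)) := by
      rintro ⟨c, n⟩ h1 ⟨d, m⟩ h2 h3
      simp only [coe_filter, Set.mem_ofPred_eq, hT, mem_filter, mem_product, mem_Icc, mem_Ioc] at h1 h2
      simp only at h3
      subst h3
      have e1 := Int.toNat_of_nonneg (hpos c n h1.1.1.1.1 h1.1.1.2.1).le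
      have e2 := Int.toNat_of_nonneg (hpos d n h2.1.1.1.1 h2.1.1.2.1).le
      have e3 : val (c, n) = val (d, n) := h1.2.trans h2.2.symm
      simp only [hval] at e3
      have e4 : fv a b c n = fv a b d n := by rw [← e1, ← e2, e3]
      unfold fv at e4
      have : (c : ℤ) = d := by linarith
      have : c = d := by exact_mod_cast this
      rw [this]
    rw [← card_image_of_injOn hinj]
    set S := (T.filter (fun q => val q = N)).image Prod.snd with hS
    have hSne : S.Nonempty := h0.image _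
    have hsub : S ⊆ Ico (S.min' hSne) (S.min' hSne + R) := by
      intro m hm
      have hmin := S.min'_mem hSne
      have hle' := S.min'_le m hm
      set n := S.min' hSne with hn
      rw [hS, mem_image] at hm hmin
      obtain ⟨⟨d, m'⟩, h2, rfl⟩ := hm
      obtain ⟨⟨c, n'⟩, h1, hn'⟩ := hmin
      simp only at hn' hle' ⊢
      simp only [hT, mem_filter, mem_product, mem_Icc, mem_Ioc] at h1 h2
      rw [mem_Ico]
      refine ⟨hle', ?_⟩
      rw [← hn'] at hle' ⊢
      have e1 := Int.toNat_of_nonneg (hpos c n' h1.1.1.1.1 h1.1.1.2.1).le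
      have e2 := Int.toNat_of_nonneg (hpos d m' h2.1.1.1.1 h2.1.1.2.1).le
      have e3 : val (c, n') = val (d, m') := h1.2.trans h2.2.symm
      simp only [hval] at e3
      have e4 : fv a b c n' = fv a b d m' := by rw [← e1, ← e2, e3]
      have e5 := Pow.diff_ge a ha b x1 n' m' (by omega) h1.1.1.2.1 hle' c d e4
      have e6 : ((m' : ℤ) - n') * x1 < R * x1 := by
        have : (c : ℤ) ≤ C := by exact_mod_cast h1.1.1.1.2
        have h7 : (C : ℤ) ≤ x := by exact_mod_cast hC
        have h8 : (x : ℤ) ≤ R * x1 := by exact_mod_cast hR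
        have h9 : (1 : ℤ) ≤ d := by exact_mod_cast h2.1.1.1.1
        linarith
      have e7 : (m' : ℤ) - n' < R := lt_of_mul_lt_mul_right e6 (by positivity)
      omega
    refine (card_le_card hsub).trans ?_
    simp
  have hmaps : ∀ q ∈ T, val q ∈ P := by
    rintro ⟨c, n⟩ hq
    rw [hT, mem_filter, mem_product, mem_Icc, mem_Ioc] at hq
    obtain ⟨⟨hc, hn⟩, hq2⟩ := hq
    rw [hP, mem_filter, mem_Icc]
    refine ⟨⟨?_, ?_⟩, hq2⟩
    · have := hpos c n hc.1 hn.1
      simp only [hval]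
      omega
    · have := hle c n hc.2 hn.1 hn.2
      simp only [hval]
      omega
  have hcardT : #T ≤ R * #P := by
    have := card_le_mul_card_image_of_maps_to hmaps R hfib
    simpa [mul_comm] using this
  have hsqrt : Nat.sqrt M ≤ A * x := by
    rw [hM]
    have h1 : A * x ^ 2 ≤ (A * x) ^ 2 := by
      rw [mul_pow]
      have : A ≤ A ^ 2 := Nat.le_self_pow two_ne_zero A
      exact Nat.mul_le_mul_right _ this
    calc Nat.sqrt (A * x ^ 2) ≤ Nat.sqrt ((A * x) ^ 2) := Nat.sqrt_le_sqrt h1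
      _ = A * x := Nat.sqrt_eq' _
  have hMpos : 0 < M := by rw [hM]; positivity
  have hAx : Real.log A ≤ Real.log x := Real.log_le_log (by rw [hA]; positivity) (by exact_mod_cast hxA)
  have hlogM : Real.log M ≤ 3 * Real.log x := by
    rw [hM]
    push_cast
    rw [Real.log_mul (by rw [hA]; positivity) (by positivity), Real.log_pow]
    push_cast
    linarith
  have hlog2 : (Nat.log 2 M : ℝ) ≤ 6 * Real.log x := by
    have h1 : (2 : ℝ) ^ Nat.log 2 M ≤ M := by exact_mod_cast Nat.pow_log_le_self 2 hMpos.ne'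
    have h2 := Real.log_le_log (by positivity) h1
    rw [Real.log_pow] at h2
    have h3 : (1 : ℝ) / 2 ≤ Real.log 2 := by linarith [Real.log_two_gt_d9]
    have h4 : (0 : ℝ) ≤ Nat.log 2 M := by positivity
    nlinarith
  have hcardP : (#P : ℝ) ≤ (A * x) * (6 * Real.log x) := by
    have h1 : (#P : ℝ) ≤ (Nat.sqrt M : ℝ) * (Nat.log 2 M : ℝ) := by exact_mod_cast Pow.card_pp M
    refine h1.trans ?_
    refine mul_le_mul ?_ hlog2 (by positivity) (by positivity)
    exact_mod_cast hsqrt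
  -- the sum
  have hsum : ∑ c ∈ Icc 1 C, Lc a b x1 x c (fun N => if N.Prime then 0 else vonMangoldt N) =
      ∑ q ∈ T, vonMangoldt (val q) := by
    unfold Lc
    rw [← Finset.sum_product' (f := fun c n => (fun N => if N.Prime then 0 else vonMangoldt N) (fv a b (c : ℕ) n).toNat)]
    rw [hT, sum_filter]
    refine sum_congr rfl ?_
    rintro ⟨c, n⟩ _
    simp only [hval]
    by_cases h1 : ((fv a b c n).toNat).Prime
    · simp [h1]
    · by_cases h2 : vonMangoldt (fv a b c n).toNat = 0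
      · simp [h1, h2]
      · simp [h1, h2]
  rw [hsum]
  have hterm : ∀ q ∈ T, vonMangoldt (val q) ≤ 3 * Real.log x := by
    intro q hq
    have h1 := hmaps q hq
    rw [hP, mem_filter, mem_Icc] at h1
    refine ArithmeticFunction.vonMangoldt_le_log.trans ((Real.log_le_log ?_ ?_).trans hlogM)
    · exact_mod_cast h1.1.1
    · exact_mod_cast h1.1.2
  refine (sum_le_card_nsmul T _ _ hterm).trans ?_
  rw [nsmul_eq_mul]
  have hT' : (#T : ℝ) ≤ R * ((A * x) * (6 * Real.log x)) := by
    have : (#T : ℝ) ≤ R * #P := by exact_mod_cast hcardT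
    exact this.trans (mul_le_mul_of_nonneg_left hcardP (by positivity))
  calc (#T : ℝ) * (3 * Real.log x) ≤ (R * ((A * x) * (6 * Real.log x))) * (3 * Real.log x) :=
        mul_le_mul_of_nonneg_right hT' (by positivity)
    _ = x * (18 * R * A) * Real.log x ^ 2 := by ring
    _ ≤ x * Real.log x * Real.log x ^ 2 := by
        apply mul_le_mul_of_nonneg_right _ (by positivity)
        exact mul_le_mul_of_nonneg_left hlog (by positivity)
    _ = x * Real.log x ^ 3 := by ring

/-- termwise bound, uniform in `b` -/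
theorem lia_termU (a : ℤ) (ha : 0 < a) (b : ℤ) (θ : ℝ) (hθ : 0 < θ) (x : ℕ) (hx : 2 ≤ x)
    (hL1 : 1 ≤ Real.log x) (h6 : 6 ≤ θ * Real.log x)
    (hl : 4 * Real.log (Real.log x) + Real.log 2 + Real.log ((a : ℝ) + 2) ≤ θ * Real.log x)
    (hl2 : 4 * Real.log (Real.log x) + Real.log 2 ≤ Real.log x)
    (hb : 2 * |(b : ℝ)| ≤ x / Real.log x ^ 2) (hbx : |(b : ℝ)| ≤ x)
    (c : ℕ) (hc : c ∈ Icc 1 x) (m : ℕ) (hm : m ≤ x) :
    |1 / Real.log ((a : ℝ) * m ^ 2 + b * m + c) - 1 / (2 * Real.log x)| ≤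
      θ / (2 * Real.log x) + (if (m : ℝ) ≤ x / Real.log x ^ 2 then 3 else 0) := by
  rw [mem_Icc] at hc
  have hc1 : (1 : ℝ) ≤ c := by exact_mod_cast hc.1
  have hcx : (c : ℝ) ≤ x := by exact_mod_cast hc.2
  have hmx : (m : ℝ) ≤ x := by exact_mod_cast hm
  have hx2 : (2 : ℝ) ≤ x := by exact_mod_cast hx
  have ha1 : (1 : ℝ) ≤ a := by exact_mod_cast ha
  set L := Real.log x with hLdef
  have hL0 : 0 < L := by linarith
  split_ifs with hT
  · have h1 := lia_trivial (a * (m : ℤ) ^ 2 + b * m + c)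
    push_cast at h1
    have h2 : |1 / (2 * L)| ≤ 1 := by
      rw [abs_of_nonneg (by positivity), div_le_one (by positivity)]
      linarith
    have h3 : 0 ≤ θ / (2 * L) := by positivity
    calc |1 / Real.log ((a : ℝ) * m ^ 2 + b * m + c) - 1 / (2 * L)|
        ≤ |1 / Real.log ((a : ℝ) * m ^ 2 + b * m + c)| + |1 / (2 * L)| := abs_sub _ _
      _ ≤ 2 + 1 := add_le_add h1 h2
      _ ≤ θ / (2 * L) + 3 := by linarith
  · push Not at hT
    rw [add_zero]
    have hm0 : (0 : ℝ) ≤ m := by positivity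
    have hbm : 2 * |(b : ℝ)| ≤ m := by linarith
    set f : ℝ := (a : ℝ) * m ^ 2 + b * m + c with hf
    have hb1 : -(|(b : ℝ)| * m) ≤ b * m := by
      rw [← neg_mul]
      exact mul_le_mul_of_nonneg_right (neg_abs_le _) hm0
    have hb2 : (b : ℝ) * m ≤ |(b : ℝ)| * m := mul_le_mul_of_nonneg_right (le_abs_self _) hm0
    have hlow : (m : ℝ) ^ 2 / 2 ≤ f := by
      have : 2 * |(b : ℝ)| * m ≤ m * m := mul_le_mul_of_nonneg_right hbm hm0
      nlinarith
    have hTpos : 0 < (x : ℝ) / L ^ 2 := by positivity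
    have hm1 : ((x : ℝ) / L ^ 2) ^ 2 ≤ (m : ℝ) ^ 2 := by
      apply pow_le_pow_left₀ hTpos.le hT.le
    have hlow2 : ((x : ℝ) / L ^ 2) ^ 2 / 2 ≤ f := by linarith
    have hfpos : 0 < f := lt_of_lt_of_le (by positivity) hlow2
    have hlogl : 2 * L - 4 * Real.log L - Real.log 2 ≤ Real.log f := by
      have h1 := Real.log_le_log (by positivity) hlow2
      rw [Real.log_div (by positivity) (by norm_num), Real.log_pow, Real.log_div (by positivity) (by positivity),
        Real.log_pow] at h1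
      push_cast at h1
      linarith
    have hup : f ≤ ((a : ℝ) + 2) * (x : ℝ) ^ 2 := by
      have h1 : (a : ℝ) * m ^ 2 ≤ a * x ^ 2 := by
        apply mul_le_mul_of_nonneg_left _ (by linarith)
        exact pow_le_pow_left₀ hm0 hmx 2
      have h2 : |(b : ℝ)| * m ≤ x ^ 2 := by
        rw [sq]
        exact mul_le_mul hbx hmx hm0 (by linarith)
      have h3 : (c : ℝ) ≤ x ^ 2 := by nlinarith
      rw [hf]
      nlinarith
    have hlogu : Real.log f ≤ 2 * L + Real.log ((a : ℝ) + 2) := by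
      have h1 := Real.log_le_log hfpos hup
      have hK : 0 < (a : ℝ) + 2 := by linarith
      rw [Real.log_mul hK.ne' (by positivity), Real.log_pow] at h1
      push_cast at h1
      linarith
    have hfL : L ≤ Real.log f := by linarith
    have hK0 : 0 ≤ Real.log ((a : ℝ) + 2) := Real.log_nonneg (by linarith)
    have hLL : 0 ≤ Real.log L := Real.log_nonneg hL1
    have hl20 : 0 ≤ Real.log 2 := Real.log_nonneg (by norm_num)
    have hdiff : |2 * L - Real.log f| ≤ θ * L := by
      rw [abs_le]; constructor <;> linarith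
    have heq : 1 / Real.log f - 1 / (2 * L) = (2 * L - Real.log f) / (2 * L * Real.log f) := by
      have h1 : Real.log f ≠ 0 := by linarith
      field_simp
    have hfp : 0 < 2 * L * Real.log f := mul_pos (by positivity) (by linarith)
    rw [heq, abs_div, abs_of_pos hfp]
    rw [div_le_div_iff₀ hfp (by positivity)]
    calc |2 * L - Real.log f| * (2 * L) ≤ (θ * L) * (2 * L) := by gcongr
      _ ≤ θ * (2 * L * Real.log f) := by
        have : L * L ≤ L * Real.log f := mul_le_mul_of_nonneg_left hfL hL0.le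
        nlinarith

theorem t_LIU : S_LIU := by
  intro a ha Λ hΛ θ hθ
  have hlogt : Tendsto (fun x : ℕ => Real.log (x : ℝ)) atTop atTop :=
    Real.tendsto_log_atTop.comp tendsto_natCast_atTop_atTop
  have hloglog : (fun y : ℝ => Real.log y) =o[atTop] fun y => y := Real.isLittleO_log_id_atTop
  have key : ∀ (A B : ℝ), 0 < B → ∀ᶠ x : ℕ in atTop,
      4 * Real.log (Real.log x) + A ≤ B * Real.log x := by
    intro A B hB
    have h1 : ∀ᶠ y : ℝ in atTop, 4 * Real.log y + A ≤ B * y := by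
      have h2 := hloglog.bound (show (0 : ℝ) < B / 8 by positivity)
      filter_upwards [h2, eventually_ge_atTop (2 * |A| / B), eventually_ge_atTop (1 : ℝ)] with y hy hy2 hy3
      have h4 : Real.log y ≤ B / 8 * y := by
        have := (le_abs_self (Real.log y)).trans hy
        rwa [Real.norm_eq_abs, abs_of_nonneg (by linarith : (0 : ℝ) ≤ y)] at this
      have h5 : 2 * |A| ≤ B * y := by
        rw [div_le_iff₀ hB] at hy2; linarith
      have h6 := le_abs_self A
      linarith
    exact hlogt.eventually h1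
  have hxl : ∀ᶠ x : ℕ in atTop, ∀ b : ℤ, (b : ℝ) ^ 2 ≤ Λ * x → 2 * |(b : ℝ)| ≤ x / Real.log x ^ 2 := by
    have h1 : (fun y : ℝ => Real.log y ^ 4) =o[atTop] fun y => y := by
      have := isLittleO_log_rpow_rpow_atTop (s := 1) 4 (by norm_num : (0 : ℝ) < 1)
      simpa using this
    have h2 := h1.bound (show (0 : ℝ) < 1 / (4 * Λ) by positivity)
    have h3 := (tendsto_natCast_atTop_atTop (R := ℝ)).eventually h2
    filter_upwards [h3, hlogt.eventually_ge_atTop 1] with x hx hx1 b hb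
    have hp : 0 < Real.log (x : ℝ) ^ 2 := by positivity
    have hp4 : 0 < Real.log (x : ℝ) ^ 4 := by positivity
    rw [Real.norm_eq_abs, Real.norm_eq_abs, abs_of_pos hp4, abs_of_nonneg (by positivity : (0 : ℝ) ≤ (x : ℝ))] at hx
    rw [one_div, inv_mul_eq_div, le_div_iff₀ (by positivity)] at hx
    rw [le_div_iff₀ hp]
    have hx0 : (0 : ℝ) ≤ x := by positivity
    refine (abs_le_of_sq_le_sq' ?_ hx0).2
    calc (2 * |(b : ℝ)| * Real.log (x : ℝ) ^ 2) ^ 2 = 4 * (b : ℝ) ^ 2 * Real.log (x : ℝ) ^ 4 := by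
          rw [mul_pow, mul_pow, sq_abs]; ring
      _ ≤ 4 * (Λ * x) * Real.log (x : ℝ) ^ 4 := by gcongr
      _ = (Real.log (x : ℝ) ^ 4 * (4 * Λ)) * x := by ring
      _ ≤ x * x := mul_le_mul_of_nonneg_right hx hx0
      _ = (x : ℝ) ^ 2 := by ring
  have hall := ((hlogt.eventually_ge_atTop 1).and ((hlogt.eventually_ge_atTop (6 / θ)).and
    ((key (Real.log 2 + Real.log ((a : ℝ) + 2)) θ hθ).and ((key (Real.log 2) 1 one_pos).and
      (hxl.and ((eventually_ge_atTop 2).and (ev_b Λ hΛ 1)))))))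
  obtain ⟨x0, hx0⟩ := eventually_atTop.1 hall
  refine ⟨x0, fun x hx b hb c hc u v huv hvx => ?_⟩
  obtain ⟨h1, h2, h3, h4, h5', h6, h7'⟩ := hx0 x hx
  have h5 := h5' b hb
  have hbx : |(b : ℝ)| ≤ x := by
    have := h7' b hb
    linarith
  set L := Real.log (x : ℝ) with hL
  have hL0 : 0 < L := by linarith
  have h2' : 6 ≤ θ * L := by
    rw [div_le_iff₀ hθ] at h2; linarith
  have hsum : ∑ m ∈ Ioc u v, 1 / Real.log ((a : ℝ) * m ^ 2 + b * m + c) - ((v : ℝ) - u) / (2 * L) =
      ∑ m ∈ Ioc u v, (1 / Real.log ((a : ℝ) * m ^ 2 + b * m + c) - 1 / (2 * L)) := by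
    rw [sum_sub_distrib, sum_const, Nat.card_Ioc, nsmul_eq_mul, Nat.cast_sub huv]
    ring
  rw [hsum]
  calc |∑ m ∈ Ioc u v, (1 / Real.log ((a : ℝ) * m ^ 2 + b * m + c) - 1 / (2 * L))|
      ≤ ∑ m ∈ Ioc u v, |1 / Real.log ((a : ℝ) * m ^ 2 + b * m + c) - 1 / (2 * L)| :=
        abs_sum_le_sum_abs _ _
    _ ≤ ∑ m ∈ Ioc u v, (θ / (2 * L) + (if (m : ℝ) ≤ x / L ^ 2 then 3 else 0)) := by
        apply sum_le_sum
        intro m hm
        rw [mem_Ioc] at hm
        exact lia_termU a ha b θ hθ x h6 h1 h2' (by linarith) (by linarith) h5 hbx c hc m (by omega)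
    _ = ((v : ℝ) - u) * (θ / (2 * L)) + 3 * #((Ioc u v).filter (fun m : ℕ => (m : ℝ) ≤ x / L ^ 2)) := by
        rw [sum_add_distrib, sum_const, Nat.card_Ioc, nsmul_eq_mul, Nat.cast_sub huv, ← sum_filter,
          sum_const, nsmul_eq_mul]
        ring
    _ ≤ x * (θ / (2 * L)) + 3 * (x / L ^ 2) := by
        have hv : (v : ℝ) - u ≤ x := by
          have : (v : ℝ) ≤ x := by exact_mod_cast hvx
          have : (0 : ℝ) ≤ u := by positivity
          linarith
        have hcard : (#((Ioc u v).filter (fun m : ℕ => (m : ℝ) ≤ x / L ^ 2)) : ℝ) ≤ x / L ^ 2 := by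
          have hsub : (Ioc u v).filter (fun m : ℕ => (m : ℝ) ≤ x / L ^ 2) ⊆ Icc 1 ⌊(x : ℝ) / L ^ 2⌋₊ := by
            intro m hm
            rw [mem_filter, mem_Ioc] at hm
            rw [mem_Icc]
            exact ⟨by omega, Nat.le_floor hm.2⟩
          have h7 := card_le_card hsub
          rw [Nat.card_Icc, Nat.add_sub_cancel] at h7
          have h8 : ((⌊(x : ℝ) / L ^ 2⌋₊ : ℕ) : ℝ) ≤ x / L ^ 2 := Nat.floor_le (by positivity)
          have h9 : (#((Ioc u v).filter (fun m : ℕ => (m : ℝ) ≤ x / L ^ 2)) : ℝ) ≤ ((⌊(x : ℝ) / L ^ 2⌋₊ : ℕ) : ℝ) := by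
            exact_mod_cast h7
          exact h9.trans h8
        have hθL : 0 ≤ θ / (2 * L) := by positivity
        have := mul_le_mul_of_nonneg_right hv hθL
        linarith
    _ ≤ θ * (x / L) := by
        have e1 : (x : ℝ) * (θ / (2 * L)) = θ / 2 * (x / L) := by field_simp
        have e2 : 3 * ((x : ℝ) / L ^ 2) = 3 / L * (x / L) := by field_simp
        have e3 : 3 / L ≤ θ / 2 := by
          rw [div_le_div_iff₀ hL0 (by norm_num)]; linarith
        have e4 : 0 ≤ (x : ℝ) / L := by positivity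
        rw [e1, e2]
        have := mul_le_mul_of_nonneg_right e3 e4
        linarith


end Pool.Agent.N791.U
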