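import Mathlib
import Pool.Agent.N792.QR1
import Pool.Agent.N791.U.Base

/-!
R1, uniformly in the linear coefficient `b` (helper136, after helper722, for helper791).
-/

set_option autoImplicit false

namespace Pool.Agent.N791.U

open Finset Filter Topology Pool.Agent.N792

open RhA

/-- **R1: the average of `ρ_c(m) - 1` over squarefree rough numbers up to `x`, uniformly in `b`** -/
theorem r1U (a : ℤ) (ha : 0 < a) (Λ : ℝ) (hΛ : 1 ≤ Λ) : R1U a Λ := by
  classical
  intro η ε N hη hε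
  set κ := min ε (1 / 4) with hκ
  have hκ0 : 0 < κ := lt_min hε (by norm_num)
  have hκ1 : κ ≤ 1 / 4 := min_le_right _ _
  have hκε : κ ≤ ε := min_le_left _ _
  obtain ⟨K, hK0, hK⟩ := Pool.Agent.Helper112.divisor_bound (κ / 40) (by positivity)
  set Ka : ℝ := Λ + 4 * a with hKa
  set ν := min η (κ / 2) with hν
  have hν0 : 0 < ν := lt_min hη (by positivity)
  have haR : (1 : ℝ) ≤ a := by exact_mod_cast ha
  have hKa1 : 1 ≤ Ka := by
    rw [hKa]
    linarith
  have e1 : ∀ᶠ x : ℕ in atTop, (200 : ℝ) ≤ Real.log x := Shp.log_ge 200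
  have e2 := ev_log_pow (4 * 4 * 99) (4 * N + 3) hν0
  have e3 := ev_log_pow (2 * a + 1) 0 hη
  have e4 := ev_log_pow (K ^ 2 * 16 * 168 * 256 * Ka) (8 * N + 9) (by positivity : (0 : ℝ) < 3 * κ / 4)
  have e5 := ev_log_pow (2 * Ka) 0 (by norm_num : (0 : ℝ) < 1)
  have e6 := ev_log_pow 2 0 (by positivity : (0 : ℝ) < 1 / 2 + κ / 2)
  obtain ⟨x0, hx0⟩ := eventually_atTop.1 (((((e1.and e2).and e3).and e4).and e5).and e6)
  refine ⟨max x0 3, fun x hx b hb C z U y h hC1 hC2 hz hyx hh hsq => ?_⟩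
  obtain ⟨⟨⟨⟨⟨f1, f2⟩, f3⟩, f4⟩, f5⟩, f6⟩ := hx0 x ((le_max_left _ _).trans hx)
  have hx3 : 3 ≤ x := (le_max_right _ _).trans hx
  rw [pow_zero, mul_one] at f3 f5 f6
  rw [Real.rpow_one] at f5
  have hxpos : (0 : ℝ) < x := by
    have : 0 < x := by omega
    exact_mod_cast this
  have hx1' : (1 : ℝ) ≤ x := by
    have : 1 ≤ x := by omega
    exact_mod_cast this
  have hCx : (C : ℝ) ≤ x := by exact_mod_cast hC2
  have hC1' : (x : ℝ) ^ (1 / 2 + κ) ≤ C :=
    (Real.rpow_le_rpow_of_exponent_le hx1' (by linarith)).trans hC1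
  set L := Real.log x with hL
  have hL0 : 0 < L := by linarith
  have hzpos : (0 : ℝ) < z := lt_of_lt_of_le (Real.rpow_pos_of_pos hxpos _) hz
  have hza : 2 * a < z := by
    have h1 : (2 * (a : ℝ)) < z := by linarith
    exact_mod_cast h1
  have hC0 : (0 : ℝ) < C := lt_of_lt_of_le (Real.rpow_pos_of_pos hxpos _) hC1
  set G := x * L ^ N with hG
  have hG0 : 0 ≤ G := by positivity
  set g : ℕ → ℝ := fun m => if (U < m ∧ m ≤ y) then h m else 0 with hg
  have hhG : ∀ m ∈ Ioc U y, |h m| ≤ rg z m * (G / m) := hh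
  have hhr : ∀ m ∈ Ioc U y, h m ≠ 0 → Rough z m := by
    intro m hm hne
    by_contra hcon
    have h1 : rg z m = 0 := by unfold rg; rw [if_neg hcon]
    have h2 := hhG m hm
    rw [h1, zero_mul] at h2
    exact hne (abs_nonpos_iff.1 h2)
  have hhG1 : ∀ m ∈ Ioc U y, |h m| ≤ G / m := by
    intro m hm
    refine (hhG m hm).trans ?_
    exact mul_le_of_le_one_left (by positivity) (rg_range z m).2
  have hgG : ∀ m, |g m| ≤ G / m := by
    intro m
    simp only [hg]
    split_ifs with hc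
    · exact hhG1 m (mem_Ioc.2 hc)
    · rw [abs_zero]; positivity
  have hg0 : ∀ m, g m ≠ 0 → Squarefree m ∧ Rough z m := by
    intro m hm
    simp only [hg, ne_eq, ite_eq_right_iff, Classical.not_imp] at hm
    obtain ⟨hc, hne⟩ := hm
    exact ⟨hsq m (mem_Ioc.2 hc) hne, hhr m (mem_Ioc.2 hc) hne⟩
  -- the coefficients
  set B := G * (1 + L) with hB
  have hB0 : 0 ≤ B := by positivity
  have hx1n : 1 ≤ x := by omega
  have hu : ∀ d, |RhA.gp g x d| ≤ B / d := by
    intro d
    rcases Nat.eq_zero_or_pos d with hd | hd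
    · have : RhA.gp g x d = 0 := by
        unfold RhA.gp
        apply sum_eq_zero
        intro m hm
        rw [mem_filter, mem_Icc, hd, zero_dvd_iff] at hm
        omega
      rw [this, abs_zero, hd]
      simp
    · exact gp_le g G hG0 hgG x d hx1n hd
  have hu0 : ∀ d, RhA.gp g x d ≠ 0 → Squarefree d ∧ Rough z d := fun d => gp_supp g z hg0 x d
  have hux : ∀ d, x < d → RhA.gp g x d = 0 := by
    intro d hd
    unfold RhA.gp
    apply sum_eq_zero
    intro m hm
    rw [mem_filter, mem_Icc] at hm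
    have := Nat.le_of_dvd (by omega) hm.2
    omega
  -- the splitting
  set y0 : ℕ := ⌊(x : ℝ) ^ (1 / 2 + κ / 2)⌋₊ with hy0
  have hy0le : (y0 : ℝ) ≤ (x : ℝ) ^ (1 / 2 + κ / 2) := Nat.floor_le (by positivity)
  have hy0ge : (x : ℝ) ^ (1 / 2 + κ / 2) / 2 ≤ y0 := by
    have h1 := Nat.sub_one_lt_floor ((x : ℝ) ^ (1 / 2 + κ / 2))
    rw [← hy0] at h1
    linarith
  have hy01 : 1 ≤ y0 := by
    have : (1 : ℝ) ≤ y0 := by linarith
    exact_mod_cast this
  have hy0x : y0 ≤ x := by
    have : (y0 : ℝ) ≤ x := by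
      refine hy0le.trans ?_
      nth_rw 2 [← Real.rpow_one (x : ℝ)]
      exact Real.rpow_le_rpow_of_exponent_le hx1' (by linarith)
    exact_mod_cast this
  set J : ℕ → ℕ → ℝ := fun c d => ((jacobiSym (b ^ 2 - 4 * a * (c : ℕ)) d : ℤ) : ℝ) with hJ
  set S1 : ℕ → ℝ := fun c => ∑ d ∈ Icc 2 y0, RhA.gp g x d * J c d with hS1
  set S2 : ℕ → ℝ := fun c => ∑ d ∈ Ioc y0 x, RhA.gp g x d * J c d with hS2
  have hsplit : ∀ c ∈ Icc 1 C, |∑ m ∈ Ioc U y, h m * ((rho a b (c : ℕ) m : ℝ) - 1)| ≤ |S1 c| + |S2 c| := by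
    intro c _
    have h1 : ∑ m ∈ Ioc U y, h m * ((rho a b (c : ℕ) m : ℝ) - 1) =
        ∑ m ∈ Icc 1 x, g m * ((rho a b (c : ℕ) m : ℝ) - 1) := by
      have h2 : Ioc U y ⊆ Icc 1 x := by
        intro m hm
        rw [mem_Ioc] at hm
        rw [mem_Icc]
        omega
      rw [← sum_subset h2]
      · apply sum_congr rfl
        intro m hm
        rw [mem_Ioc] at hm
        simp only [hg]
        rw [if_pos hm]
      · intro m _ hm2
        simp only [hg]
        rw [if_neg, zero_mul]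
        intro h
        exact hm2 (mem_Ioc.2 h)
    rw [h1, inner_eq a ha b c x z g hza hg0]
    have h2 : Icc 2 x = Icc 2 y0 ∪ Ioc (max 1 y0) x := by
      ext d
      rw [mem_union, mem_Icc, mem_Icc, mem_Ioc]
      omega
    have h3 : max 1 y0 = y0 := max_eq_right hy01
    rw [h2, h3, sum_union]
    · exact abs_add_le _ _
    · rw [disjoint_left]
      intro d hd hd'
      rw [mem_Icc] at hd
      rw [mem_Ioc] at hd'
      omega
  refine (sum_le_sum hsplit).trans ?_
  rw [sum_add_distrib]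
  have hBle : B ≤ 2 * x * L ^ (N + 1) := by
    rw [hB, hG]
    calc x * L ^ N * (1 + L) ≤ x * L ^ N * (2 * L) := by
          apply mul_le_mul_of_nonneg_left _ (by positivity)
          linarith
      _ = _ := by ring
  have hB2 : B ^ 2 ≤ 4 * L ^ (2 * N + 2) * x ^ 2 := by
    calc B ^ 2 ≤ (2 * x * L ^ (N + 1)) ^ 2 := pow_le_pow_left₀ hB0 hBle 2
      _ = _ := by ring
  have hLN : 0 < L ^ N := by positivity
  have hA1 : ∑ c ∈ Icc 1 C, |S1 c| ≤ C * x / (2 * L ^ N) := by
    have hsec := Rh2.second a ha b C y0 z B (RhA.gp g x) hB0 hza hy01 hu hu0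
    have hxν : (x : ℝ) ^ ν * (x : ℝ) ^ (-ν) = 1 := by
      rw [← Real.rpow_add hxpos]
      norm_num
    have hcz : (C : ℝ) / z + 32 * y0 ≤ 33 * (C * (x : ℝ) ^ (-ν)) := by
      have h1 : (C : ℝ) / z ≤ (C * (x : ℝ) ^ (-ν)) := by
        rw [div_le_iff₀ hzpos]
        have h2 : (x : ℝ) ^ ν ≤ z := (Real.rpow_le_rpow_of_exponent_le hx1' (min_le_left _ _)).trans hz
        calc (C : ℝ) = (C * ((x : ℝ) ^ ν * (x : ℝ) ^ (-ν))) := by rw [hxν, mul_one]
          _ = (C * (x : ℝ) ^ (-ν)) * (x : ℝ) ^ ν := by ring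
          _ ≤ (C * (x : ℝ) ^ (-ν)) * z := mul_le_mul_of_nonneg_left h2 (by positivity)
      have h2 : (y0 : ℝ) ≤ C * (x : ℝ) ^ (-ν) := by
        calc (y0 : ℝ) ≤ (x : ℝ) ^ (1 / 2 + κ / 2) := hy0le
          _ = (x : ℝ) ^ (1 / 2 + κ) * (x : ℝ) ^ (-(κ / 2)) := by
              rw [← Real.rpow_add hxpos]
              congr 1
              ring
          _ ≤ C * (x : ℝ) ^ (-ν) := by
              apply mul_le_mul hC1' _ (by positivity) hC0.le
              apply Real.rpow_le_rpow_of_exponent_le hx1'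
              have := min_le_right η (κ / 2)
              linarith
      linarith
    have hly : 1 + 2 * Real.log y0 ≤ 3 * L := by
      have h1 : Real.log y0 ≤ L := Real.log_le_log (by exact_mod_cast hy01) (by exact_mod_cast hy0x)
      linarith
    have hly0 : 0 ≤ 1 + 2 * Real.log y0 := by
      have : 0 ≤ Real.log y0 := Real.log_nonneg (by exact_mod_cast hy01)
      linarith
    have hAsq : (∑ c ∈ Icc 1 C, |S1 c|) ^ 2 ≤ (C * x / (2 * L ^ N)) ^ 2 := by
      have h1 : (∑ c ∈ Icc 1 C, |S1 c|) ^ 2 ≤ C * ∑ c ∈ Icc 1 C, (S1 c) ^ 2 := by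
        have h2 := sq_sum_le_card_mul_sum_sq (s := Icc 1 C) (f := fun c => |S1 c|)
        simp only [sq_abs, Nat.card_Icc, Nat.add_sub_cancel] at h2
        exact h2
      refine h1.trans ?_
      calc (C : ℝ) * ∑ c ∈ Icc 1 C, (S1 c) ^ 2 ≤ C * (B ^ 2 * (1 + 2 * Real.log y0) * (C / z + 32 * y0)) :=
            mul_le_mul_of_nonneg_left hsec hC0.le
        _ ≤ C * ((4 * L ^ (2 * N + 2) * x ^ 2) * (3 * L) * (33 * (C * (x : ℝ) ^ (-ν)))) := by
            apply mul_le_mul_of_nonneg_left _ hC0.le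
            apply mul_le_mul _ hcz (by positivity) (by positivity)
            exact mul_le_mul hB2 hly hly0 (by positivity)
        _ = (4 * 4 * 99 * L ^ (4 * N + 3)) * (x : ℝ) ^ (-ν) * (C * x / (2 * L ^ N)) ^ 2 := by
            have hLne : L ^ N ≠ 0 := hLN.ne'
            field_simp
            ring
        _ ≤ ((x : ℝ) ^ ν) * (x : ℝ) ^ (-ν) * (C * x / (2 * L ^ N)) ^ 2 := by
            apply mul_le_mul_of_nonneg_right _ (by positivity)
            exact mul_le_mul_of_nonneg_right f2 (by positivity)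
        _ = _ := by rw [hxν, one_mul]
    exact abs_le_of_sq_le_sq' hAsq (by positivity) |>.2
  have hA2 : ∑ c ∈ Icc 1 C, |S2 c| ≤ C * x / (2 * L ^ N) := by
    set M : ℕ := b.natAbs ^ 2 + 4 * a.natAbs * C with hM
    have hCn : 1 ≤ C := by
      have : (0 : ℝ) < C := hC0
      exact_mod_cast this
    have hC1R : (1 : ℝ) ≤ C := by exact_mod_cast hCn
    have haN : 1 ≤ a.natAbs := by
      have := Int.natAbs_pos.2 ha.ne'
      omega
    have hM1 : 1 ≤ M := by
      have h1 : 1 ≤ a.natAbs * C := Nat.mul_pos haN hCn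
      calc 1 ≤ 4 * (a.natAbs * C) := by omega
        _ = 4 * a.natAbs * C := by ring
        _ ≤ M := Nat.le_add_left _ _
    have hMc : ∀ c ∈ Icc 1 C, (b ^ 2 - 4 * a * (c : ℤ)).natAbs ≤ M := by
      intro c hc
      rw [mem_Icc] at hc
      have h1 : (b ^ 2 - 4 * a * (c : ℤ)).natAbs ≤ (b ^ 2).natAbs + (4 * a * (c : ℤ)).natAbs := Int.natAbs_sub_le _ _
      rw [Int.natAbs_pow, Int.natAbs_mul, Int.natAbs_mul, Int.natAbs_natCast] at h1
      refine h1.trans ?_
      rw [hM]
      apply Nat.add_le_add_left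
      exact Nat.mul_le_mul_left _ hc.2
    have hMC : (M : ℝ) ≤ Ka * x := by
      have h1 : (M : ℝ) = (b : ℝ) ^ 2 + 4 * a * C := by
        rw [hM]
        push_cast
        have e1 : ((b.natAbs : ℕ) : ℝ) ^ 2 = (b : ℝ) ^ 2 := by
          rw [Nat.cast_natAbs]
          push_cast
          rw [sq_abs]
        have e2 : ((a.natAbs : ℕ) : ℝ) = (a : ℝ) := by
          rw [Nat.cast_natAbs, abs_of_pos ha]
        rw [e1, e2]
      rw [h1, hKa]
      have h4 : 4 * (a : ℝ) * C ≤ 4 * a * x := mul_le_mul_of_nonneg_left hCx (by linarith)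
      calc (b : ℝ) ^ 2 + 4 * a * C ≤ Λ * x + 4 * a * x := add_le_add hb h4
        _ = _ := by ring
    have hM1R : (1 : ℝ) ≤ M := by exact_mod_cast hM1
    -- the bracket
    have hxκ : (x : ℝ) ^ κ * (x : ℝ) ^ (-κ) = 1 := by
      rw [← Real.rpow_add hxpos]
      norm_num
    have hsqx : √(x : ℝ) ≤ C * (x : ℝ) ^ (-κ) := by
      calc √(x : ℝ) = (x : ℝ) ^ (1 / 2 + κ) * (x : ℝ) ^ (-κ) := by
            rw [Real.sqrt_eq_rpow, ← Real.rpow_add hxpos]
            congr 1
            ring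
        _ ≤ C * (x : ℝ) ^ (-κ) := mul_le_mul_of_nonneg_right hC1' (by positivity)
    have hlog5 : 1 + Real.log (4 * (M : ℝ) ^ 2) ≤ 5 * L := by
      have h3 : Real.log (4 * (M : ℝ) ^ 2) ≤ Real.log ((x : ℝ) ^ 4) := by
        apply Real.log_le_log (by positivity)
        calc 4 * (M : ℝ) ^ 2 ≤ 4 * (Ka * x) ^ 2 := by gcongr
          _ = (2 * Ka) ^ 2 * (x : ℝ) ^ 2 := by ring
          _ ≤ (x : ℝ) ^ 2 * (x : ℝ) ^ 2 := by gcongr
          _ = _ := by ring
      rw [Real.log_pow] at h3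
      push_cast at h3
      linarith
    have hlog0 : 0 ≤ 1 + Real.log (4 * (M : ℝ) ^ 2) := by
      have h1 : (1 : ℝ) ≤ (M : ℝ) ^ 2 := one_le_pow₀ hM1R
      have : 0 ≤ Real.log (4 * (M : ℝ) ^ 2) := Real.log_nonneg (by linarith)
      linarith
    have hy0sq : (x : ℝ) ^ (1 + κ) / 4 ≤ (y0 : ℝ) ^ 2 := by
      calc (x : ℝ) ^ (1 + κ) / 4 = ((x : ℝ) ^ (1 / 2 + κ / 2) / 2) ^ 2 := by
            rw [div_pow, ← Real.rpow_natCast ((x : ℝ) ^ (1 / 2 + κ / 2)) 2, ← Real.rpow_mul hxpos.le]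
            congr 1
            · congr 1
              push_cast
              ring
            · norm_num
        _ ≤ _ := pow_le_pow_left₀ (by positivity) hy0ge 2
    have hQ : 4 * (√(M : ℝ) + 1) + C * (8 * M * (1 + Real.log (4 * (M : ℝ) ^ 2))) / (y0 : ℝ) ^ 2 ≤
        168 * Ka * L * (C * (x : ℝ) ^ (-κ)) := by
      have h1 : √(M : ℝ) + 1 ≤ 2 * Ka * √(x : ℝ) := by
        have h2 : √(M : ℝ) ≤ Ka * √(x : ℝ) := by
          rw [Real.sqrt_le_iff]
          refine ⟨by positivity, ?_⟩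
          rw [mul_pow, Real.sq_sqrt hxpos.le]
          refine hMC.trans ?_
          apply mul_le_mul_of_nonneg_right _ hxpos.le
          calc Ka = Ka * 1 := (mul_one _).symm
            _ ≤ Ka * Ka := mul_le_mul_of_nonneg_left hKa1 (by linarith)
            _ = _ := (sq _).symm
        have h3 : 1 ≤ Ka * √(x : ℝ) :=
          one_le_mul_of_one_le_of_one_le hKa1 (Real.one_le_sqrt.2 hx1')
        linarith
      have h2 : 4 * (√(M : ℝ) + 1) ≤ 8 * Ka * L * (C * (x : ℝ) ^ (-κ)) := by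
        calc 4 * (√(M : ℝ) + 1) ≤ 4 * (2 * Ka * √(x : ℝ)) := by linarith
          _ = 8 * Ka * 1 * √(x : ℝ) := by ring
          _ ≤ 8 * Ka * L * (C * (x : ℝ) ^ (-κ)) := by
              have : 1 ≤ L := by linarith
              gcongr
      have h3 : C * (8 * M * (1 + Real.log (4 * (M : ℝ) ^ 2))) / (y0 : ℝ) ^ 2 ≤
          160 * Ka * L * (C * (x : ℝ) ^ (-κ)) := by
        have hx1κ : (x : ℝ) ^ (1 + κ) = x * (x : ℝ) ^ κ := by
          rw [Real.rpow_add hxpos, Real.rpow_one]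
        calc C * (8 * M * (1 + Real.log (4 * (M : ℝ) ^ 2))) / (y0 : ℝ) ^ 2 ≤
              C * (8 * (Ka * x) * (5 * L)) / ((x : ℝ) ^ (1 + κ) / 4) := by
                apply div_le_div₀ (by positivity) _ (by positivity) hy0sq
                apply mul_le_mul_of_nonneg_left _ hC0.le
                apply mul_le_mul _ hlog5 hlog0 (by positivity)
                exact mul_le_mul_of_nonneg_left hMC (by norm_num)
          _ = 160 * Ka * L * (C * ((x : ℝ) ^ κ)⁻¹) := by
                rw [hx1κ]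
                field_simp
                ring
          _ = _ := by rw [Real.rpow_neg hxpos.le]
      linarith
    -- the blocks
    set k : ℕ := Nat.log 2 x + 1 with hk
    have hkL : (k : ℝ) ≤ 2 * L := by
      have h1 : (2 : ℝ) ^ Nat.log 2 x ≤ x := by
        exact_mod_cast Nat.pow_log_le_self 2 (by omega)
      have h2 := Real.log_le_log (by positivity) h1
      rw [Real.log_pow] at h2
      have h3 := Real.log_two_gt_d9
      have h4 : (0 : ℝ) ≤ (Nat.log 2 x : ℝ) := Nat.cast_nonneg _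
      have h5 := mul_le_mul_of_nonneg_left h3.le h4
      rw [hk]
      push_cast
      linarith
    have hkx : x < 2 ^ k := Nat.lt_pow_succ_log_self (by norm_num) x
    have hkx2 : 2 ^ k ≤ 2 * x := by
      rw [hk, pow_succ, mul_comm]
      exact Nat.mul_le_mul_left _ (Nat.pow_log_le_self 2 (by omega))
    set W : ℕ → ℕ → ℝ := fun j c => ∑ d ∈ Ioc (2 ^ j * y0) (2 ^ (j + 1) * y0), RhA.gp g x d * J c d with hW
    have hS2W : ∀ c, S2 c = ∑ j ∈ range k, W j c := by
      intro c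
      simp only [hS2, hW]
      rw [← QR1.sum_blocks]
      apply sum_subset
      · intro d hd
        rw [mem_Ioc] at hd ⊢
        refine ⟨hd.1, hd.2.trans (hkx.le.trans ?_)⟩
        exact Nat.le_mul_of_pos_right _ (by omega)
      · intro d hd hd2
        rw [mem_Ioc] at hd hd2
        rw [hux d (by omega), zero_mul]
    have hT : ∀ j ∈ range k, ∀ l : ℕ, 1 ≤ l → l ≤ (2 ^ (j + 1) * y0) ^ 2 →
        (#l.divisors : ℝ) ≤ K * (x : ℝ) ^ (κ / 8) := by
      intro j hj l hl1 hl2
      rw [mem_range] at hj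
      refine (hK l hl1).trans ?_
      apply mul_le_mul_of_nonneg_left _ hK0.le
      have h1 : 2 ^ (j + 1) * y0 ≤ 2 * x * x := by
        apply Nat.mul_le_mul _ hy0x
        exact (Nat.pow_le_pow_right (by norm_num) (by omega)).trans hkx2
      have h2 : (l : ℝ) ≤ (x : ℝ) ^ (5 : ℕ) := by
        have hx4 : 4 ≤ x := by
          have h5 : (4 : ℝ) ≤ x := by
            have := Real.log_le_sub_one_of_pos hxpos
            linarith
          exact_mod_cast h5
        have : l ≤ x ^ 5 := by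
          calc l ≤ (2 ^ (j + 1) * y0) ^ 2 := hl2
            _ ≤ (2 * x * x) ^ 2 := Nat.pow_le_pow_left h1 2
            _ = 4 * x ^ 4 := by ring
            _ ≤ x * x ^ 4 := Nat.mul_le_mul_right _ hx4
            _ = _ := by ring
        exact_mod_cast this
      calc (l : ℝ) ^ (κ / 40) ≤ ((x : ℝ) ^ (5 : ℕ)) ^ (κ / 40) :=
            Real.rpow_le_rpow (by positivity) h2 (by positivity)
        _ = _ := by
            rw [← Real.rpow_natCast (x : ℝ) 5, ← Real.rpow_mul hxpos.le]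
            congr 1
            push_cast
            ring
    set V : ℝ := x / (4 * L ^ (N + 1)) with hV
    have hV0 : 0 ≤ V := by positivity
    have hblock : ∀ j ∈ range k, ∑ c ∈ Icc 1 C, |W j c| ≤ C * V := by
      intro j hj
      apply QR1.first_of_fourth C (W j) V hV0
      have hfour := Rh2.fourth a ha b C (2 ^ j * y0) (2 ^ (j + 1) * y0) z M B (K * (x : ℝ) ^ (κ / 8))
        (RhA.gp g x) hB0 hza (Nat.mul_pos (by positivity) hy01) hu (fun d hd => (hu0 d hd).2) (hT j hj) hMc hM1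
      refine hfour.trans ?_
      set Y : ℝ := ((2 ^ j * y0 : ℕ) : ℝ) with hY
      have hYy0 : (y0 : ℝ) ≤ Y := by
        have : y0 ≤ 2 ^ j * y0 := Nat.le_mul_of_pos_left _ (by positivity)
        exact Nat.cast_le.2 this
      have hy0R : (0 : ℝ) < y0 := by exact_mod_cast hy01
      have hY0 : 0 < Y := by linarith
      have h2Y : ((2 ^ (j + 1) * y0 : ℕ) : ℝ) = 2 * Y := by
        rw [hY]
        push_cast
        ring
      rw [h2Y]
      have hT2 : (K * (x : ℝ) ^ (κ / 8)) ^ 2 = K ^ 2 * (x : ℝ) ^ (κ / 4) := by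
        rw [mul_pow, ← Real.rpow_natCast ((x : ℝ) ^ (κ / 8)) 2, ← Real.rpow_mul hxpos.le]
        congr 2
        push_cast
        ring
      have hB4 : B ^ 4 ≤ 16 * L ^ (4 * N + 4) * x ^ 4 := by
        calc B ^ 4 = (B ^ 2) ^ 2 := by ring
          _ ≤ (4 * L ^ (2 * N + 2) * x ^ 2) ^ 2 := pow_le_pow_left₀ (by positivity) hB2 2
          _ = _ := by ring
      have hR0 : 0 ≤ C * (8 * M * (1 + Real.log (4 * (M : ℝ) ^ 2))) := by positivity
      calc ((K * (x : ℝ) ^ (κ / 8)) ^ 2 * B ^ 4 / Y ^ 2) *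
            ((2 * Y) ^ 2 * (√M + 1) + C * (8 * M * (1 + Real.log (4 * (M : ℝ) ^ 2)))) =
            ((K * (x : ℝ) ^ (κ / 8)) ^ 2 * B ^ 4) *
            (4 * (√M + 1) + C * (8 * M * (1 + Real.log (4 * (M : ℝ) ^ 2))) / Y ^ 2) := by
              field_simp
              ring
        _ ≤ (K ^ 2 * (x : ℝ) ^ (κ / 4) * (16 * L ^ (4 * N + 4) * x ^ 4)) *
            (168 * Ka * L * (C * (x : ℝ) ^ (-κ))) := by
              rw [hT2]
              apply mul_le_mul _ _ (by positivity) (by positivity)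
              · exact mul_le_mul_of_nonneg_left hB4 (by positivity)
              · refine le_trans ?_ hQ
                gcongr
        _ = (K ^ 2 * 16 * 168 * 256 * Ka * L ^ (8 * N + 9)) * ((x : ℝ) ^ (κ / 4) * (x : ℝ) ^ (-κ)) *
            (C * V ^ 4) := by
              rw [hV]
              have hLne : L ^ (N + 1) ≠ 0 := (by positivity : 0 < L ^ (N + 1)).ne'
              have e : L ^ (8 * N + 9) = L ^ (4 * N + 4) * L * (L ^ (N + 1)) ^ 4 := by ring
              rw [e]
              field_simp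
              ring
        _ ≤ (x : ℝ) ^ (3 * κ / 4) * ((x : ℝ) ^ (κ / 4) * (x : ℝ) ^ (-κ)) * (C * V ^ 4) := by
              gcongr
        _ = C * V ^ 4 := by
              rw [← Real.rpow_add hxpos, ← Real.rpow_add hxpos]
              have : 3 * κ / 4 + (κ / 4 + -κ) = 0 := by ring
              rw [this, Real.rpow_zero, one_mul]
    calc ∑ c ∈ Icc 1 C, |S2 c| ≤ ∑ c ∈ Icc 1 C, ∑ j ∈ range k, |W j c| := by
          apply sum_le_sum
          intro c _
          rw [hS2W]
          exact abs_sum_le_sum_abs _ _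
      _ = ∑ j ∈ range k, ∑ c ∈ Icc 1 C, |W j c| := sum_comm
      _ ≤ ∑ j ∈ range k, (C * V) := sum_le_sum hblock
      _ = k * (C * V) := by rw [sum_const, card_range, nsmul_eq_mul]
      _ ≤ (2 * L) * (C * V) := mul_le_mul_of_nonneg_right hkL (by positivity)
      _ = _ := by
          rw [hV]
          field_simp
          ring
  calc ∑ c ∈ Icc 1 C, |S1 c| + ∑ c ∈ Icc 1 C, |S2 c| ≤ C * x / (2 * L ^ N) + C * x / (2 * L ^ N) :=
        add_le_add hA1 hA2
    _ = _ := by
        field_simp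
        ring

theorem t_R1U : S_R1U := fun a ha Λ hΛ => r1U a ha Λ hΛ

end Pool.Agent.N791.U
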