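import Pool.Agent.N792.QS2
import Pool.Agent.N791.U.Base

/-!
S2U: the weighted sum over the products of two primes, uniformly in `b`, `b² ≤ Λ x` (helper195, after
helper768; project U of helper791).
-/

set_option autoImplicit false

namespace Pool.Agent.N791.U

open Finset Filter Topology Pool.Agent.N792
open Pool.Agent.N792.QS2

/-- the quotient of the difference and the square root, with a better dependence on `b` -/
lemma S2U_quot {A b m : ℝ} {F q : ℝ} (hA : 1 ≤ A) (hm : 1 ≤ m) (hb : 2 * |b| ≤ m)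
    (hF : F = A * m ^ 2 + b * m) (hq : q = 2 * √(A * F)) :
    A * m ≤ q ∧ |(2 * A * m - A + b) / q - 1| ≤ (1 + b ^ 2 / m) / m := by
  have hb1 := neg_abs_le b
  have hb2 := le_abs_self b
  have hb0 := abs_nonneg b
  have hm0 : 0 < m := by linarith
  have hFl : A * m ^ 2 / 2 ≤ F := by
    rw [hF]
    nlinarith [mul_nonneg (by linarith : (0:ℝ) ≤ A - 1) (sq_nonneg m)]
  have hF0 : 0 ≤ F := le_trans (by positivity) hFl
  have hq0 : 0 ≤ q := by rw [hq]; positivity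
  have hq2 : q ^ 2 = 4 * A * F := by
    rw [hq, mul_pow, Real.sq_sqrt (by positivity)]; ring
  have hAm : 0 < A * m := by positivity
  have hqm : A * m ≤ q := by
    apply le_of_sq_le_sq _ hq0
    rw [hq2]
    nlinarith [mul_le_mul_of_nonneg_left hFl (by positivity : (0:ℝ) ≤ 4 * A)]
  refine ⟨hqm, ?_⟩
  have hqp : 0 < q := by linarith
  have h1 : (2 * A * m + b - q) * (2 * A * m + b + q) = b ^ 2 := by
    have : (2 * A * m + b - q) * (2 * A * m + b + q) = (2 * A * m + b) ^ 2 - q ^ 2 := by ring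
    rw [this, hq2, hF]; ring
  have hmA : m ≤ A * m := by nlinarith
  have hs : m ≤ 2 * A * m + b + q := by linarith
  have h2 : 0 ≤ 2 * A * m + b - q := by
    by_contra hcon
    push Not at hcon
    nlinarith [sq_nonneg b]
  have h3 : 2 * A * m + b - q ≤ b ^ 2 / m := by
    rw [le_div_iff₀ hm0]
    calc (2 * A * m + b - q) * m ≤ (2 * A * m + b - q) * (2 * A * m + b + q) :=
          mul_le_mul_of_nonneg_left hs h2
      _ = b ^ 2 := h1
  rw [div_sub_one hqp.ne', abs_div, abs_of_pos hqp]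
  have hbm : 0 ≤ b ^ 2 / m := by positivity
  have h4 : |2 * A * m - A + b - q| ≤ A + b ^ 2 / m := by
    rw [abs_le]
    constructor <;> linarith
  rw [div_le_div_iff₀ hqp hm0]
  calc |2 * A * m - A + b - q| * m ≤ (A + b ^ 2 / m) * m := mul_le_mul_of_nonneg_right h4 (by linarith)
    _ = A * m + b ^ 2 := by field_simp
    _ ≤ A * m + A * b ^ 2 := by nlinarith [sq_nonneg b]
    _ = (1 + b ^ 2 / m) * (A * m) := by field_simp
    _ ≤ (1 + b ^ 2 / m) * q := mul_le_mul_of_nonneg_left hqm (by positivity)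

/-- step 4: term by term -/
lemma S2U_step4 {a b : ℤ} {R x x1 p : ℕ} (h : St a b R x x1 p) {Λ : ℝ} (hΛ : 1 ≤ Λ)
    (hb : (b : ℝ) ^ 2 ≤ Λ * x) {c : ℕ} (hcx : c ≤ x) :
    |∑ m ∈ Ioc x1 x, ((Fn a b m : ℝ) - Fn a b (m - 1)) / p * gg a b p m -
      ∑ m ∈ Ioc x1 x, 1 / ((p : ℝ) * Real.log (((a : ℝ) * m ^ 2 + b * m + c) / p))| ≤
      ((1 + Λ * R) * R + 2 * (R : ℝ) ^ 2) / p := by
  have hP0 := h.p0
  have hX0 := h.X0
  have ha1 := h.a1
  have hR1 := h.R1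
  have hcX : (c : ℝ) ≤ x := by exact_mod_cast hcx
  have hc0 : (0 : ℝ) ≤ c := Nat.cast_nonneg c
  rw [← sum_sub_distrib]
  have hterm : ∀ m ∈ Ioc x1 x, |((Fn a b m : ℝ) - Fn a b (m - 1)) / p * gg a b p m -
      1 / ((p : ℝ) * Real.log (((a : ℝ) * m ^ 2 + b * m + c) / p))| ≤
      ((1 + Λ * R) * R / x + 2 * (R : ℝ) ^ 2 / x) / p := by
    intro m hm
    rw [mem_Ioc] at hm
    obtain ⟨h1, h2, h3⟩ := h.cast hm.1.le
    obtain ⟨qu1, qu2⟩ := S2U_quot (A := a) (b := b) (m := m) (F := Fn a b m) ha1 (by linarith) h1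
      (h.Fc m hm.1.le) rfl
    rw [← h.Fc m hm.1.le, h.Fm hm.1, gg]
    have hFm0 : 0 < (Fn a b m : ℝ) := by
      have := h.F1 hm.1.le
      exact_mod_cast this
    have hm0 : (0 : ℝ) < m := by linarith
    have ham : 0 < (a : ℝ) * m := by positivity
    simp only [hw]
    refine term_aux (lt_of_lt_of_le ham qu1) hP0 (h.lg hm.1.le).2 ?_ (qu2.trans ?_) ?_
    · apply Real.log_le_log (by positivity)
      exact div_le_div_of_nonneg_right (by linarith) hP0.le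
    · have h5 : (x : ℝ) ≤ R * m := h.xR.trans (mul_le_mul_of_nonneg_left h2 (by linarith))
      have h6 : (b : ℝ) ^ 2 / m ≤ Λ * R := by
        rw [div_le_iff₀ hm0]
        calc (b : ℝ) ^ 2 ≤ Λ * x := hb
          _ ≤ Λ * (R * m) := mul_le_mul_of_nonneg_left h5 (by linarith)
          _ = Λ * R * m := by ring
      rw [div_le_div_iff₀ hm0 hX0]
      have h7 : 0 ≤ 1 + Λ * R := by positivity
      calc (1 + (b : ℝ) ^ 2 / m) * x ≤ (1 + Λ * R) * x :=
            mul_le_mul_of_nonneg_right (by linarith) hX0.le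
        _ ≤ (1 + Λ * R) * (R * m) := mul_le_mul_of_nonneg_left h5 h7
        _ = (1 + Λ * R) * R * m := by ring
    · rw [← Real.log_div (by positivity) (by positivity)]
      have e : ((Fn a b m : ℝ) + c) / p / (Fn a b m / p) = 1 + c / Fn a b m := by field_simp
      rw [e]
      have h6 := Real.log_le_sub_one_of_pos (show 0 < 1 + (c : ℝ) / Fn a b m by positivity)
      have h7 : (c : ℝ) / Fn a b m ≤ 2 * (R : ℝ) ^ 2 / x := by
        rw [div_le_div_iff₀ hFm0 hX0]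
        have h8 : (x1 : ℝ) ^ 2 / 2 ≤ Fn a b m := (h.Fl m hm.1.le).2
        calc (c : ℝ) * x ≤ x * x := mul_le_mul_of_nonneg_right hcX hX0.le
          _ = (x : ℝ) ^ 2 := by ring
          _ ≤ (R : ℝ) ^ 2 * (x1 : ℝ) ^ 2 := h.XX1
          _ = 2 * (R : ℝ) ^ 2 * ((x1 : ℝ) ^ 2 / 2) := by ring
          _ ≤ 2 * (R : ℝ) ^ 2 * Fn a b m := mul_le_mul_of_nonneg_left h8 (by positivity)
      linarith
  refine (abs_sum_le_sum_abs _ _).trans ((sum_le_sum hterm).trans ?_)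
  rw [sum_const, nsmul_eq_mul, Nat.card_Ioc, Nat.cast_sub h.x1x.le]
  have hx1 := h.X10
  calc ((x : ℝ) - x1) * (((1 + Λ * R) * R / x + 2 * (R : ℝ) ^ 2 / x) / p)
      ≤ x * (((1 + Λ * R) * R / x + 2 * (R : ℝ) ^ 2 / x) / p) :=
        mul_le_mul_of_nonneg_right (by linarith) (by positivity)
    _ = ((1 + Λ * R) * R + 2 * (R : ℝ) ^ 2) / p := by field_simp

/-- one prime -/
lemma S2U_per_p (a : ℤ) (ha : 0 < a) (Λ : ℝ) (hΛ : 1 ≤ Λ) (R U : ℕ) : ∃ C1 C2 : ℝ, 0 ≤ C1 ∧ 0 ≤ C2 ∧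
    ∃ x0 : ℕ, ∀ x : ℕ, x0 ≤ x → ∀ b : ℤ, (b : ℝ) ^ 2 ≤ Λ * x →
    ∀ x1 c p : ℕ, x1 < x → x ≤ R * x1 → c ≤ x → 1 ≤ p → p ≤ x →
    |∑ k ∈ Ioc (Fn a b x1 / p) (Fn a b x / p), pi0 k * hw a (p * k) -
      ∑ m ∈ Ioc x1 x, 1 / ((p : ℝ) * Real.log (((a : ℝ) * m ^ 2 + b * m + c) / p))| ≤
      C1 * (x / (p * Real.log x ^ U)) + C2 / p := by
  obtain ⟨C, hC0, hC⟩ := prime_sum U
  obtain ⟨n1, hn1⟩ := evN _ (ev_pow 0 (4 * (R + 1) ^ 2) (1 / 2) (by norm_num))
  obtain ⟨n2, hn2⟩ := evN _ (Real.tendsto_log_atTop.eventually_ge_atTop 4)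
  obtain ⟨n3, hn3⟩ := eventually_atTop.1 (ev_b Λ hΛ ((R + 1 : ℝ) * 5))
  refine ⟨4 * C * 2 ^ U * R, 4 * R + 2 * R + ((1 + Λ * R) * R + 2 * (R : ℝ) ^ 2),
    by positivity, by positivity, max n1 (max n2 n3), ?_⟩
  intro x hx b hb x1 c p hx1 hxR hcx hp hpx
  have hs1 := hn1 x (le_trans (le_max_left _ _) hx)
  have hlog4 := hn2 x (le_trans (le_trans (le_max_left _ _) (le_max_right _ _)) hx)
  have hx3 : n3 ≤ x := le_trans (le_trans (le_max_right _ _) (le_max_right _ _)) hx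
  rw [pow_zero, mul_one, ← Real.sqrt_eq_rpow] at hs1
  have hx3' := hn3 x hx3 b hb
  have hbb : (R + 1 : ℝ) * (2 * |(b : ℝ)| + 5) ≤ x := by
    refine le_trans ?_ hx3'
    have h0 := abs_nonneg (b : ℝ)
    have h1 : (0 : ℝ) ≤ R + 1 := by positivity
    rw [mul_assoc]
    refine mul_le_mul_of_nonneg_left ?_ h1
    linarith
  have h : St a b R x x1 p := St.of ha hp hpx hx1 hxR hs1 hlog4 hbb
  have h1 := h.step1 hC0 hC
  have h2 := h.step2
  have h3 := h.step3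
  have h4 := S2U_step4 h hΛ hb hcx
  have h6 : (4 * R + 2 * R + ((1 + Λ * R) * R + 2 * (R : ℝ) ^ 2)) / p =
      4 * R / p + 2 * R / p + ((1 + Λ * R) * R + 2 * (R : ℝ) ^ 2) / p := by ring
  rw [h6]
  exact tri4 h1 h2 h3 h4

theorem s2U (a : ℤ) (ha : 0 < a) (Λ : ℝ) (hΛ : 1 ≤ Λ) : S2U a Λ := by
  intro R A
  obtain ⟨C1, C2, hC1, hC2, n0, h⟩ := S2U_per_p a ha Λ hΛ R (A + 2)
  obtain ⟨n1, hn1⟩ := evN _ (ev_pow (A + 1) (4 * C2) 1 one_pos)
  obtain ⟨n2, hn2⟩ := evN _ (Real.tendsto_log_atTop.eventually_ge_atTop (max 1 (4 * C1)))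
  refine ⟨max n0 (max n1 n2), ?_⟩
  intro x hx b hb x1 c y1 y2 hx1 hxR hcx hy1 hy12 hy2
  have hx0 : n0 ≤ x := le_trans (le_max_left _ _) hx
  have hs1 := hn1 x (le_trans (le_trans (le_max_left _ _) (le_max_right _ _)) hx)
  have hlog := hn2 x (le_trans (le_trans (le_max_right _ _) (le_max_right _ _)) hx)
  have hlog1 : 1 ≤ Real.log x := (le_max_left _ _).trans hlog
  have hlogC : 4 * C1 ≤ Real.log x := (le_max_right _ _).trans hlog
  rw [Real.rpow_one] at hs1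
  have hxn : 1 ≤ x := by omega
  have hX0 : (0 : ℝ) < x := by exact_mod_cast hxn
  rw [ls_eq, sum_comm (s := Ioc x1 x), ← sum_sub_distrib]
  have hterm : ∀ p ∈ (Ioc y1 y2).filter Nat.Prime,
      |∑ k ∈ Ioc (Fn a b x1 / p) (Fn a b x / p), pi0 k * hw a (p * k) -
        ∑ m ∈ Ioc x1 x, 1 / ((p : ℝ) * Real.log (((a : ℝ) * m ^ 2 + b * m + c) / p))| ≤
      (C1 * (x / Real.log x ^ (A + 2)) + C2) * (1 / p) := by
    intro p hp
    rw [mem_filter, mem_Ioc] at hp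
    have hp0 : (0 : ℝ) < p := by exact_mod_cast hp.2.pos
    refine (h x hx0 b hb x1 c p hx1 hxR hcx hp.2.pos (hp.1.2.trans hy2)).trans (le_of_eq ?_)
    field_simp
  refine (abs_sum_le_sum_abs _ _).trans ((sum_le_sum hterm).trans ?_)
  rw [← mul_sum]
  have h1 := sum_inv y1 y2 x hy2
  obtain ⟨L, hL⟩ : ∃ L : ℝ, L = Real.log x := ⟨_, rfl⟩
  rw [← hL] at hs1 hlog1 hlogC h1 ⊢
  have hL0 : 0 < L := by linarith
  calc (C1 * (x / L ^ (A + 2)) + C2) * ∑ p ∈ (Ioc y1 y2).filter Nat.Prime, (1 : ℝ) / p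
      ≤ (C1 * (x / L ^ (A + 2)) + C2) * (2 * L) :=
        mul_le_mul_of_nonneg_left (by linarith) (by positivity)
    _ = (2 * C1 / L) * (x / L ^ A) + (2 * C2 * L ^ (A + 1)) / L ^ A := by
        rw [pow_add L A 2, pow_succ L A]
        field_simp
    _ ≤ (1 / 2) * (x / L ^ A) + (1 / 2) * (x / L ^ A) := by
        have k1 : 2 * C1 / L ≤ 1 / 2 := by rw [div_le_iff₀ hL0]; linarith
        have k2 : (2 * C2 * L ^ (A + 1)) / L ^ A ≤ (1 / 2) * (x / L ^ A) := by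
          rw [← mul_div_assoc]
          apply div_le_div_of_nonneg_right _ (by positivity)
          linarith
        have k3 : (2 * C1 / L) * (x / L ^ A) ≤ (1 / 2) * (x / L ^ A) :=
          mul_le_mul_of_nonneg_right k1 (by positivity)
        linarith
    _ = x / L ^ A := by ring

/-- **S2, uniform in `b`** -/
theorem t_S2U : S_S2U := fun a ha Λ hΛ => s2U a ha Λ hΛ

end Pool.Agent.N791.U
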