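import Mathlib
import Pool.Agent.N792.RX2
import Pool.Agent.N791.U.Stm

/-!
X2U: the type I estimate for `U ≤ x^(9/10)`, `C ≥ x^(3/5)`, uniformly in the linear coefficient
(helper286, for helper791, after helper72).
-/

set_option autoImplicit false

namespace Pool.Agent.N791.U
open Finset Filter Topology Pool.Agent.N792

/-- **the type I estimate** -/
theorem t_X2U : S_X2U := by
  classical
  intro a ha Λ hΛ hR1 hR2 hLS hLC R K1 hK1
  obtain ⟨C2, η2, hC2, hη2, hη2', H2⟩ := hLS R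
  obtain ⟨C3, η3, hC3, hη3, hη3', H3⟩ := hLC R
  obtain ⟨K, hK, HK⟩ := rough_recip
  obtain ⟨C4, hC4⟩ : ∃ C4 : ℝ, C4 = C2 + C3 + 32 * K1 * C3 * K + 8 * K1 * C2 * K + 1 := ⟨_, rfl⟩
  have hC40 : 0 < C4 := by rw [hC4]; positivity
  have hC4a : C2 ≤ C4 := by
    rw [hC4]
    have : 0 < 32 * K1 * C3 * K + 8 * K1 * C2 * K := by positivity
    linarith
  have hC4b : C3 ≤ C4 := by
    rw [hC4]
    have : 0 < 32 * K1 * C3 * K + 8 * K1 * C2 * K := by positivity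
    linarith
  refine ⟨C4, min η2 η3, hC40, lt_min hη2 hη3, fun η hη hη0 E => ?_⟩
  have hηa : η ≤ η2 := hη0.trans (min_le_left _ _)
  have hηb : η ≤ η3 := hη0.trans (min_le_right _ _)
  have hη1 : η ≤ 1 := by linarith
  obtain ⟨x2, H2⟩ := H2 η hη hηa
  obtain ⟨x3, H3⟩ := H3 η hη hηb
  obtain ⟨x4, H4⟩ := hR1 (η / 2) (1 / 10) 4 (by positivity) (by norm_num)
  obtain ⟨x6, H6⟩ := HK (η / 2) (by positivity) (by linarith)
  obtain ⟨t, ht⟩ : ∃ t : ℝ, t = (2 : ℝ) ^ (-(1 / (C4 * η))) := ⟨_, rfl⟩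
  have ht0 : 0 < t := by rw [ht]; positivity
  have hmono : ∀ D : ℝ, 0 < D → D ≤ C4 → (2 : ℝ) ^ (-(1 / (D * η))) ≤ t := by
    intro D hD hDC
    rw [ht]
    apply Real.rpow_le_rpow_of_exponent_le (by norm_num)
    rw [neg_le_neg_iff]
    apply one_div_le_one_div_of_le (by positivity)
    gcongr
  have ht2 := hmono C2 (by linarith) hC4a
  have ht3 := hmono C3 (by linarith) hC4b
  -- the size of x
  obtain ⟨D, hD⟩ : ∃ D : ℝ, D = t / η ^ 2 / (1 + 4 * C3 + 8 * K1 * K / η + 4 * K1 * C2) := ⟨_, rfl⟩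
  have hD0 : 0 < D := by rw [hD]; positivity
  have hev1 := (Real.tendsto_log_atTop.comp tendsto_natCast_atTop_atTop).eventually_ge_atTop (max 4 (1 / D))
  have hev2 := Shp.log_pow_le 1 (1 / D) (1 / 20) (by norm_num)
  obtain ⟨x7, H7⟩ := eventually_atTop.1 (hev1.and hev2)
  refine ⟨x2 + x3 + x4 + x6 + x7 + 3, fun x hx b hb x1 C J Jw U hx1 hxR hxC hCx hz1 hz2 hw hU Gd hGd hgood hS g hg hgs => ?_⟩
  rw [← ht]
  obtain ⟨hL, hLp⟩ := H7 x (by omega)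
  simp only [Function.comp_apply] at hL
  obtain ⟨L, hLd⟩ : ∃ L : ℝ, L = Real.log x := ⟨_, rfl⟩
  have hL4 : 4 ≤ L := by rw [hLd]; exact (le_max_left _ _).trans hL
  have hL2 : 1 / D ≤ L := by rw [hLd]; exact (le_max_right _ _).trans hL
  have hL1 : 1 ≤ L := by linarith
  have hL0 : 0 < L := by linarith
  obtain ⟨z, hz⟩ : ∃ z : ℕ, z = 2 ^ 2 ^ J := ⟨_, rfl⟩
  obtain ⟨w, hwd⟩ : ∃ w : ℕ, w = 2 ^ 2 ^ Jw := ⟨_, rfl⟩
  have hxr : (1 : ℝ) ≤ x := by exact_mod_cast (by omega : 1 ≤ x)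
  have hx0 : (0 : ℝ) < x := by linarith
  have hUx : U ≤ x := by
    have : (U : ℝ) ≤ x := by
      refine hU.trans ?_
      calc (x : ℝ) ^ (9 / 10 : ℝ) ≤ (x : ℝ) ^ (1 : ℝ) := Real.rpow_le_rpow_of_exponent_le hxr (by norm_num)
        _ = x := Real.rpow_one _
    exact_mod_cast this
  have hC0 : (0 : ℝ) < C := lt_of_lt_of_le (Real.rpow_pos_of_pos hx0 _) hxC
  have hX0 : (0 : ℝ) ≤ (x : ℝ) - x1 := by
    have : (x1 : ℝ) ≤ x := by exact_mod_cast hx1.le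
    linarith
  have hXx : (x : ℝ) - x1 ≤ x := by
    have : (0 : ℝ) ≤ x1 := Nat.cast_nonneg _
    linarith
  have hz4 : 2 ≤ z := by rw [hz]; have := Ty1L.J_le J; omega
  have hlz : η / 2 * L ≤ Real.log z := by
    rw [hLd, ← Real.log_rpow hx0, hz]
    exact Real.log_le_log (by positivity) hz1
  have hV1 : V1 z ≤ 2 / (η * L) := by
    refine (V1_le z hz4).trans ?_
    rw [div_le_div_iff₀ (lt_of_lt_of_le (by positivity) hlz) (by positivity)]
    linarith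
  have hM : ∀ c ∈ Gd, Vc a b c (2 ^ 2 ^ J) ≤ 4 * K1 / (η * L) := by
    intro c hc
    have h1 := RX.Vc_le (L := Real.log x) (by rw [← hLd]; exact hL1) (hgood c hc) (hS c hc)
    rw [← hz] at h1 ⊢
    refine h1.trans ?_
    calc 2 * K1 * V1 z ≤ 2 * K1 * (2 / (η * L)) := by gcongr
      _ = _ := by ring
  have k2 := H2 x (by omega) b hb x1 J U hx1 hxR hz1 hz2 hU g
  have k3 := (H3 x (by omega) b hb x1 C J U hx1 hxR hxC hCx hz1 hz2 hU Gd hGd (4 * K1 / (η * L)) (by positivity) hM g hgs).1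
  have k6 := H6 x (by omega) z U (by rw [hz]; exact hz1) hUx
  rw [← hz] at k2 k3 hz1 hz2 hgood ⊢
  rw [← hwd] at hw hgood hS ⊢
  have k4 : ((x : ℝ) - x1) * ∑ c ∈ Gd, |∑ j ∈ Icc 1 U, rg z j * g j * ((rho a b (c : ℕ) j : ℝ) - 1) / j| ≤ x * C / L ^ 4 := by
    have h0 : ∀ c ∈ Icc 1 C, |∑ m ∈ Ioc 0 U, (rg z m * g m * (x / m)) * ((rho a b (c : ℕ) m : ℝ) - 1)| =
        x * |∑ j ∈ Icc 1 U, rg z j * g j * ((rho a b (c : ℕ) j : ℝ) - 1) / j| := by
      intro c _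
      have e1 : Ioc 0 U = Icc 1 U := by ext j; simp only [mem_Ioc, mem_Icc]; omega
      rw [e1, ← abs_of_pos hx0, ← abs_mul, mul_sum, abs_of_pos hx0]
      congr 1
      apply sum_congr rfl
      intro j _
      ring
    have h1 := H4 x (by omega) b hb C z 0 U (fun m => rg z m * g m * (x / m)) (by norm_num; exact hxC) hCx hz1 hUx
      (by
        intro m hm
        rw [mem_Ioc] at hm
        have hm1 : (0 : ℝ) < m := by exact_mod_cast hm.1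
        obtain ⟨r0, r1⟩ := rg_range z m
        rw [abs_mul, abs_mul, abs_of_nonneg r0, abs_of_nonneg (by positivity : (0:ℝ) ≤ (x : ℝ) / m), mul_assoc]
        apply mul_le_mul_of_nonneg_left _ r0
        have h3 : |g m| ≤ L ^ 4 := by
          refine (hg m hm.2).trans ?_
          rw [← hLd]
          nlinarith [pow_le_pow_left₀ (by norm_num) hL4 2, pow_le_pow_left₀ (by norm_num) hL4 3, pow_pos hL0 2, pow_pos hL0 3]
        calc |g m| * (x / m) ≤ L ^ 4 * (x / m) := by gcongr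
          _ = x * Real.log x ^ 4 / m := by rw [← hLd]; ring)
      (by
        intro m hm hne
        rw [mem_Ioc] at hm
        apply hgs m hm.2
        intro h
        apply hne
        simp only [h, mul_zero, zero_mul])
    rw [sum_congr rfl h0, ← mul_sum, ← hLd] at h1
    have h2 : ∑ c ∈ Gd, |∑ j ∈ Icc 1 U, rg z j * g j * ((rho a b (c : ℕ) j : ℝ) - 1) / j| ≤
        ∑ c ∈ Icc 1 C, |∑ j ∈ Icc 1 U, rg z j * g j * ((rho a b (c : ℕ) j : ℝ) - 1) / j| :=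
      sum_le_sum_of_subset_of_nonneg hGd fun c _ _ => abs_nonneg _
    calc ((x : ℝ) - x1) * ∑ c ∈ Gd, |∑ j ∈ Icc 1 U, rg z j * g j * ((rho a b (c : ℕ) j : ℝ) - 1) / j|
        ≤ x * ∑ c ∈ Icc 1 C, |∑ j ∈ Icc 1 U, rg z j * g j * ((rho a b (c : ℕ) j : ℝ) - 1) / j| := by
          apply mul_le_mul hXx h2 (sum_nonneg fun _ _ => abs_nonneg _) hx0.le
      _ ≤ _ := by rw [mul_comm (x : ℝ) (C : ℝ)]; exact h1
  have hV1w : 0 < V1 w := V1_pos w
  have hV1z : 0 < V1 z := V1_pos z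
  obtain ⟨S1, hS1⟩ : ∃ S1 : ℝ, S1 = ∑ j ∈ Icc 1 U, rg z j * g j / j := ⟨_, rfl⟩
  obtain ⟨Sa, hSa⟩ : ∃ Sa : ℝ, Sa = ∑ j ∈ Icc 1 U, rg z j * |g j| / j := ⟨_, rfl⟩
  obtain ⟨Sb, hSb⟩ : ∃ Sb : ℝ, Sb = ∑ j ∈ Icc 1 U, |g j| := ⟨_, rfl⟩
  have hg' : ∀ j ≤ U, |g j| ≤ 4 * L := by rw [hLd]; exact hg
  have hSa0 : 0 ≤ Sa := by
    rw [hSa]
    apply sum_nonneg
    intro j _
    have := (rg_range z j).1
    positivity
  have hSab : Sa ≤ 4 * L * (K / (η / 2)) := by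
    rw [hSa]
    refine le_trans (b := ∑ j ∈ Icc 1 U, 4 * L * (rg z j / j)) (sum_le_sum fun j hj => ?_) ?_
    · have h1 : 0 ≤ rg z j := (rg_range z j).1
      have h2 := hg' j (mem_Icc.1 hj).2
      calc rg z j * |g j| / j ≤ rg z j * (4 * L) / j := by gcongr
        _ = _ := by ring
    · rw [← mul_sum]
      gcongr
  have hG : |S1| ≤ 4 * L * (K / (η / 2)) := by
    refine le_trans ?_ hSab
    rw [hS1, hSa]
    refine (abs_sum_le_sum_abs _ _).trans (sum_le_sum fun j _ => ?_)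
    rw [abs_div, abs_mul, abs_of_nonneg (rg_range z j).1, Nat.abs_cast]
  have hSb0 : 0 ≤ Sb := by rw [hSb]; exact sum_nonneg fun _ _ => abs_nonneg _
  have hSbb : Sb ≤ (x : ℝ) ^ (9 / 10 : ℝ) * (4 * L) := by
    rw [hSb]
    calc ∑ j ∈ Icc 1 U, |g j| ≤ ∑ j ∈ Icc 1 U, 4 * L := sum_le_sum fun j hj => hg' j (mem_Icc.1 hj).2
      _ = U * (4 * L) := by rw [sum_const, Nat.card_Icc, nsmul_eq_mul, Nat.add_sub_cancel]
      _ ≤ _ := by gcongr
  rw [← hS1, ← hSa, ← hSb, ← hLd] at k2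
  rw [← hSa, ← hSb] at k3
  -- the powers of x
  have hpow : (x : ℝ) ^ (1 / 20 : ℝ) * ((x : ℝ) ^ (9 / 10 : ℝ) * L) ≤ D * x := by
    rw [pow_one, ← hLd] at hLp
    have h1 : (1 / D) * L ≤ (x : ℝ) ^ (1 / 20 : ℝ) := hLp
    have h2 : L ≤ (x : ℝ) ^ (1 / 20 : ℝ) * D := by
      rw [div_mul_eq_mul_div, one_mul, div_le_iff₀ hD0] at h1
      exact h1
    calc (x : ℝ) ^ (1 / 20 : ℝ) * ((x : ℝ) ^ (9 / 10 : ℝ) * L)
        ≤ (x : ℝ) ^ (1 / 20 : ℝ) * ((x : ℝ) ^ (9 / 10 : ℝ) * ((x : ℝ) ^ (1 / 20 : ℝ) * D)) := by gcongr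
      _ = ((x : ℝ) ^ (1 / 20 : ℝ) * (x : ℝ) ^ (9 / 10 : ℝ) * (x : ℝ) ^ (1 / 20 : ℝ)) * D := by ring
      _ = x * D := by
          rw [← Real.rpow_add hx0, ← Real.rpow_add hx0]
          norm_num
      _ = _ := by ring
  have hpow1 : (1 : ℝ) ≤ (x : ℝ) ^ (1 / 20 : ℝ) := Real.one_le_rpow hxr (by norm_num)
  have hpow' : (x : ℝ) ^ (9 / 10 : ℝ) * L ≤ D * x := by
    refine le_trans ?_ hpow
    have : 0 ≤ (x : ℝ) ^ (9 / 10 : ℝ) * L := by positivity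
    nlinarith
  obtain ⟨T, hT⟩ : ∃ T : ℝ, T = C2 * (2 : ℝ) ^ (-(1 / (C2 * η))) / (η * L) * x * Sa + C2 * Sb := ⟨_, rfl⟩
  rw [← hT] at k2
  have hTle : T ≤ 8 * C2 * K * (t / η ^ 2) * x + 4 * C2 * (D * x) := by
    rw [hT]
    have h1 : C2 * (2 : ℝ) ^ (-(1 / (C2 * η))) / (η * L) * x * Sa ≤
        C2 * t / (η * L) * x * (4 * L * (K / (η / 2))) := by gcongr
    have h2 : C2 * t / (η * L) * x * (4 * L * (K / (η / 2))) = 8 * C2 * K * (t / η ^ 2) * x := by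
      field_simp
      ring
    have h3 : C2 * Sb ≤ C2 * ((x : ℝ) ^ (9 / 10 : ℝ) * (4 * L)) := by gcongr
    have h4 : C2 * ((x : ℝ) ^ (9 / 10 : ℝ) * (4 * L)) = 4 * C2 * ((x : ℝ) ^ (9 / 10 : ℝ) * L) := by ring
    have h5 : 4 * C2 * ((x : ℝ) ^ (9 / 10 : ℝ) * L) ≤ 4 * C2 * (D * x) := by gcongr
    linarith
  have hT0 : 0 ≤ T := (abs_nonneg _).trans k2
  have hVz1 : V1 z ≤ 1 := Shp.V1_le_one z
  -- each c
  have main : ∀ c ∈ Gd, |Lc a b x1 x c (T1 z U g) - Vc a b c w / V1 w * Ls a b x1 x (T1 z U g)| ≤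
      |Lc a b x1 x c (T1 z U g) -
        ((x : ℝ) - x1) * Vc a b (c : ℕ) z * ∑ j ∈ Icc 1 U, rg z j * g j * (rho a b (c : ℕ) j : ℝ) / j| +
      ((x : ℝ) - x1) * |∑ j ∈ Icc 1 U, rg z j * g j * ((rho a b (c : ℕ) j : ℝ) - 1) / j| +
      Vc a b c w / V1 w * (((x : ℝ) - x1) * V1 z * (1 / L ^ 3) * (4 * L * (K / (η / 2))) + T) := by
    intro c hc
    have h1 : ∑ j ∈ Icc 1 U, rg z j * g j * ((rho a b (c : ℕ) j : ℝ) - 1) / j =
        (∑ j ∈ Icc 1 U, rg z j * g j * (rho a b (c : ℕ) j : ℝ) / j) - S1 := by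
      rw [hS1, ← sum_sub_distrib]
      refine sum_congr rfl fun j _ => ?_
      ring
    rw [h1]
    refine one_c_num hX0 (div_nonneg (Mtm.Vc_bd a b c w).1 hV1w.le) hV1z.le (Mtm.Vc_bd a b c z).1 (Mtm.Vc_bd a b c z).2 k2 hG ?_
      (by positivity)
    have h2 := hgood c hc
    have h3 : Vc a b c z - Vc a b c w / V1 w * V1 z = (Vc a b c z * V1 w - Vc a b c w * V1 z) / V1 w := by
      field_simp
    rw [h3, abs_div, abs_of_pos hV1w, div_le_iff₀ hV1w]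
    rw [← hLd] at h2
    refine h2.trans (le_of_eq ?_)
    field_simp
  refine (sum_le_sum main).trans ?_
  rw [sum_add_distrib, sum_add_distrib, ← mul_sum, ← sum_mul]
  have m1 : C3 * (2 : ℝ) ^ (-(1 / (C3 * η))) * (4 * K1 / (η * L)) * (C * x) * Sa + C3 * (x : ℝ) ^ (1 / 20 : ℝ) * C * Sb ≤
      32 * K1 * C3 * K * (t / η ^ 2) * (C * x) + 4 * C3 * D * (C * x) := by
    have h1 : C3 * (2 : ℝ) ^ (-(1 / (C3 * η))) * (4 * K1 / (η * L)) * (C * x) * Sa ≤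
        C3 * t * (4 * K1 / (η * L)) * (C * x) * (4 * L * (K / (η / 2))) := by gcongr
    have h2 : C3 * t * (4 * K1 / (η * L)) * (C * x) * (4 * L * (K / (η / 2))) =
        32 * K1 * C3 * K * (t / η ^ 2) * (C * x) := by
      field_simp
      ring
    have h3 : C3 * (x : ℝ) ^ (1 / 20 : ℝ) * C * Sb ≤ C3 * (x : ℝ) ^ (1 / 20 : ℝ) * C * ((x : ℝ) ^ (9 / 10 : ℝ) * (4 * L)) := by
      gcongr
    have h4 : C3 * (x : ℝ) ^ (1 / 20 : ℝ) * C * ((x : ℝ) ^ (9 / 10 : ℝ) * (4 * L)) =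
        4 * C3 * C * ((x : ℝ) ^ (1 / 20 : ℝ) * ((x : ℝ) ^ (9 / 10 : ℝ) * L)) := by ring
    have h5 : 4 * C3 * C * ((x : ℝ) ^ (1 / 20 : ℝ) * ((x : ℝ) ^ (9 / 10 : ℝ) * L)) ≤ 4 * C3 * C * (D * x) := by gcongr
    linarith
  have m3 : (∑ c ∈ Gd, Vc a b c w / V1 w) * (((x : ℝ) - x1) * V1 z * (1 / L ^ 3) * (4 * L * (K / (η / 2))) + T) ≤
      K1 * C * (x * (1 / L) * (8 * K / η) + (8 * C2 * K * (t / η ^ 2) * x + 4 * C2 * (D * x))) := by
    have h1 : ∑ c ∈ Gd, Vc a b c w / V1 w ≤ K1 * C := by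
      calc ∑ c ∈ Gd, Vc a b c w / V1 w ≤ ∑ c ∈ Gd, K1 := sum_le_sum fun c hc => hS c hc
        _ = #Gd * K1 := by rw [sum_const, nsmul_eq_mul]
        _ ≤ C * K1 := by
            have h2 : #Gd ≤ C := by
              have := card_le_card hGd
              rwa [Nat.card_Icc, Nat.add_sub_cancel] at this
            have h3 : (#Gd : ℝ) ≤ C := by exact_mod_cast h2
            gcongr
        _ = _ := by ring
    have h2 : 0 ≤ ((x : ℝ) - x1) * V1 z * (1 / L ^ 3) * (4 * L * (K / (η / 2))) + T := by positivity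
    have h3 : ((x : ℝ) - x1) * V1 z * (1 / L ^ 3) * (4 * L * (K / (η / 2))) ≤ x * (1 / L) * (8 * K / η) := by
      have e1 : ((x : ℝ) - x1) * V1 z ≤ x * 1 := mul_le_mul hXx hVz1 hV1z.le hx0.le
      have e2 : (1 / L ^ 3) * (4 * L * (K / (η / 2))) ≤ (1 / L) * (8 * K / η) := by
        have : (1 / L ^ 3) * (4 * L * (K / (η / 2))) = (1 / L) * (8 * K / η) * (1 / L) := by
          field_simp
          ring
        rw [this]
        have h4 : 1 / L ≤ 1 := by rw [div_le_one hL0]; exact hL1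
        exact mul_le_of_le_one_right (by positivity) h4
      calc ((x : ℝ) - x1) * V1 z * (1 / L ^ 3) * (4 * L * (K / (η / 2)))
          = (((x : ℝ) - x1) * V1 z) * ((1 / L ^ 3) * (4 * L * (K / (η / 2)))) := by ring
        _ ≤ (x * 1) * ((1 / L) * (8 * K / η)) := by gcongr
        _ = _ := by ring
    exact mul_le_mul h1 (by linarith) h2 (by positivity)
  have m4 : x * C / L ^ 4 ≤ D * (C * x) := by
    have h1 : 1 / L ≤ D := by
      rw [div_le_iff₀ hL0]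
      rw [div_le_iff₀ hD0] at hL2
      linarith
    have h2 : 1 / L ^ 4 ≤ 1 / L := by
      apply one_div_le_one_div_of_le hL0
      calc L = L ^ 1 := (pow_one _).symm
        _ ≤ L ^ 4 := pow_le_pow_right₀ hL1 (by norm_num)
    calc x * C / L ^ 4 = (1 / L ^ 4) * (C * x) := by ring
      _ ≤ (1 / L) * (C * x) := by gcongr
      _ ≤ D * (C * x) := by gcongr
  have m5 : K1 * C * (x * (1 / L) * (8 * K / η)) ≤ (8 * K1 * K / η) * D * (C * x) := by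
    have h1 : 1 / L ≤ D := by
      rw [div_le_iff₀ hL0]
      rw [div_le_iff₀ hD0] at hL2
      linarith
    calc K1 * C * (x * (1 / L) * (8 * K / η)) ≤ K1 * C * (x * D * (8 * K / η)) := by gcongr
      _ = _ := by ring
  have m6 : D * (1 + 4 * C3 + 8 * K1 * K / η + 4 * K1 * C2) = t / η ^ 2 := by
    rw [hD]
    field_simp
  have m7 : (1 + 4 * C3 + 8 * K1 * K / η + 4 * K1 * C2) * D * (C * x) = t / η ^ 2 * (C * x) := by
    rw [← m6]; ring
  have m8 : C4 * (t / η ^ 2) * (C * x) = C2 * (t / η ^ 2) * (C * x) + C3 * (t / η ^ 2) * (C * x) +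
      32 * K1 * C3 * K * (t / η ^ 2) * (C * x) + 8 * K1 * C2 * K * (t / η ^ 2) * (C * x) + t / η ^ 2 * (C * x) := by
    rw [hC4]; ring
  have m9 : 0 ≤ C2 * (t / η ^ 2) * (C * x) := by positivity
  have m10 : 0 ≤ C3 * (t / η ^ 2) * (C * x) := by positivity
  have m11 : K1 * C * (x * (1 / L) * (8 * K / η) + (8 * C2 * K * (t / η ^ 2) * x + 4 * C2 * (D * x))) =
      K1 * C * (x * (1 / L) * (8 * K / η)) + 8 * K1 * C2 * K * (t / η ^ 2) * (C * x) + 4 * K1 * C2 * D * (C * x) := by ring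
  have m12 : (1 + 4 * C3 + 8 * K1 * K / η + 4 * K1 * C2) * D * (C * x) = D * (C * x) + 4 * C3 * D * (C * x) +
      (8 * K1 * K / η) * D * (C * x) + 4 * K1 * C2 * D * (C * x) := by ring
  rw [m8]
  linarith

end Pool.Agent.N791.U
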