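import Pool.Agent.N792.RX4
import Pool.Agent.N791.U.Base

/-!
X4U: products of three primes (weighted sum), uniformly in the linear coefficient `b` (helper273, after helper13, for
helper791).
-/

set_option autoImplicit false

namespace Pool.Agent.N791.U

open Finset Filter Topology Pool.Agent.N792

open RX4 in
theorem x4U (a : ℤ) (ha : 0 < a) (Λ : ℝ) (hΛ : 1 ≤ Λ) (R : ℕ) : X4U a Λ R := by
  intro η hη
  obtain ⟨C, hC0, hC⟩ := QS2.prime_sum 4
  have hl : Tendsto (fun x : ℕ => Real.log x) atTop atTop :=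
    Real.tendsto_log_atTop.comp tendsto_natCast_atTop_atTop
  have hc : Tendsto (fun x : ℕ => (x : ℝ)) atTop atTop := tendsto_natCast_atTop_atTop
  have hsq : Tendsto (fun x : ℕ => √(x : ℝ)) atTop atTop := Real.tendsto_sqrt_atTop.comp hc
  have hev : ∀ᶠ x : ℕ in atTop, ∀ b : ℤ, (b : ℝ) ^ 2 ≤ Λ * x → ∀ x1 x2 Q V : ℕ, x1 < x2 → x2 ≤ x → x ≤ R * x1 → (x : ℝ) ^ (2 / 5 : ℝ) ≤ Q →
      (V : ℝ) ≤ (x : ℝ) ^ (4 / 5 + 1 / 4000 : ℝ) →
      Ls a b x1 x2 (pi3 Q V) ≤ 1 / 16 * (((x2 : ℝ) - x1) / Real.log x) + η * (x / Real.log x) := by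
    filter_upwards [sum_pairs, hl.eventually_ge_atTop 10, ev_b Λ hΛ (1 / η),
      hsq.eventually_ge_atTop (12 * R / η), hl.eventually_ge_atTop (1536 * (C * R) / η),
      ev_b Λ hΛ (2 * R), hl.eventually_ge_atTop (10000 * Real.log (4 * R ^ 2)),
      hl.eventually_ge_atTop (10000 * Real.log (4 * a)), eventually_ge_atTop 3] with x hsp hL hb' hsx hLC hbR' hLR hLa hx3
    intro b hbΛ x1 x2 Q V hx12 hx2 hxR hQ hV
    have hb := hb' b hbΛ
    have hbR := hbR' b hbΛ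
    have ha1 : (1 : ℝ) ≤ a := by exact_mod_cast ha
    have ha0 : (0 : ℝ) < a := by linarith
    have hb0 := abs_nonneg (b : ℝ)
    have hX : (0 : ℝ) < x := by
      have : 0 < x := by omega
      exact_mod_cast this
    have hR1 : (1 : ℝ) ≤ R := by
      rcases Nat.eq_zero_or_pos R with h | h
      · rw [h, zero_mul] at hxR; omega
      · exact_mod_cast h
    have hXR : (x : ℝ) ≤ R * x1 := by exact_mod_cast hxR
    have hx12' : (x1 : ℝ) < x2 := by exact_mod_cast hx12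
    have hx2' : (x2 : ℝ) ≤ x := by exact_mod_cast hx2
    have hx1b : 2 * (|(b : ℝ)| + 1) ≤ x1 := by
      have : (R : ℝ) * (2 * (|(b : ℝ)| + 1)) ≤ R * x1 := by linarith
      exact le_of_mul_le_mul_left this (by linarith)
    have hx1R : (x : ℝ) / (2 * R) ≤ x1 / 2 := by
      rw [div_le_div_iff₀ (by positivity) (by norm_num)]
      linarith
    have hn1 : |b| ≤ (x1 : ℤ) := by
      have : |(b : ℝ)| ≤ x1 := by linarith
      exact_mod_cast this
    have hn2 : |b| ≤ (x2 : ℤ) := hn1.trans (by exact_mod_cast hx12.le)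
    have hx1p : 1 ≤ x1 := by
      have : (1 : ℝ) ≤ x1 := by linarith
      exact_mod_cast this
    obtain ⟨F1, hF1e⟩ : ∃ F1, F1 = Fn a b x1 := ⟨_, rfl⟩
    obtain ⟨F2, hF2e⟩ : ∃ F2, F2 = Fn a b x2 := ⟨_, rfl⟩
    have g1 := lsl_sqrt ha b hn1 hx1p
    have g2 := lsl_sqrt ha b hn2 (by omega)
    rw [← hF1e] at g1
    rw [← hF2e] at g2
    obtain ⟨g1l, g1u⟩ := abs_le.1 g1
    obtain ⟨g2l, g2u⟩ := abs_le.1 g2
    have hG1 : (x : ℝ) / (2 * R) ≤ √((F1 : ℝ) / a) := by linarith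
    have hG2 : √((F2 : ℝ) / a) ≤ 2 * x := by linarith
    have hG12 : √((F2 : ℝ) / a) - √((F1 : ℝ) / a) ≤ x2 - x1 + 2 * |(b : ℝ)| := by linarith
    have hG10 : 0 < √((F1 : ℝ) / a) := lt_of_lt_of_le (by positivity) hG1
    have hF1a : 0 < (F1 : ℝ) / a := Real.sqrt_pos.1 hG10
    have hF1r : (0 : ℝ) < F1 := by
      have := mul_pos hF1a ha0
      rwa [div_mul_cancel₀ _ ha0.ne'] at this
    have hF1 : 1 ≤ F1 := by exact_mod_cast hF1r
    have hG20 : 0 < √((F2 : ℝ) / a) := by linarith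
    have hF2a : 0 < (F2 : ℝ) / a := Real.sqrt_pos.1 hG20
    have hF2r : (0 : ℝ) < F2 := by
      have := mul_pos hF2a ha0
      rwa [div_mul_cancel₀ _ ha0.ne'] at this
    have hF12 : F1 ≤ F2 := by
      have : (F1 : ℝ) ≤ F2 := by
        have h1 : √((F1 : ℝ) / a) ≤ √((F2 : ℝ) / a) := by
          rw [hF1e, hF2e, lsl_Fn_cast ha b hn1, lsl_Fn_cast ha b hn2]
          apply Real.sqrt_le_sqrt
          apply div_le_div_of_nonneg_right _ ha0.le
          have hb2 := neg_abs_le (b : ℝ)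
          nlinarith [mul_nonneg (by linarith : (0 : ℝ) ≤ (x2 : ℝ) - x1) (by nlinarith : (0 : ℝ) ≤ a * ((x2 : ℝ) + x1) + b)]
        have h2 := mul_self_le_mul_self hG10.le h1
        rw [Real.mul_self_sqrt hF1a.le, Real.mul_self_sqrt hF2a.le] at h2
        exact (div_le_div_iff_of_pos_right ha0).1 h2
      exact_mod_cast this
    have hf1 : 2 * Real.log x - 1 / 10000 * Real.log x ≤ Real.log F1 := by
      have h1 : (x : ℝ) ^ 2 / (4 * R ^ 2) ≤ F1 := by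
        have h2 := mul_self_le_mul_self (by positivity) hG1
        rw [Real.mul_self_sqrt hF1a.le] at h2
        have h3 : (F1 : ℝ) / a ≤ F1 := div_le_self hF1r.le ha1
        have h4 : (x : ℝ) ^ 2 / (4 * R ^ 2) = x / (2 * R) * (x / (2 * R)) := by
          field_simp
          ring
        rw [h4]
        exact h2.trans h3
      have h2 := Real.log_le_log (by positivity) h1
      rw [Real.log_div (by positivity) (by positivity), Real.log_pow] at h2
      push_cast at h2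
      linarith
    have hf2 : Real.log F2 ≤ 2 * Real.log x + 1 / 10000 * Real.log x := by
      have h1 : (F2 : ℝ) ≤ 4 * a * x ^ 2 := by
        have h2 := mul_self_le_mul_self hG20.le hG2
        rw [Real.mul_self_sqrt hF2a.le, div_le_iff₀ ha0] at h2
        linarith
      have h2 := Real.log_le_log hF2r h1
      rw [Real.log_mul (by positivity) (by positivity), Real.log_pow] at h2
      push_cast at h2
      linarith
    have hT := hsp Q V F1 F2 hF1 hQ hV hf1 hf2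
    obtain ⟨hS, hI⟩ := pairs_bd hx3 hF1 hQ hV hf2
    have hL0 : 0 < Real.log x := by linarith
    -- the lower bound for the logarithm
    have hlg : ∀ t ∈ SS Q V F1 F2, 0 < t.1 * t.2 ∧ 3 / 5 * Real.log x ≤ Real.log ((F1 : ℝ) / ((t.1 * t.2 : ℕ) : ℝ)) := by
      intro t ht
      obtain ⟨j, hj, k1, k2, k3⟩ := cover ht (by omega) hF1 hQ hV hf1 hf2
      have hj' : (j : ℝ) ≤ 40 := by exact_mod_cast (by have := mem_range.1 hj; omega : j ≤ 40)
      unfold SS at ht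
      rw [mem_filter] at ht
      refine ⟨Nat.mul_pos ht.2.1.pos ht.2.2.1.pos, le_trans ?_ k3⟩
      apply mul_le_mul_of_nonneg_right _ hL0.le
      unfold sg
      push_cast
      linarith
    refine (ls_pi3_le a b x1 x2 Q V).trans ?_
    rw [← hF1e, ← hF2e]
    obtain ⟨G1, hG1e⟩ : ∃ G1, G1 = √((F1 : ℝ) / a) := ⟨_, rfl⟩
    obtain ⟨G2, hG2e⟩ : ∃ G2, G2 = √((F2 : ℝ) / a) := ⟨_, rfl⟩
    have hG22 : (F2 : ℝ) / a = G2 ^ 2 := by rw [hG2e, Real.sq_sqrt hF2a.le]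
    rw [← hG1e] at hG1 hG12 hG10
    rw [← hG2e] at hG2 hG12 hG20
    have hstep : ∀ t ∈ SS Q V F1 F2, ∑ k ∈ Ioc (F1 / (t.1 * t.2)) (F2 / (t.1 * t.2)), pi0 k * hw a (t.1 * t.2 * k) ≤
        (G2 - G1) * (1 / (((t.1 * t.2 : ℕ) : ℝ) * Real.log (F1 / (t.1 * t.2 : ℕ)))) +
          2 / Real.log x * (1 / (a * G1)) + 16 * C * G2 ^ 2 / (Real.log x ^ 4 * G1) * (1 / ((t.1 * t.2 : ℕ) : ℝ)) := by
      intro t ht
      obtain ⟨hm, hl'⟩ := hlg t ht
      have hm0 : (0 : ℝ) < ((t.1 * t.2 : ℕ) : ℝ) := by exact_mod_cast hm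
      refine (inner ha hC0 hC hm hF1 hF12 hL hl').trans ?_
      rw [← hG1e, ← hG2e, hG22]
      have hl0 : 0 < Real.log ((F1 : ℝ) / ((t.1 * t.2 : ℕ) : ℝ)) := by linarith
      have e1 : 1 / Real.log ((F1 : ℝ) / ((t.1 * t.2 : ℕ) : ℝ)) * ((G2 - G1) / ((t.1 * t.2 : ℕ) : ℝ) + 1 / (a * G1)) =
          (G2 - G1) * (1 / (((t.1 * t.2 : ℕ) : ℝ) * Real.log (F1 / (t.1 * t.2 : ℕ)))) +
            1 / Real.log ((F1 : ℝ) / ((t.1 * t.2 : ℕ) : ℝ)) * (1 / (a * G1)) := by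
        rw [mul_add]
        congr 1
        rw [one_div_mul_eq_div, div_div, mul_one_div]
      have e2 : 16 * C * G2 ^ 2 / (((t.1 * t.2 : ℕ) : ℝ) * Real.log x ^ 4 * G1) =
          16 * C * G2 ^ 2 / (Real.log x ^ 4 * G1) * (1 / ((t.1 * t.2 : ℕ) : ℝ)) := by
        rw [div_mul_div_comm, mul_one]
        congr 1
        ring
      rw [e1, e2]
      have h5 : 1 / Real.log ((F1 : ℝ) / ((t.1 * t.2 : ℕ) : ℝ)) ≤ 2 / Real.log x := by
        rw [div_le_div_iff₀ hl0 hL0]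
        linarith
      have h6 : 1 / Real.log ((F1 : ℝ) / ((t.1 * t.2 : ℕ) : ℝ)) * (1 / (a * G1)) ≤ 2 / Real.log x * (1 / (a * G1)) :=
        mul_le_mul_of_nonneg_right h5 (by positivity)
      linarith
    refine (sum_le_sum hstep).trans ?_
    have hsplit : ∑ t ∈ SS Q V F1 F2, ((G2 - G1) * (1 / (((t.1 * t.2 : ℕ) : ℝ) * Real.log (F1 / (t.1 * t.2 : ℕ)))) +
          2 / Real.log x * (1 / (a * G1)) + 16 * C * G2 ^ 2 / (Real.log x ^ 4 * G1) * (1 / ((t.1 * t.2 : ℕ) : ℝ))) =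
        (G2 - G1) * ∑ t ∈ SS Q V F1 F2, 1 / (((t.1 * t.2 : ℕ) : ℝ) * Real.log (F1 / (t.1 * t.2 : ℕ))) +
          #(SS Q V F1 F2) * (2 / Real.log x * (1 / (a * G1))) +
          16 * C * G2 ^ 2 / (Real.log x ^ 4 * G1) * ∑ t ∈ SS Q V F1 F2, 1 / ((t.1 * t.2 : ℕ) : ℝ) := by
      rw [sum_add_distrib, sum_add_distrib, sum_const, nsmul_eq_mul, mul_sum, mul_sum]
    rw [hsplit]
    have hI2 : 16 * C * G2 ^ 2 / (Real.log x ^ 4 * G1) * ∑ t ∈ SS Q V F1 F2, 1 / ((t.1 * t.2 : ℕ) : ℝ) ≤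
        16 * C * G2 ^ 2 / (Real.log x ^ 4 * G1) * (1 + Real.log x) ^ 2 :=
      mul_le_mul_of_nonneg_left hI (by positivity)
    have hfin := fin_ineq (X := x) (X1 := x1) (X2 := x2) (L := Real.log x) (B := |(b : ℝ)|) (R := R) (C := C) (η := η)
      (T := ∑ t ∈ SS Q V F1 F2, 1 / (((t.1 * t.2 : ℕ) : ℝ) * Real.log (F1 / (t.1 * t.2 : ℕ))))
      (S := #(SS Q V F1 F2)) (G1 := G1) (G2 := G2) (a := a) hX hL hR1 hη hC0 hb0 (by
        rw [one_div, inv_mul_le_iff₀ hη] at hb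
        linarith) hx12'.le (sum_nonneg fun t ht => by
        obtain ⟨hm, hl'⟩ := hlg t ht
        have hl0 : 0 < Real.log ((F1 : ℝ) / ((t.1 * t.2 : ℕ) : ℝ)) := by linarith
        positivity) hT hS (Nat.cast_nonneg _) hsx hLC ha1 hG1 hG20.le hG2 hG12
    refine le_trans ?_ hfin
    rw [mul_assoc (#(SS Q V F1 F2) : ℝ) (2 / Real.log x)]
    exact add_le_add le_rfl hI2
  obtain ⟨x0, hx0⟩ := eventually_atTop.1 hev
  exact ⟨1 / 4000, by norm_num, x0, fun x hx => hx0 x hx⟩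

/-- **X4, uniform in `b`** -/
theorem t_X4U : S_X4U := fun a ha Λ hΛ R => x4U a ha Λ hΛ R

end Pool.Agent.N791.U
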