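import Mathlib
import Pool.Agent.N792.RX6
import Pool.Agent.N791.U.Base

/-!
X6, uniform in the linear coefficient: the values divisible by two primes of one of the short ranges
(helper394, for helper791, after helper72 for helper792).
-/

set_option autoImplicit false

namespace Pool.Agent.N791.U

open Finset Filter Topology Pool.Agent.N792
open ArithmeticFunction (moebius vonMangoldt)

/-- **the values divisible by two primes of one of the ranges**, uniformly in the linear coefficient -/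
theorem t_X6U : S_X6U := by
  classical
  intro a ha Λ hΛ hLS hLC R K1 hK1
  obtain ⟨C2, η2, hC2, hη2, hη2', H2⟩ := hLS R
  obtain ⟨C3, η3, hC3, hη3, hη3', H3⟩ := hLC R
  obtain ⟨C5, hC5⟩ : ∃ C5 : ℝ, C5 = 4 * (C2 + 2) + 16 * K1 * (C3 + 2) + 1 := ⟨_, rfl⟩
  refine ⟨C5, min η2 η3, by rw [hC5]; positivity, lt_min hη2 hη3, fun η κ hη hη0 hκ hκ1 E => ?_⟩
  have hηa : η ≤ η2 := hη0.trans (min_le_left _ _)
  have hηb : η ≤ η3 := hη0.trans (min_le_right _ _)
  have hη1 : η ≤ 1 / 40 := by linarith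
  obtain ⟨x2, H2⟩ := H2 η hη hηa
  obtain ⟨x3, H3⟩ := H3 η hη hηb
  obtain ⟨y4, H4⟩ := RX.mert κ hκ
  obtain ⟨D, hD⟩ : ∃ D : ℝ, D = κ / η ^ 2 / (C2 + 2 * C3) := ⟨_, rfl⟩
  have hD0 : 0 < D := by rw [hD]; positivity
  have hev1 := (Real.tendsto_log_atTop.comp tendsto_natCast_atTop_atTop).eventually_ge_atTop 1
  have hev2 := Shp.log_pow_le 1 (1 / D) (1 / 20) (by norm_num)
  have hev3 := ((tendsto_rpow_atTop (by positivity : 0 < η / 2)).comp tendsto_natCast_atTop_atTop).eventually_ge_atTop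
    (max (y4 : ℝ) 3)
  obtain ⟨x7, H7⟩ := eventually_atTop.1 ((hev1.and hev2).and hev3)
  refine ⟨x2 + x3 + x7 + 3, fun x hx b hb x1 C J Jw K Q U zs hx1 hxR hxC hCx hz1 hz2 hw hQ hU hzs0 hzsK hzs hzsκ => ?_⟩
  obtain ⟨⟨hL, hLp⟩, hy⟩ := H7 x (by omega)
  simp only [Function.comp_apply] at hL hy
  obtain ⟨L, hLd⟩ : ∃ L : ℝ, L = Real.log x := ⟨_, rfl⟩
  rw [← hLd] at hL
  have hL0 : 0 < L := by linarith
  obtain ⟨z, hz⟩ : ∃ z : ℕ, z = 2 ^ 2 ^ J := ⟨_, rfl⟩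
  have hxr : (1 : ℝ) ≤ x := by exact_mod_cast (by omega : 1 ≤ x)
  have hx0 : (0 : ℝ) < x := by linarith
  have hC0 : (0 : ℝ) < C := lt_of_lt_of_le (Real.rpow_pos_of_pos hx0 _) hxC
  have hX0 : (0 : ℝ) ≤ (x : ℝ) - x1 := by
    have : (x1 : ℝ) ≤ x := by exact_mod_cast hx1.le
    linarith
  have hXx : (x : ℝ) - x1 ≤ x := by
    have : (0 : ℝ) ≤ x1 := Nat.cast_nonneg _
    linarith
  have hzR : (x : ℝ) ^ (η / 2) ≤ z := by rw [hz]; exact hz1
  have hz3R : (3 : ℝ) ≤ z := (le_max_right _ _).trans (hy.trans hzR)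
  have hzy : y4 ≤ z := by exact_mod_cast (le_max_left _ _).trans (hy.trans hzR)
  have hz3 : 3 ≤ z := by exact_mod_cast hz3R
  have hlz : η / 2 * L ≤ Real.log z := by
    rw [hLd, ← Real.log_rpow hx0, hz]
    exact Real.log_le_log (by positivity) hz1
  have hlz0 : 0 < Real.log z := lt_of_lt_of_le (by positivity) hlz
  have hV1 : V1 z ≤ 2 / (η * L) := by
    refine (V1_le z (by omega)).trans ?_
    rw [div_le_div_iff₀ hlz0 (by positivity)]
    linarith
  rw [← hz] at hzs0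
  have hmono : ∀ i ≤ K, z ≤ zs i := fun i hi => hzs0 ▸ RX.zs_mono hzs (Nat.zero_le i) hi
  -- the sums over the ranges
  have hps : ∀ i < K, RX.ps (zs i) (zs (i + 1)) ≤ 2 * κ := by
    intro i hi
    have h1 := H4 (zs i) (zs (i + 1)) (hzy.trans (hmono i hi.le)) (hzs i hi)
    have h2 := hzsκ i hi
    have h3 : 0 < Real.log (zs i) := lt_of_lt_of_le hlz0 (Real.log_le_log (by positivity) (by exact_mod_cast hmono i hi.le))
    have h4 : 0 < Real.log (zs (i + 1)) := lt_of_lt_of_le hlz0 (Real.log_le_log (by positivity) (by exact_mod_cast hmono (i + 1) hi))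
    have h5 : Real.log (Real.log (zs (i + 1))) ≤ Real.log (1 + κ) + Real.log (Real.log (zs i)) := by
      rw [← Real.log_mul (by positivity) h3.ne']
      exact Real.log_le_log h4 h2
    have h6 : Real.log (1 + κ) ≤ κ := by
      have := Real.log_le_sub_one_of_pos (by positivity : 0 < 1 + κ)
      linarith
    linarith
  have hzQ : z ≤ Q := by rw [← hzsK]; exact hmono K le_rfl
  have hpsQ : RX.ps (zs 0) (zs K) ≤ 2 / η := by
    rw [hzs0, hzsK]
    have h1 := H4 z Q hzy hzQ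
    have hQ0 : (0 : ℝ) < Q := by exact_mod_cast (by omega : 0 < Q)
    have h2 : Real.log Q ≤ L := by
      rw [hLd]
      apply Real.log_le_log hQ0
      refine hQ.trans ?_
      calc (x : ℝ) ^ (9 / 20 : ℝ) ≤ (x : ℝ) ^ (1 : ℝ) := Real.rpow_le_rpow_of_exponent_le hxr (by norm_num)
        _ = x := Real.rpow_one _
    have h3 : 0 < Real.log Q := lt_of_lt_of_le hlz0 (Real.log_le_log (by positivity) (by exact_mod_cast hzQ))
    have h4 : Real.log (Real.log Q) - Real.log (Real.log z) ≤ 2 / η - 1 := by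
      rw [← Real.log_div h3.ne' hlz0.ne']
      refine (Real.log_le_sub_one_of_pos (by positivity)).trans ?_
      apply sub_le_sub_right
      rw [div_le_div_iff₀ hlz0 hη]
      nlinarith
    linarith
  have hsum := RX.same_sum hzs z U hps
  have hsum2 : ∑ j ∈ Icc 1 U, rg z j * |same K zs j| / j ≤ 4 * κ / η := by
    refine hsum.trans ?_
    calc 2 * κ * RX.ps (zs 0) (zs K) ≤ 2 * κ * (2 / η) := by gcongr
      _ = _ := by ring
  obtain ⟨Sa, hSa⟩ : ∃ Sa : ℝ, Sa = ∑ j ∈ Icc 1 U, rg z j * |same K zs j| / j := ⟨_, rfl⟩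
  obtain ⟨Sb, hSb⟩ : ∃ Sb : ℝ, Sb = ∑ j ∈ Icc 1 U, |same K zs j| := ⟨_, rfl⟩
  rw [← hSa] at hsum2
  have hSa0 : 0 ≤ Sa := by
    rw [hSa]
    apply sum_nonneg
    intro j _
    have := (rg_range z j).1
    positivity
  have hSb0 : 0 ≤ Sb := by rw [hSb]; exact sum_nonneg fun _ _ => abs_nonneg _
  have hSbb : Sb ≤ (x : ℝ) ^ (9 / 10 : ℝ) := by
    rw [hSb]
    calc ∑ j ∈ Icc 1 U, |same K zs j| ≤ ∑ j ∈ Icc 1 U, (1 : ℝ) := sum_le_sum fun j _ => by
          rw [abs_of_nonneg (RX.same_nonneg K zs j)]; exact RX.same_le_one hzs j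
      _ = U := by rw [sum_const, Nat.card_Icc, nsmul_eq_mul, Nat.add_sub_cancel, mul_one]
      _ ≤ _ := hU
  have hpow1 : (1 : ℝ) ≤ (x : ℝ) ^ (1 / 20 : ℝ) := Real.one_le_rpow hxr (by norm_num)
  have hpow : (x : ℝ) ^ (1 / 20 : ℝ) * (x : ℝ) ^ (9 / 10 : ℝ) ≤ D * (x / L) := by
    rw [pow_one, ← hLd] at hLp
    rw [mul_div_assoc', le_div_iff₀ hL0]
    have h2 : L ≤ (x : ℝ) ^ (1 / 20 : ℝ) * D := by
      rw [div_mul_eq_mul_div, one_mul, div_le_iff₀ hD0] at hLp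
      exact hLp
    calc (x : ℝ) ^ (1 / 20 : ℝ) * (x : ℝ) ^ (9 / 10 : ℝ) * L
        ≤ (x : ℝ) ^ (1 / 20 : ℝ) * (x : ℝ) ^ (9 / 10 : ℝ) * ((x : ℝ) ^ (1 / 20 : ℝ) * D) := by gcongr
      _ = ((x : ℝ) ^ (1 / 20 : ℝ) * (x : ℝ) ^ (9 / 10 : ℝ) * (x : ℝ) ^ (1 / 20 : ℝ)) * D := by ring
      _ = x * D := by
          rw [← Real.rpow_add hx0, ← Real.rpow_add hx0]
          norm_num
      _ = _ := by ring
  have hpow' : (x : ℝ) ^ (9 / 10 : ℝ) ≤ D * (x / L) := by
    refine le_trans ?_ hpow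
    have : 0 ≤ (x : ℝ) ^ (9 / 10 : ℝ) := by positivity
    nlinarith
  have hDm : D * (C2 + 2 * C3) = κ / η ^ 2 := by
    rw [hD]
    field_simp
  have hDm1 : C2 * D ≤ κ / η ^ 2 := by rw [← hDm]; nlinarith
  have hDm2 : C3 * D ≤ κ / η ^ 2 := by rw [← hDm]; nlinarith
  have hP : 0 < κ / η ^ 2 := by positivity
  have hrp : ∀ D' : ℝ, 0 < D' → (2 : ℝ) ^ (-(1 / (D' * η))) ≤ 1 := by
    intro D' hD'
    apply Real.rpow_le_one_of_one_le_of_nonpos (by norm_num)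
    rw [neg_nonpos]
    positivity
  constructor
  · -- the weighted sum
    have k2 := H2 x (by omega) b hb x1 J U hx1 hxR hz1 hz2 hU (same K zs)
    rw [← hz, ← hSa, ← hSb, ← hLd] at k2
    rw [← hz, ← hLd]
    have e1 : ((x : ℝ) - x1) * V1 z * ∑ j ∈ Icc 1 U, rg z j * same K zs j / j ≤ x * (2 / (η * L)) * Sa := by
      have h1 : ∑ j ∈ Icc 1 U, rg z j * same K zs j / j = Sa := by
        rw [hSa]
        apply sum_congr rfl
        intro j _
        rw [abs_of_nonneg (RX.same_nonneg K zs j)]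
      rw [h1]
      have := V1_pos z
      gcongr
    have e2 : C2 * (2 : ℝ) ^ (-(1 / (C2 * η))) / (η * L) * x * Sa ≤ C2 * 1 / (η * L) * x * Sa := by
      have := hrp C2 (by linarith)
      gcongr
    have e3 : C2 * Sb ≤ κ / η ^ 2 * (x / L) := by
      calc C2 * Sb ≤ C2 * (D * (x / L)) := by
            apply mul_le_mul_of_nonneg_left (hSbb.trans hpow') (by linarith)
        _ = C2 * D * (x / L) := by ring
        _ ≤ _ := by gcongr
    have e4 : x * (2 / (η * L)) * Sa + C2 * 1 / (η * L) * x * Sa ≤ 4 * (C2 + 2) * (κ / η ^ 2) * (x / L) := by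
      calc x * (2 / (η * L)) * Sa + C2 * 1 / (η * L) * x * Sa = (C2 + 2) / (η * L) * x * Sa := by ring
        _ ≤ (C2 + 2) / (η * L) * x * (4 * κ / η) := by gcongr
        _ = _ := by field_simp
    have e5 := (abs_le.1 k2).2
    have e6 : C5 * (κ / η ^ 2) * (x / L) = 4 * (C2 + 2) * (κ / η ^ 2) * (x / L) +
        16 * K1 * (C3 + 2) * (κ / η ^ 2) * (x / L) + κ / η ^ 2 * (x / L) := by
      rw [hC5]; ring
    have e7 : 0 ≤ 16 * K1 * (C3 + 2) * (κ / η ^ 2) * (x / L) := by positivity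
    rw [e6]
    linarith
  · intro Gd hGd hgood hS
    have hM : ∀ c ∈ Gd, Vc a b c (2 ^ 2 ^ J) ≤ 4 * K1 / (η * L) := by
      intro c hc
      have h1 := RX.Vc_le (L := Real.log x) (by rw [← hLd]; exact hL) (hgood c hc) (hS c hc)
      rw [← hz] at h1 ⊢
      refine h1.trans ?_
      calc 2 * K1 * V1 z ≤ 2 * K1 * (2 / (η * L)) := by gcongr
        _ = _ := by ring
    obtain ⟨k3, k4⟩ := H3 x (by omega) b hb x1 C J U hx1 hxR hxC hCx hz1 hz2 hU Gd hGd (4 * K1 / (η * L)) (by positivity) hM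
      (same K zs) (fun j _ hj => RX.same_sqf hj)
    rw [← hz, ← hSa] at k3 k4
    rw [← hSb] at k3
    rw [← hz, ← hLd]
    have e1 : ∑ c ∈ Gd, Lc a b x1 x c (T1 z U (same K zs)) ≤
        ∑ c ∈ Gd, (|Lc a b x1 x c (T1 z U (same K zs)) - ((x : ℝ) - x1) * Vc a b (c : ℕ) z *
          ∑ j ∈ Icc 1 U, rg z j * same K zs j * (rho a b (c : ℕ) j : ℝ) / j| +
          |((x : ℝ) - x1) * Vc a b (c : ℕ) z *
            ∑ j ∈ Icc 1 U, rg z j * same K zs j * (rho a b (c : ℕ) j : ℝ) / j|) := by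
      apply sum_le_sum
      intro c _
      have h1 := le_abs_self (Lc a b x1 x c (T1 z U (same K zs)) - ((x : ℝ) - x1) * Vc a b (c : ℕ) z *
          ∑ j ∈ Icc 1 U, rg z j * same K zs j * (rho a b (c : ℕ) j : ℝ) / j)
      have h2 := le_abs_self (((x : ℝ) - x1) * Vc a b (c : ℕ) z *
            ∑ j ∈ Icc 1 U, rg z j * same K zs j * (rho a b (c : ℕ) j : ℝ) / j)
      linarith
    rw [sum_add_distrib] at e1
    have e2 : C3 * (2 : ℝ) ^ (-(1 / (C3 * η))) * (4 * K1 / (η * L)) * (C * x) * Sa ≤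
        C3 * 1 * (4 * K1 / (η * L)) * (C * x) * Sa := by
      have := hrp C3 (by linarith)
      gcongr
    have e3 : C3 * (x : ℝ) ^ (1 / 20 : ℝ) * C * Sb ≤ κ / η ^ 2 * (C * x / L) := by
      calc C3 * (x : ℝ) ^ (1 / 20 : ℝ) * C * Sb ≤ C3 * (x : ℝ) ^ (1 / 20 : ℝ) * C * (x : ℝ) ^ (9 / 10 : ℝ) := by gcongr
        _ = C3 * C * ((x : ℝ) ^ (1 / 20 : ℝ) * (x : ℝ) ^ (9 / 10 : ℝ)) := by ring
        _ ≤ C3 * C * (D * (x / L)) := by gcongr
        _ = (C3 * D) * (C * x / L) := by ring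
        _ ≤ _ := by gcongr
    have e4 : C3 * 1 * (4 * K1 / (η * L)) * (C * x) * Sa + 2 * (4 * K1 / (η * L)) * (C * x) * Sa ≤
        16 * K1 * (C3 + 2) * (κ / η ^ 2) * (C * x / L) := by
      calc C3 * 1 * (4 * K1 / (η * L)) * (C * x) * Sa + 2 * (4 * K1 / (η * L)) * (C * x) * Sa
          = (C3 + 2) * (4 * K1 / (η * L)) * (C * x) * Sa := by ring
        _ ≤ (C3 + 2) * (4 * K1 / (η * L)) * (C * x) * (4 * κ / η) := by gcongr
        _ = _ := by field_simp; ring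
    have e6 : C5 * (κ / η ^ 2) * (C * x / L) = 4 * (C2 + 2) * (κ / η ^ 2) * (C * x / L) +
        16 * K1 * (C3 + 2) * (κ / η ^ 2) * (C * x / L) + κ / η ^ 2 * (C * x / L) := by
      rw [hC5]; ring
    have e7 : 0 ≤ 4 * (C2 + 2) * (κ / η ^ 2) * (C * x / L) := by positivity
    rw [e6]
    linarith

end Pool.Agent.N791.U
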