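import Mathlib
import Pool.Agent.N792.RX7
import Pool.Agent.N791.U.Stm

/-!
X7U: the values divisible by the square of a prime, uniformly in `b` (helper595 for helper791, after
helper402 for helper792).
-/

set_option autoImplicit false

namespace Pool.Agent.N791.U

open Finset Filter Topology Pool.Agent.N792 Pool.Agent.N792.RX7

namespace X7Uaux

lemma ev_bn (Λ : ℝ) (K : ℕ) : ∀ᶠ x : ℕ in atTop, ∀ b : ℤ, (b : ℝ) ^ 2 ≤ Λ * x →
    K * (b.natAbs + 1) ≤ x := by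
  filter_upwards [eventually_ge_atTop (⌈2 * (K : ℝ) ^ 2 * (Λ + 1)⌉₊ + 1)] with x hx b hb
  have hx1 : 2 * (K : ℝ) ^ 2 * (Λ + 1) ≤ x := by
    have h1 := Nat.le_ceil (2 * (K : ℝ) ^ 2 * (Λ + 1))
    have h2 : ((⌈2 * (K : ℝ) ^ 2 * (Λ + 1)⌉₊ : ℕ) : ℝ) ≤ x := by
      have : ⌈2 * (K : ℝ) ^ 2 * (Λ + 1)⌉₊ ≤ x := by omega
      exact_mod_cast this
    linarith
  have hx0 : (1 : ℝ) ≤ x := by
    have : 1 ≤ x := by omega
    exact_mod_cast this
  have hbr : ((b.natAbs : ℕ) : ℝ) = |(b : ℝ)| := by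
    rw [Nat.cast_natAbs]; push_cast; rfl
  have key : (K : ℝ) * (|(b : ℝ)| + 1) ≤ x := by
    apply abs_le_of_sq_le_sq' _ (by linarith) |>.2
    have h4 : (|(b : ℝ)| + 1) ^ 2 ≤ 2 * ((b : ℝ) ^ 2 + 1) := by
      rw [← sq_abs (b : ℝ)]
      nlinarith [sq_nonneg (|(b : ℝ)| - 1)]
    calc ((K : ℝ) * (|(b : ℝ)| + 1)) ^ 2 = (K : ℝ) ^ 2 * (|(b : ℝ)| + 1) ^ 2 := by ring
      _ ≤ (K : ℝ) ^ 2 * (2 * ((b : ℝ) ^ 2 + 1)) := mul_le_mul_of_nonneg_left h4 (by positivity)
      _ ≤ (K : ℝ) ^ 2 * (2 * (Λ * x + x)) := by gcongr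
      _ = (2 * (K : ℝ) ^ 2 * (Λ + 1)) * x := by ring
      _ ≤ x * x := mul_le_mul_of_nonneg_right hx1 (by linarith)
      _ = (x : ℝ) ^ 2 := by ring
  rw [← hbr] at key
  exact_mod_cast key

lemma fv_leU (a : ℤ) (ha : 0 < a) (b : ℤ) {x : ℕ} (hx : 1 ≤ x) (hbx : b.natAbs ≤ x) (c n : ℕ) (hc : c ≤ x)
    (hnx : n ≤ x) : fv a b c n ≤ (((a.natAbs + 2) * x ^ 2 : ℕ) : ℤ) := by
  unfold fv
  have h1 : (n : ℤ) ≤ x := by exact_mod_cast hnx
  have h2 : (c : ℤ) ≤ x := by exact_mod_cast hc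
  have h3 : (0 : ℤ) ≤ n := by positivity
  have hx0 : (1 : ℤ) ≤ x := by exact_mod_cast hx
  have hbx' : (b.natAbs : ℤ) ≤ x := by exact_mod_cast hbx
  have h4 : a * (n : ℤ) ^ 2 ≤ a * (x : ℤ) ^ 2 := by
    apply mul_le_mul_of_nonneg_left _ ha.le
    nlinarith
  have h5 : b * n ≤ (x : ℤ) ^ 2 := by
    have : b ≤ (b.natAbs : ℤ) := by omega
    calc b * n ≤ (b.natAbs : ℤ) * n := by nlinarith
      _ ≤ (b.natAbs : ℤ) * x := by nlinarith [Int.natCast_nonneg b.natAbs]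
      _ ≤ (x : ℤ) * x := by nlinarith
      _ = (x : ℤ) ^ 2 := by ring
  have h6 : (c : ℤ) ≤ x ^ 2 := by nlinarith
  have h7 : (((a.natAbs + 2) * x ^ 2 : ℕ) : ℤ) =
      (a.natAbs : ℤ) * x ^ 2 + (x : ℤ) ^ 2 + x ^ 2 := by
    push_cast; ring
  have h8 : (a.natAbs : ℤ) = a := by omega
  rw [h7, h8]
  linarith

open Classical in
/-- the number of the pairs with a value in a given set -/
lemma pairs_leU (a : ℤ) (ha : 0 < a) (b : ℤ) {R x1 x C M : ℕ} (hb : b.natAbs ≤ x1) (hR : x ≤ R * x1)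
    (hC : C ≤ x) (hx : 1 ≤ x) (hbx : b.natAbs ≤ x) (hM : M = (a.natAbs + 2) * x ^ 2) (P : ℕ → Prop) :
    #((Icc 1 C ×ˢ Ioc x1 x).filter (fun q => P (fv a b (q.1 : ℕ) q.2).toNat)) ≤
      R * #((Icc 1 M).filter P) := by
  set val : ℕ × ℕ → ℕ := fun q => (fv a b q.1 q.2).toNat with hval
  set T : Finset (ℕ × ℕ) := (Icc 1 C ×ˢ Ioc x1 x).filter (fun q => P (val q)) with hT
  have hpos : ∀ c n : ℕ, 1 ≤ c → x1 < n → (0 : ℤ) < fv a b c n := by
    intro c n hc hn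
    have h1 := fv_pos a ha b hb c n hn
    have h2 : (1 : ℤ) ≤ c := by exact_mod_cast hc
    linarith
  -- fibres
  have hfib : ∀ N ∈ (Icc 1 M).filter P, #(T.filter (fun q => val q = N)) ≤ R := by
    intro N _
    rcases (T.filter (fun q => val q = N)).eq_empty_or_nonempty with h0 | h0
    · rw [h0]; simp
    have hinj : Set.InjOn Prod.snd (T.filter (fun q => val q = N) : Set (ℕ × ℕ)) := by
      rintro ⟨c, n⟩ h1 ⟨d, m⟩ h2 h3
      simp only [coe_filter, Set.mem_ofPred_eq, hT, mem_filter, mem_product, mem_Icc, mem_Ioc] at h1 h2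
      simp only at h3
      subst h3
      have e1 := Int.toNat_of_nonneg (hpos c n h1.1.1.1.1 h1.1.1.2.1).le
      have e2 := Int.toNat_of_nonneg (hpos d n h2.1.1.1.1 h2.1.1.2.1).le
      have e3 : val (c, n) = val (d, n) := h1.2.trans h2.2.symm
      simp only [hval] at e3
      have e4 : fv a b c n = fv a b d n := by rw [← e1, ← e2, e3]
      unfold fv at e4
      have : (c : ℤ) = d := by linarith
      have : c = d := by exact_mod_cast this
      rw [this]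
    rw [← card_image_of_injOn hinj]
    set S := (T.filter (fun q => val q = N)).image Prod.snd with hS
    have hSne : S.Nonempty := h0.image _
    have hsub : S ⊆ Ico (S.min' hSne) (S.min' hSne + R) := by
      intro m hm
      have hmin := S.min'_mem hSne
      have hle' := S.min'_le m hm
      set n := S.min' hSne with hn
      rw [hS, mem_image] at hm hmin
      obtain ⟨⟨d, m'⟩, h2, rfl⟩ := hm
      obtain ⟨⟨c, n'⟩, h1, hn'⟩ := hmin
      simp only at hn' hle' ⊢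
      simp only [hT, mem_filter, mem_product, mem_Icc, mem_Ioc] at h1 h2
      rw [mem_Ico]
      refine ⟨hle', ?_⟩
      rw [← hn'] at hle' ⊢
      have e1 := Int.toNat_of_nonneg (hpos c n' h1.1.1.1.1 h1.1.1.2.1).le
      have e2 := Int.toNat_of_nonneg (hpos d m' h2.1.1.1.1 h2.1.1.2.1).le
      have e3 : val (c, n') = val (d, m') := h1.2.trans h2.2.symm
      simp only [hval] at e3
      have e4 : fv a b c n' = fv a b d m' := by rw [← e1, ← e2, e3]
      have e5 := diff_ge a ha b x1 n' m' (by omega) h1.1.1.2.1 hle' c d e4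
      have e6 : ((m' : ℤ) - n') * x1 < R * x1 := by
        have : (c : ℤ) ≤ C := by exact_mod_cast h1.1.1.1.2
        have h7 : (C : ℤ) ≤ x := by exact_mod_cast hC
        have h8 : (x : ℤ) ≤ R * x1 := by exact_mod_cast hR
        have h9 : (1 : ℤ) ≤ d := by exact_mod_cast h2.1.1.1.1
        linarith
      have e7 : (m' : ℤ) - n' < R := lt_of_mul_lt_mul_right e6 (by positivity)
      omega
    refine (card_le_card hsub).trans ?_
    simp
  have hmaps : ∀ q ∈ T, val q ∈ (Icc 1 M).filter P := by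
    rintro ⟨c, n⟩ hq
    rw [hT, mem_filter, mem_product, mem_Icc, mem_Ioc] at hq
    obtain ⟨⟨hc, hn⟩, hq2⟩ := hq
    rw [mem_filter, mem_Icc]
    refine ⟨⟨?_, ?_⟩, hq2⟩
    · have := hpos c n hc.1 hn.1
      simp only [hval]
      omega
    · have := fv_leU a ha b hx hbx c n (hc.2.trans hC) hn.2
      rw [← hM] at this
      simp only [hval]
      omega
  have := card_le_mul_card_image_of_maps_to hmaps R hfib
  simpa [mul_comm] using this

end X7Uaux

open Classical in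
/-- X7: the values divisible by the square of a prime, uniformly in `b` -/
theorem t_X7U : S_X7U := by
  intro a ha Λ hΛ R η hη
  set A : ℕ := a.natAbs + 2 with hA
  obtain ⟨x1', hx1'⟩ := log_pow_le 3 η hη
  obtain ⟨x2', hx2'⟩ := log_pow_le 3 (1 / 10) (by norm_num)
  obtain ⟨x3', hx3'⟩ := log_pow_le (6 * R * A) (1 / 10) (by norm_num)
  obtain ⟨x4', hx4'⟩ := log_pow_le (R * A) η hη
  obtain ⟨x5', hx5'⟩ := eventually_atTop.1 (X7Uaux.ev_bn Λ (2 * R + 1))
  refine ⟨x1' + x2' + x3' + x4' + x5' + 4, ?_⟩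
  intro x hx b hbΛ x1 C z hx1 hR hC1 hC2 hz
  have hx5 : (2 * R + 1) * (b.natAbs + 1) ≤ x := hx5' x (by omega) b hbΛ
  have hx4 : 4 ≤ x := by omega
  have hxpos : (0 : ℝ) < x := by exact_mod_cast (by omega : 0 < x)
  have hx1R : (1 : ℝ) < x := by exact_mod_cast (by omega : 1 < x)
  have hlog : 0 < Real.log x := Real.log_pos hx1R
  have hlog2 : 0 < Real.log x ^ 2 := by positivity
  have hR0 : 0 < R := by
    rcases Nat.eq_zero_or_pos R with h | h
    · subst h; omega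
    · exact h
  have hb1 : 2 * b.natAbs + 1 ≤ x1 := by
    have h0 : R * (2 * b.natAbs + 1) ≤ (2 * R + 1) * (b.natAbs + 1) := by
      calc R * (2 * b.natAbs + 1) ≤ R * (2 * b.natAbs + 1) + (R + b.natAbs + 1) :=
            Nat.le_add_right _ _
        _ = (2 * R + 1) * (b.natAbs + 1) := by ring
    have : R * (2 * b.natAbs + 1) ≤ R * x1 := by omega
    exact Nat.le_of_mul_le_mul_left this hR0
  have hb : b.natAbs ≤ x1 := by omega
  have hbx : b.natAbs ≤ x := by omega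
  have hzR : (0 : ℝ) < z := lt_of_lt_of_le (Real.rpow_pos_of_pos hxpos _) hz
  have hz1 : 1 ≤ z := by exact_mod_cast hzR
  have hCR : (0 : ℝ) < C := lt_of_lt_of_le (Real.rpow_pos_of_pos hxpos _) hC1
  set Y : ℕ := Nat.sqrt x with hY
  have hY1 : 1 ≤ Y := by
    rw [hY, Nat.le_sqrt]
    omega
  have hYx : (Y : ℝ) ≤ (x : ℝ) ^ (1 / 2 : ℝ) := by
    rw [← Real.sqrt_eq_rpow]
    exact Real.nat_sqrt_le_real_sqrt
  have hYx2 : (x : ℝ) ^ (1 / 2 : ℝ) ≤ 2 * Y := by
    rw [← Real.sqrt_eq_rpow]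
    have h1 := Real.real_sqrt_lt_nat_sqrt_succ (a := x)
    have h2 : (1 : ℝ) ≤ Y := by exact_mod_cast hY1
    linarith
  set M : ℕ := A * x ^ 2 with hM
  have hR1 : (1 : ℝ) ≤ R := by exact_mod_cast hR0
  have hA1 : (1 : ℝ) ≤ A := by
    have : 1 ≤ A := by omega
    exact_mod_cast this
  have e1 : 3 * Real.log x ^ 2 ≤ z := (hx1' x (by omega)).trans hz
  have e2 : 3 * Real.log x ^ 2 ≤ (x : ℝ) ^ (1 / 10 : ℝ) := hx2' x (by omega)
  have e3 : 6 * R * A * Real.log x ^ 2 ≤ (x : ℝ) ^ (1 / 10 : ℝ) := hx3' x (by omega)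
  have e4 : R * A * Real.log x ^ 2 ≤ z := (hx4' x (by omega)).trans hz
  have hp1 : (x : ℝ) ^ (1 / 2 : ℝ) * (x : ℝ) ^ (1 / 10 : ℝ) = (x : ℝ) ^ (3 / 5 : ℝ) := by
    rw [← Real.rpow_add hxpos]
    norm_num
  have hp2 : (x : ℝ) ^ (1 / 2 : ℝ) * (x : ℝ) ^ (1 / 2 : ℝ) = x := by
    rw [← Real.rpow_add hxpos]
    norm_num
  have hs0 : (0 : ℝ) < (x : ℝ) ^ (1 / 2 : ℝ) := Real.rpow_pos_of_pos hxpos _
  refine ⟨?_, ?_⟩
  · -- the values of the polynomials
    have hterm : ∀ c ∈ Icc 1 C, ∀ n ∈ Ioc x1 x, sqd z (fv a b (c : ℕ) n).toNat ≤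
        (if ∃ d ∈ Ioc z Y, d ^ 2 ∣ Fn a b n + c then (1 : ℝ) else 0) +
        (if ∃ d, Y < d ∧ d ^ 2 ∣ (fv a b (c : ℕ) n).toNat then (1 : ℝ) else 0) := by
      intro c hc n hn
      rw [mem_Icc] at hc
      rw [mem_Ioc] at hn
      have hval : (fv a b (c : ℕ) n).toNat = Fn a b n + c := by
        have h1 := fv_pos a ha b hb 0 n hn.1
        unfold Fn
        have h2 : fv a b (c : ℕ) n = fv a b 0 n + c := by unfold fv; ring
        rw [h2]
        push_cast at h1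
        omega
      refine (sqd_le ((∃ d ∈ Ioc z Y, d ^ 2 ∣ Fn a b n + c) ∨
        ∃ d, Y < d ∧ d ^ 2 ∣ (fv a b (c : ℕ) n).toNat) ?_).trans ?_
      · rintro ⟨d, hd, hdv⟩
        rcases le_or_gt d Y with h | h
        · left
          exact ⟨d, mem_Ioc.2 ⟨hd, h⟩, by rw [← hval]; exact hdv⟩
        · right
          exact ⟨d, h, hdv⟩
      · by_cases h1 : ∃ d ∈ Ioc z Y, d ^ 2 ∣ Fn a b n + c
        · rw [if_pos (Or.inl h1), if_pos h1]
          split_ifs <;> norm_num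
        · by_cases h2 : ∃ d, Y < d ∧ d ^ 2 ∣ (fv a b (c : ℕ) n).toNat
          · rw [if_pos (Or.inr h2), if_neg h1, if_pos h2]
            norm_num
          · rw [if_neg (by rintro (h | h); exact h1 h; exact h2 h), if_neg h1, if_neg h2]
            norm_num
    have hsum1 : ∑ c ∈ Icc 1 C, ∑ n ∈ Ioc x1 x,
        (if ∃ d ∈ Ioc z Y, d ^ 2 ∣ Fn a b n + c then (1 : ℝ) else 0) ≤ x * (C / z + Y) := by
      rw [sum_comm]
      have h1 : ∀ n ∈ Ioc x1 x, ∑ c ∈ Icc 1 C,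
          (if ∃ d ∈ Ioc z Y, d ^ 2 ∣ Fn a b n + c then (1 : ℝ) else 0) ≤ C / z + Y := by
        intro n _
        rw [← sum_filter, sum_const, nsmul_eq_mul, mul_one]
        exact sq_count (Fn a b n) C z Y hz1
      refine (sum_le_card_nsmul _ _ _ h1).trans ?_
      rw [nsmul_eq_mul, Nat.card_Ioc]
      refine mul_le_mul_of_nonneg_right ?_ (by positivity)
      exact_mod_cast Nat.sub_le _ _
    have hsum2 : ∑ c ∈ Icc 1 C, ∑ n ∈ Ioc x1 x,
        (if ∃ d, Y < d ∧ d ^ 2 ∣ (fv a b (c : ℕ) n).toNat then (1 : ℝ) else 0) ≤ R * (M / Y) := by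
      rw [← Finset.sum_product' (f := fun (c n : ℕ) =>
        (if ∃ d, Y < d ∧ d ^ 2 ∣ (fv a b (c : ℕ) n).toNat then (1 : ℝ) else 0)), ← sum_filter,
        sum_const, nsmul_eq_mul, mul_one]
      have h1 := X7Uaux.pairs_leU a ha b hb hR hC2 (by omega) hbx hM (fun N => ∃ d, Y < d ∧ d ^ 2 ∣ N)
      have h2 : (#((Icc 1 C ×ˢ Ioc x1 x).filter
          (fun q => ∃ d, Y < d ∧ d ^ 2 ∣ (fv a b (q.1 : ℕ) q.2).toNat)) : ℝ) ≤
          R * #((Icc 1 M).filter (fun N => ∃ d, Y < d ∧ d ^ 2 ∣ N)) := by exact_mod_cast h1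
      exact h2.trans (mul_le_mul_of_nonneg_left (big_count M Y hY1) (Nat.cast_nonneg _))
    have htot : ∑ c ∈ Icc 1 C, Lc a b x1 x c (sqd z) ≤ x * (C / z + Y) + R * (M / Y) := by
      unfold Lc
      calc ∑ c ∈ Icc 1 C, ∑ n ∈ Ioc x1 x, sqd z (fv a b (c : ℕ) n).toNat
          ≤ ∑ c ∈ Icc 1 C, ∑ n ∈ Ioc x1 x,
            ((if ∃ d ∈ Ioc z Y, d ^ 2 ∣ Fn a b n + c then (1 : ℝ) else 0) +
            (if ∃ d, Y < d ∧ d ^ 2 ∣ (fv a b (c : ℕ) n).toNat then (1 : ℝ) else 0)) :=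
            sum_le_sum fun c hc => sum_le_sum fun n hn => hterm c hc n hn
        _ ≤ _ := by
            simp only [sum_add_distrib]
            exact add_le_add hsum1 hsum2
    refine htot.trans ?_
    rw [le_div_iff₀ hlog2]
    -- the three terms
    have t1 : x * (C / z) * Real.log x ^ 2 ≤ 1 / 3 * (C * x) := by
      have h1 : x * ((C : ℝ) / z) * Real.log x ^ 2 = (C * x) * (Real.log x ^ 2 / z) := by ring
      rw [h1, mul_comm (1 / 3 : ℝ)]
      refine mul_le_mul_of_nonneg_left ?_ (by positivity)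
      rw [div_le_iff₀ hzR]
      linarith
    have t2 : x * (Y : ℝ) * Real.log x ^ 2 ≤ 1 / 3 * (C * x) := by
      have h1 : (Y : ℝ) * (3 * Real.log x ^ 2) ≤ C := by
        calc (Y : ℝ) * (3 * Real.log x ^ 2) ≤ (x : ℝ) ^ (1 / 2 : ℝ) * (x : ℝ) ^ (1 / 10 : ℝ) :=
              mul_le_mul hYx e2 (by positivity) hs0.le
          _ = (x : ℝ) ^ (3 / 5 : ℝ) := hp1
          _ ≤ C := hC1
      nlinarith
    have t3 : R * ((M : ℝ) / Y) * Real.log x ^ 2 ≤ 1 / 3 * (C * x) := by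
      have hYR : (0 : ℝ) < Y := by exact_mod_cast hY1
      have h0 : (M : ℝ) / Y ≤ 2 * A * x * (x : ℝ) ^ (1 / 2 : ℝ) := by
        rw [div_le_iff₀ hYR, hM]
        push_cast
        have h1 : (x : ℝ) ≤ (x : ℝ) ^ (1 / 2 : ℝ) * (2 * Y) := by
          calc (x : ℝ) = (x : ℝ) ^ (1 / 2 : ℝ) * (x : ℝ) ^ (1 / 2 : ℝ) := hp2.symm
            _ ≤ _ := mul_le_mul_of_nonneg_left hYx2 hs0.le
        have h2 : (0 : ℝ) ≤ A * x := by positivity
        calc (A : ℝ) * (x : ℝ) ^ 2 = A * x * x := by ring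
          _ ≤ A * x * ((x : ℝ) ^ (1 / 2 : ℝ) * (2 * Y)) := mul_le_mul_of_nonneg_left h1 h2
          _ = _ := by ring
      have h1 : (x : ℝ) ^ (1 / 2 : ℝ) * (6 * R * A * Real.log x ^ 2) ≤ C := by
        calc (x : ℝ) ^ (1 / 2 : ℝ) * (6 * R * A * Real.log x ^ 2) ≤
              (x : ℝ) ^ (1 / 2 : ℝ) * (x : ℝ) ^ (1 / 10 : ℝ) :=
              mul_le_mul_of_nonneg_left e3 hs0.le
          _ = (x : ℝ) ^ (3 / 5 : ℝ) := hp1
          _ ≤ C := hC1
      calc R * ((M : ℝ) / Y) * Real.log x ^ 2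
          ≤ R * (2 * A * x * (x : ℝ) ^ (1 / 2 : ℝ)) * Real.log x ^ 2 := by gcongr
        _ = 1 / 3 * x * ((x : ℝ) ^ (1 / 2 : ℝ) * (6 * R * A * Real.log x ^ 2)) := by ring
        _ ≤ 1 / 3 * x * C := mul_le_mul_of_nonneg_left h1 (by positivity)
        _ = _ := by ring
    have e5 : (x * ((C : ℝ) / z + Y) + R * ((M : ℝ) / Y)) * Real.log x ^ 2 =
        x * (C / z) * Real.log x ^ 2 + x * (Y : ℝ) * Real.log x ^ 2 +
          R * ((M : ℝ) / Y) * Real.log x ^ 2 := by ring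
    rw [e5]
    linarith
  · -- all the integers
    have hx1pos : (0 : ℝ) < x1 := by exact_mod_cast (by omega : 0 < x1)
    have hF1 : x1 ^ 2 ≤ 2 * Fn a b x1 := by
      have h1 : (x1 : ℤ) ^ 2 ≤ 2 * fv a b 0 x1 := by
        unfold fv
        have h2 : (2 : ℤ) * b.natAbs + 1 ≤ x1 := by exact_mod_cast hb1
        have h3 : -(b.natAbs : ℤ) ≤ b := by omega
        have h4 : (0 : ℤ) ≤ x1 := by positivity
        have h5 : (x1 : ℤ) ^ 2 ≤ a * (x1 : ℤ) ^ 2 := by nlinarith [sq_nonneg (x1 : ℤ)]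
        nlinarith
      have h2 : (0 : ℤ) ≤ fv a b 0 x1 := by nlinarith [sq_nonneg (x1 : ℤ)]
      unfold Fn
      have h3 : ((x1 ^ 2 : ℕ) : ℤ) ≤ ((2 * (fv a b 0 x1).toNat : ℕ) : ℤ) := by
        push_cast
        rw [Int.toNat_of_nonneg h2]
        exact h1
      exact_mod_cast h3
    have hF2 : Fn a b x ≤ M := by
      have h1 := X7Uaux.fv_leU a ha b (by omega : 1 ≤ x) hbx 0 x (by omega) le_rfl
      unfold Fn
      rw [Int.toNat_le, hM, hA]
      exact h1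
    have hhw : ∀ N ∈ Ioc (Fn a b x1) (Fn a b x), hw a N ≤ R / x := by
      intro N hN
      rw [mem_Ioc] at hN
      unfold hw
      have h1 : (x1 : ℝ) ^ 2 / 2 ≤ a * N := by
        have h2 : x1 ^ 2 ≤ 2 * N := hF1.trans (Nat.mul_le_mul_left 2 hN.1.le)
        have h3 : (x1 : ℝ) ^ 2 ≤ 2 * N := by exact_mod_cast h2
        have h4 : (1 : ℝ) ≤ a := by exact_mod_cast ha
        have h5 : (0 : ℝ) ≤ N := Nat.cast_nonneg _
        have h6 : 1 * (N : ℝ) ≤ a * N := mul_le_mul_of_nonneg_right h4 h5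
        linarith
      have h2 : (x1 : ℝ) / 2 ≤ √((a : ℝ) * N) := by
        apply Real.le_sqrt_of_sq_le
        refine le_trans ?_ h1
        have h7 := sq_nonneg (x1 : ℝ)
        rw [div_pow]
        linarith
      have h3 : (x : ℝ) ≤ R * x1 := by exact_mod_cast hR
      have h4 : (0 : ℝ) < 2 * √((a : ℝ) * N) := by linarith
      rw [div_le_div_iff₀ h4 hxpos]
      calc 1 * (x : ℝ) ≤ R * x1 := by linarith
        _ ≤ R * (2 * √((a : ℝ) * N)) := by
            refine mul_le_mul_of_nonneg_left ?_ (Nat.cast_nonneg _)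
            linarith
    have hLs : Ls a b x1 x (sqd z) ≤ (M / z) * (R / x) := by
      unfold Ls
      calc ∑ N ∈ Ioc (Fn a b x1) (Fn a b x), sqd z N * hw a N
          ≤ ∑ N ∈ Ioc (Fn a b x1) (Fn a b x), (if ∃ d, z < d ∧ d ^ 2 ∣ N then (1 : ℝ) else 0) *
            (R / x) := by
            refine sum_le_sum fun N hN => ?_
            refine mul_le_mul (sqd_le _ id) (hhw N hN) ?_ ?_
            · unfold hw
              positivity
            · split_ifs <;> norm_num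
        _ = (#((Ioc (Fn a b x1) (Fn a b x)).filter (fun N => ∃ d, z < d ∧ d ^ 2 ∣ N)) : ℝ) *
            (R / x) := by
            rw [← sum_mul, ← sum_filter, sum_const, nsmul_eq_mul, mul_one]
        _ ≤ (#((Icc 1 M).filter (fun N => ∃ d, z < d ∧ d ^ 2 ∣ N)) : ℝ) * (R / x) := by
            refine mul_le_mul_of_nonneg_right ?_ (by positivity)
            have : (Ioc (Fn a b x1) (Fn a b x)).filter (fun N => ∃ d, z < d ∧ d ^ 2 ∣ N) ⊆
                (Icc 1 M).filter (fun N => ∃ d, z < d ∧ d ^ 2 ∣ N) := by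
              refine filter_subset_filter _ fun N hN => ?_
              rw [mem_Ioc] at hN
              rw [mem_Icc]
              omega
            exact_mod_cast card_le_card this
        _ ≤ (M / z) * (R / x) :=
            mul_le_mul_of_nonneg_right (big_count M z hz1) (by positivity)
    refine hLs.trans ?_
    rw [le_div_iff₀ hlog2, hM]
    push_cast
    have h1 : (A : ℝ) * (x : ℝ) ^ 2 / z * (R / x) * Real.log x ^ 2 =
        x * (R * A * Real.log x ^ 2 / z) := by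
      field_simp
    rw [h1]
    have h2 : R * A * Real.log x ^ 2 / z ≤ 1 := by
      rw [div_le_one hzR]
      exact e4
    calc x * (R * A * Real.log x ^ 2 / z) ≤ x * 1 := mul_le_mul_of_nonneg_left h2 hxpos.le
      _ = x := mul_one _

end Pool.Agent.N791.U
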