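import Pool.Agent.N792.Ty1b
import Pool.Agent.N792.RX8a
import Pool.Agent.N791.U.Base

/-!
X9U: the lower bound and the first moment of the truncated singular series, uniformly in the linear coefficient `b`
(helper855, after helper221, helper670, helper792).
-/

set_option autoImplicit false

namespace Pool.Agent.N791.U

open Finset Filter Topology Pool.Agent.N792

open RX8a in
theorem sing_pos_halfU (a : ℤ) (ha : 0 < a) (η : ℝ) (hη : 0 < η) (E : ℕ) :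
    ∃ θ : ℝ, 0 < θ ∧ ∃ x0 : ℕ, ∀ x : ℕ, x0 ≤ x → ∀ b : ℤ,
    ∀ C : ℕ, (x : ℝ) ^ (1 / 2 : ℝ) ≤ C → C ≤ x → ∀ w : ℕ, (w : ℝ) ≤ Real.log x ^ E →
    ∃ Ex ⊆ Icc 1 C, (#Ex : ℝ) ≤ η * C ∧ ∀ c ∈ Icc 1 C, c ∉ Ex → Admissible a b c →
      θ ≤ Vc a b c w / V1 w := by
  obtain ⟨w0, hw0⟩ := exists_nat_gt (max (2 * (a : ℝ)) (4 / η))
  have hw1 : 2 * a < w0 := by
    have := (le_max_left _ _).trans_lt hw0
    exact_mod_cast this
  have hw2 : 4 / η < w0 := (le_max_right _ _).trans_lt hw0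
  have hw3 : 2 ≤ w0 := by omega
  have hw4 : (0 : ℝ) < w0 := by
    have : 0 < w0 := by omega
    exact_mod_cast this
  obtain ⟨x0, hx0⟩ := log_pow_le_half (2 * E) (η / 10) (by positivity)
  refine ⟨Real.exp (-2) / 4 ^ w0, by positivity, x0, fun x hx b C hC1 hC2 w hw => ?_⟩
  refine ⟨(Icc 1 C).filter fun c => 1 < |SS a b c w0 w|, filter_subset _ _, ?_, ?_⟩
  · have h1 := card_large a ha b w0 w C hw1 1 one_pos
    rw [one_pow, mul_one] at h1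
    have h2 : 2 * (C : ℝ) / w0 ≤ η / 2 * C := by
      rw [div_le_iff₀ hw4]
      have : 4 ≤ η * w0 := by
        rw [div_lt_iff₀ hη] at hw2; linarith
      nlinarith [(Nat.cast_nonneg C : (0 : ℝ) ≤ C)]
    have h3 : (w : ℝ) ^ 2 ≤ η / 10 * C := by
      calc (w : ℝ) ^ 2 ≤ (Real.log x ^ E) ^ 2 := pow_le_pow_left₀ (Nat.cast_nonneg _) hw 2
        _ = Real.log x ^ (2 * E) := by rw [← pow_mul, mul_comm]
        _ ≤ η / 10 * (x : ℝ) ^ (1 / 2 : ℝ) := hx0 x hx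
        _ ≤ η / 10 * C := mul_le_mul_of_nonneg_left hC1 (by positivity)
    linarith
  · intro c hc hcE hadm
    have h1 : |SS a b c w0 w| ≤ 1 := by
      by_contra h
      exact hcE (mem_filter.mpr ⟨hc, not_le.mp h⟩)
    have he : Real.exp (-2) ≤ 1 := Real.exp_le_one_iff.mpr (by norm_num)
    rcases le_total w w0 with h | h
    · rw [le_div_iff₀ (RX8a.V1_pos w)]
      have h2 := Vc_ge a b c hadm w w0 h
      have h3 : Real.exp (-2) / 4 ^ w0 * V1 w ≤ 1 / 4 ^ w0 := by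
        calc Real.exp (-2) / 4 ^ w0 * V1 w ≤ Real.exp (-2) / 4 ^ w0 * 1 :=
              mul_le_mul_of_nonneg_left (V1_le_one w) (by positivity)
          _ ≤ 1 / 4 ^ w0 := by rw [mul_one]; gcongr
      linarith
    · have h2 := Vc_split a ha b c w0 w hw1 h
      have h3 : Vc a b c w / V1 w = Vc a b c w0 / V1 w0 * PP a b c w0 w := by
        have := (RX8a.V1_pos w).ne'
        have := (RX8a.V1_pos w0).ne'
        field_simp
        linarith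
      rw [h3]
      have h4 := Vc_ge a b c hadm w0 w0 le_rfl
      have h5 : 1 / (4 : ℝ) ^ w0 ≤ Vc a b c w0 / V1 w0 := by
        rw [le_div_iff₀ (RX8a.V1_pos w0)]
        have : 1 / (4 : ℝ) ^ w0 * V1 w0 ≤ 1 / (4 : ℝ) ^ w0 * 1 :=
          mul_le_mul_of_nonneg_left (V1_le_one w0) (by positivity)
        linarith
      have h6 : Real.exp (-2) ≤ PP a b c w0 w := by
        refine le_trans (Real.exp_le_exp.mpr ?_) (PP_ge a b c w0 w hw3)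
        have h7 := (abs_le.mp h1).2
        have h8 : (2 : ℝ) / w0 ≤ 1 := by
          rw [div_le_one hw4]; exact_mod_cast hw3
        linarith
      calc Real.exp (-2) / 4 ^ w0 = 1 / 4 ^ w0 * Real.exp (-2) := by ring
        _ ≤ Vc a b c w0 / V1 w0 * PP a b c w0 w :=
          mul_le_mul h5 h6 (Real.exp_pos _).le (le_trans (by positivity) h5)


/-- **the mean value of `V_c(w) / V(w)`** -/
theorem vc_mean_halfU (a : ℤ) (ha : 0 < a) (Λ : ℝ) (hΛ : 1 ≤ Λ) (E : ℕ) : ∃ x0 : ℕ, ∀ x : ℕ, x0 ≤ x →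
    ∀ b : ℤ, (b : ℝ) ^ 2 ≤ Λ * x → ∀ C Jw : ℕ,
    (x : ℝ) ^ (1 / 2 : ℝ) ≤ C → C ≤ x → ((2 ^ 2 ^ Jw : ℕ) : ℝ) ≤ Real.log x ^ E →
    ∑ c ∈ Icc 1 C, Vc a b (c : ℕ) (2 ^ 2 ^ Jw) / V1 (2 ^ 2 ^ Jw) ≤ 10 * C := by
  classical
  obtain ⟨C1, hC1, H1⟩ := fl_polyU a ha
  obtain ⟨C2, hC2, H2⟩ := fl_lin
  obtain ⟨x1, hx1⟩ := Mtm.err_small C1 E 1 (show (0 : ℝ) < 1 / 10 by norm_num)
  obtain ⟨x2, hx2⟩ := Mtm.err_small C2 E 1 (show (0 : ℝ) < 1 / 10 by norm_num)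
  obtain ⟨x3, hx3⟩ := eventually_atTop.1 (Shp.inv_V1_le E)
  obtain ⟨x4, hx4⟩ := eventually_atTop.1 (ev_bn Λ hΛ 10)
  refine ⟨x1 + x2 + x3 + x4 + 10, fun x hx b hb C Jw hxC hCx hw => ?_⟩
  have hbx10 := hx4 x (by omega) b hb
  obtain ⟨w, hwd⟩ : ∃ w : ℕ, w = 2 ^ 2 ^ Jw := ⟨_, rfl⟩
  have hV := hx3 x (by omega) _ hw
  obtain ⟨b1, hb1⟩ : ∃ b1 : ℕ, b1 = C1 + Nat.clog 2 ⌈Real.log x ^ 1⌉₊ := ⟨_, rfl⟩
  obtain ⟨b2, hb2⟩ : ∃ b2 : ℕ, b2 = C2 + Nat.clog 2 ⌈Real.log x ^ 1⌉₊ := ⟨_, rfl⟩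
  obtain ⟨e1, -⟩ := hx1 x (by omega) Jw b1 hw hb1
  obtain ⟨e2, -⟩ := hx2 x (by omega) Jw b2 hw hb2
  obtain ⟨E1, hE1⟩ : ∃ E1 : ℝ, E1 = C1 * (Jw + 2) * (2 ^ 2 ^ Jw) ^ (C1 * b1) := ⟨_, rfl⟩
  obtain ⟨E2, hE2⟩ : ∃ E2 : ℝ, E2 = C2 * (Jw + 2) * (2 ^ 2 ^ Jw) ^ (C2 * b2) := ⟨_, rfl⟩
  rw [← hE1, pow_one] at e1
  rw [← hE2, pow_one] at e2
  have hxR : (10 : ℝ) ≤ x := by exact_mod_cast (by omega : 10 ≤ x)
  have hx0 : (0 : ℝ) < x := by linarith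
  have hL : 0 < Real.log x := Real.log_pos (by linarith)
  have hVp : 0 < V1 w := V1_pos w
  have hV1 : 1 ≤ V1 w * Real.log x := by
    rw [← hwd, div_le_iff₀ hVp] at hV
    linarith
  have hE1n : 0 ≤ E1 := by rw [hE1]; positivity
  have hE2n : 0 ≤ E2 := by rw [hE2]; positivity
  -- E1, E2 ≤ x^(1/10) V1 w
  have hx10 : (0 : ℝ) < (x : ℝ) ^ (1 / 10 : ℝ) := Real.rpow_pos_of_pos hx0 _
  have q1 : E1 ≤ (x : ℝ) ^ (1 / 10 : ℝ) * V1 w := by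
    calc E1 = E1 * 1 := (mul_one _).symm
      _ ≤ E1 * (V1 w * Real.log x) := by gcongr
      _ = (E1 * Real.log x) * V1 w := by ring
      _ ≤ _ := by gcongr
  have q2 : E2 ≤ (x : ℝ) ^ (1 / 10 : ℝ) * V1 w := by
    calc E2 = E2 * 1 := (mul_one _).symm
      _ ≤ E2 * (V1 w * Real.log x) := by gcongr
      _ = (E2 * Real.log x) * V1 w := by ring
      _ ≤ _ := by gcongr
  have q3 : (x : ℝ) ^ (1 / 10 : ℝ) ≤ C := by
    refine le_trans ?_ hxC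
    exact Real.rpow_le_rpow_of_exponent_le (by linarith) (by norm_num)
  have q4 : (x : ℝ) ^ (1 / 10 : ℝ) ≤ x := by
    calc (x : ℝ) ^ (1 / 10 : ℝ) ≤ (x : ℝ) ^ (1 : ℝ) :=
          Real.rpow_le_rpow_of_exponent_le (by linarith) (by norm_num)
      _ = x := Real.rpow_one _
  have hC0 : (0 : ℝ) < C := lt_of_lt_of_le hx10 q3
  have hbx : (b.natAbs : ℝ) ≤ x / 10 := by
    rw [le_div_iff₀ (by norm_num)]
    exact_mod_cast (by omega : b.natAbs * 10 ≤ x)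
  -- each c
  have k1 : ∀ c ∈ Icc 1 C, ((x : ℝ) - b.natAbs) * Vc a b (c : ℕ) w ≤
      2 * (#((Ioc b.natAbs x).filter (fun n : ℕ => Rough w (fv a b (c : ℕ) n).natAbs)) : ℝ) + 2 * E1 := by
    intro c _
    have h := H1 b b1 (by omega) Jw 1 b.natAbs x (c : ℕ) le_rfl
      ⟨one_ne_zero, fun p hp hp1 => absurd (Nat.dvd_one.1 hp1) hp.one_lt.ne'⟩ (by omega)
    rw [rho_one_eq, Nat.cast_one, Nat.cast_one, div_one, one_mul, one_mul, ← hE1, ← hwd] at h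
    have h1 : ((Ioc b.natAbs x).filter (fun n : ℕ => ((1 : ℕ) : ℤ) ∣ fv a b (c : ℕ) n ∧ Rough w (fv a b (c : ℕ) n).natAbs)) =
        (Ioc b.natAbs x).filter (fun n : ℕ => Rough w (fv a b (c : ℕ) n).natAbs) := by
      refine filter_congr fun n _ => ?_
      simp
    rw [Nat.cast_one] at h1
    simp only [Nat.cast_one, one_dvd, true_and] at h h1
    have h2 : (1 / 2 : ℝ) ^ b1 ≤ 1 / 2 := by
      calc (1 / 2 : ℝ) ^ b1 ≤ (1 / 2 : ℝ) ^ 1 := pow_le_pow_of_le_one (by norm_num) (by norm_num) (by omega)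
        _ = 1 / 2 := pow_one _
    have h3 : 0 ≤ ((x : ℝ) - b.natAbs) * Vc a b (c : ℕ) w := by
      apply mul_nonneg (by linarith)
      exact (Mtm.Vc_bd a b (c : ℕ) w).1
    have h4 := (abs_le.1 h).1
    have h5 : (1 / 2 : ℝ) ^ b1 * (((x : ℝ) - b.natAbs) * Vc a b (c : ℕ) w) ≤
        1 / 2 * (((x : ℝ) - b.natAbs) * Vc a b (c : ℕ) w) := by gcongr
    linarith
  have k2 : ∀ n ∈ Ioc b.natAbs x, (#((Ioc (Fn a b n) (Fn a b n + C)).filter (fun k => Rough w k)) : ℝ) ≤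
      3 / 2 * (C * V1 w) + E2 := by
    intro n _
    have h := H2 b2 (by omega) Jw 1 0 (Fn a b n) (Fn a b n + C) le_rfl (by simp) (by omega)
    rw [Nat.cast_one, div_one, V1q_one, ← hE2, ← hwd] at h
    have h1 : ((Ioc (Fn a b n) (Fn a b n + C)).filter (fun k => k ≡ 0 [MOD 1] ∧ Rough w k)) =
        (Ioc (Fn a b n) (Fn a b n + C)).filter (fun k => Rough w k) := by
      refine filter_congr fun k _ => ?_
      simp [Nat.modEq_one]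
    rw [h1] at h
    push_cast at h
    have h2 : (1 / 2 : ℝ) ^ b2 ≤ 1 / 2 := by
      calc (1 / 2 : ℝ) ^ b2 ≤ (1 / 2 : ℝ) ^ 1 := pow_le_pow_of_le_one (by norm_num) (by norm_num) (by omega)
        _ = 1 / 2 := pow_one _
    rw [show ((Fn a b n : ℝ) + C - Fn a b n) = C by ring] at h
    have h3 := (abs_le.1 h).2
    have h4 : (1 / 2 : ℝ) ^ b2 * ((C : ℝ) * V1 w) ≤ 1 / 2 * ((C : ℝ) * V1 w) := by gcongr
    linarith
  have k3 : ((x : ℝ) - b.natAbs) * ∑ c ∈ Icc 1 C, Vc a b (c : ℕ) w ≤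
      2 * (x * (3 / 2 * (C * V1 w) + E2)) + 2 * (C * E1) := by
    rw [mul_sum]
    refine (sum_le_sum k1).trans ?_
    rw [sum_add_distrib, ← mul_sum, rough_swap ha, sum_const, Nat.card_Icc, nsmul_eq_mul]
    have h1 : ∑ n ∈ Ioc b.natAbs x, (#((Ioc (Fn a b n) (Fn a b n + C)).filter (fun k => Rough w k)) : ℝ) ≤
        x * (3 / 2 * (C * V1 w) + E2) := by
      refine (sum_le_card_nsmul _ _ _ k2).trans ?_
      rw [nsmul_eq_mul, Nat.card_Ioc]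
      have : ((x - b.natAbs : ℕ) : ℝ) ≤ x := by exact_mod_cast Nat.sub_le _ _
      gcongr
    have h2 : ((C + 1 - 1 : ℕ) : ℝ) = C := by norm_num
    rw [h2]
    linarith
  rw [← hwd, ← sum_div, div_le_iff₀ hVp]
  have k4 : 0 ≤ ∑ c ∈ Icc 1 C, Vc a b (c : ℕ) w := sum_nonneg fun c _ => (Mtm.Vc_bd a b (c : ℕ) w).1
  have k5 : (9 / 10 * (x : ℝ)) * ∑ c ∈ Icc 1 C, Vc a b (c : ℕ) w ≤ x * (7 * (C * V1 w)) := by
    have h1 : (9 / 10 * (x : ℝ)) * ∑ c ∈ Icc 1 C, Vc a b (c : ℕ) w ≤ ((x : ℝ) - b.natAbs) * ∑ c ∈ Icc 1 C, Vc a b (c : ℕ) w := by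
      apply mul_le_mul_of_nonneg_right _ k4
      linarith
    have h2 : E2 ≤ C * V1 w := q2.trans (by gcongr)
    have h3 : (C : ℝ) * E1 ≤ x * (C * V1 w) := by
      calc (C : ℝ) * E1 ≤ C * ((x : ℝ) ^ (1 / 10 : ℝ) * V1 w) := by gcongr
        _ ≤ C * (x * V1 w) := by gcongr
        _ = _ := by ring
    have h4 : (x : ℝ) * E2 ≤ x * (C * V1 w) := by gcongr
    linarith
  have k6 : (9 / 10 : ℝ) * ∑ c ∈ Icc 1 C, Vc a b (c : ℕ) w ≤ 7 * (C * V1 w) := by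
    refine le_of_mul_le_mul_left (le_trans (le_of_eq ?_) k5) hx0
    ring
  have k7 : 0 ≤ (C : ℝ) * V1 w := by positivity
  linarith

theorem t_X9U : S_X9U := by
  intro a ha Λ hΛ
  unfold X9U
  classical
  intro η hη E
  obtain ⟨θ, hθ, x1, h1⟩ := sing_pos_halfU a ha (η / 2) (by positivity) E
  obtain ⟨x2, h2⟩ := vc_mean_halfU a ha Λ hΛ E
  refine ⟨min θ (η / 20), lt_min hθ (by positivity), max x1 x2, fun x hx b hb C hC hCx Jw hw => ?_⟩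
  obtain ⟨Ex, hEs, hEc, hE⟩ := h1 x ((le_max_left _ _).trans hx) b C hC hCx _ hw
  have hm := h2 x ((le_max_right _ _).trans hx) b hb C Jw hC hCx hw
  obtain ⟨τ, hτ⟩ : ∃ τ : ℝ, τ = min θ (η / 20) := ⟨_, rfl⟩
  rw [← hτ]
  have hτ0 : 0 < τ := by rw [hτ]; exact lt_min hθ (by positivity)
  have hτη : τ ≤ η / 20 := by rw [hτ]; exact min_le_right _ _
  have hτθ : τ ≤ θ := by rw [hτ]; exact min_le_left _ _
  obtain ⟨f, hf⟩ : ∃ f : ℕ → ℝ, f = fun c => Vc a b (c : ℕ) (2 ^ 2 ^ Jw) / V1 (2 ^ 2 ^ Jw) := ⟨_, rfl⟩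
  have hfc : ∀ c : ℕ, Vc a b (c : ℕ) (2 ^ 2 ^ Jw) / V1 (2 ^ 2 ^ Jw) = f c := fun c => by rw [hf]
  have hf0 : ∀ c, 0 ≤ f c := fun c => by
    rw [← hfc]
    exact div_nonneg (Mtm.Vc_bd a b (c : ℕ) _).1 (V1_pos _).le
  simp only [hfc] at hm hE ⊢
  refine ⟨Ex ∪ (Icc 1 C).filter (fun c => 1 / τ < f c), union_subset hEs (filter_subset _ _), ?_, ?_⟩
  · have k1 : (#((Icc 1 C).filter (fun c => 1 / τ < f c)) : ℝ) * (1 / τ) ≤ 10 * C := by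
      refine le_trans ?_ hm
      refine le_trans ?_ (sum_le_sum_of_subset_of_nonneg (filter_subset (fun c => 1 / τ < f c) (Icc 1 C))
        (fun c _ _ => hf0 c))
      rw [← nsmul_eq_mul]
      exact card_nsmul_le_sum _ _ _ fun c hc => (mem_filter.1 hc).2.le
    have k2 : (#((Icc 1 C).filter (fun c => 1 / τ < f c)) : ℝ) ≤ 10 * C * τ := by
      rw [mul_one_div, div_le_iff₀ hτ0] at k1
      exact k1
    have k3 : (10 : ℝ) * C * τ ≤ η / 2 * C := by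
      have : (0 : ℝ) ≤ C := Nat.cast_nonneg _
      nlinarith
    have k4 : (#(Ex ∪ (Icc 1 C).filter (fun c => 1 / τ < f c)) : ℝ) ≤ #Ex + #((Icc 1 C).filter (fun c => 1 / τ < f c)) := by
      exact_mod_cast card_union_le _ _
    linarith
  · intro c hc hcE
    rw [mem_union, not_or] at hcE
    obtain ⟨g1, g2⟩ := hcE
    refine ⟨?_, fun hadm => hτθ.trans (hE c hc g1 hadm)⟩
    by_contra h
    exact g2 (mem_filter.2 ⟨hc, not_le.1 h⟩)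

end Pool.Agent.N791.U
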