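import Mathlib
import Pool.Agent.N791.U.Fin
import Pool.Agent.N791.U.Con9U
import Pool.Agent.N791.U.E2F
import Pool.Agent.N791.U.R1U
import Pool.Agent.N791.U.Mtu
import Pool.Agent.N791.U.LSGU
import Pool.Agent.N791.U.LCGU
import Pool.Agent.N791.U.X2U
import Pool.Agent.N791.U.X4U
import Pool.Agent.N791.U.X6U
import Pool.Agent.N791.U.X7U
import Pool.Agent.N791.U.X8U
import Pool.Agent.N791.U.X9U
import Pool.Agent.N791.U.X10U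
import Pool.Agent.N791.U.LSLU
import Pool.Agent.N791.U.PAU
import Pool.Agent.N791.U.LSRU
import Pool.Agent.N791.U.S2U

/-!
The uniform theorems (helper791 and co-workers).
-/

set_option autoImplicit false

namespace Pool.Agent.N791.U

open Finset Filter Topology Pool.Agent.N792

/-- the Hardy-Littlewood formula, `C ≥ x^(5/6 + ε)`, uniformly in `b² ≤ Λ C` -/
theorem conclU (a : ℤ) (ha : 0 < a) (Λ : ℝ) (hΛ : 1 ≤ Λ) (ε0 : ℝ) (hε0 : 0 < ε0) (η : ℝ) (hη : 0 < η) :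
    ConclU a Λ (5 / 6 + ε0) η :=
  concl_of t_R1U t_MTU t_LSGU t_LCGU t_X2U t_X7U t_X8U t_X9U t_LSLU t_PAU t_LIU t_LSRU a ha Λ hΛ ε0 hε0 η hη

/-- products of two primes, `C ≥ x^(1/2 + ε)`, uniformly in `b² ≤ Λ C` -/
theorem xeUt (a : ℤ) (ha : 0 < a) (Λ : ℝ) (hΛ : 1 ≤ Λ) : XEU a Λ :=
  xeU a ha Λ hΛ q1 q4 (t_R1U a ha Λ hΛ) (r2U a ha) (t_MTU a ha Λ hΛ) x1s (t_S2U a ha Λ hΛ) (t_X8U a ha Λ hΛ)

/-- the lower bound with the factor `3/4`, `C ≥ x^(7/10 + ε)`, uniformly in `b² ≤ Λ C` -/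
theorem con9 (a : ℤ) (ha : 0 < a) (Λ : ℝ) (hΛ : 1 ≤ Λ) (ε η : ℝ) (hε : 0 < ε) (hη : 0 < η) : Concl9U a Λ ε η := by
  have r1 := t_R1U a ha Λ hΛ
  have r2 := r2U a ha
  have hLS := t_LSGU a ha Λ hΛ
  have hLC := t_LCGU a ha Λ hΛ r2
  exact concl9U a ha Λ hΛ (lam9U q1 q4 a ha Λ hΛ r1 r2 (t_MTU a ha Λ hΛ) x1s (t_X2U a ha Λ hΛ r1 r2 hLS hLC)
    (x3V a ha Λ hΛ) x5 (t_X6U a ha Λ hΛ hLS hLC) (t_X7U a ha Λ hΛ)) (t_X4U a ha Λ hΛ) (t_X8U a ha Λ hΛ)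
    (t_X9U a ha Λ hΛ) (t_LIU a ha Λ hΛ) (t_X10U t_LSLU a ha Λ hΛ) ε η hε hη

end Pool.Agent.N791.U
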