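import Mathlib
import Pool.Agent.N791.C2.Core

/-!
The deterministic part of the argument for the Liouville function, for large linear coefficients (helper791).
-/

set_option autoImplicit false

namespace Pool.Agent.N791.U

open Finset Filter Topology
open Pool.Agent.N792 (fv rho Fn Rough rg ev_log_pow rho_le_two)
open Pool.Agent.N792.XEb (card_markov)
open Pool.Agent.N791.C2

/-- two values divisible by the square of the prime `p` -/
lemma sq_twoU {a b c : ℤ} {p n1 n2 s x : ℕ} (ha : 0 < a) (hp : p.Prime) (hps : s < p) (hn : n1 < n2) (hn2 : n2 ≤ x)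
    (hb : |b| ≤ n1) (hs : 2 * a * x + |b| < (s : ℤ) * s) (h1 : ((p : ℤ)) ^ 2 ∣ fv a b c n1)
    (h2 : ((p : ℤ)) ^ 2 ∣ fv a b c n2) : (p : ℤ) ∣ b ^ 2 - 4 * a * c := by
  have hpp : Prime (p : ℤ) := Nat.prime_iff_prime_int.1 hp
  have hpz : (s : ℤ) + 1 ≤ p := by exact_mod_cast hps
  have hs0 : (0 : ℤ) ≤ s := Int.natCast_nonneg _
  have hsp : (s : ℤ) * s < (p : ℤ) ^ 2 := by nlinarith
  set u : ℤ := (n2 : ℤ) - n1 with hu
  set w : ℤ := a * ((n1 : ℤ) + n2) + b with hw
  have hnz : (n1 : ℤ) + 1 ≤ n2 := by exact_mod_cast hn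
  have hn2z : (n2 : ℤ) ≤ x := by exact_mod_cast hn2
  have hn1z : (0 : ℤ) ≤ n1 := Int.natCast_nonneg _
  have habs := neg_abs_le b
  have habs2 := le_abs_self b
  have hab0 := abs_nonneg b
  have hu0 : 0 < u := by rw [hu]; linarith
  have hw0 : 0 < w := by
    rw [hw]
    nlinarith
  have hux : u ≤ x := by rw [hu]; linarith
  have hwx : w ≤ 2 * a * x + |b| := by
    rw [hw]
    have e1 : a * ((n1 : ℤ) + n2) ≤ a * (2 * x) := mul_le_mul_of_nonneg_left (by linarith) ha.le
    linarith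
  have hx1 : (x : ℤ) ≤ 2 * a * x + |b| := by
    have : (0 : ℤ) ≤ x := Int.natCast_nonneg _
    nlinarith
  have hdvd : (p : ℤ) ^ 2 ∣ u * w := by
    have : u * w = fv a b c n2 - fv a b c n1 := by
      rw [hu, hw]; unfold fv; ring
    rw [this]
    exact dvd_sub h2 h1
  have hpu : (p : ℤ) ∣ u := by
    by_contra hcon
    have hc : IsCoprime ((p : ℤ) ^ 2) u := ((Prime.coprime_iff_not_dvd hpp).2 hcon).pow_left
    have h3 := hc.dvd_of_dvd_mul_left hdvd
    have h4 := Int.le_of_dvd hw0 h3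
    linarith
  have hpw : (p : ℤ) ∣ w := by
    by_contra hcon
    have hc : IsCoprime ((p : ℤ) ^ 2) w := ((Prime.coprime_iff_not_dvd hpp).2 hcon).pow_left
    rw [mul_comm] at hdvd
    have h3 := hc.dvd_of_dvd_mul_left hdvd
    have h4 := Int.le_of_dvd hu0 h3
    linarith
  have h5 : (p : ℤ) ∣ 2 * a * n1 + b := by
    have : 2 * a * (n1 : ℤ) + b = w - a * u := by rw [hw, hu]; ring
    rw [this]
    exact dvd_sub hpw (dvd_mul_of_dvd_right hpu _)
  have h6 : (p : ℤ) ∣ fv a b c n1 := (dvd_pow_self (p : ℤ) (by norm_num)).trans h1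
  have h7 : b ^ 2 - 4 * a * c = (2 * a * (n1 : ℤ) + b) * (2 * a * (n1 : ℤ) + b) - 4 * a * fv a b c n1 := by
    unfold fv; ring
  rw [h7]
  exact dvd_sub (dvd_mul_of_dvd_right h5 _) (dvd_mul_of_dvd_right h6 _)

/-- the number of the values divisible by the square of a prime in `(s, t]` -/
lemma sq_badU {a b c : ℤ} {x1 x s t : ℕ} (ha : 0 < a) (hb : |b| ≤ x1) (hs : 2 * a * x + |b| < (s : ℤ) * s)
    (has : a < s) (hd0 : b ^ 2 - 4 * a * c ≠ 0) (hd : |b ^ 2 - 4 * a * c| < (s : ℤ) * s)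
    (hpos : ∀ n ∈ Ioc x1 x, 0 < fv a b c n) :
    (#((Ioc x1 x).filter (fun n => ∃ p ∈ PP s t, p ^ 2 ∣ (fv a b c n).toNat)) : ℝ) ≤ t + (2 * (x : ℝ) / s + 2) := by
  classical
  have hs0 : 0 < s := by
    have : (0 : ℤ) < s := lt_trans ha has
    exact_mod_cast this
  have hs0r : (0 : ℝ) < s := by exact_mod_cast hs0
  have h1 : (Ioc x1 x).filter (fun n => ∃ p ∈ PP s t, p ^ 2 ∣ (fv a b c n).toNat) ⊆
      (PP s t).biUnion (fun p => (Ioc x1 x).filter (fun n => p ^ 2 ∣ (fv a b c n).toNat)) := by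
    intro n hn
    rw [mem_filter] at hn
    obtain ⟨hn1, p, hp, hpn⟩ := hn
    rw [mem_biUnion]
    exact ⟨p, hp, mem_filter.2 ⟨hn1, hpn⟩⟩
  have h2 : (#((Ioc x1 x).filter (fun n => ∃ p ∈ PP s t, p ^ 2 ∣ (fv a b c n).toNat)) : ℝ) ≤
      ∑ p ∈ PP s t, (#((Ioc x1 x).filter (fun n => p ^ 2 ∣ (fv a b c n).toNat)) : ℝ) := by
    have := (card_le_card h1).trans card_biUnion_le
    exact_mod_cast this
  refine h2.trans ?_
  have hz : ∀ n ∈ Ioc x1 x, ∀ p : ℕ, p ^ 2 ∣ (fv a b c n).toNat → ((p : ℤ)) ^ 2 ∣ fv a b c n := by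
    intro n hn p hpn
    have h3 := hpos n hn
    have h4 : (((fv a b c n).toNat : ℕ) : ℤ) = fv a b c n := Int.toNat_of_nonneg h3.le
    rw [← h4]
    exact_mod_cast hpn
  set D : Finset ℕ := (PP s t).filter (fun p : ℕ => (p : ℤ) ∣ b ^ 2 - 4 * a * c) with hD
  have hDcard : #D ≤ 1 := by
    rw [card_le_one]
    intro p hp q hq
    rw [hD, mem_filter, mem_PP] at hp hq
    by_contra hne
    have hc : IsCoprime (p : ℤ) (q : ℤ) := by
      rw [Nat.isCoprime_iff_coprime]
      exact (Nat.coprime_primes hp.1.2 hq.1.2).2 hne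
    have h3 : (p : ℤ) * q ∣ b ^ 2 - 4 * a * c := hc.mul_dvd hp.2 hq.2
    have h4 : (p : ℤ) * q ∣ |b ^ 2 - 4 * a * c| := (dvd_abs _ _).2 h3
    have h5 := Int.le_of_dvd (abs_pos.2 hd0) h4
    have h6 : (s : ℤ) < p := by exact_mod_cast hp.1.1.1
    have h7 : (s : ℤ) < q := by exact_mod_cast hq.1.1.1
    have h8 : (0 : ℤ) ≤ s := Int.natCast_nonneg _
    nlinarith
  have h3 : ∀ p ∈ PP s t, (#((Ioc x1 x).filter (fun n => p ^ 2 ∣ (fv a b c n).toNat)) : ℝ) ≤
      1 + (if p ∈ D then 2 * (x : ℝ) / s + 2 else 0) := by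
    intro p hp
    have hpp := mem_PP.1 hp
    by_cases hpD : p ∈ D
    · rw [if_pos hpD]
      have h4 : (Ioc x1 x).filter (fun n => p ^ 2 ∣ (fv a b c n).toNat) ⊆
          (Ioc 0 x).filter (fun m : ℕ => (p : ℤ) ∣ fv a b c m) := by
        intro n hn
        rw [mem_filter] at hn ⊢
        refine ⟨?_, (dvd_pow_self (p : ℤ) (by norm_num)).trans (hz n hn.1 p hn.2)⟩
        rw [mem_Ioc] at hn ⊢; omega
      have h5 := (card_le_card h4).trans (Pool.Agent.N792.XEa.root_count a b c p x hpp.2.pos)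
      have hpa : ¬ (p : ℤ) ∣ a := by
        intro hdv
        have := Int.le_of_dvd ha hdv
        have h6 : (s : ℤ) < p := by exact_mod_cast hpp.1.1
        linarith
      have h6 := rho_le_two a b c p hpp.2 hpa
      have h7 : #((Ioc x1 x).filter (fun n => p ^ 2 ∣ (fv a b c n).toNat)) ≤ 2 * (x / s + 1) := by
        refine h5.trans (Nat.mul_le_mul h6 ?_)
        have : x / p ≤ x / s := Nat.div_le_div_left hpp.1.1.le hs0
        omega
      have h8 : (#((Ioc x1 x).filter (fun n => p ^ 2 ∣ (fv a b c n).toNat)) : ℝ) ≤ 2 * (((x / s : ℕ) : ℝ) + 1) := by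
        exact_mod_cast h7
      have h9 : ((x / s : ℕ) : ℝ) ≤ (x : ℝ) / s := Nat.cast_div_le
      have h10 : 2 * (x : ℝ) / s = 2 * ((x : ℝ) / s) := by ring
      rw [h10]
      linarith
    · rw [if_neg hpD, add_zero]
      have h4 : #((Ioc x1 x).filter (fun n => p ^ 2 ∣ (fv a b c n).toNat)) ≤ 1 := by
        rw [card_le_one]
        intro n1 hn1 n2 hn2
        rw [mem_filter] at hn1 hn2
        have g1 := hz n1 hn1.1 p hn1.2
        have g2 := hz n2 hn2.1 p hn2.2
        by_contra hne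
        have hb1 : |b| ≤ n1 := by
          have := (mem_Ioc.1 hn1.1).1
          have : (x1 : ℤ) ≤ n1 := by exact_mod_cast this.le
          linarith
        have hb2 : |b| ≤ n2 := by
          have := (mem_Ioc.1 hn2.1).1
          have : (x1 : ℤ) ≤ n2 := by exact_mod_cast this.le
          linarith
        apply hpD
        rw [hD, mem_filter]
        refine ⟨hp, ?_⟩
        rcases lt_or_gt_of_ne hne with h | h
        · exact sq_twoU ha hpp.2 hpp.1.1 h (mem_Ioc.1 hn2.1).2 hb1 hs g1 g2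
        · exact sq_twoU ha hpp.2 hpp.1.1 h (mem_Ioc.1 hn1.1).2 hb2 hs g2 g1
      exact_mod_cast h4
  refine (sum_le_sum h3).trans ?_
  rw [sum_add_distrib, sum_const, nsmul_eq_mul, mul_one, ← sum_filter]
  have h4 : (PP s t).filter (fun p => p ∈ D) = D := by
    ext p
    rw [mem_filter]
    constructor
    · exact fun h => h.2
    · intro h
      exact ⟨(mem_filter.1 h).1, h⟩
  rw [h4, sum_const, nsmul_eq_mul]
  have h5 : (#(PP s t) : ℝ) ≤ t := by exact_mod_cast card_PP_le s t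
  have h6 : (#D : ℝ) ≤ 1 := by exact_mod_cast hDcard
  have h7 : 0 ≤ 2 * (x : ℝ) / s + 2 := by positivity
  nlinarith

/-- the deterministic part -/
theorem det_partU {f : ℕ → ℝ} (hf : Cls f) {a b : ℤ} (ha : 0 < a) {x1 x s t c : ℕ} (hx : x1 ≤ x) (hb : b.natAbs ≤ x1)
    (hc : 0 < c) (hs : 2 * a * x + |b| < (s : ℤ) * s) (has : a < s) (hd0 : b ^ 2 - 4 * a * c ≠ 0)
    (hd : |b ^ 2 - 4 * a * c| < (s : ℤ) * s) (hx3 : x ^ 2 < (s + 1) ^ 3) (hN : ∀ n ∈ Ioc x1 x, Fn a b n + c < (s + 1) ^ 3)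
    (hco : ∀ p ∈ PP s t, ∀ n ∈ Ioc x1 x, p ∣ Fn a b n + c → (Fn a b n + c) / p ≤ x ^ 2) :
    |∑ n ∈ (Ioc x1 x).filter (fun n => 1 ≤ om s t (Fn a b n + c)), f (Fn a b n + c)| ≤
      E1 f a b x1 x s t c + 3 * (t + (2 * (x : ℝ) / s + 2)) ∧
    |(#((Ioc x1 x).filter (fun n => 1 ≤ om s t (Fn a b n + c))) : ℝ) - ((x : ℝ) - x1) * (Lm s t - Lm s t ^ 2 / 2)| ≤
      E2 a b x1 x s t c + (1 + Lm s t) * (E3 a b x1 x s t c + 2 * t) + 3 * (t + (2 * (x : ℝ) / s + 2)) := by
  classical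
  have hfv : ∀ n ∈ Ioc x1 x, fv a b c n = ((Fn a b n + c : ℕ) : ℤ) := by
    intro n hn
    rw [mem_Ioc] at hn
    exact Pool.Agent.N792.Mtm.fv_eq ha (hb.trans hn.1.le)
  have hNpos : ∀ n, 0 < Fn a b n + c := fun n => by omega
  have hdiv : ∀ p ∈ PP s t, ∀ n ∈ Ioc x1 x, p ∣ Fn a b n + c → 0 < (Fn a b n + c) / p := by
    intro p hp n hn hd
    exact Nat.div_pos (Nat.le_of_dvd (hNpos n) hd) (mem_PP.1 hp).2.pos
  have hsqb : (#((Ioc x1 x).filter (fun n => ∃ p ∈ PP s t, p ^ 2 ∣ Fn a b n + c)) : ℝ) ≤ t + (2 * (x : ℝ) / s + 2) := by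
    have h1 : (Ioc x1 x).filter (fun n => ∃ p ∈ PP s t, p ^ 2 ∣ Fn a b n + c) =
        (Ioc x1 x).filter (fun n => ∃ p ∈ PP s t, p ^ 2 ∣ (fv a b c n).toNat) := by
      refine filter_congr fun n hn => ?_
      rw [hfv n hn, Int.toNat_natCast]
    rw [h1]
    refine sq_badU ha ?_ hs has hd0 hd ?_
    · have h2 : (b.natAbs : ℤ) ≤ x1 := by exact_mod_cast hb
      rwa [Int.natCast_natAbs] at h2
    · intro n hn
      rw [hfv n hn]
      exact_mod_cast hNpos n
  set Bad := (Ioc x1 x).filter (fun n => ∃ p ∈ PP s t, p ^ 2 ∣ Fn a b n + c) with hBad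
  have hom2 : ∀ n ∈ Ioc x1 x, (om s t (Fn a b n + c) : ℝ) ≤ 2 := by
    intro n hn
    exact_mod_cast om_le_two (hNpos n) (hN n hn)
  -- comparison of two functions of n
  have hcmp : ∀ G H : ℕ → ℝ, (∀ n ∈ Ioc x1 x, n ∉ Bad → G n = H n) → (∀ n ∈ Ioc x1 x, |G n - H n| ≤ 3) →
      |∑ n ∈ Ioc x1 x, G n - ∑ n ∈ Ioc x1 x, H n| ≤ 3 * (t + (2 * (x : ℝ) / s + 2)) := by
    intro G H h1 h2
    rw [← sum_sub_distrib]
    refine (abs_sum_le_sum_abs _ _).trans ?_
    calc ∑ n ∈ Ioc x1 x, |G n - H n| ≤ ∑ n ∈ Ioc x1 x, (if n ∈ Bad then (3 : ℝ) else 0) := by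
          refine sum_le_sum fun n hn => ?_
          split_ifs with h
          · exact h2 n hn
          · rw [h1 n hn h, sub_self, abs_zero]
      _ = #Bad * 3 := by
          rw [← sum_filter, sum_const, nsmul_eq_mul]
          congr 2
          congr 1
          ext n
          rw [mem_filter]
          exact ⟨fun h => h.2, fun h => ⟨(mem_filter.1 h).1, h⟩⟩
      _ ≤ _ := by linarith
  have hgood : ∀ n ∈ Ioc x1 x, n ∉ Bad → ¬ ∃ p ∈ PP s t, p ^ 2 ∣ Fn a b n + c := by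
    intro n hn h1 h2
    exact h1 (mem_filter.2 ⟨hn, h2⟩)
  constructor
  · -- the first estimate
    have h1 := hcmp (fun n => ∑ p ∈ (PP s t).filter (fun p => p ∣ Fn a b n + c), be f s t ((Fn a b n + c) / p))
      (fun n => if 1 ≤ om s t (Fn a b n + c) then - f (Fn a b n + c) else 0)
      (fun n hn hnb => comb1 hf (hNpos n) (hN n hn) (hgood n hn hnb)) (fun n hn => ?_)
    · have h2 : ∑ n ∈ Ioc x1 x, ∑ p ∈ (PP s t).filter (fun p => p ∣ Fn a b n + c), be f s t ((Fn a b n + c) / p) =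
          ∑ p ∈ PP s t, ∑ n ∈ (Ioc x1 x).filter (fun n => p ∣ Fn a b n + c), b1 f s t (x ^ 2) ((Fn a b n + c) / p) := by
        rw [← swap_sum a b x1 x s t c (fun p n => be f s t ((Fn a b n + c) / p))]
        refine sum_congr rfl fun p hp => sum_congr rfl fun n hn => ?_
        rw [mem_filter] at hn
        unfold b1
        rw [if_pos ⟨hdiv p hp n hn.1 hn.2, hco p hp n hn.1 hn.2⟩]
      have h3 : |∑ n ∈ Ioc x1 x, ∑ p ∈ (PP s t).filter (fun p => p ∣ Fn a b n + c), be f s t ((Fn a b n + c) / p)| ≤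
          E1 f a b x1 x s t c := by
        rw [h2]
        exact abs_sum_le_sum_abs _ _
      have h4 : ∑ n ∈ Ioc x1 x, (if 1 ≤ om s t (Fn a b n + c) then - f (Fn a b n + c) else 0) =
          - ∑ n ∈ (Ioc x1 x).filter (fun n => 1 ≤ om s t (Fn a b n + c)), f (Fn a b n + c) := by
        rw [sum_filter, ← sum_neg_distrib]
        refine sum_congr rfl fun n _ => ?_
        split_ifs <;> simp
      rw [h4] at h1
      have h5 := abs_le.1 h1
      have h6 := abs_le.1 h3
      rw [abs_le]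
      constructor <;> linarith [h5.1, h5.2, h6.1, h6.2]
    · -- the trivial bound
      have h2 : |∑ p ∈ (PP s t).filter (fun p => p ∣ Fn a b n + c), be f s t ((Fn a b n + c) / p)| ≤ 2 := by
        refine (abs_sum_le_sum_abs _ _).trans ?_
        calc _ ≤ ∑ p ∈ (PP s t).filter (fun p => p ∣ Fn a b n + c), (1 : ℝ) := by
              refine sum_le_sum fun p hp => ?_
              rw [mem_filter] at hp
              exact be_abs hf (hdiv p hp.1 n hn hp.2) (lt_of_le_of_lt (hco p hp.1 n hn hp.2) hx3)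
          _ = om s t (Fn a b n + c) := by rw [sum_const, nsmul_eq_mul, mul_one]; rfl
          _ ≤ 2 := hom2 n hn
      have h3 : |(if 1 ≤ om s t (Fn a b n + c) then - f (Fn a b n + c) else 0)| ≤ 1 := by
        split_ifs
        · rw [abs_neg]; exact hf.bd _
        · simp
      exact (abs_sub _ _).trans (by linarith)
  · -- the second estimate
    have h1 := hcmp (fun n => ∑ p ∈ (PP s t).filter (fun p => p ∣ Fn a b n + c), (1 - (om s t ((Fn a b n + c) / p) : ℝ) / 2))
      (fun n => if 1 ≤ om s t (Fn a b n + c) then 1 else 0)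
      (fun n hn hnb => comb2 (hNpos n) (hN n hn) (hgood n hn hnb)) (fun n hn => ?_)
    · set Λ := Lm s t with hΛ
      have hΛ0 : 0 ≤ Λ := Lm_nonneg s t
      set W : ℝ := ∑ p ∈ PP s t, (#((Ioc x1 x).filter (fun n => p ∣ Fn a b n + c)) : ℝ) with hW
      have h2 : ∑ n ∈ Ioc x1 x, ∑ p ∈ (PP s t).filter (fun p => p ∣ Fn a b n + c), (1 - (om s t ((Fn a b n + c) / p) : ℝ) / 2) =
          (1 - Λ / 2) * W - (∑ p ∈ PP s t, ∑ n ∈ (Ioc x1 x).filter (fun n => p ∣ Fn a b n + c),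
            b2 s t (x ^ 2) ((Fn a b n + c) / p)) / 2 := by
        rw [← swap_sum a b x1 x s t c (fun p n => (1 - (om s t ((Fn a b n + c) / p) : ℝ) / 2)), hW, mul_sum, sum_div,
          ← sum_sub_distrib]
        refine sum_congr rfl fun p hp => ?_
        have e1 : (1 - Λ / 2) * (#((Ioc x1 x).filter (fun n => p ∣ Fn a b n + c)) : ℝ) =
            ∑ n ∈ (Ioc x1 x).filter (fun n => p ∣ Fn a b n + c), (1 - Λ / 2) := by
          rw [sum_const, nsmul_eq_mul, mul_comm]
        rw [e1, sum_div, ← sum_sub_distrib]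
        refine sum_congr rfl fun n hn => ?_
        rw [mem_filter] at hn
        unfold b2
        rw [if_pos ⟨hdiv p hp n hn.1 hn.2, hco p hp n hn.1 hn.2⟩]
        ring
      have h3 : |∑ p ∈ PP s t, ∑ n ∈ (Ioc x1 x).filter (fun n => p ∣ Fn a b n + c),
            b2 s t (x ^ 2) ((Fn a b n + c) / p)| ≤ E2 a b x1 x s t c := abs_sum_le_sum_abs _ _
      have h4 : ∑ n ∈ Ioc x1 x, (if 1 ≤ om s t (Fn a b n + c) then (1 : ℝ) else 0) =
          (#((Ioc x1 x).filter (fun n => 1 ≤ om s t (Fn a b n + c))) : ℝ) := by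
        rw [← sum_filter, sum_const, nsmul_eq_mul, mul_one]
      have hWx : |W - ((x : ℝ) - x1) * Λ| ≤ E3 a b x1 x s t c + 2 * t := by
        have e1 : ∀ p ∈ PP s t, |(#((Ioc x1 x).filter (fun n => p ∣ Fn a b n + c)) : ℝ) -
            rho a b (c : ℕ) p * (((x : ℝ) - x1) / p)| ≤ 2 := by
          intro p hp
          have hpp := mem_PP.1 hp
          have e2 := root_int a b c p x1 x hpp.2.pos hx
          have e3 : (Ioc x1 x).filter (fun n : ℕ => (p : ℤ) ∣ fv a b c n) = (Ioc x1 x).filter (fun n => p ∣ Fn a b n + c) := by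
            refine filter_congr fun n hn => ?_
            rw [hfv n hn]
            exact Int.natCast_dvd_natCast
          rw [e3] at e2
          have hpa : ¬ (p : ℤ) ∣ a := by
            intro hdv
            have := Int.le_of_dvd ha hdv
            have h6 : (s : ℤ) < p := by exact_mod_cast hpp.1.1
            linarith
          have h6 : (rho a b (c : ℕ) p : ℝ) ≤ 2 := by exact_mod_cast rho_le_two a b c p hpp.2 hpa
          exact e2.trans h6
        have e4 : W - ((x : ℝ) - x1) * Λ = ∑ p ∈ PP s t, ((#((Ioc x1 x).filter (fun n => p ∣ Fn a b n + c)) : ℝ) -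
            rho a b (c : ℕ) p * (((x : ℝ) - x1) / p)) + ∑ p ∈ PP s t, ((x : ℝ) - x1) / p * ((rho a b (c : ℕ) p : ℝ) - 1) := by
          rw [hW, hΛ]
          unfold Lm
          rw [mul_sum, ← sum_add_distrib, ← sum_sub_distrib]
          refine sum_congr rfl fun p _ => ?_
          ring
        rw [e4]
        refine (abs_add_le _ _).trans ?_
        have e5 : |∑ p ∈ PP s t, ((#((Ioc x1 x).filter (fun n => p ∣ Fn a b n + c)) : ℝ) -
            rho a b (c : ℕ) p * (((x : ℝ) - x1) / p))| ≤ 2 * t := by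
          refine (abs_sum_le_sum_abs _ _).trans ?_
          calc _ ≤ ∑ p ∈ PP s t, (2 : ℝ) := sum_le_sum e1
            _ = #(PP s t) * 2 := by rw [sum_const, nsmul_eq_mul]
            _ ≤ 2 * t := by
              have : (#(PP s t) : ℝ) ≤ t := by exact_mod_cast card_PP_le s t
              linarith
        unfold E3
        linarith
      rw [h4] at h1
      rw [h2] at h1
      have e6 : |(1 - Λ / 2) * (W - ((x : ℝ) - x1) * Λ)| ≤ (1 + Λ) * (E3 a b x1 x s t c + 2 * t) := by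
        rw [abs_mul]
        refine mul_le_mul ?_ hWx (abs_nonneg _) (by linarith)
        rw [abs_le]; constructor <;> linarith
      have h5 := abs_le.1 h1
      have h6 := abs_le.1 h3
      have h7 := abs_le.1 e6
      have hE2 : 0 ≤ E2 a b x1 x s t c := sum_nonneg fun _ _ => abs_nonneg _
      have e7 : (1 - Λ / 2) * (W - ((x : ℝ) - x1) * Λ) = (1 - Λ / 2) * W - ((x : ℝ) - x1) * (Λ - Λ ^ 2 / 2) := by ring
      rw [e7] at h7
      rw [abs_le]
      constructor <;> linarith [h5.1, h5.2, h6.1, h6.2, h7.1, h7.2]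
    · have h2 : |∑ p ∈ (PP s t).filter (fun p => p ∣ Fn a b n + c), (1 - (om s t ((Fn a b n + c) / p) : ℝ) / 2)| ≤ 2 := by
        refine (abs_sum_le_sum_abs _ _).trans ?_
        calc _ ≤ ∑ p ∈ (PP s t).filter (fun p => p ∣ Fn a b n + c), (1 : ℝ) := by
              refine sum_le_sum fun p hp => ?_
              rw [mem_filter] at hp
              have e1 := om_le_two (t := t) (hdiv p hp.1 n hn hp.2) (lt_of_le_of_lt (hco p hp.1 n hn hp.2) hx3)
              have e2 : (om s t ((Fn a b n + c) / p) : ℝ) ≤ 2 := by exact_mod_cast e1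
              have e3 : (0 : ℝ) ≤ om s t ((Fn a b n + c) / p) := Nat.cast_nonneg _
              rw [abs_le]; constructor <;> linarith
          _ = om s t (Fn a b n + c) := by rw [sum_const, nsmul_eq_mul, mul_one]; rfl
          _ ≤ 2 := hom2 n hn
      have h3 : |(if 1 ≤ om s t (Fn a b n + c) then (1 : ℝ) else 0)| ≤ 1 := by
        split_ifs <;> simp
      exact (abs_sub _ _).trans (by linarith)

end Pool.Agent.N791.U
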