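import Mathlib
import Pool.Agent.N791.U.L1
import Pool.Agent.N791.C2.One
import Pool.Agent.N791.U.Final

/-!
The sums of `λ` and `μ` over the values with a prime factor in `(s, t]`, uniformly for `b² ≤ Λ C` (helper791).
-/

set_option autoImplicit false

namespace Pool.Agent.N791.U

open Finset Filter Topology
open Pool.Agent.N792 (fv rho Fn Rough rg ev_log_pow q1 q4)
open Pool.Agent.N792.XEb (card_markov)
open Pool.Agent.N791.C2

lemma fn_monoU {a b : ℤ} (ha : 0 < a) {n x : ℕ} (hb : b.natAbs ≤ n) (hn : n ≤ x) : Fn a b n ≤ Fn a b x := by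
  have h1 := Pool.Agent.N792.Mtm.Fn_cast (b := b) ha hb
  have h2 := Pool.Agent.N792.Mtm.Fn_cast (b := b) ha (hb.trans hn)
  have h3 : (n : ℤ) ≤ x := by exact_mod_cast hn
  have h4 : -(n : ℤ) ≤ b := by omega
  have h5 : (0 : ℤ) ≤ n := Int.natCast_nonneg _
  have h6 : a * (n : ℤ) ^ 2 + b * n ≤ a * (x : ℤ) ^ 2 + b * x := by
    have e : a * (x : ℤ) ^ 2 + b * x - (a * (n : ℤ) ^ 2 + b * n) = (x - n) * (a * (x + n) + b) := by ring
    have h7 : 0 ≤ a * ((x : ℤ) + n) + b := by nlinarith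
    have h8 := mul_nonneg (sub_nonneg.2 h3) h7
    linarith
  have h9 : ((Fn a b n : ℕ) : ℤ) ≤ ((Fn a b x : ℕ) : ℤ) := by
    rw [h1, h2]; exact h6
  exact_mod_cast h9

lemma eng0U (a : ℤ) (ha : 0 < a) (Λ : ℝ) (hΛ : 1 ≤ Λ) (ε : ℝ) (hε : 0 < ε) (hε1 : ε ≤ 1 / 100) (R A : ℕ) :
    ∃ E U x0 : ℕ, ∀ x : ℕ, x0 ≤ x → ∀ (b : ℤ) (x1 C s t : ℕ) (β : ℕ → ℝ), (b : ℝ) ^ 2 ≤ Λ * C → x1 < x → x ≤ R * x1 →
    (x : ℝ) ^ (3 / 2 + ε) ≤ C * s → (x : ℝ) ^ (1 / 2 + ε) ≤ C → C ≤ x → (x : ℝ) ^ (1 / 2 : ℝ) ≤ s →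
    (t : ℝ) ≤ (x : ℝ) ^ (1 - ε) → (∀ k, |β k| ≤ 2 * Real.log x) →
    (∀ i v q r : ℕ, x ≤ 2 ^ i → 2 ^ (i + 1) ≤ x ^ 2 → 2 ^ i ≤ v → v ≤ 2 ^ (i + 1) → 1 ≤ q →
      (q : ℝ) ≤ Real.log x ^ E →
      |∑ k ∈ (Ioc (2 ^ i) v).filter (fun k => k ≡ r [MOD q]), β k| ≤ v / Real.log x ^ U) →
    (∀ c ∈ Icc 1 C, ∀ p ∈ PP s t, ∀ n ∈ Ioc x1 x, p ∣ Fn a b n + c → (Fn a b n + c) / p ≤ x ^ 2) ∧
    ∑ c ∈ Icc 1 C, ∑ p ∈ PP s t, |∑ n ∈ (Ioc x1 x).filter (fun n => p ∣ Fn a b n + c), β ((Fn a b n + c) / p)| ≤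
      C * x / Real.log x ^ A := by
  obtain ⟨D, hD⟩ : ∃ D : ℕ, D = A + 8 := ⟨_, rfl⟩
  have haR : (0 : ℝ) < a := by exact_mod_cast ha
  obtain ⟨x0, h0⟩ := core_bound3U q1 q4 a ha (Λ / (4 * a) + 2) (by
    have : 0 ≤ Λ / (4 * a) := by positivity
    linarith) (1 / 10) ε (by norm_num) hε hε1 R (4 * D + 1)
  obtain ⟨x2, h2⟩ := r2U a ha (1 / 10) ε (by norm_num) hε
  obtain ⟨K0, hK0⟩ : ∃ K0 : ℝ, K0 = 10 ^ 12 * 4 * 2 ^ 72 := ⟨_, rfl⟩
  have hK1 : (10 : ℝ) ≤ K0 := by rw [hK0]; norm_num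
  have hK2 : (16 : ℝ) ≤ K0 := by rw [hK0]; norm_num
  have hK3 : (6 * 10 ^ 7 * 2 ^ 48 : ℝ) ≤ K0 := by rw [hK0]; norm_num
  have e1 : ∀ᶠ x : ℕ in atTop, K0 ≤ Real.log x := Pool.Agent.N792.Shp.log_ge _
  obtain ⟨x3, h3⟩ := eventually_atTop.1 e1
  refine ⟨48 * D + 1, 72 * D + 1, max (max x0 x2) (max x3 3), fun x hx b x1 C s t β hbC hx1 hR hC1 hC2 hCx hs ht hβ hnull => ?_⟩
  have g0 : x0 ≤ x := ((le_max_left _ _).trans (le_max_left _ _)).trans hx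
  have g2 : x2 ≤ x := ((le_max_right _ _).trans (le_max_left _ _)).trans hx
  have g3 : x3 ≤ x := ((le_max_left _ _).trans (le_max_right _ _)).trans hx
  have hx3 : 3 ≤ x := ((le_max_right _ _).trans (le_max_right _ _)).trans hx
  have hL := h3 x g3
  set L := Real.log x with hLdef
  have hLbig : (10 : ℝ) ≤ L := hK1.trans hL
  have hL1 : (1 : ℝ) ≤ L := by linarith
  have hx1' : (1 : ℝ) ≤ x := by
    have : 1 ≤ x := by omega
    exact_mod_cast this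
  have hLD : 1 ≤ L ^ D := one_le_pow₀ hL1
  obtain ⟨m, hm1, hm2⟩ := exists_nat_pow_near (x := L ^ D) (y := (2 : ℝ)) hLD (by norm_num)
  obtain ⟨τ, hτ⟩ : ∃ τ : ℕ, τ = m + 1 := ⟨_, rfl⟩
  have hτ1 : L ^ D ≤ (2 : ℝ) ^ τ := by rw [hτ]; exact hm2.le
  have hτ2 : (2 : ℝ) ^ τ ≤ 2 * L ^ D := by rw [hτ, pow_succ]; linarith
  have hLL : L ≤ L ^ D := by
    calc L = L ^ 1 := (pow_one L).symm
      _ ≤ L ^ D := pow_le_pow_right₀ hL1 (by omega)
  have hs10 : (x : ℝ) ^ (1 / 10 : ℝ) ≤ s :=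
    le_trans (Real.rpow_le_rpow_of_exponent_le hx1' (by norm_num)) hs
  have htx : t ≤ x := by
    have : (t : ℝ) ≤ x := ht.trans (by
      calc (x : ℝ) ^ (1 - ε) ≤ (x : ℝ) ^ (1 : ℝ) := Real.rpow_le_rpow_of_exponent_le hx1' (by linarith)
        _ = x := Real.rpow_one _)
    exact_mod_cast this
  have hrough : ∀ m ∈ PP s t, Rough s m := by
    intro p hp
    rw [mem_PP] at hp
    refine ⟨hp.2.ne_zero, fun q hq hqp => ?_⟩
    rw [(Nat.prime_dvd_prime_iff_eq hq hp.2).1 hqp]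
    exact hp.1.1
  have hsum : ∀ m ∈ PP s t, ∑ c ∈ Icc 1 C, (rho a b (c : ℕ) m : ℝ) ≤ 2 * C := by
    intro p hp
    have hp' := mem_PP.1 hp
    exact h2 x g2 b C s p hC2 hCx hs10 (hp'.1.2.trans htx) (hrough p hp) hp'.2.squarefree
  have hsub : PP s t ⊆ Ioc s t := filter_subset _ _
  have hpow4 : (2 : ℝ) ^ (4 * τ) ≤ L ^ (4 * D + 1) := by
    have h5 : (2 : ℝ) ^ (4 * τ) = ((2 : ℝ) ^ τ) ^ 4 := by rw [← pow_mul]; congr 1; ring
    rw [h5]
    calc ((2 : ℝ) ^ τ) ^ 4 ≤ (2 * L ^ D) ^ 4 := pow_le_pow_left₀ (by positivity) hτ2 4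
      _ = 16 * L ^ (4 * D) := by rw [mul_pow, ← pow_mul, mul_comm D 4]; norm_num
      _ ≤ L * L ^ (4 * D) := by
          exact mul_le_mul_of_nonneg_right (hK2.trans hL) (by positivity)
      _ = L ^ (4 * D + 1) := by ring
  have hβ' : ∀ k, |β k| ≤ 2 * L := hβ
  have hAP : ∀ i v q r : ℕ, x ≤ 2 ^ i → 2 ^ (i + 1) ≤ x ^ 2 → 2 ^ i ≤ v → v ≤ 2 ^ (i + 1) → 1 ≤ q →
      q ≤ 6 * 10 ^ 7 * 2 ^ (12 * (4 * τ)) →
      |∑ k ∈ (Ioc (2 ^ i) v).filter (fun k => k ≡ r [MOD q]), β k| * (2 * (10 ^ 12 * (2 : ℝ) ^ (18 * (4 * τ)))) ≤ (2 : ℝ) ^ i := by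
    intro i v q r hi1 hi2 hv1 hv2 hq hqb
    have hqE : (q : ℝ) ≤ L ^ (48 * D + 1) := by
      have h5 : (q : ℝ) ≤ 6 * 10 ^ 7 * 2 ^ (12 * (4 * τ)) := by exact_mod_cast hqb
      refine h5.trans ?_
      have h6 : (2 : ℝ) ^ (12 * (4 * τ)) = ((2 : ℝ) ^ τ) ^ 48 := by rw [← pow_mul]; congr 1; ring
      rw [h6]
      calc 6 * 10 ^ 7 * ((2 : ℝ) ^ τ) ^ 48 ≤ 6 * 10 ^ 7 * (2 * L ^ D) ^ 48 := by
            have := pow_le_pow_left₀ (by positivity) hτ2 48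
            linarith
        _ = (6 * 10 ^ 7 * 2 ^ 48) * L ^ (48 * D) := by rw [mul_pow, ← pow_mul, mul_comm D 48]; ring
        _ ≤ L * L ^ (48 * D) := by
            exact mul_le_mul_of_nonneg_right (hK3.trans hL) (by positivity)
        _ = L ^ (48 * D + 1) := by ring
    have h7 := hnull i v q r hi1 hi2 hv1 hv2 hq hqE
    have h8 : (2 : ℝ) ^ (18 * (4 * τ)) ≤ 2 ^ 72 * L ^ (72 * D) := by
      have h6 : (2 : ℝ) ^ (18 * (4 * τ)) = ((2 : ℝ) ^ τ) ^ 72 := by rw [← pow_mul]; congr 1; ring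
      rw [h6]
      calc ((2 : ℝ) ^ τ) ^ 72 ≤ (2 * L ^ D) ^ 72 := pow_le_pow_left₀ (by positivity) hτ2 72
        _ = 2 ^ 72 * L ^ (72 * D) := by rw [mul_pow, ← pow_mul, mul_comm D 72]
    have h9 : (v : ℝ) ≤ 2 * 2 ^ i := by
      have : (v : ℝ) ≤ ((2 ^ (i + 1) : ℕ) : ℝ) := by exact_mod_cast hv2
      push_cast at this
      rw [pow_succ] at this
      linarith
    have hLU : 0 < L ^ (72 * D + 1) := by positivity
    have hL0 : 0 < L ^ (72 * D) := by positivity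
    have hiP : (0 : ℝ) < 2 ^ i := by positivity
    have h10 : |∑ k ∈ (Ioc (2 ^ i) v).filter (fun k => k ≡ r [MOD q]), β k| ≤ 2 * 2 ^ i / (L * L ^ (72 * D)) := by
      refine h7.trans ?_
      rw [pow_succ, mul_comm (L ^ (72 * D)) L]
      exact div_le_div_of_nonneg_right h9 (by positivity)
    have h11 : 2 * (10 ^ 12 * (2 : ℝ) ^ (18 * (4 * τ))) ≤ 2 * (10 ^ 12 * (2 ^ 72 * L ^ (72 * D))) := by
      have : (0 : ℝ) ≤ 2 * 10 ^ 12 := by norm_num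
      linarith [mul_le_mul_of_nonneg_left h8 this]
    calc _ ≤ (2 * 2 ^ i / (L * L ^ (72 * D))) * (2 * (10 ^ 12 * (2 ^ 72 * L ^ (72 * D)))) := by
          refine mul_le_mul h10 h11 ?_ ?_
          · positivity
          · positivity
      _ = (2 : ℝ) ^ i * (K0 / L) := by
          rw [hK0]; field_simp; ring
      _ ≤ (2 : ℝ) ^ i * 1 := by
          apply mul_le_mul_of_nonneg_left _ hiP.le
          rw [div_le_one (by linarith)]; exact hL
      _ = (2 : ℝ) ^ i := mul_one _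
  have hbρ : (b : ℝ) ^ 2 / (4 * a) ≤ (Λ / (4 * a) + 2 - 2) * C := by
    have e9 : (Λ / (4 * a) + 2 - 2) * (C : ℝ) = Λ * C / (4 * a) := by ring
    rw [e9]
    exact div_le_div_of_nonneg_right hbC (by positivity)
  obtain ⟨c1, c2⟩ := h0 x g0 b x1 C s s t τ (PP s t) β (2 * L) hbρ hx1 hR hC1 hCx hs10 ht hsub hrough hsum
    (hLL.trans hτ1) hpow4 (by linarith) hβ' hAP
  refine ⟨fun c hc p hp n hn hd => c1 c hc p (hsub hp) n hn hd, c2.trans ?_⟩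
  have hC0 : (0 : ℝ) ≤ C := Nat.cast_nonneg _
  calc 2 * L * (C * x) * L ^ 6 / (2 : ℝ) ^ τ ≤ 2 * L * (C * x) * L ^ 6 / L ^ D := by gcongr
    _ = (C * x / L ^ A) * (2 / L) := by rw [hD, pow_add]; field_simp
    _ ≤ (C * x / L ^ A) * 1 := by
        apply mul_le_mul_of_nonneg_left _ (by positivity)
        rw [div_le_one (by linarith)]; linarith
    _ = C * x / L ^ A := mul_one _

theorem one_cutU {f : ℕ → ℝ} (hf : Cls f) (a : ℤ) (ha : 0 < a) (Λ : ℝ) (hΛ : 1 ≤ Λ) (ε : ℝ) (hε : 0 < ε) (hε1 : ε ≤ 1 / 100) (R A : ℕ) :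
    ∃ x0 : ℕ, ∀ x : ℕ, x0 ≤ x → ∀ (b : ℤ) (x1 C s t : ℕ), (b : ℝ) ^ 2 ≤ Λ * C → x1 < x → x ≤ R * x1 →
    (x : ℝ) ^ (3 / 2 + ε) ≤ C * s → (x : ℝ) ^ (1 / 2 + ε) ≤ C → C ≤ x → (x : ℝ) ^ (2 / 3 + ε) ≤ s →
    (t : ℝ) ≤ (x : ℝ) ^ (1 - ε) →
    ∃ Ex ⊆ Icc 1 C, (#Ex : ℝ) ≤ C / Real.log x ^ A ∧ ∀ c ∈ Icc 1 C, c ∉ Ex →
      |∑ n ∈ (Ioc x1 x).filter (fun n => 1 ≤ om s t (Fn a b n + c)), f (Fn a b n + c)| ≤ x / Real.log x ^ A ∧
      |(#((Ioc x1 x).filter (fun n => 1 ≤ om s t (Fn a b n + c))) : ℝ) - ((x : ℝ) - x1) * (Lm s t - Lm s t ^ 2 / 2)| ≤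
        x / Real.log x ^ A := by
  classical
  obtain ⟨A', hA'⟩ : ∃ A' : ℕ, A' = 2 * A + 3 := ⟨_, rfl⟩
  obtain ⟨E, U, n0, h0⟩ := eng0U a ha Λ hΛ ε hε hε1 R A'
  obtain ⟨n1, h1⟩ := be_null hf ε hε hε1 E U
  obtain ⟨n2, h2⟩ := r1U a ha Λ hΛ (1 / 10) ε A' (by norm_num) hε
  obtain ⟨c0, AR, hc0, hAR, nR, hnR⟩ := range_bdU a ha Λ hΛ R
  have e1 : ∀ᶠ x : ℕ in atTop, (100 : ℝ) ≤ Real.log x := Pool.Agent.N792.Shp.log_ge _
  have e2 := ev_log_pow 4 (E + U) (δ := ε) hε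
  have e3 := ev_log_pow (4 * ((a : ℝ) + Λ + AR + 1) ^ 2 + 4) 0 (δ := 3 * ε) (by positivity)
  have e4 := ev_log_pow 100 (A + 2) (δ := ε) hε
  have e5 : ∀ᶠ x : ℕ in atTop, 3 ≤ x := eventually_ge_atTop _
  have e6 := ev_log_pow 1 E (δ := 1 / 2) (by norm_num)
  obtain ⟨n3, h3⟩ := eventually_atTop.1 ((((((e1.and e2).and e3).and e4).and e5)).and e6)
  refine ⟨max (max n0 n1) (max n2 (max n3 nR)), fun x hx b x1 C s t hbC hx1 hR hC1 hC2 hCx hs ht => ?_⟩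
  have g0 : n0 ≤ x := ((le_max_left _ _).trans (le_max_left _ _)).trans hx
  have g1 : n1 ≤ x := ((le_max_right _ _).trans (le_max_left _ _)).trans hx
  have g2 : n2 ≤ x := ((le_max_left _ _).trans (le_max_right _ _)).trans hx
  have g3 : n3 ≤ x := (((le_max_left _ _).trans (le_max_right _ _)).trans (le_max_right _ _)).trans hx
  have gR : nR ≤ x := (((le_max_right _ _).trans (le_max_right _ _)).trans (le_max_right _ _)).trans hx
  have hbX : (b : ℝ) ^ 2 ≤ Λ * x := hbC.trans (mul_le_mul_of_nonneg_left (by exact_mod_cast hCx) (by linarith))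
  obtain ⟨⟨⟨⟨⟨f1, f2⟩, f3⟩, f4⟩, f5⟩, f6⟩ := h3 x g3
  rw [pow_zero, mul_one] at f3
  obtain ⟨L, hL⟩ : ∃ L : ℝ, L = Real.log x := ⟨_, rfl⟩
  rw [← hL] at f1 f2 f4 f6 ⊢
  have hx3 : 3 ≤ x := by omega
  have hxr : (3 : ℝ) ≤ x := by exact_mod_cast hx3
  have hx0' : (0 : ℝ) < x := by linarith
  have hx1' : (1 : ℝ) ≤ x := by linarith
  have hL0 : 0 < L := by linarith
  have hL1 : 1 ≤ L := by linarith
  have hC0 : (0 : ℝ) ≤ C := Nat.cast_nonneg _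
  obtain ⟨hbx2, -, hFnx⟩ := hnR x gR b hbX x1 hx1 hR
  have hbx1 : b.natAbs ≤ x1 := by omega
  -- powers of x
  have p23 : (x : ℝ) ^ (2 / 3 : ℝ) ≤ s := le_trans (Real.rpow_le_rpow_of_exponent_le hx1' (by linarith)) hs
  have p12 : (x : ℝ) ^ (1 / 2 : ℝ) ≤ s := le_trans (Real.rpow_le_rpow_of_exponent_le hx1' (by linarith)) hs
  have p10 : (x : ℝ) ^ (1 / 10 : ℝ) ≤ s := le_trans (Real.rpow_le_rpow_of_exponent_le hx1' (by linarith)) hs
  have hs0r : (0 : ℝ) < s := lt_of_lt_of_le (Real.rpow_pos_of_pos hx0' _) hs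
  have htx : t ≤ x := by
    have : (t : ℝ) ≤ x := ht.trans (by
      calc (x : ℝ) ^ (1 - ε) ≤ (x : ℝ) ^ (1 : ℝ) := Real.rpow_le_rpow_of_exponent_le hx1' (by linarith)
        _ = x := Real.rpow_one _)
    exact_mod_cast this
  have hs3 : (x : ℝ) ^ (3 * ε) * (x : ℝ) ^ 2 ≤ (s : ℝ) ^ 3 := by
    calc (x : ℝ) ^ (3 * ε) * (x : ℝ) ^ 2 = ((x : ℝ) ^ (2 / 3 + ε)) ^ 3 := by
          rw [← Real.rpow_natCast (x : ℝ) 2, ← Real.rpow_add hx0', ← Real.rpow_natCast ((x : ℝ) ^ (2 / 3 + ε)) 3,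
            ← Real.rpow_mul hx0'.le]
          congr 1
          push_cast
          ring
      _ ≤ (s : ℝ) ^ 3 := pow_le_pow_left₀ (by positivity) hs 3
  have hs2 : (x : ℝ) ^ (1 / 3 : ℝ) * x ≤ (s : ℝ) ^ 2 := by
    calc (x : ℝ) ^ (1 / 3 : ℝ) * x = ((x : ℝ) ^ (2 / 3 : ℝ)) ^ 2 := by
          nth_rewrite 2 [← Real.rpow_one (x : ℝ)]
          rw [← Real.rpow_add hx0', ← Real.rpow_natCast ((x : ℝ) ^ (2 / 3 : ℝ)) 2, ← Real.rpow_mul hx0'.le]
          congr 1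
          push_cast
          ring
      _ ≤ (s : ℝ) ^ 2 := pow_le_pow_left₀ (by positivity) p23 2
  obtain ⟨K, hK⟩ : ∃ K : ℝ, K = (a : ℝ) + Λ + AR + 1 := ⟨_, rfl⟩
  rw [← hK] at f3
  have ha1r : (1 : ℝ) ≤ a := by exact_mod_cast ha
  have hK1 : 1 ≤ K := by rw [hK]; linarith
  have hx13 : (x : ℝ) ^ (3 * ε) ≤ (x : ℝ) ^ (1 / 3 : ℝ) := Real.rpow_le_rpow_of_exponent_le hx1' (by linarith)
  have hK13 : 4 * K ^ 2 + 4 ≤ (x : ℝ) ^ (1 / 3 : ℝ) := f3.trans hx13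
  have haK : (a : ℝ) ≤ K := by rw [hK]; linarith
  have hΛK : Λ ≤ K := by rw [hK]; linarith
  have hARK : AR ≤ K := by rw [hK]; linarith
  have hbx : |(b : ℝ)| ≤ Λ * x := by
    have h4 : |(b : ℝ)| ^ 2 ≤ (Λ * x) ^ 2 := by
      rw [sq_abs]
      have : Λ * x ≤ (Λ * x) ^ 2 := by
        have h5 : 1 ≤ Λ * x := by nlinarith
        nlinarith
      linarith
    exact (abs_le_of_sq_le_sq' h4 (by positivity)).2
  have hax : (1 : ℝ) ≤ a := by exact_mod_cast ha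
  have hS2 : 2 * a * (x : ℤ) + |b| < (s : ℤ) * s := by
    have h4 : 2 * (a : ℝ) * x + |(b : ℝ)| < (s : ℝ) * s := by
      have h5 : 2 * (a : ℝ) * x + |(b : ℝ)| < (4 * K ^ 2 + 4) * x := by
        have h7 : 2 * (a : ℝ) * x ≤ 2 * K * x := by gcongr
        have h8 : |(b : ℝ)| ≤ K * x := hbx.trans (mul_le_mul_of_nonneg_right hΛK hx0'.le)
        have h9 : 3 * K < 4 * K ^ 2 + 4 := by nlinarith [sq_nonneg (K - 1)]
        nlinarith
      have h6 : (4 * K ^ 2 + 4) * (x : ℝ) ≤ (x : ℝ) ^ (1 / 3 : ℝ) * x := by gcongr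
      nlinarith
    have h7 : ((2 * a * (x : ℤ) + |b| : ℤ) : ℝ) < (((s : ℤ) * s : ℤ) : ℝ) := by push_cast; exact h4
    exact_mod_cast h7
  have haS : a < (s : ℤ) := by
    have h4 : (a : ℝ) < s := by
      have h5 : (x : ℝ) ^ (1 / 3 : ℝ) ≤ s := le_trans (Real.rpow_le_rpow_of_exponent_le hx1' (by linarith)) hs
      nlinarith
    exact_mod_cast h4
  have hX3 : x ^ 2 < (s + 1) ^ 3 := by
    have h4 : (x : ℝ) ^ 2 < ((s : ℝ) + 1) ^ 3 := by
      have h5 : (1 : ℝ) ≤ (x : ℝ) ^ (3 * ε) := Real.one_le_rpow hx1' (by positivity)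
      have h6 : (x : ℝ) ^ 2 ≤ (s : ℝ) ^ 3 := by nlinarith [sq_nonneg (x : ℝ)]
      have h7 : (s : ℝ) ^ 3 < ((s : ℝ) + 1) ^ 3 := pow_lt_pow_left₀ (by linarith) hs0r.le (by norm_num)
      linarith
    exact_mod_cast h4
  have hN3 : ∀ c ∈ Icc 1 C, ∀ n ∈ Ioc x1 x, Fn a b n + c < (s + 1) ^ 3 := by
    intro c hc n hn
    rw [mem_Icc] at hc
    rw [mem_Ioc] at hn
    have h4 : Fn a b n ≤ Fn a b x := fn_monoU ha (hbx1.trans hn.1.le) hn.2
    have h5 : ((Fn a b n + c : ℕ) : ℝ) < ((s : ℝ) + 1) ^ 3 := by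
      have h6 : ((Fn a b n + c : ℕ) : ℝ) ≤ K * (x : ℝ) ^ 2 := by
        have h7 : ((Fn a b n : ℕ) : ℝ) ≤ Fn a b x := by exact_mod_cast h4
        have h8 : (c : ℝ) ≤ x := by exact_mod_cast hc.2.trans hCx
        have h9 : AR * (x : ℝ) ^ 2 ≤ K * (x : ℝ) ^ 2 := by gcongr
        push_cast
        linarith
      have h10 : K ≤ (x : ℝ) ^ (3 * ε) := by nlinarith
      have h11 : K * (x : ℝ) ^ 2 ≤ (x : ℝ) ^ (3 * ε) * (x : ℝ) ^ 2 := by gcongr
      have h7 : (s : ℝ) ^ 3 < ((s : ℝ) + 1) ^ 3 := pow_lt_pow_left₀ (by linarith) hs0r.le (by norm_num)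
      linarith
    exact_mod_cast h5
  have hdisc : ∀ c ∈ Icc 1 C, |b ^ 2 - 4 * a * (c : ℤ)| < (s : ℤ) * s := by
    intro c hc
    rw [mem_Icc] at hc
    have hcx : (c : ℝ) ≤ x := by exact_mod_cast hc.2.trans hCx
    have hc0 : (0 : ℝ) ≤ c := Nat.cast_nonneg _
    have h4 : |(b : ℝ) ^ 2 - 4 * a * c| < (s : ℝ) * s := by
      have h5 : |(b : ℝ) ^ 2 - 4 * a * c| ≤ K * x + 4 * K * x := by
        have h6 : (b : ℝ) ^ 2 ≤ K * x := hbX.trans (mul_le_mul_of_nonneg_right hΛK hx0'.le)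
        have h7 : 4 * (a : ℝ) * c ≤ 4 * K * x := by
          have : (a : ℝ) * c ≤ K * x := mul_le_mul haK hcx hc0 (by linarith)
          linarith
        have h8 : 0 ≤ 4 * (a : ℝ) * c := by positivity
        have h9 : 0 ≤ (b : ℝ) ^ 2 := sq_nonneg _
        have h10 : 0 ≤ K * (x : ℝ) := by positivity
        have h11 : 0 ≤ 4 * K * (x : ℝ) := by positivity
        rw [abs_le]; constructor <;> linarith
      have h6 : K * x + 4 * K * x < (4 * K ^ 2 + 4) * x := by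
        have h12 : 5 * K < 4 * K ^ 2 + 4 := by nlinarith [sq_nonneg (K - 1)]
        nlinarith
      have h7 : (4 * K ^ 2 + 4) * (x : ℝ) ≤ (x : ℝ) ^ (1 / 3 : ℝ) * x := by gcongr
      nlinarith
    have h7 : ((|b ^ 2 - 4 * a * (c : ℤ)| : ℤ) : ℝ) < (((s : ℤ) * s : ℤ) : ℝ) := by push_cast; exact h4
    exact_mod_cast h7
  -- the two applications of the estimate of type II
  have hΛ := Lm_le (s := s) (t := t) (x := x) (by omega) htx
  rw [← hL] at hΛ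
  have hΛ0 := Lm_nonneg s t
  have hb1 : ∀ k, |b1 f s t (x ^ 2) k| ≤ 2 * Real.log x := by
    intro k
    rw [← hL]
    unfold b1
    split_ifs with h
    · exact (be_abs hf h.1 (lt_of_le_of_lt h.2 hX3)).trans (by linarith)
    · rw [abs_zero]; positivity
  have hb2 : ∀ k, |b2 s t (x ^ 2) k| ≤ 2 * Real.log x := by
    intro k
    rw [← hL]
    unfold b2
    split_ifs with h
    · have h4 : (om s t k : ℝ) ≤ 2 := by exact_mod_cast om_le_two h.1 (lt_of_le_of_lt h.2 hX3)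
      have h5 : (0 : ℝ) ≤ om s t k := Nat.cast_nonneg _
      rw [abs_le]; constructor <;> linarith
    · rw [abs_zero]; positivity
  have hcut : ∀ i v : ℕ, 2 ^ (i + 1) ≤ x ^ 2 → v ≤ 2 ^ (i + 1) → ∀ k ∈ Ioc (2 ^ i) v, 0 < k ∧ k ≤ x ^ 2 := by
    intro i v h4 h5 k hk
    rw [mem_Ioc] at hk
    constructor <;> omega
  obtain ⟨k1, k2⟩ := h0 x g0 b x1 C s t (b1 f s t (x ^ 2)) hbC hx1 hR hC1 hC2 hCx p12 ht hb1 (by
    intro i v q r hi1 hi2 hv1 hv2 hq hqE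
    have h4 := h1 x g1 s t (2 ^ i) v q r p12 ht hi1 hv1 hq hqE
    have h5 : ∑ k ∈ (Ioc (2 ^ i) v).filter (fun k => k ≡ r [MOD q]), b1 f s t (x ^ 2) k =
        ∑ k ∈ (Ioc (2 ^ i) v).filter (fun k => k ≡ r [MOD q]), be f s t k := by
      refine sum_congr rfl fun k hk => ?_
      unfold b1
      rw [if_pos (hcut i v hi2 hv2 k (mem_filter.1 hk).1)]
    rw [h5]; exact h4)
  obtain ⟨_, k3⟩ := h0 x g0 b x1 C s t (b2 s t (x ^ 2)) hbC hx1 hR hC1 hC2 hCx p12 ht hb2 (by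
    intro i v q r hi1 hi2 hv1 hv2 hq hqE
    rw [← hL] at hqE ⊢
    have h5 : ∑ k ∈ (Ioc (2 ^ i) v).filter (fun k => k ≡ r [MOD q]), b2 s t (x ^ 2) k =
        ∑ k ∈ (Ioc (2 ^ i) v).filter (fun k => k ≡ r [MOD q]), ((om s t k : ℝ) - Lm s t) := by
      refine sum_congr rfl fun k hk => ?_
      unfold b2
      rw [if_pos (hcut i v hi2 hv2 k (mem_filter.1 hk).1)]
    rw [h5]
    have hqs : q ≤ s := by
      have h6 : (q : ℝ) ≤ s := by
        rw [one_mul] at f6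
        exact (hqE.trans f6).trans p12
      exact_mod_cast h6
    refine (om_ap s t (2 ^ i) v q r hqs hv1 hq).trans ?_
    rw [le_div_iff₀ (by positivity)]
    have h7 : L ^ U ≤ L ^ (E + U) := pow_le_pow_right₀ hL1 (by omega)
    have h8 : (x : ℝ) ≤ v := by exact_mod_cast hi1.trans hv1
    have h9 : (x : ℝ) ^ (1 - ε) * (x : ℝ) ^ ε = x := by
      rw [← Real.rpow_add hx0']
      calc (x : ℝ) ^ (1 - ε + ε) = (x : ℝ) ^ (1 : ℝ) := by congr 1; ring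
        _ = x := Real.rpow_one _
    have h10 : (0 : ℝ) ≤ t := Nat.cast_nonneg _
    calc 4 * (t : ℝ) * L ^ U = t * (4 * L ^ U) := by ring
      _ ≤ (x : ℝ) ^ (1 - ε) * (x : ℝ) ^ ε := by
          apply mul_le_mul ht (by linarith) (by positivity) (by positivity)
      _ = x := h9
      _ ≤ v := h8)
  -- the mean value of rho
  have k4 : ∑ c ∈ Icc 1 C, E3 a b x1 x s t c ≤ C * x / L ^ A' := by
    have hxx1 : (0 : ℝ) ≤ (x : ℝ) - x1 := by
      have : (x1 : ℝ) ≤ x := by exact_mod_cast hx1.le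
      linarith
    have h4 := h2 x g2 b hbX C s s t (fun m => if m ∈ PP s t then ((x : ℝ) - x1) / m else 0) hC2 hCx p10 htx (by
      intro m hm
      by_cases hmp : m ∈ PP s t
      · rw [if_pos hmp]
        have hmm := mem_PP.1 hmp
        have hrg : rg s m = 1 := by
          unfold rg
          rw [if_pos]
          refine ⟨hmm.2.ne_zero, fun q hq hqp => ?_⟩
          rw [(Nat.prime_dvd_prime_iff_eq hq hmm.2).1 hqp]
          exact hmm.1.1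
        rw [hrg, one_mul, abs_of_nonneg (by positivity)]
        have hm0 : (0 : ℝ) < m := by exact_mod_cast hmm.2.pos
        apply div_le_div_of_nonneg_right _ hm0.le
        rw [← hL]
        have h5 : (1 : ℝ) ≤ L ^ A' := one_le_pow₀ hL1
        have h6 : (0 : ℝ) ≤ x1 := Nat.cast_nonneg _
        nlinarith
      · rw [if_neg hmp, abs_zero]
        have : 0 ≤ rg s m := by unfold rg; split_ifs <;> norm_num
        have h7 : (0 : ℝ) ≤ x * Real.log x ^ A' / m := by rw [← hL]; positivity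
        exact mul_nonneg this h7) (by
      intro m _ hm0
      by_cases hmp : m ∈ PP s t
      · exact (mem_PP.1 hmp).2.squarefree
      · simp [hmp] at hm0)
    rw [← hL] at h4
    refine le_trans (le_of_eq ?_) h4
    refine sum_congr rfl fun c _ => ?_
    unfold E3
    congr 1
    have h5 : ∑ m ∈ Ioc s t, (if m ∈ PP s t then ((x : ℝ) - x1) / m else 0) * ((rho a b (c : ℕ) m : ℝ) - 1) =
        ∑ m ∈ (Ioc s t).filter (fun m => m ∈ PP s t), ((x : ℝ) - x1) / m * ((rho a b (c : ℕ) m : ℝ) - 1) := by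
      rw [sum_filter]
      refine sum_congr rfl fun m _ => ?_
      split_ifs <;> simp
    rw [h5]
    refine sum_congr ?_ fun _ _ => rfl
    ext m
    rw [mem_filter]
    constructor
    · intro h
      exact ⟨mem_Ioc.2 (mem_PP.1 h).1, h⟩
    · exact fun h => h.2
  rw [← hL] at k2 k3
  -- the exceptional set
  obtain ⟨T, hT⟩ : ∃ T : ℝ, T = x / L ^ (A + 2) := ⟨_, rfl⟩
  have hT0 : 0 < T := by rw [hT]; positivity
  have hE1n : ∀ c, 0 ≤ E1 f a b x1 x s t c := fun c => sum_nonneg fun _ _ => abs_nonneg _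
  have hE2n : ∀ c, 0 ≤ E2 a b x1 x s t c := fun c => sum_nonneg fun _ _ => abs_nonneg _
  have hE3n : ∀ c, 0 ≤ E3 a b x1 x s t c := fun c => abs_nonneg _
  have m1 := card_markov hE1n hT0 k2
  have m2 := card_markov hE2n hT0 k3
  have m3 := card_markov hE3n hT0 k4
  have hMT : C * x / L ^ A' / T = C / L ^ (A + 1) := by
    rw [hT, hA']
    have : L ^ (2 * A + 3) = L ^ (A + 1) * L ^ (A + 2) := by rw [← pow_add]; congr 1; ring
    rw [this]; field_simp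
  rw [hMT] at m1 m2 m3
  set X1 := (Icc 1 C).filter (fun c => T < E1 f a b x1 x s t c) with hX1
  set X2 := (Icc 1 C).filter (fun c => T < E2 a b x1 x s t c) with hX2
  set X3 := (Icc 1 C).filter (fun c => T < E3 a b x1 x s t c) with hX3s
  set X4 := (Icc 1 C).filter (fun c : ℕ => b ^ 2 - 4 * a * (c : ℤ) = 0) with hX4
  have m4 : #X4 ≤ 1 := by
    rw [card_le_one]
    intro c1 hc1 c2 hc2
    rw [hX4, mem_filter] at hc1 hc2
    have h4 : 4 * a * (c1 : ℤ) = 4 * a * c2 := by linarith [hc1.2, hc2.2]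
    have h5 : (c1 : ℤ) = c2 := mul_left_cancel₀ (by positivity) h4
    exact_mod_cast h5
  refine ⟨((X1 ∪ X2) ∪ X3) ∪ X4, ?_, ?_, ?_⟩
  · intro c hc
    simp only [mem_union, hX1, hX2, hX3s, hX4, mem_filter] at hc
    rcases hc with ((h | h) | h) | h <;> exact h.1
  · have h4 : #(((X1 ∪ X2) ∪ X3) ∪ X4) ≤ #X1 + #X2 + #X3 + #X4 := by
      refine (card_union_le _ _).trans ?_
      refine Nat.add_le_add_right ((card_union_le _ _).trans ?_) _
      exact Nat.add_le_add_right (card_union_le _ _) _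
    have h5 : (#(((X1 ∪ X2) ∪ X3) ∪ X4) : ℝ) ≤ #X1 + #X2 + #X3 + #X4 := by exact_mod_cast h4
    have h6 : (#X4 : ℝ) ≤ 1 := by exact_mod_cast m4
    have h7 : (C : ℝ) / L ^ (A + 1) ≤ (1 / 100) * (C / L ^ A) := by
      rw [pow_succ]
      have : (C : ℝ) / (L ^ A * L) = (1 / L) * (C / L ^ A) := by field_simp
      rw [this]
      apply mul_le_mul_of_nonneg_right _ (by positivity)
      apply one_div_le_one_div_of_le (by norm_num) f1
    have h8 : 1 ≤ (1 / 100) * ((C : ℝ) / L ^ A) := by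
      have h9 : 100 * L ^ A ≤ C := by
        have h10 : L ^ A ≤ L ^ (A + 2) := pow_le_pow_right₀ hL1 (by omega)
        have h11 : (x : ℝ) ^ ε ≤ (x : ℝ) ^ (1 / 2 + ε) := Real.rpow_le_rpow_of_exponent_le hx1' (by linarith)
        linarith
      have h10 : 0 < L ^ A := by positivity
      have h11 : (1 / 100) * ((C : ℝ) / L ^ A) = C / (100 * L ^ A) := by field_simp
      rw [h11, le_div_iff₀ (by positivity)]
      linarith
    have h9 : 0 ≤ (C : ℝ) / L ^ A := by positivity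
    linarith
  · intro c hc hcE
    simp only [mem_union, not_or] at hcE
    obtain ⟨⟨⟨q1, q2⟩, q3⟩, q4⟩ := hcE
    have q1' : E1 f a b x1 x s t c ≤ T := by
      by_contra hcon
      push Not at hcon
      exact q1 (mem_filter.2 ⟨hc, hcon⟩)
    have q2' : E2 a b x1 x s t c ≤ T := by
      by_contra hcon
      push Not at hcon
      exact q2 (mem_filter.2 ⟨hc, hcon⟩)
    have q3' : E3 a b x1 x s t c ≤ T := by
      by_contra hcon
      push Not at hcon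
      exact q3 (mem_filter.2 ⟨hc, hcon⟩)
    have q4' : b ^ 2 - 4 * a * (c : ℤ) ≠ 0 := fun h => q4 (mem_filter.2 ⟨hc, h⟩)
    have hc0 : 0 < c := by
      have := (mem_Icc.1 hc).1
      omega
    have d := det_partU hf ha hx1.le hbx1 hc0 hS2 haS q4' (hdisc c hc) hX3 (hN3 c hc) (k1 c hc)
    have hxe : (x : ℝ) ^ (1 - ε) * (x : ℝ) ^ ε = x := by
      rw [← Real.rpow_add hx0']
      calc (x : ℝ) ^ (1 - ε + ε) = (x : ℝ) ^ (1 : ℝ) := by congr 1; ring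
        _ = x := Real.rpow_one _
    have ht' : (t : ℝ) ≤ T / 100 := by
      rw [hT, div_div, le_div_iff₀ (by positivity)]
      calc (t : ℝ) * (L ^ (A + 2) * 100) = t * (100 * L ^ (A + 2)) := by ring
        _ ≤ (x : ℝ) ^ (1 - ε) * (x : ℝ) ^ ε := mul_le_mul ht f4 (by positivity) (by positivity)
        _ = x := hxe
    have hsx : (x : ℝ) / s ≤ T / 100 := by
      rw [hT, div_div]
      apply div_le_div_of_nonneg_left hx0'.le (by positivity)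
      have h4 : (x : ℝ) ^ ε ≤ s := le_trans (Real.rpow_le_rpow_of_exponent_le hx1' (by linarith)) hs
      linarith
    have h2T : 2 ≤ T / 10 := by
      rw [hT, div_div, le_div_iff₀ (by positivity)]
      have h4 : (x : ℝ) ^ ε ≤ x := by
        calc (x : ℝ) ^ ε ≤ (x : ℝ) ^ (1 : ℝ) := Real.rpow_le_rpow_of_exponent_le hx1' (by linarith)
          _ = x := Real.rpow_one _
      linarith
    have hbd : 3 * (t + (2 * (x : ℝ) / s + 2)) ≤ T := by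
      have : 2 * (x : ℝ) / s = 2 * (x / s) := by ring
      rw [this]
      linarith
    have hTA : L * L * T = x / L ^ A := by
      rw [hT, pow_add]; field_simp
    have hTp : 4 * L * T ≤ L * L * T := by
      have : 4 * L ≤ L * L := by nlinarith
      exact mul_le_mul_of_nonneg_right this hT0.le
    constructor
    · refine d.1.trans ?_
      rw [← hTA]
      nlinarith
    · refine d.2.trans ?_
      rw [← hTA]
      have h4 : (1 + Lm s t) * (E3 a b x1 x s t c + 2 * t) ≤ (2 + L) * (T + 2 * (T / 100)) := by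
        apply mul_le_mul (by linarith) (by linarith) _ (by linarith)
        have : (0 : ℝ) ≤ t := Nat.cast_nonneg _
        linarith [hE3n c]
      nlinarith

end Pool.Agent.N791.U
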