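import Mathlib
import Pool.Agent.N791.U.Tr3

/-!
Transfers with general densities, uniformly for a family of statements (helper791).
-/

set_option autoImplicit false

namespace Pool.Agent.N791.U

open Finset Filter Topology Pool.Agent.N792

/-- a statement about `x`, `C`, `b`, `c` holds for all but `η(x) C` of the `c ≤ C`, for all `b² ≤ Λ C`, `x^γ ≤ C ≤ x` -/
def UnifI {ι : Type} (Λ γ : ℝ) (η : ℕ → ℝ) (Q : ι → ℕ → ℕ → ℤ → ℤ → Prop) : Prop :=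
  ∃ x0 : ℕ, ∀ i : ι, ∀ x : ℕ, x0 ≤ x → ∀ b : ℤ, ∀ C : ℕ, (b : ℝ) ^ 2 ≤ Λ * C → (x : ℝ) ^ γ ≤ C → C ≤ x →
    ∃ Ex ⊆ Icc 1 C, (#Ex : ℝ) ≤ η x * C ∧ ∀ c ∈ Icc 1 C, c ∉ Ex → Q i x C b c

/-- **Negative constant terms.** -/
theorem neg_transferI {ι : Type} (a : ℤ) (ha : 0 < a) (b : ℤ) (γ : ℝ) (η : ℕ → ℝ) (hγ0 : 1 / 2 ≤ γ) (hγ1 : γ ≤ 1)
    (Q : ι → ℕ → ℕ → ℤ → ℤ → Prop) (hQ : UnifI (5 * a) γ η Q) :
    ∃ x0 : ℕ, ∀ i : ι, ∀ x : ℕ, x0 ≤ x → ∀ K : ℕ, (x : ℝ) ^ γ ≤ K → K ≤ x →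
    ∃ Ex ⊆ Icc 1 K, (#Ex : ℝ) ≤ η (3 * a.toNat * x) * (3 * a) * K ∧ ∀ c ∈ Icc 1 K, c ∉ Ex → ∃ k : ℕ, k ^ 2 ≤ 3 * K ∧ k ≤ K ∧
      Q i (3 * a.toNat * x) (3 * a.toNat * K) (b + 2 * a * k) (-(c : ℤ) + b * k + a * k ^ 2) := by
  classical
  obtain ⟨x0, hQ0⟩ := hQ
  obtain ⟨A, hA⟩ : ∃ A : ℕ, (A : ℤ) = a := ⟨a.toNat, by omega⟩
  have hAt : a.toNat = A := by omega
  have hA1 : 1 ≤ A := by omega
  obtain ⟨B, hB⟩ : ∃ B : ℕ, B = b.natAbs := ⟨_, rfl⟩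
  have hbB : |b| ≤ B := by rw [hB]; simp
  refine ⟨x0 + (100 + 16 * B ^ 2) ^ 2, ?_⟩
  intro i x hx K hK1 hK2
  have hQ := hQ0 i
  have hx1 : 1 ≤ x := by
    have h0 : 0 < (100 + 16 * B ^ 2) ^ 2 := by positivity
    omega
  have hx1' : (1 : ℝ) ≤ x := by exact_mod_cast hx1
  -- K is large
  have hKb : 100 + 16 * B ^ 2 ≤ K := by
    have h1 : (((100 + 16 * B ^ 2 : ℕ) : ℝ)) ≤ (x : ℝ) ^ (1 / 2 : ℝ) := by
      rw [← Real.sqrt_eq_rpow]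
      apply Real.le_sqrt_of_sq_le
      exact_mod_cast (by omega : (100 + 16 * B ^ 2) ^ 2 ≤ x)
    have h2 : (x : ℝ) ^ (1 / 2 : ℝ) ≤ (x : ℝ) ^ γ := Real.rpow_le_rpow_of_exponent_le hx1' hγ0
    exact_mod_cast (h1.trans h2).trans hK1
  obtain ⟨k, hk1, hk2, hk3⟩ := sqrt_facts (K := K) (by omega)
  have hkB : 4 * B ≤ k := by
    by_contra hcon
    push Not at hcon
    have : k ^ 2 ≤ (4 * B) ^ 2 := Nat.pow_le_pow_left hcon.le 2
    nlinarith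
  obtain ⟨C, hC⟩ : ∃ C : ℕ, C = 3 * A * K := ⟨_, rfl⟩
  have hAr : (A : ℝ) = a := by exact_mod_cast hA
  have hA1r : (1 : ℝ) ≤ A := by exact_mod_cast hA1
  -- real bounds
  have hkr1 : (2 : ℝ) * K < k ^ 2 := by exact_mod_cast hk1
  have hkr2 : (10 : ℝ) * k ^ 2 ≤ 24 * K := by exact_mod_cast hk2
  have hbr : |(b : ℝ)| ≤ k / 4 := by
    have h1 : |(b : ℝ)| ≤ B := by exact_mod_cast hbB
    have h2 : (4 : ℝ) * B ≤ k := by exact_mod_cast hkB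
    linarith
  have hk0 : (0 : ℝ) ≤ k := Nat.cast_nonneg _
  have hb' : ((b + 2 * a * k : ℤ) : ℝ) ^ 2 ≤ 5 * a * C := by
    push_cast
    rw [hC, ← hAr]
    push_cast
    have h1 : |(b : ℝ) + 2 * A * k| ≤ 9 / 4 * (A * k) := by
      refine (abs_add_le _ _).trans ?_
      rw [abs_of_nonneg (by positivity : (0 : ℝ) ≤ 2 * A * k)]
      nlinarith
    have h2 := sq_le_sq' (by linarith [neg_abs_le ((b : ℝ) + 2 * A * k)]) ((le_abs_self _).trans h1)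
    nlinarith [mul_nonneg (sq_nonneg (A : ℝ)) (sub_nonneg.2 hkr2)]
  have hxC : (((3 * A * x : ℕ) : ℝ)) ^ γ ≤ C := by
    rw [hC]
    push_cast
    rw [Real.mul_rpow (by positivity) (by positivity)]
    have h1 : (3 * (A : ℝ)) ^ γ ≤ 3 * A := by
      have := Real.rpow_le_rpow_of_exponent_le (x := 3 * (A : ℝ)) (by linarith) hγ1
      rwa [Real.rpow_one] at this
    exact mul_le_mul h1 hK1 (by positivity) (by positivity)
  obtain ⟨E, hE1, hE2, hE3⟩ := hQ (3 * A * x) (by nlinarith [Nat.zero_le ((100 + 16 * B ^ 2) ^ 2)]) (b + 2 * a * k) C hb' hxC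
    (by rw [hC]; exact Nat.mul_le_mul_left _ hK2)
  refine ⟨(Icc 1 K).filter (fun c : ℕ => (-(c : ℤ) + b * k + a * k ^ 2).toNat ∈ E), filter_subset _ _, ?_, ?_⟩
  · have hpos : ∀ c ∈ Icc 1 K, 0 < -(c : ℤ) + b * k + a * k ^ 2 := by
      intro c hc
      have hcK := (mem_Icc.1 hc).2
      have h1 : (c : ℝ) ≤ K := by exact_mod_cast hcK
      have h3 : (0 : ℝ) < -(c : ℝ) + b * k + a * k ^ 2 := by
        rw [← hAr]
        have h4 : -(k / 4 * k) ≤ (b : ℝ) * k := by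
          have := mul_le_mul_of_nonneg_right (neg_abs_le (b : ℝ)) hk0
          nlinarith
        nlinarith
      exact_mod_cast h3
    have hcard : #((Icc 1 K).filter (fun c : ℕ => (-(c : ℤ) + b * k + a * k ^ 2).toNat ∈ E)) ≤ #E := by
      refine card_le_card_of_injOn (fun c : ℕ => (-(c : ℤ) + b * k + a * k ^ 2).toNat) ?_ ?_
      · intro c hc
        exact (mem_filter.1 hc).2
      · intro c hc c' hc' h
        have h1 := hpos c (mem_filter.1 hc).1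
        have h2 := hpos c' (mem_filter.1 hc').1
        simp only at h
        omega
    have h1 : (#((Icc 1 K).filter (fun c : ℕ => (-(c : ℤ) + b * k + a * k ^ 2).toNat ∈ E)) : ℝ) ≤ #E := by exact_mod_cast hcard
    refine h1.trans (hE2.trans (le_of_eq ?_))
    rw [hC, ← hAr, hAt]
    push_cast
    ring
  · intro c hc hcE
    have hcK := mem_Icc.1 hc
    refine ⟨k, by omega, hk3, ?_⟩
    have h1 : (c : ℝ) ≤ K := by exact_mod_cast hcK.2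
    have h0 : (1 : ℝ) ≤ c := by exact_mod_cast hcK.1
    have h4 : -(k / 4 * k) ≤ (b : ℝ) * k := by
      have := mul_le_mul_of_nonneg_right (neg_abs_le (b : ℝ)) hk0
      nlinarith
    have h4' : (b : ℝ) * k ≤ k / 4 * k := by
      have := mul_le_mul_of_nonneg_right (le_abs_self (b : ℝ)) hk0
      nlinarith
    have h3 : 0 < -(c : ℤ) + b * k + a * k ^ 2 := by
      have h3 : (0 : ℝ) < -(c : ℝ) + b * k + a * k ^ 2 := by
        rw [← hAr]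
        nlinarith
      exact_mod_cast h3
    have h5 : -(c : ℤ) + b * k + a * k ^ 2 ≤ C := by
      have h3 : -(c : ℝ) + b * k + a * k ^ 2 ≤ C := by
        rw [hC, ← hAr]
        push_cast
        nlinarith [mul_nonneg (sub_nonneg.2 hA1r) (sq_nonneg (k : ℝ)), mul_nonneg (Nat.cast_nonneg (α := ℝ) A) (sub_nonneg.2 hkr2)]
      exact_mod_cast h3
    obtain ⟨n, hn⟩ := Int.eq_ofNat_of_zero_le h3.le
    rw [hAt, hn, ← hC]
    apply hE3 n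
    · rw [mem_Icc]
      constructor <;> omega
    · intro hcon
      apply hcE
      rw [mem_filter]
      refine ⟨hc, ?_⟩
      rw [hn]
      simpa using hcon

/-- **Transfer to pairs.** -/
theorem pair_transferI {ι : Type} (a : ℤ) (ha : 0 < a) (γ : ℝ) (η : ℕ → ℝ) (hη : ∀ n, 0 ≤ η n) (hγ1 : γ ≤ 1)
    (Q : ι → ℕ → ℕ → ℤ → ℤ → Prop) (hQ : UnifI (3 * a) γ η Q) :
    ∃ H0 : ℕ, ∀ i : ι, ∀ H : ℕ, H0 ≤ H → ∀ N : ℕ, H ^ 2 ≤ N → (N : ℝ) ^ γ ≤ (H : ℝ) ^ 2 →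
    ∀ δ : ℝ, 0 < δ → δ ≤ 1 → 1 ≤ δ * H →
    ∃ Ex ⊆ Icc (-(H : ℤ)) H ×ˢ Icc (-(H : ℤ)) H,
      (#Ex : ℝ) ≤ (9 * δ + 40 * a ^ 3 * (η (2 * a.toNat * N) / δ)) * H ^ 2 ∧
      ∀ q ∈ Icc (-(H : ℤ)) H ×ˢ Icc (-(H : ℤ)) H, q ∉ Ex → |sh a H q.1| ≤ 2 * H ∧
        Q i (2 * a.toNat * N) (2 * a.toNat * H ^ 2) (q.1 + 2 * a * sh a H q.1)
          (q.2 + q.1 * sh a H q.1 + a * sh a H q.1 ^ 2) := by
  classical
  obtain ⟨x0, hQ0⟩ := hQ
  obtain ⟨A, hA⟩ : ∃ A : ℕ, (A : ℤ) = a := ⟨a.toNat, by omega⟩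
  have hAt : a.toNat = A := by omega
  have hA1 : 1 ≤ A := by omega
  have hAr : (A : ℝ) = a := by exact_mod_cast hA
  have hA1r : (1 : ℝ) ≤ A := by exact_mod_cast hA1
  have haR : (1 : ℝ) ≤ a := by rw [← hAr]; exact hA1r
  refine ⟨x0 + 10, ?_⟩
  intro i H hH N hHN hN δ hδ hδ1 hHδ
  have hQ := hQ0 i
  have hH10 : (10 : ℝ) ≤ H := by exact_mod_cast (by omega : 10 ≤ H)
  have hNx : x0 ≤ N := by nlinarith
  obtain ⟨C, hC⟩ : ∃ C : ℕ, C = 2 * A * H ^ 2 := ⟨_, rfl⟩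
  have hCr : (C : ℝ) = 2 * a * H ^ 2 := by rw [hC, ← hAr]; push_cast; ring
  have key : ∀ r : ℤ, 0 ≤ r → r < 2 * a → ∃ Ex ⊆ Icc 1 C, (#Ex : ℝ) ≤ η (2 * A * N) * C ∧
      ∀ c ∈ Icc 1 C, c ∉ Ex → Q i (2 * A * N) C (r + 2 * a * H) c := by
    intro r hr0 hr1
    apply hQ (2 * A * N) (by nlinarith)
    · push_cast
      rw [hCr]
      have h1 : (0 : ℝ) ≤ r := by exact_mod_cast hr0
      have h2 : (r : ℝ) ≤ 2 * a := by exact_mod_cast hr1.le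
      have h3 : (r : ℝ) + 2 * a * H ≤ 2 * a * (H + 1) := by linarith
      have h4 : ((r : ℝ) + 2 * a * H) ^ 2 ≤ (2 * a * (H + 1)) ^ 2 :=
        pow_le_pow_left₀ (by positivity) h3 2
      have h5 : 2 * ((H : ℝ) + 1) ^ 2 ≤ 3 * H ^ 2 := by nlinarith
      calc ((r : ℝ) + 2 * a * H) ^ 2 ≤ (2 * a * (H + 1)) ^ 2 := h4
        _ = 2 * a ^ 2 * (2 * ((H : ℝ) + 1) ^ 2) := by ring
        _ ≤ 2 * a ^ 2 * (3 * H ^ 2) := mul_le_mul_of_nonneg_left h5 (by positivity)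
        _ = _ := by ring
    · rw [hCr]
      push_cast
      rw [hAr, Real.mul_rpow (by positivity) (by positivity)]
      have h1 : (2 * (a : ℝ)) ^ γ ≤ 2 * a := by
        have := Real.rpow_le_rpow_of_exponent_le (x := 2 * (a : ℝ)) (by linarith) hγ1
        rwa [Real.rpow_one] at this
      exact mul_le_mul h1 hN (by positivity) (by positivity)
    · rw [hC]
      exact Nat.mul_le_mul_left _ hHN
  have key2 : ∀ r : ℤ, ∃ Ex : Finset ℕ, (#Ex : ℝ) ≤ η (2 * A * N) * C ∧ (0 ≤ r → r < 2 * a →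
      ∀ c ∈ Icc 1 C, c ∉ Ex → Q i (2 * A * N) C (r + 2 * a * H) c) := by
    intro r
    by_cases hr : 0 ≤ r ∧ r < 2 * a
    · obtain ⟨E, -, h1, h2⟩ := key r hr.1 hr.2
      exact ⟨E, h1, fun _ _ => h2⟩
    · refine ⟨∅, ?_, fun h1 h2 => absurd ⟨h1, h2⟩ hr⟩
      rw [card_empty, Nat.cast_zero]
      exact mul_nonneg (hη _) (Nat.cast_nonneg _)
  choose E hE1 hE2 using key2
  refine ⟨(Icc (-(H : ℤ)) H ×ˢ Icc (-(H : ℤ)) H).filter
      (fun q : ℤ × ℤ => (cc a H q.1 q.2).toNat ∈ E (q.1 % (2 * a))), filter_subset _ _, ?_, ?_⟩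
  · refine (card_exc ha (by omega) E hδ hE1 hHδ hδ1).trans ?_
    rw [hCr, hAt]
    apply le_of_eq
    field_simp
    ring
  · intro q hq hqE
    have hq' := hq
    rw [mem_product, mem_Icc, mem_Icc] at hq'
    have hb : |q.1| ≤ (H : ℤ) := abs_le.2 hq'.1
    have hc : |q.2| ≤ (H : ℤ) := abs_le.2 hq'.2
    refine ⟨sh_bd ha (by omega) hb, ?_⟩
    obtain ⟨k1, k2⟩ := cc_bd ha (by omega : 4 ≤ H) hb hc
    have h2a : 0 < 2 * a := by omega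
    have h := hE2 (q.1 % (2 * a)) (Int.emod_nonneg _ h2a.ne') (Int.emod_lt_of_pos _ h2a) (cc a H q.1 q.2).toNat ?_ ?_
    · rw [← sh_b a H q.1] at h
      have h3 : (((cc a H q.1 q.2).toNat : ℕ) : ℤ) = q.2 + q.1 * sh a H q.1 + a * sh a H q.1 ^ 2 := by
        have : (((cc a H q.1 q.2).toNat : ℕ) : ℤ) = cc a H q.1 q.2 := by omega
        rw [this]
        rfl
      rw [h3] at h
      rw [hAt, ← hC]
      exact h
    · rw [mem_Icc]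
      refine ⟨by omega, ?_⟩
      have h4 : (((cc a H q.1 q.2).toNat : ℕ) : ℤ) ≤ (C : ℤ) := by
        have : (((cc a H q.1 q.2).toNat : ℕ) : ℤ) = cc a H q.1 q.2 := by omega
        rw [this, hC]
        push_cast
        rw [hA]
        exact k2
      exact_mod_cast h4
    · intro hcon
      exact hqE (mem_filter.2 ⟨hq, hcon⟩)

end Pool.Agent.N791.U
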