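import Mathlib
import Pool.Agent.N791.U.L3
import Pool.Agent.N791.U.E2F

/-!
The Liouville function: negative constant terms, and almost all pairs (helper791).
-/

set_option autoImplicit false

namespace Pool.Agent.N791.U

open Finset Filter Topology Pool.Agent.N792 Pool.Agent.N792.Fn124
open Pool.Agent.N791.C2 (Cls)

/-- **The Liouville function, negative constant terms.** -/
theorem neg_lm {f : ℕ → ℝ} (hf : Cls f) (a : ℤ) (ha : 0 < a) (b : ℤ) (ε : ℝ) (hε : 0 < ε) (R A : ℕ) (hR0 : 1 ≤ R) :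
    ∃ x0 : ℕ, ∀ i : ℕ × ℕ, ∀ x : ℕ, x0 ≤ x → ∀ K : ℕ, (x : ℝ) ^ (1 / 2 + ε) ≤ K → K ≤ x →
    ∃ Ex ⊆ Icc 1 K, (#Ex : ℝ) ≤ K / Real.log x ^ A ∧
      ∀ c ∈ Icc 1 K, c ∉ Ex → QLm f a ε R A i x K b (-(c : ℤ)) := by
  have haR : (1 : ℝ) ≤ a := by exact_mod_cast ha
  obtain ⟨ε0, hε0⟩ : ∃ ε0 : ℝ, ε0 = min (ε / 8) (1 / 100) := ⟨_, rfl⟩
  have e1 : 0 < ε0 := by rw [hε0]; exact lt_min (by positivity) (by norm_num)
  have e2 : ε0 ≤ ε / 8 := by rw [hε0]; exact min_le_left _ _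
  have e3 : ε0 ≤ 1 / 100 := by rw [hε0]; exact min_le_right _ _
  obtain ⟨A', hA'⟩ : ∃ A' : ℕ, A' = A + 1 := ⟨_, rfl⟩
  obtain ⟨n, hn⟩ : ∃ n : ℕ, n = a.toNat := ⟨_, rfl⟩
  have hnr : (n : ℝ) = a := by
    have : ((a.toNat : ℕ) : ℤ) = a := by omega
    rw [hn]
    exact_mod_cast this
  have hn1 : 1 ≤ n := by omega
  obtain ⟨x0, hT⟩ := neg_transferI a ha b (1 / 2 + ε0) (fun x => 1 / Real.log x ^ A') (by linarith) (by linarith)
    (QLm f a ε0 (6 * n * R) A') (unif_lm hf a ha (5 * a) (by linarith) ε0 e1 e3 (6 * n * R) A'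
      (Nat.mul_pos (Nat.mul_pos (by norm_num) hn1) hR0))
  obtain ⟨y1, hy1⟩ := evN' _ (Real.tendsto_log_atTop.eventually_ge_atTop (3 * a + 1))
  obtain ⟨y3, hy3⟩ := evN' _ ((tendsto_rpow_atTop (by linarith : 0 < ε / 2)).eventually_ge_atTop (3 * a))
  obtain ⟨y4, hy4⟩ := evN' _ ((tendsto_rpow_atTop (by norm_num : (0 : ℝ) < 1 / 2)).eventually_ge_atTop (4 * R + 4))
  refine ⟨x0 + y1 + y3 + y4 + 3, fun i x hx K hK1 hK2 => ?_⟩
  have hxr : (3 : ℝ) ≤ x := by exact_mod_cast (by omega : 3 ≤ x)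
  have g1 := hy1 x (by omega)
  have g3 := hy3 x (by omega)
  have g4 := hy4 x (by omega)
  obtain ⟨L, hL⟩ : ∃ L : ℝ, L = Real.log x := ⟨_, rfl⟩
  rw [← hL] at g1 ⊢
  have hL1 : 1 ≤ L := by linarith
  have hL0 : 0 < L := by linarith
  obtain ⟨Ex, k1, k2, k3⟩ := hT i x (by omega) K ((Real.rpow_le_rpow_of_exponent_le (by linarith) (by linarith)).trans hK1) hK2
  rw [← hn] at k2 k3
  have hx' : ((3 * n * x : ℕ) : ℝ) = 3 * a * x := by push_cast; rw [hnr]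
  have hNx' : (x : ℝ) ≤ ((3 * n * x : ℕ) : ℝ) := by rw [hx']; nlinarith
  have hlogx' : L ≤ Real.log ((3 * n * x : ℕ) : ℝ) := by
    rw [hL]; exact Real.log_le_log (by linarith) hNx'
  have hK0 : (0 : ℝ) ≤ K := Nat.cast_nonneg _
  have hpow : 3 * (a : ℝ) * L ^ A ≤ L ^ A' := by
    rw [hA', pow_succ, mul_comm]
    exact mul_le_mul_of_nonneg_left (by linarith) (by positivity)
  refine ⟨Ex, k1, ?_, ?_⟩
  · refine k2.trans ?_
    have f1 : 1 / Real.log ((3 * n * x : ℕ) : ℝ) ^ A' ≤ 1 / L ^ A' :=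
      one_div_le_one_div_of_le (by positivity) (pow_le_pow_left₀ hL0.le hlogx' _)
    calc 1 / Real.log ((3 * n * x : ℕ) : ℝ) ^ A' * (3 * a) * K ≤ 1 / L ^ A' * (3 * a) * K := by gcongr
      _ ≤ K / L ^ A := by
        rw [le_div_iff₀ (by positivity)]
        calc 1 / L ^ A' * (3 * a) * K * L ^ A = K * ((3 * a * L ^ A) / L ^ A') := by ring
          _ ≤ K * 1 := by
            apply mul_le_mul_of_nonneg_left _ hK0
            rw [div_le_one (by positivity)]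
            exact hpow
          _ = _ := by ring
  · intro c hc hcE
    obtain ⟨k, hk1, hk2, hQ⟩ := k3 c hc hcE
    have hnN : 3 * x ≤ 3 * n * x := by nlinarith
    refine QLm_shift (s := (k : ℤ)) (x' := 3 * n * x) (C' := 3 * n * K) (R' := 6 * n * R) (A' := A') (ε' := ε0)
      (by simp only [Int.natAbs_natCast]; omega) ?_ ?_ ?_ ?_ ?_ hQ
    · intro u hu
      have hku : 2 * k ≤ u := by
        by_contra hcon
        push Not at hcon
        have t1 : (x : ℝ) ≤ R * (2 * k) := by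
          have h1 : (x : ℝ) ≤ R * u := by exact_mod_cast hu
          have h2 : (u : ℝ) ≤ 2 * k := by exact_mod_cast hcon.le
          exact h1.trans (mul_le_mul_of_nonneg_left h2 (Nat.cast_nonneg _))
        have t2 : (k : ℝ) ≤ 2 * (x : ℝ) ^ (1 / 2 : ℝ) := by
          rw [← Real.sqrt_eq_rpow]
          have q1 : (k : ℝ) ^ 2 ≤ 4 * x := by exact_mod_cast (by omega : k ^ 2 ≤ 4 * x)
          have q2 : (k : ℝ) ≤ √(4 * x) := Real.le_sqrt_of_sq_le q1
          rw [Real.sqrt_mul (by norm_num), show (4 : ℝ) = 2 ^ 2 by norm_num, Real.sqrt_sq (by norm_num)] at q2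
          exact q2
        have t3 : (x : ℝ) ^ (1 / 2 : ℝ) * (x : ℝ) ^ (1 / 2 : ℝ) = x := by
          rw [← Real.rpow_add (by linarith)]; norm_num
        have t4 : 0 < (x : ℝ) ^ (1 / 2 : ℝ) := by positivity
        have t5 : (x : ℝ) ≤ R * (4 * (x : ℝ) ^ (1 / 2 : ℝ)) := by
          refine t1.trans (mul_le_mul_of_nonneg_left (by linarith) (Nat.cast_nonneg _))
        have t6 : (x : ℝ) ^ (1 / 2 : ℝ) * (x : ℝ) ^ (1 / 2 : ℝ) ≤ (4 * R) * (x : ℝ) ^ (1 / 2 : ℝ) := by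
          rw [t3]; linarith
        have t7 := le_of_mul_le_mul_right t6 t4
        linarith
      refine ⟨by omega, ?_⟩
      have hu2 : u ≤ 2 * ((u : ℤ) - k).toNat := by omega
      calc 3 * n * x ≤ 3 * n * (R * u) := Nat.mul_le_mul_left _ hu
        _ ≤ 3 * n * (R * (2 * ((u : ℤ) - k).toNat)) := Nat.mul_le_mul_left _ (Nat.mul_le_mul_left _ hu2)
        _ = 6 * n * R * ((u : ℤ) - k).toNat := by ring
    · intro y hy
      rw [hx', Real.mul_rpow (by positivity) (by positivity)]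
      push_cast at hy ⊢
      rw [hnr]
      have t1 : (3 * (a : ℝ)) ^ (3 / 2 + ε0) ≤ (3 * a) * (3 * a) := by
        calc (3 * (a : ℝ)) ^ (3 / 2 + ε0) ≤ (3 * (a : ℝ)) ^ (2 : ℝ) :=
              Real.rpow_le_rpow_of_exponent_le (by linarith) (by linarith)
          _ = _ := by rw [Real.rpow_two]; ring
      have t2 : (3 * (a : ℝ)) * (x : ℝ) ^ (3 / 2 + ε0) ≤ (x : ℝ) ^ (3 / 2 + ε) := by
        calc (3 * (a : ℝ)) * (x : ℝ) ^ (3 / 2 + ε0) ≤ (x : ℝ) ^ (ε / 2) * (x : ℝ) ^ (3 / 2 + ε0) := by gcongr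
          _ = (x : ℝ) ^ (ε / 2 + (3 / 2 + ε0)) := by rw [← Real.rpow_add (by linarith)]
          _ ≤ (x : ℝ) ^ (3 / 2 + ε) := Real.rpow_le_rpow_of_exponent_le (by linarith) (by linarith)
      calc (3 * (a : ℝ)) ^ (3 / 2 + ε0) * (x : ℝ) ^ (3 / 2 + ε0) ≤ ((3 * a) * (3 * a)) * (x : ℝ) ^ (3 / 2 + ε0) := by gcongr
        _ = (3 * a) * ((3 * (a : ℝ)) * (x : ℝ) ^ (3 / 2 + ε0)) := by ring
        _ ≤ (3 * a) * ((K : ℝ) * y) := mul_le_mul_of_nonneg_left (t2.trans hy) (by positivity)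
        _ = _ := by ring
    · rw [hx', Real.mul_rpow (by positivity) (by positivity)]
      calc (3 * (a : ℝ)) ^ (2 / 3 + ε0) * (x : ℝ) ^ (2 / 3 + ε0) ≤ (3 * (a : ℝ)) ^ (1 : ℝ) * (x : ℝ) ^ (2 / 3 + ε0) := by
            apply mul_le_mul_of_nonneg_right _ (by positivity)
            exact Real.rpow_le_rpow_of_exponent_le (by linarith) (by linarith)
        _ ≤ (x : ℝ) ^ (ε / 2) * (x : ℝ) ^ (2 / 3 + ε0) := by
            apply mul_le_mul_of_nonneg_right _ (by positivity)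
            rw [Real.rpow_one]; exact g3
        _ = (x : ℝ) ^ (ε / 2 + (2 / 3 + ε0)) := by rw [← Real.rpow_add (by linarith)]
        _ ≤ (x : ℝ) ^ (2 / 3 + ε) := Real.rpow_le_rpow_of_exponent_le (by linarith) (by linarith)
    · calc (x : ℝ) ^ (1 - ε) ≤ (x : ℝ) ^ (1 - ε0) := Real.rpow_le_rpow_of_exponent_le (by linarith) (by linarith)
        _ ≤ _ := Real.rpow_le_rpow (Nat.cast_nonneg _) hNx' (by linarith)
    · rw [← hL]
      calc ((3 * n * x : ℕ) : ℝ) / Real.log ((3 * n * x : ℕ) : ℝ) ^ A' ≤ ((3 * n * x : ℕ) : ℝ) / L ^ A' :=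
            div_le_div_of_nonneg_left (Nat.cast_nonneg _) (by positivity) (pow_le_pow_left₀ hL0.le hlogx' _)
        _ = 3 * a * x / L ^ A' := by rw [hx']
        _ ≤ x / L ^ A := by
          rw [div_le_div_iff₀ (by positivity) (by positivity)]
          calc 3 * (a : ℝ) * x * L ^ A = x * (3 * a * L ^ A) := by ring
            _ ≤ x * L ^ A' := mul_le_mul_of_nonneg_left hpow (by positivity)

/-- **The Liouville function for almost all pairs.** -/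
theorem pair_lm {f : ℕ → ℝ} (hf : Cls f) (a : ℤ) (ha : 0 < a) (ε : ℝ) (hε : 0 < ε) (R A : ℕ) (hR0 : 1 ≤ R) :
    ∃ H0 : ℕ, ∀ i : ℕ × ℕ, ∀ H : ℕ, H0 ≤ H → ∀ N : ℕ, H ^ 2 ≤ N → (N : ℝ) ≤ (H : ℝ) ^ (4 - ε) →
    ∃ Ex ⊆ Icc (-(H : ℤ)) H ×ˢ Icc (-(H : ℤ)) H, (#Ex : ℝ) ≤ H ^ 2 / Real.log H ^ A ∧
      ∀ q ∈ Icc (-(H : ℤ)) H ×ˢ Icc (-(H : ℤ)) H, q ∉ Ex → QLm f a ε R A i N (H ^ 2) q.1 q.2 := by
  have haR : (1 : ℝ) ≤ a := by exact_mod_cast ha
  obtain ⟨ε0, hε0⟩ : ∃ ε0 : ℝ, ε0 = min (ε / 8) (1 / 100) := ⟨_, rfl⟩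
  have e1 : 0 < ε0 := by rw [hε0]; exact lt_min (by positivity) (by norm_num)
  have e2 : ε0 ≤ ε / 8 := by rw [hε0]; exact min_le_left _ _
  have e3 : ε0 ≤ 1 / 100 := by rw [hε0]; exact min_le_right _ _
  obtain ⟨A', hA'⟩ : ∃ A' : ℕ, A' = 2 * A + 3 := ⟨_, rfl⟩
  obtain ⟨n, hn⟩ : ∃ n : ℕ, n = a.toNat := ⟨_, rfl⟩
  have hnr : (n : ℝ) = a := by
    have : ((a.toNat : ℕ) : ℤ) = a := by omega
    rw [hn]
    exact_mod_cast this
  have hn1 : 1 ≤ n := by omega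
  obtain ⟨H0, hT⟩ := pair_transferI a ha (1 / 2 + ε0) (fun x => 1 / Real.log x ^ A')
    (fun x => div_nonneg zero_le_one (pow_nonneg (Real.log_natCast_nonneg x) _)) (by linarith)
    (QLm f a ε0 (4 * n * R) A') (unif_lm hf a ha (3 * a) (by linarith) ε0 e1 e3 (4 * n * R) A'
      (Nat.mul_pos (Nat.mul_pos (by norm_num) hn1) hR0))
  obtain ⟨y1, hy1⟩ := evN' _ (Real.tendsto_log_atTop.eventually_ge_atTop (50 * a ^ 3 + 10))
  obtain ⟨y2, hy2⟩ := evN' _ (ev_pow' (A + 1) ((4 : ℝ) ^ (A + 1)) 1 (by norm_num))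
  obtain ⟨y3, hy3⟩ := evN' _ ((tendsto_rpow_atTop (by linarith : 0 < ε / 2)).eventually_ge_atTop (2 * a))
  refine ⟨H0 + y1 + y2 + y3 + 4 * R + 4, fun i H hH N hN1 hN2 => ?_⟩
  have hH4 : 4 ≤ H := by omega
  have hHr : (4 : ℝ) ≤ H := by exact_mod_cast hH4
  have hHN : H ≤ N := by nlinarith
  have hNr : (4 : ℝ) ≤ N := by exact_mod_cast hH4.trans hHN
  have g1 := hy1 N (by omega)
  have g2 := hy2 H (by omega)
  have g3 := hy3 N (by omega)
  obtain ⟨L, hL⟩ : ∃ L : ℝ, L = Real.log N := ⟨_, rfl⟩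
  rw [← hL] at g1
  have ha3 : (0 : ℝ) ≤ 50 * a ^ 3 := by positivity
  have hL10 : 10 ≤ L := by linarith
  have hL0 : 0 < L := by linarith
  -- log N ≤ 4 log H
  have hNH4 : (N : ℝ) ≤ (H : ℝ) ^ (4 : ℝ) :=
    hN2.trans (Real.rpow_le_rpow_of_exponent_le (by linarith) (by linarith))
  have hLH : L ≤ 4 * Real.log H := by
    rw [hL, ← Real.log_rpow (by linarith)]
    exact Real.log_le_log (by linarith) hNH4
  have hHL : Real.log H ≤ L := by
    rw [hL]; exact Real.log_le_log (by linarith) (by exact_mod_cast hHN)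
  have hlogH : 0 < Real.log H := Real.log_pos (by linarith)
  obtain ⟨δ, hδ⟩ : ∃ δ : ℝ, δ = 1 / L ^ (A + 1) := ⟨_, rfl⟩
  have d1 : 0 < δ := by rw [hδ]; positivity
  have d2 : δ ≤ 1 := by
    rw [hδ, div_le_one (by positivity)]
    exact one_le_pow₀ (by linarith)
  have d3 : 1 ≤ δ * H := by
    rw [hδ, one_div, inv_mul_eq_div, le_div_iff₀ (by positivity), one_mul]
    rw [Real.rpow_one] at g2
    refine le_trans ?_ g2
    rw [← mul_pow]
    exact pow_le_pow_left₀ hL0.le hLH _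
  have hNγ : (N : ℝ) ^ (1 / 2 + ε0) ≤ (H : ℝ) ^ 2 := by
    calc (N : ℝ) ^ (1 / 2 + ε0) ≤ ((H : ℝ) ^ (4 - ε)) ^ (1 / 2 + ε0) :=
          Real.rpow_le_rpow (Nat.cast_nonneg _) hN2 (by linarith)
      _ = (H : ℝ) ^ ((4 - ε) * (1 / 2 + ε0)) := by rw [← Real.rpow_mul (by linarith)]
      _ ≤ (H : ℝ) ^ (2 : ℝ) := Real.rpow_le_rpow_of_exponent_le (by linarith) (by nlinarith)
      _ = _ := by rw [Real.rpow_two]
  obtain ⟨Ex, k1, k2, k3⟩ := hT i H (by omega) N hN1 hNγ δ d1 d2 d3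
  rw [← hn] at k2 k3
  have hx' : ((2 * n * N : ℕ) : ℝ) = 2 * a * N := by push_cast; rw [hnr]
  have hNx' : (N : ℝ) ≤ ((2 * n * N : ℕ) : ℝ) := by rw [hx']; nlinarith
  have hlogx' : L ≤ Real.log ((2 * n * N : ℕ) : ℝ) := by
    rw [hL]; exact Real.log_le_log (by linarith) hNx'
  refine ⟨Ex, k1, ?_, ?_⟩
  · refine k2.trans ?_
    have f1 : 1 / Real.log ((2 * n * N : ℕ) : ℝ) ^ A' ≤ 1 / L ^ A' :=
      one_div_le_one_div_of_le (by positivity) (pow_le_pow_left₀ hL0.le hlogx' _)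
    have f2 : 1 / Real.log ((2 * n * N : ℕ) : ℝ) ^ A' / δ ≤ 1 / L ^ (A + 2) := by
      rw [div_le_iff₀ d1, hδ, div_mul_div_comm, one_mul, ← pow_add]
      have : A + 2 + (A + 1) = A' := by omega
      rw [this]
      exact f1
    have f3 : 9 * δ + 40 * (a : ℝ) ^ 3 * (1 / Real.log ((2 * n * N : ℕ) : ℝ) ^ A' / δ) ≤ 1 / L ^ A := by
      have f4 : 40 * (a : ℝ) ^ 3 * (1 / Real.log ((2 * n * N : ℕ) : ℝ) ^ A' / δ) ≤ 40 * (a : ℝ) ^ 3 * (1 / L ^ (A + 2)) :=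
        mul_le_mul_of_nonneg_left f2 (by positivity)
      have f5 : 40 * (a : ℝ) ^ 3 * (1 / L ^ (A + 2)) ≤ 1 / L ^ (A + 1) := by
        have : 40 * (a : ℝ) ^ 3 * (1 / L ^ (A + 2)) = (40 * (a : ℝ) ^ 3 / L) * (1 / L ^ (A + 1)) := by
          rw [show L ^ (A + 2) = L * L ^ (A + 1) by ring]
          field_simp
        rw [this]
        apply mul_le_of_le_one_left (by positivity)
        rw [div_le_one hL0]
        have : (0 : ℝ) ≤ a ^ 3 := by positivity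
        linarith
      have f6 : 10 * (1 / L ^ (A + 1)) ≤ 1 / L ^ A := by
        have : 10 * (1 / L ^ (A + 1)) = (10 / L) * (1 / L ^ A) := by
          rw [pow_succ]; field_simp
        rw [this]
        apply mul_le_of_le_one_left (by positivity)
        rw [div_le_one hL0]
        exact hL10
      rw [hδ] at f4 ⊢
      rw [hδ] at f2
      linarith
    have f7 : 1 / L ^ A ≤ 1 / Real.log H ^ A :=
      one_div_le_one_div_of_le (by positivity) (pow_le_pow_left₀ hlogH.le hHL _)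
    calc (9 * δ + 40 * (a : ℝ) ^ 3 * (1 / Real.log ((2 * n * N : ℕ) : ℝ) ^ A' / δ)) * (H : ℝ) ^ 2
        ≤ (1 / Real.log H ^ A) * (H : ℝ) ^ 2 := mul_le_mul_of_nonneg_right (f3.trans f7) (by positivity)
      _ = _ := by ring
  · intro q hq hqE
    obtain ⟨hs1, hQ⟩ := k3 q hq hqE
    rw [Int.abs_eq_natAbs] at hs1
    obtain ⟨s, hs⟩ : ∃ s : ℤ, s = sh a H q.1 := ⟨_, rfl⟩
    rw [← hs] at hs1 hQ
    have hs2 : s.natAbs ≤ 2 * H := by exact_mod_cast hs1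
    have h2H : 2 * H ≤ N := by nlinarith
    have hnN : 2 * N ≤ 2 * n * N := by nlinarith
    refine QLm_shift (s := s) (x' := 2 * n * N) (C' := 2 * n * H ^ 2) (R' := 4 * n * R) (A' := A') (ε' := ε0) (by omega) ?_ ?_ ?_ ?_ ?_ hQ
    · intro u hu
      have hu4 : 4 * H ≤ u := by
        by_contra hcon
        push Not at hcon
        have t1 : N < R * (4 * H) + 1 := by
          have : R * u ≤ R * (4 * H) := Nat.mul_le_mul_left _ hcon.le
          omega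
        have t2 : 4 * R + 4 ≤ H := by omega
        have t3 : (4 * R + 4) * H ≤ H ^ 2 := by rw [sq]; exact Nat.mul_le_mul_right _ t2
        nlinarith
      have hsu : s ≤ u := by omega
      refine ⟨hsu, ?_⟩
      have hu2 : u ≤ 2 * ((u : ℤ) - s).toNat := by omega
      calc 2 * n * N ≤ 2 * n * (R * u) := Nat.mul_le_mul_left _ hu
        _ ≤ 2 * n * (R * (2 * ((u : ℤ) - s).toNat)) := Nat.mul_le_mul_left _ (Nat.mul_le_mul_left _ hu2)
        _ = 4 * n * R * ((u : ℤ) - s).toNat := by ring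
    · intro y hy
      rw [hx', Real.mul_rpow (by positivity) (by positivity)]
      push_cast at hy ⊢
      rw [hnr]
      have t1 : (2 * (a : ℝ)) ^ (3 / 2 + ε0) ≤ (2 * a) * (2 * a) := by
        calc (2 * (a : ℝ)) ^ (3 / 2 + ε0) ≤ (2 * (a : ℝ)) ^ (2 : ℝ) :=
              Real.rpow_le_rpow_of_exponent_le (by linarith) (by linarith)
          _ = _ := by rw [Real.rpow_two]; ring
      have t2 : (2 * (a : ℝ)) * (N : ℝ) ^ (3 / 2 + ε0) ≤ (N : ℝ) ^ (3 / 2 + ε) := by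
        calc (2 * (a : ℝ)) * (N : ℝ) ^ (3 / 2 + ε0) ≤ (N : ℝ) ^ (ε / 2) * (N : ℝ) ^ (3 / 2 + ε0) := by gcongr
          _ = (N : ℝ) ^ (ε / 2 + (3 / 2 + ε0)) := by rw [← Real.rpow_add (by linarith)]
          _ ≤ (N : ℝ) ^ (3 / 2 + ε) := Real.rpow_le_rpow_of_exponent_le (by linarith) (by linarith)
      calc (2 * (a : ℝ)) ^ (3 / 2 + ε0) * (N : ℝ) ^ (3 / 2 + ε0) ≤ ((2 * a) * (2 * a)) * (N : ℝ) ^ (3 / 2 + ε0) := by gcongr
        _ = (2 * a) * ((2 * (a : ℝ)) * (N : ℝ) ^ (3 / 2 + ε0)) := by ring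
        _ ≤ (2 * a) * ((H : ℝ) ^ 2 * y) := mul_le_mul_of_nonneg_left (t2.trans hy) (by positivity)
        _ = _ := by ring
    · rw [hx', Real.mul_rpow (by positivity) (by positivity)]
      calc (2 * (a : ℝ)) ^ (2 / 3 + ε0) * (N : ℝ) ^ (2 / 3 + ε0) ≤ (2 * (a : ℝ)) ^ (1 : ℝ) * (N : ℝ) ^ (2 / 3 + ε0) := by
            apply mul_le_mul_of_nonneg_right _ (by positivity)
            exact Real.rpow_le_rpow_of_exponent_le (by linarith) (by linarith)
        _ ≤ (N : ℝ) ^ (ε / 2) * (N : ℝ) ^ (2 / 3 + ε0) := by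
            apply mul_le_mul_of_nonneg_right _ (by positivity)
            rw [Real.rpow_one]; exact g3
        _ = (N : ℝ) ^ (ε / 2 + (2 / 3 + ε0)) := by rw [← Real.rpow_add (by linarith)]
        _ ≤ (N : ℝ) ^ (2 / 3 + ε) := Real.rpow_le_rpow_of_exponent_le (by linarith) (by linarith)
    · calc (N : ℝ) ^ (1 - ε) ≤ (N : ℝ) ^ (1 - ε0) := Real.rpow_le_rpow_of_exponent_le (by linarith) (by linarith)
        _ ≤ _ := Real.rpow_le_rpow (Nat.cast_nonneg _) hNx' (by linarith)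
    · rw [← hL]
      calc ((2 * n * N : ℕ) : ℝ) / Real.log ((2 * n * N : ℕ) : ℝ) ^ A' ≤ ((2 * n * N : ℕ) : ℝ) / L ^ A' :=
            div_le_div_of_nonneg_left (Nat.cast_nonneg _) (by positivity) (pow_le_pow_left₀ hL0.le hlogx' _)
        _ = 2 * a * N / L ^ A' := by rw [hx']
        _ ≤ N / L ^ A := by
          rw [div_le_div_iff₀ (by positivity) (by positivity)]
          have t1 : (2 * (a : ℝ)) * L ^ A ≤ L ^ A' := by
            have : 2 * (a : ℝ) ≤ L ^ (A + 3) := by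
              calc 2 * (a : ℝ) ≤ L := by nlinarith [sq_nonneg ((a : ℝ) - 1), mul_nonneg (sq_nonneg (a : ℝ)) (by linarith : (0 : ℝ) ≤ a - 1)]
                _ = L ^ 1 := (pow_one L).symm
                _ ≤ L ^ (A + 3) := pow_le_pow_right₀ (by linarith) (by omega)
            calc (2 * (a : ℝ)) * L ^ A ≤ L ^ (A + 3) * L ^ A := by gcongr
              _ = L ^ A' := by rw [← pow_add]; congr 1; omega
          calc 2 * (a : ℝ) * N * L ^ A = N * (2 * a * L ^ A) := by ring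
            _ ≤ N * L ^ A' := mul_le_mul_of_nonneg_left t1 (by positivity)

end Pool.Agent.N791.U
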