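import Mathlib
import Pool.Agent.N791.U.L4
import Pool.Agent.N791.C2.Cor

/-!
Both signs of the Liouville function: negative constant terms, and almost all pairs (helper791).
-/

set_option autoImplicit false

namespace Pool.Agent.N791.U

open Finset Filter Topology
open Pool.Agent.N792 (fv ev_log_pow)
open Pool.Agent.N791.C2 (Cls cls_lam lam lam_pm om Lm PP gd gd_le card_sign exists_eps)
open Pool.Agent.N791.E2 (fl recip le_fl)

/-- the lower bound for the number of both signs, from the sums over the values with a prime factor in `(s, t]` -/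
theorem sign_lower (θ : ℝ) (hθ : 1 / 2 < θ) (η : ℝ) (hη : 0 < η) :
    ∃ ε : ℝ, 0 < ε ∧ ε ≤ 1 / 100 ∧ ε ≤ θ - 1 / 2 ∧ ∃ R : ℕ, 1 ≤ R ∧ ∃ n1 : ℕ, ∀ x : ℕ, n1 ≤ x → ∃ s t u : ℕ,
      (∀ C : ℝ, (x : ℝ) ^ θ ≤ C → (x : ℝ) ^ (3 / 2 + ε) ≤ C * s) ∧ (x : ℝ) ^ (2 / 3 + ε) ≤ s ∧ (t : ℝ) ≤ (x : ℝ) ^ (1 - ε) ∧
      x ≤ R * u ∧ u ≤ x ∧
      ∀ (F : ℕ → ℤ) (A : ℕ), 1 ≤ A → (∀ n ∈ Ioc u x, 0 < F n) →
        |∑ n ∈ (Ioc u x).filter (fun n => 1 ≤ om s t (F n).natAbs), lam (F n).natAbs| ≤ x / Real.log x ^ A →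
        |(#((Ioc u x).filter (fun n => 1 ≤ om s t (F n).natAbs)) : ℝ) - ((x : ℝ) - u) * (Lm s t - Lm s t ^ 2 / 2)| ≤
          x / Real.log x ^ A →
        ∀ σ : ℝ, (σ = 1 ∨ σ = -1) → (gd (Real.log (1 / max (3 / 2 - θ) (2 / 3))) - η) * x ≤
          #((Ioc 0 x).filter (fun n => 0 < F n ∧ lam (F n).natAbs = σ)) := by
  classical
  obtain ⟨α, hα⟩ : ∃ α : ℝ, α = max (3 / 2 - θ) (2 / 3) := ⟨_, rfl⟩
  have hα1 : α < 1 := by rw [hα]; exact max_lt (by linarith) (by norm_num)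
  have hα0 : 2 / 3 ≤ α := by rw [hα]; exact le_max_right _ _
  have hα2 : 3 / 2 - θ ≤ α := by rw [hα]; exact le_max_left _ _
  obtain ⟨ε, hε0, hε1, hε2, hε3, hε4⟩ := exists_eps (α := α) (η := η / 8) (δ := θ - 1 / 2) (by linarith) hα1 (by linarith)
    (by linarith)
  rw [← hα]
  obtain ⟨R, hR'⟩ := exists_nat_gt (8 / η + 1)
  have h8η : 0 < 8 / η := by positivity
  have hR : 8 / η < R := by linarith
  have hR0r : (0 : ℝ) < R := by linarith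
  have hR2 : 1 < R := by
    have : (1 : ℝ) < R := by linarith
    exact_mod_cast this
  have hR0 : 1 ≤ R := by omega
  refine ⟨ε, hε0, hε1, hε2, R, hR0, ?_⟩
  have hrec := recip (α + 2 * ε) (1 - ε) (by linarith) hε3
  have hgd : Tendsto (fun x : ℕ => gd (Lm (fl (α + 2 * ε) x) (fl (1 - ε) x))) atTop
      (𝓝 (gd (Real.log ((1 - ε) / (α + 2 * ε))))) := by
    unfold gd Lm PP
    exact (hrec.div_const 2).sub ((hrec.pow 2).div_const 4)
  have e0 := hgd.eventually (lt_mem_nhds (show gd (Real.log ((1 - ε) / (α + 2 * ε))) - η / 8 < _ by linarith))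
  have e1 : ∀ᶠ x : ℕ in atTop, (8 / η + 1 : ℝ) ≤ Real.log x := Pool.Agent.N792.Shp.log_ge _
  have e2 := ev_log_pow 2 0 (δ := ε) hε0
  have e3 : ∀ᶠ x : ℕ in atTop, ⌈8 / η⌉₊ + 3 ≤ x := eventually_ge_atTop _
  obtain ⟨n1, h1⟩ := eventually_atTop.1 (((e0.and e1).and e2).and e3)
  refine ⟨n1, fun x hx => ?_⟩
  obtain ⟨⟨⟨f0, f1⟩, f2⟩, f3⟩ := h1 x hx
  rw [pow_zero, mul_one] at f2
  obtain ⟨s, hs⟩ : ∃ s : ℕ, s = fl (α + 2 * ε) x := ⟨_, rfl⟩
  obtain ⟨t, ht⟩ : ∃ t : ℕ, t = fl (1 - ε) x := ⟨_, rfl⟩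
  rw [← hs, ← ht] at f0
  have hx3 : 3 ≤ x := by omega
  have hxr : (3 : ℝ) ≤ x := by exact_mod_cast hx3
  have hx0 : (0 : ℝ) < x := by linarith
  have hx1 : (1 : ℝ) ≤ x := by linarith
  obtain ⟨L, hL⟩ : ∃ L : ℝ, L = Real.log x := ⟨_, rfl⟩
  rw [← hL] at f1
  have hL1 : 1 ≤ L := by linarith
  have hL0 : 0 < L := by linarith
  have hsx : (x : ℝ) ^ (α + ε) ≤ s := by
    have h2 : (x : ℝ) ^ (α + 2 * ε) < s + 1 := by
      rw [hs]; unfold fl; exact Nat.lt_floor_add_one _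
    have h3 : (x : ℝ) ^ (α + 2 * ε) = (x : ℝ) ^ ε * (x : ℝ) ^ (α + ε) := by
      rw [← Real.rpow_add hx0]; congr 1; ring
    have h4 : (1 : ℝ) ≤ (x : ℝ) ^ (α + ε) := Real.one_le_rpow hx1 (by linarith)
    rw [h3] at h2
    nlinarith
  obtain ⟨u, hu⟩ : ∃ u : ℕ, u = x / R + 1 := ⟨_, rfl⟩
  have hxu : x ≤ R * u := by
    rw [hu]; exact (Nat.lt_mul_div_succ x hR0).le
  have hux : u ≤ x := by
    rw [hu]
    exact Nat.div_lt_self (by omega) hR2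
  refine ⟨s, t, u, ?_, ?_, ?_, hxu, hux, ?_⟩
  · intro C hC1
    calc (x : ℝ) ^ (3 / 2 + ε) ≤ (x : ℝ) ^ (θ + (α + ε)) := Real.rpow_le_rpow_of_exponent_le hx1 (by linarith)
      _ = (x : ℝ) ^ θ * (x : ℝ) ^ (α + ε) := Real.rpow_add hx0 _ _
      _ ≤ C * s := mul_le_mul hC1 hsx (by positivity) ((by positivity : (0 : ℝ) ≤ (x : ℝ) ^ θ).trans hC1)
  · exact (Real.rpow_le_rpow_of_exponent_le hx1 (by linarith)).trans hsx
  · rw [ht]; unfold fl; exact Nat.floor_le (by positivity)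
  · intro F A hA d0 d1 d2 σ hσ
    rw [← hL] at d1 d2
    set S := (Ioc u x).filter (fun n => 1 ≤ om s t (F n).natAbs) with hS
    have h2 := card_sign (S := S) (fun n => lam (F n).natAbs) (fun n => lam_pm _) σ hσ
    have h3 : S.filter (fun n => lam (F n).natAbs = σ) ⊆
        (Ioc 0 x).filter (fun n => 0 < F n ∧ lam (F n).natAbs = σ) := by
      intro n hn
      rw [mem_filter, hS, mem_filter] at hn
      rw [mem_filter]
      refine ⟨?_, d0 n hn.1.1, hn.2⟩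
      have := mem_Ioc.1 hn.1.1
      rw [mem_Ioc]; omega
    have h4 : (#(S.filter (fun n => lam (F n).natAbs = σ)) : ℝ) ≤
        #((Ioc 0 x).filter (fun n => 0 < F n ∧ lam (F n).natAbs = σ)) := by
      exact_mod_cast card_le_card h3
    refine le_trans ?_ h4
    rw [h2]
    obtain ⟨Λ, hΛ⟩ : ∃ Λ : ℝ, Λ = Lm s t := ⟨_, rfl⟩
    rw [← hΛ] at f0 d2
    have h5 : -(x / L ^ A) ≤ σ * ∑ n ∈ S, lam (F n).natAbs := by
      have := abs_le.1 d1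
      rcases hσ with h | h <;> rw [h] <;> linarith [this.1, this.2]
    have h6 := (abs_le.1 d2).1
    have h7 : ((x : ℝ) - u) * (Λ - Λ ^ 2 / 2) = 2 * (((x : ℝ) - u) * gd Λ) := by
      unfold gd; ring
    rw [h7] at h6
    have hg4 := gd_le Λ
    have hxL : (x : ℝ) / L ^ A ≤ η / 8 * x := by
      have h8 : L ≤ L ^ A := by
        calc L = L ^ 1 := (pow_one L).symm
          _ ≤ L ^ A := pow_le_pow_right₀ hL1 hA
      have h9 : 8 / η ≤ L ^ A := by linarith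
      calc (x : ℝ) / L ^ A ≤ x / (8 / η) := div_le_div_of_nonneg_left hx0.le h8η h9
        _ = η / 8 * x := by field_simp
    have hur : (u : ℝ) ≤ η / 4 * x := by
      have h8 : ((x / R : ℕ) : ℝ) ≤ (x : ℝ) / R := Nat.cast_div_le
      have h9 : (x : ℝ) / R ≤ η / 8 * x := by
        rw [div_le_iff₀ hR0r]
        have h10 : 8 / η * (η / 8) = 1 := by field_simp
        have h11 : 1 ≤ η / 8 * R := by
          calc (1 : ℝ) = 8 / η * (η / 8) := h10.symm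
            _ ≤ R * (η / 8) := by gcongr
            _ = η / 8 * R := mul_comm _ _
        nlinarith
      have h10 : (1 : ℝ) ≤ η / 8 * x := by
        have h12 : (8 / η : ℝ) ≤ x := by
          have := Nat.le_ceil (8 / η)
          have h13 : ((⌈8 / η⌉₊ : ℕ) : ℝ) ≤ x := by
            have : ⌈8 / η⌉₊ ≤ x := by omega
            exact_mod_cast this
          linarith
        calc (1 : ℝ) = η / 8 * (8 / η) := by field_simp
          _ ≤ η / 8 * x := by gcongr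
      rw [hu]; push_cast; linarith
    have h8 : (x : ℝ) * gd Λ - (η / 4 * x) * (1 / 4) ≤ ((x : ℝ) - u) * gd Λ := by
      have e4 : ((x : ℝ) - u) * gd Λ = (x : ℝ) * gd Λ - (u : ℝ) * gd Λ := by ring
      rw [e4]
      have e5 : (u : ℝ) * gd Λ ≤ (η / 4 * x) * (1 / 4) := by
        have hu0 : (0 : ℝ) ≤ (u : ℝ) := Nat.cast_nonneg _
        calc (u : ℝ) * gd Λ ≤ (u : ℝ) * (1 / 4) := mul_le_mul_of_nonneg_left hg4 hu0
          _ ≤ (η / 4 * x) * (1 / 4) := by gcongr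
      linarith
    have h9 : (gd (Real.log (1 / α)) - η / 4) * x ≤ (x : ℝ) * gd Λ := by
      rw [mul_comm]
      apply mul_le_mul_of_nonneg_left _ hx0.le
      linarith
    have h11 : (gd (Real.log (1 / α)) - η) * x =
        (gd (Real.log (1 / α)) - η / 4) * x - (3 * η / 4) * x := by ring
    have h12 : 0 ≤ η * (x : ℝ) := by positivity
    rw [h11]
    linarith

/-- **Both signs of the Liouville function, negative constant terms.** -/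
theorem neg_signs (a : ℤ) (ha : 0 < a) (b : ℤ) (θ : ℝ) (hθ : 1 / 2 < θ) (η : ℝ) (hη : 0 < η) (A : ℕ) :
    ∃ x0 : ℕ, ∀ x : ℕ, x0 ≤ x → ∀ K : ℕ, (x : ℝ) ^ θ ≤ K → K ≤ x →
    ∃ Ex ⊆ Icc 1 K, (#Ex : ℝ) ≤ K / Real.log x ^ A ∧ ∀ c ∈ Icc 1 K, c ∉ Ex → ∀ σ : ℝ, (σ = 1 ∨ σ = -1) →
      (gd (Real.log (1 / max (3 / 2 - θ) (2 / 3))) - η) * x ≤
        #((Ioc 0 x).filter (fun n => 0 < fv a b (-(c : ℤ)) n ∧ lam (fv a b (-(c : ℤ)) n).natAbs = σ)) := by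
  obtain ⟨ε, hε0, hε1, hε2, R, hR, n1, h1⟩ := sign_lower θ hθ η hη
  obtain ⟨x0, h0⟩ := neg_lm cls_lam a ha b ε hε0 R (A + 1) hR
  refine ⟨x0 + n1 + 3, fun x hx K hK1 hK2 => ?_⟩
  obtain ⟨s, t, u, w1, w2, w3, w4, w5, h2⟩ := h1 x (by omega)
  have hxr : (3 : ℝ) ≤ x := by exact_mod_cast (by omega : 3 ≤ x)
  have hL1 : 1 ≤ Real.log x := by
    rw [Real.le_log_iff_exp_le (by linarith)]
    exact (Real.exp_one_lt_d9.le.trans (by norm_num)).trans hxr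
  have w6 : (x : ℝ) ^ (1 / 2 + ε) ≤ K := (Real.rpow_le_rpow_of_exponent_le (by linarith) (by linarith)).trans hK1
  obtain ⟨Ex, q1, q2, q3⟩ := h0 (s, t) x (by omega) K w6 hK2
  refine ⟨Ex, q1, q2.trans (div_le_div_of_nonneg_left (Nat.cast_nonneg _) (by positivity)
    (pow_le_pow_right₀ hL1 (by omega))), fun c hc hcE σ hσ => ?_⟩
  obtain ⟨d0, d1, d2⟩ := q3 c hc hcE (w1 K hK1) w2 w3 u x w4 w5 le_rfl
  exact h2 (fv a b (-(c : ℤ))) (A + 1) (by omega) d0 d1 d2 σ hσ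

/-- **Both signs of the Liouville function for almost all pairs.** -/
theorem pair_signs (a : ℤ) (ha : 0 < a) (θ : ℝ) (hθ : 1 / 2 < θ) (η : ℝ) (hη : 0 < η) (A : ℕ) :
    ∃ H0 : ℕ, ∀ H : ℕ, H0 ≤ H → ∀ N : ℕ, H ^ 2 ≤ N → (N : ℝ) ^ θ ≤ (H : ℝ) ^ 2 →
    ∃ Ex ⊆ Icc (-(H : ℤ)) H ×ˢ Icc (-(H : ℤ)) H, (#Ex : ℝ) ≤ H ^ 2 / Real.log H ^ A ∧
      ∀ q ∈ Icc (-(H : ℤ)) H ×ˢ Icc (-(H : ℤ)) H, q ∉ Ex → ∀ σ : ℝ, (σ = 1 ∨ σ = -1) →
      (gd (Real.log (1 / max (3 / 2 - θ) (2 / 3))) - η) * N ≤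
        #((Ioc 0 N).filter (fun n => 0 < fv a q.1 q.2 n ∧ lam (fv a q.1 q.2 n).natAbs = σ)) := by
  obtain ⟨ε, hε0, hε1, hε2, R, hR, n1, h1⟩ := sign_lower θ hθ η hη
  obtain ⟨ε', hε'⟩ : ∃ ε' : ℝ, ε' = min ε (min 1 (4 - 2 / θ)) := ⟨_, rfl⟩
  have hθ0 : 0 < θ := by linarith
  have h4θ : 0 < 4 - 2 / θ := by
    have : 2 / θ < 4 := by rw [div_lt_iff₀ hθ0]; linarith
    linarith
  have f1 : 0 < ε' := by rw [hε']; exact lt_min hε0 (lt_min one_pos h4θ)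
  have f2 : ε' ≤ ε := by rw [hε']; exact min_le_left _ _
  have f3 : ε' ≤ 4 - 2 / θ := by rw [hε']; exact (min_le_right _ _).trans (min_le_right _ _)
  obtain ⟨H0, h0⟩ := pair_lm cls_lam a ha ε' f1 R (A + 1) hR
  refine ⟨H0 + n1 + 3, fun H hH N hN1 hN2 => ?_⟩
  have hHN : H ≤ N := by nlinarith
  have hHr : (3 : ℝ) ≤ H := by exact_mod_cast (by omega : 3 ≤ H)
  have hNr : (3 : ℝ) ≤ N := by exact_mod_cast (by omega : 3 ≤ N)
  obtain ⟨s, t, u, w1, w2, w3, w4, w5, h2⟩ := h1 N (by omega)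
  have hL1 : 1 ≤ Real.log H := by
    rw [Real.le_log_iff_exp_le (by linarith)]
    exact (Real.exp_one_lt_d9.le.trans (by norm_num)).trans hHr
  have hN4 : (N : ℝ) ≤ (H : ℝ) ^ (4 - ε') := by
    have e1 : (N : ℝ) = ((N : ℝ) ^ θ) ^ (1 / θ) := by
      rw [← Real.rpow_mul (by linarith), mul_one_div_cancel hθ0.ne', Real.rpow_one]
    rw [e1]
    calc ((N : ℝ) ^ θ) ^ (1 / θ) ≤ ((H : ℝ) ^ 2) ^ (1 / θ) := Real.rpow_le_rpow (by positivity) hN2 (by positivity)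
      _ = (H : ℝ) ^ (2 / θ) := by
          rw [← Real.rpow_natCast, ← Real.rpow_mul (by linarith)]; congr 1; push_cast; ring
      _ ≤ (H : ℝ) ^ (4 - ε') := Real.rpow_le_rpow_of_exponent_le (by linarith) (by linarith)
  obtain ⟨Ex, q1, q2, q3⟩ := h0 (s, t) H (by omega) N hN1 hN4
  refine ⟨Ex, q1, q2.trans (div_le_div_of_nonneg_left (by positivity) (by positivity)
    (pow_le_pow_right₀ hL1 (by omega))), fun q hq hqE σ hσ => ?_⟩
  have hN1r : (1 : ℝ) ≤ N := by linarith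
  obtain ⟨d0, d1, d2⟩ := q3 q hq hqE (by
      push_cast
      exact (Real.rpow_le_rpow_of_exponent_le hN1r (by linarith)).trans (w1 _ hN2))
    ((Real.rpow_le_rpow_of_exponent_le hN1r (by linarith)).trans w2)
    (w3.trans (Real.rpow_le_rpow_of_exponent_le hN1r (by linarith))) u N w4 w5 le_rfl
  exact h2 (fv a q.1 q.2) (A + 1) (by omega) d0 d1 d2 σ hσ

end Pool.Agent.N791.U
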