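import Mathlib
import Pool.Agent.N791.U.Final
import Pool.Agent.N792.SingT

/-!
The theorem on pairs in the form of the Bateman-Horn conjecture (helper791).
-/

set_option autoImplicit false

namespace Pool.Agent.N791.U.PP

open Finset Filter Topology Polynomial
open Pool.Agent.N792 (rho fv Vc V1)

/-- the polynomial `a X² + b X + c` -/
noncomputable def pol (a b c : ℤ) : ℤ[X] := C a * X ^ 2 + C b * X + C c

lemma pol_eval (a b c n : ℤ) : (pol a b c).eval n = a * n ^ 2 + b * n + c := by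
  unfold pol
  simp

/-- The number of `u < n ≤ v` for which `|f(n)|` is prime. -/
noncomputable def primeCount (f : ℤ[X]) (u v : ℕ) : ℕ :=
  ((Ioc u v).filter (fun n : ℕ => (f.eval (n : ℤ)).natAbs.Prime)).card

/-- The sum of `1 / log |f(n)|` over the `u < n ≤ v` with `|f(n)| ≥ 2`. -/
noncomputable def logSum (f : ℤ[X]) (u v : ℕ) : ℝ :=
  ∑ n ∈ (Ioc u v).filter (fun n : ℕ => 2 ≤ |f.eval (n : ℤ)|), 1 / Real.log |((f.eval (n : ℤ) : ℤ) : ℝ)|

/-- `ω_f(p)`: the number of residue classes of `n` modulo `p` with `f(n) ≡ 0 (mod p)`. -/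
noncomputable def omega (f : ℤ[X]) (p : ℕ) : ℕ := ((range p).filter (fun n : ℕ => (p : ℤ) ∣ f.eval (n : ℤ))).card

/-- `C_f(z)`: the part of the product `C_f` over the primes `p ≤ z`. -/
noncomputable def eulerProd (f : ℤ[X]) (z : ℕ) : ℝ :=
  ∏ p ∈ (Icc 1 z).filter Nat.Prime, (1 - (omega f p : ℝ) / p) / (1 - 1 / (p : ℝ))

lemma omega_eq (a b c : ℤ) (p : ℕ) : omega (pol a b c) p = rho a b c p := by
  unfold omega rho fv
  simp only [pol_eval]

lemma eulerProd_eq (a b c : ℤ) (z : ℕ) : eulerProd (pol a b c) z = Vc a b c z / V1 z := by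
  unfold eulerProd Vc V1
  rw [← prod_div_distrib]
  exact prod_congr rfl fun p _ => by rw [omega_eq]

lemma logSum_eq (a b c : ℤ) (u v : ℕ) :
    logSum (pol a b c) u v = ∑ m ∈ Ioc u v, 1 / Real.log ((a : ℝ) * m ^ 2 + b * m + c) := by
  unfold logSum
  rw [sum_filter]
  refine sum_congr rfl fun n _ => ?_
  rw [pol_eval]
  have e : ((a * (n : ℤ) ^ 2 + b * n + c : ℤ) : ℝ) = (a : ℝ) * n ^ 2 + b * n + c := by push_cast; ring
  split_ifs with h
  · rw [Real.log_abs, e]
  · rw [← e]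
    have h' : a * (n : ℤ) ^ 2 + b * n + c = 0 ∨ a * (n : ℤ) ^ 2 + b * n + c = 1 ∨ a * (n : ℤ) ^ 2 + b * n + c = -1 := by
      rw [not_le] at h
      have := abs_lt.1 h
      omega
    rcases h' with h | h | h <;> rw [h] <;> simp

/-- a polynomial of degree 2 which is irreducible and has no fixed divisor is admissible -/
lemma adm_of {a b c : ℤ} (ha : 0 < a) (hirr : Irreducible (pol a b c))
    (hω : ∀ p : ℕ, p.Prime → omega (pol a b c) p < p) : Pool.Agent.N792.Admissible a b c := by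
  have hdeg : (pol a b c).natDegree = 2 := by
    unfold pol
    exact natDegree_quadratic ha.ne'
  refine ⟨ha, ?_, ?_, ?_⟩
  · intro d hda hdb hdc
    obtain ⟨a', rfl⟩ := hda
    obtain ⟨b', rfl⟩ := hdb
    obtain ⟨c', rfl⟩ := hdc
    have e : pol (d * a') (d * b') (d * c') = C d * pol a' b' c' := by
      unfold pol
      simp only [C_mul]
      ring
    rw [e] at hirr
    rcases hirr.isUnit_or_isUnit rfl with h | h
    · exact isUnit_C.1 h
    · exfalso
      have h2 := natDegree_eq_zero_of_isUnit h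
      have ha' : a' ≠ 0 := by
        rintro rfl
        simp at ha
      have : (pol a' b' c').natDegree = 2 := by
        unfold pol
        exact natDegree_quadratic ha'
      omega
  · rintro ⟨h1, h2⟩
    have h3 := hω 2 Nat.prime_two
    have h4 : omega (pol a b c) 2 = 2 := by
      unfold omega
      have : (range 2).filter (fun n : ℕ => ((2 : ℕ) : ℤ) ∣ (pol a b c).eval (n : ℤ)) = range 2 := by
        apply filter_true_of_mem
        intro n hn
        rw [mem_range] at hn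
        rw [pol_eval]
        interval_cases n
        · simpa using h2
        · have : a * ((1 : ℕ) : ℤ) ^ 2 + b * ((1 : ℕ) : ℤ) + c = (a + b) + c := by push_cast; ring
          rw [this]
          exact dvd_add h1 h2
      rw [this, card_range]
    omega
  · rintro ⟨d, hd⟩
    -- a rational root
    have hprim : (pol a b c).IsPrimitive := by
      exact hirr.isPrimitive (by omega)
    have hQ := (hprim.irreducible_iff_irreducible_map_fraction_map (K := ℚ)).1 hirr
    have haQ : (a : ℚ) ≠ 0 := by exact_mod_cast ha.ne'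
    have hroot : (((pol a b c).map (algebraMap ℤ ℚ))).IsRoot ((-(b : ℚ) + d) / (2 * a)) := by
      rw [IsRoot.def]
      unfold pol
      simp only [Polynomial.map_add, Polynomial.map_mul, Polynomial.map_C, Polynomial.map_pow, Polynomial.map_X,
        eval_add, eval_mul, eval_C, eval_pow, eval_X]
      have hcast : ∀ n : ℤ, (algebraMap ℤ ℚ) n = (n : ℚ) := fun n => rfl
      rw [hcast, hcast, hcast]
      have hdQ : (b : ℚ) ^ 2 - 4 * a * c = d * d := by exact_mod_cast hd
      field_simp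
      linear_combination (-1 : ℚ) * hdQ
    have h1 := degree_eq_one_of_irreducible_of_root hQ hroot
    have h2 : ((pol a b c).map (algebraMap ℤ ℚ)).natDegree = 2 := by
      rw [natDegree_map_eq_of_injective (RingHom.injective_int (algebraMap ℤ ℚ)), hdeg]
    have h3 : ((pol a b c).map (algebraMap ℤ ℚ)).natDegree = 1 := natDegree_eq_of_degree_eq_some (n := 1) (by rw [h1]; rfl)
    rw [h2] at h3
    norm_num at h3

/-- the negative values -/
lemma count_diff {a b c : ℤ} (ha : 0 < a) {H u v : ℕ} (hb : |b| ≤ H) (hc : |c| ≤ H) :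
    |(primeCount (pol a b c) u v : ℝ) - (#((Ioc u v).filter (fun m : ℕ => (fv a b c m).toNat.Prime)) : ℝ)| ≤ 2 * H + 1 := by
  classical
  have hsub : (Ioc u v).filter (fun m : ℕ => (fv a b c m).toNat.Prime) ⊆
      (Ioc u v).filter (fun n : ℕ => ((pol a b c).eval (n : ℤ)).natAbs.Prime) := by
    intro m hm
    rw [mem_filter] at hm ⊢
    refine ⟨hm.1, ?_⟩
    rw [pol_eval]
    have h0 : 0 < (fv a b c m).toNat := hm.2.pos
    have : (a * (m : ℤ) ^ 2 + b * m + c).natAbs = (fv a b c m).toNat := by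
      unfold fv at h0 ⊢
      omega
    rw [this]
    exact hm.2
  have hdiff : (Ioc u v).filter (fun n : ℕ => ((pol a b c).eval (n : ℤ)).natAbs.Prime) \
      (Ioc u v).filter (fun m : ℕ => (fv a b c m).toNat.Prime) ⊆ Icc 1 (2 * H + 1) := by
    intro m hm
    rw [Finset.mem_sdiff, mem_filter, mem_filter, mem_Ioc, pol_eval] at hm
    rw [mem_Icc]
    obtain ⟨⟨⟨h1, h2⟩, h3⟩, h4⟩ := hm
    refine ⟨by omega, ?_⟩
    by_contra hcon
    push Not at hcon
    apply h4
    refine ⟨⟨h1, h2⟩, ?_⟩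
    have hpos : 0 ≤ a * (m : ℤ) ^ 2 + b * m + c := by
      have hm2 : 2 * (H : ℤ) + 1 < m := by exact_mod_cast hcon
      have hb' := abs_le.1 hb
      have hc' := abs_le.1 hc
      have hm0 : (0 : ℤ) ≤ m := by positivity
      have hH0 : (0 : ℤ) ≤ H := by positivity
      have e1 : (m : ℤ) ^ 2 ≤ a * (m : ℤ) ^ 2 := le_mul_of_one_le_left (by positivity) ha
      have e2 : -((H : ℤ) * m) ≤ b * m := by nlinarith
      nlinarith
    have : (fv a b c m).toNat = (a * (m : ℤ) ^ 2 + b * m + c).natAbs := by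
      unfold fv
      omega
    rw [this]
    exact h3
  have h5 : primeCount (pol a b c) u v = #((Ioc u v).filter (fun m : ℕ => (fv a b c m).toNat.Prime)) +
      #((Ioc u v).filter (fun n : ℕ => ((pol a b c).eval (n : ℤ)).natAbs.Prime) \
      (Ioc u v).filter (fun m : ℕ => (fv a b c m).toNat.Prime)) := by
    unfold primeCount
    rw [add_comm, card_sdiff_add_card_eq_card hsub]
  have h6 := card_le_card hdiff
  rw [Nat.card_Icc] at h6
  rw [h5]
  push_cast
  rw [add_sub_cancel_left, abs_of_nonneg (Nat.cast_nonneg _)]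
  exact_mod_cast (by omega : #((Ioc u v).filter (fun n : ℕ => ((pol a b c).eval (n : ℤ)).natAbs.Prime) \
      (Ioc u v).filter (fun m : ℕ => (fv a b c m).toNat.Prime)) ≤ 2 * H + 1)

/-- **the Bateman-Horn formula for almost all pairs** -/
theorem pair_page (a : ℤ) (ha : 0 < a) (ε η : ℝ) (hε : 0 < ε) (hη : 0 < η) :
    ∃ H0 : ℕ, ∀ H : ℕ, H0 ≤ H → ∀ N : ℕ, H ^ 2 ≤ N → (N : ℝ) ≤ (H : ℝ) ^ (12 / 5 - ε) →
    ∃ Ex ⊆ Icc (-(H : ℤ)) H ×ˢ Icc (-(H : ℤ)) H, (#Ex : ℝ) ≤ η * H ^ 2 ∧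
      ∀ q ∈ Icc (-(H : ℤ)) H ×ˢ Icc (-(H : ℤ)) H, q ∉ Ex → Irreducible (pol a q.1 q.2) →
      (∀ p : ℕ, p.Prime → omega (pol a q.1 q.2) p < p) →
      ∃ K : ℝ, 0 < K ∧ Tendsto (fun z => eulerProd (pol a q.1 q.2) z) atTop (𝓝 K) ∧
        ∀ u v : ℕ, u ≤ v → v ≤ N →
          |(primeCount (pol a q.1 q.2) u v : ℝ) - K * logSum (pol a q.1 q.2) u v| ≤ η * (K * N / Real.log N) := by
  have haR : (1 : ℝ) ≤ a := by exact_mod_cast ha
  obtain ⟨θ, hθ, H0, h⟩ := pair_hl_56 a ha (fun ε0 h1 η h2 => conclU a ha (3 * a) (by linarith) ε0 h1 η h2) ε (η / 2) hε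
    (by positivity)
  obtain ⟨x1, hx1⟩ := Pool.Agent.N792.Fn124.evN' _ (Pool.Agent.N792.Fn124.ev_pow' 1 (3 * (2 / (η * θ))) (1 / 2) (by norm_num))
  refine ⟨H0 + x1 + 3, fun H hH N hN1 hN2 => ?_⟩
  have hNH : H ≤ N := by nlinarith
  have g1 := hx1 N (by omega)
  rw [pow_one] at g1
  obtain ⟨Ex, k1, k2, k3⟩ := h H (by omega) N hN1 hN2
  have hH0 : (0 : ℝ) ≤ (H : ℝ) ^ 2 := by positivity
  refine ⟨Ex, k1, k2.trans (mul_le_mul_of_nonneg_right (by linarith) hH0), fun q hq hqE hirr hω => ?_⟩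
  have hadm := adm_of ha hirr hω
  have hq' := hq
  rw [mem_product, mem_Icc, mem_Icc] at hq'
  have hb : |q.1| ≤ (H : ℤ) := abs_le.2 hq'.1
  have hc : |q.2| ≤ (H : ℤ) := abs_le.2 hq'.2
  obtain ⟨S, m1, m2, m3, m4⟩ := k3 q hq hqE hadm
  have hNr : (3 : ℝ) ≤ N := by exact_mod_cast (by omega : 3 ≤ N)
  have hlog : 0 < Real.log N := Real.log_pos (by linarith)
  have hM0 := hθ.trans_le m3
  refine ⟨Pool.Agent.N792.eps a q.1 * S * Pool.Agent.N792.gcdProd a q.1, hM0, ?_, ?_⟩
  · have h1 : Tendsto (fun z => Pool.Agent.N792.eps a q.1 * Pool.Agent.N792.gcdProd a q.1 *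
        Pool.Agent.N792.partialC a q.1 q.2 z) atTop (𝓝 (Pool.Agent.N792.eps a q.1 * Pool.Agent.N792.gcdProd a q.1 * S)) :=
      m2.const_mul _
    have h2 : Pool.Agent.N792.eps a q.1 * S * Pool.Agent.N792.gcdProd a q.1 =
        Pool.Agent.N792.eps a q.1 * Pool.Agent.N792.gcdProd a q.1 * S := by ring
    rw [h2]
    refine h1.congr' ?_
    filter_upwards [eventually_ge_atTop (2 + a.toNat)] with z hz
    rw [eulerProd_eq, Pool.Agent.N792.SingTail.V_ratio hadm (by omega) (by omega)]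
  · intro u v huv hvN
    have h1 := m4 u v huv hvN
    have h2 := count_diff ha (u := u) (v := v) hb hc
    rw [logSum_eq]
    have h3 : 2 * (H : ℝ) + 1 ≤ η / 2 * (Pool.Agent.N792.eps a q.1 * S * Pool.Agent.N792.gcdProd a q.1 * N / Real.log N) := by
      have e0 : (H : ℝ) ≤ (N : ℝ) ^ (1 / 2 : ℝ) := by
        rw [← Real.sqrt_eq_rpow]
        apply Real.le_sqrt_of_sq_le
        exact_mod_cast hN1
      have e1 : (1 : ℝ) ≤ H := by exact_mod_cast (by omega : 1 ≤ H)
      have e2 : 2 * (H : ℝ) + 1 ≤ 3 * (N : ℝ) ^ (1 / 2 : ℝ) := by linarith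
      have e3 : (N : ℝ) ^ (1 / 2 : ℝ) * (N : ℝ) ^ (1 / 2 : ℝ) = N := by
        rw [← Real.rpow_add (by linarith)]; norm_num
      have e4 : 0 ≤ (N : ℝ) ^ (1 / 2 : ℝ) := by positivity
      have e5 : 3 * (N : ℝ) ^ (1 / 2 : ℝ) ≤ η / 2 * (θ * N / Real.log N) := by
        rw [mul_div_assoc', le_div_iff₀ hlog]
        calc 3 * (N : ℝ) ^ (1 / 2 : ℝ) * Real.log N =
            (η * θ / 2) * ((N : ℝ) ^ (1 / 2 : ℝ) * (3 * (2 / (η * θ)) * Real.log N)) := by field_simp
          _ ≤ (η * θ / 2) * ((N : ℝ) ^ (1 / 2 : ℝ) * (N : ℝ) ^ (1 / 2 : ℝ)) := by gcongr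
          _ = _ := by rw [e3]; ring
      refine (e2.trans e5).trans ?_
      apply mul_le_mul_of_nonneg_left _ (by positivity)
      apply div_le_div_of_nonneg_right _ hlog.le
      exact mul_le_mul_of_nonneg_right m3 (by linarith)
    have t1 := abs_le.1 h1
    have t2 := abs_le.1 h2
    rw [abs_le]
    constructor <;> linarith [t1.1, t1.2, t2.1, t2.2]

end Pool.Agent.N791.U.PP
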