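import Mathlib
import Pool.Agent.N791.U.Final
import Pool.Agent.N792.T9Q

/-!
The asymptotic formula for `n² + a`, `a` of both signs (helper791).
-/

set_option autoImplicit false

namespace Pool.Agent.N791.U

open Finset Filter Topology Pool.Agent.N792

lemma adm_neg (c : ℤ) (h : ¬ IsSquare (-c)) : Admissible 1 0 c := by
  refine ⟨one_pos, fun d hd _ _ => isUnit_of_dvd_one hd, ?_, ?_⟩
  · rintro ⟨h, _⟩
    omega
  · rintro ⟨r, hr⟩
    apply h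
    have h1 : r * r = 4 * (-c) := by linarith
    have h2 : (2 : ℤ) ∣ r := by
      have : (2 : ℤ) ∣ r * r := ⟨2 * (-c), by linarith⟩
      exact (Int.prime_two.dvd_mul.1 this).elim id id
    obtain ⟨s, rfl⟩ := h2
    exact ⟨s, by linarith⟩

/-- the sum over the window for a negative constant term -/
lemma li_neg (θ : ℝ) (hθ : 0 < θ) : ∃ x0 : ℕ, ∀ x : ℕ, x0 ≤ x → ∀ c ∈ Icc 1 x, ∀ u v : ℕ, u ≤ v → v ≤ x →
    |∑ m ∈ Ioc u v, 1 / Real.log ((m : ℝ) ^ 2 - c) - ((v : ℝ) - u) / (2 * Real.log x)| ≤ θ * (x / Real.log x) := by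
  obtain ⟨x1, hx1⟩ := li_asym 1 one_pos 0 (θ / 2) (by positivity)
  obtain ⟨x2, hx2⟩ := eventually_atTop.1 (Shp.log_ge (8 / θ + 4))
  obtain ⟨x3, hx3⟩ := eventually_atTop.1 (Shp.log_pow_le 1 (16 / θ) (1 / 4) (by norm_num))
  refine ⟨x1 + x2 + x3 + 16, fun x hx c hc u v huv hvx => ?_⟩
  have hcc := mem_Icc.1 hc
  have k1 := hx1 x (by omega) c hc u v huv hvx
  have k2 := hx2 x (by omega)
  have k3 := hx3 x (by omega)
  rw [pow_one] at k3
  obtain ⟨L, hL⟩ : ∃ L : ℝ, L = Real.log x := ⟨_, rfl⟩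
  rw [← hL] at k1 k2 k3 ⊢
  have hθ8 : 0 < 8 / θ := by positivity
  have hL4 : 4 ≤ L := by linarith
  have hL0 : 0 < L := by linarith
  have hxr : (16 : ℝ) ≤ x := by exact_mod_cast (by omega : 16 ≤ x)
  have hx0 : (0 : ℝ) < x := by linarith
  have hcr : (c : ℝ) ≤ x := by exact_mod_cast hcc.2
  have hc1 : (1 : ℝ) ≤ c := by exact_mod_cast hcc.1
  -- one term
  have hterm : ∀ m ∈ Ioc u v, |1 / Real.log ((m : ℝ) ^ 2 - c) - 1 / Real.log ((m : ℝ) ^ 2 + c)| ≤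
      2 / L ^ 2 + (if m ≤ ⌊(x : ℝ) ^ (3 / 4 : ℝ)⌋₊ then 4 else 0) := by
    intro m hm
    rw [mem_Ioc] at hm
    have hb1 : |1 / Real.log ((m : ℝ) ^ 2 - c)| ≤ 2 := by
      have := inv_log_int ((m : ℤ) ^ 2 - c)
      push_cast at this
      exact this
    have hb2 : |1 / Real.log ((m : ℝ) ^ 2 + c)| ≤ 2 := by
      have := inv_log_int ((m : ℤ) ^ 2 + c)
      push_cast at this
      exact this
    have hL2 : 0 < 2 / L ^ 2 := by positivity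
    split_ifs with h
    · calc |1 / Real.log ((m : ℝ) ^ 2 - c) - 1 / Real.log ((m : ℝ) ^ 2 + c)| ≤
          |1 / Real.log ((m : ℝ) ^ 2 - c)| + |1 / Real.log ((m : ℝ) ^ 2 + c)| := abs_sub _ _
        _ ≤ 2 / L ^ 2 + 4 := by linarith
    · rw [add_zero]
      push Not at h
      have hm1 : (x : ℝ) ^ (3 / 4 : ℝ) ≤ m := (Nat.lt_of_floor_lt h).le
      have hm2 : (x : ℝ) ^ (3 / 2 : ℝ) ≤ (m : ℝ) ^ 2 := by
        calc (x : ℝ) ^ (3 / 2 : ℝ) = ((x : ℝ) ^ (3 / 4 : ℝ)) ^ 2 := by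
              rw [← Real.rpow_natCast, ← Real.rpow_mul hx0.le]; norm_num
          _ ≤ _ := pow_le_pow_left₀ (by positivity) hm1 2
      have hx12 : (4 : ℝ) ≤ (x : ℝ) ^ (1 / 2 : ℝ) := by
        rw [← Real.sqrt_eq_rpow]
        apply Real.le_sqrt_of_sq_le
        linarith
      have hx32 : (x : ℝ) ^ (3 / 2 : ℝ) = (x : ℝ) ^ (1 / 2 : ℝ) * x := by
        rw [← Real.rpow_add_one hx0.ne']; norm_num
      have hm3 : 2 * (c : ℝ) ≤ (m : ℝ) ^ 2 := by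
        rw [hx32] at hm2
        nlinarith
      have hm4 : (x : ℝ) ≤ (m : ℝ) ^ 2 - c := by
        rw [hx32] at hm2
        nlinarith
      have hp1 : 0 < (m : ℝ) ^ 2 - c := by linarith
      have hp2 : (m : ℝ) ^ 2 - c ≤ (m : ℝ) ^ 2 + c := by linarith
      have hl1 : L ≤ Real.log ((m : ℝ) ^ 2 - c) := by rw [hL]; exact Real.log_le_log hx0 hm4
      have hl2 : Real.log ((m : ℝ) ^ 2 - c) ≤ Real.log ((m : ℝ) ^ 2 + c) := Real.log_le_log hp1 hp2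
      have hl3 : Real.log ((m : ℝ) ^ 2 + c) ≤ Real.log ((m : ℝ) ^ 2 - c) + 2 := by
        have h3 : (m : ℝ) ^ 2 + c ≤ Real.exp 2 * ((m : ℝ) ^ 2 - c) := by
          have he : (3 : ℝ) ≤ Real.exp 2 := by
            have := Real.add_one_le_exp (2 : ℝ)
            linarith
          nlinarith
        have h4 := Real.log_le_log (by linarith) h3
        rw [Real.log_mul (Real.exp_ne_zero _) hp1.ne', Real.log_exp] at h4
        linarith
      rw [div_sub_div _ _ (by linarith) (by linarith), one_mul, mul_one, abs_div, abs_of_nonneg (by linarith),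
        abs_of_nonneg (by nlinarith)]
      apply div_le_div₀ (by norm_num) (by linarith) (by positivity)
      rw [sq]
      exact mul_le_mul hl1 (by linarith) hL0.le (by linarith)
  have hsum : |∑ m ∈ Ioc u v, (1 / Real.log ((m : ℝ) ^ 2 - c) - 1 / Real.log ((m : ℝ) ^ 2 + c))| ≤
      2 * x / L ^ 2 + 4 * (x : ℝ) ^ (3 / 4 : ℝ) := by
    refine (abs_sum_le_sum_abs _ _).trans ((sum_le_sum hterm).trans ?_)
    rw [sum_add_distrib, sum_const, nsmul_eq_mul, Nat.card_Ioc, ← sum_filter, sum_const, nsmul_eq_mul]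
    have h1 : ((v - u : ℕ) : ℝ) ≤ x := by exact_mod_cast (by omega : v - u ≤ x)
    have h2 : (#((Ioc u v).filter (fun m => m ≤ ⌊(x : ℝ) ^ (3 / 4 : ℝ)⌋₊)) : ℝ) ≤ (x : ℝ) ^ (3 / 4 : ℝ) := by
      have h3 : (Ioc u v).filter (fun m => m ≤ ⌊(x : ℝ) ^ (3 / 4 : ℝ)⌋₊) ⊆ Icc 1 ⌊(x : ℝ) ^ (3 / 4 : ℝ)⌋₊ := by
        intro m hm
        rw [mem_filter, mem_Ioc] at hm
        rw [mem_Icc]
        omega
      have h4 := card_le_card h3
      rw [Nat.card_Icc, Nat.add_sub_cancel] at h4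
      exact (by exact_mod_cast h4 : (#((Ioc u v).filter (fun m => m ≤ ⌊(x : ℝ) ^ (3 / 4 : ℝ)⌋₊)) : ℝ) ≤
        (⌊(x : ℝ) ^ (3 / 4 : ℝ)⌋₊ : ℝ)).trans (Nat.floor_le (by positivity))
    have h5 : ((v - u : ℕ) : ℝ) * (2 / L ^ 2) ≤ x * (2 / L ^ 2) := mul_le_mul_of_nonneg_right h1 (by positivity)
    calc ((v - u : ℕ) : ℝ) * (2 / L ^ 2) + (#((Ioc u v).filter (fun m => m ≤ ⌊(x : ℝ) ^ (3 / 4 : ℝ)⌋₊)) : ℝ) * 4
        ≤ x * (2 / L ^ 2) + (x : ℝ) ^ (3 / 4 : ℝ) * 4 := add_le_add h5 (by linarith)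
      _ = _ := by ring
  rw [sum_sub_distrib] at hsum
  have e1 : ∑ m ∈ Ioc u v, 1 / Real.log (((1 : ℤ) : ℝ) * m ^ 2 + ((0 : ℤ) : ℝ) * m + (c : ℝ)) =
      ∑ m ∈ Ioc u v, 1 / Real.log ((m : ℝ) ^ 2 + c) := by
    refine sum_congr rfl fun m _ => ?_
    push_cast
    ring_nf
  rw [e1] at k1
  have h6 : 2 * (x : ℝ) / L ^ 2 ≤ θ / 4 * (x / L) := by
    have : 2 * (x : ℝ) / L ^ 2 = (2 / L) * (x / L) := by rw [sq]; field_simp
    rw [this]
    apply mul_le_mul_of_nonneg_right _ (by positivity)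
    rw [div_le_iff₀ hL0]
    have : θ * (8 / θ) = 8 := by field_simp
    nlinarith
  have h7 : 4 * (x : ℝ) ^ (3 / 4 : ℝ) ≤ θ / 4 * (x / L) := by
    rw [mul_div_assoc', le_div_iff₀ hL0]
    have h8 : (x : ℝ) ^ (3 / 4 : ℝ) * (x : ℝ) ^ (1 / 4 : ℝ) = x := by
      rw [← Real.rpow_add hx0]; norm_num
    calc 4 * (x : ℝ) ^ (3 / 4 : ℝ) * L = θ / 4 * ((x : ℝ) ^ (3 / 4 : ℝ) * (16 / θ * L)) := by field_simp; ring
      _ ≤ θ / 4 * ((x : ℝ) ^ (3 / 4 : ℝ) * (x : ℝ) ^ (1 / 4 : ℝ)) := by gcongr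
      _ = _ := by rw [h8]
  have t1 := abs_le.1 k1
  have t2 := abs_le.1 hsum
  rw [abs_le]
  constructor <;> linarith [t1.1, t1.2, t2.1, t2.2]

/-- the number of `n` with `n² + a < 0` -/
lemma nat_diff (a : ℤ) {N u v : ℕ} (ha : |a| ≤ N) :
    |(#((Ioc u v).filter (fun n : ℕ => Nat.Prime ((n : ℤ) ^ 2 + a).natAbs)) : ℝ) -
      (#((Ioc u v).filter (fun m : ℕ => (fv 1 0 a m).toNat.Prime)) : ℝ)| ≤ (N : ℝ) ^ (1 / 2 : ℝ) := by
  classical
  have hfv : ∀ m : ℕ, fv 1 0 a m = (m : ℤ) ^ 2 + a := by intro m; unfold fv; ring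
  simp only [hfv]
  have hsub : (Ioc u v).filter (fun m : ℕ => ((m : ℤ) ^ 2 + a).toNat.Prime) ⊆
      (Ioc u v).filter (fun n : ℕ => Nat.Prime ((n : ℤ) ^ 2 + a).natAbs) := by
    intro m hm
    rw [mem_filter] at hm ⊢
    refine ⟨hm.1, ?_⟩
    have h0 := hm.2.pos
    have : ((m : ℤ) ^ 2 + a).natAbs = ((m : ℤ) ^ 2 + a).toNat := by omega
    rw [this]
    exact hm.2
  have hdiff : (Ioc u v).filter (fun n : ℕ => Nat.Prime ((n : ℤ) ^ 2 + a).natAbs) \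
      (Ioc u v).filter (fun m : ℕ => ((m : ℤ) ^ 2 + a).toNat.Prime) ⊆ Icc 1 (Nat.sqrt N) := by
    intro m hm
    rw [Finset.mem_sdiff, mem_filter, mem_filter, mem_Ioc] at hm
    rw [mem_Icc]
    obtain ⟨⟨⟨h1, h2⟩, h3⟩, h4⟩ := hm
    refine ⟨by omega, ?_⟩
    rw [Nat.le_sqrt']
    by_contra hcon
    push Not at hcon
    apply h4
    refine ⟨⟨h1, h2⟩, ?_⟩
    have h5 : (N : ℤ) < (m : ℤ) ^ 2 := by exact_mod_cast hcon
    have h6 := (abs_le.1 ha).1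
    have : ((m : ℤ) ^ 2 + a).toNat = ((m : ℤ) ^ 2 + a).natAbs := by omega
    rw [this]
    exact h3
  have h5 : #((Ioc u v).filter (fun n : ℕ => Nat.Prime ((n : ℤ) ^ 2 + a).natAbs)) =
      #((Ioc u v).filter (fun m : ℕ => ((m : ℤ) ^ 2 + a).toNat.Prime)) +
      #((Ioc u v).filter (fun n : ℕ => Nat.Prime ((n : ℤ) ^ 2 + a).natAbs) \
      (Ioc u v).filter (fun m : ℕ => ((m : ℤ) ^ 2 + a).toNat.Prime)) := by
    rw [add_comm, card_sdiff_add_card_eq_card hsub]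
  have h6 := card_le_card hdiff
  rw [Nat.card_Icc, Nat.add_sub_cancel] at h6
  rw [h5]
  push_cast
  rw [add_sub_cancel_left, abs_of_nonneg (Nat.cast_nonneg _), ← Real.sqrt_eq_rpow]
  refine (by exact_mod_cast h6 : (#((Ioc u v).filter (fun n : ℕ => Nat.Prime ((n : ℤ) ^ 2 + a).natAbs) \
      (Ioc u v).filter (fun m : ℕ => ((m : ℤ) ^ 2 + a).toNat.Prime)) : ℝ) ≤ (Nat.sqrt N : ℝ)).trans ?_
  exact Real.nat_sqrt_le_real_sqrt

/-- the final step for one `a` -/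
lemma both_one {a : ℤ} {N u v : ℕ} {θ θ0 η S : ℝ} (hθe : θ = η / 16) (hη : 0 < η) (hθ0 : 0 < θ0) (hS : θ0 ≤ S)
    (ha : |a| ≤ N) (hN : 2 ≤ N) (hL1 : 1 ≤ Real.log N)
    (hu : 2 ≤ u) (huv : u ≤ v) (hvN : v ≤ N)
    (h1 : |(#((Ioc u v).filter (fun m : ℕ => (fv 1 0 a m).toNat.Prime)) : ℝ) -
      S * ∑ m ∈ Ioc u v, 1 / Real.log ((m : ℝ) ^ 2 + a)| ≤ θ * (S * N / Real.log N))
    (h2 : |∑ m ∈ Ioc u v, 1 / Real.log ((m : ℝ) ^ 2 + a) - ((v : ℝ) - u) / (2 * Real.log N)| ≤ θ * (N / Real.log N))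
    (h3 : ∫ t in (u : ℝ)..(v : ℝ), 1 / Real.log t ≤ ((v : ℝ) - u) / Real.log N + θ * (N / Real.log N))
    (h4 : (N : ℝ) / Real.log N ≤ 2 * ∫ t in (2 : ℝ)..(N : ℝ), 1 / Real.log t)
    (h5 : (N : ℝ) ^ (1 / 2 : ℝ) ≤ θ * θ0 * (N / Real.log N)) :
    |(#((Ioc u v).filter (fun n : ℕ => Nat.Prime ((n : ℤ) ^ 2 + a).natAbs)) : ℝ) -
      1 / 2 * S * ∫ t in (u : ℝ)..(v : ℝ), 1 / Real.log t| ≤
      η * (1 / 2 * S * ∫ t in (2 : ℝ)..(N : ℝ), 1 / Real.log t) := by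
  have hθ : 0 < θ := by rw [hθe]; positivity
  have hS0 : 0 < S := hθ0.trans_le hS
  have hNr : (2 : ℝ) ≤ N := by exact_mod_cast hN
  have hL0 : 0 < Real.log N := by linarith
  have h6 := nat_diff a (u := u) (v := v) ha
  -- lower bound for the integral
  have h7 : ((v : ℝ) - u) / Real.log N ≤ ∫ t in (u : ℝ)..(v : ℝ), 1 / Real.log t := by
    have hur : (2 : ℝ) ≤ u := by exact_mod_cast hu
    have huvr : (u : ℝ) ≤ v := by exact_mod_cast huv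
    have hvr : (v : ℝ) ≤ N := by exact_mod_cast hvN
    have hint : IntervalIntegrable (fun t => 1 / Real.log t) MeasureTheory.volume u v := by
      apply ContinuousOn.intervalIntegrable
      rw [Set.uIcc_of_le huvr]
      apply ContinuousOn.div continuousOn_const
      · apply Real.continuousOn_log.mono
        intro t ht
        rw [Set.mem_Icc] at ht
        simp only [Set.mem_compl_iff, Set.mem_singleton_iff]
        linarith
      · intro t ht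
        rw [Set.mem_Icc] at ht
        exact (Real.log_pos (by linarith)).ne'
    have h := intervalIntegral.integral_mono_on huvr (intervalIntegrable_const (c := 1 / Real.log N)) hint (by
      intro t ht
      rw [Set.mem_Icc] at ht
      exact one_div_le_one_div_of_le (Real.log_pos (by linarith)) (Real.log_le_log (by linarith) (by linarith)))
    rw [intervalIntegral.integral_const, smul_eq_mul] at h
    calc ((v : ℝ) - u) / Real.log N = ((v : ℝ) - u) * (1 / Real.log N) := by ring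
      _ ≤ _ := h
  obtain ⟨X, hX⟩ : ∃ X : ℝ, X = (N : ℝ) / Real.log N := ⟨_, rfl⟩
  obtain ⟨D, hD⟩ : ∃ D : ℝ, D = ((v : ℝ) - u) / Real.log N := ⟨_, rfl⟩
  obtain ⟨I, hI⟩ : ∃ I : ℝ, I = ∫ t in (2 : ℝ)..(N : ℝ), 1 / Real.log t := ⟨_, rfl⟩
  obtain ⟨I1, hI1⟩ : ∃ I1 : ℝ, I1 = ∫ t in (u : ℝ)..(v : ℝ), 1 / Real.log t := ⟨_, rfl⟩
  obtain ⟨Sg, hSg⟩ : ∃ Sg : ℝ, Sg = ∑ m ∈ Ioc u v, 1 / Real.log ((m : ℝ) ^ 2 + a) := ⟨_, rfl⟩
  have hX0 : 0 < X := by rw [hX]; positivity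
  have e1 : ((v : ℝ) - u) / (2 * Real.log N) = D / 2 := by rw [hD]; field_simp
  have e2 : S * N / Real.log N = S * X := by rw [hX]; ring
  rw [← hSg, e2] at h1
  rw [← hSg, e1, ← hX] at h2
  rw [← hI1, ← hD, ← hX] at h3
  rw [← hX, ← hI] at h4
  rw [← hX] at h5
  rw [← hD, ← hI1] at h7
  rw [← hI1, ← hI]
  have t1 := abs_le.1 h1
  have t6 := abs_le.1 h6
  have q1 : |S * (Sg - D / 2)| ≤ S * (θ * X) := by
    rw [abs_mul, abs_of_pos hS0]
    exact mul_le_mul_of_nonneg_left h2 hS0.le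
  have q2 : |S * (D - I1)| ≤ S * (θ * X) := by
    rw [abs_mul, abs_of_pos hS0]
    apply mul_le_mul_of_nonneg_left _ hS0.le
    rw [abs_le]
    constructor <;> linarith
  have q3 : θ * θ0 * X ≤ θ * S * X := by gcongr
  have q4 := abs_le.1 q1
  have q5 := abs_le.1 q2
  have q6 : θ * S * X ≤ θ * S * (2 * I) := by gcongr
  have q7 : θ * S * (2 * I) = η / 8 * (S * I) := by rw [hθe]; ring
  have q8 : 0 ≤ η * (S * I) := by
    have : 0 ≤ I := by linarith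
    positivity
  rw [abs_le]
  constructor <;> nlinarith [t1.1, t1.2, t6.1, t6.2, q4.1, q4.2, q5.1, q5.2]

/-- **The asymptotic formula for `P_a`, for almost all `|a| ≤ A`, `N^(5/6+ε) ≤ A ≤ N`.** -/
theorem both_int (ε η : ℝ) (hε : 0 < ε) (hη : 0 < η) : ∃ N0 : ℕ, ∀ N : ℕ, N0 ≤ N → ∀ A : ℕ,
    (N : ℝ) ^ (5 / 6 + ε) ≤ A → A ≤ N → ∃ Ex ⊆ Icc (-(A : ℤ)) A, (#Ex : ℝ) ≤ η * A ∧
      ∀ a ∈ Icc (-(A : ℤ)) A, a ∉ Ex → ¬ IsSquare (-a) →
      ∃ h : ℝ, 0 < h ∧ Tendsto (fun X : ℕ => ∏ w ∈ (range (X + 1)).filter (fun w => Nat.Prime w ∧ w ≠ 2),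
          (1 - (jacobiSym (-a) w : ℝ) / ((w : ℝ) - 1))) atTop (𝓝 h) ∧
        ∀ u v : ℕ, 2 ≤ u → u ≤ v → v ≤ N →
          |(#((Ioc u v).filter (fun n : ℕ => Nat.Prime ((n : ℤ) ^ 2 + a).natAbs)) : ℝ) -
            1 / 2 * h * ∫ t in (u : ℝ)..(v : ℝ), 1 / Real.log t| ≤
          η * (1 / 2 * h * ∫ t in (2 : ℝ)..(N : ℝ), 1 / Real.log t) := by
  classical
  obtain ⟨ε0, hε0⟩ : ∃ ε0 : ℝ, ε0 = min ε (1 / 6) := ⟨_, rfl⟩
  have w1 : 0 < ε0 := by rw [hε0]; exact lt_min hε (by norm_num)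
  have w2 : ε0 ≤ ε := by rw [hε0]; exact min_le_left _ _
  have w3 : ε0 ≤ 1 / 6 := by rw [hε0]; exact min_le_right _ _
  obtain ⟨θ, hθ⟩ : ∃ θ : ℝ, θ = η / 16 := ⟨_, rfl⟩
  have hθ0 : 0 < θ := by rw [hθ]; positivity
  obtain ⟨θ1, hθ1, x1, hx1⟩ := conclU 1 one_pos 1 le_rfl ε0 w1 θ hθ0
  obtain ⟨θ2, hθ2, x2, hx2⟩ := neg_hl 1 one_pos 0 (5 / 6 + ε0) θ (by linarith) (by linarith) hθ0
    (conclU 1 one_pos (5 * ((1 : ℤ) : ℝ)) (by norm_num) ε0 w1 _ (by positivity))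
  obtain ⟨x3, hx3⟩ := li_asym 1 one_pos 0 θ hθ0
  obtain ⟨x4, hx4⟩ := li_neg θ hθ0
  obtain ⟨x5, hx5⟩ := eventually_atTop.1 (li_upper2 θ hθ0)
  obtain ⟨x6, hx6⟩ := eventually_atTop.1 (Shp.log_ge 1)
  obtain ⟨x7, hx7⟩ := eventually_atTop.1 li_lower
  obtain ⟨x8, hx8⟩ := eventually_atTop.1 (Shp.log_pow_le 1 (1 / (θ * min θ1 θ2)) (1 / 2) (by norm_num))
  refine ⟨x1 + x2 + x3 + x4 + x5 + x6 + x7 + x8 + 2, fun N hN A hA1 hA2 => ?_⟩
  have hNr : (2 : ℝ) ≤ N := by exact_mod_cast (by omega : 2 ≤ N)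
  have hA1' : (N : ℝ) ^ (5 / 6 + ε0) ≤ A :=
    (Real.rpow_le_rpow_of_exponent_le (by linarith) (by linarith)).trans hA1
  have hA0 : (0 : ℝ) ≤ A := Nat.cast_nonneg _
  obtain ⟨E1, a1, a2, a3⟩ := hx1 N (by omega) 0 A (by simp) hA1' hA2
  obtain ⟨E2, b1, b2, b3⟩ := hx2 N (by omega) A hA1' hA2
  have k5 := hx5 N (by omega)
  have k6 := hx6 N (by omega)
  have k7 := hx7 N (by omega)
  have k8 := hx8 N (by omega)
  rw [pow_one] at k8
  have hL0 : 0 < Real.log N := by linarith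
  have hmin : 0 < min θ1 θ2 := lt_min hθ1 hθ2
  have k9 : (N : ℝ) ^ (1 / 2 : ℝ) ≤ θ * min θ1 θ2 * (N / Real.log N) := by
    rw [mul_div_assoc', le_div_iff₀ hL0]
    have h8 : (N : ℝ) ^ (1 / 2 : ℝ) * (N : ℝ) ^ (1 / 2 : ℝ) = N := by
      rw [← Real.rpow_add (by linarith)]; norm_num
    calc (N : ℝ) ^ (1 / 2 : ℝ) * Real.log N =
        (θ * min θ1 θ2) * ((N : ℝ) ^ (1 / 2 : ℝ) * (1 / (θ * min θ1 θ2) * Real.log N)) := by field_simp
      _ ≤ (θ * min θ1 θ2) * ((N : ℝ) ^ (1 / 2 : ℝ) * (N : ℝ) ^ (1 / 2 : ℝ)) := by gcongr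
      _ = _ := by rw [h8]
  have he : eps 1 0 = 1 := by unfold eps; norm_num
  have hg : gcdProd 1 0 = 1 := by unfold gcdProd; simp
  refine ⟨E1.image (fun c : ℕ => (c : ℤ)) ∪ E2.image (fun c : ℕ => -(c : ℤ)), ?_, ?_, ?_⟩
  · intro a ha
    rw [mem_union, mem_image, mem_image] at ha
    rw [mem_Icc]
    rcases ha with ⟨c, hc, rfl⟩ | ⟨c, hc, rfl⟩
    · have := mem_Icc.1 (a1 hc)
      omega
    · have := mem_Icc.1 (b1 hc)
      omega
  · have h1 := card_union_le (E1.image (fun c : ℕ => (c : ℤ))) (E2.image (fun c : ℕ => -(c : ℤ)))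
    have h2 : #(E1.image (fun c : ℕ => (c : ℤ))) ≤ #E1 := card_image_le
    have h3 : #(E2.image (fun c : ℕ => -(c : ℤ))) ≤ #E2 := card_image_le
    have h4 : (#(E1.image (fun c : ℕ => (c : ℤ)) ∪ E2.image (fun c : ℕ => -(c : ℤ))) : ℝ) ≤ #E1 + #E2 := by
      exact_mod_cast (by omega)
    have h5 : θ * A ≤ η / 2 * A := mul_le_mul_of_nonneg_right (by rw [hθ]; linarith) hA0
    linarith
  · intro a ha haE hsq
    rw [mem_union, not_or] at haE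
    have haI := mem_Icc.1 ha
    have habs : |a| ≤ (N : ℤ) := abs_le.2 ⟨by omega, by omega⟩
    have hadm := adm_neg a hsq
    rcases lt_trichotomy a 0 with hneg | h0 | hpos
    · -- negative
      obtain ⟨k, hk⟩ := Int.eq_ofNat_of_zero_le (by omega : 0 ≤ -a)
      have hak : a = -(k : ℤ) := by omega
      subst hak
      have hkE : k ∉ E2 := fun h => haE.2 (mem_image.2 ⟨k, h, rfl⟩)
      obtain ⟨S, m1, m2, m3, m4⟩ := b3 k (mem_Icc.2 ⟨by omega, by omega⟩) hkE hadm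
      rw [he, hg, one_mul, mul_one] at m3 m4
      have hSt' : Tendsto (fun X : ℕ => ∏ w ∈ (range (X + 1)).filter (fun w => Nat.Prime w ∧ w ≠ 2),
          (1 - (jacobiSym (-(-(k : ℤ))) w : ℝ) / ((w : ℝ) - 1))) atTop (𝓝 S) := by
        refine m2.congr fun X => ?_
        exact partialC_one _ X
      refine ⟨S, m1, hSt', fun u v hu huv hvN => ?_⟩
      have c1 := m4 u v huv hvN
      have c2 := hx4 N (by omega) k (mem_Icc.2 ⟨by omega, by omega⟩) u v huv hvN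
      refine both_one (θ := θ) (θ0 := min θ1 θ2) (S := S) hθ hη hmin ((min_le_right _ _).trans m3) habs (by omega) k6 hu huv hvN
        ?_ ?_ (k5 u v hu huv hvN) k7 k9
      · have e : ∑ m ∈ Ioc u v, 1 / Real.log (((1 : ℤ) : ℝ) * m ^ 2 + ((0 : ℤ) : ℝ) * m + ((-(k : ℤ) : ℤ) : ℝ)) =
            ∑ m ∈ Ioc u v, 1 / Real.log ((m : ℝ) ^ 2 + ((-(k : ℤ) : ℤ) : ℝ)) := by
          refine sum_congr rfl fun m _ => ?_
          push_cast
          ring_nf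
        rw [e] at c1
        exact c1
      · have e : ∑ m ∈ Ioc u v, 1 / Real.log ((m : ℝ) ^ 2 - (k : ℝ)) =
            ∑ m ∈ Ioc u v, 1 / Real.log ((m : ℝ) ^ 2 + ((-(k : ℤ) : ℤ) : ℝ)) := by
          refine sum_congr rfl fun m _ => ?_
          push_cast
          ring_nf
        rw [e] at c2
        exact c2
    · exfalso
      apply hsq
      rw [h0]
      exact ⟨0, by norm_num⟩
    · obtain ⟨c, hc⟩ := Int.eq_ofNat_of_zero_le hpos.le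
      subst hc
      have hcE : c ∉ E1 := fun h => haE.1 (mem_image.2 ⟨c, h, rfl⟩)
      obtain ⟨S, m1, m2, m3, m4⟩ := a3 c (mem_Icc.2 ⟨by omega, by omega⟩) hcE hadm
      rw [he, hg, one_mul, mul_one] at m3 m4
      have hSt' : Tendsto (fun X : ℕ => ∏ w ∈ (range (X + 1)).filter (fun w => Nat.Prime w ∧ w ≠ 2),
          (1 - (jacobiSym (-(c : ℤ)) w : ℝ) / ((w : ℝ) - 1))) atTop (𝓝 S) := by
        refine m2.congr fun X => ?_
        exact partialC_one _ X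
      refine ⟨S, m1, hSt', fun u v hu huv hvN => ?_⟩
      have c1 := m4 u v huv hvN
      have c2 := hx3 N (by omega) c (mem_Icc.2 ⟨by omega, by omega⟩) u v huv hvN
      have e : ∑ m ∈ Ioc u v, 1 / Real.log (((1 : ℤ) : ℝ) * m ^ 2 + ((0 : ℤ) : ℝ) * m + (c : ℝ)) =
          ∑ m ∈ Ioc u v, 1 / Real.log ((m : ℝ) ^ 2 + (((c : ℕ) : ℤ) : ℝ)) := by
        refine sum_congr rfl fun m _ => ?_
        push_cast
        ring_nf
      rw [e] at c1 c2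
      exact both_one (θ := θ) (θ0 := min θ1 θ2) (S := S) hθ hη hmin ((min_le_left _ _).trans m3) habs (by omega) k6 hu huv hvN
        c1 c2 (k5 u v hu huv hvN) k7 k9

end Pool.Agent.N791.U
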