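import Mathlib
import Pool.Agent.N791.U.Final

/-!
Products of two primes for negative constant terms (helper791).
-/

set_option autoImplicit false

namespace Pool.Agent.N791.U

open Finset Filter Topology Pool.Agent.N792 Pool.Agent.N792.Fn124

/-- **Products of two primes, negative constant terms.** -/
theorem neg_e2 (a : ℤ) (ha : 0 < a) (b : ℤ) (ε : ℝ) (hε : 0 < ε) (R A : ℕ) :
    ∃ x0 : ℕ, ∀ x : ℕ, x0 ≤ x → ∀ K : ℕ, (x : ℝ) ^ (1 / 2 + ε) ≤ K → K ≤ x →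
    ∃ Ex ⊆ Icc 1 K, (#Ex : ℝ) ≤ K / Real.log x ^ A ∧
      ∀ c ∈ Icc 1 K, c ∉ Ex → QE2 a ε R A x K b (-(c : ℤ)) := by
  have haR : (1 : ℝ) ≤ a := by exact_mod_cast ha
  obtain ⟨ε0, hε0⟩ : ∃ ε0 : ℝ, ε0 = min (ε / 8) (1 / 100) := ⟨_, rfl⟩
  have e1 : 0 < ε0 := by rw [hε0]; exact lt_min (by positivity) (by norm_num)
  have e2 : ε0 ≤ ε / 8 := by rw [hε0]; exact min_le_left _ _
  have e3 : ε0 ≤ 1 / 100 := by rw [hε0]; exact min_le_right _ _
  obtain ⟨A', hA'⟩ : ∃ A' : ℕ, A' = A + 1 := ⟨_, rfl⟩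
  obtain ⟨n, hn⟩ : ∃ n : ℕ, n = a.toNat := ⟨_, rfl⟩
  have hnr : (n : ℝ) = a := by
    have : ((a.toNat : ℕ) : ℤ) = a := by omega
    rw [hn]
    exact_mod_cast this
  have hn1 : 1 ≤ n := by omega
  obtain ⟨x0, hT⟩ := neg_transferG a ha b (1 / 2 + ε0) (fun x => 1 / Real.log x ^ A') (by linarith) (by linarith)
    (QE2 a ε0 (6 * n * R) A') (unif_te2 a ha (5 * a) (by linarith) (xeUt a ha (5 * a) (by linarith)) ε0 e1 (6 * n * R) A')
  obtain ⟨y1, hy1⟩ := evN' _ (Real.tendsto_log_atTop.eventually_ge_atTop (3 * a + 1))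
  obtain ⟨y3, hy3⟩ := evN' _ ((tendsto_rpow_atTop (by linarith : 0 < ε / 2)).eventually_ge_atTop (3 * a))
  obtain ⟨y4, hy4⟩ := evN' _ ((tendsto_rpow_atTop (by norm_num : (0 : ℝ) < 1 / 2)).eventually_ge_atTop (4 * R + 4))
  refine ⟨x0 + y1 + y3 + y4 + 3, fun x hx K hK1 hK2 => ?_⟩
  have hxr : (3 : ℝ) ≤ x := by exact_mod_cast (by omega : 3 ≤ x)
  have g1 := hy1 x (by omega)
  have g3 := hy3 x (by omega)
  have g4 := hy4 x (by omega)
  obtain ⟨L, hL⟩ : ∃ L : ℝ, L = Real.log x := ⟨_, rfl⟩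
  rw [← hL] at g1 ⊢
  have hL1 : 1 ≤ L := by linarith
  have hL0 : 0 < L := by linarith
  obtain ⟨Ex, k1, k2, k3⟩ := hT x (by omega) K ((Real.rpow_le_rpow_of_exponent_le (by linarith) (by linarith)).trans hK1) hK2
  rw [← hn] at k2 k3
  have hx' : ((3 * n * x : ℕ) : ℝ) = 3 * a * x := by push_cast; rw [hnr]
  have hNx' : (x : ℝ) ≤ ((3 * n * x : ℕ) : ℝ) := by rw [hx']; nlinarith
  have hlogx' : L ≤ Real.log ((3 * n * x : ℕ) : ℝ) := by
    rw [hL]; exact Real.log_le_log (by linarith) hNx'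
  have hK0 : (0 : ℝ) ≤ K := Nat.cast_nonneg _
  have hpow : 3 * (a : ℝ) * L ^ A ≤ L ^ A' := by
    rw [hA', pow_succ, mul_comm]
    exact mul_le_mul_of_nonneg_left (by linarith) (by positivity)
  refine ⟨Ex, k1, ?_, ?_⟩
  · refine k2.trans ?_
    have f1 : 1 / Real.log ((3 * n * x : ℕ) : ℝ) ^ A' ≤ 1 / L ^ A' :=
      one_div_le_one_div_of_le (by positivity) (pow_le_pow_left₀ hL0.le hlogx' _)
    calc 1 / Real.log ((3 * n * x : ℕ) : ℝ) ^ A' * (3 * a) * K ≤ 1 / L ^ A' * (3 * a) * K := by gcongr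
      _ ≤ K / L ^ A := by
        rw [le_div_iff₀ (by positivity)]
        calc 1 / L ^ A' * (3 * a) * K * L ^ A = K * ((3 * a * L ^ A) / L ^ A') := by ring
          _ ≤ K * 1 := by
            apply mul_le_mul_of_nonneg_left _ hK0
            rw [div_le_one (by positivity)]
            exact hpow
          _ = _ := by ring
  · intro c hc hcE
    obtain ⟨k, hk1, hk2, hQ⟩ := k3 c hc hcE
    have hnN : 3 * x ≤ 3 * n * x := by nlinarith
    refine QE2_shift (s := (k : ℤ)) (x' := 3 * n * x) (C' := 3 * n * K) (R' := 6 * n * R) (A' := A') (ε' := ε0)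
      (by simp only [Int.natAbs_natCast]; omega) ?_ ?_ ?_ ?_ hQ
    · intro u hu
      have hku : 2 * k ≤ u := by
        by_contra hcon
        push Not at hcon
        have t1 : (x : ℝ) ≤ R * (2 * k) := by
          have h1 : (x : ℝ) ≤ R * u := by exact_mod_cast hu
          have h2 : (u : ℝ) ≤ 2 * k := by exact_mod_cast hcon.le
          exact h1.trans (mul_le_mul_of_nonneg_left h2 (Nat.cast_nonneg _))
        have t2 : (k : ℝ) ≤ 2 * (x : ℝ) ^ (1 / 2 : ℝ) := by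
          rw [← Real.sqrt_eq_rpow]
          have q1 : (k : ℝ) ^ 2 ≤ 4 * x := by exact_mod_cast (by omega : k ^ 2 ≤ 4 * x)
          have q2 : (k : ℝ) ≤ √(4 * x) := Real.le_sqrt_of_sq_le q1
          rw [Real.sqrt_mul (by norm_num), show (4 : ℝ) = 2 ^ 2 by norm_num, Real.sqrt_sq (by norm_num)] at q2
          exact q2
        have t3 : (x : ℝ) ^ (1 / 2 : ℝ) * (x : ℝ) ^ (1 / 2 : ℝ) = x := by
          rw [← Real.rpow_add (by linarith)]; norm_num
        have t4 : 0 < (x : ℝ) ^ (1 / 2 : ℝ) := by positivity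
        have t5 : (x : ℝ) ≤ R * (4 * (x : ℝ) ^ (1 / 2 : ℝ)) := by
          refine t1.trans (mul_le_mul_of_nonneg_left (by linarith) (Nat.cast_nonneg _))
        have t6 : (x : ℝ) ^ (1 / 2 : ℝ) * (x : ℝ) ^ (1 / 2 : ℝ) ≤ (4 * R) * (x : ℝ) ^ (1 / 2 : ℝ) := by
          rw [t3]; linarith
        have t7 := le_of_mul_le_mul_right t6 t4
        linarith
      refine ⟨by omega, ?_⟩
      have hu2 : u ≤ 2 * ((u : ℤ) - k).toNat := by omega
      calc 3 * n * x ≤ 3 * n * (R * u) := Nat.mul_le_mul_left _ hu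
        _ ≤ 3 * n * (R * (2 * ((u : ℤ) - k).toNat)) := Nat.mul_le_mul_left _ (Nat.mul_le_mul_left _ hu2)
        _ = 6 * n * R * ((u : ℤ) - k).toNat := by ring
    · intro y hy
      rw [hx', Real.mul_rpow (by positivity) (by positivity)]
      push_cast at hy ⊢
      rw [hnr]
      have t1 : (3 * (a : ℝ)) ^ (3 / 2 + ε0) ≤ (3 * a) * (3 * a) := by
        calc (3 * (a : ℝ)) ^ (3 / 2 + ε0) ≤ (3 * (a : ℝ)) ^ (2 : ℝ) :=
              Real.rpow_le_rpow_of_exponent_le (by linarith) (by linarith)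
          _ = _ := by rw [Real.rpow_two]; ring
      have t2 : (3 * (a : ℝ)) * (x : ℝ) ^ (3 / 2 + ε0) ≤ (x : ℝ) ^ (3 / 2 + ε) := by
        calc (3 * (a : ℝ)) * (x : ℝ) ^ (3 / 2 + ε0) ≤ (x : ℝ) ^ (ε / 2) * (x : ℝ) ^ (3 / 2 + ε0) := by gcongr
          _ = (x : ℝ) ^ (ε / 2 + (3 / 2 + ε0)) := by rw [← Real.rpow_add (by linarith)]
          _ ≤ (x : ℝ) ^ (3 / 2 + ε) := Real.rpow_le_rpow_of_exponent_le (by linarith) (by linarith)
      calc (3 * (a : ℝ)) ^ (3 / 2 + ε0) * (x : ℝ) ^ (3 / 2 + ε0) ≤ ((3 * a) * (3 * a)) * (x : ℝ) ^ (3 / 2 + ε0) := by gcongr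
        _ = (3 * a) * ((3 * (a : ℝ)) * (x : ℝ) ^ (3 / 2 + ε0)) := by ring
        _ ≤ (3 * a) * ((K : ℝ) * y) := mul_le_mul_of_nonneg_left (t2.trans hy) (by positivity)
        _ = _ := by ring
    · calc (x : ℝ) ^ (1 - ε) ≤ (x : ℝ) ^ (1 - ε0) := Real.rpow_le_rpow_of_exponent_le (by linarith) (by linarith)
        _ ≤ _ := Real.rpow_le_rpow (Nat.cast_nonneg _) hNx' (by linarith)
    · rw [← hL]
      calc ((3 * n * x : ℕ) : ℝ) / Real.log ((3 * n * x : ℕ) : ℝ) ^ A' ≤ ((3 * n * x : ℕ) : ℝ) / L ^ A' :=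
            div_le_div_of_nonneg_left (Nat.cast_nonneg _) (by positivity) (pow_le_pow_left₀ hL0.le hlogx' _)
        _ = 3 * a * x / L ^ A' := by rw [hx']
        _ ≤ x / L ^ A := by
          rw [div_le_div_iff₀ (by positivity) (by positivity)]
          calc 3 * (a : ℝ) * x * L ^ A = x * (3 * a * L ^ A) := by ring
            _ ≤ x * L ^ A' := mul_le_mul_of_nonneg_left hpow (by positivity)

end Pool.Agent.N791.U
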